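import Mathlib

/-! An abstract criterion for two quotients of order `3^9` to be isomorphic. -/

namespace Pool.Agent.P.MP_e06b60_al

/-- A chain of subgroups with successive quotients embedded in `ZMod 3`. -/
structure Chain {A : Type} [Group A] (K : ℕ → Subgroup A) (lam : ℕ → A → ZMod 3) : Prop where
  top : K 1 = ⊤
  anti : ∀ {i j}, i ≤ j → K j ≤ K i
  mul : ∀ {i f g}, 1 ≤ i → f ∈ K i → g ∈ K i → lam i (f * g) = lam i f + lam i g
  ker : ∀ {i f}, 1 ≤ i → f ∈ K i → (f ∈ K (i + 1) ↔ lam i f = 0)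

theorem Chain.pow {A : Type} [Group A] {K : ℕ → Subgroup A} {lam : ℕ → A → ZMod 3}
    (h : Chain K lam) {i : ℕ} (hi : 1 ≤ i) {f : A} (hf : f ∈ K i) (k : ℕ) :
    lam i (f ^ k) = k * lam i f := by
  induction k with
  | zero => simpa using (h.ker hi (K i).one_mem).mp (K (i + 1)).one_mem
  | succ k ih => rw [pow_succ, h.mul hi (pow_mem hf k) hf, ih]; push_cast; ring

variable {P : Type} [Group P]

/-- The subgroup generated by `N` and the `z j` with `i ≤ j ≤ 9`. -/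
def HH (N : Subgroup P) (z : ℕ → P) (i : ℕ) : Subgroup P :=
  Subgroup.closure {x | ∃ j, i ≤ j ∧ j ≤ 9 ∧ x = z j} ⊔ N

theorem z_mem_HH {N : Subgroup P} {z : ℕ → P} {i j : ℕ} (h1 : i ≤ j) (h2 : j ≤ 9) :
    z j ∈ HH N z i :=
  Subgroup.mem_sup_left (Subgroup.subset_closure ⟨j, h1, h2, rfl⟩)

theorem N_le_HH {N : Subgroup P} {z : ℕ → P} {i : ℕ} : N ≤ HH N z i := le_sup_right

theorem HH_le {N : Subgroup P} {z : ℕ → P} {i : ℕ} {W : Subgroup P} (h1 : N ≤ W)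
    (h2 : ∀ j, i ≤ j → j ≤ 9 → z j ∈ W) : HH N z i ≤ W := by
  refine sup_le ((Subgroup.closure_le _).mpr ?_) h1
  rintro x ⟨j, h3, h4, rfl⟩
  exact h2 j h3 h4

theorem HH_anti {N : Subgroup P} {z : ℕ → P} {i j : ℕ} (h : i ≤ j) : HH N z j ≤ HH N z i :=
  HH_le N_le_HH fun _ h1 h2 => z_mem_HH (h.trans h1) h2

theorem HH_ten {N : Subgroup P} {z : ℕ → P} : HH N z 10 = N :=
  le_antisymm (HH_le le_rfl fun _ h1 h2 => by omega) N_le_HH

theorem HH_dec {N : Subgroup P} [hN : N.Normal] {z : ℕ → P} {i : ℕ}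
    (r1 : z i ^ 3 ∈ HH N z (i + 1))
    (r2 : ∀ j, i < j → j ≤ 9 → (z i)⁻¹ * z j * z i ∈ HH N z (i + 1)) {x : P}
    (hx : x ∈ HH N z i) : ∃ k < 3, ∃ y ∈ HH N z (i + 1), x = z i ^ k * y := by
  set H := HH N z (i + 1) with hH
  have c1 : ∀ y ∈ H, (z i)⁻¹ * y * z i ∈ H := by
    have : H ≤ H.comap (MulAut.conj (z i)⁻¹).toMonoidHom := by
      refine HH_le (fun n hn => ?_) fun j h1 h2 => ?_
      · exact N_le_HH (by simpa using hN.conj_mem n hn (z i)⁻¹)
      · simpa using r2 j h1 h2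
    intro y hy
    simpa using this hy
  have c2 : ∀ k : ℕ, ∀ y ∈ H, (z i ^ k)⁻¹ * y * z i ^ k ∈ H := by
    intro k
    induction k with
    | zero => simp
    | succ k ih =>
      intro y hy
      have := c1 _ (ih y hy)
      convert this using 1
      group
  let W : Subgroup P :=
    { carrier := {x | ∃ k : ℕ, ∃ y ∈ H, x = z i ^ k * y}
      one_mem' := ⟨0, 1, H.one_mem, by simp⟩
      mul_mem' := by
        rintro _ _ ⟨k, y, hy, rfl⟩ ⟨l, y', hy', rfl⟩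
        exact ⟨k + l, _, H.mul_mem (c2 l y hy) hy', by group⟩
      inv_mem' := by
        rintro _ ⟨k, y, hy, rfl⟩
        refine ⟨2 * k, _, H.mul_mem (c2 (2 * k) _ (H.inv_mem hy)) (H.inv_mem (pow_mem r1 k)), ?_⟩
        rw [← pow_mul]
        group }
  have hW : HH N z i ≤ W := by
    refine HH_le (fun n hn => ⟨0, n, N_le_HH hn, by simp⟩) fun j h1 h2 => ?_
    rcases h1.eq_or_lt with rfl | h3
    · exact ⟨1, 1, H.one_mem, by simp⟩
    · exact ⟨0, z j, z_mem_HH h3 h2, by simp⟩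
  obtain ⟨k, y, hy, rfl⟩ := hW hx
  refine ⟨k % 3, Nat.mod_lt _ (by omega), _, H.mul_mem (pow_mem r1 (k / 3)) hy, ?_⟩
  rw [← pow_mul, ← mul_assoc, ← pow_add, Nat.mod_add_div]

section side
variable {N : Subgroup P} {z : ℕ → P} {A : Type} [Group A] {K : ℕ → Subgroup A}
  {lam : ℕ → A → ZMod 3} (π : P →* A)

theorem side_inj (hc : Chain K lam) (hN : ∀ n ∈ N, π n ∈ K 10)
    (hz : ∀ i, 1 ≤ i → i ≤ 9 → π (z i) ∈ K i ∧ lam i (π (z i)) ≠ 0)
    (dec : ∀ i, 1 ≤ i → i ≤ 9 → ∀ x ∈ HH N z i, ∃ k < 3, ∃ y ∈ HH N z (i + 1), x = z i ^ k * y)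
    {x : P} (hx : x ∈ HH N z 1) (h10 : π x ∈ K 10) : x ∈ N := by
  have key : ∀ i, 1 ≤ i → i ≤ 10 → x ∈ HH N z i := by
    intro i h1 h2
    induction i, h1 using Nat.le_induction with
    | base => exact hx
    | succ i h1 ih =>
      obtain ⟨k, hk, y, hy, e⟩ := dec i h1 (by omega) x (ih (by omega))
      have hy' : π y ∈ K (i + 1) := by
        have : HH N z (i + 1) ≤ (K (i + 1)).comap π :=
          HH_le (fun n hn => hc.anti h2 (hN n hn)) fun j h3 h4 =>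
            hc.anti h3 (hz j (by omega) h4).1
        exact this hy
      have h3 : π (z i) ^ k ∈ K (i + 1) := by
        have : π (z i) ^ k = π x * (π y)⁻¹ := by rw [e]; simp
        rw [this]
        exact mul_mem (hc.anti h2 h10) (inv_mem hy')
      obtain ⟨h4, h5⟩ := hz i h1 (by omega)
      rw [hc.ker h1 (pow_mem h4 k), hc.pow h1 h4] at h3
      have hk0 : k = 0 := by
        have : ∀ k : ℕ, k < 3 → ∀ c : ZMod 3, c ≠ 0 → (k : ZMod 3) * c = 0 → k = 0 := by decide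
        exact this k hk _ h5 h3
      rw [e, hk0]
      simpa using hy
  simpa [HH_ten] using key 10 (by omega) le_rfl

theorem side_surj (hc : Chain K lam)
    (hz : ∀ i, 1 ≤ i → i ≤ 9 → π (z i) ∈ K i ∧ lam i (π (z i)) ≠ 0) (f : A) :
    ∃ x ∈ HH N z 1, f * π x ∈ K 10 := by
  have key : ∀ i, 1 ≤ i → i ≤ 10 → ∃ x ∈ HH N z 1, f * π x ∈ K i := by
    intro i h1 h2
    induction i, h1 using Nat.le_induction with
    | base => exact ⟨1, one_mem _, by rw [hc.top]; trivial⟩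
    | succ i h1 ih =>
      obtain ⟨x, hx, hf⟩ := ih (by omega)
      obtain ⟨h4, h5⟩ := hz i h1 (by omega)
      have : ∀ a c : ZMod 3, c ≠ 0 → ∃ k : ℕ, a + k * c = 0 := by
        intro a c hc
        refine ⟨(-a * c).val, ?_⟩
        rw [ZMod.natCast_zmod_val]
        revert a c; decide
      obtain ⟨k, hk⟩ := this (lam i (f * π x)) _ h5
      refine ⟨x * z i ^ k, mul_mem hx (pow_mem (z_mem_HH h1 (by omega)) k), ?_⟩
      rw [map_mul, map_pow, ← mul_assoc, hc.ker h1 (mul_mem hf (pow_mem h4 k)),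
        hc.mul h1 hf (pow_mem h4 k), hc.pow h1 h4, hk]
  exact key 10 (by omega) le_rfl

end side

theorem iso_of_chains {A B : Type} [Group A] [Group B] {KA : ℕ → Subgroup A}
    {KB : ℕ → Subgroup B} {lA : ℕ → A → ZMod 3} {lB : ℕ → B → ZMod 3}
    (hA : Chain KA lA) (hB : Chain KB lB) [(KA 10).Normal] [(KB 10).Normal] (z : ℕ → A × B)
    (hzA : ∀ i, 1 ≤ i → i ≤ 9 → (z i).1 ∈ KA i ∧ lA i (z i).1 ≠ 0)
    (hzB : ∀ i, 1 ≤ i → i ≤ 9 → (z i).2 ∈ KB i ∧ lB i (z i).2 ≠ 0)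
    (r1 : ∀ i, 1 ≤ i → i ≤ 9 → z i ^ 3 ∈ HH ((KA 10).prod (KB 10)) z (i + 1))
    (r2 : ∀ i j, 1 ≤ i → i < j → j ≤ 9 →
      (z i)⁻¹ * z j * z i ∈ HH ((KA 10).prod (KB 10)) z (i + 1)) :
    Nonempty (A ⧸ KA 10 ≃* B ⧸ KB 10) := by
  set N := (KA 10).prod (KB 10) with hN
  have dec : ∀ i, 1 ≤ i → i ≤ 9 → ∀ x ∈ HH N z i,
      ∃ k < 3, ∃ y ∈ HH N z (i + 1), x = z i ^ k * y :=
    fun i h1 h2 x hx => HH_dec (r1 i h1 h2) (fun j h3 h4 => r2 i j h1 h3 h4) hx
  have s1 : Function.Surjective (Prod.fst ∘ (HH N z 1).subtype) := by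
    intro f
    obtain ⟨x, hx, hf⟩ := side_surj (N := N) (MonoidHom.fst A B) hA hzA f
    refine ⟨⟨(f * x.1, 1) * x⁻¹, mul_mem (N_le_HH ⟨hf, one_mem _⟩) (inv_mem hx)⟩, ?_⟩
    simp
  have s2 : Function.Surjective (Prod.snd ∘ (HH N z 1).subtype) := by
    intro f
    obtain ⟨x, hx, hf⟩ := side_surj (N := N) (MonoidHom.snd A B) hB hzB f
    refine ⟨⟨(1, f * x.2) * x⁻¹, mul_mem (N_le_HH ⟨one_mem _, hf⟩) (inv_mem hx)⟩, ?_⟩
    simp
  have e1 : (HH N z 1).goursatFst = KA 10 := by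
    ext f
    rw [Subgroup.mem_goursatFst]
    constructor
    · intro h
      exact (side_inj (N := N) (MonoidHom.snd A B) hB (fun n hn => (Subgroup.mem_prod.mp hn).2)
        hzB dec h (one_mem _)).1
    · intro h
      exact N_le_HH ⟨h, one_mem _⟩
  have e2 : (HH N z 1).goursatSnd = KB 10 := by
    ext f
    rw [Subgroup.mem_goursatSnd]
    constructor
    · intro h
      exact (side_inj (N := N) (MonoidHom.fst A B) hA (fun n hn => (Subgroup.mem_prod.mp hn).1)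
        hzA dec h (one_mem _)).2
    · intro h
      exact N_le_HH ⟨one_mem _, h⟩
  have := Subgroup.normal_goursatFst s1
  have := Subgroup.normal_goursatSnd s2
  obtain ⟨e, -⟩ := Subgroup.goursat_surjective s1 s2
  exact ⟨(QuotientGroup.quotientMulEquivOfEq e1.symm).trans
    (e.trans (QuotientGroup.quotientMulEquivOfEq e2))⟩

end Pool.Agent.P.MP_e06b60_al
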