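import Mathlib

/-! Elementary facts on substitution of one-variable power series. -/

namespace Pool.Agent.P.MP_e06b60_al

open PowerSeries

variable {R : Type*} [CommRing R]

theorem coeff_subst_eq_sum (f g : R⟦X⟧) (hg : coeff 0 g = 0) (e : ℕ) :
    coeff e (f.subst g : R⟦X⟧) = ∑ d ∈ Finset.range (e + 1), coeff d f * coeff e (g ^ d) := by
  have hg' : constantCoeff g = 0 := by simpa using hg
  rw [coeff_subst' (HasSubst.of_constantCoeff_zero' hg'), finsum_eq_sum_of_support_subset (s := Finset.range (e + 1))]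
  · simp only [smul_eq_mul]
  · intro d hd
    simp only [Function.mem_support, smul_eq_mul] at hd
    simp only [Finset.coe_range, Set.mem_Iio]
    by_contra h
    apply hd
    obtain ⟨B, rfl⟩ : X ∣ g := by rwa [X_dvd_iff]
    rw [mul_pow, coeff_X_pow_mul', if_neg (by omega), mul_zero]

theorem subst_coeff_zero (f g : R⟦X⟧) (hf : coeff 0 f = 0) (hg : coeff 0 g = 0) :
    coeff 0 (f.subst g : R⟦X⟧) = 0 := by
  rw [coeff_subst_eq_sum f g hg]; simp [hf]

theorem subst_coeff_one (f g : R⟦X⟧) (hf : coeff 1 f = 1) (hg : coeff 0 g = 0)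
    (hg1 : coeff 1 g = 1) : coeff 1 (f.subst g : R⟦X⟧) = 1 := by
  rw [coeff_subst_eq_sum f g hg]; simp [Finset.sum_range_succ, hf, hg1, coeff_one]

theorem hasSubst_of {g : R⟦X⟧} (hg : coeff 0 g = 0) : HasSubst g :=
  HasSubst.of_constantCoeff_zero' (by simpa using hg)

theorem subst_assoc (f g h : R⟦X⟧) (hg : coeff 0 g = 0) (hh : coeff 0 h = 0) :
    (subst h (subst g f : R⟦X⟧) : R⟦X⟧) = subst (subst h g : R⟦X⟧) f :=
  subst_comp_subst_apply (hasSubst_of hg) (hasSubst_of hh) f

theorem isUnit_of_coeff_one {f : R⟦X⟧} (hf : coeff 1 f = 1) : IsUnit (coeff 1 f) := by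
  rw [hf]; exact isUnit_one

theorem inv_coeff_zero {f : R⟦X⟧} (hf : coeff 1 f = 1) :
    coeff 0 (f.substInvOfIsUnit (isUnit_of_coeff_one hf)) = 0 := by simp

theorem inv_coeff_one {f : R⟦X⟧} (hf : coeff 1 f = 1) :
    coeff 1 (f.substInvOfIsUnit (isUnit_of_coeff_one hf)) = 1 := by
  rw [coeff_one_substInvOfIsUnit]
  have : (isUnit_of_coeff_one hf).unit = 1 := Units.ext (by simp [hf])
  simp [this]

theorem inv_subst {f : R⟦X⟧} (hf0 : coeff 0 f = 0) (hf : coeff 1 f = 1) :
    ((f.substInvOfIsUnit (isUnit_of_coeff_one hf)).subst f : R⟦X⟧) = X :=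
  subst_substInvOfIsUnit_left f (by simpa using hf0) _

theorem subst_inv {f : R⟦X⟧} (hf0 : coeff 0 f = 0) (hf : coeff 1 f = 1) :
    (f.subst (f.substInvOfIsUnit (isUnit_of_coeff_one hf)) : R⟦X⟧) = X :=
  subst_substInvOfIsUnit_right f (by simpa using hf0) _

/-- Substitution respects congruences modulo powers of the variable. -/
theorem subst_congr {f f' g g' : R⟦X⟧} (hg : coeff 0 g = 0) (hg' : coeff 0 g' = 0) {n : ℕ}
    (h1 : X ^ n ∣ f - f') (h2 : X ^ n ∣ g - g') :
    X ^ n ∣ (f.subst g : R⟦X⟧) - (f'.subst g' : R⟦X⟧) := by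
  rw [X_pow_dvd_iff] at h1 ⊢
  intro m hm
  rw [map_sub, coeff_subst_eq_sum f g hg, coeff_subst_eq_sum f' g' hg', sub_eq_zero]
  refine Finset.sum_congr rfl fun d hd => ?_
  have hd' : d < n := by have := Finset.mem_range.mp hd; omega
  have e1 : coeff d f = coeff d f' := by simpa [sub_eq_zero] using h1 d hd'
  have h3 : X ^ n ∣ g ^ d - g' ^ d := h2.trans (sub_dvd_pow_sub_pow _ _ d)
  rw [X_pow_dvd_iff] at h3
  have e2 : coeff m (g ^ d) = coeff m (g' ^ d) := by simpa [sub_eq_zero] using h3 m hm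
  rw [e1, e2]

theorem inv_congr {f g : R⟦X⟧} (hf0 : coeff 0 f = 0) (hf : coeff 1 f = 1)
    (hg0 : coeff 0 g = 0) (hg : coeff 1 g = 1) {n : ℕ} (h : X ^ n ∣ f - g) :
    X ^ n ∣ f.substInvOfIsUnit (isUnit_of_coeff_one hf) -
      g.substInvOfIsUnit (isUnit_of_coeff_one hg) := by
  set fi := f.substInvOfIsUnit (isUnit_of_coeff_one hf)
  set gi := g.substInvOfIsUnit (isUnit_of_coeff_one hg)
  have hfi : coeff 0 fi = 0 := inv_coeff_zero hf
  have h1 : X ^ n ∣ (g.subst fi : R⟦X⟧) - (f.subst fi : R⟦X⟧) :=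
    subst_congr hfi hfi (dvd_sub_comm.mp h) (by simp)
  rw [subst_inv hf0 hf] at h1
  have h2 : X ^ n ∣ (gi.subst (g.subst fi : R⟦X⟧) : R⟦X⟧) - (gi.subst (X : R⟦X⟧) : R⟦X⟧) :=
    subst_congr (subst_coeff_zero _ _ hg0 hfi) (by simp) (by simp) h1
  rwa [← subst_assoc _ _ _ hg0 hfi, inv_subst hg0 hg, subst_X (hasSubst_of hfi), X_subst] at h2

/-- A map into coefficient sequences which respects all congruences is continuous. -/
theorem continuous_coeff_of_congr {A : Type*} [TopologicalSpace A] [TopologicalSpace R]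
    (F : A → R⟦X⟧) (hF : ∀ a n, ∀ᶠ b in nhds a, X ^ n ∣ F b - F a) :
    Continuous fun a n => coeff n (F a) := by
  refine continuous_pi fun n => continuous_iff_continuousAt.mpr fun a => ?_
  refine Filter.Tendsto.congr' ?_ (tendsto_const_nhds (x := coeff n (F a)))
  filter_upwards [hF a (n + 1)] with b hb
  rw [X_pow_dvd_iff] at hb
  have := hb n (by omega)
  rw [map_sub, sub_eq_zero] at this
  exact this.symm

theorem eventually_congr_of_continuous {A : Type*} [TopologicalSpace A] [TopologicalSpace R]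
    [DiscreteTopology R] (F : A → R⟦X⟧) (hF : Continuous fun a n => coeff n (F a)) (a : A)
    (n : ℕ) : ∀ᶠ b in nhds a, X ^ n ∣ F b - F a := by
  have : ∀ m ∈ Finset.range n, ∀ᶠ b in nhds a, coeff m (F b) = coeff m (F a) := by
    intro m _
    have hc : Continuous fun a => coeff m (F a) := (continuous_apply m).comp hF
    exact hc.continuousAt.eventually (p := fun x => x = coeff m (F a))
      ((isOpen_discrete {coeff m (F a)}).mem_nhds rfl)
  filter_upwards [(Finset.eventually_all _).mpr this] with b hb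
  rw [X_pow_dvd_iff]
  intro m hm
  rw [map_sub, hb m (Finset.mem_range.mpr hm), sub_self]

end Pool.Agent.P.MP_e06b60_al
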