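import Mathlib
import Pool.Agent.P.MP_e06b60_al.Series

namespace Pool.Agent.P.MP_e06b60_al

open PowerSeries

/-- The Nottingham group over `ZMod p`: power series `t + a_2 t^2 + a_3 t^3 + ...`. -/
def Nott (p : ℕ) : Type :=
  {f : PowerSeries (ZMod p) // coeff 0 f = 0 ∧ coeff 1 f = 1}

/-- The product `f * g` is the substitution `f(g(t))`. -/
noncomputable instance instMul (p : ℕ) : Mul (Nott p) :=
  ⟨fun f g => ⟨PowerSeries.subst g.1 f.1,
    subst_coeff_zero _ _ f.2.1 g.2.1, subst_coeff_one _ _ f.2.2 g.2.1 g.2.2⟩⟩

/-- The identity is `t`. -/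
noncomputable instance instOne (p : ℕ) : One (Nott p) := ⟨⟨X, by simp, by simp⟩⟩

/-- The inverse is the compositional inverse. -/
noncomputable instance instInv (p : ℕ) : Inv (Nott p) :=
  ⟨fun f => ⟨f.1.substInvOfIsUnit (isUnit_of_coeff_one f.2.2),
    inv_coeff_zero f.2.2, inv_coeff_one f.2.2⟩⟩

noncomputable instance instGroup (p : ℕ) : Group (Nott p) :=
  Group.ofLeftAxioms
    (fun f g h => Subtype.ext (subst_assoc f.1 g.1 h.1 g.2.1 h.2.1))
    (fun f => Subtype.ext (subst_X (hasSubst_of f.2.1)))
    (fun f => Subtype.ext (inv_subst f.2.1 f.2.2))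

/-- The topology of coefficientwise convergence (`ZMod p` is discrete); the cosets of the
subgroups `J_n` form a base. -/
noncomputable instance instTop (p : ℕ) : TopologicalSpace (Nott p) :=
  TopologicalSpace.induced (fun (f : Nott p) (n : ℕ) => coeff n f.1) inferInstance

theorem continuous_coeffs (p : ℕ) : Continuous fun (f : Nott p) (n : ℕ) => coeff n f.1 :=
  continuous_induced_dom

instance instTopGroup (p : ℕ) : IsTopologicalGroup (Nott p) where
  continuous_mul := continuous_induced_rng.mpr <|
    continuous_coeff_of_congr (fun x : Nott p × Nott p => (x.1 * x.2).1) fun a n =>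
      ((eventually_congr_of_continuous (fun x : Nott p × Nott p => x.1.1)
        ((continuous_coeffs p).comp continuous_fst) a n).and
      (eventually_congr_of_continuous (fun x : Nott p × Nott p => x.2.1)
        ((continuous_coeffs p).comp continuous_snd) a n)).mono
      fun b hb => subst_congr b.2.2.1 a.2.2.1 hb.1 hb.2
  continuous_inv := continuous_induced_rng.mpr <|
    continuous_coeff_of_congr (fun x : Nott p => (x⁻¹).1) fun a n =>
      (eventually_congr_of_continuous (fun x : Nott p => x.1) (continuous_coeffs p) a n).mono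
      fun b hb => inv_congr b.2.1 b.2.2 a.2.1 a.2.2 hb

/-- The closed lower central series, `gamma G i` being the term `γ_{i+1}(G)`. -/
def gamma (G : Type) [Group G] [TopologicalSpace G] [IsTopologicalGroup G] : ℕ → Subgroup G
  | 0 => ⊤
  | i + 1 => (⁅gamma G i, ⊤⁆ : Subgroup G).topologicalClosure

instance gamma_normal (G : Type) [Group G] [TopologicalSpace G] [IsTopologicalGroup G] :
    ∀ i : ℕ, (gamma G i).Normal
  | 0 => Subgroup.normal_top
  | i + 1 =>
    haveI := gamma_normal G i
    Subgroup.is_normal_topologicalClosure _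

end Pool.Agent.P.MP_e06b60_al
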