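import Mathlib
import Pool.Agent.P.MP_e06b60_al.Defs

/-! The filtration of the Nottingham group and its closed lower central series for `p = 3`. -/

namespace Pool.Agent.P.MP_e06b60_al

open PowerSeries
open scoped commutatorElement

section general
variable {p : ℕ}

theorem mul_val (f g : Nott p) : (f * g).1 = subst g.1 f.1 := rfl
theorem one_val : (1 : Nott p).1 = X := rfl

theorem mul_congr {f f' g g' : Nott p} {n : ℕ} (h1 : X ^ n ∣ f.1 - f'.1)
    (h2 : X ^ n ∣ g.1 - g'.1) : X ^ n ∣ (f * g).1 - (f' * g').1 :=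
  subst_congr g.2.1 g'.2.1 h1 h2

theorem inv_congr' {f g : Nott p} {n : ℕ} (h : X ^ n ∣ f.1 - g.1) :
    X ^ n ∣ (f⁻¹).1 - (g⁻¹).1 := inv_congr f.2.1 f.2.2 g.2.1 g.2.2 h

/-- The subgroup `J_n`. -/
def Jn (p n : ℕ) : Subgroup (Nott p) where
  carrier := {f | X ^ (n + 1) ∣ f.1 - (1 : Nott p).1}
  one_mem' := by simp
  mul_mem' := fun {f g} hf hg => by simpa using mul_congr hf hg
  inv_mem' := fun {f} hf => by simpa using inv_congr' hf

theorem mem_Jn {n : ℕ} {f : Nott p} : f ∈ Jn p n ↔ X ^ (n + 1) ∣ f.1 - X := Iff.rfl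

theorem inv_mul_mem_Jn {n : ℕ} {f g : Nott p} (h : X ^ (n + 1) ∣ g.1 - f.1) :
    f⁻¹ * g ∈ Jn p n := by
  have := mul_congr (f := f⁻¹) (f' := f⁻¹) (by simp) h
  rwa [inv_mul_cancel] at this

theorem congr_of_inv_mul_mem {n : ℕ} {f g : Nott p} (h : f⁻¹ * g ∈ Jn p n) :
    X ^ (n + 1) ∣ g.1 - f.1 := by
  have := mul_congr (f := f) (f' := f) (by simp) h
  simpa using this

instance Jn_normal (n : ℕ) : (Jn p n).Normal where
  conj_mem f hf g := by
    have h1 := mul_congr (f := g) (f' := g) (by simp) hf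
    have h2 := mul_congr (g := g⁻¹) (g' := g⁻¹) h1 (by simp)
    rw [mul_one, mul_inv_cancel] at h2
    exact h2

theorem Jn_isOpen (n : ℕ) : IsOpen (Jn p n : Set (Nott p)) := by
  rw [isOpen_iff_mem_nhds]
  intro f hf
  filter_upwards [eventually_congr_of_continuous (fun x : Nott p => x.1) (continuous_coeffs p) f
    (n + 1)] with g hg
  have := dvd_add hg (mem_Jn.mp hf)
  rw [sub_add_sub_cancel] at this
  exact this

theorem Jn_isClosed (n : ℕ) : IsClosed (Jn p n : Set (Nott p)) :=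
  Subgroup.isClosed_of_isOpen _ (Jn_isOpen n)

theorem Jn_anti {m n : ℕ} (h : m ≤ n) : Jn p n ≤ Jn p m := fun _ hf =>
  (pow_dvd_pow X (by omega)).trans (mem_Jn.mp hf)

theorem Jn_one : Jn p 1 = ⊤ := by
  rw [eq_top_iff]
  intro f _
  rw [mem_Jn, X_pow_dvd_iff]
  intro m hm
  obtain rfl | rfl : m = 0 ∨ m = 1 := by omega
  · rw [map_sub, f.2.1]; simp
  · simp [f.2.2]

theorem mem_succ_iff {n : ℕ} (hn : 1 ≤ n) {f : Nott p} (hf : f ∈ Jn p n) :
    f ∈ Jn p (n + 1) ↔ coeff (n + 1) f.1 = 0 := by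
  rw [mem_Jn, X_pow_dvd_iff] at *
  have hX : coeff (n + 1) (X : (ZMod p)⟦X⟧) = 0 := by rw [coeff_X, if_neg (by omega)]
  constructor
  · intro h
    simpa [hX] using h (n + 1) (by omega)
  · intro h m hm
    rcases Nat.lt_succ_iff_lt_or_eq.mp hm with h' | rfl
    · exact hf m h'
    · simp [hX, h]

theorem one_add_pow_expand {A : Type*} [CommRing A] (u : A) (n : ℕ) :
    ∃ w, (1 + u) ^ n = 1 + n * u + u ^ 2 * w := by
  induction n with
  | zero => exact ⟨0, by simp⟩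
  | succ n ih =>
    obtain ⟨w, hw⟩ := ih
    exact ⟨n + w + u * w, by rw [pow_succ, hw]; push_cast; ring⟩

theorem exists_shift {A : Type*} [CommRing A] (F : A⟦X⟧) :
    ∃ B, F = C (coeff 0 F) + X * B := by
  refine ⟨mk fun n => coeff (n + 1) F, ?_⟩
  ext n
  cases n with
  | zero => simp
  | succ n => simp [coeff_succ_X_mul]

theorem comp_formula {i j : ℕ} (hi : 1 ≤ i) (hj : 1 ≤ j) {f g : Nott p} (hf : f ∈ Jn p i)
    (hg : g ∈ Jn p j) :
    X ^ (i + j + 2) ∣ (f * g).1 - (f.1 + g.1 - X +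
      C ((i + 1 : ZMod p) * coeff (i + 1) f.1 * coeff (j + 1) g.1) * X ^ (i + j + 1)) := by
  obtain ⟨F, hF⟩ := mem_Jn.mp hf
  obtain ⟨G, hG⟩ := mem_Jn.mp hg
  have hf1 : f.1 = X + X ^ (i + 1) * F := by rw [← hF]; ring
  have hg1 : g.1 = X + X ^ (j + 1) * G := by rw [← hG]; ring
  have hs := hasSubst_of g.2.1
  have cf : coeff (i + 1) f.1 = coeff 0 F := by
    rw [hf1, map_add, coeff_X, if_neg (by omega), coeff_X_pow_mul', if_pos le_rfl]; simp
  have cg : coeff (j + 1) g.1 = coeff 0 G := by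
    rw [hg1, map_add, coeff_X, if_neg (by omega), coeff_X_pow_mul', if_pos le_rfl]; simp
  have e1 : (f * g).1 = g.1 + g.1 ^ (i + 1) * subst g.1 F := by
    rw [mul_val, hf1, subst_add hs, subst_mul hs, subst_pow hs, subst_X hs]
  obtain ⟨A, hA⟩ : X ^ (j + 1) ∣ (subst g.1 F : (ZMod p)⟦X⟧) - F := by
    have := subst_congr (f := F) (f' := F) g.2.1 (g' := X) (by simp) (n := j + 1) (by simp)
      (mem_Jn.mp hg)
    rwa [X_subst] at this
  have hA' : (subst g.1 F : (ZMod p)⟦X⟧) = F + X ^ (j + 1) * A := by rw [← hA]; ring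
  obtain ⟨B, hB⟩ := exists_shift F
  obtain ⟨D, hD⟩ := exists_shift G
  obtain ⟨j, rfl⟩ : ∃ k, j = k + 1 := ⟨j - 1, by omega⟩
  obtain ⟨w, hw⟩ := one_add_pow_expand (X ^ (j + 1) * G) (i + 1)
  have e2 : g.1 ^ (i + 1) = X ^ (i + 1) * (1 + X ^ (j + 1) * G) ^ (i + 1) := by
    rw [← mul_pow, hg1]; ring
  rw [e1, e2, hw, hA', cf, cg, map_mul, map_mul]
  have hc : (C ((i : ZMod p) + 1) : (ZMod p)⟦X⟧) = ((i + 1 : ℕ) : (ZMod p)⟦X⟧) := by simp
  rw [hc]
  set c : (ZMod p)⟦X⟧ := ((i + 1 : ℕ) : (ZMod p)⟦X⟧)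
  set F0 : (ZMod p)⟦X⟧ := C (coeff 0 F)
  set G0 : (ZMod p)⟦X⟧ := C (coeff 0 G)
  refine ⟨c * (G0 * B + D * F) + X ^ j * G ^ 2 * w * F +
    (1 + c * (X ^ (j + 1) * G) + (X ^ (j + 1) * G) ^ 2 * w) * A, ?_⟩
  rw [hf1]
  have hG' : X ^ (i + 1) * (c * (X ^ (j + 1) * G)) * F =
      X ^ (i + 1) * (c * (X ^ (j + 1) * (G0 + X * D))) * F := by rw [← hD]
  have hF' : c * X ^ (i + j + 2) * G0 * F = c * X ^ (i + j + 2) * G0 * (F0 + X * B) := by
    rw [← hB]
  linear_combination hG' + hF'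

theorem coeff_eq_of_dvd {A : Type*} [CommRing A] {a b : A⟦X⟧} {n m : ℕ} (h : X ^ n ∣ a - b)
    (hm : m < n) : coeff m a = coeff m b := by
  rw [X_pow_dvd_iff] at h
  simpa [sub_eq_zero] using h m hm

theorem lam_mul {n : ℕ} (hn : 1 ≤ n) {f g : Nott p} (hf : f ∈ Jn p n) (hg : g ∈ Jn p n) :
    coeff (n + 1) (f * g).1 = coeff (n + 1) f.1 + coeff (n + 1) g.1 := by
  rw [coeff_eq_of_dvd (comp_formula hn hn hf hg) (by omega)]
  simp only [map_add, map_sub, coeff_C_mul, coeff_X_pow, coeff_X]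
  rw [if_neg (by omega), if_neg (by omega)]; ring

theorem comm_lead {i j : ℕ} (hi : 1 ≤ i) (hj : 1 ≤ j) {f g : Nott p} (hf : f ∈ Jn p i)
    (hg : g ∈ Jn p j) :
    ⁅f, g⁆ ∈ Jn p (i + j) ∧ coeff (i + j + 1) (⁅f, g⁆ : Nott p).1 =
      ((i : ZMod p) - j) * coeff (i + 1) f.1 * coeff (j + 1) g.1 := by
  set k : ZMod p := ((i : ZMod p) - j) * coeff (i + 1) f.1 * coeff (j + 1) g.1 with hk
  have h1 := comp_formula hi hj hf hg
  have h2 := comp_formula hj hi hg hf
  rw [Nat.add_comm j i] at h2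
  have h3 : X ^ (i + j + 2) ∣ (f * g).1 - ((g * f).1 + C k * X ^ (i + j + 1)) := by
    have := dvd_sub h1 h2
    convert this using 1
    simp only [hk, map_mul, map_sub, map_add, map_one]
    ring
  set h : Nott p := (g * f)⁻¹ with hh
  have hs := hasSubst_of h.2.1
  have e : ⁅f, g⁆ = (f * g) * h := by rw [hh, commutatorElement_def]; group
  have h4 := subst_congr h.2.1 h.2.1 h3 (g := h.1) (by simp)
  have e2 : (subst h.1 (g * f).1 : (ZMod p)⟦X⟧) = X := by
    rw [← mul_val, hh, mul_inv_cancel, one_val]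
  rw [subst_add hs, subst_mul hs, subst_pow hs, subst_X hs, subst_C, e2, ← mul_val, ← e] at h4
  obtain ⟨u, hu⟩ : X ^ (1 + 1) ∣ h.1 - X := mem_Jn.mp (by rw [Jn_one]; trivial)
  obtain ⟨w, hw⟩ := one_add_pow_expand (X * u) (i + j + 1)
  have e3 : h.1 ^ (i + j + 1) = X ^ (i + j + 1) * (1 + X * u) ^ (i + j + 1) := by
    rw [← mul_pow]; congr 1; linear_combination hu
  have h5 : X ^ (i + j + 2) ∣ (⁅f, g⁆ : Nott p).1 - (X + C k * X ^ (i + j + 1)) := by
    have h6 : X ^ (i + j + 2) ∣ C k * h.1 ^ (i + j + 1) - C k * X ^ (i + j + 1) := by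
      refine ⟨C k * (((i + j + 1 : ℕ) : (ZMod p)⟦X⟧) * u + X * u ^ 2 * w), ?_⟩
      rw [e3, hw]; ring
    have := dvd_add h4 h6
    convert this using 1
    change _ = _ - (X + C k * h.1 ^ (i + j + 1)) + _
    ring
  constructor
  · rw [mem_Jn]
    have h7 : X ^ (i + j + 1) ∣ (⁅f, g⁆ : Nott p).1 - (X + C k * X ^ (i + j + 1)) :=
      (pow_dvd_pow X (by omega)).trans h5
    have := dvd_add h7 (dvd_mul_left (X ^ (i + j + 1)) (C k))
    convert this using 1
    ring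
  · rw [coeff_eq_of_dvd h5 (by omega)]
    simp only [map_add, coeff_C_mul, coeff_X_pow, coeff_X]
    rw [if_neg (by omega)]; simp

/-- The element `t + t^(n+2)` of depth `n + 1`. -/
noncomputable def el (p n : ℕ) : Nott p :=
  ⟨X + X ^ (n + 2), by simp, by simp [coeff_X_pow]⟩

theorem el_mem (n : ℕ) : el p n ∈ Jn p (n + 1) := by
  rw [mem_Jn]; simp [el]

theorem el_coeff (n : ℕ) : coeff (n + 1 + 1) (el p n).1 = 1 := by
  simp [el, coeff_X]

end general

theorem lam_pow {n : ℕ} (hn : 1 ≤ n) {f : Nott 3} (hf : f ∈ Jn 3 n) (k : ℕ) :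
    coeff (n + 1) (f ^ k).1 = k * coeff (n + 1) f.1 := by
  induction k with
  | zero => rw [pow_zero, one_val, coeff_X, if_neg (by omega)]; simp
  | succ k ih => rw [pow_succ, lam_mul hn (pow_mem hf k) hf, ih]; push_cast; ring

/-- A closed subgroup with elements of every depth `≥ m` contains `J_m`. -/
theorem Jn_le_of_closed {H : Subgroup (Nott 3)} (hH : IsClosed (H : Set (Nott 3))) {m : ℕ}
    (hm : 1 ≤ m) (h : ∀ n, m ≤ n → ∃ x ∈ H, x ∈ Jn 3 n ∧ coeff (n + 1) x.1 ≠ 0) :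
    Jn 3 m ≤ H := by
  intro f hf
  have key : ∀ n, m ≤ n → ∃ y ∈ H, f * y ∈ Jn 3 n := by
    intro n hn
    induction n, hn using Nat.le_induction with
    | base => exact ⟨1, H.one_mem, by simpa using hf⟩
    | succ n hn ih =>
      obtain ⟨y, hy, hfy⟩ := ih
      obtain ⟨x, hx, hxn, hx0⟩ := h n hn
      have : ∀ a c : ZMod 3, c ≠ 0 → ∃ k : ℕ, a + k * c = 0 := by
        intro a c hc
        refine ⟨(-a * c).val, ?_⟩
        rw [ZMod.natCast_zmod_val]
        revert a c; decide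
      obtain ⟨k, hk⟩ := this (coeff (n + 1) (f * y).1) _ hx0
      refine ⟨y * x ^ k, H.mul_mem hy (pow_mem hx k), ?_⟩
      rw [← mul_assoc, mem_succ_iff (by omega) (mul_mem hfy (pow_mem hxn k)),
        lam_mul (by omega) hfy (pow_mem hxn k), lam_pow (by omega) hxn, hk]
  choose y hyH hy using key
  have ht : Filter.Tendsto (fun n => (y (m + n) (by omega))⁻¹) Filter.atTop (nhds f) := by
    rw [show nhds f = _ from nhds_induced _ _, Filter.tendsto_comap_iff, tendsto_pi_nhds]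
    intro d
    refine tendsto_atTop_of_eventually_const (i₀ := d) fun n hn => ?_
    have h1 : ((y (m + n) (by omega))⁻¹)⁻¹ * f ∈ Jn 3 (m + n) := by
      have := (Jn_normal (p := 3) (m + n)).conj_mem _ (hy (m + n) (by omega)) f⁻¹
      simpa [mul_assoc] using this
    exact (coeff_eq_of_dvd (congr_of_inv_mul_mem h1) (by omega)).symm
  exact hH.mem_of_tendsto ht (Filter.Eventually.of_forall fun n => H.inv_mem (hyH _ _))

theorem step_eq {m m' : ℕ} (hm : 1 ≤ m)
    (h1 : (m % 3 = 1 ∧ m' = m + 2) ∨ (m % 3 = 0 ∧ m' = m + 1)) :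
    (⁅Jn 3 m, ⊤⁆ : Subgroup (Nott 3)).topologicalClosure = Jn 3 m' := by
  apply le_antisymm
  · refine Subgroup.topologicalClosure_minimal _ ?_ (Jn_isClosed _)
    rw [Subgroup.commutator_le]
    intro f hf g _
    obtain ⟨h2, h3⟩ := comm_lead hm le_rfl hf (g := g) (by rw [Jn_one]; trivial)
    rcases h1 with ⟨h4, rfl⟩ | ⟨_, rfl⟩
    · rw [mem_succ_iff (by omega) h2, h3]
      have : (m : ZMod 3) = 1 := by
        rw [← Nat.div_add_mod m 3, h4]; push_cast
        rw [show (3 : ZMod 3) = 0 from rfl]; ring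
      simp [this]
    · exact h2
  · refine Jn_le_of_closed (Subgroup.isClosed_topologicalClosure _) (by omega) ?_
    intro n hn
    by_cases h2 : n % 3 = 2
    · obtain ⟨k, rfl⟩ : ∃ k, n = k + 1 + (1 + 1) := ⟨n - 3, by omega⟩
      obtain ⟨h3, h4⟩ := comm_lead (p := 3) (by omega) (by omega) (el_mem k) (el_mem 1)
      refine ⟨_, Subgroup.le_topologicalClosure _ (Subgroup.commutator_mem_commutator
        (Jn_anti (by omega) (el_mem k)) (Subgroup.mem_top _)), h3, ?_⟩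
      rw [h4, el_coeff, el_coeff]
      have : (k : ZMod 3) = 2 := by
        rw [← Nat.div_add_mod k 3, show k % 3 = 2 by omega]; push_cast
        rw [show (3 : ZMod 3) = 0 from rfl]; ring
      push_cast
      rw [this]; decide
    · obtain ⟨k, rfl⟩ : ∃ k, n = k + 1 + (0 + 1) := ⟨n - 2, by omega⟩
      obtain ⟨h3, h4⟩ := comm_lead (p := 3) (by omega) (by omega) (el_mem k) (el_mem 0)
      refine ⟨_, Subgroup.le_topologicalClosure _ (Subgroup.commutator_mem_commutator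
        (Jn_anti (by omega) (el_mem k)) (Subgroup.mem_top _)), h3, ?_⟩
      rw [h4, el_coeff, el_coeff]
      have : (k : ZMod 3) ≠ 0 := by
        rw [Ne, ZMod.natCast_eq_zero_iff]; omega
      simpa using this

theorem gamma_J : gamma (Nott 3) 6 = Jn 3 10 := by
  have h0 : gamma (Nott 3) 0 = Jn 3 1 := Jn_one.symm
  have h1 : gamma (Nott 3) 1 = Jn 3 3 := by rw [gamma, h0]; exact step_eq (by omega) (by omega)
  have h2 : gamma (Nott 3) 2 = Jn 3 4 := by rw [gamma, h1]; exact step_eq (by omega) (by omega)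
  have h3 : gamma (Nott 3) 3 = Jn 3 6 := by rw [gamma, h2]; exact step_eq (by omega) (by omega)
  have h4 : gamma (Nott 3) 4 = Jn 3 7 := by rw [gamma, h3]; exact step_eq (by omega) (by omega)
  have h5 : gamma (Nott 3) 5 = Jn 3 9 := by rw [gamma, h4]; exact step_eq (by omega) (by omega)
  rw [gamma, h5]; exact step_eq (by omega) (by omega)

end Pool.Agent.P.MP_e06b60_al
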