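import Mathlib
import Pool.Agent.P.MP_e06b60_al.JStruct

/-! The pro-3 Iwahori subgroup of `SL_2(F_3[[t]])`. -/

namespace Pool.Agent.P.MP_e06b60_al

open PowerSeries
open scoped commutatorElement PowerSeries.WithPiTopology

abbrev RR : Type := (ZMod 3)⟦X⟧
abbrev SL2 : Type := Matrix.SpecialLinearGroup (Fin 2) RR

/-- Divisibility pattern for the entries of a matrix. -/
def Pat (i : ℕ) (M : Matrix (Fin 2) (Fin 2) RR) : Prop :=
  X ^ ((i + 2) / 3) ∣ M 0 0 ∧ X ^ ((i + 1) / 3) ∣ M 0 1 ∧ X ^ ((i + 3) / 3) ∣ M 1 0 ∧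
    X ^ ((i + 2) / 3) ∣ M 1 1

theorem dvd_mul_pow {a b : RR} {m n k : ℕ} (ha : X ^ m ∣ a) (hb : X ^ n ∣ b) (h : k ≤ m + n) :
    X ^ k ∣ a * b :=
  (pow_dvd_pow X h).trans (by rw [pow_add]; exact mul_dvd_mul ha hb)

theorem dvd_pow_le {a : RR} {m k : ℕ} (ha : X ^ m ∣ a) (h : k ≤ m) : X ^ k ∣ a :=
  (pow_dvd_pow X h).trans ha

theorem pow_zero_dvd (a : RR) : X ^ 0 ∣ a := by simp

theorem Pat.mul_right {i : ℕ} {M N : Matrix (Fin 2) (Fin 2) RR} (h : Pat i M)
    (hN : X ^ 1 ∣ N 1 0) : Pat i (M * N) := by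
  obtain ⟨h1, h2, h3, h4⟩ := h
  simp only [Pat, Matrix.mul_apply, Fin.sum_univ_two]
  refine ⟨dvd_add ?_ ?_, dvd_add ?_ ?_, dvd_add ?_ ?_, dvd_add ?_ ?_⟩
  · exact dvd_mul_pow h1 (pow_zero_dvd _) (by omega)
  · exact dvd_mul_pow h2 hN (by omega)
  · exact dvd_mul_pow h1 (pow_zero_dvd _) (by omega)
  · exact dvd_mul_pow h2 (pow_zero_dvd _) (by omega)
  · exact dvd_mul_pow h3 (pow_zero_dvd _) (by omega)
  · exact dvd_mul_pow h4 hN (by omega)
  · exact dvd_mul_pow h3 (pow_zero_dvd _) (by omega)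
  · exact dvd_mul_pow h4 (pow_zero_dvd _) (by omega)

theorem Pat.mul_left {i : ℕ} {M N : Matrix (Fin 2) (Fin 2) RR} (h : Pat i M)
    (hN : X ^ 1 ∣ N 1 0) : Pat i (N * M) := by
  obtain ⟨h1, h2, h3, h4⟩ := h
  simp only [Pat, Matrix.mul_apply, Fin.sum_univ_two]
  refine ⟨dvd_add ?_ ?_, dvd_add ?_ ?_, dvd_add ?_ ?_, dvd_add ?_ ?_⟩
  · exact dvd_mul_pow (pow_zero_dvd _) h1 (by omega)
  · exact dvd_mul_pow (pow_zero_dvd _) h3 (by omega)
  · exact dvd_mul_pow (pow_zero_dvd _) h2 (by omega)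
  · exact dvd_mul_pow (pow_zero_dvd _) h4 (by omega)
  · exact dvd_mul_pow hN h1 (by omega)
  · exact dvd_mul_pow (pow_zero_dvd _) h3 (by omega)
  · exact dvd_mul_pow hN h2 (by omega)
  · exact dvd_mul_pow (pow_zero_dvd _) h4 (by omega)

theorem Pat.add {i : ℕ} {M N : Matrix (Fin 2) (Fin 2) RR} (h : Pat i M) (h' : Pat i N) :
    Pat i (M + N) :=
  ⟨dvd_add h.1 h'.1, dvd_add h.2.1 h'.2.1, dvd_add h.2.2.1 h'.2.2.1, dvd_add h.2.2.2 h'.2.2.2⟩

theorem Pat.neg {i : ℕ} {M : Matrix (Fin 2) (Fin 2) RR} (h : Pat i M) : Pat i (-M) :=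
  ⟨dvd_neg.mpr h.1, dvd_neg.mpr h.2.1, dvd_neg.mpr h.2.2.1, dvd_neg.mpr h.2.2.2⟩

theorem Pat.anti {i j : ℕ} {M : Matrix (Fin 2) (Fin 2) RR} (h : Pat i M) (hij : j ≤ i) :
    Pat j M :=
  ⟨dvd_pow_le h.1 (by omega), dvd_pow_le h.2.1 (by omega), dvd_pow_le h.2.2.1 (by omega),
    dvd_pow_le h.2.2.2 (by omega)⟩

theorem Pat.low {i : ℕ} {g : Matrix (Fin 2) (Fin 2) RR} (h : Pat i (g - 1)) : X ^ 1 ∣ g 1 0 := by
  have := dvd_pow_le h.2.2.1 (show 1 ≤ (i + 3) / 3 by omega)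
  simpa using this

theorem inv_low {g : SL2} (h : X ^ 1 ∣ g.1 1 0) : X ^ 1 ∣ (g⁻¹).1 1 0 := by
  rw [Matrix.SpecialLinearGroup.SL2_inv_expl]
  simpa using h

/-- The Iwahori filtration. -/
def Tn (i : ℕ) : Subgroup SL2 where
  carrier := {g | Pat i (g.1 - 1)}
  one_mem' := by simp [Pat]
  mul_mem' := fun {g h} hg hh => by
    have : (g * h).1 - 1 = (g.1 - 1) * h.1 + (h.1 - 1) := by
      rw [Matrix.SpecialLinearGroup.coe_mul]; noncomm_ring
    change Pat i ((g * h).1 - 1)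
    rw [this]
    exact (Pat.mul_right hg (Pat.low hh)).add hh
  inv_mem' := fun {g} hg => by
    have h1 : g.1 * (g⁻¹).1 = 1 := by
      rw [← Matrix.SpecialLinearGroup.coe_mul, mul_inv_cancel, Matrix.SpecialLinearGroup.coe_one]
    have : (g⁻¹).1 - 1 = -((g.1 - 1) * (g⁻¹).1) := by
      rw [sub_mul, h1]; noncomm_ring
    change Pat i ((g⁻¹).1 - 1)
    rw [this]
    exact (Pat.mul_right hg (inv_low (Pat.low hg))).neg

/-- The pro-3 Iwahori subgroup. -/
abbrev SS : Type := Tn 1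

noncomputable def TS (i : ℕ) : Subgroup SS := (Tn i).subgroupOf (Tn 1)

theorem mem_TS {i : ℕ} {g : SS} : g ∈ TS i ↔ Pat i (g.1.1 - 1) := Iff.rfl

theorem SS_pat (g : SS) : Pat 1 (g.1.1 - 1) := g.2

theorem SS_low (g : SS) : X ^ 1 ∣ g.1.1 1 0 := (SS_pat g).low

theorem SS_mul (g h : SS) : (g * h).1.1 = g.1.1 * h.1.1 := rfl

theorem SS_one : (1 : SS).1.1 = 1 := rfl

theorem SS_ext {g h : SS} (e : g.1.1 = h.1.1) : g = h := Subtype.ext (Subtype.ext e)

theorem TS_one : TS 1 = ⊤ := by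
  rw [eq_top_iff]; intro g _; exact g.2

theorem TS_anti {i j : ℕ} (h : i ≤ j) : TS j ≤ TS i := fun _ hg => Pat.anti hg h

theorem inv_mul_mem_TS {i : ℕ} {g h : SS} (e : Pat i (h.1.1 - g.1.1)) : g⁻¹ * h ∈ TS i := by
  have h1 : (g⁻¹).1.1 * g.1.1 = 1 := by rw [← SS_mul, inv_mul_cancel, SS_one]
  have : (g⁻¹ * h).1.1 - 1 = (g⁻¹).1.1 * (h.1.1 - g.1.1) := by
    rw [mul_sub, h1, SS_mul]
  rw [mem_TS, this]
  exact e.mul_left (SS_low _)

theorem mul_inv_mem_TS {i : ℕ} {g h : SS} (e : Pat i (h.1.1 - g.1.1)) : h * g⁻¹ ∈ TS i := by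
  have h1 : g.1.1 * (g⁻¹).1.1 = 1 := by rw [← SS_mul, mul_inv_cancel, SS_one]
  have : (h * g⁻¹).1.1 - 1 = (h.1.1 - g.1.1) * (g⁻¹).1.1 := by
    rw [sub_mul, h1, SS_mul]
  rw [mem_TS, this]
  exact e.mul_right (SS_low _)

instance TS_normal (i : ℕ) : (TS i).Normal where
  conj_mem g hg k := by
    apply mul_inv_mem_TS
    have : (k * g).1.1 - k.1.1 = k.1.1 * (g.1.1 - 1) := by rw [mul_sub, mul_one, SS_mul]
    rw [this]
    exact Pat.mul_left hg (SS_low _)

theorem continuous_entry (i j : Fin 2) : Continuous fun g : SS => g.1.1 i j :=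
  (continuous_apply_apply i j).comp
    (Matrix.SpecialLinearGroup.isClosedEmbedding_val.continuous.comp continuous_subtype_val)

theorem isOpen_dvd {A : Type*} [TopologicalSpace A] {F : A → RR} (hF : Continuous F) (n : ℕ) :
    IsOpen {a | X ^ n ∣ F a} := by
  rw [isOpen_iff_mem_nhds]
  intro a ha
  filter_upwards [eventually_congr_of_continuous F
    (continuous_pi fun d => (WithPiTopology.continuous_coeff _ d).comp hF) a n] with b hb
  simpa using dvd_add hb ha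

theorem isOpen_pat {A : Type*} [TopologicalSpace A] {F : A → Matrix (Fin 2) (Fin 2) RR}
    (hF : Continuous F) (i : ℕ) : IsOpen {a | Pat i (F a)} :=
  (isOpen_dvd ((continuous_apply_apply 0 0).comp hF) _).inter <|
  (isOpen_dvd ((continuous_apply_apply 0 1).comp hF) _).inter <|
  (isOpen_dvd ((continuous_apply_apply 1 0).comp hF) _).inter <|
  (isOpen_dvd ((continuous_apply_apply 1 1).comp hF) _)

theorem Tn_isOpen (i : ℕ) : IsOpen (Tn i : Set SL2) :=
  isOpen_pat (F := fun g : SL2 => g.1 - 1) (continuous_subtype_val.sub continuous_const) i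

theorem TS_isOpen (i : ℕ) : IsOpen (TS i : Set SS) :=
  (Tn_isOpen i).preimage continuous_subtype_val

theorem TS_isClosed (i : ℕ) : IsClosed (TS i : Set SS) :=
  Subgroup.isClosed_of_isOpen _ (TS_isOpen i)

instance : CompactSpace RR := inferInstanceAs (CompactSpace ((Unit →₀ ℕ) → ZMod 3))

instance : TotallyDisconnectedSpace RR :=
  inferInstanceAs (TotallyDisconnectedSpace ((Unit →₀ ℕ) → ZMod 3))

instance : CompactSpace (Matrix (Fin 2) (Fin 2) RR) :=
  inferInstanceAs (CompactSpace (Fin 2 → Fin 2 → RR))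

instance : TotallyDisconnectedSpace (Matrix (Fin 2) (Fin 2) RR) :=
  inferInstanceAs (TotallyDisconnectedSpace (Fin 2 → Fin 2 → RR))

instance : CompactSpace SL2 := Matrix.SpecialLinearGroup.isClosedEmbedding_val.compactSpace

instance : T2Space SL2 := Matrix.SpecialLinearGroup.isClosedEmbedding_val.isEmbedding.t2Space

instance : TotallyDisconnectedSpace SL2 :=
  inferInstanceAs (TotallyDisconnectedSpace (Subtype _))

theorem SS_compact : CompactSpace SS :=
  isCompact_iff_compactSpace.mp (Subgroup.isClosed_of_isOpen _ (Tn_isOpen 1)).isCompact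

theorem SS_t2 : T2Space SS := inferInstance

theorem SS_td : TotallyDisconnectedSpace SS := inferInstance

theorem three_eq_zero : (3 : RR) = 0 := by
  have : (3 : RR) = C (3 : ZMod 3) := by simp [map_ofNat]
  rw [this, show (3 : ZMod 3) = 0 from rfl, map_zero]

theorem cube_sub_one (g : Matrix (Fin 2) (Fin 2) RR) :
    g ^ 3 - 1 = (g - 1) * (g - 1) * (g - 1) := by
  have h3 : (3 : Matrix (Fin 2) (Fin 2) RR) = 0 := by
    have : (3 : Matrix (Fin 2) (Fin 2) RR) = Matrix.scalar (Fin 2) (3 : RR) := by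
      simp [map_ofNat]
    rw [this, three_eq_zero, map_zero]
  have : g ^ 3 - 1 = (g - 1) * (g - 1) * (g - 1) + 3 * (g * g - g) := by noncomm_ring
  rw [this, h3]; simp

theorem pow_three_pow_dvd (g : SS) (n : ℕ) (i j : Fin 2) :
    X ^ (n + 1) ∣ ((g ^ 3 ^ (n + 1)).1.1 - 1) i j := by
  induction n generalizing i j with
  | zero =>
    have e : (g ^ 3 ^ (0 + 1)).1.1 = g.1.1 ^ 3 := rfl
    rw [e, cube_sub_one]
    obtain ⟨h1, h2, h3, h4⟩ := SS_pat g
    have : ∀ i j, X ^ 1 ∣ ((g.1.1 - 1) * (g.1.1 - 1)) i j := by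
      intro i j
      fin_cases i <;> fin_cases j <;> simp only [Matrix.mul_apply, Fin.sum_univ_two] <;>
        apply dvd_add
      · exact dvd_mul_pow h1 h1 (by omega)
      · exact dvd_mul_pow h2 h3 (by omega)
      · exact dvd_mul_pow h1 h2 (by omega)
      · exact dvd_mul_pow h2 h4 (by omega)
      · exact dvd_mul_pow h3 h1 (by omega)
      · exact dvd_mul_pow h4 h3 (by omega)
      · exact dvd_mul_pow h3 h2 (by omega)
      · exact dvd_mul_pow h4 h4 (by omega)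
    rw [Matrix.mul_apply, Fin.sum_univ_two]
    exact dvd_add ((this _ _).mul_right _) ((this _ _).mul_right _)
  | succ n ih =>
    have e : (g ^ 3 ^ (n + 1 + 1)).1.1 = (g ^ 3 ^ (n + 1)).1.1 ^ 3 := by
      rw [pow_succ 3 (n + 1), pow_mul]; rfl
    rw [e, cube_sub_one]
    have : ∀ i j, X ^ (n + 1 + 1) ∣
        (((g ^ 3 ^ (n + 1)).1.1 - 1) * ((g ^ 3 ^ (n + 1)).1.1 - 1)) i j := by
      intro i j
      rw [Matrix.mul_apply, Fin.sum_univ_two]
      exact dvd_add (dvd_mul_pow (ih _ _) (ih _ _) (by omega))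
        (dvd_mul_pow (ih _ _) (ih _ _) (by omega))
    rw [Matrix.mul_apply, Fin.sum_univ_two]
    exact dvd_add ((this _ _).mul_right _) ((this _ _).mul_right _)

theorem tendsto_pow_three (g : SS) :
    Filter.Tendsto (fun n : ℕ => g ^ 3 ^ (n + 1)) Filter.atTop (nhds 1) := by
  rw [tendsto_subtype_rng]
  refine Matrix.SpecialLinearGroup.isClosedEmbedding_val.isInducing.tendsto_nhds_iff.mpr ?_
  refine tendsto_pi_nhds.mpr fun i => tendsto_pi_nhds.mpr fun j => ?_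
  rw [WithPiTopology.tendsto_iff_coeff_tendsto]
  intro d
  refine tendsto_atTop_of_eventually_const (i₀ := d) fun n hn => ?_
  exact coeff_eq_of_dvd (pow_three_pow_dvd g n i j) (by omega)

theorem SS_pro (N : OpenNormalSubgroup SS) : IsPGroup 3 (SS ⧸ N.toSubgroup) := by
  intro q
  obtain ⟨g, rfl⟩ := QuotientGroup.mk_surjective q
  have := (tendsto_pow_three g).eventually (N.isOpen.mem_nhds N.one_mem)
  obtain ⟨n, hn⟩ := this.exists
  exact ⟨n + 1, by rw [← QuotientGroup.mk_pow, QuotientGroup.eq_one_iff]; exact hn⟩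

/-- Upper unipotent matrices. -/
noncomputable def uu (b : RR) : SS :=
  ⟨⟨!![1, b; 0, 1], by simp [Matrix.det_fin_two]⟩, by
    change Pat 1 _
    simp [Pat]⟩

/-- Lower unipotent matrices. -/
noncomputable def ll (c : RR) : SS :=
  ⟨⟨!![1, 0; X * c, 1], by simp [Matrix.det_fin_two]⟩, by
    change Pat 1 _
    simp [Pat]⟩

/-- Diagonal matrices. -/
noncomputable def dd (a a' : RR) (h : a * a' = 1) (h1 : X ∣ a - 1) : SS :=
  ⟨⟨!![a, 0; 0, a'], by simp [Matrix.det_fin_two, h]⟩, by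
    change Pat 1 _
    have : X ∣ a' - 1 := by
      have e : a' - 1 = -(a' * (a - 1)) := by linear_combination h
      rw [e]; exact dvd_neg.mpr (h1.mul_left _)
    simp [Pat, h1, this]⟩

theorem uu_val (b : RR) : (uu b).1.1 = !![1, b; 0, 1] := rfl
theorem ll_val (c : RR) : (ll c).1.1 = !![1, 0; X * c, 1] := rfl
theorem dd_val (a a' : RR) (h : a * a' = 1) (h1 : X ∣ a - 1) :
    (dd a a' h h1).1.1 = !![a, 0; 0, a'] := rfl

theorem SS_infinite : Infinite SS := by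
  refine Infinite.of_injective (fun n : ℕ => uu (X ^ n)) fun m n h => ?_
  have : (uu (X ^ m)).1.1 0 1 = (uu (X ^ n)).1.1 0 1 := by rw [show uu (X ^ m) = uu (X ^ n) from h]
  simp only [uu_val, Matrix.of_apply, Matrix.cons_val', Matrix.cons_val_one, Matrix.cons_val_zero,
    Matrix.cons_val_fin_one] at this
  have h2 := congrArg (coeff m) this
  rw [coeff_X_pow, coeff_X_pow, if_pos rfl] at h2
  by_contra hne
  rw [if_neg hne] at h2
  exact absurd h2 (by decide)

theorem uu_add (a b : RR) : uu a * uu b = uu (a + b) := by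
  apply SS_ext; rw [SS_mul]; simp [uu_val, add_comm]

theorem ll_add (a b : RR) : ll a * ll b = ll (a + b) := by
  apply SS_ext; rw [SS_mul]; simp [ll_val, mul_add]

theorem uu_zero : uu 0 = 1 := by
  apply SS_ext; rw [SS_one, uu_val, Matrix.one_fin_two]

theorem ll_zero : ll 0 = 1 := by
  apply SS_ext; rw [SS_one, ll_val, Matrix.one_fin_two, mul_zero]

theorem uu_inv (a : RR) : (uu a)⁻¹ = uu (-a) := by
  rw [_root_.inv_eq_iff_mul_eq_one, uu_add, add_neg_cancel, uu_zero]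

theorem ll_inv (a : RR) : (ll a)⁻¹ = ll (-a) := by
  rw [_root_.inv_eq_iff_mul_eq_one, ll_add, add_neg_cancel, ll_zero]

theorem comm_du (a a' : RR) (h : a * a' = 1) (h1 : X ∣ a - 1) (b : RR) :
    ⁅dd a a' h h1, uu b⁆ = uu ((a * a - 1) * b) := by
  have : dd a a' h h1 * uu b = uu (a * a * b) * dd a a' h h1 := by
    apply SS_ext; rw [SS_mul, SS_mul]; simp [uu_val, dd_val]
    rw [mul_assoc, mul_assoc, mul_comm b, ← mul_assoc a a', h, one_mul]
  rw [commutatorElement_def, this, mul_assoc (uu _), mul_inv_cancel, mul_one, uu_inv, uu_add]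
  congr 1; ring

theorem comm_dl (a a' : RR) (h : a * a' = 1) (h1 : X ∣ a - 1) (c : RR) :
    ⁅dd a a' h h1, ll c⁆ = ll ((a' * a' - 1) * c) := by
  have : dd a a' h h1 * ll c = ll (a' * a' * c) * dd a a' h h1 := by
    apply SS_ext; rw [SS_mul, SS_mul]; simp [ll_val, dd_val]
    linear_combination (-(X * a' * c)) * h
  rw [commutatorElement_def, this, mul_assoc (ll _), mul_inv_cancel, mul_one, ll_inv, ll_add]
  congr 1; ring

theorem exists_inv {a : RR} (h : X ∣ a - 1 ∨ X ∣ a - 2) : ∃ a', a * a' = 1 := by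
  refine ⟨a⁻¹, PowerSeries.mul_inv_cancel _ ?_⟩
  rcases h with h | h <;> rw [X_dvd_iff, map_sub, sub_eq_zero] at h <;> rw [h]
  · simp
  · rw [map_ofNat]; decide

theorem comm_TS {m m' : ℕ}
    (h1 : (m % 3 = 1 ∧ m' = m + 2) ∨ (m % 3 = 0 ∧ m' = m + 1)) {g : SS} (hg : g ∈ TS m)
    (h : SS) : ⁅g, h⁆ ∈ TS m' := by
  have e : ⁅g, h⁆ = (g * h) * (h * g)⁻¹ := by rw [commutatorElement_def]; group
  rw [e]
  apply mul_inv_mem_TS
  have e2 : (g * h).1.1 - (h * g).1.1 =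
      (g.1.1 - 1) * (h.1.1 - 1) - (h.1.1 - 1) * (g.1.1 - 1) := by
    rw [SS_mul, SS_mul]; noncomm_ring
  rw [e2]
  obtain ⟨a1, a2, a3, a4⟩ := mem_TS.mp hg
  obtain ⟨b1, b2, b3, b4⟩ := SS_pat h
  generalize g.1.1 - 1 = M at *
  generalize h.1.1 - 1 = N at *
  simp only [Pat, Matrix.sub_apply, Matrix.mul_apply, Fin.sum_univ_two]
  refine ⟨?_, ?_, ?_, ?_⟩
  · have : M 0 0 * N 0 0 + M 0 1 * N 1 0 - (N 0 0 * M 0 0 + N 0 1 * M 1 0) =
        M 0 1 * N 1 0 - N 0 1 * M 1 0 := by ring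
    rw [this]
    exact dvd_sub (dvd_mul_pow a2 b3 (by omega)) (dvd_mul_pow b2 a3 (by omega))
  · exact dvd_sub (dvd_add (dvd_mul_pow a1 b2 (by omega)) (dvd_mul_pow a2 b4 (by omega)))
      (dvd_add (dvd_mul_pow b1 a2 (by omega)) (dvd_mul_pow b2 a4 (by omega)))
  · exact dvd_sub (dvd_add (dvd_mul_pow a3 b1 (by omega)) (dvd_mul_pow a4 b3 (by omega)))
      (dvd_add (dvd_mul_pow b3 a1 (by omega)) (dvd_mul_pow b4 a3 (by omega)))
  · have : M 1 0 * N 0 1 + M 1 1 * N 1 1 - (N 1 0 * M 0 1 + N 1 1 * M 1 1) =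
        M 1 0 * N 0 1 - N 1 0 * M 0 1 := by ring
    rw [this]
    exact dvd_sub (dvd_mul_pow a3 b2 (by omega)) (dvd_mul_pow b3 a2 (by omega))

theorem step_le {m m' : ℕ}
    (h1 : (m % 3 = 1 ∧ m' = m + 2) ∨ (m % 3 = 0 ∧ m' = m + 1)) {H : Subgroup SS}
    (hH : H ≤ TS m) : (⁅H, ⊤⁆ : Subgroup SS).topologicalClosure ≤ TS m' := by
  refine Subgroup.topologicalClosure_minimal _ ?_ (TS_isClosed _)
  rw [Subgroup.commutator_le]
  intro f hf g _
  exact comm_TS h1 (hH hf) g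

theorem gamma_S_le : gamma SS 6 ≤ TS 10 := by
  have h0 : gamma SS 0 ≤ TS 1 := by rw [TS_one]; exact le_top
  have h1 : gamma SS 1 ≤ TS 3 := step_le (by omega) h0
  have h2 : gamma SS 2 ≤ TS 4 := step_le (by omega) h1
  have h3 : gamma SS 3 ≤ TS 6 := step_le (by omega) h2
  have h4 : gamma SS 4 ≤ TS 7 := step_le (by omega) h3
  have h5 : gamma SS 5 ≤ TS 9 := step_le (by omega) h4
  exact step_le (by omega) h5

theorem comm_mem_gamma {k : ℕ} {g : SS} (hg : g ∈ gamma SS k) (h : SS) :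
    ⁅g, h⁆ ∈ gamma SS (k + 1) :=
  Subgroup.le_topologicalClosure _ (Subgroup.commutator_mem_commutator hg (Subgroup.mem_top _))

theorem comm_mem_gamma' {k : ℕ} {g : SS} (hg : g ∈ gamma SS k) (h : SS) :
    ⁅h, g⁆ ∈ gamma SS (k + 1) := by
  rw [← commutatorElement_inv]
  exact inv_mem (comm_mem_gamma hg h)

theorem gamma_succ_le (k : ℕ) : gamma SS (k + 1) ≤ gamma SS k := by
  refine Subgroup.topologicalClosure_minimal _ (Subgroup.commutator_le_left _ _) ?_
  cases k with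
  | zero => exact isClosed_univ
  | succ k => exact Subgroup.isClosed_topologicalClosure _

theorem exists_factor (j : ℕ) (b : RR) : ∃ a a' : RR, a * a' = 1 ∧ X ^ (j + 1) ∣ a - 1 ∧
    (∃ b', X ^ (j + 1) * b = (a * a - 1) * b') ∧ (∃ b', X ^ (j + 1) * b = (a' * a' - 1) * b') := by
  obtain ⟨a', ha⟩ := exists_inv (a := 1 + X ^ (j + 1)) (Or.inl (by simp))
  obtain ⟨w, hw⟩ := exists_inv (a := 2 + X ^ (j + 1)) (Or.inr (by simp))
  refine ⟨1 + X ^ (j + 1), a', ha, by simp, ⟨w * b, ?_⟩,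
    ⟨-((1 + X ^ (j + 1)) ^ 2 * w * b), ?_⟩⟩
  · linear_combination (-(X ^ (j + 1) * b)) * hw
  · linear_combination (-(X ^ (j + 1) * b)) * hw +
      (w * b * ((1 + X ^ (j + 1)) * a' + 1)) * ha

def PA (j : ℕ) : Prop :=
  ∀ b, uu (X ^ j * b) ∈ gamma SS (2 * j) ∧ ll (X ^ j * b) ∈ gamma SS (2 * j)

def PB (j : ℕ) : Prop :=
  ∀ (a a' : RR) (h : a * a' = 1) (h1 : X ∣ a - 1), X ^ (j + 1) ∣ a - 1 →
    dd a a' h h1 ∈ gamma SS (2 * j + 1)

theorem PB_of_PA {j : ℕ} (hA : PA j) : PB j := by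
  have hC : ∀ b, uu (X ^ (j + 1) * b) ∈ gamma SS (2 * j + 1) ∧
      ll (X ^ (j + 1) * b) ∈ gamma SS (2 * j + 1) := by
    intro b
    obtain ⟨a, a', h, h1, ⟨b1, hb1⟩, ⟨b2, hb2⟩⟩ := exists_factor 0 b
    have h1' : X ∣ a - 1 := by simpa using h1
    constructor
    · have := comm_mem_gamma' (hA b1).1 (dd a a' h h1')
      rw [comm_du] at this
      convert this using 2
      linear_combination X ^ j * hb1
    · have := comm_mem_gamma' (hA b2).2 (dd a a' h h1')
      rw [comm_dl] at this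
      convert this using 2
      linear_combination X ^ j * hb2
  intro a a' h h1 ⟨β, hβ⟩
  have e : uu (X ^ j * β) * ll 1 = ll a' * dd a a' h h1 * uu (X ^ j * β * a') := by
    apply SS_ext; rw [SS_mul, SS_mul, SS_mul]
    simp only [uu_val, ll_val, dd_val, Matrix.mul_fin_two]
    congrm !![?_, ?_; ?_, ?_]
    · linear_combination -hβ
    · linear_combination (-(X ^ j * β)) * h
    · linear_combination (-X) * h
    · linear_combination (-(X * X ^ j * β * a') - 1) * h + a' * hβ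
  have e2 : dd a a' h h1 = ⁅(ll a')⁻¹, uu (X ^ j * β)⁆ *
      (uu (X ^ j * β) * ((ll a')⁻¹ * ll 1) * (uu (X ^ j * β))⁻¹) *
      (uu (X ^ j * β) * (uu (X ^ j * β * a'))⁻¹) := by
    have : dd a a' h h1 = (ll a')⁻¹ * (uu (X ^ j * β) * ll 1) * (uu (X ^ j * β * a'))⁻¹ := by
      rw [e]; group
    rw [this, commutatorElement_def]; group
  rw [e2]
  refine mul_mem (mul_mem (comm_mem_gamma' (hA β).1 _) ?_) ?_
  · apply (gamma_normal SS _).conj_mem
    rw [ll_inv, ll_add]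
    convert (hC (β * a')).2 using 2
    linear_combination a' * hβ - h
  · rw [uu_inv, uu_add]
    convert (hC (X ^ j * β * β * a')).1 using 2
    linear_combination (X ^ j * β * a') * hβ - (X ^ j * β) * h

theorem PA_of_PB {j : ℕ} (hB : PB j) : PA (j + 1) := by
  intro b
  obtain ⟨a, a', h, h1, ⟨b1, hb1⟩, ⟨b2, hb2⟩⟩ := exists_factor j b
  have h1' : X ∣ a - 1 := (dvd_pow_self X (by omega)).trans h1
  constructor
  · have := comm_mem_gamma (hB a a' h h1' h1) (uu b1)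
    rwa [comm_du, ← hb1] at this
  · have := comm_mem_gamma (hB a a' h h1' h1) (ll b2)
    rwa [comm_dl, ← hb2] at this

theorem PA_all (j : ℕ) : PA j := by
  induction j with
  | zero => intro b; exact ⟨Subgroup.mem_top _, Subgroup.mem_top _⟩
  | succ j ih => exact PA_of_PB (PB_of_PA ih)

theorem SS_det (g : SS) : g.1.1 0 0 * g.1.1 1 1 - g.1.1 0 1 * g.1.1 1 0 = 1 := by
  rw [← Matrix.det_fin_two]; exact g.1.2

theorem gamma_S : gamma SS 6 = TS 10 := by
  refine le_antisymm gamma_S_le fun g hg => ?_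
  obtain ⟨h1, ⟨b, hb⟩, ⟨c, hc⟩, -⟩ := mem_TS.mp hg
  simp only [Matrix.sub_apply, Matrix.one_apply_eq, ne_eq, zero_ne_one, not_false_eq_true,
    Matrix.one_apply_ne, sub_zero, one_ne_zero] at h1 hb hc
  norm_num at h1 hb hc
  have h1' : X ∣ g.1.1 0 0 - 1 := (dvd_pow_self X (by omega)).trans h1
  obtain ⟨a', ha⟩ := exists_inv (Or.inl h1')
  have hd := SS_det g
  have e : g = ll (X ^ 3 * (c * a')) * dd _ a' ha h1' * uu (X ^ 3 * (b * a')) := by
    apply SS_ext; rw [SS_mul, SS_mul]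
    simp only [uu_val, ll_val, dd_val, Matrix.mul_fin_two]
    rw [Matrix.eta_fin_two g.1.1]
    congrm !![?_, ?_; ?_, ?_]
    · simp
    · simp only [Matrix.of_apply, Matrix.cons_val', Matrix.cons_val_zero, Matrix.cons_val_fin_one]
      linear_combination hb - (X ^ 3 * b) * ha
    · simp only [Matrix.of_apply, Matrix.cons_val', Matrix.cons_val_zero, Matrix.cons_val_fin_one]
      linear_combination hc - (X ^ 4 * c) * ha
    · simp only [Matrix.of_apply, Matrix.cons_val', Matrix.cons_val_zero, Matrix.cons_val_fin_one]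
      rw [hb, hc] at hd
      linear_combination a' * hd - (g.1.1 1 1 + X ^ 7 * b * c * a') * ha
  rw [e]
  exact mul_mem (mul_mem (PA_all 3 _).2
    (gamma_succ_le 6 (PB_of_PA (PA_all 3) _ _ ha h1' h1))) (PA_all 3 _).1

/-- Centralisers of nontrivial elements are abelian. -/
theorem SS_CT {x y z : SS} (hx : x ≠ 1) (hy : x * y = y * x) (hz : x * z = z * x) :
    y * z = z * y := by
  have hy' : x.1.1 * y.1.1 = y.1.1 * x.1.1 := by rw [← SS_mul, ← SS_mul, hy]
  have hz' : x.1.1 * z.1.1 = z.1.1 * x.1.1 := by rw [← SS_mul, ← SS_mul, hz]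
  have hd := SS_det x
  have hx1 : X ^ 1 ∣ x.1.1 0 0 - 1 := by simpa using (SS_pat x).1
  have hne : ¬ (x.1.1 0 1 = 0 ∧ x.1.1 1 0 = 0 ∧ x.1.1 0 0 - x.1.1 1 1 = 0) := by
    rintro ⟨h1, h2, h3⟩
    apply hx
    have h4 : (x.1.1 0 0 - 1) * (x.1.1 0 0 + 1) = 0 := by
      rw [h1] at hd
      linear_combination hd + x.1.1 0 0 * h3
    have h5 : x.1.1 0 0 + 1 ≠ 0 := by
      intro h
      rw [pow_one, X_dvd_iff, map_sub, sub_eq_zero] at hx1
      have := congrArg constantCoeff h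
      rw [map_add, hx1] at this
      simp only [map_one, map_zero] at this
      exact absurd this (by decide)
    have h6 : x.1.1 0 0 = 1 := sub_eq_zero.mp ((mul_eq_zero.mp h4).resolve_right h5)
    have h7 : x.1.1 1 1 = 1 := by linear_combination h6 - h3
    apply SS_ext
    rw [SS_one, Matrix.eta_fin_two x.1.1, h1, h2, h6, h7, Matrix.one_fin_two]
  apply SS_ext
  rw [SS_mul, SS_mul]
  generalize x.1.1 = A at *
  generalize y.1.1 = B at *
  generalize z.1.1 = D at *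
  have b00 := congrFun (congrFun hy' 0) 0
  have b01 := congrFun (congrFun hy' 0) 1
  have b10 := congrFun (congrFun hy' 1) 0
  have d00 := congrFun (congrFun hz' 0) 0
  have d01 := congrFun (congrFun hz' 0) 1
  have d10 := congrFun (congrFun hz' 1) 0
  simp only [Matrix.mul_apply, Fin.sum_univ_two] at b00 b01 b10 d00 d01 d10
  have key : B 0 1 * D 1 0 - D 0 1 * B 1 0 = 0 ∧
      B 0 1 * (D 0 0 - D 1 1) - D 0 1 * (B 0 0 - B 1 1) = 0 ∧
      B 1 0 * (D 0 0 - D 1 1) - D 1 0 * (B 0 0 - B 1 1) = 0 := by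
    by_cases h1 : A 0 1 = 0
    · by_cases h2 : A 1 0 = 0
      · have h3 : A 0 0 - A 1 1 ≠ 0 := fun h => hne ⟨h1, h2, h⟩
        refine ⟨mul_left_cancel₀ h3 ?_, mul_left_cancel₀ h3 ?_, mul_left_cancel₀ h3 ?_⟩
        · linear_combination D 1 0 * b01 + D 0 1 * b10 + (B 0 0 - B 1 1) * d00
        · linear_combination (D 0 0 - D 1 1) * b01 - (B 0 0 - B 1 1) * d01
        · linear_combination (B 0 0 - B 1 1) * d10 - (D 0 0 - D 1 1) * b10
      · refine ⟨mul_left_cancel₀ h2 ?_, mul_left_cancel₀ h2 ?_, mul_left_cancel₀ h2 ?_⟩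
        · linear_combination B 1 0 * d00 - D 1 0 * b00
        · linear_combination -(B 1 0 * d01) - (D 0 0 - D 1 1) * b00 - D 0 1 * b10
        · linear_combination B 1 0 * d10 - D 1 0 * b10
    · refine ⟨mul_left_cancel₀ h1 ?_, mul_left_cancel₀ h1 ?_, mul_left_cancel₀ h1 ?_⟩
      · linear_combination B 0 1 * d00 - D 0 1 * b00
      · linear_combination D 0 1 * b01 - B 0 1 * d01
      · linear_combination B 0 1 * d10 + (D 0 0 - D 1 1) * b00 + D 1 0 * b01
  obtain ⟨k1, k2, k3⟩ := key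
  refine Matrix.ext fun i j => ?_
  fin_cases i <;> fin_cases j <;> simp only [Matrix.mul_apply, Fin.sum_univ_two, Fin.zero_eta,
    Fin.mk_one, Fin.isValue]
  · linear_combination k1
  · linear_combination -k2
  · linear_combination k3
  · linear_combination -k1

end Pool.Agent.P.MP_e06b60_al
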