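import Mathlib
import Pool.Agent.P.MP_e06b60_al.SStruct
import Pool.Agent.P.MP_e06b60_al.Chain

/-! Truncated arithmetic and the certificate for the isomorphism of the two quotients. -/

namespace Pool.Agent.P.MP_e06b60_al

open PowerSeries

abbrev LL : Type := List (ZMod 3)

noncomputable def toPS : LL → RR
  | [] => 0
  | a :: l => C a + X * toPS l

def ladd : LL → LL → LL
  | [], m => m
  | a :: l, [] => a :: l
  | a :: l, b :: m => (a + b) :: ladd l m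

def lsmul (a : ZMod 3) : ℕ → LL → LL
  | 0, _ => []
  | _ + 1, [] => []
  | n + 1, b :: m => (a * b) :: lsmul a n m

def lmul : ℕ → LL → LL → LL
  | 0, _, _ => []
  | _ + 1, [], _ => []
  | n + 1, a :: l, m => ladd (lsmul a (n + 1) m) (0 :: lmul n l m)

def lcomp (n : ℕ) : LL → LL → LL
  | [], _ => []
  | a :: l, g => ladd [a] (lmul n g (lcomp n l g))

def leq (n : ℕ) (l m : LL) : Bool := (List.range n).all fun i => l.getD i 0 == m.getD i 0

theorem toPS_ladd : ∀ l m : LL, toPS (ladd l m) = toPS l + toPS m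
  | [], m => by simp [ladd, toPS]
  | a :: l, [] => by simp [ladd, toPS]
  | a :: l, b :: m => by simp only [ladd, toPS, toPS_ladd l m, map_add]; ring

theorem toPS_lsmul (a : ZMod 3) : ∀ (n : ℕ) (m : LL),
    X ^ n ∣ C a * toPS m - toPS (lsmul a n m)
  | 0, _ => by simp
  | _ + 1, [] => by simp [lsmul, toPS]
  | n + 1, b :: m => by
    obtain ⟨w, hw⟩ := toPS_lsmul a n m
    refine ⟨w, ?_⟩
    simp only [lsmul, toPS, map_mul]
    linear_combination X * hw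

theorem toPS_lmul : ∀ (n : ℕ) (l m : LL), X ^ n ∣ toPS l * toPS m - toPS (lmul n l m)
  | 0, _, _ => by simp
  | _ + 1, [], _ => by simp [lmul, toPS]
  | n + 1, a :: l, m => by
    obtain ⟨w, hw⟩ := toPS_lmul n l m
    obtain ⟨v, hv⟩ := toPS_lsmul a (n + 1) m
    refine ⟨w + v, ?_⟩
    simp only [lmul, toPS, toPS_ladd, map_zero]
    linear_combination X * hw + hv

theorem toPS_lcomp (n : ℕ) (g : LL) (hg : coeff 0 (toPS g) = 0) : ∀ f : LL,
    X ^ n ∣ (subst (toPS g) (toPS f) : RR) - toPS (lcomp n f g)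
  | [] => by
    have : (subst (toPS g) (0 : RR) : RR) = 0 := by
      rw [← coe_substAlgHom (hasSubst_of hg), map_zero]
    simp [lcomp, toPS, this]
  | a :: l => by
    have hs := hasSubst_of hg
    obtain ⟨w, hw⟩ := toPS_lcomp n g hg l
    obtain ⟨v, hv⟩ := toPS_lmul n g (lcomp n l g)
    refine ⟨toPS g * w + v, ?_⟩
    simp only [lcomp, toPS, toPS_ladd]
    rw [subst_add hs, subst_mul hs, subst_X hs, subst_C]
    change C a + toPS g * (subst (toPS g) (toPS l) : RR) - _ = _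
    linear_combination toPS g * hw + hv

theorem coeff_toPS : ∀ (l : LL) (i : ℕ), coeff i (toPS l) = l.getD i 0
  | [], i => by simp [toPS]
  | a :: l, 0 => by simp [toPS]
  | a :: l, i + 1 => by
    simp only [toPS, map_add, coeff_succ_X_mul, coeff_toPS l i, coeff_C]
    simp

theorem dvd_of_leq {n : ℕ} {l m : LL} (h : leq n l m = true) : X ^ n ∣ toPS l - toPS m := by
  rw [X_pow_dvd_iff]
  intro i hi
  simp only [leq, List.all_eq_true, List.mem_range, beq_iff_eq] at h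
  rw [map_sub, coeff_toPS, coeff_toPS, h i hi, sub_self]

theorem dvd_trans' {n : ℕ} {a b c : RR} (h1 : X ^ n ∣ a - b) (h2 : X ^ n ∣ b - c) :
    X ^ n ∣ a - c := by
  simpa using dvd_add h1 h2

/-- A list represents an element of the Nottingham group modulo `t^n`. -/
def RepJ (n : ℕ) (f : Nott 3) (l : LL) : Prop := X ^ n ∣ f.1 - toPS l

theorem RepJ.mul {n : ℕ} (hn : 0 < n) {f g : Nott 3} {l m : LL} (h1 : RepJ n f l)
    (h2 : RepJ n g m) : RepJ n (f * g) (lcomp n l m) := by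
  have h0 : coeff 0 (toPS m) = 0 := by rw [← coeff_eq_of_dvd h2 hn]; exact g.2.1
  exact dvd_trans' (subst_congr g.2.1 h0 h1 h2) (toPS_lcomp n m h0 l)

theorem repJ_one (n : ℕ) : RepJ n 1 [0, 1] := by
  simp [RepJ, toPS, one_val]

abbrev MM : Type := LL × LL × LL × LL

def mmul (A B : MM) : MM :=
  (ladd (lmul 4 A.1 B.1) (lmul 4 A.2.1 B.2.2.1), ladd (lmul 4 A.1 B.2.1) (lmul 4 A.2.1 B.2.2.2),
   ladd (lmul 4 A.2.2.1 B.1) (lmul 4 A.2.2.2 B.2.2.1),
   ladd (lmul 4 A.2.2.1 B.2.1) (lmul 4 A.2.2.2 B.2.2.2))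

def RepS (g : SS) (A : MM) : Prop :=
  X ^ 4 ∣ g.1.1 0 0 - toPS A.1 ∧ X ^ 4 ∣ g.1.1 0 1 - toPS A.2.1 ∧
  X ^ 4 ∣ g.1.1 1 0 - toPS A.2.2.1 ∧ X ^ 4 ∣ g.1.1 1 1 - toPS A.2.2.2

theorem rep_entry {a b c d : RR} {a' b' c' d' : LL} (ha : X ^ 4 ∣ a - toPS a')
    (hb : X ^ 4 ∣ b - toPS b') (hc : X ^ 4 ∣ c - toPS c') (hd : X ^ 4 ∣ d - toPS d') :
    X ^ 4 ∣ a * b + c * d - toPS (ladd (lmul 4 a' b') (lmul 4 c' d')) := by
  obtain ⟨w1, h1⟩ := ha
  obtain ⟨w2, h2⟩ := hb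
  obtain ⟨w3, h3⟩ := hc
  obtain ⟨w4, h4⟩ := hd
  obtain ⟨w5, h5⟩ := toPS_lmul 4 a' b'
  obtain ⟨w6, h6⟩ := toPS_lmul 4 c' d'
  refine ⟨w1 * b + toPS a' * w2 + w3 * d + toPS c' * w4 + w5 + w6, ?_⟩
  rw [toPS_ladd]
  linear_combination b * h1 + toPS a' * h2 + d * h3 + toPS c' * h4 + h5 + h6

theorem RepS.mul {g h : SS} {A B : MM} (h1 : RepS g A) (h2 : RepS h B) :
    RepS (g * h) (mmul A B) := by
  obtain ⟨a1, a2, a3, a4⟩ := h1
  obtain ⟨b1, b2, b3, b4⟩ := h2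
  simp only [RepS, SS_mul, Matrix.mul_apply, Fin.sum_univ_two, mmul]
  exact ⟨rep_entry a1 b1 a2 b3, rep_entry a1 b2 a2 b4, rep_entry a3 b1 a4 b3,
    rep_entry a3 b2 a4 b4⟩

def mone : MM := ([1], [], [], [1])

theorem repS_one : RepS 1 mone := by
  simp [RepS, toPS, mone]

theorem repS_uu (b : LL) : RepS (uu (toPS b)) ([1], b, [], [1]) := by
  simp [RepS, toPS, uu_val]

theorem repS_ll (c : LL) : RepS (ll (toPS c)) ([1], [], 0 :: c, [1]) := by
  simp [RepS, toPS, ll_val]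

def meq (i : ℕ) (A B : MM) : Bool :=
  leq ((i + 2) / 3) A.1 B.1 && leq ((i + 1) / 3) A.2.1 B.2.1 &&
  leq ((i + 3) / 3) A.2.2.1 B.2.2.1 && leq ((i + 2) / 3) A.2.2.2 B.2.2.2

theorem entry_of_leq {n : ℕ} (hn : n ≤ 4) {a b : RR} {l m : LL} (ha : X ^ 4 ∣ a - toPS l)
    (hb : X ^ 4 ∣ b - toPS m) (h : leq n l m = true) : X ^ n ∣ a - b :=
  dvd_trans' (dvd_trans' (dvd_pow_le ha hn) (dvd_of_leq h)) (dvd_sub_comm.mp (dvd_pow_le hb hn))

theorem pat_of_meq {i : ℕ} (hi : i ≤ 10) {g h : SS} {A B : MM} (h1 : RepS g A) (h2 : RepS h B)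
    (e : meq i A B = true) : Pat i (g.1.1 - h.1.1) := by
  simp only [meq, Bool.and_eq_true] at e
  obtain ⟨⟨⟨e1, e2⟩, e3⟩, e4⟩ := e
  exact ⟨entry_of_leq (by omega) h1.1 h2.1 e1, entry_of_leq (by omega) h1.2.1 h2.2.1 e2,
    entry_of_leq (by omega) h1.2.2.1 h2.2.2.1 e3, entry_of_leq (by omega) h1.2.2.2 h2.2.2.2 e4⟩

/-! The chains. -/

theorem chainJ : Chain (Jn 3) (fun i f => coeff (i + 1) f.1) where
  top := Jn_one
  anti := Jn_anti
  mul := fun hi hf hg => lam_mul hi hf hg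
  ker := fun hi hf => mem_succ_iff hi hf

noncomputable def lamS (i : ℕ) (g : SS) : ZMod 3 :=
  if i % 3 = 1 then coeff ((i + 1) / 3) (g.1.1 0 1)
  else if i % 3 = 2 then coeff ((i + 3) / 3) (g.1.1 1 0) else coeff ((i + 2) / 3) (g.1.1 0 0)

theorem dvd_succ_iff {a : RR} {n : ℕ} (h : X ^ n ∣ a) : X ^ (n + 1) ∣ a ↔ coeff n a = 0 := by
  rw [X_pow_dvd_iff] at *
  constructor
  · intro h'; exact h' n (by omega)
  · intro h' m hm
    rcases Nat.lt_succ_iff_lt_or_eq.mp hm with h'' | rfl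
    · exact h m h''
    · exact h'

theorem mem_TS' {i : ℕ} {g : SS} : g ∈ TS i ↔ X ^ ((i + 2) / 3) ∣ g.1.1 0 0 - 1 ∧
    X ^ ((i + 1) / 3) ∣ g.1.1 0 1 ∧ X ^ ((i + 3) / 3) ∣ g.1.1 1 0 ∧
    X ^ ((i + 2) / 3) ∣ g.1.1 1 1 - 1 := by
  simp [mem_TS, Pat]

theorem chainS : Chain TS lamS where
  top := TS_one
  anti := TS_anti
  mul := by
    intro i f g hi hf hg
    obtain ⟨a1, a2, a3, a4⟩ := mem_TS'.mp hf
    obtain ⟨b1, b2, b3, b4⟩ := mem_TS'.mp hg
    simp only [lamS, SS_mul, Matrix.mul_apply, Fin.sum_univ_two]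
    split_ifs with h1 h2
    · rw [← map_add]
      refine coeff_eq_of_dvd (n := (i + 1) / 3 + 1) ?_ (by omega)
      have := dvd_add (dvd_mul_pow a1 b2 (k := (i + 1) / 3 + 1) (by omega))
        (dvd_mul_pow a2 b4 (k := (i + 1) / 3 + 1) (by omega))
      convert this using 1; ring
    · rw [← map_add]
      refine coeff_eq_of_dvd (n := (i + 3) / 3 + 1) ?_ (by omega)
      have := dvd_add (dvd_mul_pow a3 b1 (k := (i + 3) / 3 + 1) (by omega))
        (dvd_mul_pow a4 b3 (k := (i + 3) / 3 + 1) (by omega))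
      convert this using 1; ring
    · have h0 : coeff ((i + 2) / 3) (1 : RR) = 0 := by rw [coeff_one, if_neg (by omega)]
      rw [← sub_zero (coeff _ (f.1.1 0 0) + _), ← h0, ← map_add, ← map_sub]
      refine coeff_eq_of_dvd (n := (i + 2) / 3 + 1) ?_ (by omega)
      have := dvd_add (dvd_mul_pow a1 b1 (k := (i + 2) / 3 + 1) (by omega))
        (dvd_mul_pow a2 b3 (k := (i + 2) / 3 + 1) (by omega))
      convert this using 1; ring
  ker := by
    intro i f hi hf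
    obtain ⟨a1, a2, a3, a4⟩ := mem_TS'.mp hf
    rw [mem_TS']
    simp only [lamS]
    split_ifs with h1 h2
    · rw [← dvd_succ_iff a2]
      exact ⟨fun h => dvd_pow_le h.2.1 (by omega), fun h => ⟨dvd_pow_le a1 (by omega),
        dvd_pow_le h (by omega), dvd_pow_le a3 (by omega), dvd_pow_le a4 (by omega)⟩⟩
    · rw [← dvd_succ_iff a3]
      exact ⟨fun h => dvd_pow_le h.2.2.1 (by omega), fun h => ⟨dvd_pow_le a1 (by omega),
        dvd_pow_le a2 (by omega), dvd_pow_le h (by omega), dvd_pow_le a4 (by omega)⟩⟩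
    · have h0 : coeff ((i + 2) / 3) (1 : RR) = 0 := by rw [coeff_one, if_neg (by omega)]
      have h5 : coeff ((i + 2) / 3) (f.1.1 0 0) = coeff ((i + 2) / 3) (f.1.1 0 0 - 1) := by
        rw [map_sub, h0, sub_zero]
      rw [h5, ← dvd_succ_iff a1]
      refine ⟨fun h => dvd_pow_le h.1 (by omega), fun h => ⟨dvd_pow_le h (by omega),
        dvd_pow_le a2 (by omega), dvd_pow_le a3 (by omega), ?_⟩⟩
      have hd := SS_det f
      have e : f.1.1 1 1 - 1 = f.1.1 0 1 * f.1.1 1 0 - (f.1.1 0 0 - 1) * f.1.1 1 1 := by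
        linear_combination hd
      rw [e]
      exact dvd_sub (dvd_mul_pow a2 a3 (by omega)) ((dvd_pow_le h (by omega)).mul_right _)

/-! The data. -/

def sdata : List (LL × LL × LL) :=
  [([], [], []), ([1,2,0],[1,2,2],[0,2,1]),([0,0,0],[0,2,0],[0,1,0]),([2,0,1],[2,0,1],[1,1,0]),
   ([2,0,2],[0,2,0],[0,0,0]),([2,2,0],[0,0,1],[0,0,2]),([2,0,2],[0,1,0],[0,2,0]),
   ([2,0,0],[0,0,2],[0,0,2]),([2,0,1],[0,0,0],[0,0,0]),([2,0,0],[0,0,2],[0,0,1])]

def pwd : List (List ℕ) := [[], [4,5,5,6,7,9,9],[],[9],[],[],[],[],[],[]]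

def cwd : List (List (List ℕ)) :=
  [[], [[], [],[2,3,4,5,6,6,7,9,9],[3,4,4,5,5,7,8,9],[4,6,7,7,8,9],[5,6,7],[6,7,7,8,8,9],[7,9],
    [8,9],[9]],
   [[], [],[],[3,5,8,8,9],[4,6,6,8],[5],[6,8],[7,9,9],[8],[9]],
   [[], [],[],[],[4,7],[5,8,8],[6],[7],[8],[9]],
   [[], [],[],[],[],[5,9],[6],[7],[8],[9]],
   [[], [],[],[],[],[],[6],[7],[8],[9]],
   [[], [],[],[],[],[],[],[7],[8],[9]],
   [[], [],[],[],[],[],[],[],[8],[9]],
   [[], [],[],[],[],[],[],[],[],[9]]]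

def jl (i : ℕ) : LL := 0 :: 1 :: (List.replicate (i - 1) 0 ++ [1])

def sm (i : ℕ) : MM :=
  mmul (mmul (mmul ([1], [], 0 :: (sdata.getD i ([], [], [])).1, [1])
    ([1], (sdata.getD i ([], [], [])).2.1, [], [1])) ([1], [], [0, 1], [1]))
    ([1], (sdata.getD i ([], [], [])).2.2, [], [1])

noncomputable def zz (i : ℕ) : Nott 3 × SS :=
  (el 3 (i - 1), ll (toPS (sdata.getD i ([], [], [])).1) * uu (toPS (sdata.getD i ([], [], [])).2.1)
    * ll (toPS [1]) * uu (toPS (sdata.getD i ([], [], [])).2.2))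

theorem toPS_replicate (k : ℕ) : toPS (List.replicate k 0 ++ [1]) = X ^ k := by
  induction k with
  | zero => simp [toPS]
  | succ k ih => simp only [List.replicate_succ, List.cons_append, toPS, ih]; simp [pow_succ']

theorem repJ_zz (n i : ℕ) : RepJ n (zz i).1 (jl i) := by
  have : (zz i).1.1 = toPS (jl i) := by
    simp only [zz, el, jl, toPS, toPS_replicate, map_zero, map_one]; ring
  simp [RepJ, this]

theorem repS_zz (i : ℕ) : RepS (zz i).2 (sm i) :=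
  (((repS_ll _).mul (repS_uu _)).mul (repS_ll _)).mul (repS_uu _)

def evJ : List ℕ → LL
  | [] => [0, 1]
  | i :: w => lcomp 11 (jl i) (evJ w)

def evS : List ℕ → MM
  | [] => mone
  | i :: w => mmul (sm i) (evS w)

theorem rep_ev : ∀ w : List ℕ,
    RepJ 11 (w.map zz).prod.1 (evJ w) ∧ RepS (w.map zz).prod.2 (evS w)
  | [] => ⟨repJ_one 11, repS_one⟩
  | i :: w => by
    rw [List.map_cons, List.prod_cons]
    exact ⟨(repJ_zz 11 i).mul (by omega) (rep_ev w).1, (repS_zz i).mul (rep_ev w).2⟩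

def chk (v w : List ℕ) : Bool := leq 11 (evJ v) (evJ w) && meq 10 (evS v) (evS w)

theorem mem_N_of_chk {v w : List ℕ} (h : chk v w = true) :
    (w.map zz).prod⁻¹ * (v.map zz).prod ∈ (Jn 3 10).prod (TS 10) := by
  simp only [chk, Bool.and_eq_true] at h
  refine Subgroup.mem_prod.mpr ⟨inv_mul_mem_Jn ?_, inv_mul_mem_TS ?_⟩
  · exact dvd_trans' (dvd_trans' (rep_ev v).1 (dvd_of_leq h.1)) (dvd_sub_comm.mp (rep_ev w).1)
  · exact pat_of_meq le_rfl (rep_ev v).2 (rep_ev w).2 h.2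

def okw (i : ℕ) (w : List ℕ) : Bool := w.all fun k => decide (i + 1 ≤ k) && decide (k ≤ 9)

theorem mem_HH_of_okw {N : Subgroup (Nott 3 × SS)} {i : ℕ} {w : List ℕ} (h : okw i w = true) :
    (w.map zz).prod ∈ HH N zz (i + 1) := by
  apply Subgroup.list_prod_mem
  intro x hx
  obtain ⟨k, hk, rfl⟩ := List.mem_map.mp hx
  simp only [okw, List.all_eq_true, Bool.and_eq_true, decide_eq_true_eq] at h
  exact z_mem_HH (h k hk).1 (h k hk).2

def lamM (i : ℕ) (A : MM) : ZMod 3 :=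
  if i % 3 = 1 then A.2.1.getD ((i + 1) / 3) 0
  else if i % 3 = 2 then A.2.2.1.getD ((i + 3) / 3) 0 else A.1.getD ((i + 2) / 3) 0

theorem cert1 : ∀ i < 10, 1 ≤ i → (meq i (sm i) mone = true ∧ lamM i (sm i) ≠ 0) := by
  decide +kernel

theorem cert2 : ∀ i < 10, 1 ≤ i →
    (okw i (pwd.getD i []) = true ∧ chk [i, i, i] (pwd.getD i []) = true) := by
  decide +kernel

theorem cert3 : ∀ j < 10, ∀ i < j, 1 ≤ i → (okw i ((cwd.getD i []).getD j []) = true ∧
    chk [j, i] (i :: (cwd.getD i []).getD j []) = true) := by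
  decide +kernel

theorem quot_iso : Nonempty (Nott 3 ⧸ Jn 3 10 ≃* SS ⧸ TS 10) := by
  refine iso_of_chains chainJ chainS zz ?_ ?_ ?_ ?_
  · intro i h1 _
    obtain ⟨k, rfl⟩ : ∃ k, i = k + 1 := ⟨i - 1, by omega⟩
    refine ⟨el_mem k, ?_⟩
    change coeff (k + 1 + 1) (el 3 k).1 ≠ 0
    rw [el_coeff]; decide
  · intro i h1 h2
    obtain ⟨c1, c2⟩ := cert1 i (by omega) h1
    refine ⟨pat_of_meq (by omega) (repS_zz i) repS_one c1, ?_⟩
    obtain ⟨a1, a2, a3, -⟩ := repS_zz i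
    convert c2 using 1
    simp only [lamS, lamM]
    split_ifs
    · rw [coeff_eq_of_dvd a2 (by omega), coeff_toPS]
    · rw [coeff_eq_of_dvd a3 (by omega), coeff_toPS]
    · rw [coeff_eq_of_dvd a1 (by omega), coeff_toPS]
  · intro i h1 h2
    obtain ⟨c1, c2⟩ := cert2 i (by omega) h1
    have := mul_mem (mem_HH_of_okw c1) (N_le_HH (mem_N_of_chk c2))
    convert this using 1
    simp [pow_succ, mul_assoc]
  · intro i j h1 h2 h3
    obtain ⟨c1, c2⟩ := cert3 j (by omega) i h2 h1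
    have := mul_mem (mem_HH_of_okw c1) (N_le_HH (mem_N_of_chk c2))
    convert this using 1
    simp [mul_assoc]

end Pool.Agent.P.MP_e06b60_al
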