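import Mathlib
import Pool.Agent.P.MP_e06b60_al.Cert

/-! The Nottingham group over `F_3` has a nonabelian centraliser; the main theorem. -/

namespace Pool.Agent.P.MP_e06b60_al

open PowerSeries

theorem den_mul_rat (num : LL) (den : LL) :
    toPS (1 :: den) * (toPS num * (toPS (1 :: den))⁻¹) = toPS num := by
  have : toPS (1 :: den) * (toPS (1 :: den))⁻¹ = 1 :=
    PowerSeries.mul_inv_cancel _ (by simp [toPS])
  linear_combination toPS num * this

theorem rat_congr {n : ℕ} {num den l : LL} (h : leq n (lmul n (1 :: den) l) num = true) :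
    X ^ n ∣ toPS num * (toPS (1 :: den))⁻¹ - toPS l := by
  have h1 : toPS (1 :: den) * (toPS (1 :: den))⁻¹ = 1 :=
    PowerSeries.mul_inv_cancel _ (by simp [toPS])
  obtain ⟨w, hw⟩ := dvd_trans' (toPS_lmul n (1 :: den) l) (dvd_of_leq h)
  refine ⟨-(w * (toPS (1 :: den))⁻¹), ?_⟩
  linear_combination toPS l * h1 - (toPS (1 :: den))⁻¹ * hw

/-- The element of the Nottingham group given by a rational function. -/
noncomputable def ratEl (num den : LL) (h : leq 2 (lmul 2 (1 :: den) [0, 1]) num = true) :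
    Nott 3 :=
  ⟨toPS num * (toPS (1 :: den))⁻¹,
    by rw [coeff_eq_of_dvd (rat_congr h) (by omega), coeff_toPS]; rfl,
    by rw [coeff_eq_of_dvd (rat_congr h) (by omega), coeff_toPS]; rfl⟩

noncomputable def ex : Nott 3 := ratEl [0, 1] [-1] (by decide)
noncomputable def ey : Nott 3 := ratEl [0, 1, 0, -1] [0, -1, 0, 1] (by decide)
noncomputable def ez : Nott 3 := ratEl [0, 1, 0, -2, 0, 1] [0, -2, 0, 1, 0, 0, 1] (by decide)

theorem ex_eq : (1 - X) * ex.1 = X := by
  have := den_mul_rat [0, 1] [-1]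
  change _ * ex.1 = _ at this
  simp only [toPS, map_one, map_zero, map_neg] at this
  linear_combination this

theorem ey_eq : (1 - X ^ 2 + X ^ 4) * ey.1 = X - X ^ 3 := by
  have := den_mul_rat [0, 1, 0, -1] [0, -1, 0, 1]
  change _ * ey.1 = _ at this
  simp only [toPS, map_one, map_zero, map_neg] at this
  linear_combination this

theorem ez_eq : ((1 - X ^ 2) ^ 2 + X ^ 7) * ez.1 = X * (1 - X ^ 2) ^ 2 := by
  have := den_mul_rat [0, 1, 0, -2, 0, 1] [0, -2, 0, 1, 0, 0, 1]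
  change _ * ez.1 = _ at this
  simp only [toPS, map_one, map_zero, map_neg, map_ofNat] at this
  linear_combination this

/-- Substitution as a ring homomorphism. -/
noncomputable def sb (g : Nott 3) : RR →ₐ[ZMod 3] RR := substAlgHom (hasSubst_of g.2.1)

theorem sb_X (g : Nott 3) : sb g X = g.1 := substAlgHom_X _

theorem sb_val (f g : Nott 3) : sb g f.1 = (f * g).1 := by
  rw [mul_val, ← coe_substAlgHom (hasSubst_of g.2.1)]; rfl

theorem ne_zero_of_const {a : RR} (h : constantCoeff a = 1) : a ≠ 0 := by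
  rintro rfl
  simp at h

theorem comm_xy : ex * ey = ey * ex := by
  apply Subtype.ext
  have h1 := congrArg (sb ey) ex_eq
  have h2 := congrArg (sb ex) ey_eq
  simp only [map_mul, map_sub, map_add, map_pow, map_one, sb_X, sb_val] at h1 h2
  have hE : (1 - X - X ^ 2 + X ^ 3 + X ^ 4 : RR) ≠ 0 := ne_zero_of_const (by simp)
  apply mul_left_cancel₀ hE
  have hA : (1 - X - X ^ 2 + X ^ 3 + X ^ 4 : RR) * (ex * ey).1 = X - X ^ 3 := by
    linear_combination (1 - X ^ 2 + X ^ 4) * h1 + (1 + (ex * ey).1) * ey_eq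
  have hB : ((1 - X) ^ 4 - (1 - X) ^ 2 * ((1 - X) * ex.1) ^ 2 + ((1 - X) * ex.1) ^ 4) *
      (ey * ex).1 = (1 - X) ^ 3 * ((1 - X) * ex.1) - (1 - X) * ((1 - X) * ex.1) ^ 3 := by
    linear_combination (1 - X) ^ 4 * h2
  rw [ex_eq] at hB
  rw [hA]
  linear_combination -hB - ((X - 2 * X ^ 2 + X ^ 3) * (ey * ex).1 - X ^ 2 + X ^ 3) * three_eq_zero

theorem comm_xz : ex * ez = ez * ex := by
  apply Subtype.ext
  have h1 := congrArg (sb ez) ex_eq
  have h2 := congrArg (sb ex) ez_eq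
  simp only [map_mul, map_sub, map_add, map_pow, map_one, sb_X, sb_val] at h1 h2
  have hE : ((1 - X) ^ 3 * (1 + X) ^ 2 + X ^ 7 : RR) ≠ 0 := ne_zero_of_const (by simp)
  apply mul_left_cancel₀ hE
  have hA : ((1 - X) ^ 3 * (1 + X) ^ 2 + X ^ 7 : RR) * (ex * ez).1 = X * (1 - X ^ 2) ^ 2 := by
    linear_combination ((1 - X ^ 2) ^ 2 + X ^ 7) * h1 + (1 + (ex * ez).1) * ez_eq
  have hB : ((1 - X) ^ 3 * ((1 - X) ^ 2 - ((1 - X) * ex.1) ^ 2) ^ 2 + ((1 - X) * ex.1) ^ 7) *
      (ez * ex).1 =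
      (1 - X) ^ 2 * ((1 - X) * ex.1) * ((1 - X) ^ 2 - ((1 - X) * ex.1) ^ 2) ^ 2 := by
    linear_combination (1 - X) ^ 7 * h2
  rw [ex_eq] at hB
  rw [hA]
  linear_combination -hB -
    ((2 * X - X ^ 2) * ((1 - X) ^ 3 * (ez * ex).1 - (1 - X) ^ 2 * X)) * three_eq_zero

theorem ex_ne : ex ≠ 1 := by
  intro h
  have h1 : RepJ 3 ex [0, 1, 1] := rat_congr (by decide)
  rw [h] at h1
  have := coeff_eq_of_dvd h1 (show 2 < 3 by omega)
  rw [coeff_toPS, one_val, coeff_X] at this
  exact absurd this (by decide)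

theorem not_comm_yz : ey * ez ≠ ez * ey := by
  intro h
  have h1 : RepJ 15 ey [0, 1, 0, 0, 0, 2, 0, 2, 0, 0, 0, 1, 0, 1, 0] :=
    rat_congr (by decide +kernel)
  have h2 : RepJ 15 ez [0, 1, 0, 0, 0, 0, 0, 0, 2, 0, 1, 0, 0, 0, 2] :=
    rat_congr (by decide +kernel)
  have h3 := coeff_eq_of_dvd (h1.mul (by omega) h2) (show 14 < 15 by omega)
  have h4 := coeff_eq_of_dvd (h2.mul (by omega) h1) (show 14 < 15 by omega)
  rw [h, h4, coeff_toPS, coeff_toPS] at h3
  revert h3
  decide +kernel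

theorem not_iso : IsEmpty (SS ≃* Nott 3) := by
  refine ⟨fun e => not_comm_yz ?_⟩
  have := SS_CT (x := e.symm ex) (y := e.symm ey) (z := e.symm ez)
    (by rw [Ne, EmbeddingLike.map_eq_one_iff]; exact ex_ne)
    (by rw [← map_mul, ← map_mul, comm_xy]) (by rw [← map_mul, ← map_mul, comm_xz])
  rw [← map_mul, ← map_mul] at this
  exact e.symm.injective this

open scoped PowerSeries.WithPiTopology in
theorem quot_top_iso :
    Nonempty ((SS ⧸ gamma SS (2 * 3)) ≃ₜ* (Nott 3 ⧸ gamma (Nott 3) (2 * 3))) := by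
  obtain ⟨e⟩ := quot_iso
  have : DiscreteTopology (SS ⧸ gamma SS (2 * 3)) :=
    QuotientGroup.discreteTopology (by rw [show gamma SS (2 * 3) = _ from gamma_S]; exact TS_isOpen _)
  have : DiscreteTopology (Nott 3 ⧸ gamma (Nott 3) (2 * 3)) :=
    QuotientGroup.discreteTopology
      (by rw [show gamma (Nott 3) (2 * 3) = _ from gamma_J]; exact Jn_isOpen _)
  exact ⟨{ (QuotientGroup.quotientMulEquivOfEq gamma_S).trans
      (e.symm.trans (QuotientGroup.quotientMulEquivOfEq gamma_J.symm)) with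
    continuous_toFun := continuous_of_discreteTopology
    continuous_invFun := continuous_of_discreteTopology }⟩

open scoped PowerSeries.WithPiTopology in
theorem main : ∃ (p : ℕ) (G : Type) (_ : Group G) (_ : TopologicalSpace G)
    (_ : IsTopologicalGroup G), p = 3 ∧ p.Prime ∧
    CompactSpace G ∧ T2Space G ∧ TotallyDisconnectedSpace G ∧
    (∀ N : OpenNormalSubgroup G, IsPGroup p (G ⧸ N.toSubgroup)) ∧ Infinite G ∧
    Nonempty ((G ⧸ gamma G (2 * p)) ≃ₜ* (Nott p ⧸ gamma (Nott p) (2 * p))) ∧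
    IsEmpty (G ≃* Nott p) :=
  ⟨3, SS, inferInstance, inferInstance, inferInstance, rfl, Nat.prime_three, SS_compact, SS_t2,
    SS_td, SS_pro, SS_infinite, quot_top_iso, not_iso⟩

end Pool.Agent.P.MP_e06b60_al
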