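import Mathlib

/-! Multilinear polynomial arithmetic over `ZMod 2` (monomials coded by binary digits) and
truncated power series with such coefficients. -/

namespace Pool.Agent.P.MP_e06b60_al.Two

open PowerSeries

abbrev SP : Type := List ℕ

/-- The value of the monomial with code `m`. -/
noncomputable def mon (v : ℕ → ZMod 2) (m : ℕ) : ZMod 2 :=
  ∏ k ∈ Finset.range 24, if m.testBit k then v k else 1

theorem mul_self_two (x : ZMod 2) : x * x = x := by revert x; decide

theorem add_self_two (x : ZMod 2) : x + x = 0 := by revert x; decide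

theorem mon_lor (v : ℕ → ZMod 2) (m n : ℕ) : mon v (Nat.lor m n) = mon v m * mon v n := by
  unfold mon
  rw [← Finset.prod_mul_distrib]
  refine Finset.prod_congr rfl fun k _ => ?_
  have : (Nat.lor m n).testBit k = (m.testBit k || n.testBit k) := Nat.testBit_or m n k
  rw [this]
  cases m.testBit k <;> cases n.testBit k <;> simp [mul_self_two]

theorem mon_zero (v : ℕ → ZMod 2) : mon v 0 = 1 := by simp [mon]

theorem mon_two_pow (v : ℕ → ZMod 2) {k : ℕ} (hk : k < 24) : mon v (2 ^ k) = v k := by
  unfold mon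
  rw [Finset.prod_eq_single k]
  · simp [Nat.testBit_two_pow_self]
  · intro j _ hj
    rw [Nat.testBit_two_pow_of_ne (Ne.symm hj)]; simp
  · intro h; exact absurd (Finset.mem_range.mpr hk) h

noncomputable def ev (v : ℕ → ZMod 2) : SP → ZMod 2
  | [] => 0
  | t :: l => mon v t + ev v l

/-- Forces evaluation of a number in the kernel. -/
def frc {α : Type} (x : ℕ) (k : ℕ → α) : α :=
  Nat.casesOn x (k 0) fun n => k (Nat.succ n)

theorem frc_eq {α : Type} (x : ℕ) (k : ℕ → α) : frc x k = k x := by cases x <;> rfl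

def paux (a : ℕ) (l : SP) (r : SP → SP) : SP → SP
  | [] => a :: l
  | b :: m => bif Nat.blt a b then a :: r (b :: m)
      else bif Nat.blt b a then b :: paux a l r m else r m

def padd : SP → SP → SP
  | [] => fun m => m
  | a :: l => paux a l (padd l)

theorem ev_padd (v : ℕ → ZMod 2) : ∀ l m : SP, ev v (padd l m) = ev v l + ev v m
  | [], m => by simp [padd, ev]
  | a :: l, m => by
    have ih := ev_padd v l
    change ev v (paux a l (padd l) m) = _
    induction m with
    | nil => simp [paux, ev]
    | cons b m ihm =>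
      unfold paux
      cases h1 : Nat.blt a b
      · cases h2 : Nat.blt b a
        · have e : a = b := by
            have h1' : ¬ a < b := by rw [← Nat.blt_eq]; simp [h1]
            have h2' : ¬ b < a := by rw [← Nat.blt_eq]; simp [h2]
            omega
          simp only [cond_false, ih, ev, e]
          linear_combination -add_self_two (mon v b)
        · simp only [cond_false, cond_true, ev, ihm]; ring
      · simp only [cond_true, ev, ih]; ring

def pmulT (a : ℕ) : SP → SP
  | [] => []
  | b :: l => frc (Nat.lor a b) fun m => padd [m] (pmulT a l)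

theorem ev_pmulT (v : ℕ → ZMod 2) (a : ℕ) : ∀ l : SP, ev v (pmulT a l) = mon v a * ev v l
  | [] => by simp [pmulT, ev]
  | b :: l => by
    simp only [pmulT, frc_eq, ev_padd, ev_pmulT v a l, ev, mon_lor]; ring

def pmul : SP → SP → SP
  | [], _ => []
  | a :: u, l => padd (pmulT a l) (pmul u l)

theorem ev_pmul (v : ℕ → ZMod 2) : ∀ u l : SP, ev v (pmul u l) = ev v u * ev v l
  | [], l => by simp [pmul, ev]
  | a :: u, l => by simp only [pmul, ev_padd, ev_pmulT, ev_pmul v u l, ev]; ring

/-- Polynomials as lists of monomials, a monomial being the list of its variables. -/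
abbrev H : Type := List (List ℕ)

def evM (w : ℕ → ZMod 2) : List ℕ → ZMod 2
  | [] => 1
  | i :: l => w i * evM w l

def evH (w : ℕ → ZMod 2) : H → ZMod 2
  | [] => 0
  | m :: h => evM w m + evH w h

def subM (u : List SP) : List ℕ → SP
  | [] => [0]
  | i :: l => pmul (u.getD i []) (subM u l)

def subH (u : List SP) : H → SP
  | [] => []
  | m :: h => padd (subM u m) (subH u h)

theorem ev_subM (v : ℕ → ZMod 2) (u : List SP) :
    ∀ m : List ℕ, ev v (subM u m) = evM (fun i => ev v (u.getD i [])) m
  | [] => by simp [subM, evM, ev, mon_zero]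
  | i :: l => by simp only [subM, evM, ev_pmul, ev_subM v u l]

theorem ev_subH (v : ℕ → ZMod 2) (u : List SP) :
    ∀ h : H, ev v (subH u h) = evH (fun i => ev v (u.getD i [])) h
  | [] => rfl
  | m :: h => by simp only [subH, evH, ev_padd, ev_subM, ev_subH v u h]

/-! Truncated series with polynomial coefficients. -/

noncomputable def toPS (v : ℕ → ZMod 2) : List SP → (ZMod 2)⟦X⟧
  | [] => 0
  | a :: l => C (ev v a) + X * toPS v l

def ladd : List SP → List SP → List SP
  | [], m => m
  | a :: l, [] => a :: l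
  | a :: l, b :: m => padd a b :: ladd l m

def lsmul (a : SP) : ℕ → List SP → List SP
  | 0, _ => []
  | _ + 1, [] => []
  | n + 1, b :: m => pmul a b :: lsmul a n m

def lmul : ℕ → List SP → List SP → List SP
  | 0, _, _ => []
  | _ + 1, [], _ => []
  | n + 1, a :: l, m => ladd (lsmul a (n + 1) m) ([] :: lmul n l m)

def lcomp (n : ℕ) : List SP → List SP → List SP
  | [], _ => []
  | a :: l, g => ladd [a] (lmul n g (lcomp n l g))

theorem toPS_ladd (v : ℕ → ZMod 2) : ∀ l m, toPS v (ladd l m) = toPS v l + toPS v m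
  | [], m => by simp [ladd, toPS]
  | a :: l, [] => by simp [ladd, toPS]
  | a :: l, b :: m => by simp only [ladd, toPS, toPS_ladd v l m, ev_padd, map_add]; ring

theorem toPS_lsmul (v : ℕ → ZMod 2) (a : SP) : ∀ (n : ℕ) (m : List SP),
    X ^ n ∣ C (ev v a) * toPS v m - toPS v (lsmul a n m)
  | 0, _ => by simp
  | _ + 1, [] => by simp [lsmul, toPS]
  | n + 1, b :: m => by
    obtain ⟨w, hw⟩ := toPS_lsmul v a n m
    refine ⟨w, ?_⟩
    simp only [lsmul, toPS, ev_pmul, map_mul]
    linear_combination X * hw

theorem toPS_lmul (v : ℕ → ZMod 2) : ∀ (n : ℕ) (l m : List SP),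
    X ^ n ∣ toPS v l * toPS v m - toPS v (lmul n l m)
  | 0, _, _ => by simp
  | _ + 1, [], _ => by simp [lmul, toPS]
  | n + 1, a :: l, m => by
    obtain ⟨w, hw⟩ := toPS_lmul v n l m
    obtain ⟨u, hu⟩ := toPS_lsmul v a (n + 1) m
    refine ⟨w + u, ?_⟩
    simp only [lmul, toPS, toPS_ladd, ev, map_zero]
    linear_combination X * hw + hu

theorem toPS_lcomp (v : ℕ → ZMod 2) (n : ℕ) (g : List SP) (hg : coeff 0 (toPS v g) = 0) :
    ∀ f : List SP, X ^ n ∣ (subst (toPS v g) (toPS v f) : (ZMod 2)⟦X⟧) - toPS v (lcomp n f g)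
  | [] => by
    have hs : HasSubst (toPS v g) := HasSubst.of_constantCoeff_zero' (by simpa using hg)
    have : (subst (toPS v g) (0 : (ZMod 2)⟦X⟧) : (ZMod 2)⟦X⟧) = 0 := by
      rw [← coe_substAlgHom hs, map_zero]
    simp [lcomp, toPS, this]
  | a :: l => by
    have hs : HasSubst (toPS v g) := HasSubst.of_constantCoeff_zero' (by simpa using hg)
    obtain ⟨w, hw⟩ := toPS_lcomp v n g hg l
    obtain ⟨u, hu⟩ := toPS_lmul v n g (lcomp n l g)
    refine ⟨toPS v g * w + u, ?_⟩
    simp only [lcomp, toPS, toPS_ladd]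
    rw [subst_add hs, subst_mul hs, subst_X hs, subst_C]
    change C (ev v a) + toPS v g * (subst (toPS v g) (toPS v l) : (ZMod 2)⟦X⟧) - _ = _
    linear_combination toPS v g * hw + hu

theorem coeff_toPS (v : ℕ → ZMod 2) : ∀ (l : List SP) (i : ℕ),
    coeff i (toPS v l) = ev v (l.getD i [])
  | [], i => by simp [toPS, ev]
  | a :: l, 0 => by simp [toPS]
  | a :: l, i + 1 => by
    simp only [toPS, map_add, coeff_succ_X_mul, coeff_toPS v l i, coeff_C]
    simp

end Pool.Agent.P.MP_e06b60_al.Two
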