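import Mathlib
import Pool.Agent.P.MP_e06b60_al.Poly2

/-! The certificate: six polynomial functions on `J / J_23` (`p = 2`) describing commuting
left and right actions of `t + t^2`, `t + t^3`, `t + t^7` on `J / J_23 × Z/2`. -/

namespace Pool.Agent.P.MP_e06b60_al.Two

def rhoX : H :=
  [[22], [14], [12], [10, 12], [8, 14], [6, 16], [6, 14], [5, 6], [4, 18], [4, 14], [4, 8], [4, 6,
  10], [4, 6, 8], [4, 5], [2, 20], [2, 18], [2, 16], [2, 14], [2, 10], [2, 9], [2, 8], [2, 8, 10],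
  [2, 6], [2, 6, 10], [2, 5, 6], [2, 4, 14], [2, 4, 12], [2, 4, 10], [2, 4, 5], [2, 3], [1, 2],
  [1, 2, 6]]

def rhoY : H :=
  [[22], [14], [10, 14], [10, 12], [8, 14], [6, 16], [6, 10], [6, 8], [6, 8, 10], [5, 14], [5, 6,
  8], [4], [4, 18], [4, 6], [4, 6, 14], [4, 6, 8], [4, 5], [4, 5, 10], [4, 5, 6], [3, 6], [2, 20],
  [2, 18], [2, 16], [2, 14], [2, 10], [2, 10, 12], [2, 9], [2, 8], [2, 8, 14], [2, 8, 12], [2, 8,
  10], [2, 6], [2, 6, 14], [2, 5, 12], [2, 4], [2, 4, 14], [2, 4, 8], [2, 4, 8, 10], [2, 4, 6,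
  12], [2, 4, 6, 10], [2, 4, 6, 8], [2, 3, 4], [1, 2, 14], [1, 2, 12], [1, 2, 6, 8], [1, 2, 4,
  10], [1, 2, 4, 6]]

def rhoW : H :=
  [[18], [12], [9], [8], [8, 10], [6, 12], [4, 14], [4, 10], [4, 8], [4, 6], [4, 5], [2, 16], [2,
  14], [2, 12], [2, 6], [2, 6, 8], [2, 4], [2, 4, 10], [2, 4, 8], [2, 4, 6], [2, 3], [1, 4], [1,
  2, 4]]

def lamX : H :=
  [[1, 2, 6], [1, 2, 4]]

def lamY : H :=
  [[2, 6], [2, 5], [2, 4, 14], [2, 4, 12], [2, 4, 10], [2, 4, 6], [2, 4, 6, 8], [2, 3], [2, 3, 4],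
  [1, 6], [1, 5], [1, 4, 14], [1, 4, 6, 8], [1, 4, 5], [1, 3, 4], [1, 2, 14], [1, 2, 12], [1, 2,
  6], [1, 2, 6, 8], [1, 2, 4], [1, 2, 4, 12], [1, 2, 4, 5]]

def lamW : H :=
  [[4], [4, 14], [4, 6, 8], [4, 5], [3, 4], [2, 5], [2, 4], [2, 4, 12], [2, 4, 10], [2, 4, 5], [2,
  3], [1, 14], [1, 10], [1, 6], [1, 6, 8], [1, 4], [1, 4, 10], [1, 4, 6], [1, 3], [1, 2, 14], [1,
  2, 10], [1, 2, 6, 8], [1, 2, 5], [1, 2, 4], [1, 2, 4, 10]]

def sF : List SP :=
  [[], [0], [2], [4], [8], [16], [32], [64], [128], [256], [512], [1024], [2048], [4096], [8192],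
  [16384], [32768], [65536], [131072], [262144], [524288], [1048576], [2097152], [4194304]]

def sFX : List SP :=
  [[], [0], [0, 2], [4], [2, 4, 8], [4, 16], [4, 16, 32], [64], [8, 32, 64, 128], [16, 64, 256],
  [16, 32, 64, 256, 512], [64, 1024], [32, 64, 512, 1024, 2048], [64, 1024, 4096], [64, 1024,
  4096, 8192], [16384], [128, 2048, 8192, 16384, 32768], [256, 4096, 16384, 65536], [256, 512,
  4096, 8192, 16384, 65536, 131072], [1024, 16384, 262144], [512, 1024, 2048, 8192, 16384, 131072,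
  262144, 524288], [1024, 4096, 16384, 262144, 1048576], [1024, 4096, 8192, 16384, 262144,
  1048576, 2097152], [16384, 4194304]]

def sXF : List SP :=
  [[], [0], [0, 2], [4], [2, 8], [16], [4, 32], [64], [8, 128], [256], [16, 512], [1024], [32,
  2048], [4096], [64, 8192], [16384], [128, 32768], [65536], [256, 131072], [262144], [512,
  524288], [1048576], [1024, 2097152], [4194304]]

def sFY : List SP :=
  [[], [0], [2], [0, 4], [8], [4, 16], [2, 32], [4, 16, 64], [128], [4, 64, 256], [32, 512], [64,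
  256, 1024], [8, 2048], [16, 64, 1024, 4096], [32, 512, 8192], [16, 64, 1024, 4096, 16384],
  [32768], [64, 1024, 16384, 65536], [32, 8192, 131072], [64, 16384, 65536, 262144], [2048,
  524288], [64, 4096, 16384, 262144, 1048576], [8192, 131072, 2097152], [4096, 16384, 262144,
  1048576, 4194304]]

def sYF : List SP :=
  [[], [0], [2], [0, 4], [2, 8], [2, 4, 16], [2, 8, 32], [4, 6, 16, 64], [6, 10, 32, 128], [4, 8,
  18, 64, 256], [10, 12, 34, 128, 512], [12, 16, 20, 66, 256, 1024], [8, 18, 36, 130, 512, 2048],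
  [20, 24, 32, 68, 258, 1024, 4096], [24, 34, 40, 132, 514, 2048, 8192], [16, 36, 64, 72, 260,
  1026, 4096, 16384], [40, 48, 66, 136, 516, 2050, 8192, 32768], [48, 68, 80, 128, 264, 1028,
  4098, 16384, 65536], [32, 72, 130, 144, 520, 2052, 8194, 32768, 131072], [80, 96, 132, 256, 272,
  1032, 4100, 16386, 65536, 262144], [96, 136, 160, 258, 528, 2056, 8196, 32770, 131072, 524288],
  [64, 144, 260, 288, 512, 1040, 4104, 16388, 65538, 262144, 1048576], [160, 192, 264, 514, 544,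
  2064, 8200, 32772, 131074, 524288, 2097152], [192, 272, 320, 516, 1024, 1056, 4112, 16392,
  65540, 262146, 1048576, 4194304]]

def sFW : List SP :=
  [[], [0], [2], [4], [8], [16], [32], [0, 64], [128], [4, 256], [512], [16, 1024], [2048], [64,
  4096], [2, 8192], [4, 256, 16384], [32768], [1024, 65536], [32, 131072], [64, 4096, 262144],
  [524288], [4, 16384, 1048576], [512, 2097152], [1024, 65536, 4194304]]

def sWF : List SP :=
  [[], [0], [2], [4], [8], [16], [32], [0, 64], [2, 128], [2, 4, 256], [2, 8, 512], [2, 4, 6, 16,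
  1024], [2, 6, 10, 32, 2048], [2, 4, 6, 8, 18, 64, 4096], [2, 12, 34, 128, 8192], [4, 12, 16, 18,
  20, 66, 256, 16384], [8, 10, 18, 34, 36, 130, 512, 32768], [4, 10, 18, 20, 24, 32, 66, 68, 258,
  1024, 65536], [6, 10, 12, 14, 24, 40, 130, 132, 514, 2048, 131072], [4, 6, 8, 14, 16, 18, 20,
  22, 36, 64, 66, 72, 258, 260, 1026, 4096, 262144], [6, 14, 18, 36, 38, 40, 48, 66, 130, 136,
  514, 516, 2050, 8192, 524288], [4, 10, 26, 34, 48, 70, 80, 128, 258, 264, 1026, 1028, 4098,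
  16384, 1048576], [8, 10, 12, 14, 26, 32, 34, 38, 42, 72, 130, 132, 134, 144, 514, 520, 2050,
  2052, 8194, 32768, 2097152], [14, 16, 18, 24, 38, 66, 70, 74, 80, 96, 132, 256, 260, 262, 272,
  1026, 1032, 4098, 4100, 16386, 65536, 4194304]]

def sX : List SP := [[], [0], [0]]
def sY : List SP := [[], [0], [], [0]]
def sW : List SP := [[], [0], [], [], [], [], [], [0]]

theorem cert_FX : lcomp 24 sF sX = sFX := by decide +kernel
theorem cert_XF : lcomp 24 sX sF = sXF := by decide +kernel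
theorem cert_FY : lcomp 24 sF sY = sFY := by decide +kernel
theorem cert_YF : lcomp 24 sY sF = sYF := by decide +kernel
theorem cert_FW : lcomp 24 sF sW = sFW := by decide +kernel
theorem cert_WF : lcomp 24 sW sF = sWF := by decide +kernel

def dif (ρ lam : H) (uR uL : List SP) : SP :=
  padd (padd (subH sF.tail ρ) (subH uR.tail lam)) (padd (subH sF.tail lam) (subH uL.tail ρ))

theorem cert_xx : dif rhoX lamX sFX sXF = [] := by decide +kernel
theorem cert_xy : dif rhoY lamX sFY sXF = [] := by decide +kernel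
theorem cert_xw : dif rhoW lamX sFW sXF = [] := by decide +kernel
theorem cert_yx : dif rhoX lamY sFX sYF = [] := by decide +kernel
theorem cert_yy : dif rhoY lamY sFY sYF = [] := by decide +kernel
theorem cert_yw : dif rhoW lamY sFW sYF = [] := by decide +kernel
theorem cert_wx : dif rhoX lamW sFX sWF = [] := by decide +kernel
theorem cert_wy : dif rhoY lamW sFY sWF = [] := by decide +kernel
theorem cert_ww : dif rhoW lamW sFW sWF = [] := by decide +kernel

end Pool.Agent.P.MP_e06b60_al.Two
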