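import Mathlib

/-! A central extension from commuting left and right actions of generators. -/

namespace Pool.Agent.P.MP_e06b60_al.Five

theorem const_of_left {Q A : Type*} [Group Q] {S : Set Q} (hS : Subgroup.closure S = ⊤)
    (κ : Q → A) (h : ∀ s ∈ S, ∀ f, κ (s * f) = κ f) (f : Q) : κ f = κ 1 := by
  have key : ∀ g ∈ Subgroup.closure S, ∀ f, κ (g * f) = κ f := by
    intro g hg
    induction hg using Subgroup.closure_induction with
    | mem s hs => exact h s hs
    | one => simp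
    | mul a b _ _ ha hb => intro f; rw [mul_assoc, ha, hb]
    | inv a _ ha => intro f; rw [← ha (a⁻¹ * f), mul_inv_cancel_left]
  simpa using key f (hS ▸ Subgroup.mem_top f) 1

theorem exists_cocycle {Q A : Type*} [Group Q] [AddCommGroup A] (x y : Q)
    (hS : Subgroup.closure {x, y} = ⊤) (ρx ρy lx ly : Q → A)
    (hxx : ∀ f, ρx f + lx (f * x) = lx f + ρx (x * f))
    (hxy : ∀ f, ρy f + lx (f * y) = lx f + ρy (x * f))
    (hyx : ∀ f, ρx f + ly (f * x) = ly f + ρx (y * f))
    (hyy : ∀ f, ρy f + ly (f * y) = ly f + ρy (y * f)) :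
    ∃ c : Q → Q → A, (∀ f g h, c f g + c (f * g) h = c g h + c f (g * h)) ∧
      (∀ f, c 1 f = 0) ∧ (∀ f, c f 1 = 0) ∧
      (∀ f, c f x = ρx f - ρx 1) ∧ (∀ f, c f y = ρy f - ρy 1) ∧
      (∀ f, c x f = lx f - lx 1) ∧ (∀ f, c y f = ly f - ly 1) := by
  let Good : Q → (Q → A) → Prop := fun g κ =>
    (∀ f, κ f + lx (f * g) = lx f + κ (x * f)) ∧ (∀ f, κ f + ly (f * g) = ly f + κ (y * f))
  have hmul : ∀ g h κ κ', Good g κ → Good h κ' → Good (g * h) fun f => κ f + κ' (f * g) := by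
    rintro g h κ κ' ⟨a1, a2⟩ ⟨b1, b2⟩
    refine ⟨fun f => ?_, fun f => ?_⟩
    · have e1 := a1 f
      have e2 := b1 (f * g)
      simp only [mul_assoc] at *
      rw [add_assoc, e2, ← add_assoc, e1, add_assoc]
    · have e1 := a2 f
      have e2 := b2 (f * g)
      simp only [mul_assoc] at *
      rw [add_assoc, e2, ← add_assoc, e1, add_assoc]
  have huniq : ∀ g κ κ', Good g κ → Good g κ' → ∀ f, κ f - κ' f = κ 1 - κ' 1 := by
    rintro g κ κ' ⟨a1, a2⟩ ⟨b1, b2⟩
    refine const_of_left hS (fun f => κ f - κ' f) ?_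
    rintro s (rfl | rfl) f
    · have e1 := a1 f
      have e2 := b1 f
      rw [← sub_eq_iff_eq_add'] at e1 e2
      simp only [← e1, ← e2]; abel
    · have e1 := a2 f
      have e2 := b2 f
      rw [← sub_eq_iff_eq_add'] at e1 e2
      simp only [← e1, ← e2]; abel
  have hex : ∀ g, ∃ κ, Good g κ ∧ κ 1 = 0 := by
    have h0 : ∀ g ∈ Subgroup.closure ({x, y} : Set Q), ∃ κ, Good g κ := by
      intro g hg
      induction hg using Subgroup.closure_induction with
      | mem s hs =>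
        rcases hs with rfl | rfl
        · exact ⟨ρx, hxx, hyx⟩
        · exact ⟨ρy, hxy, hyy⟩
      | one => exact ⟨fun _ => 0, fun f => by simp, fun f => by simp⟩
      | mul a b _ _ ha hb =>
        obtain ⟨κ, h1⟩ := ha
        obtain ⟨κ', h2⟩ := hb
        exact ⟨_, hmul _ _ _ _ h1 h2⟩
      | inv a _ ha =>
        obtain ⟨κ, h1, h2⟩ := ha
        refine ⟨fun f => -κ (f * a⁻¹), fun f => ?_, fun f => ?_⟩
        · have e := h1 (f * a⁻¹)
          simp only [mul_assoc, inv_mul_cancel, mul_one] at *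
          rw [← sub_eq_iff_eq_add'] at e
          rw [← e]; abel
        · have e := h2 (f * a⁻¹)
          simp only [mul_assoc, inv_mul_cancel, mul_one] at *
          rw [← sub_eq_iff_eq_add'] at e
          rw [← e]; abel
    intro g
    obtain ⟨κ, h1, h2⟩ := h0 g (hS ▸ Subgroup.mem_top g)
    refine ⟨fun f => κ f - κ 1, ⟨fun f => ?_, fun f => ?_⟩, sub_self _⟩
    · rw [sub_add_eq_add_sub, h1, add_sub_assoc]
    · rw [sub_add_eq_add_sub, h2, add_sub_assoc]
  choose κ hκ hκ1 using hex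
  refine ⟨fun f g => κ g f, fun f g h => ?_, hκ1, fun f => ?_, fun f => ?_, fun f => ?_,
    fun f => ?_, fun f => ?_⟩
  · have e := huniq _ _ _ (hmul _ _ _ _ (hκ g) (hκ h)) (hκ (g * h)) f
    simp only [hκ1, one_mul, zero_add, sub_zero] at e
    rw [sub_eq_iff_eq_add] at e
    exact e
  · have e := huniq 1 _ (fun _ => 0) (hκ 1) ⟨fun f => by simp, fun f => by simp⟩ f
    simpa [hκ1] using e
  · have e := huniq x _ ρx (hκ x) ⟨hxx, hyx⟩ f
    rw [hκ1, sub_eq_iff_eq_add] at e
    simp only [e]; abel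
  · have e := huniq y _ ρy (hκ y) ⟨hxy, hyy⟩ f
    rw [hκ1, sub_eq_iff_eq_add] at e
    simp only [e]; abel
  · have e := (hκ f).1 1
    simp only [hκ1, one_mul, mul_one, zero_add] at e
    simp only [e]; abel
  · have e := (hκ f).2 1
    simp only [hκ1, one_mul, mul_one, zero_add] at e
    simp only [e]; abel

/-- A normalised 2-cocycle. -/
structure Coc (J A : Type) [Group J] [AddCommGroup A] where
  c : J → J → A
  assoc : ∀ f g h, c f g + c (f * g) h = c g h + c f (g * h)
  left : ∀ f, c 1 f = 0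
  right : ∀ f, c f 1 = 0

/-- The central extension defined by a cocycle. -/
def Ext {J A : Type} [Group J] [AddCommGroup A] (_ : Coc J A) : Type := J × A

section
variable {J A : Type} [Group J] [AddCommGroup A] (c : Coc J A)

instance : Mul (Ext c) := ⟨fun u v => (u.1 * v.1, u.2 + v.2 + c.c u.1 v.1)⟩
instance : One (Ext c) := ⟨(1, 0)⟩
instance : Inv (Ext c) := ⟨fun u => (u.1⁻¹, -u.2 - c.c u.1⁻¹ u.1)⟩

theorem Ext.mul_fst (u v : Ext c) : (u * v).1 = u.1 * v.1 := rfl
theorem Ext.mul_snd (u v : Ext c) : (u * v).2 = u.2 + v.2 + c.c u.1 v.1 := rfl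
theorem Ext.one_fst : (1 : Ext c).1 = 1 := rfl
theorem Ext.one_snd : (1 : Ext c).2 = 0 := rfl
theorem Ext.inv_fst (u : Ext c) : (u⁻¹).1 = u.1⁻¹ := rfl
theorem Ext.inv_snd (u : Ext c) : (u⁻¹).2 = -u.2 - c.c u.1⁻¹ u.1 := rfl

instance : Group (Ext c) :=
  Group.ofLeftAxioms
    (fun u v w => Prod.ext (mul_assoc _ _ _) (by
      simp only [Ext.mul_snd, Ext.mul_fst]
      have := c.assoc u.1 v.1 w.1
      rw [← sub_eq_iff_eq_add] at this
      rw [← this]; abel))
    (fun u => Prod.ext (one_mul _) (by simp [Ext.mul_snd, Ext.one_snd, Ext.one_fst, c.left]))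
    (fun u => Prod.ext (inv_mul_cancel _) (by
      rw [Ext.mul_snd, Ext.one_snd, Ext.inv_snd, Ext.inv_fst]; abel))

/-- The projection of the extension. -/
def Ext.proj : Ext c →* J where
  toFun u := u.1
  map_one' := rfl
  map_mul' _ _ := rfl

/-- The central elements. -/
def Ext.cen (a : A) : Ext c := (1, a)

theorem Ext.cen_fst (a : A) : (Ext.cen c a).1 = 1 := rfl
theorem Ext.cen_snd (a : A) : (Ext.cen c a).2 = a := rfl

theorem Ext.cen_comm (a : A) (u : Ext c) : Ext.cen c a * u = u * Ext.cen c a :=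
  Prod.ext (by simp [Ext.mul_fst, Ext.cen_fst])
    (by simp [Ext.mul_snd, Ext.cen_fst, Ext.cen_snd, c.left, c.right, add_comm])

theorem Ext.cen_add (a b : A) : Ext.cen c a * Ext.cen c b = Ext.cen c (a + b) :=
  Prod.ext (by simp [Ext.mul_fst, Ext.cen_fst])
    (by simp [Ext.mul_snd, Ext.cen_fst, Ext.cen_snd, c.left])

theorem Ext.cen_pow (a : A) (n : ℕ) : Ext.cen c a ^ n = Ext.cen c (n • a) := by
  induction n with
  | zero => rw [pow_zero, zero_smul]; rfl
  | succ n ih => rw [pow_succ, ih, Ext.cen_add, succ_nsmul]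

end

end Pool.Agent.P.MP_e06b60_al.Five
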