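import Mathlib
import Pool.Agent.P.MP_e06b60_al.Cocycle

/-! A cocycle from commuting left and right actions of a family of generators. -/

namespace Pool.Agent.P.MP_e06b60_al.Two

open Pool.Agent.P.MP_e06b60_al.Five

theorem exists_cocycle_fam {Q A ι : Type*} [Group Q] [AddCommGroup A] (s : ι → Q)
    (hS : Subgroup.closure (Set.range s) = ⊤) (ρ lam : ι → Q → A)
    (h : ∀ i j f, ρ j f + lam i (f * s j) = lam i f + ρ j (s i * f)) :
    ∃ c : Q → Q → A, (∀ f g h, c f g + c (f * g) h = c g h + c f (g * h)) ∧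
      (∀ f, c 1 f = 0) ∧ (∀ f, c f 1 = 0) ∧
      (∀ j f, c f (s j) = ρ j f - ρ j 1) ∧ (∀ i f, c (s i) f = lam i f - lam i 1) := by
  let Good : Q → (Q → A) → Prop := fun g κ =>
    ∀ i f, κ f + lam i (f * g) = lam i f + κ (s i * f)
  have hmul : ∀ g h κ κ', Good g κ → Good h κ' → Good (g * h) fun f => κ f + κ' (f * g) := by
    intro g h κ κ' a b i f
    have e1 := a i f
    have e2 := b i (f * g)
    simp only [mul_assoc] at *
    rw [add_assoc, e2, ← add_assoc, e1, add_assoc]
  have huniq : ∀ g κ κ', Good g κ → Good g κ' → ∀ f, κ f - κ' f = κ 1 - κ' 1 := by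
    intro g κ κ' a b
    refine const_of_left hS (fun f => κ f - κ' f) ?_
    rintro _ ⟨i, rfl⟩ f
    have e1 := a i f
    have e2 := b i f
    rw [← sub_eq_iff_eq_add'] at e1 e2
    simp only [← e1, ← e2]; abel
  have hex : ∀ g, ∃ κ, Good g κ ∧ κ 1 = 0 := by
    have h0 : ∀ g ∈ Subgroup.closure (Set.range s), ∃ κ, Good g κ := by
      intro g hg
      induction hg using Subgroup.closure_induction with
      | mem g hs =>
        obtain ⟨j, rfl⟩ := hs
        exact ⟨ρ j, fun i f => h i j f⟩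
      | one => exact ⟨fun _ => 0, fun i f => by simp⟩
      | mul a b _ _ ha hb =>
        obtain ⟨κ, h1⟩ := ha
        obtain ⟨κ', h2⟩ := hb
        exact ⟨_, hmul _ _ _ _ h1 h2⟩
      | inv a _ ha =>
        obtain ⟨κ, h1⟩ := ha
        refine ⟨fun f => -κ (f * a⁻¹), fun i f => ?_⟩
        have e := h1 i (f * a⁻¹)
        simp only [mul_assoc, inv_mul_cancel, mul_one] at *
        rw [← sub_eq_iff_eq_add'] at e
        rw [← e]; abel
    intro g
    obtain ⟨κ, h1⟩ := h0 g (hS ▸ Subgroup.mem_top g)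
    refine ⟨fun f => κ f - κ 1, fun i f => ?_, sub_self _⟩
    rw [sub_add_eq_add_sub, h1, add_sub_assoc]
  choose κ hκ hκ1 using hex
  refine ⟨fun f g => κ g f, fun f g h => ?_, hκ1, fun f => ?_, fun j f => ?_, fun i f => ?_⟩
  · have e := huniq _ _ _ (hmul _ _ _ _ (hκ g) (hκ h)) (hκ (g * h)) f
    simp only [hκ1, one_mul, zero_add, sub_zero] at e
    rw [sub_eq_iff_eq_add] at e
    exact e
  · have e := huniq 1 _ (fun _ => 0) (hκ 1) (fun i f => by simp) f
    simpa [hκ1] using e
  · have e := huniq (s j) _ (ρ j) (hκ (s j)) (fun i f => h i j f) f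
    rw [hκ1, sub_eq_iff_eq_add] at e
    simp only [e]; abel
  · have e := hκ f i 1
    simp only [hκ1, one_mul, mul_one, zero_add] at e
    simp only [e]; abel

end Pool.Agent.P.MP_e06b60_al.Two
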