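import Mathlib
import Pool.Agent.P.MP_e06b60_al.JStruct

/-! Definitions for the recognition theorem (primes at least seven). Index zero is junk. -/

namespace Pool.Agent.P.MP_e06b60_al.R

open PowerSeries
open scoped commutatorElement

/-- An N-series, indexed from one. -/
structure NS (G : Type) [Group G] where
  F : ℕ → Subgroup G
  anti : ∀ n, 1 ≤ n → F (n + 1) ≤ F n
  comm : ∀ i j, 1 ≤ i → 1 ≤ j → ∀ x ∈ F i, ∀ y ∈ F j, ⁅x, y⁆ ∈ F (i + j)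

/-- A functional on the section `F n / F (n+1)`. -/
structure IsFun (p : ℕ) {G : Type} [Group G] (S : NS G) (n : ℕ) (f : G → ZMod p) : Prop where
  mul : ∀ x ∈ S.F n, ∀ y ∈ S.F n, f (x * y) = f x + f y
  zero : ∀ x ∈ S.F (n + 1), f x = 0

/-- An N-series with leading coefficients which multiply as in the Nottingham group. -/
structure PF (p : ℕ) (G : Type) [Group G] extends NS G where
  lead : ℕ → G → ZMod p
  top : F 1 = ⊤
  isFun : ∀ n, 1 ≤ n → IsFun p toNS n (lead n)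
  surj : ∀ n, 1 ≤ n → ∃ g ∈ F n, lead n g = 1
  br : ∀ i j, 1 ≤ i → 1 ≤ j → ∀ x ∈ F i, ∀ y ∈ F j,
    lead (i + j) ⁅x, y⁆ = ((i : ZMod p) - j) * lead i x * lead j y

section
variable {p : ℕ} {G H : Type} [Group G] [Group H]

/-- The kernel of the leading coefficient is the next term (Witt filtration). -/
def PF.Ker (A : PF p G) : Prop :=
  ∀ n, 1 ≤ n → ∀ x ∈ A.F n, A.lead n x = 0 → x ∈ A.F (n + 1)

/-- The kernel of the leading coefficient is central in the graded ring. -/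
def PF.Cen (A : PF p G) : Prop :=
  ∀ n m, 1 ≤ n → 1 ≤ m → ∀ x ∈ A.F n, A.lead n x = 0 → ∀ y ∈ A.F m, ⁅x, y⁆ ∈ A.F (n + m + 1)

/-- Powers of deep elements are much deeper. -/
def PF.PW (A : PF p G) : Prop :=
  ∀ r, ∃ i0, ∀ i, i0 ≤ i → ∀ x ∈ A.F i, x ^ p ∈ A.F (i + r + 1)

/-- A correspondence of depth `r`. -/
structure Corr (A : PF p G) (B : PF p H) (r : ℕ) extends NS (G × H) where
  fst_mem : ∀ n, 1 ≤ n → ∀ x ∈ F n, x.1 ∈ A.F n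
  snd_mem : ∀ n, 1 ≤ n → ∀ x ∈ F n, x.2 ∈ B.F n
  lead_eq : ∀ n, 1 ≤ n → ∀ x ∈ F n, A.lead n x.1 = B.lead n x.2
  surj : ∀ n, 1 ≤ n → ∃ x ∈ F n, A.lead n x.1 = 1
  deep : ∀ n, 1 ≤ n → ∀ g ∈ A.F (n + r), ∀ h ∈ B.F (n + r), (g, h) ∈ F n
  step : ∀ n, 1 ≤ n → ∀ x ∈ F n, x.1 ∈ A.F (n + 1) →
    ∃ j ∈ B.F (n + r), x * (1, j) ∈ F (n + 1)
  inj : ∀ n, 1 ≤ n → ∀ h : H, ((1 : G), h) ∈ F n → h ∈ B.F (n + r)

/-- Approximation of level `q` to the central part. -/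
structure KS (A : PF p G) (q : ℕ) where
  K : ℕ → Subgroup G
  le : ∀ n, 1 ≤ n → K n ≤ A.F n
  anti : ∀ n, 1 ≤ n → K (n + 1) ≤ K n
  deep : ∀ n, 1 ≤ n → A.F (n + q) ≤ K n
  comm : ∀ n m, 1 ≤ n → 1 ≤ m → ∀ x ∈ K n, ∀ y ∈ A.F m, ⁅x, y⁆ ∈ K (n + m)
  comm' : ∀ n m, 1 ≤ n → 1 ≤ m → ∀ x ∈ K n, ∀ y ∈ A.F m,
    ∃ u ∈ A.F (n + m + q), ⁅x, y⁆ * u⁻¹ ∈ K (n + m + 1)
  zin : ∀ n, ∀ x ∈ A.F (n + q), A.lead (n + q) x = 0 → x ∈ K (n + 1)
  zout : ∀ n, ∀ x ∈ K (n + 1), x ∈ A.F (n + q) → A.lead (n + q) x = 0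

/-- Raising to the power `w` shifts the depth by `r` and keeps the leading coefficient. -/
def PF.UP (A : PF p G) (r w i1 : ℕ) : Prop :=
  ∀ i, i1 ≤ i → ∀ x ∈ A.F i, x ^ p ∈ A.F (i + r) ∧ x ^ w ∈ A.F (i + r) ∧
    A.lead (i + r) (x ^ w) = A.lead i x

/-- A Lie ring structure on the section `F n / F (2n)`. -/
structure LieMod (A : PF p G) (n : ℕ) (b : G → G → G) : Prop where
  mem : ∀ x ∈ A.F n, ∀ y ∈ A.F n, b x y ∈ A.F n
  congr : ∀ x ∈ A.F n, ∀ x' ∈ A.F n, ∀ y ∈ A.F n, x * x'⁻¹ ∈ A.F (2 * n) →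
    b x y * (b x' y)⁻¹ ∈ A.F (2 * n)
  add : ∀ x ∈ A.F n, ∀ x' ∈ A.F n, ∀ y ∈ A.F n,
    b (x * x') y * (b x y * b x' y)⁻¹ ∈ A.F (2 * n)
  anti : ∀ x ∈ A.F n, ∀ y ∈ A.F n, b x y * b y x ∈ A.F (2 * n)
  jac : ∀ x ∈ A.F n, ∀ y ∈ A.F n, ∀ z ∈ A.F n,
    b (b x y) z * b (b y z) x * b (b z x) y ∈ A.F (2 * n)
  lead : ∀ i j, i + j < n → ∀ x ∈ A.F (n + i), ∀ y ∈ A.F (n + j), b x y ∈ A.F (n + (i + j)) ∧
    A.lead (n + (i + j)) (b x y) = ((i : ZMod p) - j) * A.lead (n + i) x * A.lead (n + j) y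

end

/-- Coordinates of the lattice vector of depth `m`. -/
def av (R : Type) [CommRing R] (r : ℕ) (w : R) (m : ℕ) (k : Fin r) : R :=
  if k.val = m % r then w ^ (m / r) else 0

/-- The exponent needed at coordinate `k` for depth at least `m`. -/
def dep (r m k : ℕ) : ℕ := (m + r - 1 - k) / r

/-- Structure constants modulo `q`, with the prescribed leading terms. -/
structure SC (R : Type) [CommRing R] (p r : ℕ) (w q : R) (C : Fin r → Fin r → Fin r → R) :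
    Prop where
  anti : ∀ i j k, q ∣ C i j k + C j i k
  jac : ∀ i j l m, q ∣ ∑ k, (C i j k * C k l m + C j l k * C k i m + C l i k * C k j m)
  lead : ∀ i j k, (p : R) ^ dep r (i.val + j.val + 1) k.val ∣
    C i j k - ((i.val : R) - j.val) * av R r w (i.val + j.val) k

/-- A closed N-series whose terms from the third on are generated by commutators. -/
structure WS (G : Type) [Group G] [TopologicalSpace G] extends NS G where
  top : F 1 = ⊤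
  closed : ∀ n, 1 ≤ n → IsClosed (F n : Set G)
  gen : ∀ n, 3 ≤ n → ∀ T : Subgroup G, IsClosed (T : Set G) →
    (∀ i j, 1 ≤ i → 1 ≤ j → i + j = n → ∀ x ∈ F i, ∀ y ∈ F j, ⁅x, y⁆ ∈ T) → F n ≤ T

/-- The series looks like that of the Nottingham group up to level `n0`. -/
structure Base (p : ℕ) {G : Type} [Group G] [TopologicalSpace G] (S : WS G) (n0 : ℕ)
    (g : ℕ → G) : Prop where
  mem : ∀ n, 1 ≤ n → n ≤ n0 → g n ∈ S.F n
  pow : ∀ n, 1 ≤ n → n ≤ n0 → ∀ x ∈ S.F n, x ^ p ∈ S.F (n + 1)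
  span : ∀ n, 1 ≤ n → n ≤ n0 → ∀ x ∈ S.F n, ∃ a : ℕ, x * (g n ^ a)⁻¹ ∈ S.F (n + 1)
  rel : ∀ i j, 1 ≤ i → 1 ≤ j → i + j ≤ n0 →
    ⁅g i, g j⁆ * (g (i + j) ^ ((i : ℤ) - j))⁻¹ ∈ S.F (i + j + 1)
  opn : IsOpen (S.F (n0 + 1) : Set G)

/-- The graded ring is, up to level `N`, a central extension given by the cubic cocycles. -/
structure Str (p : ℕ) {G : Type} [Group G] [TopologicalSpace G] (S : WS G) (n0 : ℕ)
    (g z : ℕ → G) (N : ℕ) : Prop where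
  mem : ∀ n, 1 ≤ n → n ≤ N → g n ∈ S.F n ∧ z n ∈ S.F n
  triv : ∀ n, 1 ≤ n → n ≤ N → (¬ p ∣ n ∨ n ≤ n0) → z n = 1
  span : ∀ n, 1 ≤ n → n ≤ N → ∀ x ∈ S.F n,
    ∃ a b : ℕ, x * (g n ^ a * z n ^ b)⁻¹ ∈ S.F (n + 1)
  rel : ∀ i j, 1 ≤ i → 1 ≤ j → i + j ≤ N →
    ⁅g i, g j⁆ * (g (i + j) ^ ((i : ℤ) - j) * z (i + j) ^ i ^ 3)⁻¹ ∈ S.F (i + j + 1)
  cen : ∀ m j, 1 ≤ m → 1 ≤ j → m + j ≤ N → ∀ y ∈ S.F j, ⁅z m, y⁆ ∈ S.F (m + j + 1)
  opn : IsOpen (S.F (N + 1) : Set G)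

/-- A central extension in weight `k * p` of a quotient of the Nottingham group. -/
structure AD (p k : ℕ) (G : Type) [Group G] extends NS G where
  top : F 1 = ⊤
  θ : G →* Nott p
  surj : Function.Surjective θ
  pre : ∀ n, 1 ≤ n → n ≤ k * p → ∀ x, x ∈ F n ↔ θ x ∈ Jn p n
  z : G
  z_mem : z ∈ F (k * p)
  z_not : z ∉ F (k * p + 1)
  z_pow : z ^ p ∈ F (k * p + 1)
  z_im : θ z ∈ Jn p (k * p + 1)
  deep : ∀ x ∈ F (k * p + 1), θ x ∈ Jn p (k * p + 1)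
  ker : ∀ x, θ x ∈ Jn p (k * p + 1) → ∃ b : ℕ, x * (z ^ b)⁻¹ ∈ F (k * p + 1)
  g : ℕ → G
  g_mem : ∀ n, 1 ≤ n → n ≤ k * p → g n ∈ F n ∧ coeff (n + 1) (θ (g n)).1 = 1
  rel : ∀ i j, 1 ≤ i → 1 ≤ j → i + j = k * p →
    ⁅g i, g j⁆ * (g (k * p) ^ ((i : ℤ) - j) * z ^ i ^ 3)⁻¹ ∈ F (k * p + 1)

/-- Two-cocycles of degree `r` of the positive Witt algebra with adjoint coefficients. -/
structure Coc {p : ℕ} (r : ZMod p) (c : ℕ → ℕ → ZMod p) : Prop where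
  anti : ∀ i j, 1 ≤ i → 1 ≤ j → c j i = - c i j
  jac : ∀ i j l : ℕ, 1 ≤ i → 1 ≤ j → 1 ≤ l →
    ((i : ZMod p) - j) * c (i + j) l + ((j : ZMod p) - l) * c (j + l) i +
      ((l : ZMod p) - i) * c (l + i) j + ((i : ZMod p) + j + r - l) * c i j +
      ((j : ZMod p) + l + r - i) * c j l + ((l : ZMod p) + i + r - j) * c l i = 0

/-- Coboundaries. -/
def cob {p : ℕ} (r : ZMod p) (b : ℕ → ZMod p) (i j : ℕ) : ZMod p :=
  ((i : ZMod p) - j) * b (i + j) - ((i : ZMod p) - j + r) * b i - ((i : ZMod p) - j - r) * b j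

section
variable {p : ℕ}

/-- The derivative. -/
noncomputable abbrev dx (f : (ZMod p)⟦X⟧) : (ZMod p)⟦X⟧ := d⁄dX (ZMod p) f

/-- The depth filtration of the Nottingham group. -/
noncomputable def JW (p : ℕ) : PF p (Nott p) where
  F := Jn p
  anti n _ := Jn_anti (Nat.le_succ n)
  comm _ _ hi hj _ hx _ hy := (comm_lead hi hj hx hy).1
  lead n f := coeff (n + 1) f.1
  top := Jn_one
  isFun n hn := ⟨fun _ hx _ hy => lam_mul hn hx hy, fun _ hx =>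
    (mem_succ_iff hn (Jn_anti (Nat.le_succ n) hx)).mp hx⟩
  surj n hn := by
    obtain ⟨m, rfl⟩ : ∃ m, n = m + 1 := ⟨n - 1, by omega⟩
    exact ⟨el p m, el_mem m, el_coeff m⟩
  br _ _ hi hj _ hx _ hy := (comm_lead hi hj hx hy).2

theorem JW_F (n : ℕ) : (JW p).F n = Jn p n := rfl

theorem JW_lead (n : ℕ) (f : Nott p) : (JW p).lead n f = coeff (n + 1) f.1 := rfl

theorem JW_ker : (JW p).Ker := fun _ hn _ hx h => (mem_succ_iff hn hx).mpr h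

/-- Pull-back of one-forms. -/
noncomputable def pb (h : Nott p) (ω : (ZMod p)⟦X⟧) : (ZMod p)⟦X⟧ :=
  (ω.subst h.1 : (ZMod p)⟦X⟧) * dx h.1

/-- The Cartier operator on one-forms. -/
noncomputable def car (ω : (ZMod p)⟦X⟧) : (ZMod p)⟦X⟧ :=
  PowerSeries.mk fun n => coeff (n * p + (p - 1)) ω

variable [Fact p.Prime]

/-- Right action on vector fields. -/
noncomputable def act (g : Nott p) (β : (ZMod p)⟦X⟧) : (ZMod p)⟦X⟧ :=
  (β.subst g.1 : (ZMod p)⟦X⟧) * (dx g.1)⁻¹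

/-- The Schwarzian derivative. -/
noncomputable def sch (g : Nott p) : (ZMod p)⟦X⟧ :=
  dx (dx (dx g.1)) * (dx g.1)⁻¹ - C (3 / 2 : ZMod p) * (dx (dx g.1) * (dx g.1)⁻¹) ^ 2

/-- The model cocycle with values in one-forms. -/
noncomputable def om (g : Nott p) (β : (ZMod p)⟦X⟧) : (ZMod p)⟦X⟧ := sch g * act g β

/-- The logarithm up to second order. -/
noncomputable def lg (f : Nott p) : (ZMod p)⟦X⟧ :=
  (f.1 - X) - C (1 / 2 : ZMod p) * ((f.1 - X) * dx (f.1 - X))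

/-- The stabiliser of the projective connection `c / t ^ 2`. -/
def InS (c : ZMod p) (g : Nott p) : Prop :=
  X ^ 2 * sch g * g.1 ^ 2 = C c * (g.1 ^ 2 - X ^ 2 * dx g.1 ^ 2)

/-- The cocycle of a module extension with a cubic top part. -/
structure Eta (w j0 : ℕ) (η : Nott p → (ZMod p)⟦X⟧ → ZMod p) : Prop where
  add : ∀ g β γ, X ^ (j0 + 1) ∣ β → X ^ (j0 + 1) ∣ γ → η g (β + γ) = η g β + η g γ
  coc : ∀ g h β, X ^ (j0 + 1) ∣ β → η (g * h) β = η h (act g β) + η g β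
  van : ∀ i j g β, 1 ≤ i → j0 ≤ j → w < i + j → g ∈ Jn p i → X ^ (j + 1) ∣ β → η g β = 0
  top : ∃ α μ : ZMod p, μ ≠ 0 ∧ ∀ (i j : ℕ) g β, 1 ≤ i → j0 ≤ j → i + j = w → g ∈ Jn p i →
    X ^ (j + 1) ∣ β →
    η g β = coeff (i + 1) g.1 * coeff (j + 1) β * (α * (2 * i - w) + μ * i ^ 3)

/-- Normal form of the cocycle in total weight at least `s`. -/
structure NF (k j0 s : ℕ) (η : Nott p → (ZMod p)⟦X⟧ → ZMod p) (T : (ZMod p)⟦X⟧ →+ ZMod p)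
    (μ μ' : ZMod p) : Prop where
  van : ∀ β, X ^ (k * p + 2) ∣ β → T β = 0
  eq : ∀ i j g β, 1 ≤ i → j0 ≤ j → s ≤ i + j → g ∈ Jn p i → X ^ (j + 1) ∣ β →
    η g β = T (act g β) - T β + μ * coeff (k * p - 1) (om g β) +
      μ' * coeff ((k - 1) * p - 1) (om g β)

end

end Pool.Agent.P.MP_e06b60_al.R
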