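import Mathlib
import Pool.Agent.P.MP_e06b60_al.RDefs

namespace Pool.Agent.P.MP_e06b60_al.R

open PowerSeries
open scoped commutatorElement

variable {G : Type} [Group G] (S : NS G)

theorem NS.mono {i j : ℕ} (hi : 1 ≤ i) (h : i ≤ j) : S.F j ≤ S.F i := by
  induction j, h using Nat.le_induction with
  | base => exact le_rfl
  | succ k hk ih => exact (S.anti k (by omega)).trans ih

theorem NS.conj_mem {n : ℕ} (hn : 1 ≤ n) {x g : G} (hx : x ∈ S.F n) (hg : g ∈ S.F 1) :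
    g * x * g⁻¹ ∈ S.F n := by
  have e : g * x * g⁻¹ = ⁅g, x⁆ * x := by simp only [commutatorElement_def]; group
  rw [e]
  exact mul_mem (S.mono hn (by omega) (S.comm 1 n le_rfl hn g hg x hx)) hx

theorem NS.cg_symm {n : ℕ} {x y : G} (h : x * y⁻¹ ∈ S.F n) : y * x⁻¹ ∈ S.F n := by
  have e : y * x⁻¹ = (x * y⁻¹)⁻¹ := by group
  rw [e]
  exact inv_mem h

theorem NS.cg_trans {n : ℕ} {x y z : G} (h : x * y⁻¹ ∈ S.F n) (h' : y * z⁻¹ ∈ S.F n) :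
    x * z⁻¹ ∈ S.F n := by
  have e : x * z⁻¹ = (x * y⁻¹) * (y * z⁻¹) := by group
  rw [e]
  exact mul_mem h h'

theorem NS.cg_left {n : ℕ} (hn : 1 ≤ n) {x y : G} (hy : y ∈ S.F 1) :
    x * y⁻¹ ∈ S.F n ↔ y⁻¹ * x ∈ S.F n := by
  constructor
  · intro h
    have e : y⁻¹ * x = y⁻¹ * (x * y⁻¹) * (y⁻¹)⁻¹ := by group
    rw [e]
    exact S.conj_mem hn h (inv_mem hy)
  · intro h
    have e : x * y⁻¹ = y * (y⁻¹ * x) * y⁻¹ := by group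
    rw [e]
    exact S.conj_mem hn h hy

theorem NS.cg_mul {n : ℕ} (hn : 1 ≤ n) {x x' y y' : G} (hx : x ∈ S.F 1)
    (h1 : x * x'⁻¹ ∈ S.F n) (h2 : y * y'⁻¹ ∈ S.F n) : x * y * (x' * y')⁻¹ ∈ S.F n := by
  have e : x * y * (x' * y')⁻¹ = x * (y * y'⁻¹) * x⁻¹ * (x * x'⁻¹) := by group
  rw [e]
  exact mul_mem (S.conj_mem hn h2 hx) h1

theorem NS.cg_inv {n : ℕ} (hn : 1 ≤ n) {x x' : G} (hx : x ∈ S.F 1) (h : x * x'⁻¹ ∈ S.F n) :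
    x⁻¹ * (x'⁻¹)⁻¹ ∈ S.F n := by
  have e : x⁻¹ * (x'⁻¹)⁻¹ = x⁻¹ * (x' * x⁻¹) * (x⁻¹)⁻¹ := by group
  rw [e]
  exact S.conj_mem hn (S.cg_symm h) (inv_mem hx)

theorem NS.cg_pow {n : ℕ} (hn : 1 ≤ n) {x x' : G} (hx : x ∈ S.F 1) (h : x * x'⁻¹ ∈ S.F n)
    (a : ℕ) : x ^ a * (x' ^ a)⁻¹ ∈ S.F n := by
  induction a with
  | zero => simp
  | succ a ih =>
    rw [pow_succ', pow_succ']
    exact S.cg_mul hn hx h ih

theorem NS.cg_swap {a b : ℕ} (ha : 1 ≤ a) (hb : 1 ≤ b) {x y : G} (hx : x ∈ S.F a) (hy : y ∈ S.F b) :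
    x * y * (y * x)⁻¹ ∈ S.F (a + b) := by
  have e : x * y * (y * x)⁻¹ = ⁅x, y⁆ := by simp only [commutatorElement_def]; group
  rw [e]
  exact S.comm a b ha hb x hx y hy

theorem NS.comm_mul_left {a b c : ℕ} (ha : 1 ≤ a) (hb : 1 ≤ b) (hc : 1 ≤ c) {x x' y : G}
    (hx : x ∈ S.F a) (hx' : x' ∈ S.F b) (hy : y ∈ S.F c) :
    ⁅x * x', y⁆ * (⁅x, y⁆ * ⁅x', y⁆)⁻¹ ∈ S.F (a + b + c) := by
  have hu := S.comm a c ha hc x hx y hy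
  have hu' := S.comm b c hb hc x' hx' y hy
  have e : ⁅x * x', y⁆ * (⁅x, y⁆ * ⁅x', y⁆)⁻¹ = ⁅x, ⁅x', y⁆⁆ * ⁅⁅x', y⁆, ⁅x, y⁆⁆ := by
    simp only [commutatorElement_def]; group
  rw [e]
  exact mul_mem
    (S.mono (by omega) (by omega) (S.comm a (b + c) ha (by omega) _ hx _ hu'))
    (S.mono (by omega) (by omega) (S.comm (b + c) (a + c) (by omega) (by omega) _ hu' _ hu))

theorem NS.comm_mul_right {a b c : ℕ} (ha : 1 ≤ a) (hb : 1 ≤ b) (hc : 1 ≤ c) {x y y' : G}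
    (hx : x ∈ S.F a) (hy : y ∈ S.F b) (hy' : y' ∈ S.F c) :
    ⁅x, y * y'⁆ * (⁅x, y⁆ * ⁅x, y'⁆)⁻¹ ∈ S.F (a + b + c) := by
  have hu := S.comm a b ha hb x hx y hy
  have hu' := S.comm a c ha hc x hx y' hy'
  have e : ⁅x, y * y'⁆ * (⁅x, y⁆ * ⁅x, y'⁆)⁻¹ = ⁅x, y⁆ * ⁅y, ⁅x, y'⁆⁆ * ⁅x, y⁆⁻¹ := by
    simp only [commutatorElement_def]; group
  rw [e]
  exact S.conj_mem (by omega)
    (S.mono (by omega) (by omega) (S.comm b (a + c) hb (by omega) _ hy _ hu'))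
    (S.mono le_rfl (by omega) hu)

theorem NS.comm_cg_left {a c : ℕ} (ha : 1 ≤ a) (hc : 1 ≤ c) {x x' y : G} (hx' : x' ∈ S.F 1)
    (h : x * x'⁻¹ ∈ S.F a) (hy : y ∈ S.F c) : ⁅x, y⁆ * ⁅x', y⁆⁻¹ ∈ S.F (a + c) := by
  have hu' := S.comm 1 c le_rfl hc x' hx' y hy
  have e : ⁅x, y⁆ * ⁅x', y⁆⁻¹
      = ⁅x * x'⁻¹, ⁅x', y⁆⁆ * (⁅x', y⁆ * ⁅x * x'⁻¹, y⁆ * ⁅x', y⁆⁻¹) := by
    simp only [commutatorElement_def]; group
  rw [e]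
  exact mul_mem (S.comm a c ha hc _ h _ (S.mono hc (by omega) hu'))
    (S.conj_mem (by omega) (S.comm a c ha hc _ h _ hy) (S.mono le_rfl (by omega) hu'))

theorem NS.comm_cg_right {a c : ℕ} (ha : 1 ≤ a) (hc : 1 ≤ c) {x y y' : G} (hx : x ∈ S.F a)
    (hy' : y' ∈ S.F 1) (h : y * y'⁻¹ ∈ S.F c) : ⁅x, y⁆ * ⁅x, y'⁆⁻¹ ∈ S.F (a + c) := by
  have hu' := S.comm a 1 ha le_rfl x hx y' hy'
  have e : ⁅x, y⁆ * ⁅x, y'⁆⁻¹ = ⁅x, y * y'⁻¹⁆ * ⁅y * y'⁻¹, ⁅x, y'⁆⁆ := by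
    simp only [commutatorElement_def]; group
  rw [e]
  exact mul_mem (S.comm a c ha hc _ hx _ h)
    (S.mono (by omega) (by omega) (S.comm c a hc ha _ h _ (S.mono ha (by omega) hu')))

theorem NS.comm_pow_left {a c : ℕ} (ha : 1 ≤ a) (hc : 1 ≤ c) {x y : G} (hx : x ∈ S.F a)
    (hy : y ∈ S.F c) (n : ℕ) : ⁅x ^ n, y⁆ * (⁅x, y⁆ ^ n)⁻¹ ∈ S.F (2 * a + c) := by
  induction n with
  | zero => simp
  | succ n ih =>
    have h1 := S.comm_mul_left ha ha hc (pow_mem hx n) hx hy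
    rw [← two_mul, ← pow_succ] at h1
    refine S.cg_trans h1 ?_
    have e : ⁅x ^ n, y⁆ * ⁅x, y⁆ * (⁅x, y⁆ ^ (n + 1))⁻¹ = ⁅x ^ n, y⁆ * (⁅x, y⁆ ^ n)⁻¹ := by
      rw [pow_succ, mul_inv_rev, ← mul_assoc, mul_inv_cancel_right]
    rw [e]
    exact ih

theorem NS.comm_pow_right {a c : ℕ} (ha : 1 ≤ a) (hc : 1 ≤ c) {x y : G} (hx : x ∈ S.F a)
    (hy : y ∈ S.F c) (n : ℕ) : ⁅x, y ^ n⁆ * (⁅x, y⁆ ^ n)⁻¹ ∈ S.F (a + 2 * c) := by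
  induction n with
  | zero => simp
  | succ n ih =>
    have h1 := S.comm_mul_right ha hc hc hx (pow_mem hy n) hy
    rw [add_assoc, ← two_mul, ← pow_succ] at h1
    refine S.cg_trans h1 ?_
    have e : ⁅x, y ^ n⁆ * ⁅x, y⁆ * (⁅x, y⁆ ^ (n + 1))⁻¹ = ⁅x, y ^ n⁆ * (⁅x, y⁆ ^ n)⁻¹ := by
      rw [pow_succ, mul_inv_rev, ← mul_assoc, mul_inv_cancel_right]
    rw [e]
    exact ih

theorem NS.mul_pow_cg {a b : ℕ} (ha : 1 ≤ a) (hb : 1 ≤ b) {x y : G} (hx : x ∈ S.F a)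
    (hy : y ∈ S.F b) (n : ℕ) : (x * y) ^ n * (x ^ n * y ^ n)⁻¹ ∈ S.F (a + b) := by
  induction n with
  | zero => simp
  | succ n ih =>
    have e : (x * y) ^ (n + 1) * (x ^ (n + 1) * y ^ (n + 1))⁻¹
        = ((x * y) ^ n * (x ^ n * y ^ n)⁻¹) * (x ^ n * ⁅y ^ n, x⁆ * (x ^ n)⁻¹) := by
      rw [pow_succ, pow_succ, pow_succ, commutatorElement_def]
      generalize (x * y) ^ n = u
      generalize x ^ n = v
      generalize y ^ n = w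
      group
    rw [e]
    refine mul_mem ih (S.conj_mem (by omega) ?_ (S.mono le_rfl ha (pow_mem hx n)))
    rw [add_comm]
    exact S.comm b a hb ha _ (pow_mem hy n) _ hx

theorem NS.jacobi {a b c m : ℕ} (hm : 1 ≤ m) (ha : m ≤ a) (hb : m ≤ b) (hc : m ≤ c) {x y z : G}
    (hx : x ∈ S.F a) (hy : y ∈ S.F b) (hz : z ∈ S.F c) :
    ⁅⁅x, y⁆, z⁆ * ⁅⁅y, z⁆, x⁆ * ⁅⁅z, x⁆, y⁆ ∈ S.F (a + b + c + m) := by
  have key : ∀ {a b c : ℕ} {x y z : G}, m ≤ a → m ≤ b → m ≤ c → x ∈ S.F a → y ∈ S.F b →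
      z ∈ S.F c → ⁅⁅x, y⁆, z⁆ ∈ S.F 1 ∧
        ⁅⁅x, y⁆, z⁆ * ⁅⁅x, y⁆, y * z * y⁻¹⁆⁻¹ ∈ S.F (a + b + c + m) := by
    intro a b c x y z ha hb hc hx hy hz
    have hu := S.comm a b (by omega) (by omega) x hx y hy
    refine ⟨S.mono le_rfl (by omega) (S.comm (a + b) c (by omega) (by omega) _ hu _ hz), ?_⟩
    have hy1 : y ∈ S.F 1 := S.mono le_rfl (by omega) hy
    have hz1 : z ∈ S.F 1 := S.mono le_rfl (by omega) hz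
    have h1 : z * (y * z * y⁻¹)⁻¹ ∈ S.F (c + b) := by
      have e : z * (y * z * y⁻¹)⁻¹ = ⁅z, y⁆ := by simp only [commutatorElement_def]; group
      rw [e]
      exact S.comm c b (by omega) (by omega) _ hz _ hy
    exact S.mono (by omega) (by omega)
      (S.comm_cg_right (a := a + b) (c := c + b) (by omega) (by omega) hu
        (S.conj_mem le_rfl hz1 hy1) h1)
  obtain ⟨m1, k1⟩ := key ha hb hc hx hy hz
  obtain ⟨m2, k2⟩ := key hb hc ha hy hz hx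
  obtain ⟨-, k3⟩ := key hc ha hb hz hx hy
  rw [show b + c + a + m = a + b + c + m by omega] at k2
  rw [show c + a + b + m = a + b + c + m by omega] at k3
  have h := S.cg_mul (by omega) (mul_mem m1 m2) (S.cg_mul (by omega) m1 k1 k2) k3
  have e : ⁅⁅x, y⁆, y * z * y⁻¹⁆ * ⁅⁅y, z⁆, z * x * z⁻¹⁆ * ⁅⁅z, x⁆, x * y * x⁻¹⁆ = 1 := by
    simp only [commutatorElement_def]; group
  rwa [e, inv_one, mul_one] at h

theorem NS.cyc_comm {n : ℕ} (hn : 1 ≤ n) {g : G} (hg : g ∈ S.F n)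
    (h : ∀ x ∈ S.F n, ∃ a : ℕ, x * (g ^ a)⁻¹ ∈ S.F (n + 1)) :
    ∀ x ∈ S.F n, ∀ y ∈ S.F n, ⁅x, y⁆ ∈ S.F (2 * n + 1) := by
  intro x hx y hy
  obtain ⟨a, ha⟩ := h x hx
  obtain ⟨b, hb⟩ := h y hy
  have h1 := S.comm_cg_left (a := n + 1) (c := n) (by omega) hn
    (S.mono le_rfl hn (pow_mem hg a)) ha hy
  have h2 := S.comm_cg_right (a := n) (c := n + 1) hn (by omega) (pow_mem hg a)
    (S.mono le_rfl hn (pow_mem hg b)) hb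
  rw [show n + 1 + n = 2 * n + 1 by omega] at h1
  rw [show n + (n + 1) = 2 * n + 1 by omega] at h2
  have h3 := S.cg_trans h1 h2
  have e : ⁅g ^ a, g ^ b⁆ = 1 :=
    commutatorElement_eq_one_iff_commute.2 (Commute.pow_pow_self g a b)
  rwa [e, inv_one, mul_one] at h3

end Pool.Agent.P.MP_e06b60_al.R
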