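import Mathlib
import Pool.Agent.P.MP_e06b60_al.RA1

namespace Pool.Agent.P.MP_e06b60_al.R

open PowerSeries
open scoped commutatorElement

variable {p : ℕ} {G : Type} [Group G] {S : NS G} {n : ℕ} {f : G → ZMod p}

theorem IsFun.one (h : IsFun p S n f) : f 1 = 0 := by
  have h1 := h.mul 1 (S.F n).one_mem 1 (S.F n).one_mem
  rw [mul_one] at h1
  linear_combination -h1

theorem IsFun.inv (h : IsFun p S n f) {x : G} (hx : x ∈ S.F n) : f x⁻¹ = - f x := by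
  have h1 := h.mul x hx x⁻¹ ((S.F n).inv_mem hx)
  rw [mul_inv_cancel, h.one] at h1
  linear_combination -h1

theorem IsFun.pow (h : IsFun p S n f) {x : G} (hx : x ∈ S.F n) (a : ℕ) : f (x ^ a) = a * f x := by
  induction a with
  | zero => simp [h.one]
  | succ a ih =>
    rw [pow_succ, h.mul _ ((S.F n).pow_mem hx a) _ hx, ih]
    push_cast
    ring

theorem IsFun.zpow (h : IsFun p S n f) {x : G} (hx : x ∈ S.F n) (a : ℤ) : f (x ^ a) = a * f x := by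
  obtain ⟨b, rfl | rfl⟩ := Int.eq_nat_or_neg a
  · rw [zpow_natCast, h.pow hx, Int.cast_natCast]
  · rw [zpow_neg, zpow_natCast, h.inv ((S.F n).pow_mem hx b), h.pow hx]
    push_cast
    ring

theorem IsFun.div (h : IsFun p S n f) {x y : G} (hx : x ∈ S.F n) (hy : y ∈ S.F n) :
    f (x * y⁻¹) = f x - f y := by
  rw [h.mul _ hx _ ((S.F n).inv_mem hy), h.inv hy, sub_eq_add_neg]

theorem IsFun.congr (h : IsFun p S n f) (hn : 1 ≤ n) {x y : G} (hy : y ∈ S.F n)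
    (hxy : x * y⁻¹ ∈ S.F (n + 1)) : f x = f y := by
  have h1 := h.mul _ (S.anti n hn hxy) _ hy
  rw [inv_mul_cancel_right, h.zero _ hxy, zero_add] at h1
  exact h1

theorem IsFun.conj (h : IsFun p S n f) (hn : 1 ≤ n) {x g : G} (hx : x ∈ S.F n) (hg : g ∈ S.F 1) :
    f (g * x * g⁻¹) = f x := by
  refine h.congr hn hx ?_
  have h1 := S.comm 1 n le_rfl hn g hg x hx
  rw [add_comm] at h1
  exact h1

theorem IsFun.comm_mul_left (h : IsFun p S n f) {i j : ℕ} (hi : 1 ≤ i) (hj : 1 ≤ j) (hij : i + j = n)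
    {x x' y : G} (hx : x ∈ S.F i) (hx' : x' ∈ S.F i) (hy : y ∈ S.F j) :
    f ⁅x * x', y⁆ = f ⁅x, y⁆ + f ⁅x', y⁆ := by
  subst hij
  have h1 := S.comm i j hi hj x hx y hy
  have h2 := S.comm i j hi hj x' hx' y hy
  rw [← h.mul _ h1 _ h2]
  refine h.congr (by omega) ((S.F _).mul_mem h1 h2) ?_
  exact S.mono (by omega) (by omega) (S.comm_mul_left hi hi hj hx hx' hy)

theorem IsFun.comm_mul_right (h : IsFun p S n f) {i j : ℕ} (hi : 1 ≤ i) (hj : 1 ≤ j) (hij : i + j = n)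
    {x y y' : G} (hx : x ∈ S.F i) (hy : y ∈ S.F j) (hy' : y' ∈ S.F j) :
    f ⁅x, y * y'⁆ = f ⁅x, y⁆ + f ⁅x, y'⁆ := by
  subst hij
  have h1 := S.comm i j hi hj x hx y hy
  have h2 := S.comm i j hi hj x hx y' hy'
  rw [← h.mul _ h1 _ h2]
  refine h.congr (by omega) ((S.F _).mul_mem h1 h2) ?_
  exact S.mono (by omega) (by omega) (S.comm_mul_right hi hj hj hx hy hy')

theorem IsFun.comm_anti (h : IsFun p S n f) {i j : ℕ} (hi : 1 ≤ i) (hj : 1 ≤ j) (hij : i + j = n)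
    {x y : G} (hx : x ∈ S.F i) (hy : y ∈ S.F j) : f ⁅y, x⁆ = - f ⁅x, y⁆ := by
  subst hij
  rw [← commutatorElement_inv x y, h.inv (S.comm i j hi hj x hx y hy)]

theorem IsFun.comm_inv_left (h : IsFun p S n f) {i j : ℕ} (hi : 1 ≤ i) (hj : 1 ≤ j) (hij : i + j = n)
    {x y : G} (hx : x ∈ S.F i) (hy : y ∈ S.F j) : f ⁅x⁻¹, y⁆ = - f ⁅x, y⁆ := by
  have h1 := h.comm_mul_left hi hj hij hx ((S.F i).inv_mem hx) hy
  rw [mul_inv_cancel, commutatorElement_one_left, h.one] at h1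
  linear_combination -h1

theorem IsFun.comm_inv_right (h : IsFun p S n f) {i j : ℕ} (hi : 1 ≤ i) (hj : 1 ≤ j) (hij : i + j = n)
    {x y : G} (hx : x ∈ S.F i) (hy : y ∈ S.F j) : f ⁅x, y⁻¹⁆ = - f ⁅x, y⁆ := by
  have h1 := h.comm_mul_right hi hj hij hx hy ((S.F j).inv_mem hy)
  rw [mul_inv_cancel, commutatorElement_one_right, h.one] at h1
  linear_combination -h1

theorem IsFun.comm_pow_left (h : IsFun p S n f) {i j : ℕ} (hi : 1 ≤ i) (hj : 1 ≤ j) (hij : i + j = n)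
    {x y : G} (hx : x ∈ S.F i) (hy : y ∈ S.F j) (a : ℕ) :
    f ⁅x ^ a, y⁆ = a * f ⁅x, y⁆ := by
  induction a with
  | zero => simp [h.one]
  | succ a ih =>
    rw [pow_succ, h.comm_mul_left hi hj hij ((S.F i).pow_mem hx a) hx hy, ih]
    push_cast
    ring

theorem IsFun.comm_pow_right (h : IsFun p S n f) {i j : ℕ} (hi : 1 ≤ i) (hj : 1 ≤ j) (hij : i + j = n)
    {x y : G} (hx : x ∈ S.F i) (hy : y ∈ S.F j) (a : ℕ) :
    f ⁅x, y ^ a⁆ = a * f ⁅x, y⁆ := by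
  induction a with
  | zero => simp [h.one]
  | succ a ih =>
    rw [pow_succ, h.comm_mul_right hi hj hij hx ((S.F j).pow_mem hy a) hy, ih]
    push_cast
    ring

theorem IsFun.comm_zpow_left (h : IsFun p S n f) {i j : ℕ} (hi : 1 ≤ i) (hj : 1 ≤ j) (hij : i + j = n)
    {x y : G} (hx : x ∈ S.F i) (hy : y ∈ S.F j) (a : ℤ) :
    f ⁅x ^ a, y⁆ = a * f ⁅x, y⁆ := by
  obtain ⟨b, rfl | rfl⟩ := Int.eq_nat_or_neg a
  · rw [zpow_natCast, h.comm_pow_left hi hj hij hx hy, Int.cast_natCast]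
  · rw [zpow_neg, zpow_natCast, h.comm_inv_left hi hj hij ((S.F i).pow_mem hx b) hy,
      h.comm_pow_left hi hj hij hx hy]
    push_cast
    ring

theorem IsFun.comm_zpow_right (h : IsFun p S n f) {i j : ℕ} (hi : 1 ≤ i) (hj : 1 ≤ j) (hij : i + j = n)
    {x y : G} (hx : x ∈ S.F i) (hy : y ∈ S.F j) (a : ℤ) :
    f ⁅x, y ^ a⁆ = a * f ⁅x, y⁆ := by
  obtain ⟨b, rfl | rfl⟩ := Int.eq_nat_or_neg a
  · rw [zpow_natCast, h.comm_pow_right hi hj hij hx hy, Int.cast_natCast]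
  · rw [zpow_neg, zpow_natCast, h.comm_inv_right hi hj hij hx ((S.F j).pow_mem hy b),
      h.comm_pow_right hi hj hij hx hy]
    push_cast
    ring

theorem IsFun.comm_zero_left (h : IsFun p S n f) {i j : ℕ} (hi : 1 ≤ i) (hj : 1 ≤ j) (hij : i + j = n)
    {x y : G} (hx : x ∈ S.F (i + 1)) (hy : y ∈ S.F j) : f ⁅x, y⁆ = 0 := by
  subst hij
  apply h.zero
  have h1 := S.comm (i + 1) j (by omega) hj x hx y hy
  rwa [add_right_comm] at h1

theorem IsFun.comm_zero_right (h : IsFun p S n f) {i j : ℕ} (hi : 1 ≤ i) (hj : 1 ≤ j) (hij : i + j = n)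
    {x y : G} (hx : x ∈ S.F i) (hy : y ∈ S.F (j + 1)) : f ⁅x, y⁆ = 0 := by
  subst hij
  apply h.zero
  exact S.comm i (j + 1) hi (by omega) x hx y hy

theorem IsFun.comm_congr_left (h : IsFun p S n f) {i j : ℕ} (hi : 1 ≤ i) (hj : 1 ≤ j) (hij : i + j = n)
    {x x' y : G} (hx' : x' ∈ S.F i) (hx : x * x'⁻¹ ∈ S.F (i + 1)) (hy : y ∈ S.F j) :
    f ⁅x, y⁆ = f ⁅x', y⁆ := by
  have h1 := h.comm_mul_left hi hj hij (S.anti i hi hx) hx' hy
  rw [inv_mul_cancel_right, h.comm_zero_left hi hj hij hx hy, zero_add] at h1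
  exact h1

theorem IsFun.comm_congr_right (h : IsFun p S n f) {i j : ℕ} (hi : 1 ≤ i) (hj : 1 ≤ j) (hij : i + j = n)
    {x y y' : G} (hx : x ∈ S.F i) (hy' : y' ∈ S.F j) (hy : y * y'⁻¹ ∈ S.F (j + 1)) :
    f ⁅x, y⁆ = f ⁅x, y'⁆ := by
  have h1 := h.comm_mul_right hi hj hij hx (S.anti j hj hy) hy'
  rw [inv_mul_cancel_right, h.comm_zero_right hi hj hij hx hy, zero_add] at h1
  exact h1

theorem IsFun.jacobi (h : IsFun p S n f) {i j l : ℕ} (hi : 1 ≤ i) (hj : 1 ≤ j) (hl : 1 ≤ l)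
    (hijl : i + j + l = n) {x y z : G} (hx : x ∈ S.F i) (hy : y ∈ S.F j) (hz : z ∈ S.F l) :
    f ⁅⁅x, y⁆, z⁆ + f ⁅⁅y, z⁆, x⁆ + f ⁅⁅z, x⁆, y⁆ = 0 := by
  have h1 : ⁅⁅x, y⁆, z⁆ ∈ S.F n := by
    rw [← hijl]
    exact S.comm _ _ (by omega) hl _ (S.comm i j hi hj x hx y hy) z hz
  have h2 : ⁅⁅y, z⁆, x⁆ ∈ S.F n := by
    rw [show n = j + l + i by omega]
    exact S.comm _ _ (by omega) hi _ (S.comm j l hj hl y hy z hz) x hx
  have h3 : ⁅⁅z, x⁆, y⁆ ∈ S.F n := by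
    rw [show n = l + i + j by omega]
    exact S.comm _ _ (by omega) hj _ (S.comm l i hl hi z hz x hx) y hy
  rw [← h.mul _ h1 _ h2, ← h.mul _ ((S.F n).mul_mem h1 h2) _ h3]
  apply h.zero
  rw [← hijl]
  exact S.jacobi le_rfl hi hj hl hx hy hz

theorem IsFun.eq_mul [Fact p.Prime] (h : IsFun p S n f) {l : G → ZMod p} (hl : IsFun p S n l) {g : G}
    (hg : g ∈ S.F n) (hlg : l g = 1) (hk : ∀ x ∈ S.F n, l x = 0 → f x = 0) :
    ∀ x ∈ S.F n, f x = l x * f g := by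
  intro x hx
  have hga := (S.F n).pow_mem hg (l x).val
  have h1 := hk _ ((S.F n).mul_mem hx ((S.F n).inv_mem hga)) (by
    rw [hl.div hx hga, hl.pow hg, hlg, ZMod.natCast_zmod_val, mul_one, sub_self])
  rw [h.div hx hga, h.pow hg, ZMod.natCast_zmod_val] at h1
  linear_combination h1

theorem PF.normal (A : PF p G) {n : ℕ} (hn : 1 ≤ n) : (A.F n).Normal := by
  refine ⟨fun x hx g => A.toNS.conj_mem hn hx ?_⟩
  rw [A.top]
  exact Subgroup.mem_top g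

theorem PF.mem_one (A : PF p G) (x : G) : x ∈ A.F 1 := by
  rw [A.top]
  exact Subgroup.mem_top x

theorem PF.exp (A : PF p G) (hA : A.Ker) {n : ℕ} (hn : 1 ≤ n) {x : G} (hx : x ∈ A.F n) :
    x ^ p ∈ A.F (n + 1) := by
  apply hA n hn _ ((A.F n).pow_mem hx p)
  rw [(A.isFun n hn).pow hx, ZMod.natCast_self, zero_mul]

theorem PF.cg_of_lead (A : PF p G) (hA : A.Ker) {n : ℕ} (hn : 1 ≤ n) {x y : G} (hx : x ∈ A.F n)
    (hy : y ∈ A.F n) (h : A.lead n x = A.lead n y) : x * y⁻¹ ∈ A.F (n + 1) := by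
  apply hA n hn _ ((A.F n).mul_mem hx ((A.F n).inv_mem hy))
  rw [(A.isFun n hn).div hx hy, h, sub_self]

theorem PF.span [Fact p.Prime] (A : PF p G) (hA : A.Ker) {n : ℕ} (hn : 1 ≤ n) {g x : G}
    (hg : g ∈ A.F n) (hg1 : A.lead n g ≠ 0) (hx : x ∈ A.F n) :
    ∃ a : ℕ, x * (g ^ a)⁻¹ ∈ A.F (n + 1) := by
  refine ⟨(A.lead n x / A.lead n g).val, A.cg_of_lead hA hn hx ((A.F n).pow_mem hg _) ?_⟩
  rw [(A.isFun n hn).pow hg, ZMod.natCast_zmod_val, div_mul_cancel₀ _ hg1]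

theorem PF.exists_lead [Fact p.Prime] (A : PF p G) {n : ℕ} (hn : 1 ≤ n) (c : ZMod p) :
    ∃ x ∈ A.F n, A.lead n x = c := by
  obtain ⟨g, hg, h1⟩ := A.surj n hn
  refine ⟨g ^ c.val, (A.F n).pow_mem hg _, ?_⟩
  rw [(A.isFun n hn).pow hg, ZMod.natCast_zmod_val, h1, mul_one]

theorem cast_ne_zero [Fact p.Prime] {a : ℕ} (ha : 0 < a) (hp : a < p) : (a : ZMod p) ≠ 0 := by
  intro h
  rw [ZMod.natCast_eq_zero_iff] at h
  exact absurd (Nat.le_of_dvd ha h) (by omega)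

theorem one_or_two [Fact p.Prime] (c : ZMod p) : c - 1 ≠ 0 ∨ c - 2 ≠ 0 := by
  by_contra hc
  push Not at hc
  have h1 : (1 : ZMod p) = 0 := by linear_combination hc.1 - hc.2
  exact one_ne_zero h1

end Pool.Agent.P.MP_e06b60_al.R
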