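import Mathlib
import Pool.Agent.P.MP_e06b60_al.RA2

namespace Pool.Agent.P.MP_e06b60_al.R

open PowerSeries
open scoped commutatorElement

section
variable {p : ℕ}

theorem rj1_closedEmbedding :
    Topology.IsClosedEmbedding fun (f : Nott p) (n : ℕ) => coeff n f.1 := by
  refine ⟨⟨⟨rfl⟩, fun f g h => Subtype.ext (PowerSeries.ext fun n => congrFun h n)⟩, ?_⟩
  have : (Set.range fun (f : Nott p) (n : ℕ) => coeff n f.1) =
      {a : ℕ → ZMod p | a 0 = 0} ∩ {a | a 1 = 1} := by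
    ext a
    constructor
    · rintro ⟨f, rfl⟩; exact f.2
    · rintro ⟨h0, h1⟩
      exact ⟨⟨PowerSeries.mk a, by simpa using h0, by simpa using h1⟩, by ext n; simp⟩
  rw [this]
  exact (isClosed_eq (continuous_apply 0) continuous_const).inter
    (isClosed_eq (continuous_apply 1) continuous_const)

theorem rj1_lam_pow {n : ℕ} (hn : 1 ≤ n) {f : Nott p} (hf : f ∈ Jn p n) (k : ℕ) :
    coeff (n + 1) (f ^ k).1 = k * coeff (n + 1) f.1 := by
  induction k with
  | zero => rw [pow_zero, one_val, coeff_X, if_neg (by omega)]; simp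
  | succ k ih => rw [pow_succ, lam_mul hn (pow_mem hf k) hf, ih]; push_cast; ring

theorem rj1_approx (hd : ∀ a c : ZMod p, c ≠ 0 → ∃ k : ℕ, a + k * c = 0)
    {H : Subgroup (Nott p)} {m : ℕ} (hm : 1 ≤ m)
    (h : ∀ n, m ≤ n → ∃ x ∈ H, x ∈ Jn p n ∧ coeff (n + 1) x.1 ≠ 0) {f : Nott p}
    (hf : f ∈ Jn p m) : ∀ n, m ≤ n → ∃ y ∈ H, f * y ∈ Jn p n := by
  intro n hn
  induction n, hn using Nat.le_induction with
  | base => exact ⟨1, H.one_mem, by simpa using hf⟩
  | succ n hn ih =>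
    obtain ⟨y, hy, hfy⟩ := ih
    obtain ⟨x, hx, hxn, hx0⟩ := h n hn
    obtain ⟨k, hk⟩ := hd (coeff (n + 1) (f * y).1) _ hx0
    refine ⟨y * x ^ k, H.mul_mem hy (pow_mem hx k), ?_⟩
    rw [← mul_assoc, mem_succ_iff (by omega) (mul_mem hfy (pow_mem hxn k)),
      lam_mul (by omega) hfy (pow_mem hxn k), rj1_lam_pow (by omega) hxn, hk]

theorem rj1_tendsto {g : ℕ → Nott p} {f : Nott p} (h : ∀ n, (g n)⁻¹ * f ∈ Jn p n) :
    Filter.Tendsto g Filter.atTop (nhds f) := by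
  rw [show nhds f = _ from nhds_induced _ _, Filter.tendsto_comap_iff, tendsto_pi_nhds]
  intro d
  refine tendsto_atTop_of_eventually_const (i₀ := d) fun n hn => ?_
  exact (coeff_eq_of_dvd (congr_of_inv_mul_mem (h n)) (by omega)).symm

theorem rj1_le_closed (hd : ∀ a c : ZMod p, c ≠ 0 → ∃ k : ℕ, a + k * c = 0)
    {H : Subgroup (Nott p)} (hH : IsClosed (H : Set (Nott p))) {m : ℕ}
    (hm : 1 ≤ m) (h : ∀ n, m ≤ n → ∃ x ∈ H, x ∈ Jn p n ∧ coeff (n + 1) x.1 ≠ 0) : Jn p m ≤ H := by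
  intro f hf
  choose y hyH hy using rj1_approx hd hm h hf
  have ht : Filter.Tendsto (fun n => (y (m + n) (by omega))⁻¹) Filter.atTop (nhds f) := by
    refine rj1_tendsto fun n => ?_
    have := (Jn_normal (p := p) (m + n)).conj_mem _ (hy (m + n) (by omega)) f⁻¹
    exact Jn_anti (show n ≤ m + n by omega) (by simpa [mul_assoc] using this)
  exact hH.mem_of_tendsto ht (Filter.Eventually.of_forall fun n => H.inv_mem (hyH _ _))

theorem rj1_cont {G : Type} [Group G] [TopologicalSpace G] [IsTopologicalGroup G]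
    (θ : G →* Nott p) (h : ∀ n, 1 ≤ n → IsOpen {x | θ x ∈ Jn p n}) : Continuous θ := by
  refine continuous_of_continuousAt_one θ ?_
  rw [ContinuousAt, show nhds (θ 1) = _ from nhds_induced _ _, Filter.tendsto_comap_iff,
    tendsto_pi_nhds]
  intro d
  refine tendsto_nhds_of_eventually_eq ?_
  have h1 : {x | θ x ∈ Jn p (d + 1)} ∈ nhds (1 : G) :=
    (h (d + 1) (by omega)).mem_nhds (by simp)
  filter_upwards [h1] with x hx
  rw [map_one]
  exact coeff_eq_of_dvd (mem_Jn.mp hx) (by omega)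

theorem rj1_jump {m : ℕ} (hm : 1 ≤ m) (h : (m : ZMod p) = 1) {f : Nott p} (hf : f ∈ Jn p m)
    (g : Nott p) : ⁅f, g⁆ ∈ Jn p (m + 2) := by
  obtain ⟨h2, h3⟩ := comm_lead hm le_rfl hf (g := g) (by rw [Jn_one]; trivial)
  rw [mem_succ_iff (by omega) h2, h3, h]
  simp

/-- Every depth above `m + 1` is attained by a commutator, and `m + 1` unless `m = 1`. -/
theorem rj1_depth (h20 : (2 : ZMod p) ≠ 0) {m n : ℕ} (hm : 1 ≤ m)
    (h : m + 2 ≤ n ∨ (m + 1 = n ∧ (m : ZMod p) ≠ 1)) :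
    ∃ f ∈ Jn p m, ∃ g : Nott p, ⁅f, g⁆ ∈ Jn p n ∧ coeff (n + 1) (⁅f, g⁆ : Nott p).1 ≠ 0 := by
  by_cases h2 : (n : ZMod p) = 2
  · have h3 : m + 2 ≤ n := by
      rcases h with h | ⟨rfl, h⟩
      · exact h
      · exfalso
        apply h
        push_cast at h2
        linear_combination h2
    obtain ⟨k, rfl⟩ : ∃ k, n = k + 1 + (1 + 1) := ⟨n - 3, by omega⟩
    obtain ⟨h4, h5⟩ := comm_lead (p := p) (by omega) (by omega) (el_mem k) (el_mem 1)
    refine ⟨el p k, Jn_anti (by omega) (el_mem k), el p 1, h4, ?_⟩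
    rw [h5, el_coeff, el_coeff, mul_one, mul_one]
    intro h6
    push_cast at h2 h6
    exact h20 (by linear_combination h2 - h6)
  · obtain ⟨k, rfl⟩ : ∃ k, n = k + 1 + (0 + 1) := ⟨n - 2, by omega⟩
    obtain ⟨h4, h5⟩ := comm_lead (p := p) (by omega) (by omega) (el_mem k) (el_mem 0)
    refine ⟨el p k, Jn_anti (by omega) (el_mem k), el p 0, h4, ?_⟩
    rw [h5, el_coeff, el_coeff, mul_one, mul_one]
    intro h6
    apply h2
    push_cast at h6 ⊢
    linear_combination h6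

theorem rj1_step (hd : ∀ a c : ZMod p, c ≠ 0 → ∃ k : ℕ, a + k * c = 0) (h20 : (2 : ZMod p) ≠ 0)
    {i m m' : ℕ} (hm : 1 ≤ m)
    (h : (m' = m + 2 ∧ (m : ZMod p) = 1) ∨ (m' = m + 1 ∧ (m : ZMod p) ≠ 1))
    (hi : gamma (Nott p) i = Jn p m) : gamma (Nott p) (i + 1) = Jn p m' := by
  rw [gamma, hi]
  apply le_antisymm
  · refine Subgroup.topologicalClosure_minimal _ ?_ (Jn_isClosed _)
    rw [Subgroup.commutator_le]
    intro f hf g _
    rcases h with ⟨rfl, h⟩ | ⟨rfl, _⟩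
    · exact rj1_jump hm h hf g
    · exact (comm_lead hm le_rfl hf (g := g) (by rw [Jn_one]; trivial)).1
  · refine rj1_le_closed hd (Subgroup.isClosed_topologicalClosure _) (by omega) fun n hn => ?_
    have hn' : m + 2 ≤ n ∨ (m + 1 = n ∧ (m : ZMod p) ≠ 1) := by
      rcases h with ⟨rfl, _⟩ | ⟨rfl, h⟩
      · exact Or.inl hn
      · rcases Nat.eq_or_lt_of_le hn with h' | h'
        · exact Or.inr ⟨h', h⟩
        · exact Or.inl h'
    obtain ⟨f, hf, g, h1, h2⟩ := rj1_depth h20 hm hn'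
    exact ⟨_, Subgroup.le_topologicalClosure _
      (Subgroup.commutator_mem_commutator hf (Subgroup.mem_top _)), h1, h2⟩

theorem rj1_ne_one {m : ℕ} (hp : 7 ≤ p) (h : m % p ≠ 1) : (m : ZMod p) ≠ 1 := by
  intro h1
  have h2 : (m : ZMod p) = ((1 : ℕ) : ZMod p) := by rw [h1, Nat.cast_one]
  rw [ZMod.natCast_eq_natCast_iff', Nat.mod_eq_of_lt (show 1 < p by omega)] at h2
  exact h h2

theorem rj1_gamma (hd : ∀ a c : ZMod p, c ≠ 0 → ∃ k : ℕ, a + k * c = 0) (hp : 7 ≤ p) :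
    gamma (Nott p) (2 * p) = Jn p (2 * p + 4) := by
  have h20 : (2 : ZMod p) ≠ 0 := by
    intro h
    have h2 : ((2 : ℕ) : ZMod p) = 0 := by exact_mod_cast h
    rw [ZMod.natCast_eq_zero_iff] at h2
    exact absurd (Nat.le_of_dvd (by omega) h2) (by omega)
  have h0 : gamma (Nott p) 0 = Jn p 1 := Jn_one.symm
  have hA : ∀ i, 1 ≤ i → i ≤ p - 1 → gamma (Nott p) i = Jn p (i + 2) := by
    intro i hi
    induction i, hi using Nat.le_induction with
    | base => exact fun _ => rj1_step hd h20 le_rfl (Or.inl ⟨rfl, by simp⟩) h0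
    | succ i hi ih =>
      intro h
      refine rj1_step hd h20 (by omega) (Or.inr ⟨rfl, rj1_ne_one hp ?_⟩) (ih (by omega))
      rcases Nat.lt_or_ge (i + 2) p with h' | h'
      · rw [Nat.mod_eq_of_lt h']; omega
      · rw [show i + 2 = p by omega, Nat.mod_self]; omega
  have hB : ∀ i, p ≤ i → i ≤ 2 * p - 2 → gamma (Nott p) i = Jn p (i + 3) := by
    intro i hi
    induction i, hi using Nat.le_induction with
    | base =>
      intro _
      have h1 := hA (p - 1) (by omega) le_rfl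
      have h2 := rj1_step hd h20 (m' := p + 3) (by omega) (Or.inl ⟨by omega, by
        rw [show p - 1 + 2 = p + 1 by omega]; simp⟩) h1
      rwa [show p - 1 + 1 = p by omega] at h2
    | succ i hi ih =>
      intro h
      refine rj1_step hd h20 (by omega) (Or.inr ⟨rfl, rj1_ne_one hp ?_⟩) (ih (by omega))
      obtain ⟨t, rfl⟩ : ∃ t, i = p + t := ⟨i - p, by omega⟩
      rw [show p + t + 3 = p + (t + 3) by omega, Nat.add_mod_left]
      rcases Nat.lt_or_ge (t + 3) p with h' | h'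
      · rw [Nat.mod_eq_of_lt h']; omega
      · rw [show t + 3 = p by omega, Nat.mod_self]; omega
  have h1 := hB (2 * p - 2) (by omega) le_rfl
  have h2 := rj1_step hd h20 (m' := 2 * p + 3) (by omega) (Or.inl ⟨by omega, by
    rw [show 2 * p - 2 + 3 = 2 * p + 1 by omega]; simp⟩) h1
  have h3 := rj1_step hd h20 (m' := 2 * p + 4) (by omega) (Or.inr ⟨by omega,
    rj1_ne_one hp (by
      rw [show 2 * p + 3 = p + (p + 3) by omega, Nat.add_mod_left, Nat.add_mod_left,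
        Nat.mod_eq_of_lt (by omega)]
      omega)⟩) h2
  rwa [show 2 * p - 2 + 1 + 1 = 2 * p by omega] at h3

end

variable {p : ℕ} [Fact p.Prime]

theorem rj1_div : ∀ a c : ZMod p, c ≠ 0 → ∃ k : ℕ, a + k * c = 0 := by
  have : NeZero p := ⟨(Fact.out : p.Prime).ne_zero⟩
  intro a c hc
  refine ⟨(-a * c⁻¹).val, ?_⟩
  rw [ZMod.natCast_zmod_val, mul_assoc, inv_mul_cancel₀ hc]
  ring

theorem nott_compact : CompactSpace (Nott p) := by
  have : NeZero p := ⟨(Fact.out : p.Prime).ne_zero⟩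
  exact (rj1_closedEmbedding (p := p)).compactSpace

theorem nott_t2 : T2Space (Nott p) := by
  exact (rj1_closedEmbedding (p := p)).isEmbedding.t2Space

theorem eq_one_of_Jn {f : Nott p} (h : ∀ n, 1 ≤ n → f ∈ Jn p n) : f = 1 := by
  refine Subtype.ext (PowerSeries.ext fun d => ?_)
  exact coeff_eq_of_dvd (h (d + 1) (by omega)) (by omega)

theorem Jn_le_of_isClosed {H : Subgroup (Nott p)} (hH : IsClosed (H : Set (Nott p))) {m : ℕ}
    (hm : 1 ≤ m) (h : ∀ n, m ≤ n → ∃ x ∈ H, x ∈ Jn p n ∧ coeff (n + 1) x.1 ≠ 0) : Jn p m ≤ H := by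
  exact rj1_le_closed rj1_div hH hm h

theorem continuous_of_open {G : Type} [Group G] [TopologicalSpace G] [IsTopologicalGroup G]
    (θ : G →* Nott p) (h : ∀ n, 1 ≤ n → IsOpen {x | θ x ∈ Jn p n}) : Continuous θ := by
  exact rj1_cont θ h

theorem comm_jump {m : ℕ} (hm : 1 ≤ m) (h : (m : ZMod p) = 1) {f : Nott p} (hf : f ∈ Jn p m)
    (g : Nott p) : ⁅f, g⁆ ∈ Jn p (m + 2) := by
  exact rj1_jump hm h hf g

theorem gamma_nott (hp : 7 ≤ p) : gamma (Nott p) (2 * p) = Jn p (2 * p + 4) := by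
  exact rj1_gamma rj1_div hp

end Pool.Agent.P.MP_e06b60_al.R
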