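import Mathlib
import Pool.Agent.P.MP_e06b60_al.RA2

namespace Pool.Agent.P.MP_e06b60_al.R

open PowerSeries
open scoped commutatorElement

variable {p : ℕ} [Fact p.Prime]

/-- Substitution of `f` as a linear map. -/
noncomputable def rj2_S (f : Nott p) : Module.End (ZMod p) (ZMod p)⟦X⟧ :=
  (substAlgHom (R := ZMod p) (hasSubst_of f.2.1)).toLinearMap

theorem rj2_S_apply (f : Nott p) (u : (ZMod p)⟦X⟧) : rj2_S f u = u.subst f.1 := by
  rw [rj2_S, AlgHom.toLinearMap_apply, coe_substAlgHom]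

theorem rj2_pow (f : Nott p) (n : ℕ) : (f ^ n).1 = (rj2_S f ^ n) X := by
  induction n with
  | zero => rw [pow_zero, pow_zero, one_val, Module.End.one_apply]
  | succ n ih => rw [pow_succ, pow_succ', mul_val, Module.End.mul_apply, rj2_S_apply, ih]

theorem rj2_powp (f : Nott p) : (f ^ p).1 - X = ((rj2_S f - 1) ^ p) X := by
  have hc : CharP (Module.End (ZMod p) (ZMod p)⟦X⟧) p :=
    charP_of_injective_algebraMap (algebraMap (ZMod p) _).injective p
  rw [sub_pow_char_of_commute p (Commute.one_right _), one_pow, LinearMap.sub_apply,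
    Module.End.one_apply, rj2_pow]

theorem rj2_step {m a : ℕ} (hm : 1 ≤ m) {f : Nott p} (hf : f ∈ Jn p m) {u : (ZMod p)⟦X⟧}
    (hu : X ^ a ∣ u) : X ^ (a + m) ∣ (rj2_S f - 1) u ∧
      coeff (a + m) ((rj2_S f - 1) u) = a * coeff (m + 1) f.1 * coeff a u := by
  obtain ⟨F, rfl⟩ := hu
  obtain ⟨G, hG⟩ := mem_Jn.mp hf
  have hs := hasSubst_of f.2.1
  have hf1 : f.1 = X + X ^ (m + 1) * G := by rw [← hG]; ring
  have cf : coeff (m + 1) f.1 = coeff 0 G := by
    rw [hf1, map_add, coeff_X, if_neg (by omega), coeff_X_pow_mul', if_pos le_rfl]; simp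
  have cu : coeff a (X ^ a * F) = coeff 0 F := by
    rw [coeff_X_pow_mul', if_pos le_rfl, Nat.sub_self]
  obtain ⟨A, hA⟩ : X ^ (m + 1) ∣ (subst f.1 F : (ZMod p)⟦X⟧) - F := by
    have := subst_congr (f := F) (f' := F) f.2.1 (g' := X) (by simp) (n := m + 1) (by simp)
      (mem_Jn.mp hf)
    rwa [X_subst] at this
  have hA' : (subst f.1 F : (ZMod p)⟦X⟧) = F + X ^ (m + 1) * A := by rw [← hA]; ring
  obtain ⟨k, rfl⟩ : ∃ k, m = k + 1 := ⟨m - 1, by omega⟩
  obtain ⟨w, hw⟩ := one_add_pow_expand (X ^ (k + 1) * G) a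
  have e2 : f.1 ^ a = X ^ a * (1 + X ^ (k + 1) * G) ^ a := by
    rw [← mul_pow, hf1]; ring
  have e : (rj2_S f - 1) (X ^ a * F) = X ^ (a + (k + 1)) * ((a : (ZMod p)⟦X⟧) * G * F +
      X * (X ^ k * G ^ 2 * w * F +
        (1 + (a : (ZMod p)⟦X⟧) * (X ^ (k + 1) * G) + (X ^ (k + 1) * G) ^ 2 * w) * A)) := by
    rw [LinearMap.sub_apply, Module.End.one_apply, rj2_S_apply, subst_mul hs, subst_pow hs,
      subst_X hs, e2, hw, hA']
    ring
  refine ⟨e ▸ dvd_mul_right _ _, ?_⟩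
  rw [e, cf, cu, coeff_X_pow_mul', if_pos le_rfl, Nat.sub_self]
  simp

theorem rj2_iter {m : ℕ} (hm : 1 ≤ m) {f : Nott p} (hf : f ∈ Jn p m) (n : ℕ) :
    X ^ (m * n + 1) ∣ ((rj2_S f - 1) ^ n) X ∧
      (p ∣ m → coeff (m * n + 1) (((rj2_S f - 1) ^ n) X) = coeff (m + 1) f.1 ^ n) := by
  induction n with
  | zero => simp
  | succ n ih =>
    obtain ⟨h1, h2⟩ := rj2_step hm hf ih.1
    have e : m * (n + 1) + 1 = m * n + 1 + m := by ring
    rw [pow_succ' (rj2_S f - 1), Module.End.mul_apply, e]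
    refine ⟨h1, fun hd => ?_⟩
    have h0 : (m : ZMod p) = 0 := (ZMod.natCast_eq_zero_iff m p).2 hd
    rw [h2, ih.2 hd, pow_succ]
    push_cast
    rw [h0]
    ring

theorem pow_mem_Jn {m : ℕ} (hm : 1 ≤ m) {f : Nott p} (hf : f ∈ Jn p m) : f ^ p ∈ Jn p (m * p) := by
  rw [mem_Jn, rj2_powp]
  exact (rj2_iter hm hf p).1

theorem pow_lead_Jn {m : ℕ} (hm : 1 ≤ m) (hd : p ∣ m) {f : Nott p} (hf : f ∈ Jn p m) :
    coeff (m * p + 1) (f ^ p).1 = coeff (m + 1) f.1 := by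
  have h := (rj2_iter hm hf p).2 hd
  have h0 : 0 < m * p := Nat.mul_pos hm (Fact.out : p.Prime).pos
  rw [← rj2_powp, map_sub, coeff_X, if_neg (by omega), sub_zero, ZMod.pow_card] at h
  exact h

theorem JW_pw : (JW p).PW := by
  intro r
  refine ⟨r + 1, fun i hi x hx => ?_⟩
  have h2 : i * 2 ≤ i * p := Nat.mul_le_mul_left i (Fact.out : p.Prime).two_le
  exact Jn_anti (by omega) (pow_mem_Jn (by omega) hx)

end Pool.Agent.P.MP_e06b60_al.R
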