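import Mathlib
import Pool.Agent.P.MP_e06b60_al.RJ1
import Pool.Agent.P.MP_e06b60_al.RJ2

/-! The Nottingham group for `p = 2`: commutator depths, generators, centre, topology. -/

namespace Pool.Agent.P.MP_e06b60_al.Two

open PowerSeries Pool.Agent.P.MP_e06b60_al
open scoped commutatorElement

theorem el_mul (p i j : ℕ) : (el p i * el p j).1 =
    X + X ^ (j + 2) + X ^ (i + 2) * (1 + X ^ (j + 1)) ^ (i + 2) := by
  have hs := hasSubst_of (el p j).2.1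
  rw [mul_val]
  change subst (el p j).1 (X + X ^ (i + 2) : (ZMod p)⟦X⟧) = _
  rw [subst_add hs, subst_pow hs, subst_X hs, ← mul_pow]
  change X + X ^ (j + 2) + (X + X ^ (j + 2)) ^ (i + 2) = _
  congr 2; ring

theorem two_zero : (2 : (ZMod 2)⟦X⟧) = 0 := by
  rw [← map_ofNat (C : ZMod 2 →+* (ZMod 2)⟦X⟧) 2, show (OfNat.ofNat 2 : ZMod 2) = 0 from rfl,
    map_zero]

theorem pow_four_mul (u : (ZMod 2)⟦X⟧) (k : ℕ) : ∃ w, (1 + u) ^ (4 * k) = 1 + u ^ 4 * w := by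
  induction k with
  | zero => exact ⟨0, by simp⟩
  | succ k ih =>
    obtain ⟨w, hw⟩ := ih
    refine ⟨1 + w + u ^ 4 * w, ?_⟩
    rw [Nat.mul_succ, pow_add, hw]
    linear_combination (1 + u ^ 4 * w) * (2 * u + 3 * u ^ 2 + 2 * u ^ 3) * two_zero

theorem pow_exp3 (u : (ZMod 2)⟦X⟧) (k : ℕ) :
    ∃ w, (1 + u) ^ (4 * k + 5 + 2) = 1 + u + u ^ 2 + u ^ 3 * w := by
  obtain ⟨w, hw⟩ := pow_four_mul u (k + 1)
  refine ⟨1 + u * w * (1 + u) ^ 3, ?_⟩
  rw [show 4 * k + 5 + 2 = 4 * (k + 1) + 3 by ring, pow_add, hw]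
  linear_combination (u + u ^ 2) * two_zero

theorem pow_exp2 (u : (ZMod 2)⟦X⟧) (k : ℕ) :
    ∃ w, (1 + u) ^ (4 * k + 4 + 2) = 1 + u ^ 2 * w := by
  obtain ⟨w, hw⟩ := pow_four_mul u (k + 1)
  refine ⟨1 + u ^ 2 * w * (1 + u) ^ 2, ?_⟩
  rw [show 4 * k + 4 + 2 = 4 * (k + 1) + 2 by ring, pow_add, hw]
  linear_combination u * two_zero

theorem cast_even {n : ℕ} (h : n % 2 = 0) : (n : ZMod 2) = 0 := by
  rw [ZMod.natCast_eq_zero_iff]; omega

theorem cast_odd {n : ℕ} (h : n % 2 = 1) : (n : ZMod 2) = 1 := by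
  rw [← Nat.div_add_mod n 2, h]; push_cast
  rw [show (2 : ZMod 2) = 0 from rfl]; ring

theorem mem_one (g : Nott 2) : g ∈ Jn 2 1 := by rw [Jn_one]; trivial

theorem comm_val {i j : ℕ} (hj : 1 ≤ j) (hodd : i % 2 = 1) {f g : Nott 2}
    (hc : ⁅f, g⁆ ∈ Jn 2 i) (hh : g * f ∈ Jn 2 j) :
    ∃ u, (⁅f, g⁆ : Nott 2).1 = X + ((f * g).1 - (g * f).1) + X ^ (i + j + 2) * u := by
  have h := comp_formula (by omega) hj hc hh
  have e : ⁅f, g⁆ * (g * f) = f * g := by rw [commutatorElement_def]; group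
  have h0 : (i : ZMod 2) + 1 = 0 := by rw [cast_odd hodd]; rfl
  rw [e, h0, zero_mul, zero_mul, map_zero, zero_mul, add_zero] at h
  obtain ⟨u, hu⟩ := h
  exact ⟨-u, by linear_combination -hu⟩

theorem comm_even {i j : ℕ} (hi : 1 ≤ i) (hj : 1 ≤ j) (h : i % 2 = j % 2) {f g : Nott 2}
    (hf : f ∈ Jn 2 i) (hg : g ∈ Jn 2 j) : ⁅f, g⁆ ∈ Jn 2 (i + j + 1) := by
  obtain ⟨h1, h2⟩ := comm_lead hi hj hf hg
  have : (i : ZMod 2) - j = 0 := by rw [sub_eq_zero, ZMod.natCast_eq_natCast_iff']; exact h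
  rw [mem_succ_iff (by omega) h1, h2, this, zero_mul, zero_mul]

theorem dep_of {n : ℕ} (hn : 1 ≤ n) {c : Nott 2} {u : (ZMod 2)⟦X⟧}
    (h : c.1 = X + X ^ (n + 1) + X ^ (n + 2) * u) : c ∈ Jn 2 n ∧ coeff (n + 1) c.1 ≠ 0 := by
  refine ⟨⟨1 + X * u, ?_⟩, ?_⟩
  · rw [h, one_val]; ring
  · rw [h, map_add, map_add, coeff_X, if_neg (by omega), coeff_X_pow, if_pos rfl,
      coeff_X_pow_mul', if_neg (by omega)]
    decide

theorem depth_odd (k : ℕ) : ⁅el 2 (2 * k + 1), el 2 0⁆ ∈ Jn 2 (2 * k + 3) ∧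
    coeff (2 * k + 3 + 1) (⁅el 2 (2 * k + 1), el 2 0⁆ : Nott 2).1 ≠ 0 := by
  obtain ⟨h1, h2⟩ := comm_lead (p := 2) (by omega) (by omega) (el_mem (2 * k + 1)) (el_mem 0)
  refine ⟨h1, ?_⟩
  rw [show 2 * k + 3 + 1 = 2 * k + 1 + 1 + (0 + 1) + 1 by ring, h2, el_coeff, el_coeff,
    cast_even (by omega)]
  decide

theorem depth_two (k : ℕ) : ⁅el 2 (4 * k + 5), el 2 1⁆ ∈ Jn 2 (4 * k + 10) ∧
    coeff (4 * k + 10 + 1) (⁅el 2 (4 * k + 5), el 2 1⁆ : Nott 2).1 ≠ 0 := by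
  have hc := comm_even (by omega) (by omega) (by omega) (el_mem (4 * k + 5)) (el_mem 1)
  obtain ⟨u, hu⟩ := comm_val le_rfl (by omega) hc (mem_one _)
  obtain ⟨w, hw⟩ := pow_exp3 (X ^ (1 + 1)) k
  rw [el_mul, el_mul, hw] at hu
  refine dep_of (u := u + X * w - 3 * X ^ (4 * k + 3) - X ^ (8 * k + 9)) (by omega) ?_
  rw [hu]
  linear_combination (-X ^ (4 * k + 9)) * two_zero

theorem depth_zero (k : ℕ) :
    ⁅el 2 (4 * k + 5), el 2 0⁆ * ⁅el 2 (4 * k + 4), el 2 1⁆ ∈ Jn 2 (4 * k + 8) ∧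
    coeff (4 * k + 8 + 1)
      (⁅el 2 (4 * k + 5), el 2 0⁆ * ⁅el 2 (4 * k + 4), el 2 1⁆ : Nott 2).1 ≠ 0 := by
  have h1 : ⁅el 2 (4 * k + 5), el 2 0⁆ ∈ Jn 2 (4 * k + 7) :=
    (comm_lead (p := 2) (by omega) (by omega) (el_mem (4 * k + 5)) (el_mem 0)).1
  have h2 : ⁅el 2 (4 * k + 4), el 2 1⁆ ∈ Jn 2 (4 * k + 7) :=
    (comm_lead (p := 2) (by omega) (by omega) (el_mem (4 * k + 4)) (el_mem 1)).1
  obtain ⟨u1, hu1⟩ := comm_val le_rfl (by omega) h1 (mem_one _)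
  obtain ⟨u2, hu2⟩ := comm_val le_rfl (by omega) h2 (mem_one _)
  obtain ⟨w1, hw1⟩ := pow_exp3 (X ^ (0 + 1)) k
  obtain ⟨w2, hw2⟩ := pow_exp2 (X ^ (1 + 1)) k
  rw [el_mul, el_mul, hw1] at hu1
  rw [el_mul, el_mul, hw2] at hu2
  obtain ⟨v, hv⟩ := comp_formula (by omega) (by omega) h1 h2
  have h0 : ((4 * k + 7 : ℕ) : ZMod 2) + 1 = 0 := by rw [cast_odd (by omega)]; rfl
  rw [h0, zero_mul, zero_mul, map_zero, zero_mul, add_zero, sub_eq_iff_eq_add, hu1, hu2] at hv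
  refine dep_of (u := u1 + u2 + w1 + w2 - X ^ (4 * k + 4) - 3 * X ^ (4 * k + 3) -
    X ^ (8 * k + 8) + X ^ (4 * k + 6) * v) (by omega) ?_
  rw [hv]
  linear_combination (-2 * X ^ (4 * k + 8)) * two_zero

/-- Every depth `n ≥ 7` is attained in the commutator of `J_m` with `J`, for `m ≤ n - 4`. -/
theorem depth_comm {m n : ℕ} (h : (n % 2 = 1 ∧ 3 ≤ n ∧ m + 1 ≤ n) ∨ (7 ≤ n ∧ m + 4 ≤ n)) :
    ∃ c ∈ (⁅Jn 2 m, ⊤⁆ : Subgroup (Nott 2)), c ∈ Jn 2 n ∧ coeff (n + 1) c.1 ≠ 0 := by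
  have hm : ∀ k, m ≤ k + 1 → ∀ g, ⁅el 2 k, g⁆ ∈ (⁅Jn 2 m, ⊤⁆ : Subgroup (Nott 2)) :=
    fun k hk g => Subgroup.commutator_mem_commutator (Jn_anti hk (el_mem k)) (Subgroup.mem_top _)
  by_cases h2 : n % 2 = 1
  · obtain ⟨k, rfl⟩ : ∃ k, n = 2 * k + 3 := ⟨(n - 3) / 2, by omega⟩
    exact ⟨_, hm _ (by omega) _, depth_odd k⟩
  by_cases h4 : n % 4 = 2
  · obtain ⟨k, rfl⟩ : ∃ k, n = 4 * k + 10 := ⟨(n - 10) / 4, by omega⟩
    exact ⟨_, hm _ (by omega) _, depth_two k⟩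
  · obtain ⟨k, rfl⟩ : ∃ k, n = 4 * k + 8 := ⟨(n - 8) / 4, by omega⟩
    exact ⟨_, mul_mem (hm _ (by omega) _) (hm _ (by omega) _), depth_zero k⟩

theorem gamma_step {i m m' : ℕ} (h : 7 ≤ m' ∧ m + 4 ≤ m')
    (hi : Jn 2 m ≤ gamma (Nott 2) i) : Jn 2 m' ≤ gamma (Nott 2) (i + 1) := by
  refine R.Jn_le_of_isClosed (Subgroup.isClosed_topologicalClosure _) (by omega) fun n hn => ?_
  obtain ⟨c, hc, h1⟩ := depth_comm (m := m) (n := n) (by omega)
  exact ⟨c, Subgroup.le_topologicalClosure _ (Subgroup.commutator_mono hi le_rfl hc), h1⟩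

theorem gamma_three : Jn 2 15 ≤ gamma (Nott 2) 3 := by
  have h0 : Jn 2 1 ≤ gamma (Nott 2) 0 := le_top
  have h1 : Jn 2 7 ≤ gamma (Nott 2) 1 := gamma_step (by omega) h0
  have h2 : Jn 2 11 ≤ gamma (Nott 2) 2 := gamma_step (by omega) h1
  exact gamma_step (by omega) h2

theorem gamma_four : Jn 2 19 ≤ gamma (Nott 2) 4 := gamma_step (by omega) gamma_three

theorem comm_deep : ⁅el 2 17, el 2 5⁆ ∈ Jn 2 27 := by
  have hc := comm_even (by omega) (by omega) (by omega) (el_mem 17) (el_mem 5)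
  obtain ⟨u, hu⟩ := comm_val (j := 5 + 1) (by omega) (by omega) hc
    (mul_mem (el_mem 5) (Jn_anti (by omega) (el_mem 17)))
  obtain ⟨w1, hw1⟩ := one_add_pow_expand (X ^ (5 + 1) : (ZMod 2)⟦X⟧) (17 + 2)
  obtain ⟨w2, hw2⟩ := one_add_pow_expand (X ^ (17 + 1) : (ZMod 2)⟦X⟧) (5 + 2)
  rw [el_mul, el_mul, hw1, hw2] at hu
  refine ⟨X ^ 3 * w1 - X ^ 15 * w2 + X ^ 5 * u, ?_⟩
  rw [hu, one_val]
  push_cast
  linear_combination (6 * X ^ 25) * two_zero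

/-- The generators `t + t^2`, `t + t^3`, `t + t^7`. -/
noncomputable def gen : Fin 3 → Nott 2 := ![el 2 0, el 2 1, el 2 5]

theorem el_ne (n : ℕ) : coeff (n + 1 + 1) (el 2 n).1 ≠ 0 := by rw [el_coeff]; decide

theorem sq_y : el 2 1 * el 2 1 ∈ Jn 2 4 ∧ coeff (4 + 1) (el 2 1 * el 2 1).1 ≠ 0 := by
  refine dep_of (u := 3 * X + X ^ 3) (by omega) ?_
  rw [el_mul]
  linear_combination (X ^ 3 + X ^ 5) * two_zero

theorem sup_top (n : ℕ) : Subgroup.closure (Set.range gen) ⊔ Jn 2 (n + 1) = ⊤ := by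
  set S := Subgroup.closure (Set.range gen) with hS
  have hg : ∀ i, gen i ∈ S := fun i => Subgroup.subset_closure ⟨i, rfl⟩
  induction n with
  | zero => rw [zero_add, Jn_one, sup_top_eq]
  | succ n ih =>
    have hdec : ∀ f : Nott 2, ∃ s ∈ S, ∃ j ∈ Jn 2 (n + 1), s * j = f := fun f =>
      Subgroup.mem_sup_of_normal_right.mp (ih ▸ Subgroup.mem_top f)
    have hcomm : (⁅Jn 2 1, ⊤⁆ : Subgroup (Nott 2)) ≤ S ⊔ Jn 2 (n + 1 + 1) := by
      rw [Subgroup.commutator_le]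
      intro f _ g _
      obtain ⟨s, hs, j, hj, rfl⟩ := hdec f
      obtain ⟨s', hs', j', hj', rfl⟩ := hdec g
      have c1 : ⁅j, s' * j'⁆ ∈ Jn 2 (n + 1 + 1) :=
        (comm_lead (by omega) le_rfl hj (mem_one _)).1
      have c2 : ⁅j', s⁆ ∈ Jn 2 (n + 1 + 1) := (comm_lead (by omega) le_rfl hj' (mem_one _)).1
      have e : ⁅s * j, s' * j'⁆ =
          (s * ⁅j, s' * j'⁆ * s⁻¹) * (s * s' * s⁻¹ * s'⁻¹) * (s' * ⁅j', s⁆⁻¹ * s'⁻¹) := by
        simp only [commutatorElement_def]; group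
      rw [e]
      refine mul_mem (mul_mem (Subgroup.mem_sup_right ((Jn_normal _).conj_mem _ c1 s))
        (Subgroup.mem_sup_left (mul_mem (mul_mem (mul_mem hs hs') (inv_mem hs)) (inv_mem hs'))))
        (Subgroup.mem_sup_right ((Jn_normal _).conj_mem _ (inv_mem c2) s'))
    have hc : ∃ c ∈ S ⊔ Jn 2 (n + 1 + 1), c ∈ Jn 2 (n + 1) ∧ coeff (n + 1 + 1) c.1 ≠ 0 := by
      by_cases h0 : n = 0
      · subst h0; exact ⟨_, Subgroup.mem_sup_left (hg 0), el_mem 0, el_ne 0⟩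
      by_cases h1 : n = 1
      · subst h1; exact ⟨_, Subgroup.mem_sup_left (hg 1), el_mem 1, el_ne 1⟩
      by_cases h3 : n = 3
      · subst h3; exact ⟨_, Subgroup.mem_sup_left (mul_mem (hg 1) (hg 1)), sq_y⟩
      by_cases h5 : n = 5
      · subst h5; exact ⟨_, Subgroup.mem_sup_left (hg 2), el_mem 5, el_ne 5⟩
      obtain ⟨c, hc, h⟩ := depth_comm (m := 1) (n := n + 1) (by omega)
      exact ⟨c, hcomm hc, h⟩
    obtain ⟨c, hc, hcn, hc0⟩ := hc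
    rw [eq_top_iff, ← ih, sup_le_iff]
    refine ⟨le_sup_left, fun f hf => ?_⟩
    by_cases hf0 : coeff (n + 1 + 1) f.1 = 0
    · exact Subgroup.mem_sup_right ((mem_succ_iff (by omega) hf).mpr hf0)
    · have : f * c ∈ Jn 2 (n + 1 + 1) := by
        rw [mem_succ_iff (by omega) (mul_mem hf hcn), lam_mul (by omega) hf hcn]
        revert hf0 hc0
        generalize coeff (n + 1 + 1) f.1 = a
        generalize coeff (n + 1 + 1) c.1 = b
        revert a b; decide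
      simpa using mul_mem (Subgroup.mem_sup_right (S := S) this) (inv_mem hc)

theorem closure_quot (n : ℕ) : Subgroup.closure
    (Set.range fun i => (gen i : Nott 2 ⧸ Jn 2 (n + 1))) = ⊤ := by
  rw [eq_top_iff]
  intro q _
  obtain ⟨f, rfl⟩ := QuotientGroup.mk_surjective q
  obtain ⟨s, hs, j, hj, rfl⟩ :=
    Subgroup.mem_sup_of_normal_right.mp ((sup_top n) ▸ Subgroup.mem_top f)
  rw [QuotientGroup.mk_mul, (QuotientGroup.eq_one_iff j).mpr hj, mul_one]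
  have := Subgroup.mem_map_of_mem (QuotientGroup.mk' (Jn 2 (n + 1))) hs
  rwa [MonoidHom.map_closure, ← Set.range_comp] at this

theorem center_trivial {f : Nott 2} (h : ∀ g, f * g = g * f) : f = 1 := by
  have hc : ∀ g : Nott 2, ⁅f, g⁆ = 1 := fun g => commutatorElement_eq_one_iff_mul_comm.mpr (h g)
  have key : ∀ n, f ∈ Jn 2 (n + 1) := by
    intro n
    induction n with
    | zero => exact mem_one f
    | succ n ih =>
      rw [mem_succ_iff (by omega) ih]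
      have := (comm_lead (by omega) (by omega) ih (el_mem (n + 1))).2
      rw [hc, one_val, coeff_X, if_neg (by omega), el_coeff] at this
      push_cast at this
      linear_combination this
  exact R.eq_one_of_Jn fun n hn => Jn_anti (by omega) (key n)

theorem pow_two_pow_mem (f : Nott 2) (k : ℕ) : f ^ 2 ^ k ∈ Jn 2 (k + 1) := by
  induction k with
  | zero => exact mem_one _
  | succ k ih =>
    rw [pow_succ, pow_mul]
    exact Jn_anti (by omega) (R.pow_mem_Jn (by omega) ih)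

instance : CompactSpace (Nott 2) := R.nott_compact
instance : T2Space (Nott 2) := R.nott_t2
instance : TotallyDisconnectedSpace (Nott 2) :=
  R.rj1_closedEmbedding.isEmbedding.isTotallyDisconnected_range.mp
    (isTotallyDisconnected_of_totallyDisconnectedSpace _)

instance : Infinite (Nott 2) := by
  refine Infinite.of_injective (el 2) fun m n h => ?_
  by_contra hmn
  have := el_coeff (p := 2) m
  rw [h] at this
  simp only [el, map_add, coeff_X, coeff_X_pow] at this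
  rw [if_neg (by omega), if_neg (by omega)] at this
  exact absurd this (by decide)

end Pool.Agent.P.MP_e06b60_al.Two
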