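import Mathlib
import Pool.Agent.P.MP_e06b60_al.J2
import Pool.Agent.P.MP_e06b60_al.Cert2
import Pool.Agent.P.MP_e06b60_al.Coc2

/-! The cocycle on `J / J_23` for `p = 2`. -/

namespace Pool.Agent.P.MP_e06b60_al.Two

open PowerSeries Pool.Agent.P.MP_e06b60_al

noncomputable def vf (f : Nott 2) (k : ℕ) : ZMod 2 := coeff (k + 1) f.1

noncomputable def cv (f : Nott 2) (i : ℕ) : ZMod 2 := if i < 23 then coeff (i + 1) f.1 else 0

theorem ev_var (f : Nott 2) {q k : ℕ} (hk : k < 24) (hq : q = 2 ^ k) :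
    coeff (k + 1) f.1 = ev (vf f) [q] := by
  simp [ev, hq, mon_two_pow _ hk, vf]

theorem rep_F (f : Nott 2) : X ^ 24 ∣ f.1 - toPS (vf f) sF := by
  rw [X_pow_dvd_iff]
  intro m hm
  rw [map_sub, coeff_toPS, sub_eq_zero]
  interval_cases m
  · rw [f.2.1]; rfl
  · rw [f.2.2]; simp [sF, ev, mon_zero]
  all_goals exact ev_var f (by norm_num) (by decide)

theorem toPS_X (v : ℕ → ZMod 2) : toPS v sX = (el 2 0).1 := by
  simp [sX, toPS, ev, mon_zero, el]; ring

theorem toPS_Y (v : ℕ → ZMod 2) : toPS v sY = (el 2 1).1 := by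
  simp [sY, toPS, ev, mon_zero, el]; ring

theorem toPS_W (v : ℕ → ZMod 2) : toPS v sW = (el 2 5).1 := by
  simp [sW, toPS, ev, mon_zero, el]; ring

theorem cv_eq {g : Nott 2} {v : ℕ → ZMod 2} {U : List SP} (hU : U.length = 24)
    (h : X ^ 24 ∣ g.1 - toPS v U) : (fun i => ev v (U.tail.getD i [])) = cv g := by
  funext i
  unfold cv
  split_ifs with hi
  · rw [coeff_eq_of_dvd h (by omega), coeff_toPS]
    cases U with
    | nil => simp at hU
    | cons a U => simp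
  · rw [List.getD_eq_default _ _ (by simp [hU]; omega)]; rfl

theorem rep_mul {f g : Nott 2} {v : ℕ → ZMod 2} {U W : List SP} (h1 : X ^ 24 ∣ f.1 - toPS v U)
    (h2 : X ^ 24 ∣ g.1 - toPS v W) : X ^ 24 ∣ (f * g).1 - toPS v (lcomp 24 U W) := by
  have h0 : coeff 0 (toPS v W) = 0 := by rw [← coeff_eq_of_dvd h2 (by omega)]; exact g.2.1
  rw [mul_val]
  simpa using dvd_add (subst_congr g.2.1 h0 h1 h2) (toPS_lcomp v 24 W h0 U)

noncomputable def fn (h : H) (f : Nott 2) : ZMod 2 := evH (cv f) h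

theorem fn_ident {ρ lam : H} {uR uL : List SP} (hd : dif ρ lam uR uL = []) {f fr sf : Nott 2}
    (lR : uR.length = 24) (lL : uL.length = 24) (hR : X ^ 24 ∣ fr.1 - toPS (vf f) uR)
    (hL : X ^ 24 ∣ sf.1 - toPS (vf f) uL) : fn ρ f + fn lam fr = fn lam f + fn ρ sf := by
  have := congrArg (ev (vf f)) hd
  simp only [dif, ev_padd, ev_subH, cv_eq lR hR, cv_eq lL hL,
    cv_eq (U := sF) rfl (rep_F f), ev] at this
  simp only [fn]
  linear_combination this - add_self_two (evH (cv f) lam + evH (cv sf) ρ)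

theorem rep_FX (f : Nott 2) : X ^ 24 ∣ (f * el 2 0).1 - toPS (vf f) sFX := by
  rw [← cert_FX]; exact rep_mul (rep_F f) (by rw [toPS_X]; simp)

theorem rep_FY (f : Nott 2) : X ^ 24 ∣ (f * el 2 1).1 - toPS (vf f) sFY := by
  rw [← cert_FY]; exact rep_mul (rep_F f) (by rw [toPS_Y]; simp)

theorem rep_FW (f : Nott 2) : X ^ 24 ∣ (f * el 2 5).1 - toPS (vf f) sFW := by
  rw [← cert_FW]; exact rep_mul (rep_F f) (by rw [toPS_W]; simp)

theorem rep_XF (f : Nott 2) : X ^ 24 ∣ (el 2 0 * f).1 - toPS (vf f) sXF := by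
  rw [← cert_XF]; exact rep_mul (by rw [toPS_X]; simp) (rep_F f)

theorem rep_YF (f : Nott 2) : X ^ 24 ∣ (el 2 1 * f).1 - toPS (vf f) sYF := by
  rw [← cert_YF]; exact rep_mul (by rw [toPS_Y]; simp) (rep_F f)

theorem rep_WF (f : Nott 2) : X ^ 24 ∣ (el 2 5 * f).1 - toPS (vf f) sWF := by
  rw [← cert_WF]; exact rep_mul (by rw [toPS_W]; simp) (rep_F f)

abbrev QQ : Type := Nott 2 ⧸ Jn 2 23

noncomputable def fq (h : H) (q : QQ) : ZMod 2 := fn h q.out

theorem fq_mk (h : H) (f : Nott 2) : fq h (f : QQ) = fn h f := by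
  have e : ((f : QQ).out : QQ) = f := QuotientGroup.out_eq' _
  have h1 := congr_of_inv_mul_mem (QuotientGroup.eq.mp e)
  unfold fq fn
  congr 1
  funext i
  unfold cv
  split_ifs with hi
  · exact (coeff_eq_of_dvd h1 (by omega)).symm
  · rfl

def rho : Fin 3 → H := ![rhoX, rhoY, rhoW]
def lam : Fin 3 → H := ![lamX, lamY, lamW]

theorem fn_gen (i j : Fin 3) (f : Nott 2) :
    fn (rho j) f + fn (lam i) (f * gen j) = fn (lam i) f + fn (rho j) (gen i * f) := by
  fin_cases i <;> fin_cases j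
  · exact fn_ident cert_xx rfl rfl (rep_FX f) (rep_XF f)
  · exact fn_ident cert_xy rfl rfl (rep_FY f) (rep_XF f)
  · exact fn_ident cert_xw rfl rfl (rep_FW f) (rep_XF f)
  · exact fn_ident cert_yx rfl rfl (rep_FX f) (rep_YF f)
  · exact fn_ident cert_yy rfl rfl (rep_FY f) (rep_YF f)
  · exact fn_ident cert_yw rfl rfl (rep_FW f) (rep_YF f)
  · exact fn_ident cert_wx rfl rfl (rep_FX f) (rep_WF f)
  · exact fn_ident cert_wy rfl rfl (rep_FY f) (rep_WF f)
  · exact fn_ident cert_ww rfl rfl (rep_FW f) (rep_WF f)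

theorem exists_cQ : ∃ c : QQ → QQ → ZMod 2,
    (∀ f g h, c f g + c (f * g) h = c g h + c f (g * h)) ∧
      (∀ f, c 1 f = 0) ∧ (∀ f, c f 1 = 0) ∧
      (∀ j f, c f (gen j) = fq (rho j) f - fq (rho j) 1) ∧
      (∀ i f, c (gen i) f = fq (lam i) f - fq (lam i) 1) := by
  refine exists_cocycle_fam (fun i => (gen i : QQ)) (closure_quot 22) (fun j => fq (rho j))
    (fun i => fq (lam i)) fun i j q => ?_
  obtain ⟨f, rfl⟩ := QuotientGroup.mk_surjective q
  simp only [← QuotientGroup.mk_mul, fq_mk]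
  exact fn_gen i j f

theorem cv_one : cv 1 = fun i => if i = 0 then 1 else 0 := by
  funext i
  unfold cv
  rw [one_val, coeff_X]
  split_ifs <;> first | rfl | omega

theorem cv_18 : cv (el 2 17) = fun i => if i = 0 ∨ i = 18 then 1 else 0 := by
  funext i
  unfold cv
  simp only [el, map_add, coeff_X, coeff_X_pow]
  split_ifs <;> first | rfl | omega

theorem val_w : fn rhoW (el 2 17) - fn rhoW 1 - (fn lamW (el 2 17) - fn lamW 1) = 1 := by
  simp only [fn, cv_one, cv_18]; decide +kernel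

/-- The cocycle on `J`, inflated from `J / J_23`. -/
theorem exists_coc : ∃ (c : Five.Coc (Nott 2) (ZMod 2)) (d : QQ → QQ → ZMod 2),
    (∀ f g, c.c f g = d f g) ∧ c.c (el 2 17) (el 2 5) - c.c (el 2 5) (el 2 17) = 1 := by
  obtain ⟨d, h1, h2, h3, h4, h5⟩ := exists_cQ
  refine ⟨⟨fun f g => d f g, fun f g h => h1 f g h, fun f => h2 f, fun f => h3 f⟩, d,
    fun _ _ => rfl, ?_⟩
  have e1 := h4 2 (el 2 17 : Nott 2)
  have e2 := h5 2 (el 2 17 : Nott 2)
  rw [← QuotientGroup.mk_one, fq_mk, fq_mk] at e1 e2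
  change d (el 2 17 : Nott 2) (gen 2) - d (gen 2) (el 2 17 : Nott 2) = 1
  rw [e1, e2]
  exact val_w

end Pool.Agent.P.MP_e06b60_al.Two
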