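import Mathlib

/-! Sparse polynomial arithmetic over `ZMod 5` (monomials coded by prime factorisation),
truncated power series with such coefficients, and Horner expressions. -/

namespace Pool.Agent.P.MP_e06b60_al.Five

open PowerSeries

abbrev SP : Type := List (ℕ × ℕ)

/-- The value of the monomial with code `m`. -/
noncomputable def mon (v : ℕ → ZMod 5) (m : ℕ) : ZMod 5 :=
  if m = 0 then 0 else m.factorization.prod fun q k => v q ^ k

theorem mon_mul (v : ℕ → ZMod 5) (m n : ℕ) : mon v (m * n) = mon v m * mon v n := by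
  by_cases hm : m = 0
  · simp [mon, hm]
  by_cases hn : n = 0
  · simp [mon, hn]
  simp only [mon, hm, hn, mul_eq_zero, or_self, if_false]
  rw [Nat.factorization_mul hm hn, Finsupp.prod_add_index' (by simp) (fun _ _ _ => pow_add _ _ _)]

theorem mon_one (v : ℕ → ZMod 5) : mon v 1 = 1 := by simp [mon]

theorem mon_prime (v : ℕ → ZMod 5) {q : ℕ} (hq : q.Prime) : mon v q = v q := by
  simp [mon, hq.ne_zero, hq.factorization]

noncomputable def ev (v : ℕ → ZMod 5) : SP → ZMod 5
  | [] => 0
  | t :: l => (t.2 : ZMod 5) * mon v t.1 + ev v l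

/-- Forces evaluation of a number in the kernel. -/
def frc {α : Type} (x : ℕ) (k : ℕ → α) : α :=
  Nat.casesOn x (k 0) fun n => k (Nat.succ n)

theorem frc_eq {α : Type} (x : ℕ) (k : ℕ → α) : frc x k = k x := by cases x <;> rfl

def pcons (m c : ℕ) (l : SP) : SP :=
  Nat.casesOn c l fun n => (m, Nat.succ n) :: l

theorem ev_pcons (v : ℕ → ZMod 5) (m c : ℕ) (l : SP) :
    ev v (pcons m c l) = (c : ZMod 5) * mon v m + ev v l := by
  cases c <;> simp [pcons, ev]

def paux (a : ℕ × ℕ) (l : SP) (r : SP → SP) : SP → SP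
  | [] => a :: l
  | b :: m => bif Nat.blt a.1 b.1 then a :: r (b :: m)
      else bif Nat.blt b.1 a.1 then b :: paux a l r m
      else pcons a.1 (Nat.mod (Nat.add a.2 b.2) 5) (r m)

def padd : SP → SP → SP
  | [] => fun m => m
  | a :: l => paux a l (padd l)

theorem cast_mod (x : ℕ) : ((Nat.mod x 5 : ℕ) : ZMod 5) = x := ZMod.natCast_mod x 5

theorem ev_padd (v : ℕ → ZMod 5) : ∀ l m : SP, ev v (padd l m) = ev v l + ev v m
  | [], m => by simp [padd, ev]
  | a :: l, m => by
    have ih := ev_padd v l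
    change ev v (paux a l (padd l) m) = _
    induction m with
    | nil => simp [paux, ev]
    | cons b m ihm =>
      unfold paux
      cases h1 : Nat.blt a.1 b.1
      · cases h2 : Nat.blt b.1 a.1
        · have e : a.1 = b.1 := by
            have h1' : ¬ a.1 < b.1 := by rw [← Nat.blt_eq]; simp [h1]
            have h2' : ¬ b.1 < a.1 := by rw [← Nat.blt_eq]; simp [h2]
            omega
          simp only [cond_false, ev_pcons, cast_mod, ih, ev, e, Nat.add_eq]
          push_cast; ring
        · simp only [cond_false, cond_true, ev, ihm]; ring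
      · simp only [cond_true, ev, ih]; ring

def pmulT (a : ℕ × ℕ) : SP → SP
  | [] => []
  | b :: l => frc (Nat.mul a.1 b.1) fun m => pcons m (Nat.mod (Nat.mul a.2 b.2) 5) (pmulT a l)

theorem ev_pmulT (v : ℕ → ZMod 5) (a : ℕ × ℕ) : ∀ l : SP,
    ev v (pmulT a l) = (a.2 : ZMod 5) * mon v a.1 * ev v l
  | [] => by simp [pmulT, ev]
  | b :: l => by
    simp only [pmulT, frc_eq, ev_pcons, cast_mod, ev_pmulT v a l, ev, Nat.mul_eq, mon_mul]
    push_cast; ring

def pmul : SP → SP → SP
  | [], _ => []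
  | a :: u, l => padd (pmulT a l) (pmul u l)

theorem ev_pmul (v : ℕ → ZMod 5) : ∀ u l : SP, ev v (pmul u l) = ev v u * ev v l
  | [], l => by simp [pmul, ev]
  | a :: u, l => by simp only [pmul, ev_padd, ev_pmulT, ev_pmul v u l, ev]; ring

def red1 (q m : ℕ) : ℕ :=
  bif Nat.beq (Nat.mod m (q ^ 5)) 0 then Nat.div m (q ^ 4) else m

theorem mon_red1 (v : ℕ → ZMod 5) {q : ℕ} (hq : 0 < q) (m : ℕ) : mon v (red1 q m) = mon v m := by
  unfold red1
  cases h : Nat.beq (Nat.mod m (q ^ 5)) 0
  · rfl
  · have h' : q ^ 5 ∣ m := Nat.dvd_of_mod_eq_zero (Nat.eq_of_beq_eq_true h)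
    obtain ⟨k, rfl⟩ := h'
    have e : Nat.div (q ^ 5 * k) (q ^ 4) = q * k := by
      change q ^ 5 * k / q ^ 4 = _
      rw [show q ^ 5 * k = q ^ 4 * (q * k) by ring, Nat.mul_div_cancel_left _ (by positivity)]
    have h5 : mon v q ^ 5 = mon v q := by
      generalize mon v q = y
      revert y; decide
    simp only [cond_true, e]
    rw [show q ^ 5 * k = q * (q * (q * (q * (q * k)))) by ring]
    simp only [mon_mul]
    linear_combination (-mon v k) * h5

def red (m : ℕ) : ℕ := red1 2 (red1 2 (red1 2 (red1 3 m)))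

theorem mon_red (v : ℕ → ZMod 5) (m : ℕ) : mon v (red m) = mon v m := by
  simp only [red, mon_red1 v (show 0 < 2 by norm_num), mon_red1 v (show 0 < 3 by norm_num)]

def pnorm : SP → SP
  | [] => []
  | a :: l => frc (red a.1) fun m => padd [(m, a.2)] (pnorm l)

theorem ev_pnorm (v : ℕ → ZMod 5) : ∀ l : SP, ev v (pnorm l) = ev v l
  | [] => rfl
  | a :: l => by simp [pnorm, frc_eq, ev_padd, ev, mon_red, ev_pnorm v l]

/-- Horner expressions. -/
inductive H : Type
  | c : ℕ → H
  | a : H → H → H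
  | m : ℕ → H → H

def evH (w : ℕ → ZMod 5) : H → ZMod 5
  | .c k => k
  | .a x y => evH w x + evH w y
  | .m i x => w i * evH w x

def subH (u : List SP) : H → SP
  | .c k => [(1, k)]
  | .a x y => padd (subH u x) (subH u y)
  | .m i x => pmul (u.getD i []) (subH u x)

theorem ev_subH (v : ℕ → ZMod 5) (u : List SP) :
    ∀ h : H, ev v (subH u h) = evH (fun i => ev v (u.getD i [])) h
  | .c k => by simp [subH, evH, ev, mon_one]
  | .a x y => by simp only [subH, evH, ev_padd, ev_subH v u x, ev_subH v u y]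
  | .m i x => by simp only [subH, evH, ev_pmul, ev_subH v u x]

/-! Truncated series with polynomial coefficients. -/

noncomputable def toPS (v : ℕ → ZMod 5) : List SP → (ZMod 5)⟦X⟧
  | [] => 0
  | a :: l => C (ev v a) + X * toPS v l

def ladd : List SP → List SP → List SP
  | [], m => m
  | a :: l, [] => a :: l
  | a :: l, b :: m => padd a b :: ladd l m

def lsmul (a : SP) : ℕ → List SP → List SP
  | 0, _ => []
  | _ + 1, [] => []
  | n + 1, b :: m => pmul a b :: lsmul a n m

def lmul : ℕ → List SP → List SP → List SP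
  | 0, _, _ => []
  | _ + 1, [], _ => []
  | n + 1, a :: l, m => ladd (lsmul a (n + 1) m) ([] :: lmul n l m)

def lcomp (n : ℕ) : List SP → List SP → List SP
  | [], _ => []
  | a :: l, g => ladd [a] (lmul n g (lcomp n l g))

theorem toPS_ladd (v : ℕ → ZMod 5) : ∀ l m, toPS v (ladd l m) = toPS v l + toPS v m
  | [], m => by simp [ladd, toPS]
  | a :: l, [] => by simp [ladd, toPS]
  | a :: l, b :: m => by simp only [ladd, toPS, toPS_ladd v l m, ev_padd, map_add]; ring

theorem toPS_lsmul (v : ℕ → ZMod 5) (a : SP) : ∀ (n : ℕ) (m : List SP),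
    X ^ n ∣ C (ev v a) * toPS v m - toPS v (lsmul a n m)
  | 0, _ => by simp
  | _ + 1, [] => by simp [lsmul, toPS]
  | n + 1, b :: m => by
    obtain ⟨w, hw⟩ := toPS_lsmul v a n m
    refine ⟨w, ?_⟩
    simp only [lsmul, toPS, ev_pmul, map_mul]
    linear_combination X * hw

theorem toPS_lmul (v : ℕ → ZMod 5) : ∀ (n : ℕ) (l m : List SP),
    X ^ n ∣ toPS v l * toPS v m - toPS v (lmul n l m)
  | 0, _, _ => by simp
  | _ + 1, [], _ => by simp [lmul, toPS]
  | n + 1, a :: l, m => by
    obtain ⟨w, hw⟩ := toPS_lmul v n l m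
    obtain ⟨u, hu⟩ := toPS_lsmul v a (n + 1) m
    refine ⟨w + u, ?_⟩
    simp only [lmul, toPS, toPS_ladd, ev, map_zero]
    linear_combination X * hw + hu

theorem toPS_lcomp (v : ℕ → ZMod 5) (n : ℕ) (g : List SP) (hg : coeff 0 (toPS v g) = 0) :
    ∀ f : List SP, X ^ n ∣ (subst (toPS v g) (toPS v f) : (ZMod 5)⟦X⟧) - toPS v (lcomp n f g)
  | [] => by
    have hs : HasSubst (toPS v g) := HasSubst.of_constantCoeff_zero' (by simpa using hg)
    have : (subst (toPS v g) (0 : (ZMod 5)⟦X⟧) : (ZMod 5)⟦X⟧) = 0 := by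
      rw [← coe_substAlgHom hs, map_zero]
    simp [lcomp, toPS, this]
  | a :: l => by
    have hs : HasSubst (toPS v g) := HasSubst.of_constantCoeff_zero' (by simpa using hg)
    obtain ⟨w, hw⟩ := toPS_lcomp v n g hg l
    obtain ⟨u, hu⟩ := toPS_lmul v n g (lcomp n l g)
    refine ⟨toPS v g * w + u, ?_⟩
    simp only [lcomp, toPS, toPS_ladd]
    rw [subst_add hs, subst_mul hs, subst_X hs, subst_C]
    change C (ev v a) + toPS v g * (subst (toPS v g) (toPS v l) : (ZMod 5)⟦X⟧) - _ = _
    linear_combination toPS v g * hw + hu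

theorem coeff_toPS (v : ℕ → ZMod 5) : ∀ (l : List SP) (i : ℕ),
    coeff i (toPS v l) = ev v (l.getD i [])
  | [], i => by simp [toPS, ev]
  | a :: l, 0 => by simp [toPS]
  | a :: l, i + 1 => by
    simp only [toPS, map_add, coeff_succ_X_mul, coeff_toPS v l i, coeff_C]
    simp

end Pool.Agent.P.MP_e06b60_al.Five
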