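import Mathlib
import Pool.Agent.P.MP_e06b60_al.Poly5

/-! The certificate: four polynomial functions on `J / J_15` (`p = 5`) describing commuting
left and right actions of `t + t^2`, `t + t^3` on `J / J_15 × Z/5`. -/

namespace Pool.Agent.P.MP_e06b60_al.Five

def rhoX : H :=
  (.a (.m 13 (.c 4)) (.a (.m 12 (.a (.m 1 (.c 2)) (.c 3))) (.a (.m 11 (.a (.m 2 (.c 3)) (.a (.m 1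
  (.a (.m 1 (.c 1)) (.c 4))) (.c 2)))) (.a (.m 10 (.a (.m 3 (.c 4)) (.a (.m 2 (.a (.m 1 (.c 3))
  (.c 1))) (.a (.m 1 (.a (.m 1 (.a (.m 1 (.c 3)) (.c 2))) (.c 1))) (.c 1))))) (.a (.m 9 (.a (.m 3
  (.a (.m 1 (.c 4)) (.c 3))) (.a (.m 2 (.a (.m 2 (.c 1)) (.a (.m 1 (.a (.m 1 (.c 1)) (.c 1))) (.c
  4)))) (.a (.m 1 (.a (.m 1 (.a (.m 1 (.a (.m 1 (.c 4)) (.c 1))) (.c 3))) (.c 3))) (.c 2))))) (.a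
  (.m 8 (.a (.m 5 (.c 1)) (.a (.m 3 (.a (.m 2 (.c 1)) (.a (.m 1 (.a (.m 1 (.c 3)) (.c 3))) (.c
  2)))) (.a (.m 2 (.a (.m 2 (.a (.m 1 (.c 4)) (.c 2))) (.a (.m 1 (.a (.m 1 (.a (.m 1 (.c 4)) (.c
  2))) (.c 4))) (.c 2)))) (.a (.m 1 (.a (.m 1 (.a (.m 1 (.a (.m 1 (.c 3)) (.c 4))) (.c 4))) (.c
  3))) (.c 1)))))) (.a (.m 7 (.a (.m 7 (.c 3)) (.a (.m 6 (.a (.m 1 (.c 3)) (.c 3))) (.a (.m 5 (.a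
  (.m 2 (.c 2)) (.a (.m 1 (.a (.m 1 (.c 4)) (.c 4))) (.c 3)))) (.a (.m 4 (.a (.m 3 (.c 1)) (.a (.m
  2 (.a (.m 1 (.c 2)) (.c 2))) (.a (.m 1 (.a (.m 1 (.a (.m 1 (.c 2)) (.c 4))) (.c 3))) (.c 1)))))
  (.a (.m 3 (.a (.m 3 (.a (.m 1 (.c 2)) (.c 4))) (.a (.m 2 (.a (.m 2 (.c 1)) (.a (.m 1 (.m 1 (.c
  1))) (.c 2)))) (.a (.m 1 (.a (.m 1 (.a (.m 1 (.a (.m 1 (.c 3)) (.c 3))) (.c 1))) (.c 3))) (.c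
  4))))) (.a (.m 2 (.a (.m 2 (.a (.m 2 (.a (.m 1 (.c 1)) (.c 1))) (.a (.m 1 (.a (.m 1 (.a (.m 1
  (.c 1)) (.c 3))) (.c 3))) (.c 2)))) (.a (.m 1 (.a (.m 1 (.a (.m 1 (.m 1 (.c 1))) (.c 4))) (.c
  2))) (.c 2)))) (.a (.m 1 (.a (.m 1 (.a (.m 1 (.m 1 (.c 3))) (.c 1))) (.c 1))) (.c 3))))))))) (.a
  (.m 6 (.a (.m 6 (.a (.m 1 (.m 1 (.c 2))) (.c 2))) (.a (.m 5 (.a (.m 2 (.a (.m 1 (.c 1)) (.c 4)))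
  (.a (.m 1 (.m 1 (.a (.m 1 (.c 2)) (.c 1)))) (.c 3)))) (.a (.m 4 (.a (.m 3 (.m 1 (.c 3))) (.a (.m
  2 (.m 1 (.a (.m 1 (.c 1)) (.c 1)))) (.m 1 (.a (.m 1 (.a (.m 1 (.a (.m 1 (.c 1)) (.c 2))) (.c
  4))) (.c 3)))))) (.a (.m 3 (.a (.m 3 (.a (.m 1 (.a (.m 1 (.c 1)) (.c 1))) (.c 3))) (.a (.m 2 (.a
  (.m 2 (.a (.m 1 (.c 3)) (.c 3))) (.a (.m 1 (.a (.m 1 (.a (.m 1 (.c 3)) (.c 2))) (.c 3))) (.c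
  3)))) (.a (.m 1 (.a (.m 1 (.a (.m 1 (.a (.m 1 (.c 3)) (.c 4))) (.c 2))) (.c 4))) (.c 2))))) (.a
  (.m 2 (.a (.m 2 (.a (.m 2 (.a (.m 1 (.a (.m 1 (.c 3)) (.c 1))) (.c 4))) (.a (.m 1 (.a (.m 1 (.a
  (.m 1 (.a (.m 1 (.c 3)) (.c 2))) (.c 3))) (.c 4))) (.c 4)))) (.a (.m 1 (.m 1 (.a (.m 1 (.m 1 (.c
  1))) (.c 4)))) (.c 2)))) (.m 1 (.a (.m 1 (.a (.m 1 (.c 3)) (.c 3))) (.c 3))))))))) (.a (.m 5 (.a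
  (.m 5 (.a (.m 3 (.c 2)) (.a (.m 2 (.a (.m 2 (.c 2)) (.a (.m 1 (.a (.m 1 (.c 3)) (.c 3))) (.c
  2)))) (.a (.m 1 (.a (.m 1 (.a (.m 1 (.a (.m 1 (.c 3)) (.c 2))) (.c 3))) (.c 2))) (.c 3))))) (.a
  (.m 4 (.a (.m 3 (.a (.m 2 (.c 2)) (.a (.m 1 (.a (.m 1 (.c 4)) (.c 2))) (.c 2)))) (.a (.m 2 (.a
  (.m 2 (.a (.m 1 (.c 4)) (.c 2))) (.a (.m 1 (.m 1 (.a (.m 1 (.c 2)) (.c 4)))) (.c 1)))) (.a (.m 1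
  (.a (.m 1 (.a (.m 1 (.a (.m 1 (.c 3)) (.c 1))) (.c 2))) (.c 4))) (.c 2))))) (.a (.m 3 (.a (.m 3
  (.a (.m 2 (.a (.m 1 (.c 4)) (.c 2))) (.a (.m 1 (.a (.m 1 (.a (.m 1 (.c 3)) (.c 1))) (.c 1))) (.c
  2)))) (.a (.m 2 (.a (.m 2 (.a (.m 2 (.c 2)) (.a (.m 1 (.m 1 (.c 1))) (.c 3)))) (.m 1 (.m 1 (.c
  2))))) (.a (.m 1 (.m 1 (.a (.m 1 (.c 1)) (.c 4)))) (.c 2))))) (.a (.m 2 (.a (.m 2 (.a (.m 2 (.a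
  (.m 2 (.m 1 (.c 2))) (.a (.m 1 (.m 1 (.m 1 (.c 1)))) (.c 1)))) (.a (.m 1 (.m 1 (.a (.m 1 (.a (.m
  1 (.c 4)) (.c 3))) (.c 1)))) (.c 3)))) (.a (.m 1 (.a (.m 1 (.a (.m 1 (.c 4)) (.c 1))) (.c 2)))
  (.c 4)))) (.a (.m 1 (.m 1 (.m 1 (.a (.m 1 (.c 3)) (.c 4))))) (.c 2))))))) (.a (.m 4 (.a (.m 4
  (.a (.m 3 (.a (.m 3 (.c 3)) (.a (.m 2 (.a (.m 1 (.c 2)) (.c 1))) (.a (.m 1 (.a (.m 1 (.m 1 (.c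
  2))) (.c 3))) (.c 4))))) (.a (.m 2 (.a (.m 2 (.a (.m 1 (.a (.m 1 (.c 2)) (.c 4))) (.c 4))) (.a
  (.m 1 (.a (.m 1 (.a (.m 1 (.a (.m 1 (.c 4)) (.c 3))) (.c 3))) (.c 4))) (.c 2)))) (.a (.m 1 (.c
  1)) (.c 2))))) (.a (.m 3 (.a (.m 3 (.a (.m 3 (.a (.m 1 (.c 2)) (.c 4))) (.a (.m 2 (.a (.m 2 (.c
  1)) (.a (.m 1 (.c 3)) (.c 1)))) (.m 1 (.a (.m 1 (.a (.m 1 (.a (.m 1 (.c 2)) (.c 1))) (.c 4)))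
  (.c 3)))))) (.a (.m 2 (.a (.m 2 (.a (.m 2 (.a (.m 1 (.c 3)) (.c 2))) (.m 1 (.m 1 (.c 2))))) (.a
  (.m 1 (.a (.m 1 (.a (.m 1 (.a (.m 1 (.c 2)) (.c 3))) (.c 2))) (.c 2))) (.c 1)))) (.m 1 (.a (.m 1
  (.a (.m 1 (.m 1 (.c 1))) (.c 2))) (.c 3)))))) (.a (.m 2 (.a (.m 2 (.a (.m 2 (.a (.m 2 (.a (.m 1
  (.a (.m 1 (.c 2)) (.c 2))) (.c 1))) (.a (.m 1 (.a (.m 1 (.a (.m 1 (.a (.m 1 (.c 4)) (.c 4))) (.c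
  2))) (.c 3))) (.c 3)))) (.a (.m 1 (.a (.m 1 (.a (.m 1 (.a (.m 1 (.c 2)) (.c 2))) (.c 4))) (.c
  3))) (.c 3)))) (.a (.m 1 (.a (.m 1 (.m 1 (.m 1 (.c 1)))) (.c 1))) (.c 4)))) (.a (.m 1 (.a (.m 1
  (.a (.m 1 (.a (.m 1 (.c 4)) (.c 1))) (.c 3))) (.c 4))) (.c 3)))))) (.a (.m 3 (.a (.m 3 (.a (.m 3
  (.a (.m 3 (.a (.m 2 (.c 3)) (.a (.m 1 (.a (.m 1 (.c 4)) (.c 1))) (.c 3)))) (.a (.m 2 (.a (.m 2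
  (.a (.m 1 (.c 3)) (.c 4))) (.a (.m 1 (.a (.m 1 (.a (.m 1 (.c 3)) (.c 4))) (.c 1))) (.c 3)))) (.a
  (.m 1 (.a (.m 1 (.a (.m 1 (.a (.m 1 (.c 4)) (.c 3))) (.c 1))) (.c 2))) (.c 2))))) (.a (.m 2 (.a
  (.m 2 (.a (.m 2 (.a (.m 1 (.a (.m 1 (.c 2)) (.c 3))) (.c 1))) (.a (.m 1 (.a (.m 1 (.a (.m 1 (.a
  (.m 1 (.c 1)) (.c 4))) (.c 3))) (.c 4))) (.c 1)))) (.a (.m 1 (.a (.m 1 (.a (.m 1 (.a (.m 1 (.c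
  2)) (.c 3))) (.c 3))) (.c 2))) (.c 2)))) (.a (.m 1 (.a (.m 1 (.a (.m 1 (.m 1 (.c 3))) (.c 1)))
  (.c 4))) (.c 1))))) (.a (.m 2 (.a (.m 2 (.a (.m 2 (.a (.m 2 (.a (.m 1 (.a (.m 1 (.a (.m 1 (.c
  2)) (.c 4))) (.c 2))) (.c 4))) (.a (.m 1 (.a (.m 1 (.a (.m 1 (.m 1 (.c 4))) (.c 1))) (.c 3)))
  (.c 2)))) (.a (.m 1 (.a (.m 1 (.a (.m 1 (.a (.m 1 (.c 3)) (.c 3))) (.c 3))) (.c 1))) (.c 3))))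
  (.a (.m 1 (.a (.m 1 (.a (.m 1 (.a (.m 1 (.c 2)) (.c 4))) (.c 4))) (.c 3))) (.c 2)))) (.a (.m 1
  (.a (.m 1 (.a (.m 1 (.a (.m 1 (.c 1)) (.c 4))) (.c 1))) (.c 4))) (.c 4))))) (.a (.m 2 (.a (.m 2
  (.a (.m 2 (.a (.m 2 (.m 1 (.a (.m 1 (.a (.m 1 (.a (.m 1 (.c 4)) (.c 3))) (.c 2))) (.c 2)))) (.a
  (.m 1 (.a (.m 1 (.a (.m 1 (.m 1 (.c 2))) (.c 2))) (.c 1))) (.c 1)))) (.a (.m 1 (.a (.m 1 (.a (.m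
  1 (.a (.m 1 (.c 2)) (.c 1))) (.c 3))) (.c 1))) (.c 4)))) (.m 1 (.a (.m 1 (.a (.m 1 (.a (.m 1 (.c
  3)) (.c 3))) (.c 1))) (.c 2))))) (.m 1 (.a (.m 1 (.a (.m 1 (.m 1 (.c 1))) (.c 3))) (.c
  1)))))))))))))))

def rhoY : H :=
  (.a (.m 13 (.c 1)) (.a (.m 12 (.m 1 (.c 3))) (.a (.m 11 (.a (.m 2 (.c 2)) (.a (.m 1 (.m 1 (.c
  4))) (.c 2)))) (.a (.m 10 (.a (.m 3 (.c 1)) (.a (.m 2 (.m 1 (.c 2))) (.m 1 (.a (.m 1 (.m 1 (.c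
  2))) (.c 1)))))) (.a (.m 9 (.a (.m 3 (.m 1 (.c 1))) (.a (.m 2 (.a (.m 2 (.c 4)) (.a (.m 1 (.m 1
  (.c 4))) (.c 4)))) (.a (.m 1 (.m 1 (.a (.m 1 (.m 1 (.c 1))) (.c 3)))) (.c 1))))) (.a (.m 8 (.a
  (.m 5 (.c 4)) (.a (.m 3 (.a (.m 2 (.c 4)) (.a (.m 1 (.m 1 (.c 2))) (.c 2)))) (.a (.m 2 (.a (.m 2
  (.m 1 (.c 1))) (.m 1 (.a (.m 1 (.m 1 (.c 1))) (.c 4))))) (.m 1 (.a (.m 1 (.m 1 (.c 4))) (.c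
  1))))))) (.a (.m 7 (.a (.m 6 (.c 2)) (.a (.m 5 (.m 1 (.c 1))) (.a (.m 4 (.a (.m 2 (.c 3)) (.a
  (.m 1 (.m 1 (.c 1))) (.c 4)))) (.a (.m 3 (.a (.m 3 (.c 4)) (.m 1 (.a (.m 1 (.a (.m 1 (.c 3)) (.c
  1))) (.c 1))))) (.a (.m 2 (.a (.m 2 (.a (.m 2 (.c 1)) (.a (.m 1 (.m 1 (.c 4))) (.c 3)))) (.a (.m
  1 (.m 1 (.a (.m 1 (.a (.m 1 (.c 3)) (.c 4))) (.c 1)))) (.c 4)))) (.a (.m 1 (.a (.m 1 (.a (.m 1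
  (.m 1 (.c 1))) (.c 2))) (.c 2))) (.c 2)))))))) (.a (.m 6 (.a (.m 5 (.a (.m 2 (.c 1)) (.a (.m 1
  (.m 1 (.c 4))) (.c 3)))) (.a (.m 4 (.a (.m 2 (.m 1 (.c 4))) (.m 1 (.a (.m 1 (.m 1 (.c 3))) (.c
  2))))) (.a (.m 3 (.a (.m 3 (.m 1 (.c 3))) (.a (.m 2 (.a (.m 2 (.c 2)) (.a (.m 1 (.m 1 (.c 3)))
  (.c 3)))) (.a (.m 1 (.m 1 (.a (.m 1 (.c 3)) (.c 1)))) (.c 1))))) (.a (.m 2 (.a (.m 2 (.m 1 (.a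
  (.m 1 (.m 1 (.c 4))) (.c 2)))) (.m 1 (.a (.m 1 (.m 1 (.a (.m 1 (.c 2)) (.c 1)))) (.c 3))))) (.a
  (.m 1 (.a (.m 1 (.a (.m 1 (.c 1)) (.c 1))) (.c 4))) (.c 3))))))) (.a (.m 5 (.a (.m 5 (.a (.m 3
  (.c 3)) (.a (.m 2 (.m 1 (.c 2))) (.m 1 (.a (.m 1 (.m 1 (.c 3))) (.c 2)))))) (.a (.m 4 (.a (.m 3
  (.m 1 (.c 3))) (.a (.m 2 (.a (.m 2 (.c 3)) (.a (.m 1 (.m 1 (.c 1))) (.c 2)))) (.a (.m 1 (.m 1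
  (.a (.m 1 (.m 1 (.c 2))) (.c 4)))) (.c 2))))) (.a (.m 3 (.a (.m 3 (.a (.m 2 (.c 4)) (.a (.m 1
  (.m 1 (.c 1))) (.c 1)))) (.a (.m 2 (.m 1 (.a (.m 1 (.m 1 (.c 2))) (.c 3)))) (.m 1 (.a (.m 1 (.m
  1 (.c 3))) (.c 1)))))) (.a (.m 2 (.a (.m 2 (.a (.m 2 (.a (.m 2 (.c 4)) (.a (.m 1 (.m 1 (.c 2)))
  (.c 1)))) (.a (.m 1 (.m 1 (.a (.m 1 (.a (.m 1 (.c 2)) (.c 1))) (.c 4)))) (.c 2)))) (.a (.m 1 (.a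
  (.m 1 (.m 1 (.a (.m 1 (.c 2)) (.c 4)))) (.c 4))) (.c 3)))) (.a (.m 1 (.a (.m 1 (.a (.m 1 (.a (.m
  1 (.c 3)) (.c 4))) (.c 2))) (.c 3))) (.c 2))))))) (.a (.m 4 (.a (.m 4 (.a (.m 3 (.a (.m 2 (.c
  4)) (.c 2))) (.a (.m 2 (.a (.m 2 (.m 1 (.c 1))) (.m 1 (.m 1 (.m 1 (.c 2)))))) (.m 1 (.a (.m 1
  (.m 1 (.c 1))) (.c 3)))))) (.a (.m 3 (.a (.m 3 (.a (.m 3 (.c 4)) (.a (.m 2 (.m 1 (.c 3))) (.m 1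
  (.a (.m 1 (.a (.m 1 (.c 1)) (.c 1))) (.c 4)))))) (.a (.m 2 (.a (.m 2 (.c 4)) (.a (.m 1 (.m 1 (.a
  (.m 1 (.m 1 (.c 4))) (.c 2)))) (.c 2)))) (.m 1 (.a (.m 1 (.c 2)) (.c 2)))))) (.a (.m 2 (.a (.m 2
  (.a (.m 2 (.a (.m 2 (.m 1 (.c 2))) (.m 1 (.a (.m 1 (.m 1 (.c 4))) (.c 2))))) (.m 1 (.a (.m 1 (.m
  1 (.a (.m 1 (.c 2)) (.c 4)))) (.c 3))))) (.a (.m 1 (.m 1 (.a (.m 1 (.a (.m 1 (.c 2)) (.c 1)))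
  (.c 3)))) (.c 1)))) (.m 1 (.a (.m 1 (.a (.m 1 (.c 2)) (.c 4))) (.c 1))))))) (.a (.m 3 (.a (.m 3
  (.a (.m 3 (.a (.m 3 (.m 1 (.c 3))) (.a (.m 2 (.m 1 (.m 1 (.c 4)))) (.a (.m 1 (.m 1 (.a (.m 1 (.m
  1 (.c 2))) (.c 3)))) (.c 4))))) (.a (.m 2 (.a (.m 2 (.a (.m 2 (.m 1 (.c 1))) (.m 1 (.a (.m 1 (.a
  (.m 1 (.c 1)) (.c 1))) (.c 4))))) (.m 1 (.a (.m 1 (.a (.m 1 (.a (.m 1 (.c 2)) (.c 2))) (.c 3)))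
  (.c 4))))) (.a (.m 1 (.a (.m 1 (.a (.m 1 (.a (.m 1 (.c 4)) (.c 3))) (.c 1))) (.c 1))) (.c 1)))))
  (.a (.m 2 (.a (.m 2 (.a (.m 2 (.a (.m 2 (.m 1 (.m 1 (.c 2)))) (.a (.m 1 (.a (.m 1 (.m 1 (.a (.m
  1 (.c 4)) (.c 1)))) (.c 1))) (.c 3)))) (.a (.m 1 (.a (.m 1 (.a (.m 1 (.c 3)) (.c 3))) (.c 2)))
  (.c 2)))) (.a (.m 1 (.a (.m 1 (.m 1 (.a (.m 1 (.c 1)) (.c 4)))) (.c 2))) (.c 4)))) (.m 1 (.a (.m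
  1 (.a (.m 1 (.a (.m 1 (.c 1)) (.c 2))) (.c 2))) (.c 1)))))) (.a (.m 2 (.a (.m 2 (.a (.m 2 (.a
  (.m 2 (.m 1 (.a (.m 1 (.a (.m 1 (.a (.m 1 (.c 3)) (.c 3))) (.c 3))) (.c 2)))) (.a (.m 1 (.m 1
  (.m 1 (.c 3)))) (.c 1)))) (.a (.m 1 (.a (.m 1 (.c 4)) (.c 1))) (.c 2)))) (.a (.m 1 (.a (.m 1 (.a
  (.m 1 (.c 1)) (.c 1))) (.c 1))) (.c 2)))) (.m 1 (.a (.m 1 (.m 1 (.a (.m 1 (.c 3)) (.c 4)))) (.c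
  3)))))))))))))))

def lamX : H :=
  (.a (.m 7 (.a (.m 2 (.m 1 (.a (.m 1 (.a (.m 1 (.a (.m 1 (.c 1)) (.c 4))) (.c 1))) (.c 4)))) (.m
  1 (.a (.m 1 (.a (.m 1 (.a (.m 1 (.c 4)) (.c 1))) (.c 4))) (.c 1))))) (.a (.m 6 (.a (.m 2 (.m 1
  (.a (.m 1 (.a (.m 1 (.a (.m 1 (.c 2)) (.c 3))) (.c 2))) (.c 3)))) (.m 1 (.a (.m 1 (.a (.m 1 (.a
  (.m 1 (.c 3)) (.c 2))) (.c 3))) (.c 2))))) (.a (.m 5 (.a (.m 2 (.a (.m 2 (.m 1 (.a (.m 1 (.a (.m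
  1 (.a (.m 1 (.c 2)) (.c 3))) (.c 2))) (.c 3)))) (.m 1 (.a (.m 1 (.a (.m 1 (.a (.m 1 (.c 2)) (.c
  3))) (.c 2))) (.c 3))))) (.m 1 (.a (.m 1 (.a (.m 1 (.a (.m 1 (.c 1)) (.c 4))) (.c 1))) (.c
  4))))) (.a (.m 4 (.a (.m 3 (.a (.m 2 (.m 1 (.a (.m 1 (.a (.m 1 (.a (.m 1 (.c 1)) (.c 4))) (.c
  1))) (.c 4)))) (.m 1 (.a (.m 1 (.a (.m 1 (.a (.m 1 (.c 4)) (.c 1))) (.c 4))) (.c 1))))) (.a (.m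
  2 (.m 2 (.m 1 (.a (.m 1 (.a (.m 1 (.a (.m 1 (.c 3)) (.c 2))) (.c 3))) (.c 2))))) (.m 1 (.a (.m 1
  (.a (.m 1 (.a (.m 1 (.c 3)) (.c 2))) (.c 3))) (.c 2)))))) (.a (.m 3 (.a (.m 3 (.a (.m 3 (.m 1
  (.a (.m 1 (.a (.m 1 (.a (.m 1 (.c 3)) (.c 2))) (.c 3))) (.c 2)))) (.a (.m 2 (.m 1 (.a (.m 1 (.a
  (.m 1 (.a (.m 1 (.c 1)) (.c 4))) (.c 1))) (.c 4)))) (.m 1 (.a (.m 1 (.a (.m 1 (.a (.m 1 (.c 3))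
  (.c 2))) (.c 3))) (.c 2)))))) (.a (.m 2 (.a (.m 2 (.a (.m 2 (.m 1 (.a (.m 1 (.a (.m 1 (.a (.m 1
  (.c 2)) (.c 3))) (.c 2))) (.c 3)))) (.m 1 (.a (.m 1 (.a (.m 1 (.a (.m 1 (.c 3)) (.c 2))) (.c
  3))) (.c 2))))) (.m 1 (.a (.m 1 (.a (.m 1 (.a (.m 1 (.c 3)) (.c 2))) (.c 3))) (.c 2))))) (.m 1
  (.a (.m 1 (.a (.m 1 (.a (.m 1 (.c 3)) (.c 2))) (.c 3))) (.c 2)))))) (.a (.m 2 (.a (.m 2 (.a (.m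
  2 (.a (.m 2 (.m 1 (.a (.m 1 (.a (.m 1 (.a (.m 1 (.c 1)) (.c 4))) (.c 1))) (.c 4)))) (.m 1 (.a
  (.m 1 (.a (.m 1 (.a (.m 1 (.c 4)) (.c 1))) (.c 4))) (.c 1))))) (.m 1 (.a (.m 1 (.a (.m 1 (.a (.m
  1 (.c 2)) (.c 3))) (.c 2))) (.c 3))))) (.m 1 (.a (.m 1 (.a (.m 1 (.a (.m 1 (.c 2)) (.c 3))) (.c
  2))) (.c 3))))) (.m 1 (.a (.m 1 (.a (.m 1 (.a (.m 1 (.c 2)) (.c 3))) (.c 2))) (.c 3)))))))))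

def lamY : H :=
  (.a (.m 7 (.a (.m 3 (.a (.m 2 (.m 1 (.c 2))) (.m 1 (.a (.m 1 (.c 1)) (.c 4))))) (.a (.m 2 (.m 1
  (.m 1 (.a (.m 1 (.m 1 (.c 3))) (.c 1))))) (.m 1 (.a (.m 1 (.m 1 (.m 1 (.c 2)))) (.c 4)))))) (.a
  (.m 6 (.a (.m 3 (.a (.m 2 (.m 1 (.m 1 (.c 1)))) (.m 1 (.m 1 (.a (.m 1 (.c 3)) (.c 2)))))) (.a
  (.m 2 (.m 1 (.a (.m 1 (.m 1 (.c 3))) (.c 4)))) (.m 1 (.a (.m 1 (.c 2)) (.c 1)))))) (.a (.m 5 (.a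
  (.m 3 (.a (.m 2 (.a (.m 2 (.m 1 (.c 4))) (.m 1 (.a (.m 1 (.a (.m 1 (.c 3)) (.c 2))) (.c 3)))))
  (.m 1 (.m 1 (.m 1 (.a (.m 1 (.c 4)) (.c 1))))))) (.a (.m 2 (.a (.m 2 (.m 1 (.m 1 (.a (.m 1 (.m 1
  (.c 1))) (.c 2))))) (.m 1 (.a (.m 1 (.a (.m 1 (.m 1 (.c 3))) (.c 2))) (.c 3))))) (.m 1 (.m 1 (.a
  (.m 1 (.c 1)) (.c 3))))))) (.a (.m 4 (.a (.m 3 (.a (.m 3 (.a (.m 2 (.m 1 (.c 2))) (.m 1 (.a (.m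
  1 (.c 1)) (.c 4))))) (.a (.m 2 (.a (.m 2 (.m 1 (.m 1 (.c 4)))) (.m 1 (.m 1 (.a (.m 1 (.a (.m 1
  (.c 2)) (.c 2))) (.c 4)))))) (.m 1 (.a (.m 1 (.c 1)) (.c 1)))))) (.a (.m 2 (.a (.m 2 (.m 1 (.m 1
  (.m 1 (.c 2))))) (.m 1 (.a (.m 1 (.a (.m 1 (.c 4)) (.c 2))) (.c 1))))) (.m 1 (.m 1 (.m 1 (.a (.m
  1 (.c 3)) (.c 3)))))))) (.a (.m 3 (.a (.m 3 (.a (.m 3 (.a (.m 3 (.m 1 (.c 3))) (.a (.m 2 (.m 1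
  (.m 1 (.c 4)))) (.m 1 (.m 1 (.a (.m 1 (.c 1)) (.c 4))))))) (.a (.m 2 (.a (.m 2 (.m 1 (.a (.m 1
  (.m 1 (.c 4))) (.c 4)))) (.m 1 (.a (.m 1 (.m 1 (.a (.m 1 (.c 4)) (.c 1)))) (.c 2))))) (.m 1 (.a
  (.m 1 (.m 1 (.a (.m 1 (.c 3)) (.c 1)))) (.c 1)))))) (.a (.m 2 (.a (.m 2 (.a (.m 2 (.a (.m 2 (.c
  4)) (.a (.m 1 (.a (.m 1 (.a (.m 1 (.a (.m 1 (.c 1)) (.c 4))) (.c 1))) (.c 1))) (.c 1)))) (.a (.m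
  1 (.a (.m 1 (.a (.m 1 (.m 1 (.c 2))) (.c 1))) (.c 4))) (.c 4)))) (.a (.m 1 (.a (.m 1 (.a (.m 1
  (.m 1 (.c 3))) (.c 4))) (.c 4))) (.c 1)))) (.m 1 (.a (.m 1 (.a (.m 1 (.c 4)) (.c 4))) (.c
  2)))))) (.a (.m 2 (.a (.m 2 (.a (.m 2 (.a (.m 2 (.m 1 (.a (.m 1 (.a (.m 1 (.a (.m 1 (.c 3)) (.c
  4))) (.c 2))) (.c 1)))) (.m 1 (.m 1 (.a (.m 1 (.a (.m 1 (.c 3)) (.c 4))) (.c 2)))))) (.m 1 (.a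
  (.m 1 (.a (.m 1 (.c 2)) (.c 2))) (.c 2))))) (.m 1 (.a (.m 1 (.m 1 (.a (.m 1 (.c 2)) (.c 2))))
  (.c 2))))) (.m 1 (.m 1 (.m 1 (.a (.m 1 (.c 3)) (.c 2)))))))))))

def sF : List SP :=
  [[], [(1, 1)], [(2, 1)], [(3, 1)], [(5, 1)], [(7, 1)], [(11, 1)], [(13, 1)], [(17, 1)], [(19,
  1)], [(23, 1)], [(29, 1)], [(31, 1)], [(37, 1)], [(41, 1)], [(43, 1)]]

def sFX : List SP :=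
  [[], [(1, 1)], [(1, 1), (2, 1)], [(2, 2), (3, 1)], [(2, 1), (3, 3), (5, 1)], [(3, 3), (5, 4),
  (7, 1)], [(3, 1), (5, 1), (11, 1)], [(5, 4), (11, 1), (13, 1)], [(5, 1), (13, 2), (17, 1)],
  [(13, 1), (17, 3), (19, 1)], [(7, 1), (17, 3), (19, 4), (23, 1)], [(11, 1), (17, 1), (19, 1),
  (29, 1)], [(11, 1), (13, 1), (19, 4), (29, 1), (31, 1)], [(13, 2), (17, 1), (19, 1), (31, 2),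
  (37, 1)], [(13, 1), (17, 3), (19, 1), (31, 1), (37, 3), (41, 1)], [(17, 3), (19, 4), (23, 2),
  (37, 3), (41, 4), (43, 1)]]

def sFY : List SP :=
  [[], [(1, 1)], [(2, 1)], [(1, 1), (3, 1)], [(2, 2), (5, 1)], [(3, 3), (7, 1)], [(2, 1), (5, 4),
  (11, 1)], [(3, 3), (13, 1)], [(5, 1), (11, 1), (17, 1)], [(3, 1), (13, 2), (19, 1)], [(5, 4),
  (17, 3), (23, 1)], [(13, 1), (19, 4), (29, 1)], [(5, 1), (17, 3), (31, 1)], [(19, 1), (29, 1),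
  (37, 1)], [(17, 1), (31, 2), (41, 1)], [(7, 1), (19, 4), (37, 3), (43, 1)]]

def sXF : List SP :=
  [[], [(1, 1)], [(1, 1), (2, 1)], [(2, 2), (3, 1)], [(3, 2), (4, 1), (5, 1)], [(5, 2), (6, 2),
  (7, 1)], [(7, 2), (9, 1), (10, 2), (11, 1)], [(11, 2), (13, 1), (14, 2), (15, 2)], [(13, 2),
  (17, 1), (21, 2), (22, 2), (25, 1)], [(17, 2), (19, 1), (26, 2), (33, 2), (35, 2)], [(19, 2),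
  (23, 1), (34, 2), (39, 2), (49, 1), (55, 2)], [(23, 2), (29, 1), (38, 2), (51, 2), (65, 2), (77,
  2)], [(29, 2), (31, 1), (46, 2), (57, 2), (85, 2), (91, 2), (121, 1)], [(31, 2), (37, 1), (58,
  2), (69, 2), (95, 2), (119, 2), (143, 2)], [(37, 2), (41, 1), (62, 2), (87, 2), (115, 2), (133,
  2), (169, 1), (187, 2)], [(41, 2), (43, 1), (74, 2), (93, 2), (145, 2), (161, 2), (209, 2),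
  (221, 2)]]

def sYF : List SP :=
  [[], [(1, 1)], [(2, 1)], [(1, 1), (3, 1)], [(2, 3), (5, 1)], [(3, 3), (4, 3), (7, 1)], [(5, 3),
  (6, 1), (8, 1), (11, 1)], [(7, 3), (9, 3), (10, 1), (12, 3), (13, 1)], [(11, 3), (14, 1), (15,
  1), (17, 1), (18, 3), (20, 3)], [(13, 3), (19, 1), (21, 1), (22, 1), (25, 3), (27, 1), (28, 3),
  (30, 1)], [(17, 3), (23, 1), (26, 1), (33, 1), (35, 1), (42, 1), (44, 3), (45, 3), (50, 3)],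
  [(19, 3), (29, 1), (34, 1), (39, 1), (49, 3), (52, 3), (55, 1), (63, 3), (66, 1), (70, 1), (75,
  3)], [(23, 3), (31, 1), (38, 1), (51, 1), (65, 1), (68, 3), (77, 1), (78, 1), (98, 3), (99, 3),
  (105, 1), (110, 1), (125, 1)], [(29, 3), (37, 1), (46, 1), (57, 1), (76, 3), (85, 1), (91, 1),
  (102, 1), (117, 3), (121, 3), (130, 1), (147, 3), (154, 1), (165, 1), (175, 3)], [(31, 3), (41,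
  1), (58, 1), (69, 1), (92, 3), (95, 1), (114, 1), (119, 1), (143, 1), (153, 3), (170, 1), (182,
  1), (195, 1), (231, 1), (242, 3), (245, 3), (275, 3)], [(37, 3), (43, 1), (62, 1), (87, 1),
  (115, 1), (116, 3), (133, 1), (138, 1), (169, 3), (171, 3), (187, 1), (190, 1), (238, 1), (255,
  1), (273, 1), (286, 1), (325, 3), (343, 1), (363, 3), (385, 1)]]

def sX : List SP := [[], [(1, 1)], [(1, 1)]]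
def sY : List SP := [[], [(1, 1)], [], [(1, 1)]]

theorem cert_FX : lcomp 16 sF sX = sFX := by decide +kernel
theorem cert_FY : lcomp 16 sF sY = sFY := by decide +kernel
theorem cert_XF : lcomp 16 sX sF = sXF := by decide +kernel
theorem cert_YF : lcomp 16 sY sF = sYF := by decide +kernel

def dif (ρ lam : H) (uR uL : List SP) : SP :=
  pnorm (padd (padd (subH sF.tail ρ) (subH uR.tail lam))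
    (pmulT (1, 4) (padd (subH sF.tail lam) (subH uL.tail ρ))))

theorem cert_xx : dif rhoX lamX sFX sXF = [] := by decide +kernel
theorem cert_xy : dif rhoY lamX sFY sXF = [] := by decide +kernel
theorem cert_yx : dif rhoX lamY sFX sYF = [] := by decide +kernel
theorem cert_yy : dif rhoY lamY sFY sYF = [] := by decide +kernel

end Pool.Agent.P.MP_e06b60_al.Five
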