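import Mathlib
import Pool.Agent.P.MP_e06b60_al.JStruct

/-! The Nottingham group for `p = 5`: generators, lower central series, centre, topology. -/

namespace Pool.Agent.P.MP_e06b60_al.Five

open PowerSeries Pool.Agent.P.MP_e06b60_al
open scoped commutatorElement

theorem lam_pow5 {n : ℕ} (hn : 1 ≤ n) {f : Nott 5} (hf : f ∈ Jn 5 n) (k : ℕ) :
    coeff (n + 1) (f ^ k).1 = k * coeff (n + 1) f.1 := by
  induction k with
  | zero => rw [pow_zero, one_val, coeff_X, if_neg (by omega)]; simp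
  | succ k ih => rw [pow_succ, lam_mul hn (pow_mem hf k) hf, ih]; push_cast; ring

theorem approx {H : Subgroup (Nott 5)} {m : ℕ} (hm : 1 ≤ m)
    (h : ∀ n, m ≤ n → ∃ x ∈ H, x ∈ Jn 5 n ∧ coeff (n + 1) x.1 ≠ 0) {f : Nott 5}
    (hf : f ∈ Jn 5 m) : ∀ n, m ≤ n → ∃ y ∈ H, f * y ∈ Jn 5 n := by
  intro n hn
  induction n, hn using Nat.le_induction with
  | base => exact ⟨1, H.one_mem, by simpa using hf⟩
  | succ n hn ih =>
    obtain ⟨y, hy, hfy⟩ := ih
    obtain ⟨x, hx, hxn, hx0⟩ := h n hn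
    have : ∀ a c : ZMod 5, c ≠ 0 → ∃ k : ℕ, a + k * c = 0 := by
      intro a c hc
      refine ⟨(-a * c ^ 3).val, ?_⟩
      rw [ZMod.natCast_zmod_val]
      revert a c; decide
    obtain ⟨k, hk⟩ := this (coeff (n + 1) (f * y).1) _ hx0
    refine ⟨y * x ^ k, H.mul_mem hy (pow_mem hx k), ?_⟩
    rw [← mul_assoc, mem_succ_iff (by omega) (mul_mem hfy (pow_mem hxn k)),
      lam_mul (by omega) hfy (pow_mem hxn k), lam_pow5 (by omega) hxn, hk]

theorem tendsto_of_Jn {g : ℕ → Nott 5} {f : Nott 5} (h : ∀ n, (g n)⁻¹ * f ∈ Jn 5 n) :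
    Filter.Tendsto g Filter.atTop (nhds f) := by
  rw [show nhds f = _ from nhds_induced _ _, Filter.tendsto_comap_iff, tendsto_pi_nhds]
  intro d
  refine tendsto_atTop_of_eventually_const (i₀ := d) fun n hn => ?_
  exact (coeff_eq_of_dvd (congr_of_inv_mul_mem (h n)) (by omega)).symm

theorem Jn_le_closed {H : Subgroup (Nott 5)} (hH : IsClosed (H : Set (Nott 5))) {m : ℕ}
    (hm : 1 ≤ m) (h : ∀ n, m ≤ n → ∃ x ∈ H, x ∈ Jn 5 n ∧ coeff (n + 1) x.1 ≠ 0) :
    Jn 5 m ≤ H := by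
  intro f hf
  choose y hyH hy using approx hm h hf
  have ht : Filter.Tendsto (fun n => (y (m + n) (by omega))⁻¹) Filter.atTop (nhds f) := by
    refine tendsto_of_Jn fun n => ?_
    have := (Jn_normal (p := 5) (m + n)).conj_mem _ (hy (m + n) (by omega)) f⁻¹
    exact Jn_anti (show n ≤ m + n by omega) (by simpa [mul_assoc] using this)
  exact hH.mem_of_tendsto ht (Filter.Eventually.of_forall fun n => H.inv_mem (hyH _ _))

/-- The generators `t + t^2` and `t + t^3`. -/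
noncomputable def gx : Nott 5 := el 5 0
noncomputable def gy : Nott 5 := el 5 1

theorem cast_ne {a b : ℕ} (h : a % 5 ≠ b % 5) : (a : ZMod 5) - (b : ZMod 5) ≠ 0 := by
  rw [sub_ne_zero, Ne, ZMod.natCast_eq_natCast_iff']
  exact h

theorem comm_x {n : ℕ} (hn : 1 ≤ n) (h5 : n % 5 ≠ 1) {f : Nott 5} (hf : f ∈ Jn 5 n)
    (h0 : coeff (n + 1) f.1 ≠ 0) :
    ⁅f, gx⁆ ∈ Jn 5 (n + 1) ∧ coeff (n + 1 + 1) (⁅f, gx⁆ : Nott 5).1 ≠ 0 := by
  obtain ⟨h1, h2⟩ := comm_lead hn (by omega) hf (el_mem (p := 5) 0)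
  refine ⟨h1, ?_⟩
  rw [gx, h2, el_coeff, mul_one]
  have : Fact (Nat.Prime 5) := ⟨by norm_num⟩
  exact mul_ne_zero (cast_ne (by omega)) h0

theorem comm_y {n : ℕ} (hn : 1 ≤ n) (h5 : n % 5 ≠ 2) {f : Nott 5} (hf : f ∈ Jn 5 n)
    (h0 : coeff (n + 1) f.1 ≠ 0) :
    ⁅f, gy⁆ ∈ Jn 5 (n + 2) ∧ coeff (n + 2 + 1) (⁅f, gy⁆ : Nott 5).1 ≠ 0 := by
  obtain ⟨h1, h2⟩ := comm_lead hn (by omega) hf (el_mem (p := 5) 1)
  refine ⟨h1, ?_⟩
  rw [gy, h2, el_coeff, mul_one]
  have : Fact (Nat.Prime 5) := ⟨by norm_num⟩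
  exact mul_ne_zero (cast_ne (by omega)) h0

theorem el_ne (n : ℕ) : coeff (n + 1 + 1) (el 5 n).1 ≠ 0 := by rw [el_coeff]; decide

/-- Every depth `n ≥ 3` is attained by a commutator of `t + t^k` with a generator. -/
theorem depth_comm {m n : ℕ} (hm : 1 ≤ m) (h : m + 2 ≤ n ∨ (m + 1 = n ∧ m % 5 ≠ 1)) :
    ∃ f ∈ Jn 5 m, ∃ g : Nott 5, ⁅f, g⁆ ∈ Jn 5 n ∧ coeff (n + 1) (⁅f, g⁆ : Nott 5).1 ≠ 0 := by
  by_cases h2 : n % 5 = 2
  · obtain ⟨k, rfl⟩ : ∃ k, n = k + 1 + 2 := ⟨n - 3, by omega⟩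
    exact ⟨el 5 k, Jn_anti (by omega) (el_mem k), gy,
      comm_y (by omega) (by omega) (el_mem k) (el_ne k)⟩
  · obtain ⟨k, rfl⟩ : ∃ k, n = k + 1 + 1 := ⟨n - 2, by omega⟩
    exact ⟨el 5 k, Jn_anti (by omega) (el_mem k), gx,
      comm_x (by omega) (by omega) (el_mem k) (el_ne k)⟩

theorem gamma_step {i m m' : ℕ} (hm : 1 ≤ m) (h : m' = m + 2 ∨ (m' = m + 1 ∧ m % 5 ≠ 1))
    (hi : Jn 5 m ≤ gamma (Nott 5) i) : Jn 5 m' ≤ gamma (Nott 5) (i + 1) := by
  refine Jn_le_closed (Subgroup.isClosed_topologicalClosure _) (by omega) fun n hn => ?_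
  obtain ⟨f, hf, g, h1, h2⟩ := depth_comm (n := n) hm (by omega)
  exact ⟨_, Subgroup.le_topologicalClosure _
    (Subgroup.commutator_mem_commutator (hi hf) (Subgroup.mem_top _)), h1, h2⟩

theorem gamma_nine : Jn 5 13 ≤ gamma (Nott 5) 9 := by
  have h0 : Jn 5 1 ≤ gamma (Nott 5) 0 := le_top
  have h1 : Jn 5 3 ≤ gamma (Nott 5) 1 := gamma_step (by omega) (by omega) h0
  have h2 : Jn 5 4 ≤ gamma (Nott 5) 2 := gamma_step (by omega) (by omega) h1
  have h3 : Jn 5 5 ≤ gamma (Nott 5) 3 := gamma_step (by omega) (by omega) h2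
  have h4 : Jn 5 6 ≤ gamma (Nott 5) 4 := gamma_step (by omega) (by omega) h3
  have h5 : Jn 5 8 ≤ gamma (Nott 5) 5 := gamma_step (by omega) (by omega) h4
  have h6 : Jn 5 9 ≤ gamma (Nott 5) 6 := gamma_step (by omega) (by omega) h5
  have h7 : Jn 5 10 ≤ gamma (Nott 5) 7 := gamma_step (by omega) (by omega) h6
  have h8 : Jn 5 11 ≤ gamma (Nott 5) 8 := gamma_step (by omega) (by omega) h7
  exact gamma_step (by omega) (by omega) h8

theorem gamma_ten : Jn 5 14 ≤ gamma (Nott 5) 10 := gamma_step (by omega) (by omega) gamma_nine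

theorem depth_gen (n : ℕ) (hn : 1 ≤ n) : ∃ g ∈ Subgroup.closure ({gx, gy} : Set (Nott 5)),
    g ∈ Jn 5 n ∧ coeff (n + 1) g.1 ≠ 0 := by
  have hx : gx ∈ Subgroup.closure ({gx, gy} : Set (Nott 5)) := Subgroup.subset_closure (by simp)
  have hy : gy ∈ Subgroup.closure ({gx, gy} : Set (Nott 5)) := Subgroup.subset_closure (by simp)
  have hc : ∀ a ∈ Subgroup.closure ({gx, gy} : Set (Nott 5)),
      ∀ b ∈ Subgroup.closure ({gx, gy} : Set (Nott 5)),
      ⁅a, b⁆ ∈ Subgroup.closure ({gx, gy} : Set (Nott 5)) := fun a ha b hb => by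
    rw [commutatorElement_def]
    exact mul_mem (mul_mem (mul_mem ha hb) (inv_mem ha)) (inv_mem hb)
  induction n using Nat.strong_induction_on with
  | _ n ih =>
    by_cases h1 : n = 1
    · subst h1; exact ⟨gx, hx, el_mem 0, el_ne 0⟩
    by_cases h2 : n = 2
    · subst h2; exact ⟨gy, hy, el_mem 1, el_ne 1⟩
    by_cases h5 : n % 5 = 2
    · obtain ⟨k, rfl⟩ : ∃ k, n = k + 2 := ⟨n - 2, by omega⟩
      obtain ⟨g, hg, hk, h0⟩ := ih k (by omega) (by omega)
      exact ⟨_, hc _ hg _ hy, comm_y (by omega) (by omega) hk h0⟩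
    · obtain ⟨k, rfl⟩ : ∃ k, n = k + 1 := ⟨n - 1, by omega⟩
      obtain ⟨g, hg, hk, h0⟩ := ih k (by omega) (by omega)
      exact ⟨_, hc _ hg _ hx, comm_x (by omega) (by omega) hk h0⟩

theorem closure_quot (n : ℕ) (hn : 1 ≤ n) :
    Subgroup.closure ({(gx : Nott 5 ⧸ Jn 5 n), (gy : Nott 5 ⧸ Jn 5 n)} : Set _) = ⊤ := by
  rw [eq_top_iff]
  intro q _
  obtain ⟨f, rfl⟩ := QuotientGroup.mk_surjective q
  obtain ⟨y, hy, h⟩ := approx le_rfl depth_gen (f := f⁻¹) (by rw [Jn_one]; trivial) n hn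
  rw [QuotientGroup.eq.mpr h]
  have := Subgroup.mem_map_of_mem (QuotientGroup.mk' (Jn 5 n)) hy
  rwa [MonoidHom.map_closure, Set.image_pair] at this

theorem eq_one_of_all {f : Nott 5} (h : ∀ n, f ∈ Jn 5 n) : f = 1 := by
  refine Subtype.ext (PowerSeries.ext fun d => ?_)
  exact coeff_eq_of_dvd (h d) (by omega)

theorem center_trivial {f : Nott 5} (h : ∀ g, f * g = g * f) : f = 1 := by
  refine eq_one_of_all fun n => ?_
  have hc : ∀ g : Nott 5, ⁅f, g⁆ = 1 := fun g => commutatorElement_eq_one_iff_mul_comm.mpr (h g)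
  have key : ∀ n, f ∈ Jn 5 (n + 1) := by
    intro n
    induction n with
    | zero => rw [zero_add, Jn_one]; trivial
    | succ n ih =>
      rw [mem_succ_iff (by omega) ih]
      by_contra h0
      by_cases h5 : (n + 1) % 5 = 1
      · have := (comm_y (by omega) (by omega) ih h0).2
        rw [hc, one_val, coeff_X, if_neg (by omega)] at this
        exact this rfl
      · have := (comm_x (by omega) h5 ih h0).2
        rw [hc, one_val, coeff_X, if_neg (by omega)] at this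
        exact this rfl
  exact Jn_anti (by omega) (key n)

theorem pow_five_mem {n : ℕ} (hn : 1 ≤ n) {f : Nott 5} (hf : f ∈ Jn 5 n) :
    f ^ 5 ∈ Jn 5 (n + 1) := by
  rw [mem_succ_iff hn (pow_mem hf 5), lam_pow5 hn hf]
  rw [show ((5 : ℕ) : ZMod 5) = 0 from rfl, zero_mul]

theorem pow_five_pow_mem (f : Nott 5) (k : ℕ) : f ^ 5 ^ k ∈ Jn 5 (k + 1) := by
  induction k with
  | zero => rw [zero_add, Jn_one]; trivial
  | succ k ih => rw [pow_succ, pow_mul]; exact pow_five_mem (by omega) ih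

theorem nott_closedEmbedding :
    Topology.IsClosedEmbedding fun (f : Nott 5) (n : ℕ) => coeff n f.1 := by
  refine ⟨⟨⟨rfl⟩, fun f g h => Subtype.ext (PowerSeries.ext fun n => congrFun h n)⟩, ?_⟩
  have : (Set.range fun (f : Nott 5) (n : ℕ) => coeff n f.1) =
      {a : ℕ → ZMod 5 | a 0 = 0} ∩ {a | a 1 = 1} := by
    ext a
    constructor
    · rintro ⟨f, rfl⟩; exact f.2
    · rintro ⟨h0, h1⟩
      exact ⟨⟨PowerSeries.mk a, by simpa using h0, by simpa using h1⟩, by ext n; simp⟩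
  rw [this]
  exact (isClosed_eq (continuous_apply 0) continuous_const).inter
    (isClosed_eq (continuous_apply 1) continuous_const)

instance : CompactSpace (Nott 5) := nott_closedEmbedding.compactSpace
instance : T2Space (Nott 5) := nott_closedEmbedding.isEmbedding.t2Space
instance : TotallyDisconnectedSpace (Nott 5) :=
  nott_closedEmbedding.isEmbedding.isTotallyDisconnected_range.mp
    (isTotallyDisconnected_of_totallyDisconnectedSpace _)

instance : Infinite (Nott 5) := by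
  refine Infinite.of_injective (el 5) fun m n h => ?_
  by_contra hmn
  have := el_coeff (p := 5) m
  rw [h] at this
  simp only [el, map_add, coeff_X, coeff_X_pow] at this
  rw [if_neg (by omega), if_neg (by omega)] at this
  exact absurd this (by decide)

end Pool.Agent.P.MP_e06b60_al.Five
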