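import Mathlib
import Pool.Agent.P.MP_e06b60_al.J5
import Pool.Agent.P.MP_e06b60_al.Cert5
import Pool.Agent.P.MP_e06b60_al.Cocycle

/-! The cocycle on `J / J_15` for `p = 5`. -/

namespace Pool.Agent.P.MP_e06b60_al.Five

open PowerSeries Pool.Agent.P.MP_e06b60_al

def idx (q : ℕ) : ℕ := [2, 3, 5, 7, 11, 13, 17, 19, 23, 29, 31, 37, 41, 43].idxOf q + 2

noncomputable def vf (f : Nott 5) (q : ℕ) : ZMod 5 := coeff (idx q) f.1

noncomputable def cv (f : Nott 5) (i : ℕ) : ZMod 5 := if i < 15 then coeff (i + 1) f.1 else 0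

theorem ev_var (f : Nott 5) {q k : ℕ} (hq : q.Prime) (hk : idx q = k) :
    ev (vf f) [(q, 1)] = coeff k f.1 := by
  simp [ev, mon_prime _ hq, vf, hk]

theorem rep_F (f : Nott 5) : X ^ 16 ∣ f.1 - toPS (vf f) sF := by
  rw [X_pow_dvd_iff]
  intro m hm
  rw [map_sub, coeff_toPS, sub_eq_zero]
  interval_cases m
  · rw [f.2.1]; rfl
  · rw [f.2.2]; simp [sF, ev, mon_one]
  all_goals exact (ev_var f (by norm_num) (by decide)).symm

theorem toPS_X (v : ℕ → ZMod 5) : toPS v sX = gx.1 := by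
  simp [sX, toPS, ev, mon_one, gx, el]; ring

theorem toPS_Y (v : ℕ → ZMod 5) : toPS v sY = gy.1 := by
  simp [sY, toPS, ev, mon_one, gy, el]; ring

theorem cv_eq {g : Nott 5} {v : ℕ → ZMod 5} {U : List SP} (hU : U.length = 16)
    (h : X ^ 16 ∣ g.1 - toPS v U) : (fun i => ev v (U.tail.getD i [])) = cv g := by
  funext i
  unfold cv
  split_ifs with hi
  · rw [coeff_eq_of_dvd h (by omega), coeff_toPS]
    cases U with
    | nil => simp at hU
    | cons a U => simp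
  · rw [List.getD_eq_default _ _ (by simp [hU]; omega)]; rfl

theorem rep_mul {f g : Nott 5} {v : ℕ → ZMod 5} {U W : List SP} (h1 : X ^ 16 ∣ f.1 - toPS v U)
    (h2 : X ^ 16 ∣ g.1 - toPS v W) : X ^ 16 ∣ (f * g).1 - toPS v (lcomp 16 U W) := by
  have h0 : coeff 0 (toPS v W) = 0 := by rw [← coeff_eq_of_dvd h2 (by omega)]; exact g.2.1
  rw [mul_val]
  simpa using dvd_add (subst_congr g.2.1 h0 h1 h2) (toPS_lcomp v 16 W h0 U)

noncomputable def fn (h : H) (f : Nott 5) : ZMod 5 := evH (cv f) h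

theorem fn_ident {ρ lam : H} {uR uL : List SP} (hd : dif ρ lam uR uL = []) {f fr sf : Nott 5}
    (lR : uR.length = 16) (lL : uL.length = 16) (hR : X ^ 16 ∣ fr.1 - toPS (vf f) uR)
    (hL : X ^ 16 ∣ sf.1 - toPS (vf f) uL) : fn ρ f + fn lam fr = fn lam f + fn ρ sf := by
  have := congrArg (ev (vf f)) hd
  simp only [dif, ev_pnorm, ev_padd, ev_pmulT, ev_subH, cv_eq lR hR, cv_eq lL hL,
    cv_eq (U := sF) rfl (rep_F f), mon_one, ev] at this
  have h5 : (5 : ZMod 5) = 0 := rfl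
  simp only [fn]
  push_cast at this
  linear_combination this - (evH (cv f) lam + evH (cv sf) ρ) * h5

theorem rep_FX (f : Nott 5) : X ^ 16 ∣ (f * gx).1 - toPS (vf f) sFX := by
  rw [← cert_FX]; exact rep_mul (rep_F f) (by rw [toPS_X]; simp)

theorem rep_FY (f : Nott 5) : X ^ 16 ∣ (f * gy).1 - toPS (vf f) sFY := by
  rw [← cert_FY]; exact rep_mul (rep_F f) (by rw [toPS_Y]; simp)

theorem rep_XF (f : Nott 5) : X ^ 16 ∣ (gx * f).1 - toPS (vf f) sXF := by
  rw [← cert_XF]; exact rep_mul (by rw [toPS_X]; simp) (rep_F f)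

theorem rep_YF (f : Nott 5) : X ^ 16 ∣ (gy * f).1 - toPS (vf f) sYF := by
  rw [← cert_YF]; exact rep_mul (by rw [toPS_Y]; simp) (rep_F f)

abbrev QQ : Type := Nott 5 ⧸ Jn 5 15

noncomputable def fq (h : H) (q : QQ) : ZMod 5 := fn h q.out

theorem fq_mk (h : H) (f : Nott 5) : fq h (f : QQ) = fn h f := by
  have e : ((f : QQ).out : QQ) = f := QuotientGroup.out_eq' _
  have h1 := congr_of_inv_mul_mem (QuotientGroup.eq.mp e)
  unfold fq fn
  congr 1
  funext i
  unfold cv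
  split_ifs with hi
  · exact (coeff_eq_of_dvd h1 (by omega)).symm
  · rfl

theorem exists_cQ : ∃ c : QQ → QQ → ZMod 5,
    (∀ f g h, c f g + c (f * g) h = c g h + c f (g * h)) ∧
      (∀ f, c 1 f = 0) ∧ (∀ f, c f 1 = 0) ∧
      (∀ f, c f gx = fq rhoX f - fq rhoX 1) ∧ (∀ f, c f gy = fq rhoY f - fq rhoY 1) ∧
      (∀ f, c gx f = fq lamX f - fq lamX 1) ∧ (∀ f, c gy f = fq lamY f - fq lamY 1) := by
  refine exists_cocycle _ _ (closure_quot 15 (by omega)) _ _ _ _ ?_ ?_ ?_ ?_ <;> intro q <;>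
    obtain ⟨f, rfl⟩ := QuotientGroup.mk_surjective q <;>
    simp only [← QuotientGroup.mk_mul, fq_mk]
  · exact fn_ident cert_xx rfl rfl (rep_FX f) (rep_XF f)
  · exact fn_ident cert_xy rfl rfl (rep_FY f) (rep_XF f)
  · exact fn_ident cert_yx rfl rfl (rep_FX f) (rep_YF f)
  · exact fn_ident cert_yy rfl rfl (rep_FY f) (rep_YF f)

/-- Evaluation of a Horner expression at a point given by a list. -/
def evN (w : List ℕ) : H → ℕ
  | .c k => k
  | .a x y => (evN w x + evN w y) % 5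
  | .m i x => (w.getD i 0 * evN w x) % 5

theorem evN_eq (w : List ℕ) : ∀ h : H, ((evN w h : ℕ) : ZMod 5) = evH (fun i => (w.getD i 0 : ℕ)) h
  | .c k => rfl
  | .a x y => by simp only [evN, evH, ZMod.natCast_mod, Nat.cast_add, evN_eq w x, evN_eq w y]
  | .m i x => by simp only [evN, evH, ZMod.natCast_mod, Nat.cast_mul, evN_eq w x]

theorem fn_eq {f : Nott 5} {w : List ℕ} (hw : w.length = 15)
    (h : ∀ i < 15, coeff (i + 1) f.1 = (w.getD i 0 : ℕ)) (e : H) : fn e f = (evN w e : ℕ) := by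
  rw [evN_eq, fn]
  congr 1
  funext i
  unfold cv
  split_ifs with hi
  · exact h i hi
  · rw [List.getD_eq_default _ _ (by omega)]; rfl

theorem fn_one (e : H) : fn e 1 = (evN [1, 0, 0, 0, 0, 0, 0, 0, 0, 0, 0, 0, 0, 0, 0] e : ℕ) := by
  refine fn_eq rfl (fun i hi => ?_) e
  rw [one_val, coeff_X]
  interval_cases i <;> simp

theorem fn_13 (e : H) :
    fn e (el 5 12) = (evN [1, 0, 0, 0, 0, 0, 0, 0, 0, 0, 0, 0, 0, 1, 0] e : ℕ) := by
  refine fn_eq rfl (fun i hi => ?_) e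
  simp only [el, map_add, coeff_X, coeff_X_pow]
  interval_cases i <;> simp

theorem fn_14 (e : H) :
    fn e (el 5 13) = (evN [1, 0, 0, 0, 0, 0, 0, 0, 0, 0, 0, 0, 0, 0, 1] e : ℕ) := by
  refine fn_eq rfl (fun i hi => ?_) e
  simp only [el, map_add, coeff_X, coeff_X_pow]
  interval_cases i <;> simp

theorem val_y : fn rhoY (el 5 12) - fn rhoY 1 - (fn lamY (el 5 12) - fn lamY 1) = 1 := by
  simp only [fn_one, fn_13]; decide +kernel

theorem val_x : fn rhoX (el 5 13) - fn rhoX 1 - (fn lamX (el 5 13) - fn lamX 1) = 0 := by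
  simp only [fn_one, fn_14]; decide +kernel

/-- The cocycle on `J`, inflated from `J / J_15`. -/
theorem exists_coc : ∃ (c : Coc (Nott 5) (ZMod 5)) (d : QQ → QQ → ZMod 5),
    (∀ f g, c.c f g = d f g) ∧ c.c (el 5 12) gy - c.c gy (el 5 12) = 1 ∧
      c.c (el 5 13) gx - c.c gx (el 5 13) = 0 := by
  obtain ⟨d, h1, h2, h3, h4, h5, h6, h7⟩ := exists_cQ
  refine ⟨⟨fun f g => d f g, fun f g h => h1 f g h, fun f => h2 f, fun f => h3 f⟩, d,
    fun _ _ => rfl, ?_, ?_⟩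
  · simp only [h5, h7, ← QuotientGroup.mk_one, fq_mk]; exact val_y
  · simp only [h4, h6, ← QuotientGroup.mk_one, fq_mk]; exact val_x

end Pool.Agent.P.MP_e06b60_al.Five
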