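import Mathlib
import Pool.Agent.P.MP_e06b60_al.Ext5

/-! The counterexample for `p = 5`: a central extension of the Nottingham group. -/

namespace Pool.Agent.P.MP_e06b60_al.Five

open PowerSeries Pool.Agent.P.MP_e06b60_al
open scoped commutatorElement

theorem map_gamma {G J : Type} [Group G] [TopologicalSpace G] [IsTopologicalGroup G]
    [CompactSpace G] [Group J] [TopologicalSpace J] [IsTopologicalGroup J] [T2Space J]
    (π : G →* J) (hc : Continuous π) (hs : Function.Surjective π) :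
    ∀ i, (gamma G i).map π = gamma J i
  | 0 => Subgroup.map_top_of_surjective π hs
  | i + 1 => by
    apply SetLike.coe_injective
    rw [gamma, gamma, Subgroup.coe_map, Subgroup.topologicalClosure_coe,
      Subgroup.topologicalClosure_coe, ← hc.isClosedMap.closure_image_eq_of_continuous hc,
      ← Subgroup.coe_map, Subgroup.map_commutator, map_gamma π hc hs i,
      Subgroup.map_top_of_surjective π hs]

theorem gamma_succ_le' (G : Type) [Group G] [TopologicalSpace G] [IsTopologicalGroup G] (i : ℕ) :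
    gamma G (i + 1) ≤ gamma G i := by
  have : IsClosed (gamma G i : Set G) := by
    cases i with
    | zero => exact isClosed_univ
    | succ i => exact Subgroup.isClosed_topologicalClosure _
  exact Subgroup.topologicalClosure_minimal _ (Subgroup.commutator_le_left _ _) this

section
variable (c : Coc (Nott 5) (ZMod 5)) (d : QQ → QQ → ZMod 5) (hd : ∀ f g, c.c f g = d f g)

noncomputable instance : TopologicalSpace (Ext c) :=
  inferInstanceAs (TopologicalSpace (Nott 5 × ZMod 5))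

instance : CompactSpace (Ext c) := inferInstanceAs (CompactSpace (Nott 5 × ZMod 5))
instance : T2Space (Ext c) := inferInstanceAs (T2Space (Nott 5 × ZMod 5))
instance : TotallyDisconnectedSpace (Ext c) :=
  inferInstanceAs (TotallyDisconnectedSpace (Nott 5 × ZMod 5))
instance : Infinite (Ext c) := inferInstanceAs (Infinite (Nott 5 × ZMod 5))

/-- The element with given components. -/
def Ext.mk' (f : Nott 5) (a : ZMod 5) : Ext c := (f, a)

theorem Ext.mk'_fst (f : Nott 5) (a : ZMod 5) : (Ext.mk' c f a).1 = f := rfl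
theorem Ext.mk'_snd (f : Nott 5) (a : ZMod 5) : (Ext.mk' c f a).2 = a := rfl

theorem Ext.ext' {u v : Ext c} (h1 : u.1 = v.1) (h2 : u.2 = v.2) : u = v := Prod.ext h1 h2

theorem cont_fst : Continuous fun u : Ext c => u.1 := continuous_fst
theorem cont_snd : Continuous fun u : Ext c => u.2 := continuous_snd

include hd

theorem c_cont : Continuous fun u : Nott 5 × Nott 5 => c.c u.1 u.2 := by
  have : DiscreteTopology QQ := QuotientGroup.discreteTopology (Jn_isOpen 15)
  simp only [hd]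
  exact (continuous_of_discreteTopology (f := fun q : QQ × QQ => d q.1 q.2)).comp
    ((QuotientGroup.continuous_mk.comp continuous_fst).prodMk
      (QuotientGroup.continuous_mk.comp continuous_snd))

theorem ext_top : IsTopologicalGroup (Ext c) where
  continuous_mul := by
    have h1 : Continuous fun u : Ext c × Ext c => u.1.1 := (cont_fst c).comp continuous_fst
    have h2 : Continuous fun u : Ext c × Ext c => u.2.1 := (cont_fst c).comp continuous_snd
    have h3 : Continuous fun u : Ext c × Ext c => u.1.2 := (cont_snd c).comp continuous_fst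
    have h4 : Continuous fun u : Ext c × Ext c => u.2.2 := (cont_snd c).comp continuous_snd
    exact (h1.mul h2).prodMk ((h3.add h4).add ((c_cont c d hd).comp (h1.prodMk h2)))
  continuous_inv :=
    (cont_fst c).inv.prodMk
      ((cont_snd c).neg.sub ((c_cont c d hd).comp ((cont_fst c).inv.prodMk (cont_fst c))))

theorem c_left {f : Nott 5} (hf : f ∈ Jn 5 15) (g : Nott 5) : c.c f g = 0 := by
  rw [hd, (QuotientGroup.eq_one_iff f).mpr hf, ← QuotientGroup.mk_one, ← hd, c.left]

theorem c_right (f : Nott 5) {g : Nott 5} (hg : g ∈ Jn 5 15) : c.c f g = 0 := by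
  rw [hd, (QuotientGroup.eq_one_iff g).mpr hg, ← QuotientGroup.mk_one, ← hd, c.right]

theorem comm_snd (u v : Ext c) (h : ⁅u.1, v.1⁆ ∈ Jn 5 15) :
    (⁅u, v⁆ : Ext c).2 = c.c u.1 v.1 - c.c v.1 u.1 := by
  have e : (⁅u, v⁆ : Ext c) * (v * u) = u * v := by rw [commutatorElement_def]; group
  have e2 := congrArg Prod.snd e
  rw [Ext.mul_snd, Ext.mul_snd, Ext.mul_snd, c_left c d hd (f := (⁅u, v⁆ : Ext c).1) h] at e2
  linear_combination e2

theorem pow_deep {u : Ext c} (hu : u.1 ∈ Jn 5 15) (n : ℕ) :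
    (u ^ n).1 = u.1 ^ n ∧ (u ^ n).2 = n * u.2 := by
  induction n with
  | zero => exact ⟨by simp [Ext.one_fst], by simp [Ext.one_snd]⟩
  | succ n ih =>
    rw [pow_succ, Ext.mul_fst, Ext.mul_snd, ih.1, ih.2, c_right c d hd _ hu]
    exact ⟨(pow_succ _ _).symm, by push_cast; ring⟩

omit hd in
theorem tendsto_ext {u : ℕ → Ext c} (h1 : ∀ n, (u n).1 ∈ Jn 5 n) (h2 : ∀ n, (u n).2 = 0) :
    Filter.Tendsto u Filter.atTop (nhds 1) := by
  have a1 : Filter.Tendsto (fun n => (u n).1) Filter.atTop (nhds 1) :=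
    tendsto_of_Jn fun n => by rw [mul_one]; exact inv_mem (h1 n)
  have a2 : Filter.Tendsto (fun n => (u n).2) Filter.atTop (nhds 0) :=
    tendsto_const_nhds.congr fun n => (h2 n).symm
  exact a1.prodMk_nhds a2

theorem pow_snd (g : Ext c) {k : ℕ} (hk : 14 ≤ k) : (g ^ 5 ^ (k + 1)).2 = 0 := by
  have h1 : (g ^ 5 ^ k).1 = g.1 ^ 5 ^ k := map_pow (Ext.proj c) g _
  have hu : (g ^ 5 ^ k).1 ∈ Jn 5 15 := by
    rw [h1]; exact Jn_anti (by omega) (pow_five_pow_mem g.1 k)
  rw [pow_succ, pow_mul, (pow_deep c d hd hu 5).2, show ((5 : ℕ) : ZMod 5) = 0 from rfl, zero_mul]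

theorem ext_pro (N : OpenNormalSubgroup (Ext c)) : IsPGroup 5 (Ext c ⧸ N.toSubgroup) := by
  intro q
  obtain ⟨g, rfl⟩ := QuotientGroup.mk_surjective q
  obtain ⟨m, hm⟩ : ∃ m : ℕ, 14 ≤ m := ⟨14, le_rfl⟩
  have h1 : ∀ n : ℕ, (g ^ n).1 = g.1 ^ n := fun n => map_pow (Ext.proj c) g n
  have ht := tendsto_ext c (u := fun n : ℕ => g ^ 5 ^ (n + m + 1))
    (fun n => by rw [h1]; exact Jn_anti (by omega) (pow_five_pow_mem g.1 (n + m + 1)))
    (fun n => pow_snd c d hd g (by omega))
  obtain ⟨n, hn⟩ := (ht.eventually (N.isOpen.mem_nhds N.one_mem)).exists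
  exact ⟨n + m + 1, by rw [← QuotientGroup.mk_pow, QuotientGroup.eq_one_iff]; exact hn⟩

theorem cen_mem [IsTopologicalGroup (Ext c)]
    (hy : c.c (el 5 12) gy - c.c gy (el 5 12) = 1) (hx : c.c (el 5 13) gx - c.c gx (el 5 13) = 0)
    (a : ZMod 5) : Ext.cen c a ∈ gamma (Ext c) 10 := by
  have hmap := map_gamma (Ext.proj c) (cont_fst c) (fun f => ⟨(f, 0), rfl⟩)
  have hcomm : ∀ f ∈ Jn 5 13, ∀ g : Nott 5, ⁅f, g⁆ ∈ Jn 5 15 →
      Ext.mk' c ⁅f, g⁆ (c.c f g - c.c g f) ∈ gamma (Ext c) 10 := by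
    intro f hf g hfg
    obtain ⟨u, hu, rfl⟩ := Subgroup.mem_map.mp (hmap 9 ▸ gamma_nine hf)
    have h1 : (⁅u, Ext.mk' c g 0⁆ : Ext c) ∈ gamma (Ext c) 10 :=
      Subgroup.le_topologicalClosure _
        (Subgroup.commutator_mem_commutator hu (Subgroup.mem_top _))
    have e : (⁅u, Ext.mk' c g 0⁆ : Ext c) = Ext.mk' c ⁅Ext.proj c u, g⁆
        (c.c (Ext.proj c u) g - c.c g (Ext.proj c u)) :=
      Ext.ext' c (map_commutatorElement (Ext.proj c) u (Ext.mk' c g 0))
        (comm_snd c d hd u (Ext.mk' c g 0) hfg)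
    exact e ▸ h1
  let K : Subgroup (Nott 5) :=
    { carrier := {f | f ∈ Jn 5 15 ∧ Ext.mk' c f 0 ∈ gamma (Ext c) 10}
      one_mem' := ⟨one_mem _, one_mem _⟩
      mul_mem' := fun {f g} hf hg => ⟨mul_mem hf.1 hg.1, by
        have e : Ext.mk' c f 0 * Ext.mk' c g 0 = Ext.mk' c (f * g) 0 :=
          Ext.ext' c rfl (by
            simp only [Ext.mul_snd, Ext.mk'_fst, Ext.mk'_snd, c_left c d hd hf.1, add_zero])
        exact e ▸ mul_mem hf.2 hg.2⟩
      inv_mem' := fun {f} hf => ⟨inv_mem hf.1, by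
        have e : (Ext.mk' c f 0)⁻¹ = Ext.mk' c f⁻¹ 0 :=
          Ext.ext' c rfl (by
            simp only [Ext.inv_snd, Ext.mk'_fst, Ext.mk'_snd, c_right c d hd _ hf.1, neg_zero,
              sub_zero])
        exact e ▸ inv_mem hf.2⟩ }
  have hK : Jn 5 16 ≤ K := by
    have hcl : IsClosed (gamma (Ext c) 10 : Set (Ext c)) := Subgroup.isClosed_topologicalClosure _
    have hco : Continuous fun f : Nott 5 => Ext.mk' c f 0 := continuous_id.prodMk continuous_const
    refine Jn_le_closed ((Jn_isClosed 15).inter (hcl.preimage hco)) (by omega) fun n hn => ?_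
    obtain ⟨f, hf, g, h1, h2⟩ := depth_comm (m := 15) (n := n) (by omega) (by omega)
    have h3 : ⁅f, g⁆ ∈ Jn 5 15 := Jn_anti (by omega) h1
    have h4 := hcomm f (Jn_anti (by omega) hf) g h3
    rw [c_left c d hd hf, c_right c d hd _ hf, sub_zero] at h4
    exact ⟨_, ⟨h3, h4⟩, h1, h2⟩
  obtain ⟨a1, a2⟩ := comm_lead (p := 5) (by omega) (by omega) (el_mem 12) (el_mem 1)
  obtain ⟨b1, b2⟩ := comm_lead (p := 5) (by omega) (by omega) (el_mem 13) (el_mem 0)
  rw [el_coeff, el_coeff] at a2 b2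
  have w1 := hcomm _ (el_mem 12) gy a1
  have w2 := hcomm _ (Jn_anti (by omega) (el_mem 13)) gx b1
  rw [hy] at w1
  rw [hx] at w2
  set j1 : Nott 5 := ⁅el 5 12, gy⁆ with hj1
  set j2 : Nott 5 := ⁅el 5 13, gx⁆ with hj2
  have hj : j1 * j2 ^ 3 ∈ Jn 5 16 := by
    have a1' : j1 ∈ Jn 5 15 := a1
    have b1' : j2 ∈ Jn 5 15 := b1
    have a2' : coeff (15 + 1) j1.1 = _ := a2
    have b2' : coeff (15 + 1) j2.1 = _ := b2
    rw [mem_succ_iff (by omega) (mul_mem a1' (pow_mem b1' 3)),
      lam_mul (by omega) a1' (pow_mem b1' 3), lam_pow5 (by omega) b1', a2', b2']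
    decide
  have k2 : j2 ∈ K := ⟨b1, w2⟩
  have k1 : j1 ∈ K := by
    have := mul_mem (hK hj) (inv_mem (pow_mem k2 3))
    simpa using this
  have h1 : Ext.cen c 1 ∈ gamma (Ext c) 10 := by
    have e : Ext.cen c 1 * Ext.mk' c j1 0 = Ext.mk' c j1 1 :=
      Ext.ext' c (one_mul _) (by
        simp only [Ext.mul_snd, Ext.cen_fst, c.left, Ext.cen_snd, Ext.mk'_snd, add_zero])
    have := mul_mem w1 (inv_mem k1.2)
    rwa [← e, mul_inv_cancel_right] at this
  have := pow_mem h1 a.val
  rwa [Ext.cen_pow, nsmul_eq_mul, mul_one, ZMod.natCast_zmod_val] at this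

end

theorem not_iso5 (c : Coc (Nott 5) (ZMod 5)) : IsEmpty (Ext c ≃* Nott 5) := by
  refine ⟨fun e => ?_⟩
  have h : e (Ext.cen c 1) = 1 := center_trivial fun g => by
    obtain ⟨u, rfl⟩ := e.surjective g
    rw [← map_mul, ← map_mul, Ext.cen_comm]
  rw [EmbeddingLike.map_eq_one_iff] at h
  exact absurd (congrArg Prod.snd h) (by rw [Ext.cen_snd, Ext.one_snd]; decide)

theorem main5 : ∃ (p : ℕ) (G : Type) (_ : Group G) (_ : TopologicalSpace G)
    (_ : IsTopologicalGroup G), p = 5 ∧ p.Prime ∧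
    CompactSpace G ∧ T2Space G ∧ TotallyDisconnectedSpace G ∧
    (∀ N : OpenNormalSubgroup G, IsPGroup p (G ⧸ N.toSubgroup)) ∧ Infinite G ∧
    Nonempty ((G ⧸ gamma G (2 * p)) ≃ₜ* (Nott p ⧸ gamma (Nott p) (2 * p))) ∧
    IsEmpty (G ≃* Nott p) := by
  obtain ⟨c, d, hd, hy, hx⟩ := exists_coc
  have := ext_top c d hd
  refine ⟨5, Ext c, inferInstance, inferInstance, this, rfl, by norm_num, inferInstance,
    inferInstance, inferInstance, ext_pro c d hd, inferInstance, ?_, not_iso5 c⟩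
  have hs : Function.Surjective (Ext.proj c) := fun f => ⟨(f, 0), rfl⟩
  have hmap := map_gamma (Ext.proj c) (cont_fst c) hs 10
  have hker : (Ext.proj c).ker ≤ gamma (Ext c) 10 := by
    intro u hu
    have : u = Ext.cen c u.2 := Prod.ext hu rfl
    rw [this]; exact cen_mem c d hd hy hx _
  have hcomap : (gamma (Nott 5) 10).comap (Ext.proj c) = gamma (Ext c) 10 := by
    rw [← hmap, Subgroup.comap_map_eq, sup_eq_left.mpr hker]
  have hopen : IsOpen (gamma (Nott 5) 10 : Set (Nott 5)) :=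
    Subgroup.isOpen_mono gamma_ten (Jn_isOpen 14)
  have hopen' : IsOpen (gamma (Ext c) 10 : Set (Ext c)) := by
    rw [← hcomap]; exact hopen.preimage (cont_fst c)
  have : DiscreteTopology (Ext c ⧸ gamma (Ext c) (2 * 5)) := QuotientGroup.discreteTopology hopen'
  have : DiscreteTopology (Nott 5 ⧸ gamma (Nott 5) (2 * 5)) := QuotientGroup.discreteTopology hopen
  let φ : Ext c →* Nott 5 ⧸ gamma (Nott 5) 10 := (QuotientGroup.mk' _).comp (Ext.proj c)
  have hφ : φ.ker = gamma (Ext c) 10 := by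
    rw [← hcomap, ← MonoidHom.comap_ker, QuotientGroup.ker_mk']
  exact ⟨{ (QuotientGroup.quotientMulEquivOfEq hφ.symm).trans
      (QuotientGroup.quotientKerEquivOfSurjective φ
        ((QuotientGroup.mk'_surjective _).comp hs)) with
    continuous_toFun := continuous_of_discreteTopology
    continuous_invFun := continuous_of_discreteTopology }⟩

end Pool.Agent.P.MP_e06b60_al.Five
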