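import Mathlib
import Pool.Agent.P.MP_e06b60_al.Ext2
import Pool.Agent.P.MP_e06b60_al.Main5

/-! The counterexample for `p = 2`: a central extension of the Nottingham group. -/

namespace Pool.Agent.P.MP_e06b60_al.Two

open PowerSeries Pool.Agent.P.MP_e06b60_al
open scoped commutatorElement

section
variable (c : Five.Coc (Nott 2) (ZMod 2)) (d : QQ → QQ → ZMod 2) (hd : ∀ f g, c.c f g = d f g)

noncomputable instance : TopologicalSpace (Five.Ext c) :=
  inferInstanceAs (TopologicalSpace (Nott 2 × ZMod 2))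

instance : CompactSpace (Five.Ext c) := inferInstanceAs (CompactSpace (Nott 2 × ZMod 2))
instance : T2Space (Five.Ext c) := inferInstanceAs (T2Space (Nott 2 × ZMod 2))
instance : TotallyDisconnectedSpace (Five.Ext c) :=
  inferInstanceAs (TotallyDisconnectedSpace (Nott 2 × ZMod 2))
instance : Infinite (Five.Ext c) := inferInstanceAs (Infinite (Nott 2 × ZMod 2))

/-- The element with given components. -/
def mk2 (f : Nott 2) (a : ZMod 2) : Five.Ext c := (f, a)

theorem mk2_fst (f : Nott 2) (a : ZMod 2) : (mk2 c f a).1 = f := rfl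
theorem mk2_snd (f : Nott 2) (a : ZMod 2) : (mk2 c f a).2 = a := rfl

theorem ext2 {u v : Five.Ext c} (h1 : u.1 = v.1) (h2 : u.2 = v.2) : u = v := Prod.ext h1 h2

theorem cont_fst : Continuous fun u : Five.Ext c => u.1 := continuous_fst
theorem cont_snd : Continuous fun u : Five.Ext c => u.2 := continuous_snd

include hd

theorem c_cont : Continuous fun u : Nott 2 × Nott 2 => c.c u.1 u.2 := by
  have : DiscreteTopology QQ := QuotientGroup.discreteTopology (Jn_isOpen 23)
  simp only [hd]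
  exact (continuous_of_discreteTopology (f := fun q : QQ × QQ => d q.1 q.2)).comp
    ((QuotientGroup.continuous_mk.comp continuous_fst).prodMk
      (QuotientGroup.continuous_mk.comp continuous_snd))

theorem ext_top : IsTopologicalGroup (Five.Ext c) where
  continuous_mul := by
    have h1 : Continuous fun u : Five.Ext c × Five.Ext c => u.1.1 := (cont_fst c).comp continuous_fst
    have h2 : Continuous fun u : Five.Ext c × Five.Ext c => u.2.1 := (cont_fst c).comp continuous_snd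
    have h3 : Continuous fun u : Five.Ext c × Five.Ext c => u.1.2 := (cont_snd c).comp continuous_fst
    have h4 : Continuous fun u : Five.Ext c × Five.Ext c => u.2.2 := (cont_snd c).comp continuous_snd
    exact (h1.mul h2).prodMk ((h3.add h4).add ((c_cont c d hd).comp (h1.prodMk h2)))
  continuous_inv :=
    (cont_fst c).inv.prodMk
      ((cont_snd c).neg.sub ((c_cont c d hd).comp ((cont_fst c).inv.prodMk (cont_fst c))))

theorem c_left {f : Nott 2} (hf : f ∈ Jn 2 23) (g : Nott 2) : c.c f g = 0 := by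
  rw [hd, (QuotientGroup.eq_one_iff f).mpr hf, ← QuotientGroup.mk_one, ← hd, c.left]

theorem c_right (f : Nott 2) {g : Nott 2} (hg : g ∈ Jn 2 23) : c.c f g = 0 := by
  rw [hd, (QuotientGroup.eq_one_iff g).mpr hg, ← QuotientGroup.mk_one, ← hd, c.right]

theorem comm_snd (u v : Five.Ext c) (h : ⁅u.1, v.1⁆ ∈ Jn 2 23) :
    (⁅u, v⁆ : Five.Ext c).2 = c.c u.1 v.1 - c.c v.1 u.1 := by
  have e : (⁅u, v⁆ : Five.Ext c) * (v * u) = u * v := by rw [commutatorElement_def]; group
  have e2 := congrArg Prod.snd e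
  rw [Five.Ext.mul_snd, Five.Ext.mul_snd, Five.Ext.mul_snd,
    c_left c d hd (f := (⁅u, v⁆ : Five.Ext c).1) h] at e2
  linear_combination e2

omit hd in
theorem tendsto_ext {u : ℕ → Five.Ext c} (h1 : ∀ n, (u n).1 ∈ Jn 2 n) (h2 : ∀ n, (u n).2 = 0) :
    Filter.Tendsto u Filter.atTop (nhds 1) := by
  have a1 : Filter.Tendsto (fun n => (u n).1) Filter.atTop (nhds 1) :=
    R.rj1_tendsto fun n => by rw [mul_one]; exact inv_mem (h1 n)
  have a2 : Filter.Tendsto (fun n => (u n).2) Filter.atTop (nhds 0) :=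
    tendsto_const_nhds.congr fun n => (h2 n).symm
  exact a1.prodMk_nhds a2

theorem pow_snd (g : Five.Ext c) {k : ℕ} (hk : 22 ≤ k) : (g ^ 2 ^ (k + 1)).2 = 0 := by
  have h1 : (g ^ 2 ^ k).1 = g.1 ^ 2 ^ k := map_pow (Five.Ext.proj c) g _
  have hu : (g ^ 2 ^ k).1 ∈ Jn 2 23 := by
    rw [h1]; exact Jn_anti (by omega) (pow_two_pow_mem g.1 k)
  rw [pow_succ, pow_mul, pow_two, Five.Ext.mul_snd, c_left c d hd hu, add_zero, add_self_two]

theorem ext_pro (N : OpenNormalSubgroup (Five.Ext c)) : IsPGroup 2 (Five.Ext c ⧸ N.toSubgroup) := by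
  intro q
  obtain ⟨g, rfl⟩ := QuotientGroup.mk_surjective q
  obtain ⟨m, hm⟩ : ∃ m : ℕ, 22 ≤ m := ⟨22, le_rfl⟩
  have h1 : ∀ n : ℕ, (g ^ n).1 = g.1 ^ n := fun n => map_pow (Five.Ext.proj c) g n
  have ht := tendsto_ext c (u := fun n : ℕ => g ^ 2 ^ (n + m + 1))
    (fun n => by rw [h1]; exact Jn_anti (by omega) (pow_two_pow_mem g.1 (n + m + 1)))
    (fun n => pow_snd c d hd g (by omega))
  obtain ⟨n, hn⟩ := (ht.eventually (N.isOpen.mem_nhds N.one_mem)).exists
  exact ⟨n + m + 1, by rw [← QuotientGroup.mk_pow, QuotientGroup.eq_one_iff]; exact hn⟩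

theorem cen_mem [IsTopologicalGroup (Five.Ext c)]
    (hw : c.c (el 2 17) (el 2 5) - c.c (el 2 5) (el 2 17) = 1) (a : ZMod 2) :
    Five.Ext.cen c a ∈ gamma (Five.Ext c) 4 := by
  have hmap := Five.map_gamma (Five.Ext.proj c) (cont_fst c) (fun f => ⟨(f, 0), rfl⟩)
  have hcomm : ∀ f ∈ Jn 2 15, ∀ g : Nott 2, ⁅f, g⁆ ∈ Jn 2 23 →
      mk2 c ⁅f, g⁆ (c.c f g - c.c g f) ∈ gamma (Five.Ext c) 4 := by
    intro f hf g hfg
    obtain ⟨u, hu, rfl⟩ := Subgroup.mem_map.mp (hmap 3 ▸ gamma_three hf)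
    have h1 : (⁅u, mk2 c g 0⁆ : Five.Ext c) ∈ gamma (Five.Ext c) 4 :=
      Subgroup.le_topologicalClosure _
        (Subgroup.commutator_mem_commutator hu (Subgroup.mem_top _))
    have e : (⁅u, mk2 c g 0⁆ : Five.Ext c) = mk2 c ⁅Five.Ext.proj c u, g⁆
        (c.c (Five.Ext.proj c u) g - c.c g (Five.Ext.proj c u)) :=
      ext2 c (map_commutatorElement (Five.Ext.proj c) u (mk2 c g 0))
        (comm_snd c d hd u (mk2 c g 0) hfg)
    exact e ▸ h1
  let K : Subgroup (Nott 2) :=
    { carrier := {f | f ∈ Jn 2 23 ∧ mk2 c f 0 ∈ gamma (Five.Ext c) 4}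
      one_mem' := ⟨one_mem _, one_mem _⟩
      mul_mem' := fun {f g} hf hg => ⟨mul_mem hf.1 hg.1, by
        have e : mk2 c f 0 * mk2 c g 0 = mk2 c (f * g) 0 :=
          ext2 c rfl (by
            simp only [Five.Ext.mul_snd, mk2_fst, mk2_snd, c_left c d hd hf.1, add_zero])
        exact e ▸ mul_mem hf.2 hg.2⟩
      inv_mem' := fun {f} hf => ⟨inv_mem hf.1, by
        have e : (mk2 c f 0)⁻¹ = mk2 c f⁻¹ 0 :=
          ext2 c rfl (by
            simp only [Five.Ext.inv_snd, mk2_fst, mk2_snd, c_right c d hd _ hf.1, neg_zero,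
              sub_zero])
        exact e ▸ inv_mem hf.2⟩ }
  have hK0 : (⁅Jn 2 23, ⊤⁆ : Subgroup (Nott 2)) ≤ K := by
    rw [Subgroup.commutator_le]
    intro f hf g _
    have h3 : ⁅f, g⁆ ∈ Jn 2 23 :=
      Jn_anti (by omega) (comm_lead (by omega) le_rfl hf (mem_one g)).1
    have h4 := hcomm f (Jn_anti (by omega) hf) g h3
    rw [c_left c d hd hf, c_right c d hd _ hf, sub_zero] at h4
    exact ⟨h3, h4⟩
  have hK : Jn 2 27 ≤ K := by
    have hcl : IsClosed (gamma (Five.Ext c) 4 : Set (Five.Ext c)) := Subgroup.isClosed_topologicalClosure _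
    have hco : Continuous fun f : Nott 2 => mk2 c f 0 := continuous_id.prodMk continuous_const
    refine R.Jn_le_of_isClosed ((Jn_isClosed 23).inter (hcl.preimage hco)) (by omega)
      fun n hn => ?_
    obtain ⟨x, hx, h1⟩ := depth_comm (m := 23) (n := n) (by omega)
    exact ⟨x, hK0 hx, h1⟩
  have w1 := hcomm _ (Jn_anti (by omega) (el_mem 17)) (el 2 5) (Jn_anti (by omega) comm_deep)
  rw [hw] at w1
  have k1 := hK comm_deep
  set j1 : Nott 2 := ⁅el 2 17, el 2 5⁆ with hj1
  have h1 : Five.Ext.cen c 1 ∈ gamma (Five.Ext c) 4 := by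
    have e : Five.Ext.cen c 1 * mk2 c j1 0 = mk2 c j1 1 :=
      ext2 c (one_mul _) (by
        simp only [Five.Ext.mul_snd, Five.Ext.cen_fst, c.left, Five.Ext.cen_snd, mk2_snd,
          add_zero])
    have := mul_mem w1 (inv_mem k1.2)
    rwa [← e, mul_inv_cancel_right] at this
  have := pow_mem h1 a.val
  rwa [Five.Ext.cen_pow, nsmul_eq_mul, mul_one, ZMod.natCast_zmod_val] at this

end

theorem not_iso2 (c : Five.Coc (Nott 2) (ZMod 2)) : IsEmpty (Five.Ext c ≃* Nott 2) := by
  refine ⟨fun e => ?_⟩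
  have h : e (Five.Ext.cen c 1) = 1 := center_trivial fun g => by
    obtain ⟨u, rfl⟩ := e.surjective g
    rw [← map_mul, ← map_mul, Five.Ext.cen_comm]
  rw [EmbeddingLike.map_eq_one_iff] at h
  exact absurd (congrArg Prod.snd h) (by rw [Five.Ext.cen_snd, Five.Ext.one_snd]; decide)

theorem main2 : ∃ (p : ℕ) (G : Type) (_ : Group G) (_ : TopologicalSpace G)
    (_ : IsTopologicalGroup G), p = 2 ∧ p.Prime ∧
    CompactSpace G ∧ T2Space G ∧ TotallyDisconnectedSpace G ∧
    (∀ N : OpenNormalSubgroup G, IsPGroup p (G ⧸ N.toSubgroup)) ∧ Infinite G ∧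
    Nonempty ((G ⧸ gamma G (2 * p)) ≃ₜ* (Nott p ⧸ gamma (Nott p) (2 * p))) ∧
    IsEmpty (G ≃* Nott p) := by
  obtain ⟨c, d, hd, hw⟩ := exists_coc
  have := ext_top c d hd
  refine ⟨2, Five.Ext c, inferInstance, inferInstance, this, rfl, by norm_num, inferInstance,
    inferInstance, inferInstance, ext_pro c d hd, inferInstance, ?_, not_iso2 c⟩
  have hs : Function.Surjective (Five.Ext.proj c) := fun f => ⟨(f, 0), rfl⟩
  have hmap := Five.map_gamma (Five.Ext.proj c) (cont_fst c) hs 4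
  have hker : (Five.Ext.proj c).ker ≤ gamma (Five.Ext c) 4 := by
    intro u hu
    have : u = Five.Ext.cen c u.2 := Prod.ext hu rfl
    rw [this]; exact cen_mem c d hd hw _
  have hcomap : (gamma (Nott 2) 4).comap (Five.Ext.proj c) = gamma (Five.Ext c) 4 := by
    rw [← hmap, Subgroup.comap_map_eq, sup_eq_left.mpr hker]
  have hopen : IsOpen (gamma (Nott 2) 4 : Set (Nott 2)) :=
    Subgroup.isOpen_mono gamma_four (Jn_isOpen 19)
  have hopen' : IsOpen (gamma (Five.Ext c) 4 : Set (Five.Ext c)) := by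
    rw [← hcomap]; exact hopen.preimage (cont_fst c)
  have : DiscreteTopology (Five.Ext c ⧸ gamma (Five.Ext c) (2 * 2)) := QuotientGroup.discreteTopology hopen'
  have : DiscreteTopology (Nott 2 ⧸ gamma (Nott 2) (2 * 2)) := QuotientGroup.discreteTopology hopen
  let φ : Five.Ext c →* Nott 2 ⧸ gamma (Nott 2) 4 := (QuotientGroup.mk' _).comp (Five.Ext.proj c)
  have hφ : φ.ker = gamma (Five.Ext c) 4 := by
    rw [← hcomap, ← MonoidHom.comap_ker, QuotientGroup.ker_mk']
  exact ⟨{ (QuotientGroup.quotientMulEquivOfEq hφ.symm).trans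
      (QuotientGroup.quotientKerEquivOfSurjective φ
        ((QuotientGroup.mk'_surjective _).comp hs)) with
    continuous_toFun := continuous_of_discreteTopology
    continuous_invFun := continuous_of_discreteTopology }⟩

end Pool.Agent.P.MP_e06b60_al.Two
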