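import Mathlib
import Pool.Agent.P.MP_e06b60_al.RA2

namespace Pool.Agent.P.MP_e06b60_al.R

open PowerSeries
open scoped commutatorElement

variable {p : ℕ} {G : Type} [Group G]

theorem ra3_vec {K V : Type} [Field K] [AddCommGroup V] [Module K V] {v : V} (hv : v ≠ 0) :
    ∃ φ : V → K, (∀ a b, φ (a + b) = φ a + φ b) ∧ φ 0 = 0 ∧ φ v = 1 := by
  obtain ⟨φ, hφ⟩ := Module.Projective.exists_dual_eq_one K hv
  exact ⟨φ, φ.map_add, φ.map_zero, hφ⟩

theorem ra3_form [Fact p.Prime] {Q : Type} [CommGroup Q] (hQ : ∀ x : Q, x ^ p = 1) {y : Q}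
    (hy : y ≠ 1) : ∃ f : Q → ZMod p, (∀ a b, f (a * b) = f a + f b) ∧ f 1 = 0 ∧ f y = 1 := by
  let _ : Module (ZMod p) (Additive Q) := AddCommGroup.zmodModule (n := p) (fun x => by
    have := hQ x.toMul
    exact congrArg Additive.ofMul this)
  have hy' : Additive.ofMul y ≠ 0 := fun h => hy (congrArg Additive.toMul h)
  obtain ⟨φ, h1, h2, h3⟩ := ra3_vec (K := ZMod p) hy'
  exact ⟨fun a => φ (Additive.ofMul a), fun a b => h1 (Additive.ofMul a) (Additive.ofMul b), h2, h3⟩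

theorem ra3_group [Fact p.Prime] {H : Type} [Group H] (B : Subgroup H)
    (hc : ∀ a b : H, ⁅a, b⁆ ∈ B) (hp : ∀ a : H, a ^ p ∈ B) {y : H} (hy : y ∉ B) :
    ∃ f : H → ZMod p, (∀ a b, f (a * b) = f a + f b) ∧ (∀ x ∈ B, f x = 0) ∧ f y = 1 := by
  have hN : B.Normal := ⟨fun x hx g => by
    have h1 : g * x * g⁻¹ = ⁅g, x⁆ * x := by simp [commutatorElement_def, mul_assoc]
    rw [h1]
    exact B.mul_mem (hc g x) hx⟩
  let _ : CommGroup (H ⧸ B) :=
    { (inferInstance : Group (H ⧸ B)) with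
      mul_comm := fun a b => by
        obtain ⟨a, rfl⟩ := QuotientGroup.mk_surjective a
        obtain ⟨b, rfl⟩ := QuotientGroup.mk_surjective b
        rw [← QuotientGroup.mk_mul, ← QuotientGroup.mk_mul, QuotientGroup.eq]
        have h1 : (a * b)⁻¹ * (b * a) = ⁅b⁻¹, a⁻¹⁆ := by
          simp [commutatorElement_def, mul_assoc]
        rw [h1]
        exact hc _ _ }
  have hQ : ∀ x : H ⧸ B, x ^ p = 1 := fun x => by
    obtain ⟨x, rfl⟩ := QuotientGroup.mk_surjective x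
    rw [← QuotientGroup.mk_pow, QuotientGroup.eq_one_iff]
    exact hp x
  have hy' : (y : H ⧸ B) ≠ 1 := fun h => hy ((QuotientGroup.eq_one_iff y).mp h)
  obtain ⟨f, h1, h2, h3⟩ := ra3_form hQ hy'
  refine ⟨fun a => f (a : H ⧸ B), fun a b => ?_, fun x hx => ?_, h3⟩
  · exact h1 (a : H ⧸ B) (b : H ⧸ B)
  · exact (congrArg f ((QuotientGroup.eq_one_iff x).mpr hx)).trans h2

theorem exists_fun [Fact p.Prime] (S : NS G) {n : ℕ} (hn : 1 ≤ n)
    (hexp : ∀ x ∈ S.F n, x ^ p ∈ S.F (n + 1)) (A : Subgroup G) (hA : S.F (n + 1) ≤ A) {y : G}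
    (hy : y ∈ S.F n) (hyA : y ∉ A) :
    ∃ f : G → ZMod p, IsFun p S n f ∧ (∀ x ∈ S.F n, x ∈ A → f x = 0) ∧ f y = 1 := by
  classical
  obtain ⟨f, h1, h2, h3⟩ := ra3_group (p := p) (A.subgroupOf (S.F n))
    (fun a b => by
      rw [Subgroup.mem_subgroupOf]
      have h := S.comm n n hn hn a.1 a.2 b.1 b.2
      exact hA (S.mono (by omega) (by omega) h))
    (fun a => by
      rw [Subgroup.mem_subgroupOf]
      exact hA (hexp a.1 a.2))
    (y := ⟨y, hy⟩) (fun h => hyA (Subgroup.mem_subgroupOf.mp h))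
  have hz : ∀ x ∈ S.F n, x ∈ A → (if h : x ∈ S.F n then f ⟨x, h⟩ else 0) = 0 := fun x hx hxA => by
    rw [dif_pos hx]
    exact h2 _ (Subgroup.mem_subgroupOf.mpr hxA)
  refine ⟨fun x => if h : x ∈ S.F n then f ⟨x, h⟩ else 0, ⟨fun a ha b hb => ?_, fun x hx => ?_⟩,
    hz, ?_⟩
  · rw [dif_pos ha, dif_pos hb, dif_pos ((S.F n).mul_mem ha hb), ← h1]
    rfl
  · exact hz x (S.anti n hn hx) (hA hx)
  · show (if h : y ∈ S.F n then f ⟨y, h⟩ else 0) = 1
    rw [dif_pos hy]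
    exact h3

theorem sep_fun [Fact p.Prime] (S : NS G) {n : ℕ} (hn : 1 ≤ n)
    (hexp : ∀ x ∈ S.F n, x ^ p ∈ S.F (n + 1)) {x : G} (hx : x ∈ S.F n)
    (h : ∀ f : G → ZMod p, IsFun p S n f → f x = 0) : x ∈ S.F (n + 1) := by
  by_contra hc
  obtain ⟨f, h1, -, h3⟩ := exists_fun S hn hexp (S.F (n + 1)) le_rfl hx hc
  exact zero_ne_one ((h f h1).symm.trans h3)

theorem diag {α : Type} (P : (ℕ → α) → ℕ → Prop) (n0 : ℕ)
    (hc : ∀ f g N, (∀ n, n ≤ N → f n = g n) → P f N → P g N) (f0 : ℕ → α) (h0 : P f0 n0)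
    (hs : ∀ f N, n0 ≤ N → P f N → ∃ a, P (Function.update f (N + 1) a) (N + 1)) :
    ∃ f, ∀ N, n0 ≤ N → P f N := by
  have : Nonempty α := ⟨f0 0⟩
  choose! a ha using hs
  let s : ℕ → ℕ → α := fun t => Nat.rec f0
    (fun t f => Function.update f (n0 + t + 1) (a f (n0 + t))) t
  have hs1 : ∀ t, s (t + 1) = Function.update (s t) (n0 + t + 1) (a (s t) (n0 + t)) := fun _ => rfl
  have hP : ∀ t, P (s t) (n0 + t) := by
    intro t
    induction t with
    | zero => exact h0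
    | succ t ih => exact ha (s t) (n0 + t) (Nat.le_add_right _ _) ih
  have hag : ∀ t u n, n ≤ n0 + t → s (t + u) n = s t n := by
    intro t u n hn
    induction u with
    | zero => rfl
    | succ u ih =>
      rw [← add_assoc, hs1, Function.update_of_ne (by omega), ih]
  refine ⟨fun n => s n n, fun N hN => ?_⟩
  obtain ⟨t, rfl⟩ := Nat.exists_eq_add_of_le hN
  refine hc (s t) _ _ (fun n hn => ?_) (hP t)
  have e1 := hag t n n hn
  have e2 := hag n t n (by omega)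
  rw [add_comm] at e2
  exact e1.symm.trans e2

end Pool.Agent.P.MP_e06b60_al.R
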