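import Mathlib
import Pool.Agent.P.MP_e06b60_al.RA3

namespace Pool.Agent.P.MP_e06b60_al.R

open PowerSeries
open scoped commutatorElement

variable {p : ℕ} [Fact p.Prime] {G H : Type} [Group G] [Group H]

/-- pairs with equal leading coefficients -/
def rb1_F (A : PF p G) (B : PF p H) (n : ℕ) : Subgroup (G × H) where
  carrier := {x | 1 ≤ n → x.1 ∈ A.F n ∧ x.2 ∈ B.F n ∧ A.lead n x.1 = B.lead n x.2}
  mul_mem' := by
    intro x y hx hy hn
    obtain ⟨h1, h2, h3⟩ := hx hn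
    obtain ⟨k1, k2, k3⟩ := hy hn
    refine ⟨mul_mem h1 k1, mul_mem h2 k2, ?_⟩
    rw [Prod.fst_mul, Prod.snd_mul, (A.isFun n hn).mul _ h1 _ k1, (B.isFun n hn).mul _ h2 _ k2,
      h3, k3]
  one_mem' := by
    intro hn
    refine ⟨one_mem _, one_mem _, ?_⟩
    rw [Prod.fst_one, Prod.snd_one, (A.isFun n hn).one, (B.isFun n hn).one]
  inv_mem' := by
    intro x hx hn
    obtain ⟨h1, h2, h3⟩ := hx hn
    refine ⟨inv_mem h1, inv_mem h2, ?_⟩
    rw [Prod.fst_inv, Prod.snd_inv, (A.isFun n hn).inv h1, (B.isFun n hn).inv h2, h3]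

theorem rb1_mem {A : PF p G} {B : PF p H} {n : ℕ} (hn : 1 ≤ n) {x : G × H} :
    x ∈ rb1_F A B n ↔ x.1 ∈ A.F n ∧ x.2 ∈ B.F n ∧ A.lead n x.1 = B.lead n x.2 :=
  ⟨fun h => h hn, fun h _ => h⟩

theorem rb1_comm_fst (x y : G × H) : (⁅x, y⁆ : G × H).1 = ⁅x.1, y.1⁆ := by
  simp [commutatorElement_def]

theorem rb1_comm_snd (x y : G × H) : (⁅x, y⁆ : G × H).2 = ⁅x.2, y.2⁆ := by
  simp [commutatorElement_def]

theorem rb1_deep {A : PF p G} {B : PF p H} {n : ℕ} (hn : 1 ≤ n) {g : G} {h : H}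
    (hg : g ∈ A.F (n + 1)) (hh : h ∈ B.F (n + 1)) : (g, h) ∈ rb1_F A B n := by
  rw [rb1_mem hn]
  refine ⟨A.anti n hn hg, B.anti n hn hh, ?_⟩
  rw [(A.isFun n hn).zero _ hg, (B.isFun n hn).zero _ hh]

theorem corr_one {A : PF p G} {B : PF p H} (hA : A.Ker) (hB : B.Ker) : Nonempty (Corr A B 1) := by
  refine ⟨{ F := rb1_F A B, anti := ?_, comm := ?_, fst_mem := ?_, snd_mem := ?_, lead_eq := ?_,
            surj := ?_, deep := ?_, step := ?_, inj := ?_ }⟩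
  · intro n hn x hx
    obtain ⟨h1, h2, _⟩ := (rb1_mem (by omega)).mp hx
    exact rb1_deep hn h1 h2
  · intro i j hi hj x hx y hy
    obtain ⟨h1, h2, h3⟩ := (rb1_mem hi).mp hx
    obtain ⟨k1, k2, k3⟩ := (rb1_mem hj).mp hy
    rw [rb1_mem (by omega), rb1_comm_fst, rb1_comm_snd]
    refine ⟨A.comm i j hi hj _ h1 _ k1, B.comm i j hi hj _ h2 _ k2, ?_⟩
    rw [A.br i j hi hj _ h1 _ k1, B.br i j hi hj _ h2 _ k2, h3, k3]
  · intro n hn x hx
    exact ((rb1_mem hn).mp hx).1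
  · intro n hn x hx
    exact ((rb1_mem hn).mp hx).2.1
  · intro n hn x hx
    exact ((rb1_mem hn).mp hx).2.2
  · intro n hn
    obtain ⟨g, hg, hg1⟩ := A.surj n hn
    obtain ⟨h, hh, hh1⟩ := B.surj n hn
    exact ⟨(g, h), (rb1_mem hn).mpr ⟨hg, hh, by rw [hg1, hh1]⟩, hg1⟩
  · intro n hn g hg h hh
    exact rb1_deep hn hg hh
  · intro n hn x hx hx1
    obtain ⟨_, h2, h3⟩ := (rb1_mem hn).mp hx
    have hx2 : x.2 ∈ B.F (n + 1) := by
      apply hB n hn _ h2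
      rw [← h3, (A.isFun n hn).zero _ hx1]
    obtain ⟨j, hj, hj1⟩ := B.exists_lead (n := n + 1) (by omega)
      (A.lead (n + 1) x.1 - B.lead (n + 1) x.2)
    refine ⟨j, hj, ?_⟩
    rw [rb1_mem (by omega)]
    simp only [Prod.fst_mul, Prod.snd_mul, mul_one]
    refine ⟨hx1, mul_mem hx2 hj, ?_⟩
    rw [(B.isFun (n + 1) (by omega)).mul _ hx2 _ hj, hj1]
    ring
  · intro n hn h hh
    obtain ⟨_, h2, h3⟩ := (rb1_mem hn).mp hh
    apply hB n hn _ h2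
    rw [← h3]
    exact (A.isFun n hn).one

theorem rb1_one_mem {A : PF p G} {B : PF p H} (hB : B.Ker) {r : ℕ} (R : Corr A B r) {n : ℕ}
    (hn : 1 ≤ n) {j : H} (hj : j ∈ B.F (n + r)) (h0 : B.lead (n + r) j = 0) :
    ((1 : G), j) ∈ R.F (n + 1) := by
  have h1 : j ∈ B.F (n + r + 1) := hB (n + r) (by omega) j hj h0
  refine R.deep (n + 1) (by omega) 1 (one_mem _) j ?_
  rwa [show n + 1 + r = n + r + 1 by omega]

theorem corr_exp {A : PF p G} {B : PF p H} (hA : A.Ker) (hB : B.Ker) (pA : A.PW) (pB : B.PW) {r : ℕ}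
    (hr : 1 ≤ r) (R : Corr A B r) : ∀ n, 1 ≤ n → ∀ x ∈ R.F n, x ^ p ∈ R.F (n + 1) := by
  intro n hn x hx
  obtain ⟨j, hj, hxj⟩ := R.step n hn (x ^ p) (pow_mem hx p)
    (by rw [Prod.pow_fst]; exact A.exp hA hn (R.fst_mem n hn x hx))
  obtain ⟨iA, hiA⟩ := pA r
  obtain ⟨iB, hiB⟩ := pB r
  obtain ⟨m, hm1, hmA, hmB, hm⟩ : ∃ m : ℕ, 1 ≤ m ∧ iA ≤ m ∧ iB ≤ m ∧
      ((n + r : ℕ) : ZMod p) - m ≠ 0 := by
    rcases one_or_two (p := p) (((n + r : ℕ) : ZMod p) - ((iA + iB : ℕ) : ZMod p)) with h | h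
    · refine ⟨iA + iB + 1, by omega, by omega, by omega, fun h' => h ?_⟩
      push_cast at h' ⊢
      linear_combination h'
    · refine ⟨iA + iB + 2, by omega, by omega, by omega, fun h' => h ?_⟩
      push_cast at h' ⊢
      linear_combination h'
  obtain ⟨Y, hY, hY1⟩ := R.surj m hm1
  have hY2 : B.lead m Y.2 = 1 := by rw [← R.lead_eq m hm1 Y hY, hY1]
  have hc : ⁅x, Y⁆ ∈ R.F (n + m) := R.comm n m hn hm1 x hx Y hY
  have hcp : ⁅x, Y⁆ ^ p ∈ R.F (n + m + 1) := by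
    have h1 := hiA (n + m) (by omega) _ (R.fst_mem (n + m) (by omega) _ hc)
    have h2 := hiB (n + m) (by omega) _ (R.snd_mem (n + m) (by omega) _ hc)
    rw [show n + m + r + 1 = n + m + 1 + r by omega] at h1 h2
    exact R.deep (n + m + 1) (by omega) _ h1 _ h2
  have h3 : ⁅x ^ p, Y⁆ ∈ R.F (n + m + 1) := by
    have h4 := R.toNS.mono (i := n + m + 1) (by omega) (by omega)
      (R.toNS.comm_pow_left hn hm1 hx hY p)
    have h5 := mul_mem h4 hcp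
    rwa [inv_mul_cancel_right] at h5
  have hjn : ((1 : G), j) ∈ R.F n := R.deep n hn 1 (one_mem _) j hj
  have h6 := R.toNS.comm_cg_left (a := n + 1) (c := m) (by omega) hm1 (x := x ^ p)
    (x' := ((1 : G), j)⁻¹) (y := Y) (inv_mem (R.toNS.mono le_rfl hn hjn)) (by rwa [inv_inv]) hY
  rw [show n + 1 + m = n + m + 1 by omega] at h6
  have h7 : ⁅((1 : G), j)⁻¹, Y⁆ ∈ R.F (n + m + 1) := by
    have h8 := mul_mem (inv_mem h6) h3
    rwa [mul_inv_rev, inv_inv, inv_mul_cancel_right] at h8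
  have h9 : ⁅((1 : G), j)⁻¹, Y⁆ = ((1 : G), ⁅j⁻¹, Y.2⁆) := by
    ext
    · rw [rb1_comm_fst]; simp
    · rw [rb1_comm_snd]; simp
  rw [h9] at h7
  have h10 := R.inj (n + m + 1) (by omega) _ h7
  rw [show n + m + 1 + r = n + r + m + 1 by omega] at h10
  have h11 := (B.isFun (n + r + m) (by omega)).zero _ h10
  rw [B.br (n + r) m (by omega) hm1 _ (inv_mem hj) _ (R.snd_mem m hm1 Y hY), hY2, mul_one,
    (B.isFun (n + r) (by omega)).inv hj] at h11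
  have h12 : B.lead (n + r) j = 0 := neg_eq_zero.mp ((mul_eq_zero.mp h11).resolve_left hm)
  have h13 := mul_mem hxj (inv_mem (rb1_one_mem hB R hn hj h12))
  rwa [mul_inv_cancel_right] at h13

/-- elements congruent to a power of `X` -/
def rb1_S {K : Type} [Group K] (S : NS K) {n : ℕ} (hn : 1 ≤ n) (X : K) : Subgroup K where
  carrier := {x | x ∈ S.F n ∧ ∃ a : ℤ, x * (X ^ a)⁻¹ ∈ S.F (n + 1)}
  mul_mem' := by
    rintro x y ⟨hx, a, ha⟩ ⟨hy, b, hb⟩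
    refine ⟨mul_mem hx hy, a + b, ?_⟩
    rw [zpow_add]
    exact S.cg_mul (by omega) (S.mono le_rfl hn hx) ha hb
  one_mem' := ⟨one_mem _, 0, by simp⟩
  inv_mem' := by
    rintro x ⟨hx, a, ha⟩
    refine ⟨inv_mem hx, -a, ?_⟩
    rw [zpow_neg]
    exact S.cg_inv (by omega) (S.mono le_rfl hn hx) ha

theorem corr_tau {A : PF p G} {B : PF p H} (hA : A.Ker) (hB : B.Ker) {r : ℕ} (hr : 1 ≤ r) (R : Corr A B r)
    (hexp : ∀ n, 1 ≤ n → ∀ x ∈ R.F n, x ^ p ∈ R.F (n + 1)) {n : ℕ} (hn : 1 ≤ n) {X : G × H}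
    (hX : X ∈ R.F n) (hX1 : A.lead n X.1 = 1) : ∃ τ : G × H → ZMod p, IsFun p R.toNS n τ ∧
      τ X = 0 ∧ (∀ h ∈ B.F (n + r), τ (1, h) = B.lead (n + r) h) ∧
      ∀ x ∈ R.F n, A.lead n x.1 = 0 → τ x = 0 → x ∈ R.F (n + 1) := by
  obtain ⟨h0, hh0, hh1⟩ := B.surj (n + r) (by omega)
  have hdeep : ∀ h ∈ B.F (n + r), ((1 : G), h) ∈ R.F n :=
    fun h hh => R.deep n hn 1 (one_mem _) h hh
  have hle : R.F (n + 1) ≤ rb1_S R.toNS hn X := fun x hx =>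
    ⟨R.anti n hn hx, 0, by simpa using hx⟩
  have hy : ((1 : G), h0) ∉ rb1_S R.toNS hn X := by
    rintro ⟨_, a, ha⟩
    have hX' := R.fst_mem n hn X hX
    have h1 := (A.isFun n hn).zero _ (R.fst_mem (n + 1) (by omega) _ ha)
    have h2 : (((1 : G), h0) * (X ^ a)⁻¹).1 = (X.1 ^ a)⁻¹ := by simp
    rw [h2, (A.isFun n hn).inv (zpow_mem hX' a), (A.isFun n hn).zpow hX', hX1, mul_one,
      neg_eq_zero, ZMod.intCast_zmod_eq_zero_iff_dvd] at h1
    obtain ⟨b, rfl⟩ := h1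
    have h3 : X ^ ((p : ℤ) * b) ∈ R.F (n + 1) := by
      rw [zpow_mul, zpow_natCast]
      exact zpow_mem (hexp n hn X hX) b
    have h4 := mul_mem ha h3
    rw [inv_mul_cancel_right] at h4
    have h5 := R.inj (n + 1) (by omega) _ h4
    rw [show n + 1 + r = n + r + 1 by omega] at h5
    have h6 := (B.isFun (n + r) (by omega)).zero _ h5
    rw [hh1] at h6
    exact one_ne_zero h6
  obtain ⟨τ, hτ, hτ0, hτ1⟩ := exists_fun R.toNS hn (hexp n hn) (rb1_S R.toNS hn X) hle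
    (hdeep h0 hh0) hy
  have hf : IsFun p B.toNS (n + r) (fun h => τ (1, h)) := by
    refine ⟨fun x hx y hy => ?_, fun x hx => ?_⟩
    · rw [← hτ.mul _ (hdeep x hx) _ (hdeep y hy), Prod.mk_mul_mk, mul_one]
    · apply hτ.zero
      refine R.deep (n + 1) (by omega) 1 (one_mem _) x ?_
      rwa [show n + 1 + r = n + r + 1 by omega]
  have hlead : ∀ h ∈ B.F (n + r), τ (1, h) = B.lead (n + r) h := by
    intro h hh
    have := hf.eq_mul (B.isFun (n + r) (by omega)) hh0 hh1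
      (fun x hx hx0 => hτ.zero _ (rb1_one_mem hB R hn hx hx0)) h hh
    rw [this, hτ1, mul_one]
  refine ⟨τ, hτ, hτ0 X hX ⟨hX, 1, by simp⟩, hlead, ?_⟩
  intro x hx hx0 hτx
  obtain ⟨j, hj, hxj⟩ := R.step n hn x hx (hA n hn _ (R.fst_mem n hn x hx) hx0)
  have h1 := hτ.zero _ hxj
  rw [hτ.mul _ hx _ (hdeep j hj), hτx, zero_add, hlead j hj] at h1
  have h2 := mul_mem hxj (inv_mem (rb1_one_mem hB R hn hj h1))
  rwa [mul_inv_cancel_right] at h2

end Pool.Agent.P.MP_e06b60_al.R
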