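import Mathlib
import Pool.Agent.P.MP_e06b60_al.RA2

namespace Pool.Agent.P.MP_e06b60_al.R

open PowerSeries
open scoped commutatorElement

variable {p : ℕ} [Fact p.Prime]

theorem rl1_ne (hp : 7 ≤ p) (n : ℕ) (h0 : 0 < n) (hn : n < 7) : (n : ZMod p) ≠ 0 := by
  intro h
  have h1 : p ∣ n := (ZMod.natCast_eq_zero_iff n p).1 h
  have := Nat.le_of_dvd h0 h1
  omega

theorem rl1_two (hp : 7 ≤ p) : (2 : ZMod p) ≠ 0 := by
  simpa using rl1_ne hp 2 (by norm_num) (by norm_num)

theorem rl1_three (hp : 7 ≤ p) : (3 : ZMod p) ≠ 0 := by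
  simpa using rl1_ne hp 3 (by norm_num) (by norm_num)

theorem rl1_five (hp : 7 ≤ p) : (5 : ZMod p) ≠ 0 := by
  simpa using rl1_ne hp 5 (by norm_num) (by norm_num)

/-- Cancel a product of powers of two, three and five. -/
theorem rl1_cancel (hp : 7 ≤ p) (a b c : ℕ) (x : ZMod p)
    (h : (2 : ZMod p) ^ a * 3 ^ b * 5 ^ c * x = 0) : x = 0 := by
  rcases mul_eq_zero.1 h with h1 | h1
  · exact absurd h1 (mul_ne_zero (mul_ne_zero (pow_ne_zero _ (rl1_two hp))
      (pow_ne_zero _ (rl1_three hp))) (pow_ne_zero _ (rl1_five hp)))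
  · exact h1

/-- A solution of a homogeneous recursion vanishing at one and two vanishes. -/
theorem rl1_zero (hp : 7 ≤ p) (R : ℕ) (d : ℕ → ZMod p) (A B : ℕ → ℕ → ZMod p)
    (h : ∀ i j : ℕ, 1 ≤ i → 1 ≤ j → i + j ≤ R →
      ((i : ZMod p) - j) * d (i + j) = A i j * d i + B i j * d j)
    (h1 : d 1 = 0) (h2 : d 2 = 0) : ∀ n : ℕ, 1 ≤ n → n ≤ R → d n = 0 := by
  intro n
  induction n using Nat.strong_induction_on with
  | _ n ih =>
    intro hn hR
    by_cases hn1 : n = 1
    · rw [hn1]; exact h1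
    by_cases hn2 : n = 2
    · rw [hn2]; exact h2
    obtain ⟨m, rfl⟩ : ∃ m, n = m + 3 := ⟨n - 3, by omega⟩
    have ea := h 1 (m + 2) le_rfl (by omega) (by omega)
    have eb := h 2 (m + 1) (by omega) (by omega) (by omega)
    rw [h1, ih (m + 2) (by omega) (by omega) (by omega),
      show 1 + (m + 2) = m + 3 by omega] at ea
    rw [h2, ih (m + 1) (by omega) (by omega) (by omega),
      show 2 + (m + 1) = m + 3 by omega] at eb
    push_cast at ea eb
    apply rl1_cancel hp 1 0 0
    linear_combination eb - ea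

theorem l1 (hp : 7 ≤ p) (s : ZMod p) (R : ℕ) (hR : 7 ≤ R) (b : ℕ → ZMod p)
    (h : ∀ i j : ℕ, 1 ≤ i → 1 ≤ j → i + j ≤ R → ((i : ZMod p) - j) * b (i + j) =
      ((i : ZMod p) + 2 * j - s) * b i - ((j : ZMod p) + 2 * i - s) * b j) :
    ∃ α μ : ZMod p, (s ≠ 0 → μ = 0) ∧
      ∀ i : ℕ, 1 ≤ i → i ≤ R → b i = α * (2 * i - s) + μ * i ^ 3 := by
  have key : ∃ α μ : ZMod p, (s ≠ 0 → μ = 0) ∧ b 1 = α * (2 - s) + μ ∧
      b 2 = α * (4 - s) + μ * 8 := by
    by_cases hs : s = 0
    · have h2 := rl1_two hp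
      have h3 := rl1_three hp
      refine ⟨(8 * b 1 - b 2) / (2 * 2 * 3), (b 2 - 2 * b 1) / (2 * 3), fun h0 => absurd hs h0,
        ?_, ?_⟩
      · rw [hs]; field_simp; ring
      · rw [hs]; field_simp; ring
    · have e12 := h 1 2 (by omega) (by omega) (by omega)
      have e13 := h 1 3 (by omega) (by omega) (by omega)
      have e14 := h 1 4 (by omega) (by omega) (by omega)
      have e15 := h 1 5 (by omega) (by omega) (by omega)
      have e16 := h 1 6 (by omega) (by omega) (by omega)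
      have e23 := h 2 3 (by omega) (by omega) (by omega)
      have e25 := h 2 5 (by omega) (by omega) (by omega)
      simp only [Nat.reduceAdd, Nat.cast_ofNat, Nat.cast_one] at e12 e13 e14 e15 e16 e23 e25
      obtain ⟨B3, hB3⟩ : ∃ x, x = (4 - s) * b 2 - (5 - s) * b 1 := ⟨_, rfl⟩
      obtain ⟨B4, hB4⟩ : ∃ x, x = (5 - s) * B3 - (7 - s) * b 1 := ⟨_, rfl⟩
      obtain ⟨B5, hB5⟩ : ∃ x, x = (6 - s) * B4 - 2 * (9 - s) * b 1 := ⟨_, rfl⟩
      obtain ⟨B6, hB6⟩ : ∃ x, x = (7 - s) * B5 - 6 * (11 - s) * b 1 := ⟨_, rfl⟩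
      obtain ⟨B7, hB7⟩ : ∃ x, x = (8 - s) * B6 - 24 * (13 - s) * b 1 := ⟨_, rfl⟩
      have f3 : b 3 = B3 := by linear_combination -e12 - hB3
      have f4 : 2 * b 4 = B4 := by linear_combination -e13 - hB4 + (5 - s) * f3
      have f5 : 6 * b 5 = B5 := by linear_combination -2 * e14 - hB5 + (6 - s) * f4
      have f6 : 24 * b 6 = B6 := by linear_combination -6 * e15 - hB6 + (7 - s) * f5
      have f7 : 120 * b 7 = B7 := by linear_combination -24 * e16 - hB7 + (8 - s) * f6
      have r1 : B5 = 6 * (7 - s) * B3 - 6 * (8 - s) * b 2 := by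
        linear_combination -6 * e23 - f5 + 6 * (7 - s) * f3
      have r2 : 3 * B7 = 20 * (9 - s) * B5 - 120 * (12 - s) * b 2 := by
        linear_combination -120 * e25 - 3 * f7 + 20 * (9 - s) * f5
      subst hB7 hB6 hB5 hB4 hB3
      have k1 : s * ((7 - s) * ((4 - s) * b 1 - (2 - s) * b 2)) = 0 := by
        linear_combination r1
      have k2 : s * ((9 - s) * (3 * s ^ 2 - 37 * s + 124) *
          ((4 - s) * b 1 - (2 - s) * b 2)) = 0 := by
        linear_combination r2
      have k3 := (mul_eq_zero.1 k1).resolve_left hs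
      have k4 := (mul_eq_zero.1 k2).resolve_left hs
      have k : (4 - s) * b 1 - (2 - s) * b 2 = 0 := by
        rcases mul_eq_zero.1 k3 with h7 | h7
        · have hs7 : s = 7 := by linear_combination -h7
          apply rl1_cancel hp 3 1 0
          rw [hs7] at k4 ⊢
          linear_combination k4
        · exact h7
      by_cases hs2 : 2 - s = 0
      · have h2 := rl1_two hp
        have hs' : s = 2 := by linear_combination -hs2
        refine ⟨b 2 / 2, 0, fun _ => rfl, ?_, ?_⟩
        · rw [hs2]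
          have : b 1 = 0 := by
            apply rl1_cancel hp 1 0 0
            rw [hs'] at k
            linear_combination k
          rw [this]; ring
        · rw [hs']; field_simp; ring
      · refine ⟨b 1 / (2 - s), 0, fun _ => rfl, ?_, ?_⟩
        · field_simp; ring
        · field_simp; linear_combination -k
  obtain ⟨α, μ, hμ, h1, h2⟩ := key
  have hμs : μ * s = 0 := by
    by_cases hs : s = 0
    · rw [hs, mul_zero]
    · rw [hμ hs, zero_mul]
  refine ⟨α, μ, hμ, fun i hi hiR => ?_⟩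
  have := rl1_zero hp R (fun n => b n - (α * (2 * n - s) + μ * n ^ 3))
    (fun i j => (i : ZMod p) + 2 * j - s) (fun i j => -((j : ZMod p) + 2 * i - s))
    (fun i j hi hj hij => by
      have e := h i j hi hj hij
      push_cast
      linear_combination e - ((i : ZMod p) ^ 3 - (j : ZMod p) ^ 3) * hμs)
    (by simp only [Nat.cast_one]; linear_combination h1)
    (by simp only [Nat.cast_ofNat]; linear_combination h2) i hi hiR
  linear_combination this

theorem l2 (hp : 7 ≤ p) (t : ℕ) (ht : t = 1 ∨ t = 2) (R : ℕ)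
    (hR : 11 ≤ R ∨ (7 ≤ R ∧ t = 1)) (b : ℕ → ZMod p) (e e' : ZMod p)
    (h : ∀ i j : ℕ, 1 ≤ i → 1 ≤ j → i + j ≤ R → ((i : ZMod p) - j) * b (i + j) =
      ((i : ZMod p) + 2 * j - t) * b i - ((j : ZMod p) + 2 * i - t) * b j -
        (if i = t then e * j ^ 3 + e' * j else 0) + (if j = t then e * i ^ 3 + e' * i else 0)) :
    e = 0 := by
  have hR7 : 7 ≤ R := by omega
  have e12 := h 1 2 (by omega) (by omega) (by omega)
  have e13 := h 1 3 (by omega) (by omega) (by omega)
  have e14 := h 1 4 (by omega) (by omega) (by omega)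
  have e15 := h 1 5 (by omega) (by omega) (by omega)
  have e16 := h 1 6 (by omega) (by omega) (by omega)
  have e23 := h 2 3 (by omega) (by omega) (by omega)
  rcases ht with rfl | rfl
  · have e34 := h 3 4 (by omega) (by omega) (by omega)
    simp only [Nat.reduceAdd, Nat.cast_ofNat, Nat.cast_one, Nat.reduceEqDiff, if_true, if_false,
      OfNat.ofNat_ne_one] at e12 e13 e14 e15 e16 e23 e34
    apply rl1_cancel hp 3 2 1
    linear_combination -140 * e12 + 105 * e13 + 6 * e14 - 60 * e23 - 7 * e15 - 4 * e16 + 20 * e34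
  · have hR11 : 11 ≤ R := by omega
    have e25 := h 2 5 (by omega) (by omega) (by omega)
    have e17 := h 1 7 (by omega) (by omega) (by omega)
    have e18 := h 1 8 (by omega) (by omega) (by omega)
    have e19 := h 1 9 (by omega) (by omega) (by omega)
    have e110 := h 1 10 (by omega) (by omega) (by omega)
    have e56 := h 5 6 (by omega) (by omega) (by omega)
    simp only [Nat.reduceAdd, Nat.cast_ofNat, Nat.cast_one, Nat.reduceEqDiff, if_true, if_false,
      OfNat.one_ne_ofNat] at e12 e13 e14 e15 e16 e23 e25 e17 e18 e19 e110 e56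
    have k1 : 792 * e = 0 := by
      linear_combination -401 * e12 + 228 * e13 + 114 * e14 - 217 * e23 - 45 * e15 - 30 * e16
        + 50 * e25
    have k2 : -118728 * e = 0 := by
      linear_combination -14841 * e12 + 3298 * e13 + 1649 * e14 - 4947 * e23 + 3780 * e15
        - 420 * e16 - 300 * e17 - 225 * e18 - 175 * e19 - 140 * e110 + 1260 * e56
    apply rl1_cancel hp 3 2 0
    linear_combination 150 * k1 + k2

theorem l3 (hp : 7 ≤ p) (r : ZMod p) (b : ℕ → ZMod p)
    (h : ∀ i j : ℕ, 1 ≤ i → 1 ≤ j → ((i : ZMod p) - j) * b (i + j) =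
      ((i : ZMod p) - j + r) * b i + ((i : ZMod p) - j - r) * b j) :
    ∃ c : ZMod p, ∀ i : ℕ, 1 ≤ i → b i = c * (r - i) := by
  have key : ∃ c : ZMod p, b 1 = c * (r - 1) ∧ b 2 = c * (r - 2) := by
    have e12 := h 1 2 (by omega) (by omega)
    have e13 := h 1 3 (by omega) (by omega)
    have e14 := h 1 4 (by omega) (by omega)
    have e15 := h 1 5 (by omega) (by omega)
    have e16 := h 1 6 (by omega) (by omega)
    have e23 := h 2 3 (by omega) (by omega)
    have e34 := h 3 4 (by omega) (by omega)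
    simp only [Nat.reduceAdd, Nat.cast_ofNat, Nat.cast_one] at e12 e13 e14 e15 e16 e23 e34
    obtain ⟨B3, hB3⟩ : ∃ x, x = (r + 1) * b 2 - (r - 1) * b 1 := ⟨_, rfl⟩
    obtain ⟨B4, hB4⟩ : ∃ x, x = (r + 2) * B3 - (r - 2) * b 1 := ⟨_, rfl⟩
    obtain ⟨B5, hB5⟩ : ∃ x, x = (r + 3) * B4 - 2 * (r - 3) * b 1 := ⟨_, rfl⟩
    obtain ⟨B6, hB6⟩ : ∃ x, x = (r + 4) * B5 - 6 * (r - 4) * b 1 := ⟨_, rfl⟩
    obtain ⟨B7, hB7⟩ : ∃ x, x = (r + 5) * B6 - 24 * (r - 5) * b 1 := ⟨_, rfl⟩
    have f3 : b 3 = B3 := by linear_combination -e12 - hB3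
    have f4 : 2 * b 4 = B4 := by linear_combination -e13 - hB4 + (r + 2) * f3
    have f5 : 6 * b 5 = B5 := by linear_combination -2 * e14 - hB5 + (r + 3) * f4
    have f6 : 24 * b 6 = B6 := by linear_combination -6 * e15 - hB6 + (r + 4) * f5
    have f7 : 120 * b 7 = B7 := by linear_combination -24 * e16 - hB7 + (r + 5) * f6
    have r1 : B5 = 6 * (r + 1) * B3 - 6 * (r - 1) * b 2 := by
      linear_combination -6 * e23 - f5 + 6 * (r + 1) * f3
    have r2 : B7 = 60 * (r + 1) * B4 - 120 * (r - 1) * B3 := by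
      linear_combination -120 * e34 - f7 + 60 * (r + 1) * f4 - 120 * (r - 1) * f3
    subst hB7 hB6 hB5 hB4 hB3
    have k1 : (r ^ 2 + r + 6) * ((r - 2) * b 1 - (r - 1) * b 2) = 0 := by
      linear_combination -r1
    have k2 : (r + 1) * (r ^ 3 + 15 * r ^ 2 + 26 * r + 120) *
        ((r - 2) * b 1 - (r - 1) * b 2) = 0 := by
      linear_combination -r2
    have k3 : r * ((r - 2) * b 1 - (r - 1) * b 2) = 0 := by
      apply rl1_cancel hp 2 2 0
      linear_combination k2 - (r ^ 2 + 15 * r + 20) * k1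
    have k : (r - 2) * b 1 - (r - 1) * b 2 = 0 := by
      apply rl1_cancel hp 1 1 0
      linear_combination k1 - (r + 1) * k3
    by_cases hr : r - 1 = 0
    · have hr' : r = 1 := by linear_combination hr
      refine ⟨-b 2, ?_, ?_⟩
      · rw [hr'] at k ⊢; linear_combination -k
      · rw [hr']; ring
    · refine ⟨b 1 / (r - 1), ?_, ?_⟩
      · field_simp
      · field_simp; linear_combination -k
  obtain ⟨c, h1, h2⟩ := key
  refine ⟨c, fun i hi => ?_⟩
  have := rl1_zero hp i (fun n => b n - c * (r - n))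
    (fun i j => (i : ZMod p) - j + r) (fun i j => (i : ZMod p) - j - r)
    (fun i j hi hj _ => by
      have e := h i j hi hj
      push_cast
      linear_combination e)
    (by simp only [Nat.cast_one]; linear_combination h1)
    (by simp only [Nat.cast_ofNat]; linear_combination h2) i hi le_rfl
  linear_combination this

end Pool.Agent.P.MP_e06b60_al.R
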