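import Mathlib
import Pool.Agent.P.MP_e06b60_al.RA2

namespace Pool.Agent.P.MP_e06b60_al.R

open PowerSeries
open scoped commutatorElement

variable {p : ℕ} [Fact p.Prime]

theorem rl2_w12 {K : Type} [CommRing K] (r : K)
    {c2_3 c2_4 c2_5 c3_4 c1_7 c2_6 c3_5 c1_8 c2_7 c3_6 c4_5 c1_9 c2_8 c3_7 c4_6 c1_10 c2_9 c3_8 c4_7 c5_6 c1_11 c3_9 c4_8 c5_7 : K}
    (h1_2_3 : (4 + 1 * r) * c2_3 + ((-2)) * c2_4 = 0)
    (h1_2_4 : (5 + 1 * r) * c2_4 + ((-3)) * c2_5 + ((-1)) * c3_4 = 0)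
    (h1_2_5 : (3) * c1_7 + (6 + 1 * r) * c2_5 + ((-4)) * c2_6 + ((-1)) * c3_5 = 0)
    (h1_2_6 : (4) * c1_8 + (7 + 1 * r) * c2_6 + ((-5)) * c2_7 + ((-1)) * c3_6 = 0)
    (h1_2_7 : ((-6) + (-1) * r) * c1_7 + (5) * c1_9 + (8 + 1 * r) * c2_7 + ((-6)) * c2_8 + ((-1)) * c3_7 = 0)
    (h1_2_8 : ((-7) + (-1) * r) * c1_8 + (6) * c1_10 + (9 + 1 * r) * c2_8 + ((-7)) * c2_9 + ((-1)) * c3_8 = 0)
    (h1_3_4 : (1) * c1_7 + (6 + 1 * r) * c3_4 + ((-3)) * c3_5 = 0)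
    (h1_3_5 : (2) * c1_8 + (7 + 1 * r) * c3_5 + ((-4)) * c3_6 + ((-2)) * c4_5 = 0)
    (h1_3_6 : (3) * c1_9 + (8 + 1 * r) * c3_6 + ((-5)) * c3_7 + ((-2)) * c4_6 = 0)
    (h1_3_7 : ((-5) + (-1) * r) * c1_7 + (4) * c1_10 + (9 + 1 * r) * c3_7 + ((-6)) * c3_8 + ((-2)) * c4_7 = 0)
    (h1_3_8 : ((-6) + (-1) * r) * c1_8 + (5) * c1_11 + (10 + 1 * r) * c3_8 + ((-7)) * c3_9 + ((-2)) * c4_8 = 0)
    (h1_4_5 : (1) * c1_9 + (8 + 1 * r) * c4_5 + ((-4)) * c4_6 = 0)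
    (h1_4_6 : (2) * c1_10 + (9 + 1 * r) * c4_6 + ((-5)) * c4_7 + ((-3)) * c5_6 = 0)
    (h1_4_7 : ((-4) + (-1) * r) * c1_7 + (3) * c1_11 + (10 + 1 * r) * c4_7 + ((-6)) * c4_8 + ((-3)) * c5_7 = 0)
    (h1_5_6 : (1) * c1_11 + (10 + 1 * r) * c5_6 + ((-5)) * c5_7 = 0)
    (h2_3_4 : (1 + 1 * r) * c2_3 + ((-3) + (-1) * r) * c2_4 + (1) * c2_7 + (5 + 1 * r) * c3_4 + ((-2)) * c3_6 + (1) * c4_5 = 0)
    (h2_3_6 : ((-1) + 1 * r) * c2_3 + ((-5) + (-1) * r) * c2_6 + (3) * c2_9 + (7 + 1 * r) * c3_6 + ((-4)) * c3_8 + ((-1)) * c5_6 = 0)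
    (h3_4_5 : (2 + 1 * r) * c3_4 + ((-4) + (-1) * r) * c3_5 + (1) * c3_9 + (6 + 1 * r) * c4_5 + ((-2)) * c4_8 + (1) * c5_7 = 0) :
    (48 + (-38) * r + (-9) * r ^ 2 + (-1) * r ^ 3) * ((r ^ 4 + 16 * r ^ 3 + 41 * r ^ 2 + 146 * r + 120) * c2_3 - 20 * (r ^ 2 + r + 6) * c3_4) = 0 := by
  linear_combination
    (182160 + 129588 * r + 20588 * r ^ 2 + 465 * r ^ 3 + (-139) * r ^ 4 + (-21) * r ^ 5 + (-1) * r ^ 6) * h1_2_3 +
    ((-288288) + (-133896) * r + (-20200) * r ^ 2 + (-1102) * r ^ 3 + (-32) * r ^ 4 + (-2) * r ^ 5) * h1_2_4 +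
    ((-144144) + (-42924) * r + (-2946) * r ^ 2 + (-60) * r ^ 3 + (-6) * r ^ 4) * h1_2_5 +
    (4032 + 816 * r + (-72) * r ^ 2 + (-24) * r ^ 3) * h1_2_6 +
    (77760 + 16416 * r + 864 * r ^ 2) * h1_2_7 +
    (51840 + 5184 * r) * h1_2_8 +
    (441504 + 170316 * r + 22302 * r ^ 2 + 1044 * r ^ 3 + 18 * r ^ 4) * h1_3_4 +
    (187632 + 44808 * r + 2736 * r ^ 2 + 48 * r ^ 3) * h1_3_5 +
    ((-162000) + (-34200) * r + (-1800) * r ^ 2) * h1_3_6 +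
    ((-81360) + (-8136) * r) * h1_3_7 +
    (4752) * h1_3_8 +
    (97200 + 20520 * r + 1080 * r ^ 2) * h1_4_5 +
    (7200 + 720 * r) * h1_4_6 +
    ((-12672)) * h1_4_7 +
    (14256) * h1_5_6 +
    ((-601920) + (-205008) * r + (-23688) * r ^ 2 + (-984) * r ^ 3) * h2_3_4 +
    (120960 + 12096 * r) * h2_3_6 +
    (33264) * h3_4_5

theorem rl2_w15 {K : Type} [CommRing K] (r : K)
    {c2_3 c2_4 c2_5 c3_4 c1_7 c2_6 c3_5 c1_8 c2_7 c3_6 c4_5 c1_9 c2_8 c3_7 c4_6 c1_10 c2_9 c3_8 c4_7 c5_6 c1_11 c2_10 c3_9 c4_8 c5_7 c1_12 c2_11 c3_10 c4_9 c5_8 c6_7 c1_13 c2_12 c3_11 c4_10 c5_9 c6_8 c1_14 c2_13 c3_12 c4_11 c5_10 c6_9 : K}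
    (h1_2_3 : (4 + 1 * r) * c2_3 + ((-2)) * c2_4 = 0)
    (h1_2_4 : (5 + 1 * r) * c2_4 + ((-3)) * c2_5 + ((-1)) * c3_4 = 0)
    (h1_2_5 : (3) * c1_7 + (6 + 1 * r) * c2_5 + ((-4)) * c2_6 + ((-1)) * c3_5 = 0)
    (h1_2_6 : (4) * c1_8 + (7 + 1 * r) * c2_6 + ((-5)) * c2_7 + ((-1)) * c3_6 = 0)
    (h1_2_7 : ((-6) + (-1) * r) * c1_7 + (5) * c1_9 + (8 + 1 * r) * c2_7 + ((-6)) * c2_8 + ((-1)) * c3_7 = 0)
    (h1_2_8 : ((-7) + (-1) * r) * c1_8 + (6) * c1_10 + (9 + 1 * r) * c2_8 + ((-7)) * c2_9 + ((-1)) * c3_8 = 0)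
    (h1_2_9 : ((-8) + (-1) * r) * c1_9 + (7) * c1_11 + (10 + 1 * r) * c2_9 + ((-8)) * c2_10 + ((-1)) * c3_9 = 0)
    (h1_2_10 : ((-9) + (-1) * r) * c1_10 + (8) * c1_12 + (11 + 1 * r) * c2_10 + ((-9)) * c2_11 + ((-1)) * c3_10 = 0)
    (h1_2_11 : ((-10) + (-1) * r) * c1_11 + (9) * c1_13 + (12 + 1 * r) * c2_11 + ((-10)) * c2_12 + ((-1)) * c3_11 = 0)
    (h1_2_12 : ((-11) + (-1) * r) * c1_12 + (10) * c1_14 + (13 + 1 * r) * c2_12 + ((-11)) * c2_13 + ((-1)) * c3_12 = 0)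
    (h1_3_4 : (1) * c1_7 + (6 + 1 * r) * c3_4 + ((-3)) * c3_5 = 0)
    (h1_3_5 : (2) * c1_8 + (7 + 1 * r) * c3_5 + ((-4)) * c3_6 + ((-2)) * c4_5 = 0)
    (h1_3_6 : (3) * c1_9 + (8 + 1 * r) * c3_6 + ((-5)) * c3_7 + ((-2)) * c4_6 = 0)
    (h1_3_7 : ((-5) + (-1) * r) * c1_7 + (4) * c1_10 + (9 + 1 * r) * c3_7 + ((-6)) * c3_8 + ((-2)) * c4_7 = 0)
    (h1_3_8 : ((-6) + (-1) * r) * c1_8 + (5) * c1_11 + (10 + 1 * r) * c3_8 + ((-7)) * c3_9 + ((-2)) * c4_8 = 0)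
    (h1_3_9 : ((-7) + (-1) * r) * c1_9 + (6) * c1_12 + (11 + 1 * r) * c3_9 + ((-8)) * c3_10 + ((-2)) * c4_9 = 0)
    (h1_3_10 : ((-8) + (-1) * r) * c1_10 + (7) * c1_13 + (12 + 1 * r) * c3_10 + ((-9)) * c3_11 + ((-2)) * c4_10 = 0)
    (h1_3_11 : ((-9) + (-1) * r) * c1_11 + (8) * c1_14 + (13 + 1 * r) * c3_11 + ((-10)) * c3_12 + ((-2)) * c4_11 = 0)
    (h1_4_5 : (1) * c1_9 + (8 + 1 * r) * c4_5 + ((-4)) * c4_6 = 0)
    (h1_4_6 : (2) * c1_10 + (9 + 1 * r) * c4_6 + ((-5)) * c4_7 + ((-3)) * c5_6 = 0)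
    (h1_4_7 : ((-4) + (-1) * r) * c1_7 + (3) * c1_11 + (10 + 1 * r) * c4_7 + ((-6)) * c4_8 + ((-3)) * c5_7 = 0)
    (h1_4_8 : ((-5) + (-1) * r) * c1_8 + (4) * c1_12 + (11 + 1 * r) * c4_8 + ((-7)) * c4_9 + ((-3)) * c5_8 = 0)
    (h1_4_9 : ((-6) + (-1) * r) * c1_9 + (5) * c1_13 + (12 + 1 * r) * c4_9 + ((-8)) * c4_10 + ((-3)) * c5_9 = 0)
    (h1_4_10 : ((-7) + (-1) * r) * c1_10 + (6) * c1_14 + (13 + 1 * r) * c4_10 + ((-9)) * c4_11 + ((-3)) * c5_10 = 0)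
    (h1_5_6 : (1) * c1_11 + (10 + 1 * r) * c5_6 + ((-5)) * c5_7 = 0)
    (h1_5_7 : ((-3) + (-1) * r) * c1_7 + (2) * c1_12 + (11 + 1 * r) * c5_7 + ((-6)) * c5_8 + ((-4)) * c6_7 = 0)
    (h1_5_8 : ((-4) + (-1) * r) * c1_8 + (3) * c1_13 + (12 + 1 * r) * c5_8 + ((-7)) * c5_9 + ((-4)) * c6_8 = 0)
    (h1_5_9 : ((-5) + (-1) * r) * c1_9 + (4) * c1_14 + (13 + 1 * r) * c5_9 + ((-8)) * c5_10 + ((-4)) * c6_9 = 0)
    (h1_6_7 : ((-2) + (-1) * r) * c1_7 + (1) * c1_13 + (12 + 1 * r) * c6_7 + ((-6)) * c6_8 = 0)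
    (h2_3_4 : (1 + 1 * r) * c2_3 + ((-3) + (-1) * r) * c2_4 + (1) * c2_7 + (5 + 1 * r) * c3_4 + ((-2)) * c3_6 + (1) * c4_5 = 0)
    (h2_3_6 : ((-1) + 1 * r) * c2_3 + ((-5) + (-1) * r) * c2_6 + (3) * c2_9 + (7 + 1 * r) * c3_6 + ((-4)) * c3_8 + ((-1)) * c5_6 = 0)
    (h2_3_8 : ((-3) + 1 * r) * c2_3 + ((-7) + (-1) * r) * c2_8 + (5) * c2_11 + (9 + 1 * r) * c3_8 + ((-6)) * c3_10 + ((-1)) * c5_8 = 0)
    (h2_3_10 : ((-5) + 1 * r) * c2_3 + ((-9) + (-1) * r) * c2_10 + (7) * c2_13 + (11 + 1 * r) * c3_10 + ((-8)) * c3_12 + ((-1)) * c5_10 = 0)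
    (h4_5_6 : (3 + 1 * r) * c4_5 + ((-5) + (-1) * r) * c4_6 + (1) * c4_11 + (7 + 1 * r) * c5_6 + ((-2)) * c5_10 + (1) * c6_9 = 0) :
    (416448 + (-183108) * r + (-169255) * r ^ 2 + (-46218) * r ^ 3 + (-6109) * r ^ 4 + (-408) * r ^ 5 + (-10) * r ^ 6) * ((r ^ 4 + 16 * r ^ 3 + 41 * r ^ 2 + 146 * r + 120) * c2_3 - 20 * (r ^ 2 + r + 6) * c3_4) = 0 := by
  linear_combination
    ((-5499073800) + (-5320735092) * r + (-1757956794) * r ^ 2 + (-280390277) * r ^ 3 + (-24926214) * r ^ 4 + (-1635630) * r ^ 5 + (-132528) * r ^ 6 + (-10935) * r ^ 7 + (-528) * r ^ 8 + (-10) * r ^ 9) * h1_2_3 +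
    (9151125984 + 6560462844 * r + 1879919598 * r ^ 2 + 274267582 * r ^ 3 + 21071962 * r ^ 4 + 723802 * r ^ 5 + (-2972) * r ^ 6 + (-956) * r ^ 7 + (-20) * r ^ 8) * h1_2_4 +
    (4575562992 + 2517637590 * r + 520353534 * r ^ 2 + 50408202 * r ^ 3 + 2134614 * r ^ 4 + 6132 * r ^ 5 + (-2508) * r ^ 6 + (-60) * r ^ 7) * h1_2_5 +
    ((-1567292976) + (-673699932) * r + (-106379106) * r ^ 2 + (-7669008) * r ^ 3 + (-274218) * r ^ 4 + (-8352) * r ^ 5 + (-240) * r ^ 6) * h1_2_6 +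
    ((-3344298840) + (-1406232792) * r + (-234470880) * r ^ 2 + (-19731510) * r ^ 3 + (-850860) * r ^ 4 + (-15318) * r ^ 5) * h1_2_7 +
    ((-1337724720) + (-513204768) * r + (-71903808) * r ^ 2 + (-4277988) * r ^ 3 + (-91908) * r ^ 4) * h1_2_8 +
    (819990864 + 188702514 * r + 14794164 * r ^ 2 + 428274 * r ^ 3) * h1_2_9 +
    (479600352 + 80665200 * r + 3426192 * r ^ 2) * h1_2_10 +
    ((-118053936) + (-9081072) * r) * h1_2_11 +
    ((-90810720)) * h1_2_12 +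
    ((-14248079496) + (-9037341180) * r + (-2340546408) * r ^ 2 + (-315431082) * r ^ 3 + (-23044806) * r ^ 4 + (-826902) * r ^ 5 + (-7794) * r ^ 6 + 180 * r ^ 7) * h1_3_4 +
    ((-5452667928) + (-2734531146) * r + (-538107792) * r ^ 2 + (-51111036) * r ^ 3 + (-2269824) * r ^ 4 + (-29250) * r ^ 5 + 480 * r ^ 6) * h1_3_5 +
    (6930063864 + 3057851304 * r + 530411922 * r ^ 2 + 44975952 * r ^ 3 + 1855818 * r ^ 4 + 29916 * r ^ 5) * h1_3_6 +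
    (3478446720 + 1156064112 * r + 140169402 * r ^ 2 + 7219872 * r ^ 3 + 134262 * r ^ 4) * h1_3_7 +
    ((-1420517736) + (-341760276) * r + (-27154116) * r ^ 2 + (-715176) * r ^ 3) * h1_3_8 +
    ((-829421208) + (-124927110) * r + (-4577958) * r ^ 2) * h1_3_9 +
    (191134944 + 14702688 * r) * h1_3_10 +
    (123243120) * h1_3_11 +
    ((-3747367152) + (-1624906062) * r + (-275176728) * r ^ 2 + (-22627908) * r ^ 3 + (-884880) * r ^ 4 + (-13158) * r ^ 5) * h1_4_5 +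
    ((-96653520) + (-26152920) * r + (-1525572) * r ^ 2 + 107316 * r ^ 3 + 7200 * r ^ 4) * h1_4_6 +
    (647362584 + 153400104 * r + 11931084 * r ^ 2 + 304524 * r ^ 3) * h1_4_7 +
    (94830912 + 12913560 * r + 396792 * r ^ 2) * h1_4_8 +
    ((-82918836) + (-6378372) * r) * h1_4_9 +
    ((-21621600)) * h1_4_10 +
    ((-650786400) + (-157938066) * r + (-12662892) * r ^ 2 + (-335610) * r ^ 3) * h1_5_6 +
    ((-119258568) + (-19111950) * r + (-764478) * r ^ 2) * h1_5_7 +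
    (59629284 + 4586868 * r) * h1_5_8 +
    (12972960) * h1_5_9 +
    ((-39752856) + (-3057912) * r) * h1_6_7 +
    (18917925840 + 11225661516 * r + 2750104302 * r ^ 2 + 353977920 * r ^ 3 + 25167300 * r ^ 4 + 931644 * r ^ 5 + 14118 * r ^ 6) * h2_3_4 +
    ((-5854660560) + (-2099816460) * r + (-279990270) * r ^ 2 + (-16340940) * r ^ 3 + (-357210) * r ^ 4) * h2_3_6 +
    (1146610080 + 190602720 * r + 7983360 * r ^ 2) * h2_3_8 +
    ((-142702560)) * h2_3_10 +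
    (51891840) * h4_5_6

theorem rl2_jac {r : ZMod p} {c : ℕ → ℕ → ZMod p} (hc : Coc r c) (i j l : ℕ) (hi : 1 ≤ i)
    (hj : 1 ≤ j) (hl : 1 ≤ l) :
    ((i : ZMod p) - j) * c (i + j) l - ((j : ZMod p) - l) * c i (j + l) -
      ((l : ZMod p) - i) * c j (l + i) + ((i : ZMod p) + j + r - l) * c i j +
      ((j : ZMod p) + l + r - i) * c j l - ((l : ZMod p) + i + r - j) * c i l = 0 := by
  have h := hc.jac i j l hi hj hl
  rw [hc.anti i (j + l) hi (by omega), hc.anti j (l + i) hj (by omega), hc.anti i l hi hl] at h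
  linear_combination h

theorem rl2_diag (hp : 17 ≤ p) {r : ZMod p} {c : ℕ → ℕ → ZMod p} (hc : Coc r c) (i : ℕ)
    (hi : 1 ≤ i) : c i i = 0 := by
  have h2 : ((2 : ℕ) : ZMod p) ≠ 0 := cast_ne_zero (by norm_num) (by omega)
  have h := hc.anti i i hi hi
  refine (mul_eq_zero.1 (?_ : ((2 : ℕ) : ZMod p) * c i i = 0)).resolve_left h2
  push_cast
  linear_combination h

theorem phi_big (hp : 17 ≤ p) (r : ZMod p) (c : ℕ → ℕ → ZMod p) (hc : Coc r c)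
    (h1 : ∀ n, 2 ≤ n → n ≤ 6 → c 1 n = 0) :
    (r ^ 4 + 16 * r ^ 3 + 41 * r ^ 2 + 146 * r + 120) * c 2 3 = 20 * (r ^ 2 + r + 6) * c 3 4 := by
  have z2 : c 1 2 = 0 := h1 2 (by norm_num) (by norm_num)
  have z3 : c 1 3 = 0 := h1 3 (by norm_num) (by norm_num)
  have z4 : c 1 4 = 0 := h1 4 (by norm_num) (by norm_num)
  have z5 : c 1 5 = 0 := h1 5 (by norm_num) (by norm_num)
  have z6 : c 1 6 = 0 := h1 6 (by norm_num) (by norm_num)
  have h1_2_3 : (4 + 1 * r) * c 2 3 + ((-2)) * c 2 4 = 0 := by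
    have h := rl2_jac hc 1 2 3 (by norm_num) (by norm_num) (by norm_num)
    simp only [Nat.reduceAdd, Nat.cast_ofNat, Nat.cast_one] at h
    rw [rl2_diag hp hc 3 (by norm_num), z2, z3, z5] at h
    linear_combination h
  have h1_2_4 : (5 + 1 * r) * c 2 4 + ((-3)) * c 2 5 + ((-1)) * c 3 4 = 0 := by
    have h := rl2_jac hc 1 2 4 (by norm_num) (by norm_num) (by norm_num)
    simp only [Nat.reduceAdd, Nat.cast_ofNat, Nat.cast_one] at h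
    rw [z2, z4, z6] at h
    linear_combination h
  have h1_2_5 : (3) * c 1 7 + (6 + 1 * r) * c 2 5 + ((-4)) * c 2 6 + ((-1)) * c 3 5 = 0 := by
    have h := rl2_jac hc 1 2 5 (by norm_num) (by norm_num) (by norm_num)
    simp only [Nat.reduceAdd, Nat.cast_ofNat, Nat.cast_one] at h
    rw [z2, z5] at h
    linear_combination h
  have h1_3_4 : (1) * c 1 7 + (6 + 1 * r) * c 3 4 + ((-3)) * c 3 5 = 0 := by
    have h := rl2_jac hc 1 3 4 (by norm_num) (by norm_num) (by norm_num)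
    simp only [Nat.reduceAdd, Nat.cast_ofNat, Nat.cast_one] at h
    rw [rl2_diag hp hc 4 (by norm_num), z3, z4] at h
    linear_combination h
  have h1_2_6 : (4) * c 1 8 + (7 + 1 * r) * c 2 6 + ((-5)) * c 2 7 + ((-1)) * c 3 6 = 0 := by
    have h := rl2_jac hc 1 2 6 (by norm_num) (by norm_num) (by norm_num)
    simp only [Nat.reduceAdd, Nat.cast_ofNat, Nat.cast_one] at h
    rw [z2, z6] at h
    linear_combination h
  have h1_3_5 : (2) * c 1 8 + (7 + 1 * r) * c 3 5 + ((-4)) * c 3 6 + ((-2)) * c 4 5 = 0 := by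
    have h := rl2_jac hc 1 3 5 (by norm_num) (by norm_num) (by norm_num)
    simp only [Nat.reduceAdd, Nat.cast_ofNat, Nat.cast_one] at h
    rw [z3, z5] at h
    linear_combination h
  have h2_3_4 : (1 + 1 * r) * c 2 3 + ((-3) + (-1) * r) * c 2 4 + (1) * c 2 7 + (5 + 1 * r) * c 3 4 + ((-2)) * c 3 6 + (1) * c 4 5 = 0 := by
    have h := rl2_jac hc 2 3 4 (by norm_num) (by norm_num) (by norm_num)
    simp only [Nat.reduceAdd, Nat.cast_ofNat, Nat.cast_one] at h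
    rw [hc.anti 4 5 (by norm_num) (by norm_num)] at h
    linear_combination h
  have h1_2_7 : ((-6) + (-1) * r) * c 1 7 + (5) * c 1 9 + (8 + 1 * r) * c 2 7 + ((-6)) * c 2 8 + ((-1)) * c 3 7 = 0 := by
    have h := rl2_jac hc 1 2 7 (by norm_num) (by norm_num) (by norm_num)
    simp only [Nat.reduceAdd, Nat.cast_ofNat, Nat.cast_one] at h
    rw [z2] at h
    linear_combination h
  have h1_3_6 : (3) * c 1 9 + (8 + 1 * r) * c 3 6 + ((-5)) * c 3 7 + ((-2)) * c 4 6 = 0 := by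
    have h := rl2_jac hc 1 3 6 (by norm_num) (by norm_num) (by norm_num)
    simp only [Nat.reduceAdd, Nat.cast_ofNat, Nat.cast_one] at h
    rw [z3, z6] at h
    linear_combination h
  have h1_4_5 : (1) * c 1 9 + (8 + 1 * r) * c 4 5 + ((-4)) * c 4 6 = 0 := by
    have h := rl2_jac hc 1 4 5 (by norm_num) (by norm_num) (by norm_num)
    simp only [Nat.reduceAdd, Nat.cast_ofNat, Nat.cast_one] at h
    rw [rl2_diag hp hc 5 (by norm_num), z4, z5] at h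
    linear_combination h
  have h1_2_8 : ((-7) + (-1) * r) * c 1 8 + (6) * c 1 10 + (9 + 1 * r) * c 2 8 + ((-7)) * c 2 9 + ((-1)) * c 3 8 = 0 := by
    have h := rl2_jac hc 1 2 8 (by norm_num) (by norm_num) (by norm_num)
    simp only [Nat.reduceAdd, Nat.cast_ofNat, Nat.cast_one] at h
    rw [z2] at h
    linear_combination h
  have h1_3_7 : ((-5) + (-1) * r) * c 1 7 + (4) * c 1 10 + (9 + 1 * r) * c 3 7 + ((-6)) * c 3 8 + ((-2)) * c 4 7 = 0 := by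
    have h := rl2_jac hc 1 3 7 (by norm_num) (by norm_num) (by norm_num)
    simp only [Nat.reduceAdd, Nat.cast_ofNat, Nat.cast_one] at h
    rw [z3] at h
    linear_combination h
  have h1_4_6 : (2) * c 1 10 + (9 + 1 * r) * c 4 6 + ((-5)) * c 4 7 + ((-3)) * c 5 6 = 0 := by
    have h := rl2_jac hc 1 4 6 (by norm_num) (by norm_num) (by norm_num)
    simp only [Nat.reduceAdd, Nat.cast_ofNat, Nat.cast_one] at h
    rw [z4, z6] at h
    linear_combination h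
  have h2_3_6 : ((-1) + 1 * r) * c 2 3 + ((-5) + (-1) * r) * c 2 6 + (3) * c 2 9 + (7 + 1 * r) * c 3 6 + ((-4)) * c 3 8 + ((-1)) * c 5 6 = 0 := by
    have h := rl2_jac hc 2 3 6 (by norm_num) (by norm_num) (by norm_num)
    simp only [Nat.reduceAdd, Nat.cast_ofNat, Nat.cast_one] at h
    linear_combination h
  have h1_2_9 : ((-8) + (-1) * r) * c 1 9 + (7) * c 1 11 + (10 + 1 * r) * c 2 9 + ((-8)) * c 2 10 + ((-1)) * c 3 9 = 0 := by
    have h := rl2_jac hc 1 2 9 (by norm_num) (by norm_num) (by norm_num)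
    simp only [Nat.reduceAdd, Nat.cast_ofNat, Nat.cast_one] at h
    rw [z2] at h
    linear_combination h
  have h1_3_8 : ((-6) + (-1) * r) * c 1 8 + (5) * c 1 11 + (10 + 1 * r) * c 3 8 + ((-7)) * c 3 9 + ((-2)) * c 4 8 = 0 := by
    have h := rl2_jac hc 1 3 8 (by norm_num) (by norm_num) (by norm_num)
    simp only [Nat.reduceAdd, Nat.cast_ofNat, Nat.cast_one] at h
    rw [z3] at h
    linear_combination h
  have h1_4_7 : ((-4) + (-1) * r) * c 1 7 + (3) * c 1 11 + (10 + 1 * r) * c 4 7 + ((-6)) * c 4 8 + ((-3)) * c 5 7 = 0 := by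
    have h := rl2_jac hc 1 4 7 (by norm_num) (by norm_num) (by norm_num)
    simp only [Nat.reduceAdd, Nat.cast_ofNat, Nat.cast_one] at h
    rw [z4] at h
    linear_combination h
  have h1_5_6 : (1) * c 1 11 + (10 + 1 * r) * c 5 6 + ((-5)) * c 5 7 = 0 := by
    have h := rl2_jac hc 1 5 6 (by norm_num) (by norm_num) (by norm_num)
    simp only [Nat.reduceAdd, Nat.cast_ofNat, Nat.cast_one] at h
    rw [rl2_diag hp hc 6 (by norm_num), z5, z6] at h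
    linear_combination h
  have h3_4_5 : (2 + 1 * r) * c 3 4 + ((-4) + (-1) * r) * c 3 5 + (1) * c 3 9 + (6 + 1 * r) * c 4 5 + ((-2)) * c 4 8 + (1) * c 5 7 = 0 := by
    have h := rl2_jac hc 3 4 5 (by norm_num) (by norm_num) (by norm_num)
    simp only [Nat.reduceAdd, Nat.cast_ofNat, Nat.cast_one] at h
    rw [hc.anti 5 7 (by norm_num) (by norm_num)] at h
    linear_combination h
  have h1_2_10 : ((-9) + (-1) * r) * c 1 10 + (8) * c 1 12 + (11 + 1 * r) * c 2 10 + ((-9)) * c 2 11 + ((-1)) * c 3 10 = 0 := by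
    have h := rl2_jac hc 1 2 10 (by norm_num) (by norm_num) (by norm_num)
    simp only [Nat.reduceAdd, Nat.cast_ofNat, Nat.cast_one] at h
    rw [z2] at h
    linear_combination h
  have h1_3_9 : ((-7) + (-1) * r) * c 1 9 + (6) * c 1 12 + (11 + 1 * r) * c 3 9 + ((-8)) * c 3 10 + ((-2)) * c 4 9 = 0 := by
    have h := rl2_jac hc 1 3 9 (by norm_num) (by norm_num) (by norm_num)
    simp only [Nat.reduceAdd, Nat.cast_ofNat, Nat.cast_one] at h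
    rw [z3] at h
    linear_combination h
  have h1_4_8 : ((-5) + (-1) * r) * c 1 8 + (4) * c 1 12 + (11 + 1 * r) * c 4 8 + ((-7)) * c 4 9 + ((-3)) * c 5 8 = 0 := by
    have h := rl2_jac hc 1 4 8 (by norm_num) (by norm_num) (by norm_num)
    simp only [Nat.reduceAdd, Nat.cast_ofNat, Nat.cast_one] at h
    rw [z4] at h
    linear_combination h
  have h1_5_7 : ((-3) + (-1) * r) * c 1 7 + (2) * c 1 12 + (11 + 1 * r) * c 5 7 + ((-6)) * c 5 8 + ((-4)) * c 6 7 = 0 := by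
    have h := rl2_jac hc 1 5 7 (by norm_num) (by norm_num) (by norm_num)
    simp only [Nat.reduceAdd, Nat.cast_ofNat, Nat.cast_one] at h
    rw [z5] at h
    linear_combination h
  have h2_3_8 : ((-3) + 1 * r) * c 2 3 + ((-7) + (-1) * r) * c 2 8 + (5) * c 2 11 + (9 + 1 * r) * c 3 8 + ((-6)) * c 3 10 + ((-1)) * c 5 8 = 0 := by
    have h := rl2_jac hc 2 3 8 (by norm_num) (by norm_num) (by norm_num)
    simp only [Nat.reduceAdd, Nat.cast_ofNat, Nat.cast_one] at h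
    linear_combination h
  have h1_2_11 : ((-10) + (-1) * r) * c 1 11 + (9) * c 1 13 + (12 + 1 * r) * c 2 11 + ((-10)) * c 2 12 + ((-1)) * c 3 11 = 0 := by
    have h := rl2_jac hc 1 2 11 (by norm_num) (by norm_num) (by norm_num)
    simp only [Nat.reduceAdd, Nat.cast_ofNat, Nat.cast_one] at h
    rw [z2] at h
    linear_combination h
  have h1_3_10 : ((-8) + (-1) * r) * c 1 10 + (7) * c 1 13 + (12 + 1 * r) * c 3 10 + ((-9)) * c 3 11 + ((-2)) * c 4 10 = 0 := by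
    have h := rl2_jac hc 1 3 10 (by norm_num) (by norm_num) (by norm_num)
    simp only [Nat.reduceAdd, Nat.cast_ofNat, Nat.cast_one] at h
    rw [z3] at h
    linear_combination h
  have h1_4_9 : ((-6) + (-1) * r) * c 1 9 + (5) * c 1 13 + (12 + 1 * r) * c 4 9 + ((-8)) * c 4 10 + ((-3)) * c 5 9 = 0 := by
    have h := rl2_jac hc 1 4 9 (by norm_num) (by norm_num) (by norm_num)
    simp only [Nat.reduceAdd, Nat.cast_ofNat, Nat.cast_one] at h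
    rw [z4] at h
    linear_combination h
  have h1_5_8 : ((-4) + (-1) * r) * c 1 8 + (3) * c 1 13 + (12 + 1 * r) * c 5 8 + ((-7)) * c 5 9 + ((-4)) * c 6 8 = 0 := by
    have h := rl2_jac hc 1 5 8 (by norm_num) (by norm_num) (by norm_num)
    simp only [Nat.reduceAdd, Nat.cast_ofNat, Nat.cast_one] at h
    rw [z5] at h
    linear_combination h
  have h1_6_7 : ((-2) + (-1) * r) * c 1 7 + (1) * c 1 13 + (12 + 1 * r) * c 6 7 + ((-6)) * c 6 8 = 0 := by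
    have h := rl2_jac hc 1 6 7 (by norm_num) (by norm_num) (by norm_num)
    simp only [Nat.reduceAdd, Nat.cast_ofNat, Nat.cast_one] at h
    rw [rl2_diag hp hc 7 (by norm_num), z6] at h
    linear_combination h
  have h1_2_12 : ((-11) + (-1) * r) * c 1 12 + (10) * c 1 14 + (13 + 1 * r) * c 2 12 + ((-11)) * c 2 13 + ((-1)) * c 3 12 = 0 := by
    have h := rl2_jac hc 1 2 12 (by norm_num) (by norm_num) (by norm_num)
    simp only [Nat.reduceAdd, Nat.cast_ofNat, Nat.cast_one] at h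
    rw [z2] at h
    linear_combination h
  have h1_3_11 : ((-9) + (-1) * r) * c 1 11 + (8) * c 1 14 + (13 + 1 * r) * c 3 11 + ((-10)) * c 3 12 + ((-2)) * c 4 11 = 0 := by
    have h := rl2_jac hc 1 3 11 (by norm_num) (by norm_num) (by norm_num)
    simp only [Nat.reduceAdd, Nat.cast_ofNat, Nat.cast_one] at h
    rw [z3] at h
    linear_combination h
  have h1_4_10 : ((-7) + (-1) * r) * c 1 10 + (6) * c 1 14 + (13 + 1 * r) * c 4 10 + ((-9)) * c 4 11 + ((-3)) * c 5 10 = 0 := by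
    have h := rl2_jac hc 1 4 10 (by norm_num) (by norm_num) (by norm_num)
    simp only [Nat.reduceAdd, Nat.cast_ofNat, Nat.cast_one] at h
    rw [z4] at h
    linear_combination h
  have h1_5_9 : ((-5) + (-1) * r) * c 1 9 + (4) * c 1 14 + (13 + 1 * r) * c 5 9 + ((-8)) * c 5 10 + ((-4)) * c 6 9 = 0 := by
    have h := rl2_jac hc 1 5 9 (by norm_num) (by norm_num) (by norm_num)
    simp only [Nat.reduceAdd, Nat.cast_ofNat, Nat.cast_one] at h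
    rw [z5] at h
    linear_combination h
  have h2_3_10 : ((-5) + 1 * r) * c 2 3 + ((-9) + (-1) * r) * c 2 10 + (7) * c 2 13 + (11 + 1 * r) * c 3 10 + ((-8)) * c 3 12 + ((-1)) * c 5 10 = 0 := by
    have h := rl2_jac hc 2 3 10 (by norm_num) (by norm_num) (by norm_num)
    simp only [Nat.reduceAdd, Nat.cast_ofNat, Nat.cast_one] at h
    linear_combination h
  have h4_5_6 : (3 + 1 * r) * c 4 5 + ((-5) + (-1) * r) * c 4 6 + (1) * c 4 11 + (7 + 1 * r) * c 5 6 + ((-2)) * c 5 10 + (1) * c 6 9 = 0 := by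
    have h := rl2_jac hc 4 5 6 (by norm_num) (by norm_num) (by norm_num)
    simp only [Nat.reduceAdd, Nat.cast_ofNat, Nat.cast_one] at h
    rw [hc.anti 6 9 (by norm_num) (by norm_num)] at h
    linear_combination h
  have e1 := rl2_w12 r h1_2_3 h1_2_4 h1_2_5 h1_2_6 h1_2_7 h1_2_8 h1_3_4 h1_3_5 h1_3_6 h1_3_7 h1_3_8 h1_4_5 h1_4_6 h1_4_7 h1_5_6 h2_3_4 h2_3_6 h3_4_5
  have e2 := rl2_w15 r h1_2_3 h1_2_4 h1_2_5 h1_2_6 h1_2_7 h1_2_8 h1_2_9 h1_2_10 h1_2_11 h1_2_12 h1_3_4 h1_3_5 h1_3_6 h1_3_7 h1_3_8 h1_3_9 h1_3_10 h1_3_11 h1_4_5 h1_4_6 h1_4_7 h1_4_8 h1_4_9 h1_4_10 h1_5_6 h1_5_7 h1_5_8 h1_5_9 h1_6_7 h2_3_4 h2_3_6 h2_3_8 h2_3_10 h4_5_6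
  have u2 : ((2 : ℕ) : ZMod p) ≠ 0 := cast_ne_zero (by norm_num) (by omega)
  have u3 : ((3 : ℕ) : ZMod p) ≠ 0 := cast_ne_zero (by norm_num) (by omega)
  have u5 : ((5 : ℕ) : ZMod p) ≠ 0 := cast_ne_zero (by norm_num) (by omega)
  have u7 : ((7 : ℕ) : ZMod p) ≠ 0 := cast_ne_zero (by norm_num) (by omega)
  have u11 : ((11 : ℕ) : ZMod p) ≠ 0 := cast_ne_zero (by norm_num) (by omega)
  have u13 : ((13 : ℕ) : ZMod p) ≠ 0 := cast_ne_zero (by norm_num) (by omega)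
  have hu : ((2 : ℕ) : ZMod p) ^ 6 * ((3 : ℕ) : ZMod p) ^ 4 * ((5 : ℕ) : ZMod p) ^ 1 * ((7 : ℕ) : ZMod p) ^ 1 * ((11 : ℕ) : ZMod p) ^ 1 * ((13 : ℕ) : ZMod p) ^ 1 ≠ 0 :=
    (mul_ne_zero (mul_ne_zero (mul_ne_zero (mul_ne_zero (mul_ne_zero (pow_ne_zero 6 u2) (pow_ne_zero 4 u3)) (pow_ne_zero 1 u5)) (pow_ne_zero 1 u7)) (pow_ne_zero 1 u11)) (pow_ne_zero 1 u13))
  refine mul_left_cancel₀ hu ?_
  push_cast
  linear_combination ((-15475356) + (-8723075) * r + (-2074170) * r ^ 2 + (-253329) * r ^ 3 + (-15816) * r ^ 4 + (-370) * r ^ 5) * e1 + (1846 + 405 * r + 37 * r ^ 2) * e2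

end Pool.Agent.P.MP_e06b60_al.R
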