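import Mathlib
import Pool.Agent.P.MP_e06b60_al.RA2

namespace Pool.Agent.P.MP_e06b60_al.R

open PowerSeries
open scoped commutatorElement

variable {p : ℕ} [Fact p.Prime]

theorem rl3_cases : ∀ r : ZMod 7, r = 0 ∨ r = 1 ∨ r = 2 ∨ r = 3 ∨ r = 4 ∨ r = 5 ∨ r = 6 := by
  decide

theorem rl3_seven : (7 : ZMod 7) = 0 := by decide

theorem rl3_diag {r : ZMod 7} {c : ℕ → ℕ → ZMod 7} (hc : Coc r c) (i : ℕ) (hi : 1 ≤ i) :
    c i i = 0 := by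
  linear_combination 4 * hc.anti i i hi hi - c i i * rl3_seven

theorem rl3_t_1_2_3 {r : ZMod 7} {c : ℕ → ℕ → ZMod 7} (hc : Coc r c) :
    (0 + r) * c 1 2 + (-2 - r) * c 1 3 + (1) * c 1 5 + (4 + r) * c 2 3 + (-2) * c 2 4 = 0 := by
  have h := hc.jac 1 2 3 (by omega) (by omega) (by omega)
  simp only [Nat.reduceAdd, Nat.cast_ofNat, Nat.cast_one] at h
  linear_combination h - (-1) * rl3_diag hc 3 (by omega) - (-1) * hc.anti 1 5 (by omega) (by omega) - (2) * hc.anti 2 4 (by omega) (by omega) - (2 + r) * hc.anti 1 3 (by omega) (by omega)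

theorem rl3_t_1_2_4 {r : ZMod 7} {c : ℕ → ℕ → ZMod 7} (hc : Coc r c) :
    (-1 + r) * c 1 2 + (-3 - r) * c 1 4 + (2) * c 1 6 + (5 + r) * c 2 4 + (-3) * c 2 5 + (-1) * c 3 4 = 0 := by
  have h := hc.jac 1 2 4 (by omega) (by omega) (by omega)
  simp only [Nat.reduceAdd, Nat.cast_ofNat, Nat.cast_one] at h
  linear_combination h - (-2) * hc.anti 1 6 (by omega) (by omega) - (3) * hc.anti 2 5 (by omega) (by omega) - (3 + r) * hc.anti 1 4 (by omega) (by omega)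

theorem rl3_t_1_2_5 {r : ZMod 7} {c : ℕ → ℕ → ZMod 7} (hc : Coc r c) :
    (-2 + r) * c 1 2 + (-4 - r) * c 1 5 + (3) * c 1 7 + (6 + r) * c 2 5 + (-4) * c 2 6 + (-1) * c 3 5 = 0 := by
  have h := hc.jac 1 2 5 (by omega) (by omega) (by omega)
  simp only [Nat.reduceAdd, Nat.cast_ofNat, Nat.cast_one] at h
  linear_combination h - (-3) * hc.anti 1 7 (by omega) (by omega) - (4) * hc.anti 2 6 (by omega) (by omega) - (4 + r) * hc.anti 1 5 (by omega) (by omega)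

theorem rl3_t_1_2_6 {r : ZMod 7} {c : ℕ → ℕ → ZMod 7} (hc : Coc r c) :
    (-3 + r) * c 1 2 + (-5 - r) * c 1 6 + (4) * c 1 8 + (7 + r) * c 2 6 + (-5) * c 2 7 + (-1) * c 3 6 = 0 := by
  have h := hc.jac 1 2 6 (by omega) (by omega) (by omega)
  simp only [Nat.reduceAdd, Nat.cast_ofNat, Nat.cast_one] at h
  linear_combination h - (-4) * hc.anti 1 8 (by omega) (by omega) - (5) * hc.anti 2 7 (by omega) (by omega) - (5 + r) * hc.anti 1 6 (by omega) (by omega)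

theorem rl3_t_1_2_7 {r : ZMod 7} {c : ℕ → ℕ → ZMod 7} (hc : Coc r c) :
    (-4 + r) * c 1 2 + (-6 - r) * c 1 7 + (5) * c 1 9 + (8 + r) * c 2 7 + (-6) * c 2 8 + (-1) * c 3 7 = 0 := by
  have h := hc.jac 1 2 7 (by omega) (by omega) (by omega)
  simp only [Nat.reduceAdd, Nat.cast_ofNat, Nat.cast_one] at h
  linear_combination h - (-5) * hc.anti 1 9 (by omega) (by omega) - (6) * hc.anti 2 8 (by omega) (by omega) - (6 + r) * hc.anti 1 7 (by omega) (by omega)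

theorem rl3_t_1_2_8 {r : ZMod 7} {c : ℕ → ℕ → ZMod 7} (hc : Coc r c) :
    (-5 + r) * c 1 2 + (-7 - r) * c 1 8 + (6) * c 1 10 + (9 + r) * c 2 8 + (-7) * c 2 9 + (-1) * c 3 8 = 0 := by
  have h := hc.jac 1 2 8 (by omega) (by omega) (by omega)
  simp only [Nat.reduceAdd, Nat.cast_ofNat, Nat.cast_one] at h
  linear_combination h - (-6) * hc.anti 1 10 (by omega) (by omega) - (7) * hc.anti 2 9 (by omega) (by omega) - (7 + r) * hc.anti 1 8 (by omega) (by omega)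

theorem rl3_t_1_2_9 {r : ZMod 7} {c : ℕ → ℕ → ZMod 7} (hc : Coc r c) :
    (-6 + r) * c 1 2 + (-8 - r) * c 1 9 + (7) * c 1 11 + (10 + r) * c 2 9 + (-8) * c 2 10 + (-1) * c 3 9 = 0 := by
  have h := hc.jac 1 2 9 (by omega) (by omega) (by omega)
  simp only [Nat.reduceAdd, Nat.cast_ofNat, Nat.cast_one] at h
  linear_combination h - (-7) * hc.anti 1 11 (by omega) (by omega) - (8) * hc.anti 2 10 (by omega) (by omega) - (8 + r) * hc.anti 1 9 (by omega) (by omega)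

theorem rl3_t_1_2_10 {r : ZMod 7} {c : ℕ → ℕ → ZMod 7} (hc : Coc r c) :
    (-7 + r) * c 1 2 + (-9 - r) * c 1 10 + (8) * c 1 12 + (11 + r) * c 2 10 + (-9) * c 2 11 + (-1) * c 3 10 = 0 := by
  have h := hc.jac 1 2 10 (by omega) (by omega) (by omega)
  simp only [Nat.reduceAdd, Nat.cast_ofNat, Nat.cast_one] at h
  linear_combination h - (-8) * hc.anti 1 12 (by omega) (by omega) - (9) * hc.anti 2 11 (by omega) (by omega) - (9 + r) * hc.anti 1 10 (by omega) (by omega)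

theorem rl3_t_1_2_12 {r : ZMod 7} {c : ℕ → ℕ → ZMod 7} (hc : Coc r c) :
    (-9 + r) * c 1 2 + (-11 - r) * c 1 12 + (10) * c 1 14 + (13 + r) * c 2 12 + (-11) * c 2 13 + (-1) * c 3 12 = 0 := by
  have h := hc.jac 1 2 12 (by omega) (by omega) (by omega)
  simp only [Nat.reduceAdd, Nat.cast_ofNat, Nat.cast_one] at h
  linear_combination h - (-10) * hc.anti 1 14 (by omega) (by omega) - (11) * hc.anti 2 13 (by omega) (by omega) - (11 + r) * hc.anti 1 12 (by omega) (by omega)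

theorem rl3_t_1_3_5 {r : ZMod 7} {c : ℕ → ℕ → ZMod 7} (hc : Coc r c) :
    (-1 + r) * c 1 3 + (-3 - r) * c 1 5 + (2) * c 1 8 + (7 + r) * c 3 5 + (-4) * c 3 6 + (-2) * c 4 5 = 0 := by
  have h := hc.jac 1 3 5 (by omega) (by omega) (by omega)
  simp only [Nat.reduceAdd, Nat.cast_ofNat, Nat.cast_one] at h
  linear_combination h - (-2) * hc.anti 1 8 (by omega) (by omega) - (4) * hc.anti 3 6 (by omega) (by omega) - (3 + r) * hc.anti 1 5 (by omega) (by omega)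

theorem rl3_t_1_3_6 {r : ZMod 7} {c : ℕ → ℕ → ZMod 7} (hc : Coc r c) :
    (-2 + r) * c 1 3 + (-4 - r) * c 1 6 + (3) * c 1 9 + (8 + r) * c 3 6 + (-5) * c 3 7 + (-2) * c 4 6 = 0 := by
  have h := hc.jac 1 3 6 (by omega) (by omega) (by omega)
  simp only [Nat.reduceAdd, Nat.cast_ofNat, Nat.cast_one] at h
  linear_combination h - (-3) * hc.anti 1 9 (by omega) (by omega) - (5) * hc.anti 3 7 (by omega) (by omega) - (4 + r) * hc.anti 1 6 (by omega) (by omega)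

theorem rl3_t_1_3_7 {r : ZMod 7} {c : ℕ → ℕ → ZMod 7} (hc : Coc r c) :
    (-3 + r) * c 1 3 + (-5 - r) * c 1 7 + (4) * c 1 10 + (9 + r) * c 3 7 + (-6) * c 3 8 + (-2) * c 4 7 = 0 := by
  have h := hc.jac 1 3 7 (by omega) (by omega) (by omega)
  simp only [Nat.reduceAdd, Nat.cast_ofNat, Nat.cast_one] at h
  linear_combination h - (-4) * hc.anti 1 10 (by omega) (by omega) - (6) * hc.anti 3 8 (by omega) (by omega) - (5 + r) * hc.anti 1 7 (by omega) (by omega)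

theorem rl3_t_1_3_8 {r : ZMod 7} {c : ℕ → ℕ → ZMod 7} (hc : Coc r c) :
    (-4 + r) * c 1 3 + (-6 - r) * c 1 8 + (5) * c 1 11 + (10 + r) * c 3 8 + (-7) * c 3 9 + (-2) * c 4 8 = 0 := by
  have h := hc.jac 1 3 8 (by omega) (by omega) (by omega)
  simp only [Nat.reduceAdd, Nat.cast_ofNat, Nat.cast_one] at h
  linear_combination h - (-5) * hc.anti 1 11 (by omega) (by omega) - (7) * hc.anti 3 9 (by omega) (by omega) - (6 + r) * hc.anti 1 8 (by omega) (by omega)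

theorem rl3_t_1_3_9 {r : ZMod 7} {c : ℕ → ℕ → ZMod 7} (hc : Coc r c) :
    (-5 + r) * c 1 3 + (-7 - r) * c 1 9 + (6) * c 1 12 + (11 + r) * c 3 9 + (-8) * c 3 10 + (-2) * c 4 9 = 0 := by
  have h := hc.jac 1 3 9 (by omega) (by omega) (by omega)
  simp only [Nat.reduceAdd, Nat.cast_ofNat, Nat.cast_one] at h
  linear_combination h - (-6) * hc.anti 1 12 (by omega) (by omega) - (8) * hc.anti 3 10 (by omega) (by omega) - (7 + r) * hc.anti 1 9 (by omega) (by omega)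

theorem rl3_t_1_4_5 {r : ZMod 7} {c : ℕ → ℕ → ZMod 7} (hc : Coc r c) :
    (0 + r) * c 1 4 + (-2 - r) * c 1 5 + (1) * c 1 9 + (8 + r) * c 4 5 + (-4) * c 4 6 = 0 := by
  have h := hc.jac 1 4 5 (by omega) (by omega) (by omega)
  simp only [Nat.reduceAdd, Nat.cast_ofNat, Nat.cast_one] at h
  linear_combination h - (-3) * rl3_diag hc 5 (by omega) - (-1) * hc.anti 1 9 (by omega) (by omega) - (4) * hc.anti 4 6 (by omega) (by omega) - (2 + r) * hc.anti 1 5 (by omega) (by omega)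

theorem rl3_t_1_4_6 {r : ZMod 7} {c : ℕ → ℕ → ZMod 7} (hc : Coc r c) :
    (-1 + r) * c 1 4 + (-3 - r) * c 1 6 + (2) * c 1 10 + (9 + r) * c 4 6 + (-5) * c 4 7 + (-3) * c 5 6 = 0 := by
  have h := hc.jac 1 4 6 (by omega) (by omega) (by omega)
  simp only [Nat.reduceAdd, Nat.cast_ofNat, Nat.cast_one] at h
  linear_combination h - (-2) * hc.anti 1 10 (by omega) (by omega) - (5) * hc.anti 4 7 (by omega) (by omega) - (3 + r) * hc.anti 1 6 (by omega) (by omega)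

theorem rl3_t_1_4_7 {r : ZMod 7} {c : ℕ → ℕ → ZMod 7} (hc : Coc r c) :
    (-2 + r) * c 1 4 + (-4 - r) * c 1 7 + (3) * c 1 11 + (10 + r) * c 4 7 + (-6) * c 4 8 + (-3) * c 5 7 = 0 := by
  have h := hc.jac 1 4 7 (by omega) (by omega) (by omega)
  simp only [Nat.reduceAdd, Nat.cast_ofNat, Nat.cast_one] at h
  linear_combination h - (-3) * hc.anti 1 11 (by omega) (by omega) - (6) * hc.anti 4 8 (by omega) (by omega) - (4 + r) * hc.anti 1 7 (by omega) (by omega)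

theorem rl3_t_1_5_6 {r : ZMod 7} {c : ℕ → ℕ → ZMod 7} (hc : Coc r c) :
    (0 + r) * c 1 5 + (-2 - r) * c 1 6 + (1) * c 1 11 + (10 + r) * c 5 6 + (-5) * c 5 7 = 0 := by
  have h := hc.jac 1 5 6 (by omega) (by omega) (by omega)
  simp only [Nat.reduceAdd, Nat.cast_ofNat, Nat.cast_one] at h
  linear_combination h - (-4) * rl3_diag hc 6 (by omega) - (-1) * hc.anti 1 11 (by omega) (by omega) - (5) * hc.anti 5 7 (by omega) (by omega) - (2 + r) * hc.anti 1 6 (by omega) (by omega)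

theorem rl3_t_1_5_7 {r : ZMod 7} {c : ℕ → ℕ → ZMod 7} (hc : Coc r c) :
    (-1 + r) * c 1 5 + (-3 - r) * c 1 7 + (2) * c 1 12 + (11 + r) * c 5 7 + (-6) * c 5 8 + (-4) * c 6 7 = 0 := by
  have h := hc.jac 1 5 7 (by omega) (by omega) (by omega)
  simp only [Nat.reduceAdd, Nat.cast_ofNat, Nat.cast_one] at h
  linear_combination h - (-2) * hc.anti 1 12 (by omega) (by omega) - (6) * hc.anti 5 8 (by omega) (by omega) - (3 + r) * hc.anti 1 7 (by omega) (by omega)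

theorem rl3_t_1_5_8 {r : ZMod 7} {c : ℕ → ℕ → ZMod 7} (hc : Coc r c) :
    (-2 + r) * c 1 5 + (-4 - r) * c 1 8 + (3) * c 1 13 + (12 + r) * c 5 8 + (-7) * c 5 9 + (-4) * c 6 8 = 0 := by
  have h := hc.jac 1 5 8 (by omega) (by omega) (by omega)
  simp only [Nat.reduceAdd, Nat.cast_ofNat, Nat.cast_one] at h
  linear_combination h - (-3) * hc.anti 1 13 (by omega) (by omega) - (7) * hc.anti 5 9 (by omega) (by omega) - (4 + r) * hc.anti 1 8 (by omega) (by omega)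

theorem rl3_t_1_6_7 {r : ZMod 7} {c : ℕ → ℕ → ZMod 7} (hc : Coc r c) :
    (0 + r) * c 1 6 + (-2 - r) * c 1 7 + (1) * c 1 13 + (12 + r) * c 6 7 + (-6) * c 6 8 = 0 := by
  have h := hc.jac 1 6 7 (by omega) (by omega) (by omega)
  simp only [Nat.reduceAdd, Nat.cast_ofNat, Nat.cast_one] at h
  linear_combination h - (-5) * rl3_diag hc 7 (by omega) - (-1) * hc.anti 1 13 (by omega) (by omega) - (6) * hc.anti 6 8 (by omega) (by omega) - (2 + r) * hc.anti 1 7 (by omega) (by omega)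

theorem rl3_t_1_6_8 {r : ZMod 7} {c : ℕ → ℕ → ZMod 7} (hc : Coc r c) :
    (-1 + r) * c 1 6 + (-3 - r) * c 1 8 + (2) * c 1 14 + (13 + r) * c 6 8 + (-7) * c 6 9 + (-5) * c 7 8 = 0 := by
  have h := hc.jac 1 6 8 (by omega) (by omega) (by omega)
  simp only [Nat.reduceAdd, Nat.cast_ofNat, Nat.cast_one] at h
  linear_combination h - (-2) * hc.anti 1 14 (by omega) (by omega) - (7) * hc.anti 6 9 (by omega) (by omega) - (3 + r) * hc.anti 1 8 (by omega) (by omega)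

theorem rl3_t_2_3_4 {r : ZMod 7} {c : ℕ → ℕ → ZMod 7} (hc : Coc r c) :
    (1 + r) * c 2 3 + (-3 - r) * c 2 4 + (1) * c 2 7 + (5 + r) * c 3 4 + (-2) * c 3 6 + (1) * c 4 5 = 0 := by
  have h := hc.jac 2 3 4 (by omega) (by omega) (by omega)
  simp only [Nat.reduceAdd, Nat.cast_ofNat, Nat.cast_one] at h
  linear_combination h - (-1) * hc.anti 4 5 (by omega) (by omega) - (-1) * hc.anti 2 7 (by omega) (by omega) - (2) * hc.anti 3 6 (by omega) (by omega) - (3 + r) * hc.anti 2 4 (by omega) (by omega)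

theorem rl3_t_2_3_5 {r : ZMod 7} {c : ℕ → ℕ → ZMod 7} (hc : Coc r c) :
    (0 + r) * c 2 3 + (-4 - r) * c 2 5 + (2) * c 2 8 + (6 + r) * c 3 5 + (-3) * c 3 7 = 0 := by
  have h := hc.jac 2 3 5 (by omega) (by omega) (by omega)
  simp only [Nat.reduceAdd, Nat.cast_ofNat, Nat.cast_one] at h
  linear_combination h - (-1) * rl3_diag hc 5 (by omega) - (-2) * hc.anti 2 8 (by omega) (by omega) - (3) * hc.anti 3 7 (by omega) (by omega) - (4 + r) * hc.anti 2 5 (by omega) (by omega)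

theorem rl3_t_2_3_6 {r : ZMod 7} {c : ℕ → ℕ → ZMod 7} (hc : Coc r c) :
    (-1 + r) * c 2 3 + (-5 - r) * c 2 6 + (3) * c 2 9 + (7 + r) * c 3 6 + (-4) * c 3 8 + (-1) * c 5 6 = 0 := by
  have h := hc.jac 2 3 6 (by omega) (by omega) (by omega)
  simp only [Nat.reduceAdd, Nat.cast_ofNat, Nat.cast_one] at h
  linear_combination h - (-3) * hc.anti 2 9 (by omega) (by omega) - (4) * hc.anti 3 8 (by omega) (by omega) - (5 + r) * hc.anti 2 6 (by omega) (by omega)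

theorem rl3_t_2_3_7 {r : ZMod 7} {c : ℕ → ℕ → ZMod 7} (hc : Coc r c) :
    (-2 + r) * c 2 3 + (-6 - r) * c 2 7 + (4) * c 2 10 + (8 + r) * c 3 7 + (-5) * c 3 9 + (-1) * c 5 7 = 0 := by
  have h := hc.jac 2 3 7 (by omega) (by omega) (by omega)
  simp only [Nat.reduceAdd, Nat.cast_ofNat, Nat.cast_one] at h
  linear_combination h - (-4) * hc.anti 2 10 (by omega) (by omega) - (5) * hc.anti 3 9 (by omega) (by omega) - (6 + r) * hc.anti 2 7 (by omega) (by omega)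

theorem rl3_t_2_3_8 {r : ZMod 7} {c : ℕ → ℕ → ZMod 7} (hc : Coc r c) :
    (-3 + r) * c 2 3 + (-7 - r) * c 2 8 + (5) * c 2 11 + (9 + r) * c 3 8 + (-6) * c 3 10 + (-1) * c 5 8 = 0 := by
  have h := hc.jac 2 3 8 (by omega) (by omega) (by omega)
  simp only [Nat.reduceAdd, Nat.cast_ofNat, Nat.cast_one] at h
  linear_combination h - (-5) * hc.anti 2 11 (by omega) (by omega) - (6) * hc.anti 3 10 (by omega) (by omega) - (7 + r) * hc.anti 2 8 (by omega) (by omega)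

theorem rl3_t_2_3_10 {r : ZMod 7} {c : ℕ → ℕ → ZMod 7} (hc : Coc r c) :
    (-5 + r) * c 2 3 + (-9 - r) * c 2 10 + (7) * c 2 13 + (11 + r) * c 3 10 + (-8) * c 3 12 + (-1) * c 5 10 = 0 := by
  have h := hc.jac 2 3 10 (by omega) (by omega) (by omega)
  simp only [Nat.reduceAdd, Nat.cast_ofNat, Nat.cast_one] at h
  linear_combination h - (-7) * hc.anti 2 13 (by omega) (by omega) - (8) * hc.anti 3 12 (by omega) (by omega) - (9 + r) * hc.anti 2 10 (by omega) (by omega)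

theorem rl3_t_2_4_5 {r : ZMod 7} {c : ℕ → ℕ → ZMod 7} (hc : Coc r c) :
    (1 + r) * c 2 4 + (-3 - r) * c 2 5 + (1) * c 2 9 + (7 + r) * c 4 5 + (-3) * c 4 7 + (2) * c 5 6 = 0 := by
  have h := hc.jac 2 4 5 (by omega) (by omega) (by omega)
  simp only [Nat.reduceAdd, Nat.cast_ofNat, Nat.cast_one] at h
  linear_combination h - (-2) * hc.anti 5 6 (by omega) (by omega) - (-1) * hc.anti 2 9 (by omega) (by omega) - (3) * hc.anti 4 7 (by omega) (by omega) - (3 + r) * hc.anti 2 5 (by omega) (by omega)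

theorem rl3_t_2_4_6 {r : ZMod 7} {c : ℕ → ℕ → ZMod 7} (hc : Coc r c) :
    (0 + r) * c 2 4 + (-4 - r) * c 2 6 + (2) * c 2 10 + (8 + r) * c 4 6 + (-4) * c 4 8 = 0 := by
  have h := hc.jac 2 4 6 (by omega) (by omega) (by omega)
  simp only [Nat.reduceAdd, Nat.cast_ofNat, Nat.cast_one] at h
  linear_combination h - (-2) * rl3_diag hc 6 (by omega) - (-2) * hc.anti 2 10 (by omega) (by omega) - (4) * hc.anti 4 8 (by omega) (by omega) - (4 + r) * hc.anti 2 6 (by omega) (by omega)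

theorem rl3_t_2_4_7 {r : ZMod 7} {c : ℕ → ℕ → ZMod 7} (hc : Coc r c) :
    (-1 + r) * c 2 4 + (-5 - r) * c 2 7 + (3) * c 2 11 + (9 + r) * c 4 7 + (-5) * c 4 9 + (-2) * c 6 7 = 0 := by
  have h := hc.jac 2 4 7 (by omega) (by omega) (by omega)
  simp only [Nat.reduceAdd, Nat.cast_ofNat, Nat.cast_one] at h
  linear_combination h - (-3) * hc.anti 2 11 (by omega) (by omega) - (5) * hc.anti 4 9 (by omega) (by omega) - (5 + r) * hc.anti 2 7 (by omega) (by omega)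

theorem rl3_t_2_5_6 {r : ZMod 7} {c : ℕ → ℕ → ZMod 7} (hc : Coc r c) :
    (1 + r) * c 2 5 + (-3 - r) * c 2 6 + (1) * c 2 11 + (9 + r) * c 5 6 + (-4) * c 5 8 + (3) * c 6 7 = 0 := by
  have h := hc.jac 2 5 6 (by omega) (by omega) (by omega)
  simp only [Nat.reduceAdd, Nat.cast_ofNat, Nat.cast_one] at h
  linear_combination h - (-3) * hc.anti 6 7 (by omega) (by omega) - (-1) * hc.anti 2 11 (by omega) (by omega) - (4) * hc.anti 5 8 (by omega) (by omega) - (3 + r) * hc.anti 2 6 (by omega) (by omega)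

theorem rl3_t_2_5_8 {r : ZMod 7} {c : ℕ → ℕ → ZMod 7} (hc : Coc r c) :
    (-1 + r) * c 2 5 + (-5 - r) * c 2 8 + (3) * c 2 13 + (11 + r) * c 5 8 + (-6) * c 5 10 + (-3) * c 7 8 = 0 := by
  have h := hc.jac 2 5 8 (by omega) (by omega) (by omega)
  simp only [Nat.reduceAdd, Nat.cast_ofNat, Nat.cast_one] at h
  linear_combination h - (-3) * hc.anti 2 13 (by omega) (by omega) - (6) * hc.anti 5 10 (by omega) (by omega) - (5 + r) * hc.anti 2 8 (by omega) (by omega)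

theorem rl3_t_3_4_6 {r : ZMod 7} {c : ℕ → ℕ → ZMod 7} (hc : Coc r c) :
    (1 + r) * c 3 4 + (-5 - r) * c 3 6 + (2) * c 3 10 + (7 + r) * c 4 6 + (-3) * c 4 9 + (1) * c 6 7 = 0 := by
  have h := hc.jac 3 4 6 (by omega) (by omega) (by omega)
  simp only [Nat.reduceAdd, Nat.cast_ofNat, Nat.cast_one] at h
  linear_combination h - (-1) * hc.anti 6 7 (by omega) (by omega) - (-2) * hc.anti 3 10 (by omega) (by omega) - (3) * hc.anti 4 9 (by omega) (by omega) - (5 + r) * hc.anti 3 6 (by omega) (by omega)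

theorem rl3_r0 (c : ℕ → ℕ → ZMod 7) (hc : Coc (0 : ZMod 7) c)
    (h1 : ∀ n, 2 ≤ n → n ≤ 6 → c 1 n = 0) :
    ((0 : ZMod 7) ^ 4 + 16 * 0 ^ 3 + 41 * 0 ^ 2 + 146 * 0 + 120) * c 2 3 =
      20 * (0 ^ 2 + 0 + 6) * c 3 4 := by
  linear_combination (1) * rl3_t_1_2_3 hc +
    (3) * rl3_t_1_3_5 hc +
    (-3) * rl3_t_2_3_4 hc +
    (3) * rl3_t_1_2_7 hc +
    (-1) * rl3_t_1_3_6 hc +
    (2) * rl3_t_1_4_5 hc +
    (2) * rl3_t_1_2_8 hc +
    (-1) * rl3_t_1_3_7 hc +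
    (3) * rl3_t_1_4_6 hc +
    (1) * rl3_t_1_3_8 hc +
    (2) * rl3_t_1_4_7 hc +
    (3) * rl3_t_1_5_6 hc +
    (1) * h1 2 (by omega) (by omega) +
    (-3) * h1 3 (by omega) (by omega) +
    (-2) * h1 5 (by omega) (by omega) +
    (-3) * h1 6 (by omega) (by omega) +
    ((3) * c 1 2 + (1) * c 1 3 + (1) * c 1 4 + (2) * c 1 5 + (2) * c 1 6 + (3) * c 1 7 + (2) * c 1 8 + (-2) * c 1 9 + (-2) * c 1 10 + (-2) * c 1 11 + (17) * c 2 3 + (-1) * c 2 4 + (-3) * c 2 7 + (2) * c 2 9 + (-15) * c 3 4 + (-3) * c 3 5 + (2) * c 3 6 + (1) * c 3 7 + (-2) * c 3 8 + (1) * c 3 9 + (-1) * c 4 5 + (-3) * c 4 6 + (-1) * c 4 7 + (2) * c 4 8 + (-3) * c 5 6 + (3) * c 5 7) * rl3_seven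

theorem rl3_r1 (c : ℕ → ℕ → ZMod 7) (hc : Coc (1 : ZMod 7) c)
    (h1 : ∀ n, 2 ≤ n → n ≤ 6 → c 1 n = 0) :
    ((1 : ZMod 7) ^ 4 + 16 * 1 ^ 3 + 41 * 1 ^ 2 + 146 * 1 + 120) * c 2 3 =
      20 * (1 ^ 2 + 1 + 6) * c 3 4 := by
  linear_combination (2) * rl3_t_2_3_4 hc +
    (-1) * rl3_t_2_3_5 hc +
    (-1) * rl3_t_1_2_8 hc +
    (2) * rl3_t_1_3_7 hc +
    (2) * rl3_t_1_4_6 hc +
    (-1) * rl3_t_2_3_6 hc +
    (-2) * rl3_t_2_4_5 hc +
    (3) * rl3_t_1_2_9 hc +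
    (-3) * rl3_t_1_3_8 hc +
    (1) * rl3_t_1_5_6 hc +
    (-1) * rl3_t_2_3_7 hc +
    (-2) * rl3_t_2_4_6 hc +
    (2) * rl3_t_1_2_10 hc +
    (1) * rl3_t_1_3_9 hc +
    (-2) * rl3_t_1_5_7 hc +
    (-3) * rl3_t_2_3_8 hc +
    (-2) * rl3_t_2_4_7 hc +
    (-3) * rl3_t_2_5_6 hc +
    (-2) * rl3_t_3_4_6 hc +
    (2) * rl3_t_1_5_8 hc +
    (1) * rl3_t_1_6_7 hc +
    (-2) * rl3_t_1_2_12 hc +
    (3) * rl3_t_1_6_8 hc +
    (2) * rl3_t_2_3_10 hc +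
    (2) * rl3_t_2_5_8 hc +
    (-1) * h1 3 (by omega) (by omega) +
    (1) * h1 5 (by omega) (by omega) +
    (3) * h1 6 (by omega) (by omega) +
    ((1) * c 1 2 + (1) * c 1 6 + (1) * c 1 7 + (-1) * c 1 8 + (5) * c 1 9 + (2) * c 1 10 + (-1) * c 1 11 + (-6) * c 1 12 + (-1) * c 1 13 + (2) * c 1 14 + (46) * c 2 3 + (2) * c 2 4 + (-1) * c 2 5 + (-4) * c 2 6 + (-3) * c 2 7 + (-5) * c 2 9 + (4) * c 2 10 + (6) * c 2 11 + (4) * c 2 12 + (-6) * c 2 13 + (-24) * c 3 4 + (1) * c 3 5 + (-2) * c 3 7 + (10) * c 3 8 + (-5) * c 3 9 + (-4) * c 3 10 + (2) * c 3 12 + (2) * c 4 5 + (2) * c 4 6 + (4) * c 4 7 + (-2) * c 4 8 + (-2) * c 4 9 + (4) * c 5 6 + (4) * c 5 7 + (-11) * c 5 8 + (2) * c 5 9 + (2) * c 5 10 + (-2) * c 6 7 + (-4) * c 6 8 + (3) * c 6 9 + (3) * c 7 8) * rl3_seven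

theorem rl3_r2 (c : ℕ → ℕ → ZMod 7) (hc : Coc (2 : ZMod 7) c)
    (h1 : ∀ n, 2 ≤ n → n ≤ 6 → c 1 n = 0) :
    ((2 : ZMod 7) ^ 4 + 16 * 2 ^ 3 + 41 * 2 ^ 2 + 146 * 2 + 120) * c 2 3 =
      20 * (2 ^ 2 + 2 + 6) * c 3 4 := by
  linear_combination (2) * rl3_t_1_2_4 hc +
    (-1) * rl3_t_1_2_5 hc +
    (-2) * rl3_t_1_2_6 hc +
    (1) * rl3_t_1_3_5 hc +
    (3) * rl3_t_2_3_4 hc +
    (-2) * rl3_t_1_2_7 hc +
    (3) * rl3_t_1_3_6 hc +
    (1) * rl3_t_1_4_5 hc +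
    (-3) * rl3_t_2_3_5 hc +
    (2) * rl3_t_1_2_8 hc +
    (1) * rl3_t_1_3_7 hc +
    (-1) * rl3_t_1_4_6 hc +
    (3) * rl3_t_2_3_6 hc +
    (-2) * rl3_t_2_4_5 hc +
    (-3) * rl3_t_1_3_8 hc +
    (1) * rl3_t_1_4_7 hc +
    (-2) * rl3_t_1_5_6 hc +
    (-2) * h1 2 (by omega) (by omega) +
    (1) * h1 3 (by omega) (by omega) +
    (2) * h1 4 (by omega) (by omega) +
    (1) * h1 6 (by omega) (by omega) +
    ((-1) * c 1 3 + (1) * c 1 4 + (1) * c 1 5 + (-2) * c 1 6 + (-2) * c 1 10 + (2) * c 1 11 + (102) * c 2 3 + (1) * c 2 4 + (-2) * c 2 5 + (5) * c 2 6 + (1) * c 2 7 + (-4) * c 2 8 + (1) * c 2 9 + (-37) * c 3 4 + (2) * c 3 5 + (-7) * c 3 6 + (-1) * c 3 7 + (8) * c 3 8 + (-3) * c 3 9 + (1) * c 4 5 + (3) * c 4 6 + (-3) * c 4 7 + (4) * c 5 6 + (-1) * c 5 7) * rl3_seven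

theorem rl3_r3 (c : ℕ → ℕ → ZMod 7) (hc : Coc (3 : ZMod 7) c)
    (h1 : ∀ n, 2 ≤ n → n ≤ 6 → c 1 n = 0) :
    ((3 : ZMod 7) ^ 4 + 16 * 3 ^ 3 + 41 * 3 ^ 2 + 146 * 3 + 120) * c 2 3 =
      20 * (3 ^ 2 + 3 + 6) * c 3 4 := by
  linear_combination (2) * rl3_t_1_2_3 hc +
    (2) * rl3_t_1_2_4 hc +
    (-3) * rl3_t_1_2_6 hc +
    (1) * rl3_t_1_3_5 hc +
    (-1) * rl3_t_2_3_4 hc +
    (3) * rl3_t_1_3_6 hc +
    (-2) * rl3_t_1_4_5 hc +
    (2) * rl3_t_2_3_5 hc +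
    (2) * rl3_t_1_2_8 hc +
    (1) * rl3_t_1_4_6 hc +
    (-2) * rl3_t_2_3_6 hc +
    (-1) * rl3_t_2_4_5 hc +
    (-1) * rl3_t_1_3_8 hc +
    (-2) * rl3_t_1_4_7 hc +
    (-3) * rl3_t_1_5_6 hc +
    (1) * h1 2 (by omega) (by omega) +
    (-3) * h1 3 (by omega) (by omega) +
    (-3) * h1 4 (by omega) (by omega) +
    (3) * h1 5 (by omega) (by omega) +
    (-2) * h1 6 (by omega) (by omega) +
    ((-1) * c 1 2 + (1) * c 1 3 + (3) * c 1 4 + (-2) * c 1 6 + (-2) * c 1 7 + (3) * c 1 8 + (-1) * c 1 9 + (-2) * c 1 10 + (2) * c 1 11 + (204) * c 2 3 + (-2) * c 2 4 + (2) * c 2 5 + (2) * c 2 6 + (-2) * c 2 7 + (-4) * c 2 8 + (3) * c 2 9 + (-50) * c 3 4 + (-4) * c 3 5 + (-2) * c 3 6 + (3) * c 3 7 + (1) * c 3 8 + (-1) * c 3 9 + (5) * c 4 5 + (-2) * c 4 6 + (4) * c 4 7 + (-2) * c 4 8 + (6) * c 5 6 + (-3) * c 5 7) * rl3_seven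

theorem rl3_r4 (c : ℕ → ℕ → ZMod 7) (hc : Coc (4 : ZMod 7) c)
    (h1 : ∀ n, 2 ≤ n → n ≤ 6 → c 1 n = 0) :
    ((4 : ZMod 7) ^ 4 + 16 * 4 ^ 3 + 41 * 4 ^ 2 + 146 * 4 + 120) * c 2 3 =
      20 * (4 ^ 2 + 4 + 6) * c 3 4 := by
  linear_combination (3) * rl3_t_1_2_3 hc +
    (-1) * rl3_t_1_2_4 hc +
    (3) * rl3_t_1_2_6 hc +
    (3) * rl3_t_1_3_5 hc +
    (2) * rl3_t_2_3_4 hc +
    (-3) * rl3_t_1_2_7 hc +
    (-1) * rl3_t_1_3_6 hc +
    (-3) * rl3_t_1_4_5 hc +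
    (3) * rl3_t_2_3_5 hc +
    (3) * rl3_t_1_2_8 hc +
    (-1) * rl3_t_1_3_7 hc +
    (-1) * rl3_t_2_3_6 hc +
    (3) * rl3_t_2_4_5 hc +
    (2) * rl3_t_1_3_8 hc +
    (-3) * rl3_t_1_4_7 hc +
    (-1) * rl3_t_1_5_6 hc +
    (-2) * h1 2 (by omega) (by omega) +
    (-2) * h1 3 (by omega) (by omega) +
    (-3) * h1 4 (by omega) (by omega) +
    (-3) * h1 5 (by omega) (by omega) +
    (1) * h1 6 (by omega) (by omega) +
    ((-1) * c 1 2 + (2) * c 1 3 + (2) * c 1 4 + (1) * c 1 5 + (2) * c 1 6 + (-9) * c 1 7 + (5) * c 1 8 + (3) * c 1 9 + (-2) * c 1 10 + (371) * c 2 3 + (2) * c 2 4 + (6) * c 2 5 + (-6) * c 2 6 + (7) * c 2 7 + (-9) * c 2 8 + (3) * c 2 9 + (-77) * c 3 4 + (-9) * c 3 5 + (6) * c 3 6 + (2) * c 3 7 + (-5) * c 3 8 + (2) * c 3 9 + (1) * c 4 5 + (-2) * c 4 6 + (7) * c 4 7 + (-2) * c 4 8 + (1) * c 5 6 + (-2) * c 5 7) * rl3_seven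

theorem rl3_r5 (c : ℕ → ℕ → ZMod 7) (hc : Coc (5 : ZMod 7) c)
    (h1 : ∀ n, 2 ≤ n → n ≤ 6 → c 1 n = 0) :
    ((5 : ZMod 7) ^ 4 + 16 * 5 ^ 3 + 41 * 5 ^ 2 + 146 * 5 + 120) * c 2 3 =
      20 * (5 ^ 2 + 5 + 6) * c 3 4 := by
  linear_combination (-3) * rl3_t_1_2_3 hc +
    (1) * rl3_t_1_2_4 hc +
    (3) * rl3_t_1_2_6 hc +
    (-2) * rl3_t_1_3_5 hc +
    (3) * rl3_t_2_3_4 hc +
    (2) * rl3_t_1_2_7 hc +
    (3) * rl3_t_1_3_6 hc +
    (2) * rl3_t_1_4_5 hc +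
    (-1) * rl3_t_2_3_5 hc +
    (-3) * rl3_t_1_2_8 hc +
    (-1) * rl3_t_1_3_7 hc +
    (-3) * rl3_t_1_4_6 hc +
    (-2) * rl3_t_2_3_6 hc +
    (-1) * rl3_t_2_4_5 hc +
    (-3) * rl3_t_1_3_8 hc +
    (1) * rl3_t_1_4_7 hc +
    (-2) * rl3_t_1_5_6 hc +
    (3) * h1 2 (by omega) (by omega) +
    (-3) * h1 3 (by omega) (by omega) +
    (-3) * h1 5 (by omega) (by omega) +
    (3) * h1 6 (by omega) (by omega) +
    ((-2) * c 1 3 + (1) * c 1 4 + (2) * c 1 5 + (2) * c 1 6 + (3) * c 1 7 + (-11) * c 1 8 + (-3) * c 1 9 + (4) * c 1 10 + (2) * c 1 11 + (646) * c 2 3 + (2) * c 2 4 + (-2) * c 2 5 + (-8) * c 2 6 + (-2) * c 2 7 + (8) * c 2 8 + (-2) * c 2 9 + (-107) * c 3 4 + (5) * c 3 5 + (-2) * c 3 6 + (4) * c 3 7 + (4) * c 3 8 + (-3) * c 3 9 + (-3) * c 4 5 + (8) * c 4 6 + (-5) * c 4 7 + (3) * c 5 6 + (-1) * c 5 7) * rl3_seven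

theorem rl3_r6 (c : ℕ → ℕ → ZMod 7) (hc : Coc (6 : ZMod 7) c)
    (h1 : ∀ n, 2 ≤ n → n ≤ 6 → c 1 n = 0) :
    ((6 : ZMod 7) ^ 4 + 16 * 6 ^ 3 + 41 * 6 ^ 2 + 146 * 6 + 120) * c 2 3 =
      20 * (6 ^ 2 + 6 + 6) * c 3 4 := by
  linear_combination (2) * rl3_t_1_2_3 hc +
    (-3) * rl3_t_1_2_4 hc +
    (-3) * rl3_t_1_2_6 hc +
    (-2) * rl3_t_1_3_5 hc +
    (-1) * rl3_t_2_3_4 hc +
    (1) * rl3_t_1_2_7 hc +
    (1) * rl3_t_1_3_6 hc +
    (-1) * rl3_t_1_4_5 hc +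
    (1) * rl3_t_2_3_5 hc +
    (-3) * rl3_t_1_2_8 hc +
    (2) * rl3_t_1_3_7 hc +
    (-2) * rl3_t_1_4_6 hc +
    (-1) * rl3_t_2_3_6 hc +
    (3) * rl3_t_2_4_5 hc +
    (-1) * rl3_t_1_3_8 hc +
    (-2) * rl3_t_1_4_7 hc +
    (-3) * rl3_t_1_5_6 hc +
    (-1) * h1 2 (by omega) (by omega) +
    (-3) * h1 3 (by omega) (by omega) +
    (-3) * h1 4 (by omega) (by omega) +
    (-3) * h1 5 (by omega) (by omega) +
    (-3) * h1 6 (by omega) (by omega) +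
    ((2) * c 1 2 + (3) * c 1 3 + (-1) * c 1 5 + (-8) * c 1 6 + (2) * c 1 7 + (-5) * c 1 8 + (-1) * c 1 9 + (2) * c 1 10 + (2) * c 1 11 + (1030) * c 2 3 + (1) * c 2 4 + (4) * c 2 5 + (4) * c 2 6 + (-4) * c 2 7 + (7) * c 2 8 + (-3) * c 2 9 + (-136) * c 3 4 + (2) * c 3 5 + (-2) * c 3 6 + (-3) * c 3 7 + (3) * c 3 8 + (-1) * c 3 9 + (-4) * c 4 5 + (4) * c 4 6 + (5) * c 4 7 + (-2) * c 4 8 + (5) * c 5 6 + (-3) * c 5 7) * rl3_seven

theorem phi_seven (hp : p = 7) (r : ZMod p) (c : ℕ → ℕ → ZMod p) (hc : Coc r c)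
    (h1 : ∀ n, 2 ≤ n → n ≤ 6 → c 1 n = 0) :
    (r ^ 4 + 16 * r ^ 3 + 41 * r ^ 2 + 146 * r + 120) * c 2 3 = 20 * (r ^ 2 + r + 6) * c 3 4 := by
  subst hp
  rcases rl3_cases r with rfl | rfl | rfl | rfl | rfl | rfl | rfl
  · exact rl3_r0 c hc h1
  · exact rl3_r1 c hc h1
  · exact rl3_r2 c hc h1
  · exact rl3_r3 c hc h1
  · exact rl3_r4 c hc h1
  · exact rl3_r5 c hc h1
  · exact rl3_r6 c hc h1

end Pool.Agent.P.MP_e06b60_al.R
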