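import Mathlib
import Pool.Agent.P.MP_e06b60_al.RA2

namespace Pool.Agent.P.MP_e06b60_al.R

open PowerSeries
open scoped commutatorElement

variable {p : ℕ} [Fact p.Prime]

theorem rl4_diag {r : ZMod 11} {c : ℕ → ℕ → ZMod 11} (hc : Coc r c) (i : ℕ) (hi : 1 ≤ i) :
    c i i = 0 := by
  have hp0 : (11 : ZMod 11) = 0 := by decide
  have h := hc.anti i i hi hi
  linear_combination 6 * h - c i i * hp0

theorem rl4_q (r : ZMod 11) : r ^ 2 + 10 * r + 4 ≠ 0 := by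
  revert r
  decide

theorem rl4_phi (r : ZMod 11) (c : ℕ → ℕ → ZMod 11) (hc : Coc r c)
    (h1 : ∀ n, 2 ≤ n → n ≤ 6 → c 1 n = 0) :
    (r ^ 4 + 16 * r ^ 3 + 41 * r ^ 2 + 146 * r + 120) * c 2 3 = 20 * (r ^ 2 + r + 6) * c 3 4 := by
  have hp0 : (11 : ZMod 11) = 0 := by decide
  have z2 : c 1 2 = 0 := h1 2 (by norm_num) (by norm_num)
  have z3 : c 1 3 = 0 := h1 3 (by norm_num) (by norm_num)
  have z4 : c 1 4 = 0 := h1 4 (by norm_num) (by norm_num)
  have z5 : c 1 5 = 0 := h1 5 (by norm_num) (by norm_num)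
  have z6 : c 1 6 = 0 := h1 6 (by norm_num) (by norm_num)
  have a1_3 : c 3 1 = - c 1 3 := hc.anti 1 3 (by norm_num) (by norm_num)
  have d3 : c 3 3 = 0 := rl4_diag hc 3 (by norm_num)
  have a1_4 : c 4 1 = - c 1 4 := hc.anti 1 4 (by norm_num) (by norm_num)
  have a2_4 : c 4 2 = - c 2 4 := hc.anti 2 4 (by norm_num) (by norm_num)
  have d4 : c 4 4 = 0 := rl4_diag hc 4 (by norm_num)
  have a1_5 : c 5 1 = - c 1 5 := hc.anti 1 5 (by norm_num) (by norm_num)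
  have a2_5 : c 5 2 = - c 2 5 := hc.anti 2 5 (by norm_num) (by norm_num)
  have a3_5 : c 5 3 = - c 3 5 := hc.anti 3 5 (by norm_num) (by norm_num)
  have a4_5 : c 5 4 = - c 4 5 := hc.anti 4 5 (by norm_num) (by norm_num)
  have d5 : c 5 5 = 0 := rl4_diag hc 5 (by norm_num)
  have a1_6 : c 6 1 = - c 1 6 := hc.anti 1 6 (by norm_num) (by norm_num)
  have a2_6 : c 6 2 = - c 2 6 := hc.anti 2 6 (by norm_num) (by norm_num)
  have a3_6 : c 6 3 = - c 3 6 := hc.anti 3 6 (by norm_num) (by norm_num)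
  have a4_6 : c 6 4 = - c 4 6 := hc.anti 4 6 (by norm_num) (by norm_num)
  have a1_7 : c 7 1 = - c 1 7 := hc.anti 1 7 (by norm_num) (by norm_num)
  have a2_7 : c 7 2 = - c 2 7 := hc.anti 2 7 (by norm_num) (by norm_num)
  have a3_7 : c 7 3 = - c 3 7 := hc.anti 3 7 (by norm_num) (by norm_num)
  have a4_7 : c 7 4 = - c 4 7 := hc.anti 4 7 (by norm_num) (by norm_num)
  have a1_8 : c 8 1 = - c 1 8 := hc.anti 1 8 (by norm_num) (by norm_num)
  have a2_8 : c 8 2 = - c 2 8 := hc.anti 2 8 (by norm_num) (by norm_num)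
  have a3_8 : c 8 3 = - c 3 8 := hc.anti 3 8 (by norm_num) (by norm_num)
  have a1_9 : c 9 1 = - c 1 9 := hc.anti 1 9 (by norm_num) (by norm_num)
  have a2_9 : c 9 2 = - c 2 9 := hc.anti 2 9 (by norm_num) (by norm_num)
  have a1_10 : c 10 1 = - c 1 10 := hc.anti 1 10 (by norm_num) (by norm_num)
  have j1_2_3 := hc.jac 1 2 3 (by norm_num) (by norm_num) (by norm_num)
  simp only [Nat.reduceAdd, Nat.cast_ofNat, Nat.cast_one, z2, a1_3, z3, d3, a2_4, a1_5, z5] at j1_2_3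
  have j1_2_4 := hc.jac 1 2 4 (by norm_num) (by norm_num) (by norm_num)
  simp only [Nat.reduceAdd, Nat.cast_ofNat, Nat.cast_one, z2, a1_4, z4, a2_5, a1_6, z6] at j1_2_4
  have j1_2_5 := hc.jac 1 2 5 (by norm_num) (by norm_num) (by norm_num)
  simp only [Nat.reduceAdd, Nat.cast_ofNat, Nat.cast_one, z2, a1_5, z5, a2_6, a1_7] at j1_2_5
  have j1_3_4 := hc.jac 1 3 4 (by norm_num) (by norm_num) (by norm_num)
  simp only [Nat.reduceAdd, Nat.cast_ofNat, Nat.cast_one, z3, a1_4, z4, d4, a3_5, a1_7] at j1_3_4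
  have j1_2_6 := hc.jac 1 2 6 (by norm_num) (by norm_num) (by norm_num)
  simp only [Nat.reduceAdd, Nat.cast_ofNat, Nat.cast_one, z2, a1_6, z6, a2_7, a1_8] at j1_2_6
  have j1_3_5 := hc.jac 1 3 5 (by norm_num) (by norm_num) (by norm_num)
  simp only [Nat.reduceAdd, Nat.cast_ofNat, Nat.cast_one, z3, a1_5, z5, a3_6, a1_8] at j1_3_5
  have j2_3_4 := hc.jac 2 3 4 (by norm_num) (by norm_num) (by norm_num)
  simp only [Nat.reduceAdd, Nat.cast_ofNat, Nat.cast_one, a2_4, a4_5, a3_6, a2_7] at j2_3_4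
  have j1_2_7 := hc.jac 1 2 7 (by norm_num) (by norm_num) (by norm_num)
  simp only [Nat.reduceAdd, Nat.cast_ofNat, Nat.cast_one, z2, a1_7, a2_8, a1_9] at j1_2_7
  have j1_3_6 := hc.jac 1 3 6 (by norm_num) (by norm_num) (by norm_num)
  simp only [Nat.reduceAdd, Nat.cast_ofNat, Nat.cast_one, z3, a1_6, z6, a3_7, a1_9] at j1_3_6
  have j1_4_5 := hc.jac 1 4 5 (by norm_num) (by norm_num) (by norm_num)
  simp only [Nat.reduceAdd, Nat.cast_ofNat, Nat.cast_one, z4, a1_5, z5, d5, a4_6, a1_9] at j1_4_5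
  have j1_2_8 := hc.jac 1 2 8 (by norm_num) (by norm_num) (by norm_num)
  simp only [Nat.reduceAdd, Nat.cast_ofNat, Nat.cast_one, z2, a1_8, a2_9, a1_10] at j1_2_8
  have j1_3_7 := hc.jac 1 3 7 (by norm_num) (by norm_num) (by norm_num)
  simp only [Nat.reduceAdd, Nat.cast_ofNat, Nat.cast_one, z3, a1_7, a3_8, a1_10] at j1_3_7
  have j1_4_6 := hc.jac 1 4 6 (by norm_num) (by norm_num) (by norm_num)
  simp only [Nat.reduceAdd, Nat.cast_ofNat, Nat.cast_one, z4, a1_6, z6, a4_7, a1_10] at j1_4_6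
  have j2_3_6 := hc.jac 2 3 6 (by norm_num) (by norm_num) (by norm_num)
  simp only [Nat.reduceAdd, Nat.cast_ofNat, Nat.cast_one, a2_6, a3_8, a2_9] at j2_3_6
  haveI : Fact (Nat.Prime 11) := ⟨by norm_num⟩
  apply mul_left_cancel₀ (rl4_q r)
  linear_combination ((-3) * r + (4) * r ^ 2 + (-4) * r ^ 3 + (1) * r ^ 5) * j1_2_3 +
    ((-4) * r + (3) * r ^ 2 + (1) * r ^ 3 + (2) * r ^ 4) * j1_2_4 +
    ((-2) * r + (-5) * r ^ 3) * j1_2_5 +
    ((-3) + (5) * r ^ 2 + (4) * r ^ 3) * j1_3_4 +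
    ((-5) + (-3) * r + (2) * r ^ 2) * j1_2_6 +
    ((5) + (-1) * r + (-4) * r ^ 2) * j1_3_5 +
    ((-1) * r + (5) * r ^ 2) * j2_3_4 +
    ((1) + (5) * r) * j1_2_7 +
    ((-3) + (-4) * r) * j1_3_6 +
    ((4) + (-2) * r) * j1_4_5 +
    ((-3)) * j1_2_8 +
    ((-4)) * j1_3_7 +
    ((-5)) * j1_4_6 +
    ((4)) * j2_3_6 +
    (((-1) + (3) * r + (1) * r ^ 3) * c 1 7
      + ((-1) + (1) * r) * c 1 8
      + ((-1) * r) * c 1 9
      + ((4)) * c 1 10
      + ((44) + (163) * r + (157) * r ^ 2 + (57) * r ^ 3 + (19) * r ^ 4 + (2) * r ^ 5) * c 2 3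
      + ((1) * r + (1) * r ^ 2 + (-1) * r ^ 3 + (-1) * r ^ 4) * c 2 4
      + ((1) * r ^ 2 + (3) * r ^ 3 + (1) * r ^ 4) * c 2 5
      + ((5) + (2) * r + (-1) * r ^ 2 + (-2) * r ^ 3) * c 2 6
      + ((-3) + (-5) * r) * c 2 7
      + ((3) + (3) * r) * c 2 8
      + ((-3)) * c 2 9
      + ((-42) + (-116) * r + (-41) * r ^ 2 + (-23) * r ^ 3 + (-2) * r ^ 4) * c 3 4
      + ((-4) + (4) * r ^ 2 + (1) * r ^ 3) * c 3 5
      + ((1) + (2) * r) * c 3 6
      + ((2) + (-1) * r) * c 3 7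
      + ((-1)) * c 3 8
      + ((-2) + (1) * r + (-1) * r ^ 2) * c 4 5
      + ((5) + (-1) * r) * c 4 6
      + ((-3)) * c 4 7
      + ((-1)) * c 5 6) * hp0

theorem rl4_special (c : ℕ → ℕ → ZMod 11) (hc : Coc 1 c) (μ : ZMod 11)
    (h0 : ∀ i j, 1 ≤ i → 1 ≤ j → i + j < 11 → c i j = 0)
    (h1 : ∀ i j : ℕ, 1 ≤ i → 1 ≤ j → i + j = 11 → c i j = μ * i ^ 3) : μ = 0 := by
  have hp0 : (11 : ZMod 11) = 0 := by decide
  have z1_2 : c 1 2 = 0 := h0 1 2 (by norm_num) (by norm_num) (by norm_num)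
  have z1_3 : c 1 3 = 0 := h0 1 3 (by norm_num) (by norm_num) (by norm_num)
  have z1_4 : c 1 4 = 0 := h0 1 4 (by norm_num) (by norm_num) (by norm_num)
  have z1_5 : c 1 5 = 0 := h0 1 5 (by norm_num) (by norm_num) (by norm_num)
  have z1_6 : c 1 6 = 0 := h0 1 6 (by norm_num) (by norm_num) (by norm_num)
  have z2_3 : c 2 3 = 0 := h0 2 3 (by norm_num) (by norm_num) (by norm_num)
  have z2_5 : c 2 5 = 0 := h0 2 5 (by norm_num) (by norm_num) (by norm_num)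
  have m2_9 : c 2 9 = μ * 8 := by
    rw [h1 2 9 (by norm_num) (by norm_num) (by norm_num)]; push_cast; ring
  have m3_8 : c 3 8 = μ * 27 := by
    rw [h1 3 8 (by norm_num) (by norm_num) (by norm_num)]; push_cast; ring
  have m4_7 : c 4 7 = μ * 64 := by
    rw [h1 4 7 (by norm_num) (by norm_num) (by norm_num)]; push_cast; ring
  have m5_6 : c 5 6 = μ * 125 := by
    rw [h1 5 6 (by norm_num) (by norm_num) (by norm_num)]; push_cast; ring
  have z6_1 : c 6 1 = 0 := h0 6 1 (by norm_num) (by norm_num) (by norm_num)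
  have d6 : c 6 6 = 0 := rl4_diag hc 6 (by norm_num)
  have z7_1 : c 7 1 = 0 := h0 7 1 (by norm_num) (by norm_num) (by norm_num)
  have a5_7 : c 7 5 = - c 5 7 := hc.anti 5 7 (by norm_num) (by norm_num)
  have d7 : c 7 7 = 0 := rl4_diag hc 7 (by norm_num)
  have z8_1 : c 8 1 = 0 := h0 8 1 (by norm_num) (by norm_num) (by norm_num)
  have z8_2 : c 8 2 = 0 := h0 8 2 (by norm_num) (by norm_num) (by norm_num)
  have a4_8 : c 8 4 = - c 4 8 := hc.anti 4 8 (by norm_num) (by norm_num)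
  have a5_8 : c 8 5 = - c 5 8 := hc.anti 5 8 (by norm_num) (by norm_num)
  have a6_8 : c 8 6 = - c 6 8 := hc.anti 6 8 (by norm_num) (by norm_num)
  have z9_1 : c 9 1 = 0 := h0 9 1 (by norm_num) (by norm_num) (by norm_num)
  have a3_9 : c 9 3 = - c 3 9 := hc.anti 3 9 (by norm_num) (by norm_num)
  have a5_9 : c 9 5 = - c 5 9 := hc.anti 5 9 (by norm_num) (by norm_num)
  have a6_9 : c 9 6 = - c 6 9 := hc.anti 6 9 (by norm_num) (by norm_num)
  have m10_1 : c 10 1 = μ * 1000 := by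
    rw [h1 10 1 (by norm_num) (by norm_num) (by norm_num)]; push_cast; ring
  have a2_10 : c 10 2 = - c 2 10 := hc.anti 2 10 (by norm_num) (by norm_num)
  have a3_10 : c 10 3 = - c 3 10 := hc.anti 3 10 (by norm_num) (by norm_num)
  have a4_10 : c 10 4 = - c 4 10 := hc.anti 4 10 (by norm_num) (by norm_num)
  have a5_10 : c 10 5 = - c 5 10 := hc.anti 5 10 (by norm_num) (by norm_num)
  have a1_11 : c 11 1 = - c 1 11 := hc.anti 1 11 (by norm_num) (by norm_num)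
  have a2_11 : c 11 2 = - c 2 11 := hc.anti 2 11 (by norm_num) (by norm_num)
  have a3_11 : c 11 3 = - c 3 11 := hc.anti 3 11 (by norm_num) (by norm_num)
  have a4_11 : c 11 4 = - c 4 11 := hc.anti 4 11 (by norm_num) (by norm_num)
  have a1_12 : c 12 1 = - c 1 12 := hc.anti 1 12 (by norm_num) (by norm_num)
  have a2_12 : c 12 2 = - c 2 12 := hc.anti 2 12 (by norm_num) (by norm_num)
  have a3_12 : c 12 3 = - c 3 12 := hc.anti 3 12 (by norm_num) (by norm_num)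
  have a1_13 : c 13 1 = - c 1 13 := hc.anti 1 13 (by norm_num) (by norm_num)
  have a2_13 : c 13 2 = - c 2 13 := hc.anti 2 13 (by norm_num) (by norm_num)
  have a1_14 : c 14 1 = - c 1 14 := hc.anti 1 14 (by norm_num) (by norm_num)
  have j1_2_9 := hc.jac 1 2 9 (by norm_num) (by norm_num) (by norm_num)
  simp only [Nat.reduceAdd, Nat.cast_ofNat, Nat.cast_one, z1_2, m2_9, z9_1, a2_10, a1_11] at j1_2_9
  have j1_3_8 := hc.jac 1 3 8 (by norm_num) (by norm_num) (by norm_num)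
  simp only [Nat.reduceAdd, Nat.cast_ofNat, Nat.cast_one, z1_3, m3_8, z8_1, a3_9, a1_11] at j1_3_8
  have j1_4_7 := hc.jac 1 4 7 (by norm_num) (by norm_num) (by norm_num)
  simp only [Nat.reduceAdd, Nat.cast_ofNat, Nat.cast_one, z1_4, m4_7, z7_1, a4_8, a1_11] at j1_4_7
  have j1_5_6 := hc.jac 1 5 6 (by norm_num) (by norm_num) (by norm_num)
  simp only [Nat.reduceAdd, Nat.cast_ofNat, Nat.cast_one, z1_5, m5_6, z6_1, d6, a5_7, a1_11] at j1_5_6
  have j1_3_9 := hc.jac 1 3 9 (by norm_num) (by norm_num) (by norm_num)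
  simp only [Nat.reduceAdd, Nat.cast_ofNat, Nat.cast_one, z1_3, z9_1, a3_10, a1_12] at j1_3_9
  have j1_5_7 := hc.jac 1 5 7 (by norm_num) (by norm_num) (by norm_num)
  simp only [Nat.reduceAdd, Nat.cast_ofNat, Nat.cast_one, z1_5, z7_1, a5_8, a1_12] at j1_5_7
  have j2_3_8 := hc.jac 2 3 8 (by norm_num) (by norm_num) (by norm_num)
  simp only [Nat.reduceAdd, Nat.cast_ofNat, Nat.cast_one, z2_3, m3_8, z8_2, a3_10, a2_11] at j2_3_8
  have j1_2_11 := hc.jac 1 2 11 (by norm_num) (by norm_num) (by norm_num)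
  simp only [Nat.reduceAdd, Nat.cast_ofNat, Nat.cast_one, z1_2, a1_11, a2_12, a1_13] at j1_2_11
  have j1_3_10 := hc.jac 1 3 10 (by norm_num) (by norm_num) (by norm_num)
  simp only [Nat.reduceAdd, Nat.cast_ofNat, Nat.cast_one, z1_3, m10_1, a3_11, a1_13] at j1_3_10
  have j1_4_9 := hc.jac 1 4 9 (by norm_num) (by norm_num) (by norm_num)
  simp only [Nat.reduceAdd, Nat.cast_ofNat, Nat.cast_one, z1_4, z9_1, a4_10, a1_13] at j1_4_9
  have j1_5_8 := hc.jac 1 5 8 (by norm_num) (by norm_num) (by norm_num)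
  simp only [Nat.reduceAdd, Nat.cast_ofNat, Nat.cast_one, z1_5, z8_1, a5_9, a1_13] at j1_5_8
  have j1_6_7 := hc.jac 1 6 7 (by norm_num) (by norm_num) (by norm_num)
  simp only [Nat.reduceAdd, Nat.cast_ofNat, Nat.cast_one, z1_6, z7_1, d7, a6_8, a1_13] at j1_6_7
  have j1_2_12 := hc.jac 1 2 12 (by norm_num) (by norm_num) (by norm_num)
  simp only [Nat.reduceAdd, Nat.cast_ofNat, Nat.cast_one, z1_2, a1_12, a2_13, a1_14] at j1_2_12
  have j1_3_11 := hc.jac 1 3 11 (by norm_num) (by norm_num) (by norm_num)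
  simp only [Nat.reduceAdd, Nat.cast_ofNat, Nat.cast_one, z1_3, a1_11, a3_12, a1_14] at j1_3_11
  have j1_4_10 := hc.jac 1 4 10 (by norm_num) (by norm_num) (by norm_num)
  simp only [Nat.reduceAdd, Nat.cast_ofNat, Nat.cast_one, z1_4, m10_1, a4_11, a1_14] at j1_4_10
  have j1_5_9 := hc.jac 1 5 9 (by norm_num) (by norm_num) (by norm_num)
  simp only [Nat.reduceAdd, Nat.cast_ofNat, Nat.cast_one, z1_5, z9_1, a5_10, a1_14] at j1_5_9
  have j1_6_8 := hc.jac 1 6 8 (by norm_num) (by norm_num) (by norm_num)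
  simp only [Nat.reduceAdd, Nat.cast_ofNat, Nat.cast_one, z1_6, z8_1, a6_9, a1_14] at j1_6_8
  have j2_3_10 := hc.jac 2 3 10 (by norm_num) (by norm_num) (by norm_num)
  simp only [Nat.reduceAdd, Nat.cast_ofNat, Nat.cast_one, z2_3, a2_10, a3_12, a2_13] at j2_3_10
  have j2_5_8 := hc.jac 2 5 8 (by norm_num) (by norm_num) (by norm_num)
  simp only [Nat.reduceAdd, Nat.cast_ofNat, Nat.cast_one, z2_5, z8_2, a5_10, a2_13] at j2_5_8
  linear_combination (-3) * j1_2_9 +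
    (4) * j1_3_8 +
    (-5) * j1_4_7 +
    (4) * j1_5_6 +
    (3) * j1_3_9 +
    (5) * j1_5_7 +
    (5) * j2_3_8 +
    (4) * j1_2_11 +
    (-5) * j1_3_10 +
    (3) * j1_4_9 +
    (-5) * j1_5_8 +
    (-1) * j1_6_7 +
    (-5) * j1_2_12 +
    (1) * j1_3_11 +
    (1) * j1_4_10 +
    (-5) * j1_5_9 +
    (-5) * j1_6_8 +
    (-2) * j2_3_10 +
    (1) * j2_5_8 +
    ((2977) * μ + (6) * c 1 11 + (-8) * c 1 12 + (6) * c 1 14 + (-4) * c 2 10 + (-7) * c 2 11 + (10) * c 2 12 + (-4) * c 2 13 + (13) * c 3 10 + (-5) * c 3 11 + (-1) * c 3 12 + (-1) * c 3 9 + (1) * c 4 11 + (-2) * c 4 8 + (-3) * c 4 9 + (-3) * c 5 10 + (-5) * c 5 7 + (8) * c 5 8 + (4) * c 5 9 + (3) * c 6 7 + (4) * c 6 8 + (-5) * c 6 9 + (-2) * c 7 8) * hp0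

theorem phi_eleven (hp : p = 11) (r : ZMod p) (c : ℕ → ℕ → ZMod p) (hc : Coc r c)
    (h1 : ∀ n, 2 ≤ n → n ≤ 6 → c 1 n = 0) :
    (r ^ 4 + 16 * r ^ 3 + 41 * r ^ 2 + 146 * r + 120) * c 2 3 = 20 * (r ^ 2 + r + 6) * c 3 4 := by
  subst hp
  exact rl4_phi r c hc h1

theorem l4_special (hp : p = 11) (c : ℕ → ℕ → ZMod p) (hc : Coc 1 c) (μ : ZMod p)
    (h0 : ∀ i j, 1 ≤ i → 1 ≤ j → i + j < 11 → c i j = 0)
    (h1 : ∀ i j : ℕ, 1 ≤ i → 1 ≤ j → i + j = 11 → c i j = μ * i ^ 3) : μ = 0 := by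
  subst hp
  exact rl4_special c hc μ h0 h1

end Pool.Agent.P.MP_e06b60_al.R
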