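import Mathlib
import Pool.Agent.P.MP_e06b60_al.RA2

namespace Pool.Agent.P.MP_e06b60_al.R

open PowerSeries
open scoped commutatorElement

variable {p : ℕ} [Fact p.Prime]

theorem rl5_diag (hp0 : (13 : ZMod p) = 0) {r : ZMod p} {c : ℕ → ℕ → ZMod p} (hc : Coc r c)
    (i : ℕ) (hi : 1 ≤ i) : c i i = 0 := by
  linear_combination 7 * hc.anti i i hi hi - c i i * hp0

theorem rl5_e_1_2_3 (hp0 : (13 : ZMod p) = 0) {r : ZMod p} {c : ℕ → ℕ → ZMod p} (hc : Coc r c) :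
    (r) * c 1 2 + (-r - 2) * c 1 3 + 1 * c 1 5 + (r + 4) * c 2 3 + (-2) * c 2 4 = 0 := by
  have h := hc.jac 1 2 3 (by omega) (by omega) (by omega)
  simp only [Nat.reduceAdd, Nat.cast_ofNat, Nat.cast_one] at h
  linear_combination h
    - (-1) * rl5_diag hp0 hc 3 (by omega)
    - (-1) * hc.anti 1 5 (by omega) (by omega)
    - 2 * hc.anti 2 4 (by omega) (by omega)
    - (r + 2) * hc.anti 1 3 (by omega) (by omega)

theorem rl5_e_1_2_4 {r : ZMod p} {c : ℕ → ℕ → ZMod p} (hc : Coc r c) :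
    (r - 1) * c 1 2 + (-r - 3) * c 1 4 + 2 * c 1 6 + (r + 5) * c 2 4 + (-3) * c 2 5 + (-1) * c 3 4 = 0 := by
  have h := hc.jac 1 2 4 (by omega) (by omega) (by omega)
  simp only [Nat.reduceAdd, Nat.cast_ofNat, Nat.cast_one] at h
  linear_combination h
    - (-2) * hc.anti 1 6 (by omega) (by omega)
    - 3 * hc.anti 2 5 (by omega) (by omega)
    - (r + 3) * hc.anti 1 4 (by omega) (by omega)

theorem rl5_e_1_2_5 {r : ZMod p} {c : ℕ → ℕ → ZMod p} (hc : Coc r c) :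
    (r - 2) * c 1 2 + (-r - 4) * c 1 5 + 3 * c 1 7 + (r + 6) * c 2 5 + (-4) * c 2 6 + (-1) * c 3 5 = 0 := by
  have h := hc.jac 1 2 5 (by omega) (by omega) (by omega)
  simp only [Nat.reduceAdd, Nat.cast_ofNat, Nat.cast_one] at h
  linear_combination h
    - (-3) * hc.anti 1 7 (by omega) (by omega)
    - 4 * hc.anti 2 6 (by omega) (by omega)
    - (r + 4) * hc.anti 1 5 (by omega) (by omega)

theorem rl5_e_1_3_4 (hp0 : (13 : ZMod p) = 0) {r : ZMod p} {c : ℕ → ℕ → ZMod p} (hc : Coc r c) :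
    (r) * c 1 3 + (-r - 2) * c 1 4 + 1 * c 1 7 + (r + 6) * c 3 4 + (-3) * c 3 5 = 0 := by
  have h := hc.jac 1 3 4 (by omega) (by omega) (by omega)
  simp only [Nat.reduceAdd, Nat.cast_ofNat, Nat.cast_one] at h
  linear_combination h
    - (-2) * rl5_diag hp0 hc 4 (by omega)
    - (-1) * hc.anti 1 7 (by omega) (by omega)
    - 3 * hc.anti 3 5 (by omega) (by omega)
    - (r + 2) * hc.anti 1 4 (by omega) (by omega)

theorem rl5_e_1_2_6 {r : ZMod p} {c : ℕ → ℕ → ZMod p} (hc : Coc r c) :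
    (r - 3) * c 1 2 + (-r - 5) * c 1 6 + 4 * c 1 8 + (r + 7) * c 2 6 + (-5) * c 2 7 + (-1) * c 3 6 = 0 := by
  have h := hc.jac 1 2 6 (by omega) (by omega) (by omega)
  simp only [Nat.reduceAdd, Nat.cast_ofNat, Nat.cast_one] at h
  linear_combination h
    - (-4) * hc.anti 1 8 (by omega) (by omega)
    - 5 * hc.anti 2 7 (by omega) (by omega)
    - (r + 5) * hc.anti 1 6 (by omega) (by omega)

theorem rl5_e_1_3_5 {r : ZMod p} {c : ℕ → ℕ → ZMod p} (hc : Coc r c) :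
    (r - 1) * c 1 3 + (-r - 3) * c 1 5 + 2 * c 1 8 + (r + 7) * c 3 5 + (-4) * c 3 6 + (-2) * c 4 5 = 0 := by
  have h := hc.jac 1 3 5 (by omega) (by omega) (by omega)
  simp only [Nat.reduceAdd, Nat.cast_ofNat, Nat.cast_one] at h
  linear_combination h
    - (-2) * hc.anti 1 8 (by omega) (by omega)
    - 4 * hc.anti 3 6 (by omega) (by omega)
    - (r + 3) * hc.anti 1 5 (by omega) (by omega)

theorem rl5_e_2_3_4 {r : ZMod p} {c : ℕ → ℕ → ZMod p} (hc : Coc r c) :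
    (r + 1) * c 2 3 + (-r - 3) * c 2 4 + 1 * c 2 7 + (r + 5) * c 3 4 + (-2) * c 3 6 + 1 * c 4 5 = 0 := by
  have h := hc.jac 2 3 4 (by omega) (by omega) (by omega)
  simp only [Nat.reduceAdd, Nat.cast_ofNat] at h
  linear_combination h
    - (-1) * hc.anti 4 5 (by omega) (by omega)
    - (-1) * hc.anti 2 7 (by omega) (by omega)
    - 2 * hc.anti 3 6 (by omega) (by omega)
    - (r + 3) * hc.anti 2 4 (by omega) (by omega)

theorem rl5_e_1_2_7 {r : ZMod p} {c : ℕ → ℕ → ZMod p} (hc : Coc r c) :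
    (r - 4) * c 1 2 + (-r - 6) * c 1 7 + 5 * c 1 9 + (r + 8) * c 2 7 + (-6) * c 2 8 + (-1) * c 3 7 = 0 := by
  have h := hc.jac 1 2 7 (by omega) (by omega) (by omega)
  simp only [Nat.reduceAdd, Nat.cast_ofNat, Nat.cast_one] at h
  linear_combination h
    - (-5) * hc.anti 1 9 (by omega) (by omega)
    - 6 * hc.anti 2 8 (by omega) (by omega)
    - (r + 6) * hc.anti 1 7 (by omega) (by omega)

theorem rl5_e_1_3_6 {r : ZMod p} {c : ℕ → ℕ → ZMod p} (hc : Coc r c) :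
    (r - 2) * c 1 3 + (-r - 4) * c 1 6 + 3 * c 1 9 + (r + 8) * c 3 6 + (-5) * c 3 7 + (-2) * c 4 6 = 0 := by
  have h := hc.jac 1 3 6 (by omega) (by omega) (by omega)
  simp only [Nat.reduceAdd, Nat.cast_ofNat, Nat.cast_one] at h
  linear_combination h
    - (-3) * hc.anti 1 9 (by omega) (by omega)
    - 5 * hc.anti 3 7 (by omega) (by omega)
    - (r + 4) * hc.anti 1 6 (by omega) (by omega)

theorem rl5_e_1_4_5 (hp0 : (13 : ZMod p) = 0) {r : ZMod p} {c : ℕ → ℕ → ZMod p} (hc : Coc r c) :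
    (r) * c 1 4 + (-r - 2) * c 1 5 + 1 * c 1 9 + (r + 8) * c 4 5 + (-4) * c 4 6 = 0 := by
  have h := hc.jac 1 4 5 (by omega) (by omega) (by omega)
  simp only [Nat.reduceAdd, Nat.cast_ofNat, Nat.cast_one] at h
  linear_combination h
    - (-3) * rl5_diag hp0 hc 5 (by omega)
    - (-1) * hc.anti 1 9 (by omega) (by omega)
    - 4 * hc.anti 4 6 (by omega) (by omega)
    - (r + 2) * hc.anti 1 5 (by omega) (by omega)

theorem rl5_e_1_2_8 {r : ZMod p} {c : ℕ → ℕ → ZMod p} (hc : Coc r c) :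
    (r - 5) * c 1 2 + (-r - 7) * c 1 8 + 6 * c 1 10 + (r + 9) * c 2 8 + (-7) * c 2 9 + (-1) * c 3 8 = 0 := by
  have h := hc.jac 1 2 8 (by omega) (by omega) (by omega)
  simp only [Nat.reduceAdd, Nat.cast_ofNat, Nat.cast_one] at h
  linear_combination h
    - (-6) * hc.anti 1 10 (by omega) (by omega)
    - 7 * hc.anti 2 9 (by omega) (by omega)
    - (r + 7) * hc.anti 1 8 (by omega) (by omega)

theorem rl5_e_1_3_7 {r : ZMod p} {c : ℕ → ℕ → ZMod p} (hc : Coc r c) :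
    (r - 3) * c 1 3 + (-r - 5) * c 1 7 + 4 * c 1 10 + (r + 9) * c 3 7 + (-6) * c 3 8 + (-2) * c 4 7 = 0 := by
  have h := hc.jac 1 3 7 (by omega) (by omega) (by omega)
  simp only [Nat.reduceAdd, Nat.cast_ofNat, Nat.cast_one] at h
  linear_combination h
    - (-4) * hc.anti 1 10 (by omega) (by omega)
    - 6 * hc.anti 3 8 (by omega) (by omega)
    - (r + 5) * hc.anti 1 7 (by omega) (by omega)

theorem rl5_e_1_4_6 {r : ZMod p} {c : ℕ → ℕ → ZMod p} (hc : Coc r c) :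
    (r - 1) * c 1 4 + (-r - 3) * c 1 6 + 2 * c 1 10 + (r + 9) * c 4 6 + (-5) * c 4 7 + (-3) * c 5 6 = 0 := by
  have h := hc.jac 1 4 6 (by omega) (by omega) (by omega)
  simp only [Nat.reduceAdd, Nat.cast_ofNat, Nat.cast_one] at h
  linear_combination h
    - (-2) * hc.anti 1 10 (by omega) (by omega)
    - 5 * hc.anti 4 7 (by omega) (by omega)
    - (r + 3) * hc.anti 1 6 (by omega) (by omega)

theorem rl5_e_2_3_6 {r : ZMod p} {c : ℕ → ℕ → ZMod p} (hc : Coc r c) :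
    (r - 1) * c 2 3 + (-r - 5) * c 2 6 + 3 * c 2 9 + (r + 7) * c 3 6 + (-4) * c 3 8 + (-1) * c 5 6 = 0 := by
  have h := hc.jac 2 3 6 (by omega) (by omega) (by omega)
  simp only [Nat.reduceAdd, Nat.cast_ofNat] at h
  linear_combination h
    - (-3) * hc.anti 2 9 (by omega) (by omega)
    - 4 * hc.anti 3 8 (by omega) (by omega)
    - (r + 5) * hc.anti 2 6 (by omega) (by omega)

theorem rl5_e_1_2_9 {r : ZMod p} {c : ℕ → ℕ → ZMod p} (hc : Coc r c) :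
    (r - 6) * c 1 2 + (-r - 8) * c 1 9 + 7 * c 1 11 + (r + 10) * c 2 9 + (-8) * c 2 10 + (-1) * c 3 9 = 0 := by
  have h := hc.jac 1 2 9 (by omega) (by omega) (by omega)
  simp only [Nat.reduceAdd, Nat.cast_ofNat, Nat.cast_one] at h
  linear_combination h
    - (-7) * hc.anti 1 11 (by omega) (by omega)
    - 8 * hc.anti 2 10 (by omega) (by omega)
    - (r + 8) * hc.anti 1 9 (by omega) (by omega)

theorem rl5_e_1_3_8 {r : ZMod p} {c : ℕ → ℕ → ZMod p} (hc : Coc r c) :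
    (r - 4) * c 1 3 + (-r - 6) * c 1 8 + 5 * c 1 11 + (r + 10) * c 3 8 + (-7) * c 3 9 + (-2) * c 4 8 = 0 := by
  have h := hc.jac 1 3 8 (by omega) (by omega) (by omega)
  simp only [Nat.reduceAdd, Nat.cast_ofNat, Nat.cast_one] at h
  linear_combination h
    - (-5) * hc.anti 1 11 (by omega) (by omega)
    - 7 * hc.anti 3 9 (by omega) (by omega)
    - (r + 6) * hc.anti 1 8 (by omega) (by omega)

theorem rl5_e_1_4_7 {r : ZMod p} {c : ℕ → ℕ → ZMod p} (hc : Coc r c) :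
    (r - 2) * c 1 4 + (-r - 4) * c 1 7 + 3 * c 1 11 + (r + 10) * c 4 7 + (-6) * c 4 8 + (-3) * c 5 7 = 0 := by
  have h := hc.jac 1 4 7 (by omega) (by omega) (by omega)
  simp only [Nat.reduceAdd, Nat.cast_ofNat, Nat.cast_one] at h
  linear_combination h
    - (-3) * hc.anti 1 11 (by omega) (by omega)
    - 6 * hc.anti 4 8 (by omega) (by omega)
    - (r + 4) * hc.anti 1 7 (by omega) (by omega)

theorem rl5_e_1_5_6 (hp0 : (13 : ZMod p) = 0) {r : ZMod p} {c : ℕ → ℕ → ZMod p} (hc : Coc r c) :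
    (r) * c 1 5 + (-r - 2) * c 1 6 + 1 * c 1 11 + (r + 10) * c 5 6 + (-5) * c 5 7 = 0 := by
  have h := hc.jac 1 5 6 (by omega) (by omega) (by omega)
  simp only [Nat.reduceAdd, Nat.cast_ofNat, Nat.cast_one] at h
  linear_combination h
    - (-4) * rl5_diag hp0 hc 6 (by omega)
    - (-1) * hc.anti 1 11 (by omega) (by omega)
    - 5 * hc.anti 5 7 (by omega) (by omega)
    - (r + 2) * hc.anti 1 6 (by omega) (by omega)

theorem rl5_e_2_3_7 {r : ZMod p} {c : ℕ → ℕ → ZMod p} (hc : Coc r c) :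
    (r - 2) * c 2 3 + (-r - 6) * c 2 7 + 4 * c 2 10 + (r + 8) * c 3 7 + (-5) * c 3 9 + (-1) * c 5 7 = 0 := by
  have h := hc.jac 2 3 7 (by omega) (by omega) (by omega)
  simp only [Nat.reduceAdd, Nat.cast_ofNat] at h
  linear_combination h
    - (-4) * hc.anti 2 10 (by omega) (by omega)
    - 5 * hc.anti 3 9 (by omega) (by omega)
    - (r + 6) * hc.anti 2 7 (by omega) (by omega)

theorem rl5_e_1_2_10 {r : ZMod p} {c : ℕ → ℕ → ZMod p} (hc : Coc r c) :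
    (r - 7) * c 1 2 + (-r - 9) * c 1 10 + 8 * c 1 12 + (r + 11) * c 2 10 + (-9) * c 2 11 + (-1) * c 3 10 = 0 := by
  have h := hc.jac 1 2 10 (by omega) (by omega) (by omega)
  simp only [Nat.reduceAdd, Nat.cast_ofNat, Nat.cast_one] at h
  linear_combination h
    - (-8) * hc.anti 1 12 (by omega) (by omega)
    - 9 * hc.anti 2 11 (by omega) (by omega)
    - (r + 9) * hc.anti 1 10 (by omega) (by omega)

theorem rl5_e_1_3_9 {r : ZMod p} {c : ℕ → ℕ → ZMod p} (hc : Coc r c) :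
    (r - 5) * c 1 3 + (-r - 7) * c 1 9 + 6 * c 1 12 + (r + 11) * c 3 9 + (-8) * c 3 10 + (-2) * c 4 9 = 0 := by
  have h := hc.jac 1 3 9 (by omega) (by omega) (by omega)
  simp only [Nat.reduceAdd, Nat.cast_ofNat, Nat.cast_one] at h
  linear_combination h
    - (-6) * hc.anti 1 12 (by omega) (by omega)
    - 8 * hc.anti 3 10 (by omega) (by omega)
    - (r + 7) * hc.anti 1 9 (by omega) (by omega)

theorem rl5_e_1_4_8 {r : ZMod p} {c : ℕ → ℕ → ZMod p} (hc : Coc r c) :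
    (r - 3) * c 1 4 + (-r - 5) * c 1 8 + 4 * c 1 12 + (r + 11) * c 4 8 + (-7) * c 4 9 + (-3) * c 5 8 = 0 := by
  have h := hc.jac 1 4 8 (by omega) (by omega) (by omega)
  simp only [Nat.reduceAdd, Nat.cast_ofNat, Nat.cast_one] at h
  linear_combination h
    - (-4) * hc.anti 1 12 (by omega) (by omega)
    - 7 * hc.anti 4 9 (by omega) (by omega)
    - (r + 5) * hc.anti 1 8 (by omega) (by omega)

theorem rl5_e_1_5_7 {r : ZMod p} {c : ℕ → ℕ → ZMod p} (hc : Coc r c) :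
    (r - 1) * c 1 5 + (-r - 3) * c 1 7 + 2 * c 1 12 + (r + 11) * c 5 7 + (-6) * c 5 8 + (-4) * c 6 7 = 0 := by
  have h := hc.jac 1 5 7 (by omega) (by omega) (by omega)
  simp only [Nat.reduceAdd, Nat.cast_ofNat, Nat.cast_one] at h
  linear_combination h
    - (-2) * hc.anti 1 12 (by omega) (by omega)
    - 6 * hc.anti 5 8 (by omega) (by omega)
    - (r + 3) * hc.anti 1 7 (by omega) (by omega)

theorem rl5_e_2_3_8 {r : ZMod p} {c : ℕ → ℕ → ZMod p} (hc : Coc r c) :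
    (r - 3) * c 2 3 + (-r - 7) * c 2 8 + 5 * c 2 11 + (r + 9) * c 3 8 + (-6) * c 3 10 + (-1) * c 5 8 = 0 := by
  have h := hc.jac 2 3 8 (by omega) (by omega) (by omega)
  simp only [Nat.reduceAdd, Nat.cast_ofNat] at h
  linear_combination h
    - (-5) * hc.anti 2 11 (by omega) (by omega)
    - 6 * hc.anti 3 10 (by omega) (by omega)
    - (r + 7) * hc.anti 2 8 (by omega) (by omega)

theorem rl5_e_1_2_11 {r : ZMod p} {c : ℕ → ℕ → ZMod p} (hc : Coc r c) :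
    (r - 8) * c 1 2 + (-r - 10) * c 1 11 + 9 * c 1 13 + (r + 12) * c 2 11 + (-10) * c 2 12 + (-1) * c 3 11 = 0 := by
  have h := hc.jac 1 2 11 (by omega) (by omega) (by omega)
  simp only [Nat.reduceAdd, Nat.cast_ofNat, Nat.cast_one] at h
  linear_combination h
    - (-9) * hc.anti 1 13 (by omega) (by omega)
    - 10 * hc.anti 2 12 (by omega) (by omega)
    - (r + 10) * hc.anti 1 11 (by omega) (by omega)

theorem rl5_e_1_3_10 {r : ZMod p} {c : ℕ → ℕ → ZMod p} (hc : Coc r c) :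
    (r - 6) * c 1 3 + (-r - 8) * c 1 10 + 7 * c 1 13 + (r + 12) * c 3 10 + (-9) * c 3 11 + (-2) * c 4 10 = 0 := by
  have h := hc.jac 1 3 10 (by omega) (by omega) (by omega)
  simp only [Nat.reduceAdd, Nat.cast_ofNat, Nat.cast_one] at h
  linear_combination h
    - (-7) * hc.anti 1 13 (by omega) (by omega)
    - 9 * hc.anti 3 11 (by omega) (by omega)
    - (r + 8) * hc.anti 1 10 (by omega) (by omega)

theorem rl5_e_1_4_9 {r : ZMod p} {c : ℕ → ℕ → ZMod p} (hc : Coc r c) :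
    (r - 4) * c 1 4 + (-r - 6) * c 1 9 + 5 * c 1 13 + (r + 12) * c 4 9 + (-8) * c 4 10 + (-3) * c 5 9 = 0 := by
  have h := hc.jac 1 4 9 (by omega) (by omega) (by omega)
  simp only [Nat.reduceAdd, Nat.cast_ofNat, Nat.cast_one] at h
  linear_combination h
    - (-5) * hc.anti 1 13 (by omega) (by omega)
    - 8 * hc.anti 4 10 (by omega) (by omega)
    - (r + 6) * hc.anti 1 9 (by omega) (by omega)

theorem rl5_e_1_5_8 {r : ZMod p} {c : ℕ → ℕ → ZMod p} (hc : Coc r c) :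
    (r - 2) * c 1 5 + (-r - 4) * c 1 8 + 3 * c 1 13 + (r + 12) * c 5 8 + (-7) * c 5 9 + (-4) * c 6 8 = 0 := by
  have h := hc.jac 1 5 8 (by omega) (by omega) (by omega)
  simp only [Nat.reduceAdd, Nat.cast_ofNat, Nat.cast_one] at h
  linear_combination h
    - (-3) * hc.anti 1 13 (by omega) (by omega)
    - 7 * hc.anti 5 9 (by omega) (by omega)
    - (r + 4) * hc.anti 1 8 (by omega) (by omega)

theorem rl5_e_1_6_7 (hp0 : (13 : ZMod p) = 0) {r : ZMod p} {c : ℕ → ℕ → ZMod p} (hc : Coc r c) :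
    (r) * c 1 6 + (-r - 2) * c 1 7 + 1 * c 1 13 + (r + 12) * c 6 7 + (-6) * c 6 8 = 0 := by
  have h := hc.jac 1 6 7 (by omega) (by omega) (by omega)
  simp only [Nat.reduceAdd, Nat.cast_ofNat, Nat.cast_one] at h
  linear_combination h
    - (-5) * rl5_diag hp0 hc 7 (by omega)
    - (-1) * hc.anti 1 13 (by omega) (by omega)
    - 6 * hc.anti 6 8 (by omega) (by omega)
    - (r + 2) * hc.anti 1 7 (by omega) (by omega)

theorem rl5_e_2_3_9 {r : ZMod p} {c : ℕ → ℕ → ZMod p} (hc : Coc r c) :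
    (r - 4) * c 2 3 + (-r - 8) * c 2 9 + 6 * c 2 12 + (r + 10) * c 3 9 + (-7) * c 3 11 + (-1) * c 5 9 = 0 := by
  have h := hc.jac 2 3 9 (by omega) (by omega) (by omega)
  simp only [Nat.reduceAdd, Nat.cast_ofNat] at h
  linear_combination h
    - (-6) * hc.anti 2 12 (by omega) (by omega)
    - 7 * hc.anti 3 11 (by omega) (by omega)
    - (r + 8) * hc.anti 2 9 (by omega) (by omega)

theorem rl5_e_1_2_12 {r : ZMod p} {c : ℕ → ℕ → ZMod p} (hc : Coc r c) :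
    (r - 9) * c 1 2 + (-r - 11) * c 1 12 + 10 * c 1 14 + (r + 13) * c 2 12 + (-11) * c 2 13 + (-1) * c 3 12 = 0 := by
  have h := hc.jac 1 2 12 (by omega) (by omega) (by omega)
  simp only [Nat.reduceAdd, Nat.cast_ofNat, Nat.cast_one] at h
  linear_combination h
    - (-10) * hc.anti 1 14 (by omega) (by omega)
    - 11 * hc.anti 2 13 (by omega) (by omega)
    - (r + 11) * hc.anti 1 12 (by omega) (by omega)

theorem rl5_e_1_3_11 {r : ZMod p} {c : ℕ → ℕ → ZMod p} (hc : Coc r c) :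
    (r - 7) * c 1 3 + (-r - 9) * c 1 11 + 8 * c 1 14 + (r + 13) * c 3 11 + (-10) * c 3 12 + (-2) * c 4 11 = 0 := by
  have h := hc.jac 1 3 11 (by omega) (by omega) (by omega)
  simp only [Nat.reduceAdd, Nat.cast_ofNat, Nat.cast_one] at h
  linear_combination h
    - (-8) * hc.anti 1 14 (by omega) (by omega)
    - 10 * hc.anti 3 12 (by omega) (by omega)
    - (r + 9) * hc.anti 1 11 (by omega) (by omega)

theorem rl5_e_1_4_10 {r : ZMod p} {c : ℕ → ℕ → ZMod p} (hc : Coc r c) :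
    (r - 5) * c 1 4 + (-r - 7) * c 1 10 + 6 * c 1 14 + (r + 13) * c 4 10 + (-9) * c 4 11 + (-3) * c 5 10 = 0 := by
  have h := hc.jac 1 4 10 (by omega) (by omega) (by omega)
  simp only [Nat.reduceAdd, Nat.cast_ofNat, Nat.cast_one] at h
  linear_combination h
    - (-6) * hc.anti 1 14 (by omega) (by omega)
    - 9 * hc.anti 4 11 (by omega) (by omega)
    - (r + 7) * hc.anti 1 10 (by omega) (by omega)

theorem rl5_e_1_5_9 {r : ZMod p} {c : ℕ → ℕ → ZMod p} (hc : Coc r c) :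
    (r - 3) * c 1 5 + (-r - 5) * c 1 9 + 4 * c 1 14 + (r + 13) * c 5 9 + (-8) * c 5 10 + (-4) * c 6 9 = 0 := by
  have h := hc.jac 1 5 9 (by omega) (by omega) (by omega)
  simp only [Nat.reduceAdd, Nat.cast_ofNat, Nat.cast_one] at h
  linear_combination h
    - (-4) * hc.anti 1 14 (by omega) (by omega)
    - 8 * hc.anti 5 10 (by omega) (by omega)
    - (r + 5) * hc.anti 1 9 (by omega) (by omega)

theorem rl5_e_1_6_8 {r : ZMod p} {c : ℕ → ℕ → ZMod p} (hc : Coc r c) :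
    (r - 1) * c 1 6 + (-r - 3) * c 1 8 + 2 * c 1 14 + (r + 13) * c 6 8 + (-7) * c 6 9 + (-5) * c 7 8 = 0 := by
  have h := hc.jac 1 6 8 (by omega) (by omega) (by omega)
  simp only [Nat.reduceAdd, Nat.cast_ofNat, Nat.cast_one] at h
  linear_combination h
    - (-2) * hc.anti 1 14 (by omega) (by omega)
    - 7 * hc.anti 6 9 (by omega) (by omega)
    - (r + 3) * hc.anti 1 8 (by omega) (by omega)

theorem rl5_e_2_3_10 {r : ZMod p} {c : ℕ → ℕ → ZMod p} (hc : Coc r c) :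
    (r - 5) * c 2 3 + (-r - 9) * c 2 10 + 7 * c 2 13 + (r + 11) * c 3 10 + (-8) * c 3 12 + (-1) * c 5 10 = 0 := by
  have h := hc.jac 2 3 10 (by omega) (by omega) (by omega)
  simp only [Nat.reduceAdd, Nat.cast_ofNat] at h
  linear_combination h
    - (-7) * hc.anti 2 13 (by omega) (by omega)
    - 8 * hc.anti 3 12 (by omega) (by omega)
    - (r + 9) * hc.anti 2 10 (by omega) (by omega)

theorem rl5_e_2_5_8 {r : ZMod p} {c : ℕ → ℕ → ZMod p} (hc : Coc r c) :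
    (r - 1) * c 2 5 + (-r - 5) * c 2 8 + 3 * c 2 13 + (r + 11) * c 5 8 + (-6) * c 5 10 + (-3) * c 7 8 = 0 := by
  have h := hc.jac 2 5 8 (by omega) (by omega) (by omega)
  simp only [Nat.reduceAdd, Nat.cast_ofNat] at h
  linear_combination h
    - (-3) * hc.anti 2 13 (by omega) (by omega)
    - 6 * hc.anti 5 10 (by omega) (by omega)
    - (r + 5) * hc.anti 2 8 (by omega) (by omega)

theorem rl5_case0 (hp0 : (13 : ZMod p) = 0) (r : ZMod p) (hr : r = 0)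
    (c : ℕ → ℕ → ZMod p) (hc : Coc r c) (h1 : ∀ n, 2 ≤ n → n ≤ 6 → c 1 n = 0) :
    (r ^ 4 + 16 * r ^ 3 + 41 * r ^ 2 + 146 * r + 120) * c 2 3 = 20 * (r ^ 2 + r + 6) * c 3 4 := by
  subst hr
  linear_combination 2 * rl5_e_1_2_3 hp0 hc +
    (-2) * rl5_e_1_2_4 hc +
    (-1) * rl5_e_1_2_5 hc +
    (-2) * rl5_e_1_3_4 hp0 hc +
    (-3) * rl5_e_1_2_6 hc +
    (-1) * rl5_e_1_3_5 hc +
    4 * rl5_e_2_3_4 hc +
    (-6) * rl5_e_1_3_6 hc +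
    (-4) * rl5_e_1_4_5 hp0 hc +
    3 * rl5_e_1_3_7 hc +
    (-6) * rl5_e_1_4_6 hc +
    (-6) * rl5_e_2_3_6 hc +
    (-6) * rl5_e_1_2_9 hc +
    2 * rl5_e_1_3_8 hc +
    (-5) * rl5_e_1_4_7 hc +
    (-5) * rl5_e_1_5_6 hp0 hc +
    1 * rl5_e_2_3_7 hc +
    3 * h1 2 (by omega) (by omega) +
    (-5) * h1 3 (by omega) (by omega) +
    (-4) * h1 5 (by omega) (by omega) +
    2 * h1 6 (by omega) (by omega) +
    ((-4) * c 1 2 + 1 * c 1 3 + (-2) * c 1 4 + (-1) * c 1 5 + (-5) * c 1 6 +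
      2 * c 1 8 + (-2) * c 1 9 + 4 * c 1 11 + 8 * c 2 3 + 2 * c 2 4 +
      (-1) * c 2 6 + (-1) * c 2 7 + 6 * c 2 9 + (-4) * c 2 10 + (-10) * c 3 4 +
      7 * c 3 6 + (-5) * c 3 7 + (-2) * c 3 8 + 1 * c 3 9 + 2 * c 4 5 +
      2 * c 4 6 + 2 * c 4 7 + (-2) * c 4 8 + 2 * c 5 6 + (-3) * c 5 7) * hp0

theorem rl5_case1 (hp0 : (13 : ZMod p) = 0) (r : ZMod p) (hr : r = 1)
    (c : ℕ → ℕ → ZMod p) (hc : Coc r c) (h1 : ∀ n, 2 ≤ n → n ≤ 6 → c 1 n = 0) :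
    (r ^ 4 + 16 * r ^ 3 + 41 * r ^ 2 + 146 * r + 120) * c 2 3 = 20 * (r ^ 2 + r + 6) * c 3 4 := by
  subst hr
  linear_combination (-1) * rl5_e_1_2_4 hc +
    (-6) * rl5_e_1_2_5 hc +
    (-5) * rl5_e_1_3_4 hp0 hc +
    (-1) * rl5_e_1_2_6 hc +
    (-1) * rl5_e_1_3_5 hc +
    5 * rl5_e_2_3_4 hc +
    (-4) * rl5_e_1_2_7 hc +
    3 * rl5_e_1_3_6 hc +
    5 * rl5_e_1_4_5 hp0 hc +
    2 * rl5_e_1_2_8 hc +
    5 * rl5_e_1_3_7 hc +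
    (-6) * rl5_e_2_3_6 hc +
    (-3) * rl5_e_1_2_9 hc +
    4 * rl5_e_1_3_8 hc +
    (-5) * rl5_e_1_4_7 hc +
    3 * rl5_e_1_5_6 hp0 hc +
    (-2) * rl5_e_1_2_10 hc +
    1 * rl5_e_1_3_9 hc +
    (-4) * rl5_e_1_4_8 hc +
    (-1) * rl5_e_2_3_8 hc +
    (-5) * h1 3 (by omega) (by omega) +
    2 * h1 4 (by omega) (by omega) +
    4 * h1 5 (by omega) (by omega) +
    (-6) * h1 6 (by omega) (by omega) +
    ((-3) * c 1 2 + 3 * c 1 3 + (-3) * c 1 4 + (-2) * c 1 5 + 2 * c 1 6 +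
      2 * c 1 8 + (-1) * c 1 9 + (-4) * c 1 10 + 1 * c 1 11 + 2 * c 1 12 +
      24 * c 2 3 + 2 * c 2 4 + 3 * c 2 5 + (-4) * c 2 6 + 2 * c 2 7 +
      (-4) * c 2 8 + 5 * c 2 9 + (-1) * c 2 11 + (-12) * c 3 4 + (-1) * c 3 5 +
      2 * c 3 6 + (-3) * c 3 7 + (-2) * c 3 8 + 1 * c 3 9 + (-4) * c 4 5 +
      2 * c 4 6 + 5 * c 4 7 + 2 * c 4 8 + (-2) * c 4 9 + (-3) * c 5 6 +
      (-1) * c 5 8) * hp0

theorem rl5_case2 (hp0 : (13 : ZMod p) = 0) (r : ZMod p) (hr : r = 2)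
    (c : ℕ → ℕ → ZMod p) (hc : Coc r c) (h1 : ∀ n, 2 ≤ n → n ≤ 6 → c 1 n = 0) :
    (r ^ 4 + 16 * r ^ 3 + 41 * r ^ 2 + 146 * r + 120) * c 2 3 = 20 * (r ^ 2 + r + 6) * c 3 4 := by
  subst hr
  linear_combination (-5) * rl5_e_1_2_3 hp0 hc +
    (-6) * rl5_e_1_2_4 hc +
    1 * rl5_e_1_2_5 hc +
    (-5) * rl5_e_1_3_4 hp0 hc +
    1 * rl5_e_1_2_6 hc +
    (-3) * rl5_e_1_3_5 hc +
    4 * rl5_e_2_3_4 hc +
    5 * rl5_e_1_3_6 hc +
    (-1) * rl5_e_1_4_5 hp0 hc +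
    (-5) * rl5_e_1_3_7 hc +
    (-3) * rl5_e_1_4_6 hc +
    (-3) * rl5_e_2_3_6 hc +
    4 * rl5_e_1_2_9 hc +
    3 * rl5_e_1_3_8 hc +
    (-1) * rl5_e_1_4_7 hc +
    (-1) * rl5_e_1_5_6 hp0 hc +
    (-5) * rl5_e_2_3_7 hc +
    (-6) * h1 2 (by omega) (by omega) +
    (-6) * h1 3 (by omega) (by omega) +
    (-6) * h1 4 (by omega) (by omega) +
    (-6) * h1 5 (by omega) (by omega) +
    4 * h1 6 (by omega) (by omega) +
    (3 * c 1 2 + (-3) * c 1 4 + 2 * c 1 6 + (-3) * c 1 7 + 2 * c 1 8 +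
      2 * c 1 9 + 2 * c 1 10 + (-3) * c 1 11 + 57 * c 2 3 + 4 * c 2 4 +
      (-2) * c 2 5 + (-2) * c 2 6 + (-3) * c 2 7 + (-3) * c 2 9 + 4 * c 2 10 +
      (-18) * c 3 4 + 1 * c 3 5 + (-2) * c 3 6 + 10 * c 3 7 + (-6) * c 3 8 +
      3 * c 4 6 + (-1) * c 4 7 + (-1) * c 5 7) * hp0

theorem rl5_case3 (hp0 : (13 : ZMod p) = 0) (r : ZMod p) (hr : r = 3)
    (c : ℕ → ℕ → ZMod p) (hc : Coc r c) (h1 : ∀ n, 2 ≤ n → n ≤ 6 → c 1 n = 0) :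
    (r ^ 4 + 16 * r ^ 3 + 41 * r ^ 2 + 146 * r + 120) * c 2 3 = 20 * (r ^ 2 + r + 6) * c 3 4 := by
  subst hr
  linear_combination (-3) * rl5_e_1_2_3 hp0 hc +
    (-5) * rl5_e_1_2_4 hc +
    (-6) * rl5_e_1_2_5 hc +
    3 * rl5_e_1_3_4 hp0 hc +
    (-5) * rl5_e_1_2_6 hc +
    (-1) * rl5_e_1_3_5 hc +
    3 * rl5_e_2_3_4 hc +
    (-5) * rl5_e_1_3_6 hc +
    (-4) * rl5_e_1_4_5 hp0 hc +
    3 * rl5_e_1_2_9 hc +
    (-1) * rl5_e_1_3_8 hc +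
    (-4) * rl5_e_1_4_7 hc +
    (-4) * rl5_e_1_5_6 hp0 hc +
    6 * rl5_e_2_3_7 hc +
    (-5) * h1 2 (by omega) (by omega) +
    (-5) * h1 3 (by omega) (by omega) +
    1 * h1 4 (by omega) (by omega) +
    (-1) * h1 5 (by omega) (by omega) +
    6 * h1 6 (by omega) (by omega) +
    (3 * c 1 2 + (-1) * c 1 3 + (-4) * c 1 5 + (-7) * c 1 6 + (-1) * c 1 7 +
      1 * c 1 8 + 4 * c 1 9 + 111 * c 2 3 + 4 * c 2 4 + 3 * c 2 5 +
      2 * c 2 6 + 2 * c 2 7 + (-3) * c 2 9 + (-32) * c 3 4 + 1 * c 3 5 +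
      4 * c 3 6 + (-7) * c 3 7 + 1 * c 3 8 + 2 * c 3 9 + 3 * c 4 5 +
      (-2) * c 4 6 + 4 * c 4 7 + (-2) * c 4 8 + 4 * c 5 6 + (-2) * c 5 7) * hp0

theorem rl5_case4 (hp0 : (13 : ZMod p) = 0) (r : ZMod p) (hr : r = 4)
    (c : ℕ → ℕ → ZMod p) (hc : Coc r c) (h1 : ∀ n, 2 ≤ n → n ≤ 6 → c 1 n = 0) :
    (r ^ 4 + 16 * r ^ 3 + 41 * r ^ 2 + 146 * r + 120) * c 2 3 = 20 * (r ^ 2 + r + 6) * c 3 4 := by
  subst hr
  linear_combination 5 * rl5_e_1_2_3 hp0 hc +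
    1 * rl5_e_1_2_4 hc +
    4 * rl5_e_1_2_5 hc +
    (-2) * rl5_e_1_3_4 hp0 hc +
    5 * rl5_e_1_2_6 hc +
    1 * rl5_e_1_3_5 hc +
    (-2) * rl5_e_2_3_4 hc +
    (-1) * rl5_e_1_2_7 hc +
    (-5) * rl5_e_1_3_6 hc +
    (-4) * rl5_e_1_4_5 hp0 hc +
    (-5) * rl5_e_1_2_8 hc +
    4 * rl5_e_1_4_6 hc +
    (-1) * rl5_e_1_2_9 hc +
    (-5) * rl5_e_1_3_8 hc +
    (-6) * rl5_e_1_4_7 hc +
    (-1) * rl5_e_1_5_6 hp0 hc +
    (-4) * rl5_e_1_2_10 hc +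
    (-1) * rl5_e_1_3_9 hc +
    3 * rl5_e_1_4_8 hc +
    (-5) * rl5_e_1_5_7 hc +
    1 * rl5_e_1_2_11 hc +
    (-6) * rl5_e_1_3_10 hc +
    2 * rl5_e_1_4_9 hc +
    (-6) * rl5_e_1_5_8 hc +
    2 * rl5_e_1_6_7 hp0 hc +
    5 * rl5_e_2_3_9 hc +
    (-5) * rl5_e_1_2_12 hc +
    2 * rl5_e_1_3_11 hc +
    1 * rl5_e_1_4_10 hc +
    2 * rl5_e_1_5_9 hc +
    (-3) * rl5_e_1_6_8 hc +
    3 * rl5_e_2_3_10 hc +
    5 * rl5_e_2_5_8 hc +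
    2 * h1 2 (by omega) (by omega) +
    (-1) * h1 3 (by omega) (by omega) +
    (-4) * h1 4 (by omega) (by omega) +
    ((-6) * c 1 2 + 3 * c 1 3 + 1 * c 1 4 + 3 * c 1 5 + 2 * c 1 6 +
      (-7) * c 1 7 + (-13) * c 1 8 + 3 * c 1 9 + (-7) * c 1 10 + 7 * c 1 11 +
      (-3) * c 1 12 + 3 * c 1 13 + 2 * c 1 14 + 201 * c 2 3 + (-1) * c 2 4 +
      (-4) * c 2 5 + (-3) * c 2 6 + 3 * c 2 7 + 8 * c 2 8 + 3 * c 2 9 +
      7 * c 2 10 + (-4) * c 2 11 + 5 * c 2 12 + (-7) * c 2 13 + (-37) * c 3 4 +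
      (-1) * c 3 5 + 5 * c 3 6 + (-2) * c 3 7 + 5 * c 3 8 + (-7) * c 3 9 +
      3 * c 3 10 + (-4) * c 3 11 + 3 * c 3 12 + 4 * c 4 5 + (-6) * c 4 6 +
      8 * c 4 7 + (-7) * c 4 8 + (-1) * c 4 9 + (-1) * c 4 10 + 1 * c 4 11 +
      2 * c 5 6 + 4 * c 5 7 + (-5) * c 5 9 + 4 * c 5 10 + (-4) * c 6 7 +
      3 * c 6 8 + (-1) * c 6 9) * hp0

theorem rl5_case5 (hp0 : (13 : ZMod p) = 0) (r : ZMod p) (hr : r = 5)
    (c : ℕ → ℕ → ZMod p) (hc : Coc r c) (h1 : ∀ n, 2 ≤ n → n ≤ 6 → c 1 n = 0) :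
    (r ^ 4 + 16 * r ^ 3 + 41 * r ^ 2 + 146 * r + 120) * c 2 3 = 20 * (r ^ 2 + r + 6) * c 3 4 := by
  subst hr
  linear_combination (-5) * rl5_e_1_2_3 hp0 hc +
    6 * rl5_e_1_2_4 hc +
    4 * rl5_e_1_2_5 hc +
    1 * rl5_e_1_3_4 hp0 hc +
    (-1) * rl5_e_1_2_6 hc +
    6 * rl5_e_1_3_5 hc +
    (-1) * rl5_e_2_3_4 hc +
    6 * rl5_e_1_3_6 hc +
    (-5) * rl5_e_1_4_5 hp0 hc +
    4 * rl5_e_1_3_7 hc +
    5 * rl5_e_1_4_6 hc +
    5 * rl5_e_2_3_6 hc +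
    (-1) * rl5_e_1_2_9 hc +
    (-4) * rl5_e_1_3_8 hc +
    (-3) * rl5_e_1_4_7 hc +
    (-3) * rl5_e_1_5_6 hp0 hc +
    (-2) * rl5_e_2_3_7 hc +
    3 * h1 2 (by omega) (by omega) +
    5 * h1 3 (by omega) (by omega) +
    4 * h1 4 (by omega) (by omega) +
    4 * h1 5 (by omega) (by omega) +
    (-1) * h1 6 (by omega) (by omega) +
    ((-1) * c 1 2 + (-7) * c 1 3 + 5 * c 1 4 + 5 * c 1 5 + 4 * c 1 6 +
      (-4) * c 1 8 + (-2) * c 1 9 + (-2) * c 1 10 + 3 * c 1 11 + 349 * c 2 3 +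
      (-6) * c 2 4 + (-2) * c 2 5 + 6 * c 2 6 + (-2) * c 2 7 + (-55) * c 3 4 +
      (-5) * c 3 5 + (-9) * c 3 6 + 8 * c 3 8 + (-3) * c 3 9 + 6 * c 4 5 +
      (-6) * c 4 6 + 6 * c 4 7 + (-2) * c 4 8 + 5 * c 5 6 + (-2) * c 5 7) * hp0

theorem rl5_case6 (hp0 : (13 : ZMod p) = 0) (r : ZMod p) (hr : r = 6)
    (c : ℕ → ℕ → ZMod p) (hc : Coc r c) (h1 : ∀ n, 2 ≤ n → n ≤ 6 → c 1 n = 0) :
    (r ^ 4 + 16 * r ^ 3 + 41 * r ^ 2 + 146 * r + 120) * c 2 3 = 20 * (r ^ 2 + r + 6) * c 3 4 := by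
  subst hr
  linear_combination 3 * rl5_e_1_2_3 hp0 hc +
    (-6) * rl5_e_1_2_4 hc +
    5 * rl5_e_1_2_5 hc +
    (-6) * rl5_e_1_3_4 hp0 hc +
    (-3) * rl5_e_1_2_6 hc +
    5 * rl5_e_2_3_4 hc +
    (-6) * rl5_e_1_3_6 hc +
    (-5) * rl5_e_1_4_5 hp0 hc +
    (-5) * rl5_e_1_3_7 hc +
    (-3) * rl5_e_1_4_6 hc +
    (-3) * rl5_e_2_3_6 hc +
    3 * rl5_e_1_2_9 hc +
    (-1) * rl5_e_1_3_8 hc +
    (-4) * rl5_e_1_4_7 hc +
    (-4) * rl5_e_1_5_6 hp0 hc +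
    6 * rl5_e_2_3_7 hc +
    1 * h1 2 (by omega) (by omega) +
    (-3) * h1 3 (by omega) (by omega) +
    (-2) * h1 4 (by omega) (by omega) +
    5 * h1 5 (by omega) (by omega) +
    3 * h1 6 (by omega) (by omega) +
    (8 * c 1 3 + (-3) * c 1 4 + 2 * c 1 5 + (-11) * c 1 6 + (-8) * c 1 7 +
      5 * c 1 9 + 2 * c 1 10 + 550 * c 2 3 + 9 * c 2 4 + (-6) * c 2 5 +
      2 * c 2 6 + 4 * c 2 7 + (-3) * c 2 9 + (-73) * c 3 4 + (-1) * c 3 5 +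
      10 * c 3 6 + (-3) * c 3 7 + (-2) * c 3 8 + 2 * c 3 9 + 5 * c 4 5 +
      1 * c 4 6 + 3 * c 4 7 + (-2) * c 4 8 + 4 * c 5 6 + (-2) * c 5 7) * hp0

theorem rl5_case7 (hp0 : (13 : ZMod p) = 0) (r : ZMod p) (hr : r = 7)
    (c : ℕ → ℕ → ZMod p) (hc : Coc r c) (h1 : ∀ n, 2 ≤ n → n ≤ 6 → c 1 n = 0) :
    (r ^ 4 + 16 * r ^ 3 + 41 * r ^ 2 + 146 * r + 120) * c 2 3 = 20 * (r ^ 2 + r + 6) * c 3 4 := by
  subst hr
  linear_combination 1 * rl5_e_1_2_3 hp0 hc +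
    5 * rl5_e_1_2_5 hc +
    2 * rl5_e_1_3_4 hp0 hc +
    1 * rl5_e_1_2_6 hc +
    (-2) * rl5_e_1_3_5 hc +
    5 * rl5_e_2_3_4 hc +
    5 * rl5_e_1_3_6 hc +
    2 * rl5_e_1_4_5 hp0 hc +
    (-3) * rl5_e_1_3_7 hc +
    6 * rl5_e_1_4_6 hc +
    6 * rl5_e_2_3_6 hc +
    2 * rl5_e_1_2_9 hc +
    (-5) * rl5_e_1_3_8 hc +
    6 * rl5_e_1_4_7 hc +
    6 * rl5_e_1_5_6 hp0 hc +
    4 * rl5_e_2_3_7 hc +
    1 * h1 2 (by omega) (by omega) +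
    (-4) * h1 3 (by omega) (by omega) +
    3 * h1 4 (by omega) (by omega) +
    (-3) * h1 5 (by omega) (by omega) +
    (-1) * h1 6 (by omega) (by omega) +
    ((-3) * c 1 2 + 1 * c 1 3 + (-5) * c 1 4 + 1 * c 1 5 + 14 * c 1 6 +
      1 * c 1 7 + (-5) * c 1 8 + 1 * c 1 9 + (-1) * c 1 11 + 841 * c 2 3 +
      4 * c 2 4 + (-5) * c 2 5 + 6 * c 2 6 + 4 * c 2 7 + (-4) * c 2 9 +
      (-102) * c 3 4 + 3 * c 3 5 + (-12) * c 3 6 + 1 * c 3 7 + 7 * c 3 8 +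
      (-1) * c 3 9 + (-3) * c 4 5 + (-6) * c 4 6 + (-6) * c 4 7 + 2 * c 4 8 +
      (-6) * c 5 6 + 4 * c 5 7) * hp0

theorem rl5_case8 (hp0 : (13 : ZMod p) = 0) (r : ZMod p) (hr : r = 8)
    (c : ℕ → ℕ → ZMod p) (hc : Coc r c) (h1 : ∀ n, 2 ≤ n → n ≤ 6 → c 1 n = 0) :
    (r ^ 4 + 16 * r ^ 3 + 41 * r ^ 2 + 146 * r + 120) * c 2 3 = 20 * (r ^ 2 + r + 6) * c 3 4 := by
  subst hr
  linear_combination 5 * rl5_e_1_2_3 hp0 hc +
    3 * rl5_e_1_2_4 hc +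
    (-4) * rl5_e_1_2_5 hc +
    3 * rl5_e_1_3_4 hp0 hc +
    5 * rl5_e_1_2_6 hc +
    (-4) * rl5_e_1_3_5 hc +
    5 * rl5_e_2_3_4 hc +
    3 * rl5_e_1_3_6 hc +
    (-4) * rl5_e_1_3_7 hc +
    (-5) * rl5_e_1_4_6 hc +
    (-5) * rl5_e_2_3_6 hc +
    3 * rl5_e_1_2_9 hc +
    (-1) * rl5_e_1_3_8 hc +
    (-4) * rl5_e_1_4_7 hc +
    (-4) * rl5_e_1_5_6 hp0 hc +
    6 * rl5_e_2_3_7 hc +
    (-3) * h1 2 (by omega) (by omega) +
    (-5) * h1 3 (by omega) (by omega) +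
    5 * h1 4 (by omega) (by omega) +
    ((-5) * c 1 2 + 5 * c 1 3 + 9 * c 1 4 + (-5) * c 1 5 + (-7) * c 1 7 +
      (-2) * c 1 8 + 3 * c 1 9 + 2 * c 1 10 + 1238 * c 2 3 + 2 * c 2 4 +
      5 * c 2 5 + (-12) * c 2 6 + 8 * c 2 7 + (-3) * c 2 9 + (-128) * c 3 4 +
      5 * c 3 5 + 2 * c 3 6 + (-1) * c 3 7 + (-2) * c 3 8 + 2 * c 3 9 +
      (-1) * c 4 5 + 7 * c 4 6 + 3 * c 4 7 + (-2) * c 4 8 + 4 * c 5 6 +
      (-2) * c 5 7) * hp0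

theorem rl5_case9 (hp0 : (13 : ZMod p) = 0) (r : ZMod p) (hr : r = 9)
    (c : ℕ → ℕ → ZMod p) (hc : Coc r c) (h1 : ∀ n, 2 ≤ n → n ≤ 6 → c 1 n = 0) :
    (r ^ 4 + 16 * r ^ 3 + 41 * r ^ 2 + 146 * r + 120) * c 2 3 = 20 * (r ^ 2 + r + 6) * c 3 4 := by
  subst hr
  linear_combination 1 * rl5_e_1_2_3 hp0 hc +
    6 * rl5_e_1_2_4 hc +
    (-4) * rl5_e_1_2_5 hc +
    (-6) * rl5_e_1_3_4 hp0 hc +
    (-2) * rl5_e_1_2_6 hc +
    (-3) * rl5_e_1_3_5 hc +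
    (-4) * rl5_e_2_3_4 hc +
    6 * rl5_e_1_4_5 hp0 hc +
    (-5) * rl5_e_1_3_7 hc +
    (-3) * rl5_e_1_4_6 hc +
    (-3) * rl5_e_2_3_6 hc +
    (-5) * rl5_e_1_2_9 hc +
    6 * rl5_e_1_3_8 hc +
    (-2) * rl5_e_1_4_7 hc +
    (-2) * rl5_e_1_5_6 hp0 hc +
    3 * rl5_e_2_3_7 hc +
    (-2) * h1 2 (by omega) (by omega) +
    (-2) * h1 3 (by omega) (by omega) +
    3 * h1 4 (by omega) (by omega) +
    (-5) * h1 5 (by omega) (by omega) +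
    6 * h1 6 (by omega) (by omega) +
    (7 * c 1 3 + (-1) * c 1 4 + (-8) * c 1 6 + (-6) * c 1 7 + 8 * c 1 8 +
      (-7) * c 1 9 + 2 * c 1 10 + 1 * c 1 11 + 1770 * c 2 3 + (-10) * c 2 4 +
      6 * c 2 5 + (-2) * c 2 6 + 3 * c 2 7 + 8 * c 2 9 + (-4) * c 2 10 +
      (-136) * c 3 4 + 2 * c 3 5 + 2 * c 3 6 + 3 * c 3 7 + (-12) * c 3 8 +
      4 * c 3 9 + (-8) * c 4 5 + 6 * c 4 6 + 1 * c 4 7 + 2 * c 5 6 +
      (-1) * c 5 7) * hp0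

theorem rl5_case10 (hp0 : (13 : ZMod p) = 0) (r : ZMod p) (hr : r = 10)
    (c : ℕ → ℕ → ZMod p) (hc : Coc r c) (h1 : ∀ n, 2 ≤ n → n ≤ 6 → c 1 n = 0) :
    (r ^ 4 + 16 * r ^ 3 + 41 * r ^ 2 + 146 * r + 120) * c 2 3 = 20 * (r ^ 2 + r + 6) * c 3 4 := by
  subst hr
  linear_combination (-2) * rl5_e_1_2_3 hp0 hc +
    (-2) * rl5_e_1_2_4 hc +
    (-2) * rl5_e_1_2_5 hc +
    (-1) * rl5_e_1_3_4 hp0 hc +
    4 * rl5_e_1_2_6 hc +
    2 * rl5_e_1_3_5 hc +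
    4 * rl5_e_2_3_4 hc +
    (-3) * rl5_e_1_3_6 hc +
    (-6) * rl5_e_1_3_7 hc +
    (-1) * rl5_e_1_4_6 hc +
    (-1) * rl5_e_2_3_6 hc +
    6 * rl5_e_1_2_9 hc +
    (-2) * rl5_e_1_3_8 hc +
    5 * rl5_e_1_4_7 hc +
    5 * rl5_e_1_5_6 hp0 hc +
    (-1) * rl5_e_2_3_7 hc +
    2 * h1 2 (by omega) (by omega) +
    (-6) * h1 3 (by omega) (by omega) +
    (-4) * h1 4 (by omega) (by omega) +
    2 * h1 5 (by omega) (by omega) +
    4 * h1 6 (by omega) (by omega) +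
    (4 * c 1 3 + (-5) * c 1 4 + (-4) * c 1 5 + 5 * c 1 6 + (-1) * c 1 7 +
      (-4) * c 1 8 + 9 * c 1 9 + 2 * c 1 10 + (-4) * c 1 11 + 2437 * c 2 3 +
      6 * c 2 4 + 2 * c 2 5 + (-7) * c 2 6 + (-9) * c 2 9 + 4 * c 2 10 +
      (-182) * c 3 4 + (-3) * c 3 5 + 7 * c 3 6 + 9 * c 3 7 + (-1) * c 3 9 +
      1 * c 4 6 + (-9) * c 4 7 + 2 * c 4 8 + (-8) * c 5 6 + 3 * c 5 7) * hp0

theorem rl5_case11 (hp0 : (13 : ZMod p) = 0) (r : ZMod p) (hr : r = 11)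
    (c : ℕ → ℕ → ZMod p) (hc : Coc r c) (h1 : ∀ n, 2 ≤ n → n ≤ 6 → c 1 n = 0) :
    (r ^ 4 + 16 * r ^ 3 + 41 * r ^ 2 + 146 * r + 120) * c 2 3 = 20 * (r ^ 2 + r + 6) * c 3 4 := by
  subst hr
  linear_combination 1 * rl5_e_1_2_4 hc +
    4 * rl5_e_1_2_5 hc +
    (-3) * rl5_e_1_3_4 hp0 hc +
    (-5) * rl5_e_1_2_6 hc +
    (-1) * rl5_e_1_3_5 hc +
    3 * rl5_e_2_3_4 hc +
    (-5) * rl5_e_1_3_6 hc +
    (-3) * rl5_e_1_4_5 hp0 hc +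
    (-4) * rl5_e_1_3_7 hc +
    (-5) * rl5_e_1_4_6 hc +
    (-5) * rl5_e_2_3_6 hc +
    (-3) * rl5_e_1_2_9 hc +
    1 * rl5_e_1_3_8 hc +
    4 * rl5_e_1_4_7 hc +
    4 * rl5_e_1_5_6 hp0 hc +
    (-6) * rl5_e_2_3_7 hc +
    (-4) * h1 2 (by omega) (by omega) +
    (-4) * h1 3 (by omega) (by omega) +
    (-4) * h1 4 (by omega) (by omega) +
    2 * h1 5 (by omega) (by omega) +
    (-6) * h1 6 (by omega) (by omega) +
    (1 * c 1 2 + 9 * c 1 3 + 2 * c 1 4 + (-3) * c 1 5 + (-13) * c 1 6 +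
      (-1) * c 1 7 + 3 * c 1 8 + (-3) * c 1 9 + 2 * c 1 10 + 3284 * c 2 3 +
      2 * c 2 4 + (-5) * c 2 5 + 2 * c 2 6 + (-10) * c 2 7 + 6 * c 2 9 +
      (-212) * c 3 4 + 1 * c 3 5 + 14 * c 3 6 + 13 * c 3 7 + (-5) * c 3 8 +
      (-2) * c 3 9 + 4 * c 4 5 + 6 * c 4 6 + (-9) * c 4 7 + 2 * c 4 8 +
      (-8) * c 5 6 + 2 * c 5 7) * hp0

theorem rl5_case12 (hp0 : (13 : ZMod p) = 0) (r : ZMod p) (hr : r = 12)
    (c : ℕ → ℕ → ZMod p) (hc : Coc r c) (h1 : ∀ n, 2 ≤ n → n ≤ 6 → c 1 n = 0) :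
    (r ^ 4 + 16 * r ^ 3 + 41 * r ^ 2 + 146 * r + 120) * c 2 3 = 20 * (r ^ 2 + r + 6) * c 3 4 := by
  subst hr
  linear_combination (-5) * rl5_e_1_2_3 hp0 hc +
    (-6) * rl5_e_1_2_4 hc +
    (-5) * rl5_e_1_2_5 hc +
    (-4) * rl5_e_1_3_4 hp0 hc +
    (-4) * rl5_e_1_2_6 hc +
    (-5) * rl5_e_1_3_5 hc +
    6 * rl5_e_2_3_4 hc +
    1 * rl5_e_1_3_6 hc +
    (-6) * rl5_e_1_4_5 hp0 hc +
    (-5) * rl5_e_1_2_8 hc +
    (-1) * rl5_e_1_3_7 hc +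
    (-6) * rl5_e_1_4_6 hc +
    (-1) * rl5_e_2_3_6 hc +
    (-2) * rl5_e_1_2_9 hc +
    (-6) * rl5_e_1_3_8 hc +
    (-5) * rl5_e_1_4_7 hc +
    (-5) * rl5_e_1_5_6 hp0 hc +
    4 * rl5_e_1_2_10 hc +
    (-1) * rl5_e_1_3_9 hc +
    1 * rl5_e_1_4_8 hc +
    (-4) * rl5_e_1_5_7 hc +
    (-5) * rl5_e_1_2_11 hc +
    (-2) * rl5_e_1_3_10 hc +
    4 * rl5_e_1_4_9 hc +
    6 * rl5_e_1_5_8 hc +
    (-5) * rl5_e_1_6_7 hp0 hc +
    2 * rl5_e_2_3_9 hc +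
    (-3) * rl5_e_1_2_12 hc +
    (-4) * rl5_e_1_3_11 hc +
    (-2) * rl5_e_1_4_10 hc +
    (-4) * rl5_e_1_5_9 hc +
    6 * rl5_e_1_6_8 hc +
    (-6) * rl5_e_2_3_10 hc +
    3 * rl5_e_2_5_8 hc +
    (-5) * h1 2 (by omega) (by omega) +
    2 * h1 3 (by omega) (by omega) +
    2 * h1 4 (by omega) (by omega) +
    2 * h1 5 (by omega) (by omega) +
    2 * h1 6 (by omega) (by omega) +
    (21 * c 1 2 + 9 * c 1 3 + 1 * c 1 4 + (-12) * c 1 5 + (-16) * c 1 6 +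
      (-16) * c 1 7 + 2 * c 1 8 + (-4) * c 1 9 + 4 * c 1 10 + (-10) * c 1 11 +
      (-7) * c 1 12 + 2 * c 1 13 + 6 * c 1 14 + 4323 * c 2 3 + 14 * c 2 4 +
      3 * c 2 5 + 3 * c 2 6 + (-2) * c 2 7 + 12 * c 2 8 + 4 * c 2 9 +
      (-18) * c 2 10 + 12 * c 2 11 + 1 * c 2 12 + (-252) * c 3 4 + 6 * c 3 5 +
      (-1) * c 3 6 + 2 * c 3 7 + 9 * c 3 8 + (-5) * c 3 9 + 14 * c 3 10 +
      7 * c 3 11 + (-7) * c 3 12 + 8 * c 4 5 + 8 * c 4 6 + 6 * c 4 7 +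
      (-5) * c 4 8 + (-7) * c 4 9 + 6 * c 4 10 + (-2) * c 4 11 + 7 * c 5 6 +
      4 * c 5 7 + (-18) * c 5 8 + 12 * c 5 9 + (-2) * c 5 10 + 8 * c 6 7 +
      (-12) * c 6 8 + 2 * c 6 9 + 3 * c 7 8) * hp0

theorem phi_thirteen (hp : p = 13) (r : ZMod p) (c : ℕ → ℕ → ZMod p) (hc : Coc r c)
    (h1 : ∀ n, 2 ≤ n → n ≤ 6 → c 1 n = 0) :
    (r ^ 4 + 16 * r ^ 3 + 41 * r ^ 2 + 146 * r + 120) * c 2 3 = 20 * (r ^ 2 + r + 6) * c 3 4 := by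
  have hp0 : (13 : ZMod p) = 0 := by
    subst hp
    exact_mod_cast ZMod.natCast_self 13
  obtain ⟨n, hn, hr⟩ : ∃ n : ℕ, n < 13 ∧ r = n :=
    ⟨r.val, hp ▸ ZMod.val_lt r, (ZMod.natCast_zmod_val r).symm⟩
  interval_cases n
  · exact rl5_case0 hp0 r (by exact_mod_cast hr) c hc h1
  · exact rl5_case1 hp0 r (by exact_mod_cast hr) c hc h1
  · exact rl5_case2 hp0 r (by exact_mod_cast hr) c hc h1
  · exact rl5_case3 hp0 r (by exact_mod_cast hr) c hc h1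
  · exact rl5_case4 hp0 r (by exact_mod_cast hr) c hc h1
  · exact rl5_case5 hp0 r (by exact_mod_cast hr) c hc h1
  · exact rl5_case6 hp0 r (by exact_mod_cast hr) c hc h1
  · exact rl5_case7 hp0 r (by exact_mod_cast hr) c hc h1
  · exact rl5_case8 hp0 r (by exact_mod_cast hr) c hc h1
  · exact rl5_case9 hp0 r (by exact_mod_cast hr) c hc h1
  · exact rl5_case10 hp0 r (by exact_mod_cast hr) c hc h1
  · exact rl5_case11 hp0 r (by exact_mod_cast hr) c hc h1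
  · exact rl5_case12 hp0 r (by exact_mod_cast hr) c hc h1

end Pool.Agent.P.MP_e06b60_al.R
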