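import Mathlib
import Pool.Agent.P.MP_e06b60_al.RL2
import Pool.Agent.P.MP_e06b60_al.RL3
import Pool.Agent.P.MP_e06b60_al.RL4
import Pool.Agent.P.MP_e06b60_al.RL5

namespace Pool.Agent.P.MP_e06b60_al.R

open PowerSeries
open scoped commutatorElement

variable {p : ℕ} [Fact p.Prime]

theorem cob_coc (r : ZMod p) (b : ℕ → ZMod p) : Coc r (cob r b) := by
  refine ⟨fun i j _ _ => ?_, fun i j l _ _ _ => ?_⟩
  · unfold cob
    rw [add_comm j i]
    ring
  · unfold cob
    rw [show j + l + i = i + j + l by omega, show l + i + j = i + j + l by omega]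
    push_cast
    ring

theorem Coc.sub {r : ZMod p} {c c' : ℕ → ℕ → ZMod p} (h : Coc r c) (h' : Coc r c') :
    Coc r fun i j => c i j - c' i j := by
  refine ⟨fun i j hi hj => ?_, fun i j l hi hj hl => ?_⟩
  · linear_combination h.anti i j hi hj - h'.anti i j hi hj
  · linear_combination h.jac i j l hi hj hl - h'.jac i j l hi hj hl

theorem phi (hp : 7 ≤ p) (r : ZMod p) (c : ℕ → ℕ → ZMod p) (hc : Coc r c)
    (h1 : ∀ n, 2 ≤ n → n ≤ 6 → c 1 n = 0) :
    (r ^ 4 + 16 * r ^ 3 + 41 * r ^ 2 + 146 * r + 120) * c 2 3 = 20 * (r ^ 2 + r + 6) * c 3 4 := by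
  by_cases h17 : 17 ≤ p
  · exact phi_big h17 r c hc h1
  have hpp : p.Prime := Fact.out
  have hcase : p = 7 ∨ p = 11 ∨ p = 13 := by
    have h16 : p ≤ 16 := by omega
    interval_cases p <;> first | omega | (exfalso; revert hpp; norm_num)
  rcases hcase with h | h | h
  · exact phi_seven h r c hc h1
  · exact phi_eleven h r c hc h1
  · exact phi_thirteen h r c hc h1

/-- the normalising sequence -/
noncomputable def rl6_seq (r b1 b2 : ZMod p) (t : ℕ → ZMod p) : ℕ → ZMod p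
  | 0 => 0
  | 1 => b1
  | 2 => b2
  | n + 3 => (t (n + 2) + (1 - ((n + 2 : ℕ) : ZMod p) + r) * b1 +
      (1 - ((n + 2 : ℕ) : ZMod p) - r) * rl6_seq r b1 b2 t (n + 2)) / (1 - ((n + 2 : ℕ) : ZMod p))

theorem rl6_norm (hp : 7 ≤ p) (r b1 b2 : ZMod p) (t : ℕ → ZMod p) :
    ∃ b : ℕ → ZMod p, b 1 = b1 ∧ b 2 = b2 ∧ ∀ n, 2 ≤ n → n ≤ 6 → cob r b 1 n = t n := by
  refine ⟨rl6_seq r b1 b2 t, rfl, rfl, fun n h2 h6 => ?_⟩
  obtain ⟨m, rfl⟩ : ∃ m, n = m + 2 := ⟨n - 2, by omega⟩
  have hu : (1 - ((m + 2 : ℕ) : ZMod p)) ≠ 0 := by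
    have := cast_ne_zero (p := p) (a := m + 1) (by omega) (by omega)
    intro h
    apply this
    push_cast at h ⊢
    linear_combination -h
  unfold cob
  rw [show 1 + (m + 2) = m + 3 by omega, rl6_seq, rl6_seq, Nat.cast_one, mul_div_cancel₀ _ hu]
  ring

theorem l4_base (hp : 7 ≤ p) (r : ZMod p) (c : ℕ → ℕ → ZMod p) (hc : Coc r c) :
    ∃ b, ∀ i j, 1 ≤ i → 1 ≤ j → i + j ≤ 7 → c i j = cob r b i j := by
  have u2 : (2 : ZMod p) ≠ 0 := by exact_mod_cast cast_ne_zero (p := p) (a := 2) (by omega) (by omega)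
  have u3 : (3 : ZMod p) ≠ 0 := by exact_mod_cast cast_ne_zero (p := p) (a := 3) (by omega) (by omega)
  have u5 : (5 : ZMod p) ≠ 0 := by exact_mod_cast cast_ne_zero (p := p) (a := 5) (by omega) (by omega)
  have u6 : (6 : ZMod p) ≠ 0 := by
    have := mul_ne_zero u2 u3
    intro h; apply this; linear_combination h
  have u20 : (20 : ZMod p) ≠ 0 := by
    have := mul_ne_zero (mul_ne_zero u2 u2) u5
    intro h; apply this; linear_combination h
  have u120 : (120 : ZMod p) ≠ 0 := by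
    have := mul_ne_zero u6 u20
    intro h; apply this; linear_combination h
  obtain ⟨b0, -, -, hb0⟩ := rl6_norm hp r 0 0 (c 1)
  have hc1 := hc.sub (cob_coc r b0)
  have hphi := phi hp r _ hc1 fun n h2 h6 => by rw [hb0 n h2 h6, sub_self]
  obtain ⟨κ, k1, k2⟩ : ∃ κ : ZMod p, c 2 3 - cob r b0 2 3 = 20 * (r ^ 2 + r + 6) * κ ∧
      c 3 4 - cob r b0 3 4 = (r ^ 4 + 16 * r ^ 3 + 41 * r ^ 2 + 146 * r + 120) * κ := by
    by_cases h5 : r ^ 2 + r + 6 = 0
    · have h7 : r ^ 4 + 16 * r ^ 3 + 41 * r ^ 2 + 146 * r + 120 ≠ 0 := by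
        intro h7
        have e : 6 * (6 * r) = 0 := by linear_combination h7 - (r ^ 2 + 15 * r + 20) * h5
        have e2 : r = 0 :=
          (mul_eq_zero.1 ((mul_eq_zero.1 e).resolve_left u6)).resolve_left u6
        apply u6
        rw [e2] at h5
        linear_combination h5
      refine ⟨(c 3 4 - cob r b0 3 4) / (r ^ 4 + 16 * r ^ 3 + 41 * r ^ 2 + 146 * r + 120), ?_,
        (mul_div_cancel₀ _ h7).symm⟩
      rw [h5, mul_zero, zero_mul] at hphi
      rw [h5, mul_zero, zero_mul]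
      exact (mul_eq_zero.1 hphi).resolve_left h7
    · have h20 := mul_ne_zero u20 h5
      refine ⟨(c 2 3 - cob r b0 2 3) / (20 * (r ^ 2 + r + 6)), (mul_div_cancel₀ _ h20).symm, ?_⟩
      rw [← mul_div_assoc, eq_div_iff h20]
      linear_combination -hphi
  obtain ⟨x1, x2, hx⟩ : ∃ x1 x2 : ZMod p, (r - 2) * x1 - (r - 1) * x2 = 120 * κ := by
    rcases one_or_two r with h | h
    · exact ⟨0, -(120 * κ / (r - 1)), by rw [mul_zero, mul_neg, mul_div_cancel₀ _ h]; ring⟩
    · exact ⟨120 * κ / (r - 2), 0, by rw [mul_zero, mul_div_cancel₀ _ h, sub_zero]⟩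
  obtain ⟨b1, e1, e2, hb1⟩ := rl6_norm hp r x1 x2 fun _ => 0
  rw [← e1, ← e2] at hx
  have g2 := hb1 2 (by omega) (by omega)
  have g3 := hb1 3 (by omega) (by omega)
  have g4 := hb1 4 (by omega) (by omega)
  have g5 := hb1 5 (by omega) (by omega)
  have g6 := hb1 6 (by omega) (by omega)
  have f23 : cob r b1 2 3 = 20 * (r ^ 2 + r + 6) * κ := by
    apply mul_left_cancel₀ u6
    simp only [cob, Nat.reduceAdd, Nat.cast_ofNat, Nat.cast_one] at g2 g3 g4 ⊢
    linear_combination 2 * g4 + (3 + r) * g3 + (r ^ 2 - r) * g2 + (r ^ 2 + r + 6) * hx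
  have f34 : cob r b1 3 4 = (r ^ 4 + 16 * r ^ 3 + 41 * r ^ 2 + 146 * r + 120) * κ := by
    apply mul_left_cancel₀ u120
    simp only [cob, Nat.reduceAdd, Nat.cast_ofNat, Nat.cast_one] at g2 g3 g4 g5 g6 ⊢
    linear_combination 24 * g6 + (30 + 6 * r) * g5 + (40 + 18 * r + 2 * r ^ 2) * g4 +
      (-13 * r + 12 * r ^ 2 + r ^ 3) * g3 + (-120 + 94 * r + 11 * r ^ 2 + 14 * r ^ 3 + r ^ 4) * g2 +
      (r ^ 4 + 16 * r ^ 3 + 41 * r ^ 2 + 146 * r + 120) * hx
  have hc2 := hc1.sub (cob_coc r b1)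
  set d : ℕ → ℕ → ZMod p := fun i j => c i j - cob r b0 i j - cob r b1 i j with hd
  have d1 : ∀ n, 2 ≤ n → n ≤ 6 → d 1 n = 0 := fun n h2 h6 => by
    simp only [hd]
    rw [hb0 n h2 h6, hb1 n h2 h6]
    ring
  have d23 : d 2 3 = 0 := by
    simp only [hd]
    rw [k1, f23, sub_self]
  have d34 : d 3 4 = 0 := by
    simp only [hd]
    rw [k2, f34, sub_self]
  have dd : ∀ i, 1 ≤ i → d i i = 0 := fun i hi => by
    apply mul_left_cancel₀ u2
    linear_combination hc2.anti i i hi hi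
  have da : ∀ i j, 1 ≤ i → 1 ≤ j → d i j = 0 → d j i = 0 := fun i j hi hj h => by
    rw [hc2.anti i j hi hj, h, neg_zero]
  have d42 : d 4 2 = 0 := by
    have j := hc2.jac 1 2 3 (by omega) (by omega) (by omega)
    simp only [Nat.reduceAdd, Nat.cast_ofNat, Nat.cast_one] at j
    rw [dd 3 (by omega), da 1 5 (by omega) (by omega) (d1 5 (by omega) (by omega)),
      d1 2 (by omega) (by omega), d23, da 1 3 (by omega) (by omega) (d1 3 (by omega) (by omega))] at j
    apply mul_left_cancel₀ u2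
    linear_combination j
  have d24 : d 2 4 = 0 := da 4 2 (by omega) (by omega) d42
  have d52 : d 5 2 = 0 := by
    have j := hc2.jac 1 2 4 (by omega) (by omega) (by omega)
    simp only [Nat.reduceAdd, Nat.cast_ofNat, Nat.cast_one] at j
    rw [d34, da 1 6 (by omega) (by omega) (d1 6 (by omega) (by omega)),
      d1 2 (by omega) (by omega), d24, da 1 4 (by omega) (by omega) (d1 4 (by omega) (by omega))] at j
    apply mul_left_cancel₀ u3
    linear_combination j
  have d25 : d 2 5 = 0 := da 5 2 (by omega) (by omega) d52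
  have lt : ∀ i j, 1 ≤ i → i < j → i + j ≤ 7 → d i j = 0 := by
    intro i j hi hij h7
    have hi3 : i ≤ 3 := by omega
    interval_cases i
    · exact d1 j (by omega) (by omega)
    · have hj : j ≤ 5 := by omega
      interval_cases j
      · exact d23
      · exact d24
      · exact d25
    · have hj : j = 4 := by omega
      rw [hj]
      exact d34
  refine ⟨fun n => b0 n + b1 n, fun i j hi hj h7 => ?_⟩
  have hz : d i j = 0 := by
    rcases lt_trichotomy i j with h | h | h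
    · exact lt i j hi h h7
    · rw [← h]
      exact dd i hi
    · exact da j i hj hi (lt j i hj h (by omega))
  simp only [hd, cob] at hz ⊢
  linear_combination hz

end Pool.Agent.P.MP_e06b60_al.R
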