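import Mathlib
import Pool.Agent.P.MP_e06b60_al.RL1
import Pool.Agent.P.MP_e06b60_al.RL6
import Pool.Agent.P.MP_e06b60_al.RA3

namespace Pool.Agent.P.MP_e06b60_al.R

open PowerSeries
open scoped commutatorElement

variable {p : ℕ} [Fact p.Prime]

theorem rl7_eq {r : ZMod p} {c : ℕ → ℕ → ZMod p} (hc : Coc r c) (M i j l : ℕ) (hi : 1 ≤ i)
    (hj : 1 ≤ j) (hl : 1 ≤ l) (hM : i + j + l = M) :
    ((i : ZMod p) - j) * c (i + j) (M - (i + j)) =
      ((i : ZMod p) + 2 * j - M) * c i (M - i) - ((j : ZMod p) + 2 * i - M) * c j (M - j) -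
        (((i : ZMod p) + j + r - l) * c i j + ((j : ZMod p) + l + r - i) * c j l +
          ((l : ZMod p) + i + r - j) * c l i) := by
  have h := hc.jac i j l hi hj hl
  have h1 := hc.anti i (j + l) hi (by omega)
  have h2 := hc.anti j (l + i) hj (by omega)
  have e1 : M - (i + j) = l := by omega
  have e2 : M - i = j + l := by omega
  have e3 : M - j = l + i := by omega
  have e4 : (M : ZMod p) = i + j + l := by
    rw [← hM]
    push_cast
    ring
  rw [e1, e2, e3, e4]
  rw [h1, h2] at h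
  linear_combination h

theorem rl7_kill {r : ZMod p} {c : ℕ → ℕ → ZMod p} (hc : Coc r c) (M : ℕ) (a : ZMod p) :
    ∃ c' : ℕ → ℕ → ZMod p, Coc r c' ∧ (∀ i j, 1 ≤ i → 1 ≤ j → i + j < M → c' i j = c i j) ∧
      ∀ i j : ℕ, 1 ≤ i → 1 ≤ j → i + j = M → c' i j = c i j - ((i : ZMod p) - j) * a := by
  refine ⟨_, hc.sub (cob_coc r fun n => if n = M then a else 0), ?_, ?_⟩
  · intro i j hi hj h
    simp only [cob]
    rw [if_neg (by omega), if_neg (by omega), if_neg (by omega)]
    ring
  · intro i j hi hj h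
    simp only [cob]
    rw [if_pos h, if_neg (by omega), if_neg (by omega)]
    ring

theorem rl7_inner (hp : 7 ≤ p) {r : ZMod p} {c : ℕ → ℕ → ZMod p} (hc : Coc r c) (M : ℕ)
    (hM : 8 ≤ M) (h0 : ∀ i j l : ℕ, 1 ≤ i → 1 ≤ j → 1 ≤ l → i + j + l = M →
      ((i : ZMod p) + j + r - l) * c i j = 0) :
    ∃ α μ : ZMod p, ((M : ZMod p) ≠ 0 → μ = 0) ∧ ∀ i j : ℕ, 1 ≤ i → 1 ≤ j → i + j = M →
      c i j = ((i : ZMod p) - j) * α + μ * i ^ 3 := by
  obtain ⟨α, μ, h1, h2⟩ := l1 hp (M : ZMod p) (M - 1) (by omega) (fun i => c i (M - i)) (by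
    intro i j hi hj hij
    obtain ⟨l, hl⟩ : ∃ l, i + j + l = M := ⟨M - (i + j), by omega⟩
    have hl1 : 1 ≤ l := by omega
    rw [rl7_eq hc M i j l hi hj hl1 hl, h0 i j l hi hj hl1 hl, h0 j l i hj hl1 hi (by omega),
      h0 l i j hl1 hi hj (by omega)]
    ring)
  refine ⟨α, μ, h1, fun i j hi hj hij => ?_⟩
  have h := h2 i hi (by omega)
  have e1 : M - i = j := by omega
  have e2 : (M : ZMod p) = i + j := by
    rw [← hij]
    push_cast
    ring
  simp only [e1, e2] at h
  rw [h]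
  ring

theorem rl7_top (hp : 7 ≤ p) {r : ZMod p} {c : ℕ → ℕ → ZMod p} (hc : Coc r c) (N t : ℕ)
    (ht : t = 1 ∨ t = 2) (hN : 12 ≤ N ∨ (8 ≤ N ∧ t = 1)) (hz : (N : ZMod p) = 0) (μ : ZMod p)
    (h0 : ∀ i j, 1 ≤ i → 1 ≤ j → i + j < N + t → i + j ≠ N → c i j = 0)
    (h1 : ∀ i j : ℕ, 1 ≤ i → 1 ≤ j → i + j = N → c i j = μ * i ^ 3) : (r - t) * μ = 0 := by
  refine l2 hp t ht (N - 1) (by omega) (fun i => c i (N + t - i)) _ 0 ?_
  intro i j hi hj hij
  obtain ⟨l, hl⟩ : ∃ l, i + j + l = N + t := ⟨N + t - (i + j), by omega⟩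
  have hl1 : 1 ≤ l := by omega
  have e0 : ((N + t : ℕ) : ZMod p) = t := by
    push_cast
    rw [hz, zero_add]
  have e1 : ((j : ZMod p) + l + r - i) * c j l =
      if i = t then (r - t) * μ * j ^ 3 + 0 * j else 0 := by
    split_ifs with h
    · have e : (j : ZMod p) + l = 0 := by
        rw [← hz, show N = j + l by omega]
        push_cast
        ring
      rw [h1 j l hj hl1 (by omega), e, h]
      ring
    · rw [h0 j l hj hl1 (by omega) (by omega), mul_zero]
  have e2 : ((l : ZMod p) + i + r - j) * c l i =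
      -if j = t then (r - t) * μ * i ^ 3 + 0 * i else 0 := by
    split_ifs with h
    · have e : (l : ZMod p) = -i := by
        rw [eq_neg_iff_add_eq_zero, ← hz, show N = l + i by omega]
        push_cast
        ring
      rw [h1 l i hl1 hi (by omega), e, h]
      ring
    · rw [h0 l i hl1 hi (by omega) (by omega), mul_zero, neg_zero]
  rw [rl7_eq hc (N + t) i j l hi hj hl1 hl, h0 i j hi hj (by omega) (by omega), e0, e1, e2]
  ring

theorem rl7_cube (hp : 7 ≤ p) {r : ZMod p} {c : ℕ → ℕ → ZMod p} (hc : Coc r c) (N : ℕ)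
    (hN : 8 ≤ N) (hz : (N : ZMod p) = 0) (μ : ZMod p)
    (h0 : ∀ i j, 1 ≤ i → 1 ≤ j → i + j < N → c i j = 0)
    (h1 : ∀ i j : ℕ, 1 ≤ i → 1 ≤ j → i + j = N → c i j = μ * i ^ 3) : μ = 0 := by
  have hA := rl7_top hp hc N 1 (Or.inl rfl) (Or.inr ⟨hN, rfl⟩) hz μ
    (fun i j hi hj h h' => h0 i j hi hj (by omega)) h1
  rcases mul_eq_zero.1 hA with hr | hr
  swap
  · exact hr
  rw [Nat.cast_one, sub_eq_zero] at hr
  subst hr
  by_cases h12 : 12 ≤ N
  · obtain ⟨α, ν, hν, hα⟩ := rl7_inner hp hc (N + 1) (by omega) (by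
      intro i j l hi hj hl h
      by_cases hl1 : l = 1
      · have e : (i : ZMod p) + j = 0 := by
          rw [← hz, show N = i + j by omega]
          push_cast
          ring
        rw [e, hl1]
        simp
      · rw [h0 i j hi hj (by omega), mul_zero])
    have hν0 : ν = 0 := hν (by
      push_cast
      rw [hz, zero_add]
      exact one_ne_zero)
    obtain ⟨c', hc', g0, g1⟩ := rl7_kill hc (N + 1) α
    have hB := rl7_top hp hc' N 2 (Or.inr rfl) (Or.inl h12) hz μ (by
      intro i j hi hj h h'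
      by_cases hh : i + j = N + 1
      · rw [g1 i j hi hj hh, hα i j hi hj hh, hν0]
        ring
      · rw [g0 i j hi hj (by omega), h0 i j hi hj (by omega)]) (by
      intro i j hi hj h
      rw [g0 i j hi hj (by omega), h1 i j hi hj h])
    push_cast at hB
    linear_combination -hB
  · have hd : p ∣ N := (ZMod.natCast_eq_zero_iff N p).1 hz
    have hle : p ≤ N := Nat.le_of_dvd (by omega) hd
    have hpp : p.Prime := Fact.out
    have hN11 : N = p := by
      obtain ⟨k, hk⟩ := hd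
      have hk1 : k = 1 := by
        rcases k with _ | _ | k
        · omega
        · rfl
        · nlinarith
      rw [hk, hk1, mul_one]
    have h11 : p = 11 := by
      have h8 : p ≠ 8 := fun h => by
        rw [h] at hpp
        norm_num at hpp
      have h9 : p ≠ 9 := fun h => by
        rw [h] at hpp
        norm_num at hpp
      have h10 : p ≠ 10 := fun h => by
        rw [h] at hpp
        norm_num at hpp
      omega
    exact l4_special h11 c hc μ (fun i j hi hj h => h0 i j hi hj (by omega))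
      fun i j hi hj h => h1 i j hi hj (by omega)

theorem l4_step (hp : 7 ≤ p) (r : ZMod p) (c : ℕ → ℕ → ZMod p) (hc : Coc r c) (N : ℕ)
    (hN : 8 ≤ N) (h0 : ∀ i j, 1 ≤ i → 1 ≤ j → i + j < N → c i j = 0) :
    ∃ a : ZMod p, ∀ i j : ℕ, 1 ≤ i → 1 ≤ j → i + j = N → c i j = ((i : ZMod p) - j) * a := by
  obtain ⟨α, μ, hμ, hα⟩ := rl7_inner hp hc N hN (by
    intro i j l hi hj hl h
    rw [h0 i j hi hj (by omega), mul_zero])
  have hμ0 : μ = 0 := by
    by_cases hz : (N : ZMod p) = 0
    · obtain ⟨c', hc', g0, g1⟩ := rl7_kill hc N α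
      refine rl7_cube hp hc' N hN hz μ (fun i j hi hj h => ?_) fun i j hi hj h => ?_
      · rw [g0 i j hi hj h, h0 i j hi hj h]
      · rw [g1 i j hi hj h, hα i j hi hj h]
        ring
    · exact hμ hz
  refine ⟨α, fun i j hi hj h => ?_⟩
  rw [hα i j hi hj h, hμ0]
  ring

theorem l4 (hp : 7 ≤ p) (r : ZMod p) (c : ℕ → ℕ → ZMod p) (hc : Coc r c) :
    ∃ b, ∀ i j, 1 ≤ i → 1 ≤ j → c i j = cob r b i j := by
  obtain ⟨b0, hb0⟩ := l4_base hp r c hc
  obtain ⟨b, hb⟩ := diag (fun (b : ℕ → ZMod p) N =>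
      ∀ i j, 1 ≤ i → 1 ≤ j → i + j ≤ N → c i j = cob r b i j) 7 (by
      intro f g N hfg hf i j hi hj h
      rw [hf i j hi hj h]
      simp only [cob]
      rw [hfg (i + j) h, hfg i (by omega), hfg j (by omega)]) b0 hb0 (by
      intro f N hN hf
      obtain ⟨a, ha⟩ := l4_step hp r _ (hc.sub (cob_coc r f)) (N + 1) (by omega) (by
        intro i j hi hj h
        rw [hf i j hi hj (by omega), sub_self])
      refine ⟨f (N + 1) + a, fun i j hi hj h => ?_⟩
      simp only [cob]
      rw [Function.update_of_ne (show i ≠ N + 1 by omega),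
        Function.update_of_ne (show j ≠ N + 1 by omega)]
      by_cases hh : i + j = N + 1
      · have h1 := ha i j hi hj hh
        simp only [cob] at h1
        rw [hh] at h1
        rw [hh, Function.update_self]
        linear_combination h1
      · rw [Function.update_of_ne hh, hf i j hi hj (by omega)]
        simp only [cob])
  exact ⟨b, fun i j hi hj => hb (i + j + 7) (by omega) i j hi hj (by omega)⟩

end Pool.Agent.P.MP_e06b60_al.R
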