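import Mathlib
import Pool.Agent.P.MP_e06b60_al.RB1
import Pool.Agent.P.MP_e06b60_al.RL7

namespace Pool.Agent.P.MP_e06b60_al.R

open PowerSeries
open scoped commutatorElement

variable {p : ℕ} [Fact p.Prime] {G H : Type} [Group G] [Group H]

theorem rb2_fun {A : PF p G} {B : PF p H} {r : ℕ} (R : Corr A B r) {n : ℕ} (hn : 1 ≤ n) :
    IsFun p R.toNS n fun x => A.lead n x.1 :=
  ⟨fun x hx y hy => (A.isFun n hn).mul _ (R.fst_mem n hn x hx) _ (R.fst_mem n hn y hy),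
    fun x hx => (A.isFun n hn).zero _ (R.fst_mem (n + 1) (by omega) x hx)⟩

theorem rb2_br {A : PF p G} {B : PF p H} {r : ℕ} (R : Corr A B r) {i j : ℕ} (hi : 1 ≤ i)
    (hj : 1 ≤ j) {x y : G × H} (hx : x ∈ R.F i) (hy : y ∈ R.F j) :
    A.lead (i + j) ⁅x, y⁆.1 = ((i : ZMod p) - j) * A.lead i x.1 * A.lead j y.1 :=
  A.br i j hi hj _ (R.fst_mem i hi x hx) _ (R.fst_mem j hj y hy)

theorem corr_gen (hp : 7 ≤ p) {A : PF p G} {B : PF p H} (hA : A.Ker) (hB : B.Ker) {r : ℕ} (hr : 1 ≤ r)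
    (R : Corr A B r) (hexp : ∀ n, 1 ≤ n → ∀ x ∈ R.F n, x ^ p ∈ R.F (n + 1)) :
    ∃ X : ℕ → G × H, (∀ n, 1 ≤ n → X n ∈ R.F n ∧ A.lead n (X n).1 = 1) ∧
      ∀ i j, 1 ≤ i → 1 ≤ j → ⁅X i, X j⁆ * (X (i + j) ^ ((i : ℤ) - j))⁻¹ ∈ R.F (i + j + 1) := by
  choose! X0 hX0 hL0 using R.surj
  choose! h hh hh1 using B.surj
  have ht := fun n (hn : 1 ≤ n) => corr_tau hA hB hr R hexp hn (hX0 n hn) (hL0 n hn)
  choose! τ hτ hτ0 hτ1 hτ2 using ht
  obtain ⟨Y, hY⟩ : ∃ Y : ℕ → G × H, ∀ n, Y n = (1, h (n + r)) := ⟨_, fun _ => rfl⟩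
  have Ym : ∀ n, 1 ≤ n → Y n ∈ R.F n := fun n hn => by
    rw [hY]
    exact R.deep n hn 1 (one_mem _) _ (hh _ (by omega))
  have YL : ∀ n, 1 ≤ n → A.lead n (Y n).1 = 0 := fun n hn => by
    rw [hY]
    exact (A.isFun n hn).one
  have Yt : ∀ n, 1 ≤ n → τ n (Y n) = 1 := fun n hn => by
    rw [hY, hτ1 n hn _ (hh _ (by omega)), hh1 _ (by omega)]
  have sep : ∀ n, 1 ≤ n → ∀ x ∈ R.F n, ∀ y ∈ R.F n, A.lead n x.1 = A.lead n y.1 →
      τ n x = τ n y → x * y⁻¹ ∈ R.F (n + 1) := fun n hn x hx y hy e1 e2 =>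
    hτ2 n hn _ (mul_mem hx (inv_mem hy)) (((rb2_fun R hn).div hx hy).trans (sub_eq_zero.2 e1))
      (((hτ n hn).div hx hy).trans (sub_eq_zero.2 e2))
  have mk : ∀ n, 1 ≤ n → ∀ a b : ZMod p, X0 n ^ a.val * Y n ^ b.val ∈ R.F n ∧
      A.lead n (X0 n ^ a.val * Y n ^ b.val).1 = a ∧ τ n (X0 n ^ a.val * Y n ^ b.val) = b := by
    intro n hn a b
    have m1 := pow_mem (hX0 n hn) a.val
    have m2 := pow_mem (Ym n hn) b.val
    refine ⟨mul_mem m1 m2, ?_, ?_⟩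
    · have e1 := (rb2_fun R hn).mul _ m1 _ m2
      have e2 := (rb2_fun R hn).pow (hX0 n hn) a.val
      have e3 := (rb2_fun R hn).pow (Ym n hn) b.val
      rw [e1, e2, e3, hL0 n hn, YL n hn, ZMod.natCast_zmod_val]
      ring
    · rw [(hτ n hn).mul _ m1 _ m2, (hτ n hn).pow (hX0 n hn), (hτ n hn).pow (Ym n hn), hτ0 n hn,
        Yt n hn, ZMod.natCast_zmod_val, ZMod.natCast_zmod_val]
      ring
  have tY : ∀ i j n, 1 ≤ i → 1 ≤ j → i + j = n → ∀ v ∈ R.F j,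
      τ n ⁅Y i, v⁆ = ((i : ZMod p) + r - j) * A.lead j v.1 := by
    rintro i j n hi hj rfl v hv
    have e : ⁅Y i, v⁆ = (1, ⁅h (i + r), v.2⁆) := by
      rw [hY]
      exact Prod.ext (commutatorElement_one_left v.1) rfl
    have e2 : i + j + r = i + r + j := by omega
    have m1 := hh (i + r) (by omega)
    have m2 := R.snd_mem j hj v hv
    rw [e, hτ1 _ (by omega) _ (e2 ▸ B.comm _ _ (by omega) hj _ m1 _ m2), e2,
      B.br _ _ (by omega) hj _ m1 _ m2, hh1 _ (by omega), R.lead_eq j hj v hv]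
    push_cast
    ring
  have key : ∀ i j n, 1 ≤ i → 1 ≤ j → i + j = n → ∀ u ∈ R.F i, ∀ v ∈ R.F j,
      τ n ⁅u, v⁆ = A.lead i u.1 * τ n ⁅X0 i, v⁆ +
        τ i u * (((i : ZMod p) + r - j) * A.lead j v.1) := by
    intro i j n hi hj hn u hu v hv
    have f := hτ n (by omega)
    obtain ⟨k1, k2, k3⟩ := mk i hi (A.lead i u.1) (τ i u)
    rw [f.comm_congr_left hi hj hn k1 (sep i hi u hu _ k1 k2.symm k3.symm) hv,
      f.comm_mul_left hi hj hn (pow_mem (hX0 i hi) _) (pow_mem (Ym i hi) _) hv,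
      f.comm_pow_left hi hj hn (hX0 i hi) hv, f.comm_pow_left hi hj hn (Ym i hi) hv,
      tY i j n hi hj hn v hv, ZMod.natCast_zmod_val, ZMod.natCast_zmod_val]
  obtain ⟨c, hc⟩ : ∃ c : ℕ → ℕ → ZMod p, ∀ i j n, i + j = n → τ n ⁅X0 i, X0 j⁆ = c i j :=
    ⟨fun i j => τ (i + j) ⁅X0 i, X0 j⁆, by rintro i j n rfl; rfl⟩
  have anti : ∀ i j, 1 ≤ i → 1 ≤ j → c j i = - c i j := fun i j hi hj => by
    rw [← hc j i (i + j) (by omega), ← hc i j (i + j) rfl]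
    exact (hτ (i + j) (by omega)).comm_anti hi hj rfl (hX0 i hi) (hX0 j hj)
  have tri : ∀ i j l n, 1 ≤ i → 1 ≤ j → 1 ≤ l → i + j + l = n →
      τ n ⁅⁅X0 i, X0 j⁆, X0 l⁆ =
        ((i : ZMod p) - j) * c (i + j) l + ((i : ZMod p) + j + r - l) * c i j := by
    intro i j l n hi hj hl hn
    rw [key (i + j) l n (by omega) hl hn _ (R.comm i j hi hj _ (hX0 i hi) _ (hX0 j hj)) _
      (hX0 l hl), rb2_br R hi hj (hX0 i hi) (hX0 j hj), hc _ _ _ hn, hc _ _ _ rfl, hL0 i hi,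
      hL0 j hj, hL0 l hl]
    push_cast
    ring
  obtain ⟨b, hb⟩ := l4 hp (r : ZMod p) c ⟨anti, fun i j l hi hj hl => by
    have e := (hτ (i + j + l) (by omega)).jacobi hi hj hl rfl (hX0 i hi) (hX0 j hj) (hX0 l hl)
    rw [tri i j l _ hi hj hl rfl, tri j l i _ hj hl hi (by omega),
      tri l i j _ hl hi hj (by omega)] at e
    linear_combination e⟩
  refine ⟨fun n => X0 n ^ (1 : ZMod p).val * Y n ^ (b n).val,
    fun n hn => ⟨(mk n hn 1 (b n)).1, (mk n hn 1 (b n)).2.1⟩, fun i j hi hj => ?_⟩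
  have hn : 1 ≤ i + j := by omega
  obtain ⟨a1, a2, a3⟩ := mk i hi 1 (b i)
  obtain ⟨b1, b2, b3⟩ := mk j hj 1 (b j)
  obtain ⟨c1, c2, c3⟩ := mk (i + j) hn 1 (b (i + j))
  refine sep _ hn _ (R.comm i j hi hj _ a1 _ b1) _ (zpow_mem c1 _) ?_ ?_
  · have e := (rb2_fun R hn).zpow c1 ((i : ℤ) - j)
    rw [rb2_br R hi hj a1 b1, a2, b2, e, c2]
    push_cast
    ring
  · rw [key i j _ hi hj rfl _ a1 _ b1, (hτ _ hn).comm_anti hj hi (by omega) b1 (hX0 i hi),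
      key j i _ hj hi (by omega) _ b1 _ (hX0 i hi), (hτ _ hn).zpow c1, a2, a3, b2, b3, c3,
      hc j i _ (by omega), anti i j hi hj, hb i j hi hj, hL0 i hi, cob]
    push_cast
    ring

end Pool.Agent.P.MP_e06b60_al.R
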