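import Mathlib
import Pool.Agent.P.MP_e06b60_al.RB2

namespace Pool.Agent.P.MP_e06b60_al.R

open PowerSeries
open scoped commutatorElement

variable {p : ℕ} [Fact p.Prime] {G H : Type} [Group G] [Group H]

theorem rb3_mem {L : Type} [Group L] (S : NS L) {n : ℕ} (hn : 1 ≤ n) {x g : L} (hg : g ∈ S.F n)
    {a : ℤ} (h : x * (g ^ a)⁻¹ ∈ S.F (n + 1)) : x ∈ S.F n := by
  have h1 := mul_mem (S.anti n hn h) (zpow_mem hg a)
  simpa using h1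

/-- The refined series. -/
def rb3_K {L : Type} [Group L] (S : NS L) (g : ℕ → L) (hg : ∀ n, 1 ≤ n → g n ∈ S.F n) (n : ℕ) :
    Subgroup L where
  carrier := {x | 1 ≤ n → ∃ a : ℤ, x * (g n ^ a)⁻¹ ∈ S.F (n + 1)}
  one_mem' := fun _ => ⟨0, by simp⟩
  mul_mem' := by
    intro x y hx hy hn
    obtain ⟨a, ha⟩ := hx hn
    obtain ⟨b, hb⟩ := hy hn
    refine ⟨a + b, ?_⟩
    rw [zpow_add]
    exact S.cg_mul (by omega) (S.mono le_rfl hn (rb3_mem S hn (hg n hn) ha)) ha hb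
  inv_mem' := by
    intro x hx hn
    obtain ⟨a, ha⟩ := hx hn
    refine ⟨-a, ?_⟩
    rw [zpow_neg]
    exact S.cg_inv (by omega) (S.mono le_rfl hn (rb3_mem S hn (hg n hn) ha)) ha

theorem rb3_iff {L : Type} [Group L] (S : NS L) (g : ℕ → L) (hg : ∀ n, 1 ≤ n → g n ∈ S.F n) {n : ℕ}
    (hn : 1 ≤ n) {x : L} :
    x ∈ rb3_K S g hg n ↔ ∃ a : ℤ, x * (g n ^ a)⁻¹ ∈ S.F (n + 1) :=
  ⟨fun h => h hn, fun h _ => h⟩

theorem rb3_le {L : Type} [Group L] (S : NS L) (g : ℕ → L) (hg : ∀ n, 1 ≤ n → g n ∈ S.F n) {n : ℕ}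
    (hn : 1 ≤ n) : rb3_K S g hg n ≤ S.F n := by
  intro x hx
  obtain ⟨a, ha⟩ := (rb3_iff S g hg hn).mp hx
  exact rb3_mem S hn (hg n hn) ha

theorem rb3_ge {L : Type} [Group L] (S : NS L) (g : ℕ → L) (hg : ∀ n, 1 ≤ n → g n ∈ S.F n) {n : ℕ}
    (hn : 1 ≤ n) : S.F (n + 1) ≤ rb3_K S g hg n := by
  intro x hx
  exact (rb3_iff S g hg hn).mpr ⟨0, by simpa using hx⟩

theorem rb3_comm {L : Type} [Group L] (S : NS L) (g : ℕ → L) (hg : ∀ n, 1 ≤ n → g n ∈ S.F n)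
    (hexp : ∀ n, 1 ≤ n → ∀ x ∈ S.F n, x ^ p ∈ S.F (n + 1))
    (hrel : ∀ i j, 1 ≤ i → 1 ≤ j → ⁅g i, g j⁆ * (g (i + j) ^ ((i : ℤ) - j))⁻¹ ∈ S.F (i + j + 1))
    {i j : ℕ} (hi : 1 ≤ i) (hj : 1 ≤ j) {x y : L} (hx : x ∈ rb3_K S g hg i)
    (hy : y ∈ rb3_K S g hg j) : ⁅x, y⁆ ∈ rb3_K S g hg (i + j) := by
  have hij : 1 ≤ i + j := by omega
  have hxi := rb3_le S g hg hi hx
  have hyj := rb3_le S g hg hj hy
  obtain ⟨a, ha⟩ := (rb3_iff S g hg hi).mp hx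
  obtain ⟨b, hb⟩ := (rb3_iff S g hg hj).mp hy
  refine (rb3_iff S g hg hij).mpr ⟨a * b * ((i : ℤ) - j), ?_⟩
  have hc : ⁅x, y⁆ ∈ S.F (i + j) := S.comm i j hi hj x hxi y hyj
  have hz : ∀ c : ℤ, g (i + j) ^ c ∈ S.F (i + j) := fun c => zpow_mem (hg _ hij) c
  refine sep_fun (p := p) S hij (hexp _ hij) (mul_mem hc (inv_mem (hz _))) ?_
  intro f hf
  have e1 : f ⁅x, y⁆ = f ⁅g i ^ a, y⁆ :=
    hf.comm_congr_left hi hj rfl (zpow_mem (hg i hi) a) ha hyj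
  have e2 : f ⁅g i ^ a, y⁆ = a * f ⁅g i, y⁆ := hf.comm_zpow_left hi hj rfl (hg i hi) hyj a
  have e3 : f ⁅g i, y⁆ = f ⁅g i, g j ^ b⁆ :=
    hf.comm_congr_right hi hj rfl (hg i hi) (zpow_mem (hg j hj) b) hb
  have e4 : f ⁅g i, g j ^ b⁆ = b * f ⁅g i, g j⁆ := hf.comm_zpow_right hi hj rfl (hg i hi) (hg j hj) b
  have e5 : f ⁅g i, g j⁆ = f (g (i + j) ^ ((i : ℤ) - j)) := hf.congr hij (hz _) (hrel i j hi hj)
  rw [hf.div hc (hz _), e1, e2, e3, e4, e5, hf.zpow (hg _ hij), hf.zpow (hg _ hij)]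
  push_cast
  ring

theorem rb3_key {A : PF p G} {B : PF p H} {r : ℕ} (R : Corr A B r) (g : ℕ → G × H)
    (hg : ∀ n, 1 ≤ n → g n ∈ R.F n) (hg1 : ∀ n, 1 ≤ n → A.lead n (g n).1 = 1)
    (hexp : ∀ n, 1 ≤ n → ∀ x ∈ R.F n, x ^ p ∈ R.F (n + 1)) {n : ℕ} (hn : 1 ≤ n) {x : G × H}
    (hx : x ∈ rb3_K R.toNS g hg n) (hx1 : x.1 ∈ A.F (n + 1)) : x ∈ R.F (n + 1) := by
  obtain ⟨a, ha⟩ := (rb3_iff R.toNS g hg hn).mp hx
  have hf := A.isFun n hn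
  have hgn : (g n).1 ∈ A.F n := R.fst_mem n hn _ (hg n hn)
  have h1 : x.1 * ((g n).1 ^ a)⁻¹ ∈ A.F (n + 1) := R.fst_mem (n + 1) (by omega) _ ha
  have h2 : A.lead n x.1 = A.lead n ((g n).1 ^ a) := hf.congr hn (zpow_mem hgn a) h1
  rw [hf.zero _ hx1, hf.zpow hgn, hg1 n hn, mul_one] at h2
  obtain ⟨c, rfl⟩ := (ZMod.intCast_zmod_eq_zero_iff_dvd a p).mp h2.symm
  have h3 : g n ^ ((p : ℤ) * c) ∈ R.F (n + 1) := by
    rw [zpow_mul, zpow_natCast]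
    exact zpow_mem (hexp n hn _ (hg n hn)) c
  have h4 := mul_mem ha h3
  simpa using h4

theorem corr_next (hp : 7 ≤ p) {A : PF p G} {B : PF p H} (hA : A.Ker) (hB : B.Ker) (pA : A.PW) (pB : B.PW)
    {r : ℕ} (hr : 1 ≤ r) (R : Corr A B r) : ∃ R' : Corr A B (r + 1), R'.F 1 ≤ R.F 1 := by
  have hexp := corr_exp hA hB pA pB hr R
  obtain ⟨g, hg0, hrel⟩ := corr_gen hp hA hB hr R hexp
  have hg : ∀ n, 1 ≤ n → g n ∈ R.F n := fun n hn => (hg0 n hn).1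
  have hg1 : ∀ n, 1 ≤ n → A.lead n (g n).1 = 1 := fun n hn => (hg0 n hn).2
  have hle : ∀ n, 1 ≤ n → rb3_K R.toNS g hg n ≤ R.F n := fun n hn => rb3_le R.toNS g hg hn
  have hge : ∀ n, 1 ≤ n → R.F (n + 1) ≤ rb3_K R.toNS g hg n := fun n hn => rb3_ge R.toNS g hg hn
  refine ⟨{
    F := rb3_K R.toNS g hg
    anti := fun n hn => (hle (n + 1) (by omega)).trans (hge n hn)
    comm := fun i j hi hj x hx y hy => rb3_comm R.toNS g hg hexp hrel hi hj hx hy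
    fst_mem := fun n hn x hx => R.fst_mem n hn x (hle n hn hx)
    snd_mem := fun n hn x hx => R.snd_mem n hn x (hle n hn hx)
    lead_eq := fun n hn x hx => R.lead_eq n hn x (hle n hn hx)
    surj := fun n hn => ⟨g n, (rb3_iff R.toNS g hg hn).mpr ⟨1, by simp⟩, hg1 n hn⟩
    deep := ?_
    step := ?_
    inj := ?_ }, hle 1 le_rfl⟩
  · intro n hn u hu v hv
    have e : n + (r + 1) = n + 1 + r := by omega
    rw [e] at hu hv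
    exact hge n hn (R.deep (n + 1) (by omega) u hu v hv)
  · intro n hn x hx hx1
    have hn1 : 1 ≤ n + 1 := by omega
    have e : n + (r + 1) = n + 1 + r := by omega
    have hxR : x ∈ R.F (n + 1) := rb3_key R g hg hg1 hexp hn hx hx1
    have hgn : (g (n + 1)).1 ∈ A.F (n + 1) := R.fst_mem _ hn1 _ (hg _ hn1)
    obtain ⟨a, ha⟩ := A.span hA hn1 hgn (by rw [hg1 _ hn1]; exact one_ne_zero) hx1
    have hpow : g (n + 1) ^ a ∈ R.F (n + 1) := pow_mem (hg _ hn1) a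
    obtain ⟨j, hj, hj2⟩ := R.step (n + 1) hn1 (x * (g (n + 1) ^ a)⁻¹)
      (mul_mem hxR (inv_mem hpow)) ha
    have hJ : ((1 : G), j) ∈ R.F (n + 1) := R.deep (n + 1) hn1 1 (one_mem _) j hj
    refine ⟨j, e ▸ hj, (rb3_iff R.toNS g hg hn1).mpr ⟨a, ?_⟩⟩
    have hc : ⁅((1 : G), j)⁻¹, g (n + 1) ^ a⁆ ∈ R.F (n + 1 + 1) :=
      R.toNS.mono (by omega) (by omega)
        (R.comm (n + 1) (n + 1) hn1 hn1 _ (inv_mem hJ) _ hpow)
    have h5 := mul_mem hj2 hc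
    have e2 : x * (g (n + 1) ^ a)⁻¹ * ((1 : G), j) * ⁅((1 : G), j)⁻¹, g (n + 1) ^ a⁆ =
        x * ((1 : G), j) * (g (n + 1) ^ (a : ℤ))⁻¹ := by
      rw [zpow_natCast, commutatorElement_def]
      group
    rwa [e2] at h5
  · intro n hn h hh
    have e : n + (r + 1) = n + 1 + r := by omega
    rw [e]
    exact R.inj (n + 1) (by omega) h (rb3_key R g hg hg1 hexp hn hh (one_mem _))

end Pool.Agent.P.MP_e06b60_al.R
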