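import Mathlib
import Pool.Agent.P.MP_e06b60_al.RB3
import Pool.Agent.P.MP_e06b60_al.RJ1
import Pool.Agent.P.MP_e06b60_al.RJ2

namespace Pool.Agent.P.MP_e06b60_al.R

open PowerSeries
open scoped commutatorElement

variable {p : ℕ} [Fact p.Prime] {G H : Type} [Group G] [Group H]

theorem Corr.fst_surj {A : PF p G} {B : PF p H} (hA : A.Ker) (hB : B.Ker) {r : ℕ} (R : Corr A B r) (g : G) :
    ∃ h, (g, h) ∈ R.F 1 := by
  have key : ∀ d m, 1 ≤ m → m + d = 1 + r → ∀ g ∈ A.F m, ∃ h, (g, h) ∈ R.F 1 := by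
    intro d
    induction d with
    | zero =>
      intro m _ hm g hg
      have e : m = 1 + r := by omega
      rw [e] at hg
      exact ⟨1, R.deep 1 le_rfl g hg 1 (Subgroup.one_mem _)⟩
    | succ d ih =>
      intro m hm1 hm g hg
      obtain ⟨X, hX, hX1⟩ := R.surj m hm1
      have hXA : X.1 ∈ A.F m := R.fst_mem m hm1 X hX
      obtain ⟨a, ha⟩ := A.span hA hm1 hXA (by rw [hX1]; exact one_ne_zero) hg
      obtain ⟨h', hh'⟩ := ih (m + 1) (by omega) (by omega) _ ha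
      have hX' : X ^ a ∈ R.F 1 := Subgroup.pow_mem _ (R.toNS.mono le_rfl hm1 hX) a
      refine ⟨h' * X.2 ^ a, ?_⟩
      have e : (g, h' * X.2 ^ a) = (g * (X.1 ^ a)⁻¹, h') * X ^ a := by
        ext <;> simp
      rw [e]
      exact Subgroup.mul_mem _ hh' hX'
  exact key r 1 le_rfl rfl g (A.mem_one g)

theorem rb4_fwd {A : PF p G} {B : PF p H} {r : ℕ} (R : Corr A B r) {n : ℕ}
    (hn : 1 ≤ n) (hr : n ≤ r) {g : G} {h : H} (hx : (g, h) ∈ R.F 1) (hg : g ∈ A.F n) :
    h ∈ B.F n ∧ B.lead n h = A.lead n g := by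
  have key : ∀ m, 1 ≤ m → m ≤ n → ∃ j ∈ B.F (1 + r), (g, h * j) ∈ R.F m := by
    intro m hm
    induction m, hm using Nat.le_induction with
    | base => exact fun _ => ⟨1, Subgroup.one_mem _, by simpa using hx⟩
    | succ m hm ih =>
      intro hmn
      obtain ⟨j, hj, hgj⟩ := ih (by omega)
      obtain ⟨j', hj', h2⟩ := R.step m hm _ hgj (A.toNS.mono (by omega) hmn hg)
      refine ⟨j * j', Subgroup.mul_mem _ hj (B.toNS.mono (by omega) (by omega) hj'), ?_⟩
      have e : (g, h * (j * j')) = (g, h * j) * (1, j') := by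
        ext <;> simp [mul_assoc]
      rw [e]
      exact h2
  obtain ⟨j, hj, hgj⟩ := key n hn le_rfl
  have hj1 : j ∈ B.F (n + 1) := B.toNS.mono (by omega) (by omega) hj
  have hj0 : j ∈ B.F n := B.anti n hn hj1
  have hhj : h * j ∈ B.F n := R.snd_mem n hn _ hgj
  have hh : h ∈ B.F n := (Subgroup.mul_mem_cancel_right _ hj0).mp hhj
  refine ⟨hh, ?_⟩
  have e1 : A.lead n g = B.lead n (h * j) := R.lead_eq n hn _ hgj
  rw [e1, (B.isFun n hn).mul h hh j hj0, (B.isFun n hn).zero j hj1, add_zero]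

theorem Corr.level {A : PF p G} {B : PF p H} (hA : A.Ker) (hB : B.Ker) {r : ℕ} (R : Corr A B r) {n : ℕ}
    (hn : 1 ≤ n) (hr : n ≤ r) {g : G} {h : H} (hx : (g, h) ∈ R.F 1) :
    (g ∈ A.F n ↔ h ∈ B.F n) ∧ (g ∈ A.F n → B.lead n h = A.lead n g) := by
  refine ⟨⟨fun hg => (rb4_fwd R hn hr hx hg).1, fun hh => ?_⟩, fun hg => (rb4_fwd R hn hr hx hg).2⟩
  have key : ∀ m, 1 ≤ m → m ≤ n → g ∈ A.F m := by
    intro m hm
    induction m, hm using Nat.le_induction with
    | base => exact fun _ => A.mem_one g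
    | succ m hm ih =>
      intro hmn
      have hg : g ∈ A.F m := ih (by omega)
      have e := (rb4_fwd R hm (by omega) hx hg).2
      have hh' : h ∈ B.F (m + 1) := B.toNS.mono (by omega) hmn hh
      rw [(B.isFun m hm).zero h hh'] at e
      exact hA m hm g hg e.symm
  exact key n hn le_rfl

theorem rb4_seq (hp : 7 ≤ p) {A : PF p G} {B : PF p H} (hA : A.Ker) (hB : B.Ker) (pA : A.PW)
    (pB : B.PW) : ∃ Rs : (k : ℕ) → Corr A B (k + 1), ∀ k, (Rs (k + 1)).F 1 ≤ (Rs k).F 1 := by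
  classical
  have hs : ∀ k, ∀ R : Corr A B (k + 1), ∃ R' : Corr A B (k + 1 + 1), R'.F 1 ≤ R.F 1 :=
    fun k R => corr_next hp hA hB pA pB (by omega) R
  choose nx hnx using hs
  obtain ⟨R0⟩ := corr_one hA hB
  exact ⟨fun k => Nat.rec (motive := fun k => Corr A B (k + 1)) R0 nx k, fun k => hnx k _⟩

theorem exists_hom [TopologicalSpace G] [IsTopologicalGroup G] [CompactSpace G] (hp : 7 ≤ p)
    (A : PF p G) (hA : A.Ker) (pA : A.PW) (ho : ∀ n, 1 ≤ n → IsOpen (A.F n : Set G)) :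
    ∃ θ : G →* Nott p, Continuous θ ∧ Function.Surjective θ ∧ ∀ n, 1 ≤ n → ∀ x,
      (x ∈ A.F n ↔ θ x ∈ Jn p n) ∧ (x ∈ A.F n → coeff (n + 1) (θ x).1 = A.lead n x) := by
  classical
  haveI := nott_compact (p := p)
  haveI := nott_t2 (p := p)
  obtain ⟨Rs, hdec⟩ := rb4_seq hp hA (JW_ker (p := p)) pA JW_pw
  have hcl : ∀ k, IsClosed ((Rs k).F 1 : Set (G × Nott p)) := by
    intro k
    apply Subgroup.isClosed_of_isOpen
    have hle : (A.F (1 + (k + 1))).prod (Jn p (1 + (k + 1))) ≤ (Rs k).F 1 := by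
      rintro ⟨g, h⟩ hx
      exact (Rs k).deep 1 le_rfl g hx.1 h hx.2
    exact Subgroup.isOpen_mono hle ((ho _ (by omega)).prod (Jn_isOpen _))
  have hex : ∀ g : G, ∃ h : Nott p, ∀ k, (g, h) ∈ (Rs k).F 1 := by
    intro g
    have hc : ∀ k, IsClosed {h : Nott p | (g, h) ∈ (Rs k).F 1} := fun k =>
      (hcl k).preimage (Continuous.prodMk_right g)
    obtain ⟨h, hh⟩ := IsCompact.nonempty_iInter_of_sequence_nonempty_isCompact_isClosed
      (fun k => {h : Nott p | (g, h) ∈ (Rs k).F 1}) (fun k h hh => hdec k hh)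
      (fun k => (Rs k).fst_surj hA JW_ker g) (hc 0).isCompact hc
    exact ⟨h, fun k => Set.mem_iInter.mp hh k⟩
  have huniq : ∀ (g : G) (h h' : Nott p), (∀ k, (g, h) ∈ (Rs k).F 1) →
      (∀ k, (g, h') ∈ (Rs k).F 1) → h = h' := by
    intro g h h' h1 h2
    have e : h⁻¹ * h' = 1 := by
      apply eq_one_of_Jn
      intro n _
      have h3 : ((1 : G), h⁻¹ * h') ∈ (Rs n).F 1 := by
        have e : ((1 : G), h⁻¹ * h') = (g, h)⁻¹ * (g, h') := by
          ext <;> simp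
        rw [e]
        exact Subgroup.mul_mem _ (Subgroup.inv_mem _ (h1 n)) (h2 n)
      exact Jn_anti (by omega) ((Rs n).inj 1 le_rfl _ h3)
    exact inv_mul_eq_one.mp e
  choose t ht using hex
  let θ : G →* Nott p := MonoidHom.mk' t fun a b =>
    huniq (a * b) _ _ (ht (a * b)) fun k => Subgroup.mul_mem _ (ht a k) (ht b k)
  have hlev : ∀ n, 1 ≤ n → ∀ x,
      (x ∈ A.F n ↔ θ x ∈ Jn p n) ∧ (x ∈ A.F n → coeff (n + 1) (θ x).1 = A.lead n x) :=
    fun n hn x => (Rs n).level hA JW_ker hn (Nat.le_succ n) (ht x n)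
  have hcont : Continuous θ := by
    apply continuous_of_open
    intro n hn
    have e : {x | θ x ∈ Jn p n} = (A.F n : Set G) := by
      ext x
      exact (hlev n hn x).1.symm
    rw [e]
    exact ho n hn
  refine ⟨θ, hcont, ?_, hlev⟩
  have hr : IsClosed (θ.range : Set (Nott p)) := by
    rw [MonoidHom.coe_range]
    exact (isCompact_range hcont).isClosed
  have hle : Jn p 1 ≤ θ.range := by
    apply Jn_le_of_isClosed hr le_rfl
    intro n hn
    obtain ⟨g, hg, hg1⟩ := A.surj n hn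
    refine ⟨θ g, ⟨g, rfl⟩, (hlev n hn g).1.mp hg, ?_⟩
    rw [(hlev n hn g).2 hg, hg1]
    exact one_ne_zero
  intro y
  exact hle (by rw [Jn_one]; trivial)

end Pool.Agent.P.MP_e06b60_al.R
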