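import Mathlib
import Pool.Agent.P.MP_e06b60_al.RA2

namespace Pool.Agent.P.MP_e06b60_al.R

open PowerSeries
open scoped commutatorElement

variable {p : ℕ} [Fact p.Prime] {G : Type} [Group G]

omit [Fact p.Prime] in
theorem rp1_fun (A : PF p G) {r I : ℕ} (hI : r + 1 ≤ I)
    (hP : ∀ i, I ≤ i → ∀ x ∈ A.F i, x ^ p ∈ A.F (i + r)) {i : ℕ} (hi : I ≤ i) :
    IsFun p A.toNS i (fun x => A.lead (i + r) (x ^ p)) := by
  have h1 : 1 ≤ i := by omega
  have hf := A.isFun (i + r) (by omega)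
  constructor
  · intro x hx y hy
    have hx' := hP i hi x hx
    have hy' := hP i hi y hy
    have h2 := A.toNS.mono (i := i + r + 1) (j := i + i) (by omega) (by omega)
      (A.toNS.mul_pow_cg h1 h1 hx hy p)
    exact (hf.congr (by omega) ((A.F (i + r)).mul_mem hx' hy') h2).trans (hf.mul _ hx' _ hy')
  · intro x hx
    have h2 := hP (i + 1) (by omega) x hx
    rw [show i + 1 + r = i + r + 1 by omega] at h2
    exact hf.zero _ h2

theorem exists_up (hp : 7 ≤ p) (A : PF p G) (hA : A.Ker) (h : ¬ A.PW) :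
    ∃ r e i1 : ℕ, 1 ≤ r ∧ p ∣ r ∧ ¬ p ∣ e ∧ 1 ≤ i1 ∧ A.UP r (e * p) i1 := by
  classical
  have hex : ∃ r, ¬ ∃ i0, ∀ i, i0 ≤ i → ∀ x ∈ A.F i, x ^ p ∈ A.F (i + r + 1) := not_forall.1 h
  have hr := Nat.find_spec hex
  have hmin := fun s => Nat.find_min hex (m := s)
  generalize Nat.find hex = r at hr hmin
  have hr1 : 1 ≤ r := by
    rcases Nat.eq_zero_or_pos r with h0 | h0
    · subst h0
      exact absurd ⟨1, fun i hi x hx => A.exp hA hi hx⟩ hr
    · exact h0
  obtain ⟨i0, hi0⟩ := not_not.1 (hmin (r - 1) (by omega))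
  obtain ⟨I, hI, hI0⟩ : ∃ I, r + 1 ≤ I ∧ i0 ≤ I := ⟨max (r + 1) i0, le_max_left _ _, le_max_right _ _⟩
  have hP : ∀ i, I ≤ i → ∀ x ∈ A.F i, x ^ p ∈ A.F (i + r) := by
    intro i hi x hx
    have := hi0 i (by omega) x hx
    rwa [show i + (r - 1) + 1 = i + r by omega] at this
  have hg : ∀ n, ∃ g : G, 1 ≤ n → g ∈ A.F n ∧ A.lead n g = 1 := by
    intro n
    by_cases hn : 1 ≤ n
    · obtain ⟨g, hg, hg1⟩ := A.surj n hn
      exact ⟨g, fun _ => ⟨hg, hg1⟩⟩
    · exact ⟨1, fun h => absurd h hn⟩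
  choose g hg using hg
  obtain ⟨δ, hδ⟩ : ∃ δ : ℕ → ZMod p, ∀ i, I ≤ i → ∀ x ∈ A.F i,
      A.lead (i + r) (x ^ p) = A.lead i x * δ i := by
    refine ⟨fun i => A.lead (i + r) (g i ^ p), fun i hi => ?_⟩
    have h1 : 1 ≤ i := by omega
    have hf := rp1_fun A hI hP hi
    exact hf.eq_mul (A.isFun i h1) (hg i h1).1 (hg i h1).2
      (fun x hx hl => hf.zero x (hA i h1 x hx hl))
  have hrel : ∀ i j : ℕ, I ≤ i → 1 ≤ j →
      ((i : ZMod p) + r - j) * δ i = ((i : ZMod p) - j) * δ (i + j) := by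
    intro i j hi hj
    have h1 : 1 ≤ i := by omega
    obtain ⟨hx, hx1⟩ := hg i h1
    obtain ⟨hy, hy1⟩ := hg j hj
    have hc := A.comm i j h1 hj _ hx _ hy
    have h2 := A.toNS.mono (i := i + j + r + 1) (j := 2 * i + j) (by omega) (by omega)
      (A.toNS.comm_pow_left h1 hj hx hy p)
    have h3 := (A.isFun (i + j + r) (by omega)).congr (by omega) (hP (i + j) (by omega) _ hc) h2
    rw [hδ (i + j) (by omega) _ hc, A.br i j h1 hj _ hx _ hy, hx1, hy1] at h3
    have h4 := A.br (i + r) j (by omega) hj _ (hP i hi _ hx) _ hy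
    rw [hδ i hi _ hx, hx1, hy1, show i + r + j = i + j + r by omega, h3] at h4
    push_cast at h4
    linear_combination -h4
  obtain ⟨a, ha, hδa⟩ : ∃ a, I ≤ a ∧ δ a ≠ 0 := by
    by_contra hcon
    refine hr ⟨I, fun i hi x hx => hA (i + r) (by omega) _ (hP i hi x hx) ?_⟩
    have h0 : δ i = 0 := by
      by_contra h0
      exact hcon ⟨i, hi, h0⟩
    rw [hδ i hi x hx, h0, mul_zero]
  have hr0 : (r : ZMod p) = 0 := by
    have h1 := hrel a a ha (by omega)
    have h2 : (r : ZMod p) * δ a = 0 := by linear_combination h1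
    exact (mul_eq_zero.1 h2).resolve_right hδa
  have hstep : ∀ i j : ℕ, I ≤ i → 1 ≤ j → (i : ZMod p) - j ≠ 0 → δ (i + j) = δ i := by
    intro i j hi hj hne
    have h1 := hrel i j hi hj
    rw [hr0, add_zero] at h1
    exact (mul_left_cancel₀ hne h1).symm
  have hconst : ∀ m, a + 3 ≤ m → δ m = δ a := by
    intro m hm
    obtain ⟨j, rfl⟩ : ∃ j, m = a + (j + 2) := ⟨m - a - 2, by omega⟩
    by_cases hj : (a : ZMod p) - ((j + 2 : ℕ) : ZMod p) = 0
    · push_cast at hj
      rcases one_or_two (a : ZMod p) with h1 | h1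
      · have h2 := hstep a 1 ha le_rfl (by simpa using h1)
        have h3 := hstep (a + 1) (j + 1) (by omega) (by omega) (by
          have h4 := cast_ne_zero (p := p) (a := 2) (by omega) (by omega)
          intro h5
          apply h4
          push_cast at h5 ⊢
          linear_combination h5 - hj)
        rw [show a + (j + 2) = a + 1 + (j + 1) by omega, h3, h2]
      · have h2 := hstep a 2 ha (by omega) (by simpa using h1)
        have h3 := hstep (a + 2) j (by omega) (by omega) (by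
          have h4 := cast_ne_zero (p := p) (a := 4) (by omega) (by omega)
          intro h5
          apply h4
          push_cast at h5 ⊢
          linear_combination h5 - hj)
        rw [show a + (j + 2) = a + 2 + j by omega, h3, h2]
    · exact hstep a (j + 2) ha (by omega) hj
  have he : (((δ a)⁻¹.val : ℕ) : ZMod p) = (δ a)⁻¹ := ZMod.natCast_zmod_val _
  refine ⟨r, (δ a)⁻¹.val, a + 3, hr1, (ZMod.natCast_eq_zero_iff r p).1 hr0, ?_, by omega, ?_⟩
  · intro hd
    rw [(ZMod.natCast_eq_zero_iff _ p).2 hd] at he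
    exact inv_ne_zero hδa he.symm
  · intro i hi x hx
    have h1 := hP i (by omega) x hx
    rw [pow_mul']
    refine ⟨h1, (A.F (i + r)).pow_mem h1 _, ?_⟩
    rw [(A.isFun (i + r) (by omega)).pow h1, hδ i (by omega) x hx, hconst i hi, he,
      mul_comm (A.lead i x), ← mul_assoc, inv_mul_cancel₀ hδa, one_mul]

end Pool.Agent.P.MP_e06b60_al.R
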