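import Mathlib
import Pool.Agent.P.MP_e06b60_al.RA2

namespace Pool.Agent.P.MP_e06b60_al.R

open PowerSeries
open scoped commutatorElement

variable {p : ℕ} [Fact p.Prime] {G : Type} [Group G]

theorem rp2_swap {Q : Type} [Group Q] {a b c : Q} (hc : b * a = c * (a * b)) (hb : Commute c b)
    (m : ℕ) : b ^ m * a = c ^ m * (a * b ^ m) := by
  induction m with
  | zero => simp
  | succ m ih =>
    have h1 : b ^ m * c = c * b ^ m := ((hb.symm).pow_left m).eq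
    calc b ^ (m + 1) * a = b ^ m * (b * a) := by rw [pow_succ, mul_assoc]
      _ = (b ^ m * c) * (a * b) := by rw [hc, mul_assoc]
      _ = c * (b ^ m * a) * b := by rw [h1]; simp only [mul_assoc]
      _ = c ^ (m + 1) * (a * b ^ (m + 1)) := by
        rw [ih, pow_succ' c, pow_succ b]; simp only [mul_assoc]

theorem rp2_choose (m : ℕ) : (m + 1).choose 2 = m.choose 2 + m := by
  rw [Nat.choose_succ_succ' m 1, Nat.choose_one_right, Nat.add_comm]

theorem rp2_mul_pow {Q : Type} [Group Q] {a b c : Q} (hc : b * a = c * (a * b)) (ha : Commute c a)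
    (hb : Commute c b) (m : ℕ) : (a * b) ^ m = c ^ (m.choose 2) * (a ^ m * b ^ m) := by
  induction m with
  | zero => simp
  | succ m ih =>
    have h1 : a ^ m * c ^ m = c ^ m * a ^ m := ((ha.symm).pow_pow m m).eq
    calc (a * b) ^ (m + 1) = c ^ (m.choose 2) * (a ^ m * (b ^ m * a) * b) := by
          rw [pow_succ, ih]; simp only [mul_assoc]
      _ = c ^ (m.choose 2) * ((a ^ m * c ^ m) * (a * b ^ m) * b) := by
          rw [rp2_swap hc hb m]; simp only [mul_assoc]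
      _ = c ^ ((m + 1).choose 2) * (a ^ (m + 1) * b ^ (m + 1)) := by
          rw [h1, rp2_choose, pow_add, pow_succ a, pow_succ b]; simp only [mul_assoc]

theorem rp2_comm_pow {Q : Type} [Group Q] {a b : Q} (ha : Commute ⁅a, ⁅a, b⁆⁆ a)
    (hc : Commute ⁅a, ⁅a, b⁆⁆ ⁅a, b⁆) (m : ℕ) :
    ⁅a ^ m, b⁆ = ⁅a, ⁅a, b⁆⁆ ^ (m.choose 2) * ⁅a, b⁆ ^ m := by
  induction m with
  | zero => simp
  | succ m ih =>
    have h0 : ⁅a ^ (m + 1), b⁆ = a * ⁅a ^ m, b⁆ * a⁻¹ * ⁅a, b⁆ := by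
      rw [pow_succ']; simp only [commutatorElement_def]; group
    have h1 : a * ⁅a, b⁆ * a⁻¹ = ⁅a, ⁅a, b⁆⁆ * ⁅a, b⁆ := by
      rw [commutatorElement_def a ⁅a, b⁆]; group
    rw [h0, ih]
    generalize ⁅a, b⁆ = c at *
    generalize ⁅a, c⁆ = d at *
    have h2 : a * d ^ (m.choose 2) = d ^ (m.choose 2) * a := ((ha.symm).pow_right _).eq
    have h3 : a * c ^ m * a⁻¹ = d ^ m * c ^ m := by
      rw [← conj_pow, h1, hc.mul_pow]
    calc a * (d ^ (m.choose 2) * c ^ m) * a⁻¹ * c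
        = (a * d ^ (m.choose 2)) * c ^ m * a⁻¹ * c := by simp only [mul_assoc]
      _ = d ^ (m.choose 2) * (a * c ^ m * a⁻¹) * c := by rw [h2]; simp only [mul_assoc]
      _ = d ^ ((m + 1).choose 2) * c ^ (m + 1) := by
          rw [h3, rp2_choose, pow_add, pow_succ c]; simp only [mul_assoc]

theorem rp2_dvd (hp : 7 ≤ p) (e N : ℕ) : p ^ N ∣ ((e * p) ^ N).choose 2 := by
  have hpp : p.Prime := Fact.out
  have h2 : Nat.Coprime (p ^ N) 2 := by
    apply Nat.Coprime.pow_left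
    exact (Nat.coprime_primes hpp Nat.prime_two).mpr (by omega)
  apply h2.dvd_of_dvd_mul_right
  rw [Nat.choose_two_right, Nat.div_mul_cancel (Nat.even_mul_pred_self _).two_dvd]
  exact Dvd.dvd.mul_right (by rw [mul_pow]; exact Dvd.intro_left _ rfl) _

omit [Fact p.Prime] in
theorem rp2_commute {K : Subgroup G} [K.Normal] {u v : G} (h : ⁅u, v⁆ ∈ K) :
    Commute (QuotientGroup.mk' K u) (QuotientGroup.mk' K v) := by
  rw [← commutatorElement_eq_one_iff_commute, ← map_commutatorElement]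
  exact (QuotientGroup.eq_one_iff _).mpr h

omit [Fact p.Prime] in
theorem rp2_lift {K : Subgroup G} [K.Normal] {u v c : G} (hc : c ∈ K)
    (h : QuotientGroup.mk' K u = QuotientGroup.mk' K c * QuotientGroup.mk' K v) : u * v⁻¹ ∈ K := by
  have h1 : QuotientGroup.mk' K c = 1 := (QuotientGroup.eq_one_iff _).mpr hc
  rw [h1, one_mul] at h
  have h2 : QuotientGroup.mk' K (u * v⁻¹) = 1 := by rw [map_mul, map_inv, h, mul_inv_cancel]
  exact (QuotientGroup.eq_one_iff _).mp h2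

theorem up_pow {A : PF p G} {r e i1 : ℕ} (hi1 : 1 ≤ i1) (h : A.UP r (e * p) i1) (q : ℕ) {i : ℕ}
    (hi : i1 ≤ i) {x : G} (hx : x ∈ A.F i) : x ^ (e * p) ^ q ∈ A.F (i + q * r) ∧
      A.lead (i + q * r) (x ^ (e * p) ^ q) = A.lead i x := by
  induction q with
  | zero => simpa using hx
  | succ q ih =>
    have h1 : i + (q + 1) * r = i + q * r + r := by ring
    obtain ⟨-, h2, h3⟩ := h (i + q * r) (by omega) _ ih.1
    rw [h1, pow_succ, pow_mul]
    exact ⟨h2, h3.trans ih.2⟩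

theorem up_ppow {A : PF p G} {r e i1 : ℕ} (hi1 : 1 ≤ i1) (h : A.UP r (e * p) i1) (q : ℕ) {i : ℕ}
    (hi : i1 ≤ i) {x : G} (hx : x ∈ A.F i) : x ^ p ^ q ∈ A.F (i + q * r) := by
  induction q with
  | zero => simpa using hx
  | succ q ih =>
    have h1 : i + (q + 1) * r = i + q * r + r := by ring
    obtain ⟨h2, -, -⟩ := h (i + q * r) (by omega) _ ih
    rw [h1, pow_succ, pow_mul]
    exact h2

theorem up_inj {A : PF p G} {r e i1 : ℕ} (hi1 : 1 ≤ i1) (h : A.UP r (e * p) i1) (hA : A.Ker) (q : ℕ)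
    {i j : ℕ} (hi : i1 ≤ i) (hij : i ≤ j) {x : G} (hx : x ∈ A.F i)
    (hq : x ^ (e * p) ^ q ∈ A.F (j + q * r)) : x ∈ A.F j := by
  have key : ∀ d, i + d ≤ j → x ∈ A.F (i + d) := by
    intro d
    induction d with
    | zero => intro _; simpa using hx
    | succ d ih =>
      intro hd
      have h1 := ih (by omega)
      have h2 := (up_pow hi1 h q (i := i + d) (by omega) h1).2
      have h3 : x ^ (e * p) ^ q ∈ A.F (i + d + q * r + 1) :=
        A.toNS.mono (by omega) (by omega) hq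
      have h4 := (A.isFun (i + d + q * r) (by omega)).zero _ h3
      exact hA (i + d) (by omega) x h1 (h2.symm.trans h4)
  have := key (j - i) (by omega)
  rwa [Nat.add_sub_cancel' hij] at this

theorem rp2_deep (hp : 7 ≤ p) {A : PF p G} {r e i1 : ℕ} (hi1 : 1 ≤ i1) (h : A.UP r (e * p) i1)
    {N i : ℕ} (hi : i1 ≤ i) {c : G} (hc : c ∈ A.F i) :
    c ^ (((e * p) ^ N).choose 2) ∈ A.F (i + N * r) := by
  obtain ⟨t, ht⟩ := rp2_dvd hp e N
  rw [ht, pow_mul]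
  exact pow_mem (up_ppow hi1 h N hi hc) t

theorem up_mul (hp : 7 ≤ p) {A : PF p G} {r e i1 : ℕ} (hi1 : 1 ≤ i1) (h : A.UP r (e * p) i1) {N : ℕ}
    (hN : i1 ≤ N * r) {x y : G} (hx : x ∈ A.F (N * r)) (hy : y ∈ A.F (N * r)) :
    (x * y) ^ (e * p) ^ N * (x ^ (e * p) ^ N * y ^ (e * p) ^ N)⁻¹ ∈ A.F (3 * (N * r)) := by
  have hdeep := fun {i : ℕ} (hi : i1 ≤ i) {c : G} (hc : c ∈ A.F i) =>
    rp2_deep hp hi1 h (N := N) hi hc
  generalize (e * p) ^ N = m at *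
  generalize N * r = n at *
  have hn : 1 ≤ n := by omega
  haveI : (A.F (3 * n)).Normal := A.normal (by omega)
  have hc : ⁅y, x⁆ ∈ A.F (n + n) := A.comm n n hn hn y hy x hx
  have e3 : n + n + n = 3 * n := by ring
  have hcx : ⁅⁅y, x⁆, x⁆ ∈ A.F (3 * n) := e3 ▸ A.comm _ n (by omega) hn _ hc x hx
  have hcy : ⁅⁅y, x⁆, y⁆ ∈ A.F (3 * n) := e3 ▸ A.comm _ n (by omega) hn _ hc y hy
  have hd : ⁅y, x⁆ ^ (m.choose 2) ∈ A.F (3 * n) := e3 ▸ hdeep (by omega) hc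
  refine rp2_lift hd ?_
  simp only [map_pow, map_mul]
  refine rp2_mul_pow ?_ (rp2_commute hcx) (rp2_commute hcy) m
  rw [map_commutatorElement, commutatorElement_def]; group

theorem up_comm (hp : 7 ≤ p) {A : PF p G} {r e i1 : ℕ} (hi1 : 1 ≤ i1) (h : A.UP r (e * p) i1) {N : ℕ}
    (hN : i1 ≤ N * r) {x y : G} (hx : x ∈ A.F (N * r)) (hy : y ∈ A.F (N * r)) :
    ⁅x ^ (e * p) ^ N, y⁆ * (⁅x, y⁆ ^ (e * p) ^ N)⁻¹ ∈ A.F (4 * (N * r)) := by
  have hdeep := fun {i : ℕ} (hi : i1 ≤ i) {c : G} (hc : c ∈ A.F i) =>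
    rp2_deep hp hi1 h (N := N) hi hc
  generalize (e * p) ^ N = m at *
  generalize N * r = n at *
  have hn : 1 ≤ n := by omega
  haveI : (A.F (4 * n)).Normal := A.normal (by omega)
  have hc : ⁅x, y⁆ ∈ A.F (n + n) := A.comm n n hn hn x hx y hy
  have hd : ⁅x, ⁅x, y⁆⁆ ∈ A.F (n + (n + n)) := A.comm n _ hn (by omega) x hx _ hc
  have e4 : n + (n + n) + n = 4 * n := by ring
  have hdx : ⁅⁅x, ⁅x, y⁆⁆, x⁆ ∈ A.F (4 * n) := e4 ▸ A.comm _ n (by omega) hn _ hd x hx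
  have hdc : ⁅⁅x, ⁅x, y⁆⁆, ⁅x, y⁆⁆ ∈ A.F (4 * n) :=
    A.toNS.mono (by omega) (by omega) (A.comm _ (n + n) (by omega) (by omega) _ hd _ hc)
  have hdd : ⁅x, ⁅x, y⁆⁆ ^ (m.choose 2) ∈ A.F (4 * n) := e4 ▸ hdeep (by omega) hd
  refine rp2_lift hdd ?_
  have h1 := rp2_commute hdx
  have h2 := rp2_commute hdc
  simp only [map_pow, map_commutatorElement] at h1 h2 ⊢
  exact rp2_comm_pow h1 h2 m

theorem up_surj (hp : 7 ≤ p) {A : PF p G} {r e i1 : ℕ} (hi1 : 1 ≤ i1) (h : A.UP r (e * p) i1) (hA : A.Ker)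
    {N : ℕ} (hN : i1 ≤ N * r) {y : G} (hy : y ∈ A.F (2 * (N * r))) :
    ∃ u ∈ A.F (N * r), u ^ (e * p) ^ N * y⁻¹ ∈ A.F (3 * (N * r)) := by
  have hmul := fun {x y : G} (hx : x ∈ A.F (N * r)) (hy : y ∈ A.F (N * r)) =>
    up_mul hp hi1 h hN hx hy
  have hpow := fun {i : ℕ} (hi : i1 ≤ i) {x : G} (hx : x ∈ A.F i) => up_pow hi1 h N hi hx
  generalize (e * p) ^ N = m at *
  generalize N * r = n at *
  have hn : 1 ≤ n := by omega
  have key : ∀ d, d ≤ n → ∃ u ∈ A.F n, u ^ m * y⁻¹ ∈ A.F (2 * n + d) := by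
    intro d
    induction d with
    | zero => intro _; exact ⟨1, one_mem _, by simpa using hy⟩
    | succ d ih =>
      intro hd
      obtain ⟨u, hu, ht⟩ := ih (by omega)
      obtain ⟨v, hv, hl⟩ := A.exists_lead (n := n + d) (by omega)
        (- A.lead (2 * n + d) (u ^ m * y⁻¹))
      have hvn : v ∈ A.F n := A.toNS.mono hn (by omega) hv
      obtain ⟨h1, h2⟩ := hpow (i := n + d) (by omega) hv
      have e2 : n + d + n = 2 * n + d := by ring
      rw [e2] at h1 h2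
      have h3 : v ^ m * (u ^ m * y⁻¹) ∈ A.F (2 * n + d + 1) := by
        refine hA _ (by omega) _ (mul_mem h1 ht) ?_
        rw [(A.isFun (2 * n + d) (by omega)).mul _ h1 _ ht, h2, hl, neg_add_cancel]
      have h4 : (v * u) ^ m * (v ^ m * u ^ m)⁻¹ ∈ A.F (2 * n + d + 1) :=
        A.toNS.mono (by omega) (by omega) (hmul hvn hu)
      refine ⟨v * u, mul_mem hvn hu, ?_⟩
      have h5 : (v * u) ^ m * y⁻¹ =
          (v * u) ^ m * (v ^ m * u ^ m)⁻¹ * (v ^ m * (u ^ m * y⁻¹)) := by group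
      rw [h5]
      exact mul_mem h4 h3
  obtain ⟨u, hu, ht⟩ := key n le_rfl
  have e3 : 2 * n + n = 3 * n := by ring
  exact ⟨u, hu, e3 ▸ ht⟩

end Pool.Agent.P.MP_e06b60_al.R
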