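import Mathlib
import Pool.Agent.P.MP_e06b60_al.RP2

namespace Pool.Agent.P.MP_e06b60_al.R

open PowerSeries
open scoped commutatorElement

variable {p : ℕ} [Fact p.Prime] {G : Type} [Group G]

theorem rp3_eq (H : Subgroup G) [H.Normal] (x y : G) :
    QuotientGroup.mk' H x = QuotientGroup.mk' H y ↔ x * y⁻¹ ∈ H := by
  rw [QuotientGroup.mk'_apply, QuotientGroup.mk'_apply, QuotientGroup.eq_iff_div_mem,
    div_eq_mul_inv]

theorem rp3_one (H : Subgroup G) [H.Normal] (x : G) : QuotientGroup.mk' H x = 1 ↔ x ∈ H := by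
  rw [QuotientGroup.mk'_apply, QuotientGroup.eq_one_iff]

theorem exists_lieMod (hp : 7 ≤ p) {A : PF p G} {r e i1 : ℕ} (hi1 : 1 ≤ i1) (h : A.UP r (e * p) i1)
    (hA : A.Ker) {N : ℕ} (hN : i1 ≤ N * r) : ∃ b, LieMod A (N * r) b := by
  classical
  have hn : 1 ≤ N * r := hi1.trans hN
  have hb : ∀ x y : G, ∃ u : G, x ∈ A.F (N * r) → y ∈ A.F (N * r) →
      u ∈ A.F (N * r) ∧ u ^ (e * p) ^ N * ⁅x, y⁆⁻¹ ∈ A.F (3 * (N * r)) := by
    intro x y
    by_cases hxy : x ∈ A.F (N * r) ∧ y ∈ A.F (N * r)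
    · have h1 : ⁅x, y⁆ ∈ A.F (2 * (N * r)) := by
        rw [two_mul]; exact A.comm _ _ hn hn x hxy.1 y hxy.2
      obtain ⟨u, hu, hu'⟩ := up_surj hp hi1 h hA hN h1
      exact ⟨u, fun _ _ => ⟨hu, hu'⟩⟩
    · exact ⟨1, fun hx hy => absurd ⟨hx, hy⟩ hxy⟩
  choose b hb using hb
  have hm2 : ∀ t : G, t ^ (e * p) ^ (2 * N) = (t ^ (e * p) ^ N) ^ (e * p) ^ N := fun t => by
    rw [← pow_mul, ← pow_add, two_mul]
  have hup := fun {i : ℕ} (hi : i1 ≤ i) {x : G} (hx : x ∈ A.F i) => up_pow hi1 h N hi hx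
  have hinj := fun {j : ℕ} (hij : N * r ≤ j) {x : G} (hx : x ∈ A.F (N * r))
    (hq : x ^ (e * p) ^ N ∈ A.F (j + N * r)) => up_inj hi1 h hA N hN hij hx hq
  have hinj2 := fun {x : G} (hx : x ∈ A.F (N * r))
    (hq : x ^ (e * p) ^ (2 * N) ∈ A.F (2 * (N * r) + 2 * N * r)) =>
      up_inj hi1 h hA (2 * N) hN (show N * r ≤ 2 * (N * r) by omega) hx hq
  have hmul := fun {x y : G} (hx : x ∈ A.F (N * r)) (hy : y ∈ A.F (N * r)) =>
    up_mul hp hi1 h hN hx hy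
  have hcomm := fun {x y : G} (hx : x ∈ A.F (N * r)) (hy : y ∈ A.F (N * r)) =>
    up_comm hp hi1 h hN hx hy
  rw [show 2 * (N * r) + 2 * N * r = 4 * (N * r) by ring] at hinj2
  simp only [hm2] at hinj2
  generalize (e * p) ^ N = m at *
  generalize N * r = n at *
  have := A.normal (show 1 ≤ 3 * n by omega)
  have := A.normal (show 1 ≤ 4 * n by omega)
  set φ := QuotientGroup.mk' (A.F (3 * n)) with hφ
  set ψ := QuotientGroup.mk' (A.F (4 * n)) with hψ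
  have hB : ∀ x ∈ A.F n, ∀ y ∈ A.F n, φ (b x y ^ m) = φ ⁅x, y⁆ := fun x hx y hy =>
    (rp3_eq _ _ _).2 (hb x y hx hy).2
  have hbm : ∀ x ∈ A.F n, ∀ y ∈ A.F n, b x y ∈ A.F n := fun x hx y hy => (hb x y hx hy).1
  have hM : ∀ x ∈ A.F n, ∀ y ∈ A.F n, φ ((x * y) ^ m) = φ (x ^ m) * φ (y ^ m) :=
    fun x hx y hy => by rw [← map_mul]; exact (rp3_eq _ _ _).2 (hmul hx hy)
  have hI : ∀ t ∈ A.F n, φ (t ^ m) = 1 → t ∈ A.F (2 * n) := fun t ht h1 =>
    hinj (by omega) ht (by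
      rw [show 2 * n + n = 3 * n by ring]; exact (rp3_one _ _).1 h1)
  refine ⟨b, hbm, ?_, ?_, ?_, ?_, ?_⟩
  · intro x hx x' hx' y hy hxx
    have h1 := hbm x hx y hy
    have h2 := hbm x' hx' y hy
    refine hI _ (mul_mem h1 (inv_mem h2)) ?_
    rw [hM _ h1 _ (inv_mem h2), inv_pow, map_inv, hB x hx y hy, hB x' hx' y hy, mul_inv_eq_one,
      rp3_eq, show 3 * n = 2 * n + n by ring]
    exact A.toNS.comm_cg_left (by omega) hn (A.mem_one _) hxx hy
  · intro x hx x' hx' y hy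
    have h0 := hbm _ (mul_mem hx hx') y hy
    have h1 := hbm x hx y hy
    have h2 := hbm x' hx' y hy
    refine hI _ (mul_mem h0 (inv_mem (mul_mem h1 h2))) ?_
    rw [hM _ h0 _ (inv_mem (mul_mem h1 h2)), inv_pow, map_inv, hM _ h1 _ h2,
      hB _ (mul_mem hx hx') y hy, hB x hx y hy, hB x' hx' y hy, mul_inv_eq_one, ← map_mul,
      rp3_eq, show 3 * n = n + n + n by ring]
    exact A.toNS.comm_mul_left hn hn hn hx hx' hy
  · intro x hx y hy
    have h1 := hbm x hx y hy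
    have h2 := hbm y hy x hx
    refine hI _ (mul_mem h1 h2) ?_
    rw [hM _ h1 _ h2, hB x hx y hy, hB y hy x hx, ← map_mul, ← commutatorElement_inv x y,
      mul_inv_cancel, map_one]
  · intro x hx y hy z hz
    have key : ∀ x ∈ A.F n, ∀ y ∈ A.F n, ∀ z ∈ A.F n,
        ⁅b x y, z⁆ ∈ A.F (2 * n) ∧ ψ (⁅b x y, z⁆ ^ m) = ψ ⁅⁅x, y⁆, z⁆ := by
      intro x hx y hy z hz
      have h1 := hbm x hx y hy
      refine ⟨by rw [two_mul]; exact A.comm _ _ hn hn _ h1 _ hz, ?_⟩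
      rw [← (rp3_eq _ _ _).2 (hcomm h1 hz), rp3_eq, show 4 * n = 3 * n + n by ring]
      exact A.toNS.comm_cg_left (by omega) hn (A.mem_one _) (hb x y hx hy).2 hz
    have hM4 : ∀ u ∈ A.F (2 * n), ∀ v ∈ A.F (2 * n), ψ ((u * v) ^ m) = ψ (u ^ m) * ψ (v ^ m) := by
      intro u hu v hv
      rw [← map_mul, rp3_eq, show 4 * n = 2 * n + 2 * n by ring]
      exact A.toNS.mul_pow_cg (by omega) (by omega) hu hv m
    have h1 := hbm _ (hbm x hx y hy) z hz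
    have h2 := hbm _ (hbm y hy z hz) x hx
    have h3 := hbm _ (hbm z hz x hx) y hy
    obtain ⟨k1, l1⟩ := key x hx y hy z hz
    obtain ⟨k2, l2⟩ := key y hy z hz x hx
    obtain ⟨k3, l3⟩ := key z hz x hx y hy
    have hs : ⁅b x y, z⁆ * ⁅b y z, x⁆ * ⁅b z x, y⁆ ∈ A.F (2 * n) := mul_mem (mul_mem k1 k2) k3
    have h4 : (b (b x y) z * b (b y z) x * b (b z x) y) ^ m *
        (⁅b x y, z⁆ * ⁅b y z, x⁆ * ⁅b z x, y⁆)⁻¹ ∈ A.F (3 * n) := by
      rw [← rp3_eq, ← hφ, hM _ (mul_mem h1 h2) _ h3, hM _ h1 _ h2, hB _ (hbm x hx y hy) z hz,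
        hB _ (hbm y hy z hz) x hx, hB _ (hbm z hz x hx) y hy, map_mul, map_mul]
    refine hinj2 (mul_mem (mul_mem h1 h2) h3) ?_
    have h5 : ψ (((b (b x y) z * b (b y z) x * b (b z x) y) ^ m *
        (⁅b x y, z⁆ * ⁅b y z, x⁆ * ⁅b z x, y⁆)⁻¹) ^ m) = 1 := by
      rw [rp3_one, show 4 * n = 3 * n + n by ring]
      exact (hup (by omega) h4).1
    have h6 := hM4 _ (A.toNS.mono (show 1 ≤ 2 * n by omega) (by omega) h4) _ hs
    rw [inv_mul_cancel_right, h5, one_mul, hM4 _ (mul_mem k1 k2) _ k3, hM4 _ k1 _ k2, l1, l2, l3,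
      ← map_mul, ← map_mul] at h6
    rw [← rp3_one, ← hψ, h6, rp3_one, show 4 * n = n + n + n + n by ring]
    exact A.toNS.jacobi hn le_rfl le_rfl le_rfl hx hy hz
  · intro i j hij x hx y hy
    have hx' : x ∈ A.F n := A.toNS.mono hn (by omega) hx
    have hy' : y ∈ A.F n := A.toNS.mono hn (by omega) hy
    have h1 : ⁅x, y⁆ ∈ A.F (n + (i + j) + n) := by
      rw [show n + (i + j) + n = n + i + (n + j) by ring]
      exact A.comm _ _ (by omega) (by omega) x hx y hy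
    have h2 : b x y ^ m * ⁅x, y⁆⁻¹ ∈ A.F (n + (i + j) + n + 1) :=
      A.toNS.mono (by omega) (by omega) (hb x y hx' hy').2
    have h3 : b x y ^ m ∈ A.F (n + (i + j) + n) := by
      have h4 := mul_mem (A.anti _ (by omega) h2) h1
      rwa [inv_mul_cancel_right] at h4
    have h5 : b x y ∈ A.F (n + (i + j)) := hinj (by omega) (hbm x hx' y hy') h3
    refine ⟨h5, ?_⟩
    rw [← (hup (by omega) h5).2, (A.isFun _ (by omega)).congr (by omega) h1 h2,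
      show n + (i + j) + n = n + i + (n + j) by ring,
      A.br _ _ (by omega) (by omega) x hx y hy]
    push_cast
    ring

end Pool.Agent.P.MP_e06b60_al.R
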