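import Mathlib
import Pool.Agent.P.MP_e06b60_al.RP2

namespace Pool.Agent.P.MP_e06b60_al.R

open PowerSeries
open scoped commutatorElement

variable {p : ℕ} [Fact p.Prime] {G : Type} [Group G]

omit [Fact p.Prime] in
theorem rp4_base (A : PF p G) {n r : ℕ} (hn : 1 ≤ n) (g : Fin r → G) (hg : ∀ k, g k ∈ A.F n) :
    ∃ Φ : (Fin r → ℤ) → G, (∀ c, Φ c ∈ A.F n) ∧
      (∀ c d, Φ (c + d) * (Φ c * Φ d)⁻¹ ∈ A.F (2 * n)) ∧
      ∀ k (a : ℤ), Φ (Pi.single k a) * (g k ^ a)⁻¹ ∈ A.F (2 * n) := by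
  have : (A.F (2 * n)).Normal := A.normal (by omega)
  let π : G →* G ⧸ A.F (2 * n) := QuotientGroup.mk' _
  have hπ : ∀ x y, π x = π y → x * y⁻¹ ∈ A.F (2 * n) := fun x y hxy => by
    rw [← div_eq_mul_inv]
    exact QuotientGroup.eq_iff_div_mem.1 hxy
  let _ : CommGroup ((A.F n).map π) :=
    { (inferInstance : Group ((A.F n).map π)) with
      mul_comm := by
        rintro ⟨_, x, hx, rfl⟩ ⟨_, y, hy, rfl⟩
        apply Subtype.ext
        change π x * π y = π y * π x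
        rw [← map_mul, ← map_mul]
        refine QuotientGroup.eq_iff_div_mem.2 ?_
        rw [div_eq_mul_inv, two_mul]
        exact A.toNS.cg_swap hn hn hx hy }
  let u : Fin r → (A.F n).map π := fun k => ⟨π (g k), g k, hg k, rfl⟩
  have hex : ∀ c : Fin r → ℤ, ∃ x ∈ A.F n, π x = ((∏ k, u k ^ c k : (A.F n).map π) : _) :=
    fun c => (∏ k, u k ^ c k : (A.F n).map π).2
  choose Φ h1 h2 using hex
  refine ⟨Φ, h1, fun c d => hπ _ _ ?_, fun k a => hπ _ _ ?_⟩
  · rw [map_mul, h2, h2, h2, ← Subgroup.coe_mul, ← Finset.prod_mul_distrib]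
    simp only [Pi.add_apply, zpow_add]
  · rw [h2, Finset.prod_eq_single k]
    · rw [Pi.single_eq_same, map_zpow]
      rfl
    · intro j _ hj
      rw [Pi.single_eq_of_ne hj, zpow_zero]
    · intro hk
      exact absurd (Finset.mem_univ k) hk

theorem rp4_dep_ge {r m k : ℕ} (hk : k < r) : m ≤ k + dep r m k * r := by
  unfold dep
  have h1 := Nat.div_add_mod (m + r - 1 - k) r
  have h2 := Nat.mod_lt (m + r - 1 - k) (by omega : 0 < r)
  rw [mul_comm] at h1
  omega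

theorem rp4_dep_zero {r k : ℕ} (hk : k < r) : dep r 0 k = 0 := by
  unfold dep
  exact Nat.div_eq_of_lt (by omega)

theorem rp4_dep_self {r : ℕ} (hr : 1 ≤ r) (m : ℕ) : dep r m (m % r) = m / r := by
  unfold dep
  have h1 := Nat.div_add_mod m r
  have h2 := Nat.mod_lt m (by omega : 0 < r)
  have e : m + r - 1 - m % r = r - 1 + r * (m / r) := by omega
  rw [e, Nat.add_mul_div_left _ _ (by omega), Nat.div_eq_of_lt (by omega), zero_add]

theorem rp4_dep_succ_self {r : ℕ} (hr : 1 ≤ r) (m : ℕ) : dep r (m + 1) (m % r) = m / r + 1 := by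
  unfold dep
  have h1 := Nat.div_add_mod m r
  have h2 := Nat.mod_lt m (by omega : 0 < r)
  have e : m + 1 + r - 1 - m % r = r * (m / r + 1) := by
    rw [mul_add]
    omega
  rw [e, Nat.mul_div_cancel_left _ (by omega)]

theorem rp4_dep_succ {r m k : ℕ} (hk : k < r) (h : k ≠ m % r) : dep r (m + 1) k = dep r m k := by
  unfold dep
  have h1 := Nat.div_add_mod m r
  have h2 := Nat.mod_lt m (by omega : 0 < r)
  rcases lt_or_gt_of_ne h with h3 | h3
  · have e1 : m + 1 + r - 1 - k = (m % r - k) + r * (m / r + 1) := by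
      rw [mul_add]
      omega
    have e2 : m + r - 1 - k = (m % r - k - 1) + r * (m / r + 1) := by
      rw [mul_add]
      omega
    rw [e1, e2, Nat.add_mul_div_left _ _ (by omega), Nat.add_mul_div_left _ _ (by omega),
      Nat.div_eq_of_lt (by omega : m % r - k < r), Nat.div_eq_of_lt (by omega : m % r - k - 1 < r)]
  · have e1 : m + 1 + r - 1 - k = (m % r + r - k) + r * (m / r) := by omega
    have e2 : m + r - 1 - k = (m % r + r - k - 1) + r * (m / r) := by omega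
    rw [e1, e2, Nat.add_mul_div_left _ _ (by omega), Nat.add_mul_div_left _ _ (by omega),
      Nat.div_eq_of_lt (by omega : m % r + r - k < r),
      Nat.div_eq_of_lt (by omega : m % r + r - k - 1 < r)]

theorem rp4_av {r : ℕ} (hr : 1 ≤ r) (w : ℤ) (m : ℕ) :
    av ℤ r w m = Pi.single (⟨m % r, Nat.mod_lt m (by omega)⟩ : Fin r) (w ^ (m / r)) := by
  funext k
  simp only [av, Pi.single_apply, Fin.ext_iff]

theorem exists_coord {A : PF p G} {r e i1 : ℕ} (hi1 : 1 ≤ i1) (h : A.UP r (e * p) i1) (hA : A.Ker)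
    (hr : 1 ≤ r) (he : ¬ p ∣ e) {N : ℕ} (hN : i1 ≤ N * r) : ∃ Φ : (Fin r → ℤ) → G,
      (∀ c, Φ c ∈ A.F (N * r)) ∧
      (∀ c d, Φ (c + d) * (Φ c * Φ d)⁻¹ ∈ A.F (2 * (N * r))) ∧
      (∀ x ∈ A.F (N * r), ∃ c, x * (Φ c)⁻¹ ∈ A.F (2 * (N * r))) ∧
      (∀ m, m ≤ N * r → ∀ c, Φ c ∈ A.F (N * r + m) ↔ ∀ k, (p : ℤ) ^ dep r m k.val ∣ c k) ∧
      ∀ m, m < N * r → Φ (av ℤ r ((e * p : ℕ) : ℤ) m) ∈ A.F (N * r + m) ∧
        A.lead (N * r + m) (Φ (av ℤ r ((e * p : ℕ) : ℤ) m)) = 1 := by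
  generalize N * r = n at hN ⊢
  have hn : 1 ≤ n := hi1.trans hN
  have hg : ∀ k : Fin r, ∃ g ∈ A.F (n + k.val), A.lead (n + k.val) g = 1 :=
    fun k => A.surj _ (by omega)
  choose g hg1 hg2 using hg
  obtain ⟨Φ, h1, h2, h3⟩ := rp4_base A hn g
    (fun k => A.toNS.mono hn (Nat.le_add_right _ _) (hg1 k))
  have hle : ∀ m, m ≤ n → A.F (2 * n) ≤ A.F (n + m) :=
    fun m hm => A.toNS.mono (by omega) (by omega)
  have hcg : ∀ m, m ≤ n → ∀ x y, x * y⁻¹ ∈ A.F (2 * n) → y ∈ A.F (n + m) → x ∈ A.F (n + m) :=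
    fun m hm x y hxy hy => by
      have := (A.F (n + m)).mul_mem (hle m hm hxy) hy
      simpa using this
  have h0 : Φ 0 ∈ A.F (2 * n) := by
    have := (A.F (2 * n)).inv_mem (h2 0 0)
    simpa using this
  have hT : ∀ m, m ≤ n → ∃ T : AddSubgroup (Fin r → ℤ), ∀ c, c ∈ T ↔ Φ c ∈ A.F (n + m) := by
    intro m hm
    refine ⟨⟨⟨⟨{c | Φ c ∈ A.F (n + m)}, fun {c d} hc hd => ?_⟩, hle m hm h0⟩,
      fun {c} hc => ?_⟩, fun c => Iff.rfl⟩
    · exact hcg m hm _ _ (h2 c d) ((A.F (n + m)).mul_mem hc hd)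
    · have h4 := h2 c (-c)
      rw [add_neg_cancel] at h4
      have h5 := hcg m hm _ _ (A.toNS.cg_symm h4) (hle m hm h0)
      exact ((A.F (n + m)).mul_mem_cancel_left hc).1 h5
  have hL : ∀ m, m < n → ∀ c, Φ c ∈ A.F (n + m) → ∀ a : ℤ, Φ (a • c) ∈ A.F (n + m) ∧
      A.lead (n + m) (Φ (a • c)) = a * A.lead (n + m) (Φ c) := by
    intro m hm c hc a
    obtain ⟨T, hT⟩ := hT m hm.le
    have hf := A.isFun (n + m) (by omega)
    let L : T →+ ZMod p := AddMonoidHom.mk' (fun c => A.lead (n + m) (Φ c.1)) fun c d => by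
      have hc := (hT _).1 c.2
      have hd := (hT _).1 d.2
      rw [← hf.mul _ hc _ hd]
      exact hf.congr (by omega) ((A.F (n + m)).mul_mem hc hd) (hle (m + 1) hm (h2 c.1 d.1))
    refine ⟨(hT _).1 (T.zsmul_mem ((hT _).2 hc) a), ?_⟩
    have := map_zsmul L a ⟨c, (hT _).2 hc⟩
    rw [zsmul_eq_mul] at this
    exact this
  have hav : ∀ m, m < n → Φ (av ℤ r ((e * p : ℕ) : ℤ) m) ∈ A.F (n + m) ∧
      A.lead (n + m) (Φ (av ℤ r ((e * p : ℕ) : ℤ) m)) = 1 := by
    intro m hm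
    rw [rp4_av hr]
    set k : Fin r := ⟨m % r, Nat.mod_lt m (by omega)⟩ with hk
    have h4 := h3 k (((e * p : ℕ) : ℤ) ^ (m / r))
    have h5 := up_pow hi1 h (m / r) (by omega : i1 ≤ n + k.val) (hg1 k)
    have e1 : n + k.val + m / r * r = n + m := by
      have := Nat.mod_add_div' m r
      change n + m % r + m / r * r = n + m
      omega
    have e2 : g k ^ (((e * p : ℕ) : ℤ) ^ (m / r)) = g k ^ (e * p) ^ (m / r) := by
      rw [← Nat.cast_pow, zpow_natCast]
    rw [e1, hg2] at h5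
    rw [e2] at h4
    refine ⟨hcg m hm.le _ _ h4 h5.1, ?_⟩
    rw [← h5.2]
    exact (A.isFun (n + m) (by omega)).congr (by omega) h5.1 (hle (m + 1) hm h4)
  have hback : ∀ m, m ≤ n → ∀ c : Fin r → ℤ, (∀ k, (p : ℤ) ^ dep r m k.val ∣ c k) →
      Φ c ∈ A.F (n + m) := by
    intro m hm c hc
    obtain ⟨T, hT⟩ := hT m hm
    rw [← hT, ← Finset.univ_sum_single c]
    refine T.sum_mem fun k _ => ?_
    obtain ⟨b, hb⟩ := hc k
    have e1 : (Pi.single k (c k) : Fin r → ℤ) = b • Pi.single k ((p : ℤ) ^ dep r m k.val) := by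
      rw [← Pi.single_smul, hb, smul_eq_mul, mul_comm]
    rw [e1]
    refine T.zsmul_mem ((hT _).2 (hcg m hm _ _ (h3 k _) ?_)) b
    rw [← Nat.cast_pow, zpow_natCast]
    have h5 := up_ppow hi1 h (dep r m k.val) (by omega : i1 ≤ n + k.val) (hg1 k)
    have h6 := rp4_dep_ge (m := m) k.isLt
    exact A.toNS.mono (by omega) (by omega) h5
  have hfwd : ∀ m, m ≤ n → ∀ c : Fin r → ℤ, Φ c ∈ A.F (n + m) →
      ∀ k, (p : ℤ) ^ dep r m k.val ∣ c k := by
    intro m
    induction m with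
    | zero =>
      intro _ c _ k
      rw [rp4_dep_zero k.isLt, pow_zero]
      exact one_dvd _
    | succ m ih =>
      intro hm c hc
      have h4 := ih (by omega) c (A.anti (n + m) (by omega) hc)
      obtain ⟨T, hT⟩ := hT (m + 1) hm
      set k0 : Fin r := ⟨m % r, Nat.mod_lt m (by omega)⟩ with hk0
      have hne : ∀ k : Fin r, k ≠ k0 → dep r (m + 1) k.val = dep r m k.val :=
        fun k hk => rp4_dep_succ k.isLt fun e => hk (Fin.ext e)
      have h5 : c - Pi.single k0 (c k0) ∈ T := by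
        refine (hT _).2 (hback _ hm _ fun k => ?_)
        by_cases hk : k = k0
        · rw [hk, Pi.sub_apply, Pi.single_eq_same, sub_self]
          exact dvd_zero _
        · rw [Pi.sub_apply, Pi.single_eq_of_ne hk, sub_zero, hne k hk]
          exact h4 k
      have h6 : (Pi.single k0 (c k0) : Fin r → ℤ) ∈ T := by
        have := T.sub_mem ((hT _).2 hc) h5
        rwa [sub_sub_cancel] at this
      obtain ⟨b, hb⟩ := h4 k0
      have e0 : dep r m k0.val = m / r := rp4_dep_self hr m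
      rw [e0] at hb
      have e1 : ((e : ℤ) ^ (m / r)) • (Pi.single k0 (c k0) : Fin r → ℤ) =
          b • av ℤ r ((e * p : ℕ) : ℤ) m := by
        rw [rp4_av hr, ← Pi.single_smul, ← Pi.single_smul, hb, smul_eq_mul, smul_eq_mul,
          Nat.cast_mul, mul_pow]
        congr 1
        ring
      have h7 := (hT _).1 (T.zsmul_mem h6 ((e : ℤ) ^ (m / r)))
      rw [e1] at h7
      have h8 := (hL m hm _ (hav m hm).1 b).2
      rw [(hav m hm).2, mul_one, (A.isFun (n + m) (by omega)).zero _ h7] at h8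
      have h9 : (p : ℤ) ∣ b := (ZMod.intCast_zmod_eq_zero_iff_dvd b p).1 h8.symm
      intro k
      by_cases hk : k = k0
      · have e2 : dep r (m + 1) k0.val = m / r + 1 := rp4_dep_succ_self hr m
        rw [hk, e2, hb, pow_succ]
        exact mul_dvd_mul_left _ h9
      · rw [hne k hk]
        exact h4 k
  refine ⟨Φ, h1, h2, fun x hx => ?_, fun m hm c => ⟨hfwd m hm c, hback m hm c⟩, hav⟩
  have key : ∀ d, d ≤ n → ∃ c, x * (Φ c)⁻¹ ∈ A.F (n + d) := by
    intro d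
    induction d with
    | zero => exact fun _ => ⟨0, (A.F n).mul_mem hx ((A.F n).inv_mem (h1 0))⟩
    | succ d ih =>
      intro hd
      obtain ⟨c, hc⟩ := ih (by omega)
      obtain ⟨h4, h5⟩ := hL d hd _ (hav d hd).1 ((A.lead (n + d) (x * (Φ c)⁻¹)).val : ℤ)
      rw [(hav d hd).2, mul_one, Int.cast_natCast, ZMod.natCast_zmod_val] at h5
      have h6 := A.cg_of_lead hA (by omega) hc h4 h5.symm
      rw [mul_assoc, ← mul_inv_rev] at h6
      exact ⟨_, A.toNS.cg_trans h6 (A.toNS.cg_symm (hle (d + 1) hd (h2 _ c)))⟩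
  rw [two_mul]
  exact key n le_rfl

end Pool.Agent.P.MP_e06b60_al.R
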