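import Mathlib
import Pool.Agent.P.MP_e06b60_al.RP4

namespace Pool.Agent.P.MP_e06b60_al.R

open PowerSeries
open scoped commutatorElement

variable {p : ℕ} [Fact p.Prime] {G : Type} [Group G]

theorem rp5_dep {r N k : ℕ} (hk : k < r) : dep r (N * r) k = N := by
  unfold dep
  have e : N * r + r - 1 - k = (r - 1 - k) + r * N := by rw [mul_comm r N]; omega
  rw [e, Nat.add_mul_div_left _ _ (by omega), Nat.div_eq_of_lt (by omega), zero_add]

theorem rp5_av {r : ℕ} (w : ℤ) (i : Fin r) : av ℤ r w i.val = Pi.single i 1 := by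
  funext k
  unfold av
  rw [Nat.mod_eq_of_lt i.2, Nat.div_eq_of_lt i.2, pow_zero, Pi.single_apply]
  simp only [Fin.ext_iff]

theorem rp5_sum {r : ℕ} {M : Type} [AddCommGroup M] (f : (Fin r → ℤ) → M)
    (hf : ∀ c d, f (c + d) = f c + f d) (c : Fin r → ℤ) :
    f c = ∑ k, c k • f (Pi.single k 1) := by
  let F : (Fin r → ℤ) →+ M := AddMonoidHom.mk' f hf
  have e : c = ∑ k, c k • (Pi.single k 1 : Fin r → ℤ) := by
    funext l
    simp [Finset.sum_apply, Pi.single_apply]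
  have h1 : F c = ∑ k, c k • F (Pi.single k 1) := by
    conv_lhs => rw [e]
    rw [map_sum]
    exact Finset.sum_congr rfl fun k _ => map_zsmul F _ _
  exact h1

theorem sc_of_lieMod {A : PF p G} {r e i1 : ℕ} (hi1 : 1 ≤ i1) (h : A.UP r (e * p) i1) (hA : A.Ker)
    (hr : 1 ≤ r) (he : ¬ p ∣ e) {N : ℕ} (hN : i1 ≤ N * r) (hN2 : 2 ≤ N) {b : G → G → G}
    (hb : LieMod A (N * r) b) : ∃ C, SC ℤ p r ((e * p : ℕ) : ℤ) ((p : ℤ) ^ N) C := by
  classical
  obtain ⟨Φ, hΦ1, hΦ2, hΦ3, hΦ4, hΦ5⟩ := exists_coord hi1 h hA hr he hN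
  set n := N * r with hn
  have hn2 : 2 * r ≤ n := Nat.mul_le_mul_right r hN2
  have hn1 : 1 ≤ n := by omega
  haveI : (A.F (2 * n)).Normal := A.normal (by omega)
  let π : G →* G ⧸ A.F (2 * n) := QuotientGroup.mk' _
  have hπ1 : ∀ x, π x = 1 ↔ x ∈ A.F (2 * n) := fun x => QuotientGroup.eq_one_iff x
  have hπ : ∀ x y, π x = π y ↔ x * y⁻¹ ∈ A.F (2 * n) := by
    intro x y
    rw [← hπ1, map_mul, map_inv, mul_inv_eq_one]
  have hadd : ∀ c d, π (Φ (c + d)) = π (Φ c) * π (Φ d) := by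
    intro c d
    rw [← map_mul, hπ]
    exact hΦ2 c d
  let φ : Multiplicative (Fin r → ℤ) →* G ⧸ A.F (2 * n) :=
    MonoidHom.mk' (fun c => π (Φ c.toAdd)) fun c d => hadd _ _
  have hφ : ∀ c, φ (Multiplicative.ofAdd c) = π (Φ c) := fun c => rfl
  have hsub : ∀ c d, π (Φ (c - d)) = π (Φ c) * (π (Φ d))⁻¹ := by
    intro c d
    rw [← hφ, ← hφ, ← hφ, ofAdd_sub, div_eq_mul_inv, map_mul, map_inv]
  have hsmul : ∀ (a : ℤ) c, π (Φ (a • c)) = π (Φ c) ^ a := by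
    intro a c
    rw [← hφ, ← hφ, ofAdd_zsmul, map_zpow]
  have hker : ∀ c, π (Φ c) = 1 ↔ ∀ k, (p : ℤ) ^ N ∣ c k := by
    intro c
    rw [hπ1, two_mul, hΦ4 n le_rfl c]
    exact forall_congr' fun k => by rw [hn, rp5_dep k.2]
  have hdvd : ∀ a : ℤ, ((a : ZMod (p ^ N)) = 0) ↔ (p : ℤ) ^ N ∣ a := by
    intro a
    rw [ZMod.intCast_zmod_eq_zero_iff_dvd, Nat.cast_pow]
  choose! co hco using hΦ3
  have hco' : ∀ x ∈ A.F n, π (Φ (co x)) = π x := fun x hx => ((hπ _ _).2 (hco x hx)).symm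
  let cc : G → Fin r → ZMod (p ^ N) := fun x k => (co x k : ZMod (p ^ N))
  have hcc : ∀ x ∈ A.F n, ∀ c, π x = π (Φ c) → cc x = fun k => (c k : ZMod (p ^ N)) := by
    intro x hx c hc
    funext k
    have h1 : π (Φ (co x - c)) = 1 := by rw [hsub, hco' x hx, hc, mul_inv_cancel]
    have h2 := (hdvd _).2 ((hker _).1 h1 k)
    rw [Pi.sub_apply, Int.cast_sub, sub_eq_zero] at h2
    exact h2
  have hcg : ∀ x ∈ A.F n, ∀ y ∈ A.F n, π x = π y → cc x = cc y := by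
    intro x hx y hy hxy
    exact hcc x hx (co y) (by rw [hco' y hy, hxy])
  have hmul : ∀ x ∈ A.F n, ∀ y ∈ A.F n, cc (x * y) = cc x + cc y := by
    intro x hx y hy
    rw [hcc (x * y) (mul_mem hx hy) (co x + co y) (by rw [hadd, hco' x hx, hco' y hy, map_mul])]
    funext k
    simp [cc]
  have hzero : ∀ x ∈ A.F n, x ∈ A.F (2 * n) → cc x = 0 := by
    intro x hx hx2
    funext k
    have h1 : π (Φ (co x)) = 1 := by rw [hco' x hx, hπ1]; exact hx2
    exact (hdvd _).2 ((hker _).1 h1 k)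
  let ε : Fin r → G := fun i => Φ (Pi.single i 1)
  have hε : ∀ i, ε i ∈ A.F n := fun i => hΦ1 _
  have hlin : ∀ y ∈ A.F n, ∀ c, cc (b (Φ c) y) = ∑ k, c k • cc (b (ε k) y) := by
    intro y hy c
    refine rp5_sum (fun c => cc (b (Φ c) y)) (fun c d => ?_) c
    have m1 := hb.mem _ (hΦ1 c) y hy
    have m2 := hb.mem _ (hΦ1 d) y hy
    have m3 := mul_mem (hΦ1 c) (hΦ1 d)
    show cc (b (Φ (c + d)) y) = cc (b (Φ c) y) + cc (b (Φ d) y)
    rw [← hmul _ m1 _ m2]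
    refine hcg _ (hb.mem _ (hΦ1 _) y hy) _ (mul_mem m1 m2) ?_
    rw [(hπ _ _).2 (hb.congr _ (hΦ1 _) _ m3 y hy (hΦ2 c d)),
      (hπ _ _).2 (hb.add _ (hΦ1 c) _ (hΦ1 d) y hy)]
  have hbb : ∀ i j, b (ε i) (ε j) ∈ A.F n := fun i j => hb.mem _ (hε i) _ (hε j)
  have htri : ∀ i j l m, cc (b (b (ε i) (ε j)) (ε l)) m =
      ∑ k, ((co (b (ε i) (ε j)) k * co (b (ε k) (ε l)) m : ℤ) : ZMod (p ^ N)) := by
    intro i j l m
    have e1 : cc (b (b (ε i) (ε j)) (ε l)) = cc (b (Φ (co (b (ε i) (ε j)))) (ε l)) :=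
      hcg _ (hb.mem _ (hbb i j) _ (hε l)) _ (hb.mem _ (hΦ1 _) _ (hε l))
        ((hπ _ _).2 (hb.congr _ (hbb i j) _ (hΦ1 _) _ (hε l) (hco _ (hbb i j))))
    rw [e1, hlin _ (hε l), Finset.sum_apply]
    refine Finset.sum_congr rfl fun k _ => ?_
    simp [cc]
  refine ⟨fun i j => co (b (ε i) (ε j)), fun i j k => ?_, fun i j l m => ?_, fun i j k => ?_⟩
  · have h1 := hzero _ (mul_mem (hbb i j) (hbb j i)) (hb.anti _ (hε i) _ (hε j))
    rw [hmul _ (hbb i j) _ (hbb j i)] at h1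
    have h2 := congrFun h1 k
    rw [← hdvd, Int.cast_add]
    exact h2
  · have m1 := hb.mem _ (hbb i j) _ (hε l)
    have m2 := hb.mem _ (hbb j l) _ (hε i)
    have m3 := hb.mem _ (hbb l i) _ (hε j)
    have h1 := hzero _ (mul_mem (mul_mem m1 m2) m3) (hb.jac _ (hε i) _ (hε j) _ (hε l))
    rw [hmul _ (mul_mem m1 m2) _ m3, hmul _ m1 _ m2] at h1
    have h2 := congrFun h1 m
    rw [Pi.add_apply, Pi.add_apply, htri, htri, htri, ← Finset.sum_add_distrib,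
      ← Finset.sum_add_distrib] at h2
    rw [← hdvd, Int.cast_sum]
    refine Eq.trans (Finset.sum_congr rfl fun k _ => ?_) h2
    rw [Int.cast_add, Int.cast_add]
  · have hi := i.2
    have hj := j.2
    have hij : i.val + j.val < n := by omega
    obtain ⟨a1, a2⟩ := hΦ5 i.val (by omega)
    obtain ⟨b1, b2⟩ := hΦ5 j.val (by omega)
    obtain ⟨c1, c2⟩ := hΦ5 (i.val + j.val) hij
    rw [rp5_av] at a1 a2 b1 b2
    obtain ⟨d1, d2⟩ := hb.lead i.val j.val hij _ a1 _ b1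
    rw [a2, b2, mul_one, mul_one] at d2
    set v := av ℤ r ((e * p : ℕ) : ℤ) (i.val + j.val) with hv
    have hpos : 1 ≤ n + (i.val + j.val) := by omega
    have e1 : b (ε i) (ε j) * (Φ v ^ ((i.val : ℤ) - j.val))⁻¹ ∈ A.F (n + (i.val + j.val) + 1) := by
      refine A.cg_of_lead hA hpos d1 (zpow_mem c1 _) ?_
      rw [(A.isFun _ hpos).zpow c1, c2, mul_one]
      push_cast
      exact d2
    have e2 : π (Φ (co (b (ε i) (ε j)) - ((i.val : ℤ) - j.val) • v)) =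
        π (b (ε i) (ε j) * (Φ v ^ ((i.val : ℤ) - j.val))⁻¹) := by
      rw [hsub, hsmul, hco' _ (hbb i j), map_mul, map_inv, map_zpow]
    have e3 := A.toNS.mono (i := n + (i.val + j.val) + 1) (j := 2 * n) (by omega) (by omega)
      ((hπ _ _).1 e2)
    have e4 := mul_mem e3 e1
    rw [inv_mul_cancel_right, add_assoc] at e4
    exact (hΦ4 (i.val + j.val + 1) (by omega) _).1 e4 k

end Pool.Agent.P.MP_e06b60_al.R
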