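import Mathlib
import Pool.Agent.P.MP_e06b60_al.RA2

namespace Pool.Agent.P.MP_e06b60_al.R

open PowerSeries
open scoped commutatorElement

variable {p : ℕ} [Fact p.Prime]

theorem rp6_closed {X : Type} [TopologicalSpace X] (q : ℤ_[p]) {f : X → ℤ_[p]}
    (hf : Continuous f) : IsClosed {x | q ∣ f x} := by
  have h : IsClosed (Set.range fun y : ℤ_[p] => q * y) :=
    (isCompact_range (continuous_const.mul continuous_id)).isClosed
  have e : {x | q ∣ f x} = f ⁻¹' Set.range fun y : ℤ_[p] => q * y := by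
    ext x
    exact ⟨fun ⟨y, hy⟩ => ⟨y, hy.symm⟩, fun ⟨y, hy⟩ => ⟨y, hy.symm⟩⟩
  rw [e]
  exact h.preimage hf

theorem rp6_zero {x : ℤ_[p]} {N0 : ℕ} (h : ∀ N, (p : ℤ_[p]) ^ (N0 + N) ∣ x) : x = 0 := by
  by_contra hx
  obtain ⟨N, hN⟩ := PadicInt.exists_pow_neg_lt p (norm_pos_iff.2 hx)
  have h1 : (p : ℤ_[p]) ^ N ∣ x := (pow_dvd_pow _ (Nat.le_add_left N N0)).trans (h N)
  rw [← Ideal.mem_span_singleton, ← PadicInt.norm_le_pow_iff_mem_span_pow] at h1
  exact absurd hN (not_lt.2 h1)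

theorem rp6_av (r w m : ℕ) (k : Fin r) :
    ((av ℤ r (w : ℤ) m k : ℤ) : ℤ_[p]) = av ℤ_[p] r (w : ℤ_[p]) m k := by
  unfold av
  split_ifs <;> simp

theorem sc_limit (r w N0 : ℕ) (h : ∀ N, N0 ≤ N → ∃ C, SC ℤ p r (w : ℤ) ((p : ℤ) ^ N) C) :
    ∃ C, SC ℤ_[p] p r (w : ℤ_[p]) 0 C := by
  let S : ℕ → Set (Fin r → Fin r → Fin r → ℤ_[p]) :=
    fun N => {C | SC ℤ_[p] p r (w : ℤ_[p]) ((p : ℤ_[p]) ^ (N0 + N)) C}
  have hcl : ∀ N, IsClosed (S N) := by
    intro N
    have e : S N = ((⋂ i, ⋂ j, ⋂ k, {C | (p : ℤ_[p]) ^ (N0 + N) ∣ C i j k + C j i k}) ∩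
        ⋂ i, ⋂ j, ⋂ l, ⋂ m, {C | (p : ℤ_[p]) ^ (N0 + N) ∣
          ∑ k, (C i j k * C k l m + C j l k * C k i m + C l i k * C k j m)}) ∩
        ⋂ i : Fin r, ⋂ j : Fin r, ⋂ k : Fin r, {C | (p : ℤ_[p]) ^ dep r (i.val + j.val + 1) k.val ∣
          C i j k - ((i.val : ℤ_[p]) - j.val) * av ℤ_[p] r (w : ℤ_[p]) (i.val + j.val) k} := by
      ext C
      simp only [Set.mem_inter_iff, Set.mem_iInter]
      exact ⟨fun h => ⟨⟨h.anti, h.jac⟩, h.lead⟩, fun h => ⟨h.1.1, h.1.2, h.2⟩⟩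
    rw [e]
    refine IsClosed.inter (IsClosed.inter ?_ ?_) ?_
    · exact isClosed_iInter fun i => isClosed_iInter fun j => isClosed_iInter fun k =>
        rp6_closed _ (by fun_prop)
    · exact isClosed_iInter fun i => isClosed_iInter fun j => isClosed_iInter fun l =>
        isClosed_iInter fun m => rp6_closed _ (by fun_prop)
    · exact isClosed_iInter fun i => isClosed_iInter fun j => isClosed_iInter fun k =>
        rp6_closed _ (by fun_prop)
  have hne : ∀ N, (S N).Nonempty := by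
    intro N
    obtain ⟨C, hC⟩ := h (N0 + N) (Nat.le_add_right _ _)
    refine ⟨fun i j k => (C i j k : ℤ_[p]), fun i j k => ?_, fun i j l m => ?_, fun i j k => ?_⟩
    · have := map_dvd (Int.castRingHom ℤ_[p]) (hC.anti i j k)
      simpa using this
    · have := map_dvd (Int.castRingHom ℤ_[p]) (hC.jac i j l m)
      simpa using this
    · have := map_dvd (Int.castRingHom ℤ_[p]) (hC.lead i j k)
      simpa [rp6_av] using this
  have hdec : ∀ N, S (N + 1) ⊆ S N := fun N C hC =>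
    ⟨fun i j k => (pow_dvd_pow _ (by omega)).trans (hC.anti i j k),
      fun i j l m => (pow_dvd_pow _ (by omega)).trans (hC.jac i j l m), hC.lead⟩
  obtain ⟨C, hC⟩ := IsCompact.nonempty_iInter_of_sequence_nonempty_isCompact_isClosed S hdec hne
    (hcl 0).isCompact hcl
  rw [Set.mem_iInter] at hC
  exact ⟨C, fun i j k => zero_dvd_iff.2 (rp6_zero fun N => (hC N).anti i j k),
    fun i j l m => zero_dvd_iff.2 (rp6_zero fun N => (hC N).jac i j l m), (hC 0).lead⟩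

theorem rp6_unit {z : ℤ} (hz : ¬ (p : ℤ) ∣ z) : ‖(z : ℚ_[p])‖ = 1 :=
  le_antisymm (Padic.norm_int_le_one z) (not_lt.1 fun h => hz (Padic.norm_intCast_lt_one_iff.1 h))

theorem rp6_sub (x y : ℚ_[p]) : ‖x - y‖ ≤ max ‖x‖ ‖y‖ := by
  have := Padic.nonarchimedean x (-y)
  rwa [norm_neg, ← sub_eq_add_neg] at this

/-- the final argument on the numbers `γ` -/
theorem rp6_gamma (hp : 7 ≤ p) (n : ℕ) (γ : ℕ → ℚ_[p]) (ρ : ℝ)
    (h : ∀ i j l : ℕ, i + j + l = n → ‖((i : ℚ_[p]) - j) * γ l - ((j : ℚ_[p]) - l) * γ i‖ < ρ)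
    (i : ℕ) (hi : 2 * i + 2 ≤ n) : ‖γ i‖ < ρ := by
  have hpp : Prime (p : ℤ) := Nat.prime_iff_prime_int.1 Fact.out
  have small : ∀ c : ℤ, 0 < c → c < 7 → ¬ (p : ℤ) ∣ c := fun c h0 h7 hd => by
    have := Int.le_of_dvd h0 hd
    omega
  have one : ∀ i : ℕ, 2 * i ≤ n → ¬ (p : ℤ) ∣ 3 * (i : ℤ) - n → ‖γ i‖ < ρ := by
    intro i hi hd
    obtain ⟨j, hj⟩ := Nat.exists_eq_add_of_le hi
    have h1 := h i j i (by omega)
    have h2 : ¬ (p : ℤ) ∣ 2 * (3 * (i : ℤ) - n) := fun hh =>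
      (hpp.dvd_or_dvd hh).elim (small 2 (by norm_num) (by norm_num)) hd
    have e : ((i : ℚ_[p]) - j) * γ i - ((j : ℚ_[p]) - i) * γ i =
        ((2 * (3 * (i : ℤ) - n) : ℤ) : ℚ_[p]) * γ i := by
      rw [hj]
      push_cast
      ring
    rwa [e, norm_mul, rp6_unit h2, one_mul] at h1
  by_cases hd : (p : ℤ) ∣ 3 * (i : ℤ) - n
  · have h1 : ‖γ (i + 1)‖ < ρ := one (i + 1) (by omega) fun hh =>
      small 3 (by norm_num) (by norm_num) (by
        have := hh.sub hd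
        push_cast at this
        rwa [show 3 * ((i : ℤ) + 1) - n - (3 * i - n) = 3 by ring] at this)
    obtain ⟨j, hj⟩ : ∃ j, n = i + j + (i + 1) := ⟨n - (2 * i + 1), by omega⟩
    have h2 := h i j (i + 1) hj.symm
    have h3 : ¬ (p : ℤ) ∣ (j : ℤ) - (i + 1) := fun hh =>
      small 2 (by norm_num) (by norm_num) (by
        have := (hh.add hd).neg_right
        rw [hj] at this
        push_cast at this
        rwa [show -((j : ℤ) - (i + 1) + (3 * i - (i + j + (i + 1)))) = 2 by ring] at this)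
    have h4 : ‖((i : ℚ_[p]) - j) * γ (i + 1)‖ < ρ := by
      rw [norm_mul]
      have := Padic.norm_int_le_one (p := p) ((i : ℤ) - j)
      push_cast at this
      exact (mul_le_of_le_one_left (norm_nonneg _) this).trans_lt h1
    have h5 := (rp6_sub _ _).trans_lt (max_lt h4 h2)
    have h6 := rp6_unit h3
    push_cast at h5 h6
    rwa [sub_sub_cancel, norm_mul, h6, one_mul] at h5
  · exact one i (by omega) hd

theorem no_form (hp : 7 ≤ p) {V : Type} [LieRing V] [LieAlgebra ℚ_[p] V] {r : ℕ} (hr : 1 ≤ r)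
    (w : ℚ_[p]) (hw : ‖w‖ = (p : ℝ)⁻¹) (a : ℕ → V) (hper : ∀ i, a (i + r) = w • a i)
    (hspan : Submodule.span ℚ_[p] (Set.range a) = ⊤)
    (hbr : ∀ i j : ℕ, ⁅a i, a j⁆ - ((i : ℚ_[p]) - j) • a (i + j) ∈
      AddSubgroup.closure {v | ∃ (c : ℚ_[p]) (m : ℕ), ‖c‖ ≤ 1 ∧ i + j < m ∧ v = c • a m})
    (B : LinearMap.BilinForm ℚ_[p] V) (hs : ∀ x y, B x y = B y x)
    (hi : ∀ x y z, B ⁅x, y⁆ z = B x ⁅y, z⁆) : B = 0 := by
  have hp1 : (1 : ℝ) < p := by exact_mod_cast (show 1 < p by omega)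
  have hw0 : 0 < ‖w‖ := by rw [hw]; positivity
  have hw1 : ‖w‖ < 1 := by rw [hw]; exact inv_lt_one_of_one_lt₀ hp1
  obtain ⟨s, hs0, hs1, hsr⟩ : ∃ s : ℝ, 0 < s ∧ s < 1 ∧ s ^ r = ‖w‖ :=
    ⟨‖w‖ ^ ((r : ℝ)⁻¹), Real.rpow_pos_of_pos hw0 _,
      Real.rpow_lt_one hw0.le hw1 (by positivity), Real.rpow_inv_natCast_pow hw0.le (by omega)⟩
  let ω : ℕ → ℕ → ℝ := fun i j => ‖B (a i) (a j)‖ / s ^ (i + j)
  have ωs : ∀ i j, ω i j = ω j i := fun i j => by
    simp only [ω]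
    rw [hs, add_comm]
  have ωr : ∀ i j q, ω i (j + r * q) = ω i j := by
    intro i j q
    induction q with
    | zero => rfl
    | succ q ih =>
      rw [← ih]
      simp only [ω]
      rw [mul_add, mul_one, ← add_assoc, hper, map_smul, smul_eq_mul, norm_mul, ← hsr,
        ← add_assoc i, pow_add s _ r, mul_comm (s ^ r), mul_div_mul_right _ _ (by positivity)]
  have ωm : ∀ i j, ω i j = ω (i % r) (j % r) := fun i j => by
    rw [← ωr (i % r) (j % r) (j / r), Nat.mod_add_div, ωs (i % r), ← ωr j (i % r) (i / r),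
      Nat.mod_add_div, ωs]
  obtain ⟨⟨i0, j0⟩, -, hmax⟩ := Finset.exists_max_image (Finset.range r ×ˢ Finset.range r)
    (fun x => ω x.1 x.2) ⟨(0, 0), by simp; omega⟩
  set Mx := ω i0 j0 with hMx
  have hle : ∀ i j, ‖B (a i) (a j)‖ ≤ Mx * s ^ (i + j) := fun i j => by
    have := hmax (i % r, j % r) (by simp [Nat.mod_lt _ (show 0 < r by omega)])
    simp only at this
    rw [← ωm] at this
    exact (div_le_iff₀ (by positivity)).1 this
  have hM0 : 0 ≤ Mx := div_nonneg (norm_nonneg _) (by positivity)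
  have hcl : ∀ (n l : ℕ) (x : V), x ∈ AddSubgroup.closure
      {v | ∃ (c : ℚ_[p]) (m : ℕ), ‖c‖ ≤ 1 ∧ n < m ∧ v = c • a m} →
      ‖B (a l) x‖ ≤ Mx * s ^ (l + n + 1) := by
    intro n l x hx
    induction hx using AddSubgroup.closure_induction with
    | mem x hx =>
      obtain ⟨c, m, hc, hm, rfl⟩ := hx
      rw [map_smul, smul_eq_mul, norm_mul]
      refine (mul_le_of_le_one_left (norm_nonneg _) hc).trans ((hle l m).trans ?_)
      exact mul_le_mul_of_nonneg_left (pow_le_pow_of_le_one hs0.le hs1.le (by omega)) hM0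
    | zero => rw [map_zero, norm_zero]; positivity
    | add x y _ _ hx hy =>
      rw [map_add]
      exact (Padic.nonarchimedean _ _).trans (max_le hx hy)
    | neg x _ hx => rwa [map_neg, norm_neg]
  have hM : Mx = 0 := by
    by_contra hne
    have hpos : 0 < Mx := lt_of_le_of_ne hM0 (Ne.symm hne)
    set n := i0 + (j0 + r * (i0 + 2)) with hn
    have key := rp6_gamma hp n (fun i => B (a i) (a (n - i))) (Mx * s ^ n) (fun i j l h => by
      have e1 := hcl _ l _ (hbr i j)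
      have e2 := hcl _ i _ (hbr j l)
      rw [map_sub, map_smul, smul_eq_mul] at e1 e2
      rw [show l + (i + j) + 1 = n + 1 by omega] at e1
      rw [show i + (j + l) + 1 = n + 1 by omega] at e2
      have e3 := (rp6_sub _ _).trans (max_le e2 e1)
      rw [hs (a l) ⁅a i, a j⁆, hi] at e3
      rw [show n - l = i + j by omega, show n - i = j + l by omega]
      refine lt_of_le_of_lt (le_of_eq_of_le (congrArg _ (by ring)) e3) ?_
      rw [pow_succ, ← mul_assoc]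
      exact mul_lt_of_lt_one_right (by positivity) hs1) i0 (by nlinarith)
    have e := ωr i0 j0 (i0 + 2)
    rw [← hMx] at e
    simp only [ω] at e
    rw [div_eq_iff (by positivity), ← hn] at e
    rw [show n - i0 = j0 + r * (i0 + 2) by omega, e] at key
    exact lt_irrefl _ key
  refine LinearMap.ext_on hspan ?_
  rintro _ ⟨i, rfl⟩
  refine LinearMap.ext_on hspan ?_
  rintro _ ⟨j, rfl⟩
  have := hle i j
  rw [hM, zero_mul] at this
  exact norm_le_zero_iff.1 this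

end Pool.Agent.P.MP_e06b60_al.R
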