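import Mathlib
import Pool.Agent.P.MP_e06b60_al.RP6

namespace Pool.Agent.P.MP_e06b60_al.R

open PowerSeries
open scoped commutatorElement

variable {p : ℕ} [Fact p.Prime]

theorem lie_false (hp : 7 ≤ p) {V : Type} [LieRing V] [LieAlgebra ℚ_[p] V] [Module.Finite ℚ_[p] V]
    [Nontrivial V] (h : ∀ B : LinearMap.BilinForm ℚ_[p] V, (∀ x y, B x y = B y x) →
      (∀ x y z, B ⁅x, y⁆ z = B x ⁅y, z⁆) → B = 0) : False := by
  have hK : killingForm ℚ_[p] V = 0 :=
    h _ (fun x y => LieModule.traceForm_comm ℚ_[p] V V x y)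
      (fun x y z => LieModule.traceForm_apply_lie_apply ℚ_[p] V V x y z)
  have hs : LieAlgebra.IsSolvable V :=
    LieAlgebra.isSolvable_of_killingForm_apply_lie_eq_zero (R := ℚ_[p])
      (fun x y _ => by rw [hK]; rfl)
  have hlt := LieAlgebra.derivedSeries_lt_top_of_solvable ℚ_[p] V
  have hlt' : (LieAlgebra.derivedSeries ℚ_[p] V 1).toSubmodule < ⊤ := by
    rw [lt_top_iff_ne_top, Ne, LieSubmodule.toSubmodule_eq_top]
    exact hlt.ne
  obtain ⟨φ, h0, hφ⟩ := Submodule.exists_le_ker_of_lt_top _ hlt'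
  have hz : ∀ x y : V, φ ⁅x, y⁆ = 0 := fun x y =>
    hφ (LieSubmodule.lie_mem_lie (LieSubmodule.mem_top x) (LieSubmodule.mem_top y))
  have hB := h ((LinearMap.mul ℚ_[p] ℚ_[p]).compl₁₂ φ φ)
    (fun x y => by simp [mul_comm]) (fun x y z => by simp [hz])
  apply h0
  ext x
  have := congrArg (fun B : LinearMap.BilinForm ℚ_[p] V => B x x) hB
  simpa using this

/-- Structure constants of a Lie algebra. -/
structure rp7_D (K : Type) [Field K] (r : ℕ) where
  c : Fin r → Fin r → Fin r → K
  two : (2 : K) ≠ 0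
  anti : ∀ i j k, c i j k + c j i k = 0
  jac : ∀ i j l m, ∑ k, (c i j k * c k l m + c j l k * c k i m + c l i k * c k j m) = 0

namespace rp7_D

variable {K : Type} [Field K] {r : ℕ} (D : rp7_D K r)

/-- The bracket on coordinate vectors. -/
def br : (Fin r → K) →ₗ[K] (Fin r → K) →ₗ[K] (Fin r → K) :=
  LinearMap.mk₂ K (fun x y k => ∑ i, ∑ j, x i * y j * D.c i j k)
    (fun x x' y => by
      funext k
      simp only [Pi.add_apply, add_mul, Finset.sum_add_distrib])
    (fun a x y => by
      funext k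
      simp only [Pi.smul_apply, smul_eq_mul, Finset.mul_sum, mul_assoc])
    (fun x y y' => by
      funext k
      simp only [Pi.add_apply, add_mul, mul_add, Finset.sum_add_distrib])
    (fun a x y => by
      funext k
      simp only [Pi.smul_apply, smul_eq_mul, Finset.mul_sum]
      refine Finset.sum_congr rfl fun i _ => Finset.sum_congr rfl fun j _ => ?_
      ring)

theorem br_apply (x y : Fin r → K) (k : Fin r) :
    D.br x y k = ∑ i, ∑ j, x i * y j * D.c i j k := rfl

theorem br_right (x : Fin r → K) (l : Fin r) (d : K) (m : Fin r) :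
    D.br x (Pi.single l d) m = ∑ k, x k * d * D.c k l m := by
  rw [br_apply]
  refine Finset.sum_congr rfl fun i _ => ?_
  rw [Finset.sum_eq_single l]
  · rw [Pi.single_eq_same]
  · intro j _ hj
    rw [Pi.single_eq_of_ne hj, mul_zero, zero_mul]
  · intro h
    exact absurd (Finset.mem_univ l) h

theorem br_single (i j : Fin r) (a b : K) (k : Fin r) :
    D.br (Pi.single i a) (Pi.single j b) k = a * b * D.c i j k := by
  rw [br_right, Finset.sum_eq_single i]
  · rw [Pi.single_eq_same]
  · intro j _ hj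
    rw [Pi.single_eq_of_ne hj, zero_mul, zero_mul]
  · intro h
    exact absurd (Finset.mem_univ i) h

theorem br_skew (x y : Fin r → K) : D.br x y + D.br y x = 0 := by
  funext k
  rw [Pi.add_apply, br_apply, br_apply, Finset.sum_comm (f := fun i j => y i * x j * D.c i j k),
    ← Finset.sum_add_distrib, Pi.zero_apply]
  refine Finset.sum_eq_zero fun i _ => ?_
  rw [← Finset.sum_add_distrib]
  refine Finset.sum_eq_zero fun j _ => ?_
  linear_combination (x i * y j) * D.anti i j k

theorem br_self (x : Fin r → K) : D.br x x = 0 := by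
  funext k
  have h := congrFun (D.br_skew x x) k
  rw [Pi.add_apply, Pi.zero_apply, ← two_mul] at h
  exact (mul_eq_zero.1 h).resolve_left D.two

theorem br_jac (x y z : Fin r → K) :
    D.br (D.br x y) z + D.br (D.br y z) x + D.br (D.br z x) y = 0 := by
  induction x using Pi.single_induction with
  | zero => simp
  | add f g hf hg =>
    simp only [map_add, LinearMap.add_apply]
    linear_combination hf + hg
  | single i a =>
    induction y using Pi.single_induction with
    | zero => simp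
    | add f g hf hg =>
      simp only [map_add, LinearMap.add_apply]
      linear_combination hf + hg
    | single j b =>
      induction z using Pi.single_induction with
      | zero => simp
      | add f g hf hg =>
        simp only [map_add, LinearMap.add_apply]
        linear_combination hf + hg
      | single l d =>
        funext m
        rw [Pi.add_apply, Pi.add_apply, br_right, br_right, br_right, Pi.zero_apply,
          ← Finset.sum_add_distrib, ← Finset.sum_add_distrib]
        have h := congrArg (fun t => a * b * d * t) (D.jac i j l m)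
        simp only [Finset.mul_sum, mul_zero] at h
        rw [← h]
        refine Finset.sum_congr rfl fun k _ => ?_
        rw [br_single, br_single, br_single]
        ring

theorem br_leib (x y z : Fin r → K) :
    D.br x (D.br y z) = D.br (D.br x y) z + D.br y (D.br x z) := by
  have h1 := D.br_jac x y z
  have h2 := D.br_skew x (D.br y z)
  have h3 := D.br_skew y (D.br x z)
  have h4 : D.br (D.br z x) y + D.br (D.br x z) y = 0 := by
    rw [← D.br.map_add₂, D.br_skew z x, map_zero, LinearMap.zero_apply]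
  linear_combination h2 - h1 - h3 + h4

/-- The underlying space. -/
def V (_D : rp7_D K r) : Type := Fin r → K

instance rp7_acg : AddCommGroup D.V := inferInstanceAs (AddCommGroup (Fin r → K))

instance rp7_mod : Module K D.V := inferInstanceAs (Module K (Fin r → K))

instance rp7_fin : Module.Finite K D.V := inferInstanceAs (Module.Finite K (Fin r → K))

instance rp7_lr : LieRing D.V where
  bracket x y := D.br x y
  add_lie x y z := D.br.map_add₂ x y z
  lie_add x y z := (D.br x).map_add y z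
  lie_self x := D.br_self x
  leibniz_lie x y z := D.br_leib x y z

instance rp7_la : LieAlgebra K D.V where
  lie_smul t x y := (D.br x).map_smul t y

end rp7_D

/-- The span of the deeper lattice vectors. -/
def rp7_S {V : Type} [AddCommGroup V] [Module ℚ_[p] V] (a : ℕ → V) (n : ℕ) : AddSubgroup V :=
  AddSubgroup.closure {v | ∃ (c : ℚ_[p]) (m : ℕ), ‖c‖ ≤ 1 ∧ n < m ∧ v = c • a m}

theorem rp7_pow {V : Type} [AddCommGroup V] [Module ℚ_[p] V] {r : ℕ} {w : ℚ_[p]} {a : ℕ → V}
    (hper : ∀ i, a (i + r) = w • a i) (i q : ℕ) : a (i + r * q) = w ^ q • a i := by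
  induction q with
  | zero => simp
  | succ q ih => rw [Nat.mul_succ, ← add_assoc, hper, ih, smul_smul, pow_succ']

theorem rp7_shift {V : Type} [AddCommGroup V] [Module ℚ_[p] V] {r : ℕ} {w : ℚ_[p]} {a : ℕ → V}
    (hper : ∀ i, a (i + r) = w • a i) (n q : ℕ) {v : V} (hv : v ∈ rp7_S (p := p) a n) :
    w ^ q • v ∈ rp7_S (p := p) a (n + r * q) := by
  induction hv using AddSubgroup.closure_induction with
  | mem x hx =>
    obtain ⟨c, m, hc, hm, rfl⟩ := hx
    refine AddSubgroup.subset_closure ⟨c, m + r * q, hc, by omega, ?_⟩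
    rw [rp7_pow hper, smul_comm]
  | zero => rw [smul_zero]; exact zero_mem _
  | add x y _ _ hx hy => rw [smul_add]; exact add_mem hx hy
  | neg x _ hx => rw [smul_neg]; exact neg_mem hx

theorem rp7_av_per {K : Type} [CommRing K] {r : ℕ} (hr : 1 ≤ r) (w : K) (i : ℕ) :
    av K r w (i + r) = w • av K r w i := by
  funext k
  simp only [av, Pi.smul_apply, smul_eq_mul, Nat.add_mod_right, Nat.add_div_right i hr]
  split_ifs
  · rw [pow_succ']
  · rw [mul_zero]

theorem rp7_av_single {K : Type} [CommRing K] {r : ℕ} (w : K) (k : Fin r) :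
    av K r w k.val = Pi.single k 1 := by
  funext l
  simp only [av, Nat.mod_eq_of_lt k.2, Nat.div_eq_of_lt k.2, pow_zero]
  by_cases h : l = k
  · rw [h, if_pos rfl, Pi.single_eq_same]
  · rw [if_neg (fun h' => h (Fin.ext h')), Pi.single_eq_of_ne h]

theorem rp7_av_coe {r : ℕ} (w : ℤ_[p]) (m : ℕ) (k : Fin r) :
    ((av ℤ_[p] r w m k : ℤ_[p]) : ℚ_[p]) = av ℚ_[p] r (w : ℚ_[p]) m k := by
  unfold av
  split_ifs
  · exact PadicInt.coe_pow _ _
  · rfl

theorem sc_false (hp : 7 ≤ p) {r e : ℕ} (hr : 1 ≤ r) (hd : p ∣ r) (he : ¬ p ∣ e)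
    (C : Fin r → Fin r → Fin r → ℤ_[p]) (h : SC ℤ_[p] p r ((e * p : ℕ) : ℤ_[p]) 0 C) : False := by
  have hpp : p.Prime := Fact.out
  let D : rp7_D ℚ_[p] r :=
    { c := fun i j k => (C i j k : ℚ_[p])
      two := two_ne_zero
      anti := fun i j k => by
        have := congrArg (fun t : ℤ_[p] => (t : ℚ_[p])) (zero_dvd_iff.1 (h.anti i j k))
        simpa using this
      jac := fun i j l m => by
        have := congrArg (PadicInt.Coe.ringHom (p := p)) (zero_dvd_iff.1 (h.jac i j l m))
        simp only [map_sum, map_zero, map_add, map_mul] at this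
        exact this }
  have he1 : ‖(e : ℚ_[p])‖ = 1 :=
    Padic.norm_natCast_eq_one_iff.2 ((Nat.Prime.coprime_iff_not_dvd hpp).2 he)
  have he0 : (e : ℚ_[p]) ≠ 0 := by
    intro h0
    rw [h0, norm_zero] at he1
    exact zero_ne_one he1
  obtain ⟨w, hw⟩ : ∃ w : ℚ_[p], w = (e : ℚ_[p]) * p := ⟨_, rfl⟩
  have hwc : (((e * p : ℕ) : ℤ_[p]) : ℚ_[p]) = w := by
    rw [hw, PadicInt.coe_natCast, Nat.cast_mul]
  have hwn : ‖w‖ = (p : ℝ)⁻¹ := by rw [hw, norm_mul, he1, one_mul, Padic.norm_p]
  have hper : ∀ i, av ℚ_[p] r w (i + r) = w • av ℚ_[p] r w i := rp7_av_per hr w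
  have hB : ∀ i j : Fin r, D.br (av ℚ_[p] r w i.val) (av ℚ_[p] r w j.val) -
      ((i.val : ℚ_[p]) - j.val) • av ℚ_[p] r w (i.val + j.val) ∈
      rp7_S (p := p) (av ℚ_[p] r w) (i.val + j.val) := by
    intro i j
    rw [← Finset.univ_sum_single (D.br (av ℚ_[p] r w i.val) (av ℚ_[p] r w j.val) -
      ((i.val : ℚ_[p]) - j.val) • av ℚ_[p] r w (i.val + j.val))]
    refine sum_mem fun k _ => ?_
    obtain ⟨u, hu⟩ := h.lead i j k
    obtain ⟨d, hd⟩ : ∃ d, d = dep r (i.val + j.val + 1) k.val := ⟨_, rfl⟩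
    rw [← hd] at hu
    have hu' := congrArg (fun t : ℤ_[p] => (t : ℚ_[p])) hu
    simp only [PadicInt.coe_sub, PadicInt.coe_mul, PadicInt.coe_pow, PadicInt.coe_natCast,
      rp7_av_coe, hwc] at hu'
    refine AddSubgroup.subset_closure ⟨(u : ℚ_[p]) * ((e : ℚ_[p])⁻¹) ^ d, k.val + r * d, ?_, ?_, ?_⟩
    · rw [norm_mul, norm_pow, norm_inv, he1, inv_one, one_pow, mul_one]
      exact u.2
    · have h1 := Nat.div_add_mod (i.val + j.val + 1 + r - 1 - k.val) r
      have h2 := Nat.mod_lt (i.val + j.val + 1 + r - 1 - k.val) hr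
      have h3 := k.2
      unfold dep at hd
      rw [← hd] at h1
      omega
    · rw [rp7_pow hper, rp7_av_single w k, smul_smul, ← Pi.single_smul, smul_eq_mul, mul_one]
      congr 1
      rw [Pi.sub_apply, rp7_av_single w i, rp7_av_single w j, D.br_single, one_mul, one_mul,
        Pi.smul_apply, smul_eq_mul]
      have : (C i j k : ℚ_[p]) - ((i.val : ℚ_[p]) - j.val) * av ℚ_[p] r w (i.val + j.val) k =
          (u : ℚ_[p]) * ((e : ℚ_[p])⁻¹) ^ d * w ^ d := by
        rw [hu', hw, mul_assoc, ← mul_pow, ← mul_assoc, inv_mul_cancel₀ he0, one_mul, mul_comm]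
      exact this
  have hbr : ∀ i j : ℕ, D.br (av ℚ_[p] r w i) (av ℚ_[p] r w j) -
      ((i : ℚ_[p]) - j) • av ℚ_[p] r w (i + j) ∈ rp7_S (p := p) (av ℚ_[p] r w) (i + j) := by
    intro i j
    obtain ⟨i0, q, hi0, rfl⟩ : ∃ i0 q, i0 < r ∧ i = i0 + r * q :=
      ⟨i % r, i / r, Nat.mod_lt _ hr, (Nat.mod_add_div i r).symm⟩
    obtain ⟨j0, q', hj0, rfl⟩ : ∃ j0 q', j0 < r ∧ j = j0 + r * q' :=
      ⟨j % r, j / r, Nat.mod_lt _ hr, (Nat.mod_add_div j r).symm⟩
    obtain ⟨r', hr'⟩ := hd
    have e1 : i0 + r * q + (j0 + r * q') = i0 + j0 + r * (q + q') := by ring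
    have h1 := hB ⟨i0, hi0⟩ ⟨j0, hj0⟩
    have h2 : (((r' : ℤ) * ((q : ℤ) - q') : ℤ) * (e : ℚ_[p])⁻¹) • av ℚ_[p] r w (i0 + j0 + r) ∈
        rp7_S (p := p) (av ℚ_[p] r w) (i0 + j0) := by
      refine AddSubgroup.subset_closure ⟨_, i0 + j0 + r, ?_, by omega, rfl⟩
      rw [norm_mul, norm_inv, he1, inv_one, mul_one]
      exact Padic.norm_int_le_one _
    have h3 := rp7_shift hper _ (q + q') (sub_mem h1 h2)
    rw [e1, rp7_pow hper (i0 + j0), rp7_pow hper i0, rp7_pow hper j0]
    have e2 : D.br (w ^ q • av ℚ_[p] r w i0) (w ^ q' • av ℚ_[p] r w j0) -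
        (((i0 + r * q : ℕ) : ℚ_[p]) - ((j0 + r * q' : ℕ) : ℚ_[p])) •
          w ^ (q + q') • av ℚ_[p] r w (i0 + j0) =
        w ^ (q + q') • (D.br (av ℚ_[p] r w i0) (av ℚ_[p] r w j0) -
          ((i0 : ℚ_[p]) - j0) • av ℚ_[p] r w (i0 + j0) -
          (((r' : ℤ) * ((q : ℤ) - q') : ℤ) * (e : ℚ_[p])⁻¹) • av ℚ_[p] r w (i0 + j0 + r)) := by
      have e3 : (((r' : ℤ) * ((q : ℤ) - q') : ℤ) * (e : ℚ_[p])⁻¹) * w =
          (r : ℚ_[p]) * ((q : ℚ_[p]) - q') := by
        have e4 : (r : ℚ_[p]) = p * r' := by exact_mod_cast hr'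
        rw [e4, hw]
        push_cast
        field_simp
      rw [hper, smul_smul _ w, e3, D.br.map_smul₂, map_smul]
      push_cast
      module
    rw [e2]
    exact h3
  have hspan : Submodule.span ℚ_[p] (Set.range (av ℚ_[p] r w)) = ⊤ := by
    rw [eq_top_iff, ← (Pi.basisFun ℚ_[p] (Fin r)).span_eq]
    refine Submodule.span_mono ?_
    rintro _ ⟨k, rfl⟩
    exact ⟨k.val, by rw [rp7_av_single, Pi.basisFun_apply]⟩
  have : Nonempty (Fin r) := ⟨⟨0, hr⟩⟩
  have : Nontrivial D.V := inferInstanceAs (Nontrivial (Fin r → ℚ_[p]))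
  exact lie_false (V := D.V) hp fun B hs hi =>
    no_form (V := D.V) hp hr w hwn (av ℚ_[p] r w) hper hspan hbr B hs hi

end Pool.Agent.P.MP_e06b60_al.R
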