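import Mathlib
import Pool.Agent.P.MP_e06b60_al.RP1
import Pool.Agent.P.MP_e06b60_al.RP3
import Pool.Agent.P.MP_e06b60_al.RP5
import Pool.Agent.P.MP_e06b60_al.RP7

namespace Pool.Agent.P.MP_e06b60_al.R

open PowerSeries
open scoped commutatorElement

variable {p : ℕ} [Fact p.Prime] {G : Type} [Group G]

theorem PF.pw (hp : 7 ≤ p) (A : PF p G) (hA : A.Ker) : A.PW := by
  by_contra h
  obtain ⟨r, e, i1, hr, hd, he, hi1, hu⟩ := exists_up hp A hA h
  have key : ∀ N, i1 + 2 ≤ N → ∃ C, SC ℤ p r ((e * p : ℕ) : ℤ) ((p : ℤ) ^ N) C := by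
    intro N hN
    have hN1 : i1 ≤ N * r := le_trans (by omega) (Nat.le_mul_of_pos_right N hr)
    obtain ⟨b, hb⟩ := exists_lieMod hp hi1 hu hA hN1
    exact sc_of_lieMod hi1 hu hA hr he hN1 (by omega) hb
  obtain ⟨C, hC⟩ := sc_limit r (e * p) (i1 + 2) key
  exact sc_false hp hr hd he C hC

end Pool.Agent.P.MP_e06b60_al.R
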