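import Mathlib
import Pool.Agent.P.MP_e06b60_al.RA2

namespace Pool.Agent.P.MP_e06b60_al.R

open PowerSeries
open scoped commutatorElement

variable {p : ℕ} [Fact p.Prime] {G : Type} [Group G] [TopologicalSpace G] [IsTopologicalGroup G]

/-- the closed series generated by commutators from the third term on -/
noncomputable def rs1_F (P : Subgroup G) (n : ℕ) : Subgroup G :=
  if n ≤ 1 then ⊤ else if n = 2 then P else
    (⨆ (i : ℕ) (_ : 1 ≤ i ∧ i < n), ⁅rs1_F P i, rs1_F P (n - i)⁆).topologicalClosure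
termination_by n
decreasing_by all_goals omega

theorem rs1_one (P : Subgroup G) : rs1_F P 1 = ⊤ := by
  rw [rs1_F, if_pos le_rfl]

theorem rs1_two (P : Subgroup G) : rs1_F P 2 = P := by
  rw [rs1_F, if_neg (by omega), if_pos rfl]

theorem rs1_big (P : Subgroup G) {n : ℕ} (hn : 3 ≤ n) : rs1_F P n =
    (⨆ (i : ℕ) (_ : 1 ≤ i ∧ i < n), ⁅rs1_F P i, rs1_F P (n - i)⁆).topologicalClosure := by
  rw [rs1_F, if_neg (by omega), if_neg (by omega)]

theorem rs1_gen (P : Subgroup G) {n : ℕ} (hn : 3 ≤ n) (T : Subgroup G) (hT : IsClosed (T : Set G))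
    (h : ∀ i j, 1 ≤ i → 1 ≤ j → i + j = n → ∀ x ∈ rs1_F P i, ∀ y ∈ rs1_F P j, ⁅x, y⁆ ∈ T) :
    rs1_F P n ≤ T := by
  rw [rs1_big P hn]
  refine Subgroup.topologicalClosure_minimal _ (iSup₂_le fun i hi => ?_) hT
  rw [Subgroup.commutator_le]
  exact h i (n - i) hi.1 (by omega) (by omega)

theorem rs1_comm (P : Subgroup G) (h : ∀ x y : G, ⁅x, y⁆ ∈ P) {i j : ℕ} (hi : 1 ≤ i) (hj : 1 ≤ j)
    {x y : G} (hx : x ∈ rs1_F P i) (hy : y ∈ rs1_F P j) : ⁅x, y⁆ ∈ rs1_F P (i + j) := by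
  by_cases h2 : i + j = 2
  · rw [h2, rs1_two]
    exact h x y
  · rw [rs1_big P (by omega : 3 ≤ i + j)]
    refine Subgroup.le_topologicalClosure _ ?_
    have h3 : ⁅rs1_F P i, rs1_F P (i + j - i)⁆ ≤
        ⨆ (l : ℕ) (_ : 1 ≤ l ∧ l < i + j), ⁅rs1_F P l, rs1_F P (i + j - l)⁆ :=
      le_iSup₂_of_le (f := fun (l : ℕ) (_ : 1 ≤ l ∧ l < i + j) =>
        ⁅rs1_F P l, rs1_F P (i + j - l)⁆) i ⟨hi, by omega⟩ le_rfl
    refine h3 (Subgroup.commutator_mem_commutator hx ?_)
    rwa [Nat.add_sub_cancel_left]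

theorem rs1_closed (P : Subgroup G) (hc : IsClosed (P : Set G)) {n : ℕ} (hn : 1 ≤ n) :
    IsClosed (rs1_F P n : Set G) := by
  rcases (by omega : n = 1 ∨ n = 2 ∨ 3 ≤ n) with rfl | rfl | h3
  · rw [rs1_one]
    exact isClosed_univ
  · rw [rs1_two]
    exact hc
  · rw [rs1_big P h3]
    exact Subgroup.isClosed_topologicalClosure _

theorem rs1_anti (P : Subgroup G) (hc : IsClosed (P : Set G)) (h : ∀ x y : G, ⁅x, y⁆ ∈ P) (n : ℕ) :
    1 ≤ n → rs1_F P (n + 1) ≤ rs1_F P n := by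
  induction n using Nat.strong_induction_on with
  | _ n ih =>
    intro hn
    rcases (by omega : n = 1 ∨ 2 ≤ n) with rfl | h2
    · rw [rs1_one]
      exact le_top
    · refine rs1_gen P (by omega) _ (rs1_closed P hc hn) fun i j hi hj hij x hx y hy => ?_
      by_cases hi2 : 2 ≤ i
      · obtain ⟨l, rfl⟩ : ∃ l, i = l + 1 := ⟨i - 1, by omega⟩
        have h4 := rs1_comm P h (by omega : 1 ≤ l) hj (ih l (by omega) (by omega) hx) hy
        rwa [(by omega : l + j = n)] at h4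
      · obtain ⟨l, rfl⟩ : ∃ l, j = l + 1 := ⟨j - 1, by omega⟩
        have h4 := rs1_comm P h hi (by omega : 1 ≤ l) hx (ih l (by omega) (by omega) hy)
        rwa [(by omega : i + l = n)] at h4

theorem exists_ws (P : Subgroup G) [P.Normal] (hc : IsClosed (P : Set G)) (h : ∀ x y : G, ⁅x, y⁆ ∈ P) :
    ∃ S : WS G, S.F 2 = P :=
  ⟨{ F := rs1_F P
     anti := rs1_anti P hc h
     comm := fun _ _ hi hj _ hx _ hy => rs1_comm P h hi hj hx hy
     top := rs1_one P
     closed := fun _ hn => rs1_closed P hc hn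
     gen := fun _ hn T hT hg => rs1_gen P hn T hT hg }, rs1_two P⟩

/-- elements of a term whose power lies in the next term -/
def rs1_T (p : ℕ) (S : NS G) (n : ℕ) (hn : 1 ≤ n) : Subgroup G where
  carrier := {x | x ∈ S.F n ∧ x ^ p ∈ S.F (n + 1)}
  mul_mem' := by
    rintro x y ⟨hx, hx'⟩ ⟨hy, hy'⟩
    refine ⟨mul_mem hx hy, ?_⟩
    have h1 := S.mono (by omega : 1 ≤ n + 1) (by omega : n + 1 ≤ n + n) (S.mul_pow_cg hn hn hx hy p)
    have h2 := mul_mem h1 (mul_mem hx' hy')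
    rwa [inv_mul_cancel_right] at h2
  one_mem' := ⟨one_mem _, by rw [one_pow]; exact one_mem _⟩
  inv_mem' := by
    rintro x ⟨hx, hx'⟩
    exact ⟨inv_mem hx, by rw [inv_pow]; exact inv_mem hx'⟩

theorem ws_exp (S : WS G) (h1 : ∀ x ∈ S.F 1, x ^ p ∈ S.F 2) (h2 : ∀ x ∈ S.F 2, x ^ p ∈ S.F 3) :
    ∀ n, 1 ≤ n → ∀ x ∈ S.F n, x ^ p ∈ S.F (n + 1) := by
  intro n
  induction n using Nat.strong_induction_on with
  | _ n ih =>
    intro hn
    rcases (by omega : n = 1 ∨ n = 2 ∨ 3 ≤ n) with rfl | rfl | h3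
    · exact h1
    · exact h2
    · have hcl : IsClosed (rs1_T p S.toNS n hn : Set G) :=
        (S.closed n hn).inter ((S.closed (n + 1) (by omega)).preimage (continuous_pow p))
      refine fun x hx => (S.gen n h3 _ hcl (fun i j hi hj hij x hx y hy => ?_) hx).2
      refine ⟨hij ▸ S.comm i j hi hj x hx y hy, ?_⟩
      have h4 := S.toNS.mono (by omega : 1 ≤ n + 1) (by omega : n + 1 ≤ 2 * i + j)
        (S.toNS.comm_pow_left hi hj hx hy p)
      have h5 := S.comm (i + 1) j (by omega) hj _ (ih i (by omega) hi x hx) y hy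
      rw [(by omega : i + 1 + j = n + 1)] at h5
      have h6 := mul_mem (inv_mem h4) h5
      rwa [mul_inv_rev, inv_inv, inv_mul_cancel_right] at h6

theorem ws_inf [CompactSpace G] [T2Space G] [TotallyDisconnectedSpace G]
    (hpro : ∀ N : OpenNormalSubgroup G, IsPGroup p (G ⧸ N.toSubgroup)) (S : WS G) (x : G)
    (hx : ∀ n, 1 ≤ n → x ∈ S.F n) : x = 1 := by
  by_contra hne
  obtain ⟨N, hN⟩ := ProfiniteGrp.exist_openNormalSubgroup_sub_open_nhds_of_one
    (isOpen_compl_singleton (x := x)) (Set.mem_compl_singleton_iff.2 (Ne.symm hne))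
  have hop : IsOpen (N.toSubgroup : Set G) := N.isOpen'
  have hfin : Finite (G ⧸ N.toSubgroup) := Subgroup.quotient_finite_of_isOpen _ hop
  have hnil : Group.IsNilpotent (G ⧸ N.toSubgroup) := (hpro N).isNilpotent
  obtain ⟨t, H, hH, ht⟩ := (Subgroup.nilpotent_iff_finite_descending_central_series _).1 hnil
  have key : ∀ t, ∃ m, ∀ n, m ≤ n → S.F n ≤ (H t).comap (QuotientGroup.mk' N.toSubgroup) := by
    intro t
    induction t with
    | zero => exact ⟨0, fun n _ => by rw [hH.1]; exact le_top⟩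
    | succ t ih =>
      obtain ⟨m, hm⟩ := ih
      have hle : N.toSubgroup ≤ (H (t + 1)).comap (QuotientGroup.mk' N.toSubgroup) := by
        intro y hy
        rw [Subgroup.mem_comap, QuotientGroup.mk'_apply, (QuotientGroup.eq_one_iff y).2 hy]
        exact one_mem _
      have hcl := Subgroup.isClosed_of_isOpen _ (Subgroup.isOpen_mono hle hop)
      refine ⟨2 * m + 3, fun n hn => S.gen n (by omega) _ hcl fun i j hi hj hij y hy z hz => ?_⟩
      rw [Subgroup.mem_comap, map_commutatorElement]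
      by_cases hi2 : m ≤ i
      · exact hH.2 _ t (hm i hi2 hy) _
      · rw [← commutatorElement_inv]
        exact inv_mem (hH.2 _ t (hm j (by omega) hz) _)
  obtain ⟨m, hm⟩ := key t
  have h1 := hm (m + 1) (by omega) (hx _ (by omega))
  rw [ht, Subgroup.mem_comap, Subgroup.mem_bot, QuotientGroup.mk'_apply,
    QuotientGroup.eq_one_iff] at h1
  exact hN h1 rfl

end Pool.Agent.P.MP_e06b60_al.R
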