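import Mathlib
import Pool.Agent.P.MP_e06b60_al.RJ1

namespace Pool.Agent.P.MP_e06b60_al.R

open PowerSeries
open scoped commutatorElement

variable {p : ℕ} [Fact p.Prime] {G : Type} [Group G] [TopologicalSpace G] [IsTopologicalGroup G]

/-- The preimage of the image of a term of the depth filtration. -/
noncomputable def rs2_P (N : Subgroup (Nott p)) [N.Normal] (ψ : G →* Nott p ⧸ N) (n : ℕ) : Subgroup G :=
  ((Jn p n).map (QuotientGroup.mk' N)).comap ψ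

omit [Fact p.Prime] [TopologicalSpace G] [IsTopologicalGroup G] in
theorem rs2_mem (N : Subgroup (Nott p)) [N.Normal] (ψ : G →* Nott p ⧸ N) (n : ℕ) (x : G) :
    x ∈ rs2_P N ψ n ↔ ∃ f ∈ Jn p n, ψ x = (f : Nott p ⧸ N) := by
  simp only [rs2_P, Subgroup.mem_comap, Subgroup.mem_map, QuotientGroup.mk'_apply]
  exact ⟨fun ⟨f, hf, e⟩ => ⟨f, hf, e.symm⟩, fun ⟨f, hf, e⟩ => ⟨f, hf, e.symm⟩⟩

omit [Fact p.Prime] in
theorem rs2_closed (N : Subgroup (Nott p)) [N.Normal] (ψ : G →* Nott p ⧸ N) (hc : Continuous ψ)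
    (n : ℕ) : IsClosed (rs2_P N ψ n : Set G) := by
  refine Subgroup.isClosed_of_isOpen _ ?_
  have h := (QuotientGroup.isOpenMap_coe (N := N) _ (Jn_isOpen (p := p) n)).preimage hc
  have e : (rs2_P N ψ n : Set G) =
      ψ ⁻¹' ((fun f : Nott p => (f : Nott p ⧸ N)) '' (Jn p n : Set (Nott p))) := by
    ext x
    rw [SetLike.mem_coe, rs2_mem]
    exact ⟨fun ⟨f, hf, e⟩ => ⟨f, hf, e.symm⟩, fun ⟨f, hf, e⟩ => ⟨f, hf, e.symm⟩⟩
  rw [e]
  exact h

omit [Fact p.Prime] [TopologicalSpace G] [IsTopologicalGroup G] in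
theorem rs2_comm (N : Subgroup (Nott p)) [N.Normal] (ψ : G →* Nott p ⧸ N) {x y : G}
    {f g : Nott p} (hx : ψ x = (f : Nott p ⧸ N)) (hy : ψ y = (g : Nott p ⧸ N)) :
    ψ ⁅x, y⁆ = ((⁅f, g⁆ : Nott p) : Nott p ⧸ N) := by
  rw [map_commutatorElement, hx, hy]
  exact (map_commutatorElement (QuotientGroup.mk' N) f g).symm

theorem rs2_step (S : WS G) {i m : ℕ} (hm : 1 ≤ m)
    (h : ∀ x ∈ gamma G i, ∀ y : G, ⁅x, y⁆ ∈ S.F m) : gamma G (i + 1) ≤ S.F m := by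
  rw [gamma]
  exact Subgroup.topologicalClosure_minimal _
    (Subgroup.commutator_le.2 fun x hx y _ => h x hx y) (S.closed m hm)

theorem rs2_steps (S : WS G) {i m : ℕ} (hm : 1 ≤ m) (h : gamma G i ≤ S.F m) (t : ℕ) :
    gamma G (i + t) ≤ S.F (m + t) := by
  induction t with
  | zero => exact h
  | succ t ih =>
    refine rs2_step S (by omega) fun x hx y => ?_
    exact S.comm (m + t) 1 (by omega) le_rfl x (ih hx) y (by rw [S.top]; trivial)

theorem s2_le (hp : 7 ≤ p) (N : Subgroup (Nott p)) [N.Normal] (hN : N = Jn p (2 * p + 4))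
    (ψ : G →* Nott p ⧸ N) (hc : Continuous ψ) (hs : Function.Surjective ψ) (S : WS G)
    (h2 : ∀ x, x ∈ S.F 2 ↔ ∃ f ∈ Jn p 2, ψ x = (f : Nott p ⧸ N)) :
    ∀ n, 1 ≤ n → n ≤ 2 * p + 4 → ∀ x ∈ S.F n, ∃ f ∈ Jn p n, ψ x = (f : Nott p ⧸ N) := by
  intro n
  induction n using Nat.strong_induction_on with
  | _ n ih =>
    intro h1 hn x hx
    rcases Nat.lt_or_ge n 3 with h3 | h3
    · obtain rfl | rfl : n = 1 ∨ n = 2 := by omega
      · obtain ⟨f, hf⟩ := QuotientGroup.mk_surjective (ψ x)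
        exact ⟨f, by rw [Jn_one]; trivial, hf.symm⟩
      · exact (h2 x).1 hx
    · refine (rs2_mem N ψ n x).1 (S.gen n h3 _ (rs2_closed N ψ hc n) ?_ hx)
      intro i j hi hj hij a ha b hb
      obtain ⟨f, hf, e1⟩ := ih i (by omega) hi (by omega) a ha
      obtain ⟨g, hg, e2⟩ := ih j (by omega) hj (by omega) b hb
      exact (rs2_mem N ψ n _).2 ⟨⁅f, g⁆, hij ▸ (comm_lead hi hj hf hg).1, rs2_comm N ψ e1 e2⟩

theorem s2_gen (hp : 7 ≤ p) (N : Subgroup (Nott p)) [N.Normal] (hN : N = Jn p (2 * p + 4))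
    (ψ : G →* Nott p ⧸ N) (hc : Continuous ψ) (hs : Function.Surjective ψ) (S : WS G)
    (h2 : ∀ x, x ∈ S.F 2 ↔ ∃ f ∈ Jn p 2, ψ x = (f : Nott p ⧸ N)) :
    ∀ n, 1 ≤ n → n ≤ 2 * p + 3 →
      ∃ g ∈ S.F n, ∃ f ∈ Jn p n, ψ g = (f : Nott p ⧸ N) ∧ coeff (n + 1) f.1 = 1 := by
  intro n
  induction n using Nat.strong_induction_on with
  | _ n ih =>
    intro h1 hn
    rcases Nat.lt_or_ge n 3 with h3 | h3
    · obtain rfl | rfl : n = 1 ∨ n = 2 := by omega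
      · obtain ⟨g, hg⟩ := hs (el p 0 : Nott p ⧸ N)
        exact ⟨g, by rw [S.top]; trivial, el p 0, el_mem 0, hg, el_coeff 0⟩
      · obtain ⟨g, hg⟩ := hs (el p 1 : Nott p ⧸ N)
        exact ⟨g, (h2 g).2 ⟨_, el_mem 1, hg⟩, el p 1, el_mem 1, hg, el_coeff 1⟩
    · have key : ∀ i j, 1 ≤ i → 1 ≤ j → i + j = n → (i : ZMod p) - j ≠ 0 →
          ∃ g ∈ S.F n, ∃ f ∈ Jn p n, ψ g = (f : Nott p ⧸ N) ∧ coeff (n + 1) f.1 = 1 := by
        intro i j hi hj hij hne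
        obtain ⟨a, ha, f, hf, e1, c1⟩ := ih i (by omega) hi (by omega)
        obtain ⟨b, hb, g, hg, e2, c2⟩ := ih j (by omega) hj (by omega)
        obtain ⟨m1, m2⟩ := comm_lead hi hj hf hg
        rw [c1, c2, mul_one, mul_one] at m2
        have m3 := S.comm i j hi hj a ha b hb
        rw [hij] at m1 m2 m3
        refine ⟨⁅a, b⁆ ^ (((i : ZMod p) - j)⁻¹).val, pow_mem m3 _,
          ⁅f, g⁆ ^ (((i : ZMod p) - j)⁻¹).val, pow_mem m1 _, ?_, ?_⟩
        · rw [map_pow, rs2_comm N ψ e1 e2, QuotientGroup.mk_pow]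
        · have := ((JW p).isFun n h1).pow (x := ⁅f, g⁆) m1 (((i : ZMod p) - j)⁻¹).val
          rw [JW_lead, JW_lead, m2, ZMod.natCast_zmod_val, inv_mul_cancel₀ hne] at this
          exact this
      obtain ⟨m, rfl⟩ : ∃ m, n = m + 3 := ⟨n - 3, by omega⟩
      by_cases h0 : ((1 : ℕ) : ZMod p) - ((m + 2 : ℕ) : ZMod p) = 0
      · refine key 2 (m + 1) (by omega) (by omega) (by omega) fun h => ?_
        refine cast_ne_zero (p := p) (a := 2) (by omega) (by omega) ?_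
        push_cast at h h0 ⊢
        linear_combination h - h0
      · exact key 1 (m + 2) (by omega) (by omega) (by omega) h0

theorem s2_ge (hp : 7 ≤ p) (N : Subgroup (Nott p)) [N.Normal] (hN : N = Jn p (2 * p + 4))
    (ψ : G →* Nott p ⧸ N) (hc : Continuous ψ) (hs : Function.Surjective ψ) (S : WS G)
    (h2 : ∀ x, x ∈ S.F 2 ↔ ∃ f ∈ Jn p 2, ψ x = (f : Nott p ⧸ N)) :
    ∀ n, 1 ≤ n → n ≤ 2 * p + 4 → ∀ f ∈ Jn p n, ∃ y ∈ S.F n, ψ y = (f : Nott p ⧸ N) := by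
  intro n h1 hn
  induction hn using Nat.decreasingInduction with
  | self =>
    intro f hf
    refine ⟨1, one_mem _, ?_⟩
    rw [map_one, eq_comm, QuotientGroup.eq_one_iff, hN]
    exact hf
  | of_succ n hn ih =>
    intro f hf
    obtain ⟨g, hg, f0, hf0, e, c⟩ := s2_gen hp N hN ψ hc hs S h2 n h1 (by omega)
    obtain ⟨a, ha⟩ := (JW p).span JW_ker h1 (g := f0) (x := f) hf0
      (by rw [JW_lead, c]; exact one_ne_zero) hf
    obtain ⟨y, hy, e'⟩ := ih (by omega) _ ha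
    refine ⟨y * g ^ a, mul_mem (S.anti n h1 hy) (pow_mem hg a), ?_⟩
    rw [map_mul, map_pow, e', e, ← QuotientGroup.mk_pow, ← QuotientGroup.mk_mul,
      inv_mul_cancel_right]

theorem s2_ker (hp : 7 ≤ p) (N : Subgroup (Nott p)) [N.Normal] (hN : N = Jn p (2 * p + 4))
    (ψ : G →* Nott p ⧸ N) (hc : Continuous ψ) (hs : Function.Surjective ψ) (S : WS G)
    (h2 : ∀ x, x ∈ S.F 2 ↔ ∃ f ∈ Jn p 2, ψ x = (f : Nott p ⧸ N))
    (hk : ψ.ker = gamma G (2 * p)) : ψ.ker ≤ S.F (2 * p + 4) := by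
  have htop : ∀ x : G, x ∈ S.F 1 := fun x => by rw [S.top]; trivial
  have g1 : gamma G 1 ≤ S.F 3 := by
    obtain ⟨g, hg, f0, hf0, e, c⟩ := s2_gen hp N hN ψ hc hs S h2 1 le_rfl (by omega)
    refine rs2_step S (i := 0) (by omega) fun x _ y => ?_
    refine S.toNS.cyc_comm le_rfl hg (fun z _ => ?_) x (htop x) y (htop y)
    obtain ⟨f, hf⟩ := QuotientGroup.mk_surjective (ψ z)
    obtain ⟨a, ha⟩ := (JW p).span JW_ker le_rfl (g := f0) (x := f) hf0
      (by rw [JW_lead, c]; exact one_ne_zero) ((JW p).mem_one f)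
    refine ⟨a, (h2 _).2 ⟨_, ha, ?_⟩⟩
    rw [map_mul, map_inv, map_pow, e, ← hf, QuotientGroup.mk_mul, QuotientGroup.mk_inv,
      QuotientGroup.mk_pow]
  have back : ∀ n, 1 ≤ n → n ≤ 2 * p + 4 → gamma G (2 * p) ≤ S.F n → rs2_P N ψ n ≤ S.F n := by
    intro n h1 hn hle x hx
    obtain ⟨f, hf, e⟩ := (rs2_mem N ψ n x).1 hx
    obtain ⟨y, hy, e'⟩ := s2_ge hp N hN ψ hc hs S h2 n h1 hn f hf
    have hxy : x * y⁻¹ ∈ S.F n := by
      refine hle ?_
      rw [← hk, MonoidHom.mem_ker, map_mul, map_inv, e, e', mul_inv_cancel]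
    simpa using mul_mem hxy hy
  have jump : ∀ i m, 1 ≤ m → m + 2 ≤ 2 * p + 4 → (m : ZMod p) = 1 → gamma G i ≤ S.F m →
      gamma G (2 * p) ≤ S.F (m + 2) → gamma G (i + 1) ≤ S.F (m + 2) := by
    intro i m hm hm' h1 hi hle
    refine rs2_step S (by omega) fun x hx y => back (m + 2) (by omega) hm' hle ?_
    obtain ⟨f, hf, e⟩ := s2_le hp N hN ψ hc hs S h2 m hm (by omega) x (hi hx)
    obtain ⟨g, hg⟩ := QuotientGroup.mk_surjective (ψ y)
    exact (rs2_mem N ψ _ _).2 ⟨_, comm_jump hm h1 hf g, rs2_comm N ψ e hg.symm⟩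
  have a1 : gamma G (2 * p) ≤ S.F (2 * p + 2) := by
    have := rs2_steps S (by omega) g1 (2 * p - 1)
    rwa [show 1 + (2 * p - 1) = 2 * p by omega, show 3 + (2 * p - 1) = 2 * p + 2 by omega] at this
  have a2 : gamma G (p - 1) ≤ S.F (p + 1) := by
    have := rs2_steps S (by omega) g1 (p - 2)
    rwa [show 1 + (p - 2) = p - 1 by omega, show 3 + (p - 2) = p + 1 by omega] at this
  have a3 : gamma G (p - 1 + 1) ≤ S.F (p + 1 + 2) :=
    jump _ _ (by omega) (by omega) (by simp) a2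
      (a1.trans (S.toNS.mono (by omega) (by omega)))
  have a4 : gamma G (2 * p) ≤ S.F (2 * p + 1 + 2) := by
    have := rs2_steps S (by omega) a3 p
    rwa [show p - 1 + 1 + p = 2 * p by omega, show p + 1 + 2 + p = 2 * p + 1 + 2 by omega] at this
  have a5 : gamma G (2 * p - 2) ≤ S.F (2 * p + 1) := by
    have := rs2_steps S (by omega) a3 (p - 2)
    rwa [show p - 1 + 1 + (p - 2) = 2 * p - 2 by omega,
      show p + 1 + 2 + (p - 2) = 2 * p + 1 by omega] at this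
  have a6 := jump _ _ (by omega) (by omega) (by simp) a5 a4
  have a7 := rs2_steps S (by omega) a6 1
  rw [show 2 * p - 2 + 1 + 1 = 2 * p by omega, show 2 * p + 1 + 2 + 1 = 2 * p + 4 by omega] at a7
  rw [hk]
  exact a7

end Pool.Agent.P.MP_e06b60_al.R
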