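import Mathlib
import Pool.Agent.P.MP_e06b60_al.RS1
import Pool.Agent.P.MP_e06b60_al.RS2

namespace Pool.Agent.P.MP_e06b60_al.R

open PowerSeries
open scoped commutatorElement

variable {p : ℕ} [Fact p.Prime] {G : Type} [Group G] [TopologicalSpace G] [IsTopologicalGroup G]

theorem base_exists (hp : 7 ≤ p) (N : Subgroup (Nott p)) [N.Normal] (hN : N = Jn p (2 * p + 4))
    (ψ : G →* Nott p ⧸ N) (hc : Continuous ψ) (hs : Function.Surjective ψ)
    (hk : ψ.ker = gamma G (2 * p)) : ∃ (S : WS G) (g : ℕ → G), Base p S (2 * p + 3) g := by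
  have hNo : IsOpen (N : Set (Nott p)) := by rw [hN]; exact Jn_isOpen _
  have hd : DiscreteTopology (Nott p ⧸ N) := QuotientGroup.discreteTopology hNo
  have hko : IsOpen (ψ.ker : Set G) := by
    have e : (ψ.ker : Set G) = ψ ⁻¹' {1} := by
      ext x; simp [MonoidHom.mem_ker]
    rw [e]
    exact (isOpen_discrete _).preimage hc
  have hlift : ∀ x : G, ∃ f : Nott p, ψ x = (f : Nott p ⧸ N) := fun x => by
    obtain ⟨f, hf⟩ := QuotientGroup.mk_surjective (ψ x)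
    exact ⟨f, hf.symm⟩
  let P : Subgroup G := ((Jn p 2).map (QuotientGroup.mk' N)).comap ψ
  have hP : ∀ x, x ∈ P ↔ ∃ f ∈ Jn p 2, ψ x = (f : Nott p ⧸ N) := fun x => by
    simp only [P, Subgroup.mem_comap, Subgroup.mem_map, QuotientGroup.mk'_apply]
    exact ⟨fun ⟨f, h1, h2⟩ => ⟨f, h1, h2.symm⟩, fun ⟨f, h1, h2⟩ => ⟨f, h1, h2.symm⟩⟩
  have : ((Jn p 2).map (QuotientGroup.mk' N)).Normal :=
    (Jn_normal 2).map _ (QuotientGroup.mk'_surjective N)
  have : P.Normal := Subgroup.normal_comap ψ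
  have hkP : ψ.ker ≤ P := fun x hx =>
    (hP x).2 ⟨1, (Jn p 2).one_mem, by rw [MonoidHom.mem_ker.1 hx]; rfl⟩
  have hPc : IsClosed (P : Set G) := P.isClosed_of_isOpen (Subgroup.isOpen_mono hkP hko)
  have hcomm : ∀ (x y : G) (f g : Nott p), ψ x = (f : Nott p ⧸ N) → ψ y = (g : Nott p ⧸ N) →
      ψ ⁅x, y⁆ = ((⁅f, g⁆ : Nott p) : Nott p ⧸ N) := fun x y f g hf hg => by
    rw [map_commutatorElement, hf, hg]
    exact (map_commutatorElement (QuotientGroup.mk' N) f g).symm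
  obtain ⟨S, hS⟩ := exists_ws P hPc fun x y => by
    obtain ⟨f, hf⟩ := hlift x
    obtain ⟨g, hg⟩ := hlift y
    exact (hP _).2 ⟨⁅f, g⁆, (JW p).comm 1 1 le_rfl le_rfl f ((JW p).mem_one f) g
      ((JW p).mem_one g), hcomm x y f g hf hg⟩
  have h2 : ∀ x, x ∈ S.F 2 ↔ ∃ f ∈ Jn p 2, ψ x = (f : Nott p ⧸ N) := fun x => by
    rw [hS]; exact hP x
  have hker := s2_ker hp N hN ψ hc hs S h2 hk
  have key : ∀ n, 1 ≤ n → n ≤ 2 * p + 4 → ∀ (x : G) (f : Nott p), ψ x = (f : Nott p ⧸ N) →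
      (x ∈ S.F n ↔ f ∈ Jn p n) := fun n h1 hn x f hx => by
    constructor
    · intro h
      obtain ⟨f', a1, a2⟩ := s2_le hp N hN ψ hc hs S h2 n h1 hn x h
      have a3 : f'⁻¹ * f ∈ N := QuotientGroup.eq.1 (a2.symm.trans hx)
      rw [hN] at a3
      have a4 := (Jn p n).mul_mem a1 (Jn_anti hn a3)
      rwa [mul_inv_cancel_left] at a4
    · intro h
      obtain ⟨y, a1, a2⟩ := s2_ge hp N hN ψ hc hs S h2 n h1 hn f h
      have a3 : x * y⁻¹ ∈ ψ.ker := by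
        rw [MonoidHom.mem_ker, map_mul, map_inv, hx, a2, mul_inv_cancel]
      have a4 := (S.F n).mul_mem (S.toNS.mono h1 hn (hker a3)) a1
      rwa [inv_mul_cancel_right] at a4
  have hgen : ∀ n, ∃ (g : G) (f : Nott p), 1 ≤ n → n ≤ 2 * p + 3 →
      g ∈ S.F n ∧ f ∈ Jn p n ∧ ψ g = (f : Nott p ⧸ N) ∧ coeff (n + 1) f.1 = 1 := fun n => by
    by_cases h : 1 ≤ n ∧ n ≤ 2 * p + 3
    · obtain ⟨g, a1, f, a2, a3, a4⟩ := s2_gen hp N hN ψ hc hs S h2 n h.1 h.2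
      exact ⟨g, f, fun _ _ => ⟨a1, a2, a3, a4⟩⟩
    · exact ⟨1, 1, fun a b => (h ⟨a, b⟩).elim⟩
  choose g φ hg using hgen
  refine ⟨S, g, fun n h1 hn => (hg n h1 hn).1, fun n h1 hn x hx => ?_, fun n h1 hn x hx => ?_,
    fun i j hi hj hij => ?_, Subgroup.isOpen_mono hker hko⟩
  · obtain ⟨f, hf⟩ := hlift x
    have a1 := (key n h1 (by omega) x f hf).1 hx
    refine (key (n + 1) (by omega) (by omega) _ (f ^ p) ?_).2 ((JW p).exp JW_ker h1 a1)
    rw [map_pow, hf]; rfl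
  · obtain ⟨f, hf⟩ := hlift x
    obtain ⟨-, b2, b3, b4⟩ := hg n h1 hn
    have a1 := (key n h1 (by omega) x f hf).1 hx
    obtain ⟨a, ha⟩ := (JW p).span JW_ker h1 (g := φ n) b2
      (by rw [JW_lead, b4]; exact one_ne_zero) a1
    refine ⟨a, (key (n + 1) (by omega) (by omega) _ (f * (φ n ^ a)⁻¹) ?_).2 ha⟩
    rw [map_mul, map_inv, map_pow, hf, b3]; rfl
  · obtain ⟨-, b2, b3, b4⟩ := hg i hi (by omega)
    obtain ⟨-, c2, c3, c4⟩ := hg j hj (by omega)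
    obtain ⟨-, d2, d3, d4⟩ := hg (i + j) (by omega) hij
    have hij1 : 1 ≤ i + j := by omega
    refine (key (i + j + 1) (by omega) (by omega) _
      (⁅φ i, φ j⁆ * (φ (i + j) ^ ((i : ℤ) - j))⁻¹) ?_).2 ?_
    · rw [map_mul, map_inv, map_zpow, hcomm _ _ _ _ b3 c3, d3]; rfl
    · refine (JW p).cg_of_lead JW_ker hij1 ((JW p).comm i j hi hj _ b2 _ c2)
        (((JW p).F (i + j)).zpow_mem d2 _) ?_
      rw [(JW p).br i j hi hj _ b2 _ c2, ((JW p).isFun (i + j) hij1).zpow d2, JW_lead, JW_lead,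
        JW_lead, b4, c4, d4]
      push_cast
      ring

end Pool.Agent.P.MP_e06b60_al.R
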