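import Mathlib
import Pool.Agent.P.MP_e06b60_al.RA3
import Pool.Agent.P.MP_e06b60_al.RL1

namespace Pool.Agent.P.MP_e06b60_al.R

open PowerSeries
open scoped commutatorElement

variable {p : ℕ} [Fact p.Prime] {G : Type} [Group G] [TopologicalSpace G] [IsTopologicalGroup G]

theorem rt1_sub (S : WS G) {n : ℕ} (hn : 1 ≤ n) (x : G) :
    ∃ T : Subgroup G, IsClosed (T : Set G) ∧ ∀ y, y ∈ T ↔ ⁅x, y⁆ ∈ S.F n := by
  have h1 : ∀ g : G, g ∈ S.F 1 := fun g => by rw [S.top]; trivial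
  refine ⟨⟨⟨⟨{y | ⁅x, y⁆ ∈ S.F n}, ?_⟩, ?_⟩, ?_⟩, ?_, fun y => Iff.rfl⟩
  · intro a b ha hb
    have e : ⁅x, a * b⁆ = ⁅x, a⁆ * (a * ⁅x, b⁆ * a⁻¹) := by
      simp [commutatorElement_def, mul_assoc]
    show ⁅x, a * b⁆ ∈ S.F n
    rw [e]
    exact (S.F n).mul_mem ha (S.toNS.conj_mem hn hb (h1 a))
  · show ⁅x, (1 : G)⁆ ∈ S.F n
    simp
  · intro a ha
    have e : ⁅x, a⁻¹⁆ = a⁻¹ * ⁅x, a⁆⁻¹ * a⁻¹⁻¹ := by
      simp [commutatorElement_def, mul_assoc]
    show ⁅x, a⁻¹⁆ ∈ S.F n
    rw [e]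
    exact S.toNS.conj_mem hn ((S.F n).inv_mem ha) (h1 _)
  · have hc : Continuous fun y : G => x * y * x⁻¹ * y⁻¹ := by fun_prop
    exact (S.closed n hn).preimage hc

theorem rt1_big {S : WS G} {n0 N : ℕ} {g z : ℕ → G} (h : Str p S n0 g z N) {m j : ℕ}
    (hm : 1 ≤ m) (hj : 3 ≤ j) (hmj : m + j = N + 1) :
    ∀ y ∈ S.F j, ⁅z m, y⁆ ∈ S.F (N + 2) := by
  obtain ⟨T, hT, hmem⟩ := rt1_sub S (n := N + 2) (by omega) (z m)
  have hz : z m ∈ S.F m := (h.mem m hm (by omega)).2
  have hle : S.F j ≤ T := by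
    refine S.gen j hj T hT fun i l hi hl hil a ha b hb => ?_
    rw [hmem]
    have hJ := S.toNS.jacobi (m := 1) le_rfl hi hl hm ha hb hz
    have e1 : i + l + m + 1 = N + 2 := by omega
    rw [e1] at hJ
    have h2 : ⁅⁅b, z m⁆, a⁆ ∈ S.F (N + 2) := by
      have hb' : ⁅b, z m⁆ ∈ S.F (m + l + 1) := by
        rw [← commutatorElement_inv]
        exact (S.F _).inv_mem (h.cen m l hm hl (by omega) b hb)
      have := S.comm (m + l + 1) i (by omega) hi _ hb' _ ha
      rwa [show m + l + 1 + i = N + 2 by omega] at this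
    have h3 : ⁅⁅z m, a⁆, b⁆ ∈ S.F (N + 2) := by
      have := S.comm (m + i + 1) l (by omega) hl _ (h.cen m i hm hi (by omega) a ha) _ hb
      rwa [show m + i + 1 + l = N + 2 by omega] at this
    have h4 : ⁅⁅a, b⁆, z m⁆ ∈ S.F (N + 2) :=
      ((S.F _).mul_mem_cancel_right h2).1 (((S.F _).mul_mem_cancel_right h3).1 hJ)
    rw [← commutatorElement_inv]
    exact (S.F _).inv_mem h4
  exact fun y hy => (hmem y).1 (hle hy)

omit [IsTopologicalGroup G] in
theorem rt1_rel {S : WS G} {n0 N : ℕ} {g z : ℕ → G} (h : Str p S n0 g z N) {f : G → ZMod p}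
    (hf : IsFun p S.toNS (N + 1) f) {i j l : ℕ} (hi : 1 ≤ i) (hj : 1 ≤ j) (hl : 1 ≤ l)
    (hijl : i + j + l = N + 1) :
    f ⁅⁅g i, g j⁆, g l⁆ = ((i : ZMod p) - j) * f ⁅g (i + j), g l⁆ +
      (i : ZMod p) ^ 3 * f ⁅z (i + j), g l⁆ := by
  have hg := (h.mem (i + j) (by omega) (by omega)).1
  have hz := (h.mem (i + j) (by omega) (by omega)).2
  have hgl := (h.mem l hl (by omega)).1
  have h1 : g (i + j) ^ ((i : ℤ) - j) ∈ S.F (i + j) := (S.F _).zpow_mem hg _
  have h2 : z (i + j) ^ i ^ 3 ∈ S.F (i + j) := (S.F _).pow_mem hz _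
  rw [hf.comm_congr_left (by omega) hl hijl ((S.F _).mul_mem h1 h2)
      (h.rel i j hi hj (by omega)) hgl,
    hf.comm_mul_left (by omega) hl hijl h1 h2 hgl,
    hf.comm_zpow_left (by omega) hl hijl hg hgl, hf.comm_pow_left (by omega) hl hijl hz hgl]
  push_cast
  ring

theorem str_cen (hp : 7 ≤ p) {S : WS G} {n0 N : ℕ} {g z : ℕ → G}
    (hexp : ∀ n, 1 ≤ n → ∀ x ∈ S.F n, x ^ p ∈ S.F (n + 1)) (h : Str p S n0 g z N)
    (hn0 : 2 ≤ n0) (hN : 13 ≤ N) :
    ∀ m j, 1 ≤ m → 1 ≤ j → m + j = N + 1 → ∀ y ∈ S.F j, ⁅z m, y⁆ ∈ S.F (N + 2) := by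
  intro m t hm ht hmt y hy
  by_cases ht3 : 3 ≤ t
  · exact rt1_big h hm ht3 hmt y hy
  by_cases hpm : p ∣ m
  swap
  · rw [h.triv m hm (by omega) (Or.inl hpm)]
    simp
  have hz : z m ∈ S.F m := (h.mem m hm (by omega)).2
  have hgt : g t ∈ S.F t := (h.mem t ht (by omega)).1
  have hm0 : (m : ZMod p) = 0 := (ZMod.natCast_eq_zero_iff m p).2 hpm
  have key : ⁅z m, g t⁆ ∈ S.F (N + 1 + 1) := by
    refine sep_fun (p := p) S.toNS (by omega) (hexp (N + 1) (by omega)) ?_ fun f hf => ?_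
    · have := S.comm m t hm ht _ hz _ hgt
      rwa [hmt] at this
    have hE : ∀ i k, 1 ≤ i → 1 ≤ k → k + i = N + 1 →
        f ⁅z k, g i⁆ = if i = t then f ⁅z m, g t⁆ else 0 := by
      intro i k hi hk hki
      split_ifs with hit
      · subst hit
        rw [show k = m by omega]
      · by_cases hi3 : 3 ≤ i
        · exact hf.zero _ (rt1_big h hk hi3 hki _ (h.mem i hi (by omega)).1)
        · have hpk : ¬ p ∣ k := by
            intro hpk
            have h1 : p ∣ 1 := by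
              rcases (by omega : k = m + 1 ∨ m = k + 1) with e | e
              · rw [e] at hpk
                exact (Nat.dvd_add_right hpm).1 hpk
              · rw [e] at hpm
                exact (Nat.dvd_add_right hpk).1 hpm
            have := Nat.le_of_dvd one_pos h1
            omega
          rw [h.triv k hk (by omega) (Or.inl hpk)]
          simpa using hf.one
    refine l2 hp t (by omega) (N - 2) (Or.inl (by omega))
      (fun i => f ⁅g i, g (N + 1 - i)⁆) (f ⁅z m, g t⁆) 0 fun i j hi hj hij => ?_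
    obtain ⟨l, hl⟩ : ∃ l, i + j + l = N + 1 := ⟨N + 1 - (i + j), by omega⟩
    have hl3 : 3 ≤ l := by omega
    have hgi := (h.mem i hi (by omega)).1
    have hgj := (h.mem j hj (by omega)).1
    have hgl := (h.mem l (by omega) (by omega)).1
    have hJ := hf.jacobi hi hj (by omega) hl hgi hgj hgl
    rw [rt1_rel h hf hi hj (by omega) hl, rt1_rel h hf hj (by omega) hi (by omega),
      rt1_rel h hf (by omega) hi hj (by omega),
      hf.zero _ (rt1_big h (by omega) hl3 hl _ hgl),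
      hE i (j + l) hi (by omega) (by omega), hE j (l + i) hj (by omega) (by omega),
      hf.comm_anti hi (j := j + l) (by omega) (by omega) hgi
        (h.mem (j + l) (by omega) (by omega)).1,
      hf.comm_anti hj (j := l + i) (by omega) (by omega) hgj
        (h.mem (l + i) (by omega) (by omega)).1] at hJ
    have hlc : (l : ZMod p) = t - i - j := by
      have e : ((i + j + l : ℕ) : ZMod p) = ((m + t : ℕ) : ZMod p) := by rw [hl, hmt]
      push_cast at e
      linear_combination e + hm0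
    rw [show N + 1 - (i + j) = l by omega, show N + 1 - i = j + l by omega,
      show N + 1 - j = l + i by omega]
    rw [hlc] at hJ
    by_cases hit : i = t <;> by_cases hjt : j = t
    · simp only [if_pos hit, if_pos hjt] at hJ ⊢
      rw [← hjt] at hJ ⊢
      linear_combination hJ
    · simp only [if_pos hit, if_neg hjt] at hJ ⊢
      linear_combination hJ
    · simp only [if_neg hit, if_pos hjt] at hJ ⊢
      rw [← hjt] at hJ ⊢
      linear_combination hJ
    · simp only [if_neg hit, if_neg hjt] at hJ ⊢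
      linear_combination hJ
  obtain ⟨T, -, hmem⟩ := rt1_sub S (n := N + 2) (by omega) (z m)
  obtain ⟨a, b, hab⟩ := h.span t ht (by omega) y hy
  rw [h.triv t ht (by omega) (Or.inr (by omega)), one_pow, mul_one] at hab
  have h1 : y * (g t ^ a)⁻¹ ∈ T := by
    rw [hmem]
    have := S.comm m (t + 1) hm (by omega) _ hz _ hab
    rwa [show m + (t + 1) = N + 2 by omega] at this
  have h2 : g t ^ a ∈ T := T.pow_mem ((hmem _).2 key) a
  have h3 := T.mul_mem h1 h2
  rw [inv_mul_cancel_right] at h3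
  exact (hmem y).1 h3

end Pool.Agent.P.MP_e06b60_al.R
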