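import Mathlib
import Pool.Agent.P.MP_e06b60_al.RA3
import Pool.Agent.P.MP_e06b60_al.RL1

namespace Pool.Agent.P.MP_e06b60_al.R

open PowerSeries
open scoped commutatorElement

variable {p : ℕ} [Fact p.Prime] {G : Type} [Group G] [TopologicalSpace G] [IsTopologicalGroup G]

theorem rt2_tri {S : WS G} {n0 N : ℕ} {g z : ℕ → G} (h : Str p S n0 g z N)
    (hcen : ∀ m j, 1 ≤ m → 1 ≤ j → m + j = N + 1 → ∀ y ∈ S.F j, ⁅z m, y⁆ ∈ S.F (N + 2))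
    {f : G → ZMod p} (hf : IsFun p S.toNS (N + 1) f) {i j l : ℕ} (hi : 1 ≤ i) (hj : 1 ≤ j)
    (hl : 1 ≤ l) (e : i + j + l = N + 1) :
    f ⁅⁅g i, g j⁆, g l⁆ = ((i : ZMod p) - j) * f ⁅g (i + j), g l⁆ := by
  have h1 := h.mem (i + j) (by omega) (by omega)
  have h2 := (h.mem l hl (by omega)).1
  have h3 : 1 ≤ i + j := by omega
  rw [hf.comm_congr_left h3 hl e (mul_mem (zpow_mem h1.1 _) (pow_mem h1.2 _))
      (h.rel i j hi hj (by omega)) h2,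
    hf.comm_mul_left h3 hl e (zpow_mem h1.1 _) (pow_mem h1.2 _) h2,
    hf.comm_zpow_left h3 hl e h1.1 h2, hf.comm_pow_left h3 hl e h1.2 h2,
    hf.zero _ (hcen _ _ h3 hl e _ h2)]
  push_cast
  ring

theorem rt2_sol (hp : 7 ≤ p) {S : WS G} {n0 N : ℕ} {g z : ℕ → G} (h : Str p S n0 g z N)
    (hN : 13 ≤ N)
    (hcen : ∀ m j, 1 ≤ m → 1 ≤ j → m + j = N + 1 → ∀ y ∈ S.F j, ⁅z m, y⁆ ∈ S.F (N + 2))
    {f : G → ZMod p} (hf : IsFun p S.toNS (N + 1) f) :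
    ∃ α μ : ZMod p, (((N + 1 : ℕ) : ZMod p) ≠ 0 → μ = 0) ∧ ∀ i : ℕ, 1 ≤ i → i ≤ N →
      f ⁅g i, g (N + 1 - i)⁆ = α * (2 * i - ((N + 1 : ℕ) : ZMod p)) + μ * i ^ 3 := by
  refine l1 hp _ N (by omega) (fun i => f ⁅g i, g (N + 1 - i)⁆) fun i j hi hj hij => ?_
  obtain ⟨l, e⟩ : ∃ l, i + j + l = N + 1 := ⟨N + 1 - (i + j), by omega⟩
  have hl : 1 ≤ l := by omega
  have m1 := (h.mem i hi (by omega)).1
  have m2 := (h.mem j hj (by omega)).1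
  have m3 := (h.mem l hl (by omega)).1
  have h1 := hf.jacobi hi hj hl e m1 m2 m3
  rw [rt2_tri h hcen hf hi hj hl e, rt2_tri h hcen hf hj hl hi (by omega),
    rt2_tri h hcen hf hl hi hj (by omega),
    hf.comm_anti hi (show 1 ≤ j + l by omega) (by omega) m1 (h.mem _ (by omega) (by omega)).1,
    hf.comm_anti hj (show 1 ≤ l + i by omega) (by omega) m2
      (h.mem _ (by omega) (by omega)).1] at h1
  have h2 : ((N + 1 : ℕ) : ZMod p) = i + j + l := by rw [← e]; push_cast; ring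
  rw [h2, show N + 1 - (i + j) = l by omega, show N + 1 - i = j + l by omega,
    show N + 1 - j = l + i by omega]
  linear_combination h1

theorem rt2_fin {S : WS G} {n0 N : ℕ} {g z : ℕ → G}
    (hexp : ∀ n, 1 ≤ n → ∀ x ∈ S.F n, x ^ p ∈ S.F (n + 1)) (h : Str p S n0 g z N) {a b : G}
    (ha : a ∈ S.F (N + 1)) (hb : b ∈ S.F (N + 1))
    (hab : ∀ f : G → ZMod p, IsFun p S.toNS (N + 1) f → ∀ i : ℕ, 1 ≤ i → i ≤ N →
      f ⁅g i, g (N + 1 - i)⁆ = f a * (2 * i - ((N + 1 : ℕ) : ZMod p)) + f b * i ^ 3)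
    (i j : ℕ) (hi : 1 ≤ i) (hj : 1 ≤ j) (e : i + j = N + 1) :
    ⁅g i, g j⁆ * (a ^ ((i : ℤ) - j) * b ^ i ^ 3)⁻¹ ∈ S.F (N + 2) := by
  have h1 : ⁅g i, g j⁆ ∈ S.F (N + 1) :=
    e ▸ S.comm i j hi hj _ (h.mem i hi (by omega)).1 _ (h.mem j hj (by omega)).1
  have h2 : a ^ ((i : ℤ) - j) * b ^ i ^ 3 ∈ S.F (N + 1) := mul_mem (zpow_mem ha _) (pow_mem hb _)
  refine sep_fun (p := p) S.toNS (by omega) (hexp _ (by omega)) (mul_mem h1 (inv_mem h2))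
    fun f hf => ?_
  have h3 := hab f hf i hi (by omega)
  have h4 : ((N + 1 : ℕ) : ZMod p) = i + j := by rw [← e]; push_cast; ring
  rw [h4, show N + 1 - i = j by omega] at h3
  rw [hf.div h1 h2, hf.mul _ (zpow_mem ha _) _ (pow_mem hb _), hf.zpow ha, hf.pow hb, h3]
  push_cast
  ring

theorem str_rel (hp : 7 ≤ p) {S : WS G} {n0 N : ℕ} {g z : ℕ → G}
    (hexp : ∀ n, 1 ≤ n → ∀ x ∈ S.F n, x ^ p ∈ S.F (n + 1)) (h : Str p S n0 g z N)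
    (hn0 : 2 ≤ n0) (hN : 13 ≤ N)
    (hcen : ∀ m j, 1 ≤ m → 1 ≤ j → m + j = N + 1 → ∀ y ∈ S.F j, ⁅z m, y⁆ ∈ S.F (N + 2)) :
    ∃ a ∈ S.F (N + 1), ∃ b ∈ S.F (N + 1), (¬ p ∣ N + 1 → b = 1) ∧
      ∀ i j, 1 ≤ i → 1 ≤ j → i + j = N + 1 →
        ⁅g i, g j⁆ * (a ^ ((i : ℤ) - j) * b ^ i ^ 3)⁻¹ ∈ S.F (N + 2) := by
  have hu : ∀ i, 1 ≤ i → i ≤ N → ⁅g i, g (N + 1 - i)⁆ ∈ S.F (N + 1) := by
    intro i hi hi'
    have := S.comm i (N + 1 - i) hi (by omega) _ (h.mem i hi hi').1 _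
      (h.mem _ (by omega) (by omega)).1
    rwa [show i + (N + 1 - i) = N + 1 by omega] at this
  have h2 : (2 : ZMod p) ≠ 0 := by exact_mod_cast cast_ne_zero (p := p) (a := 2) (by omega) (by omega)
  have h3 : (3 : ZMod p) ≠ 0 := by exact_mod_cast cast_ne_zero (p := p) (a := 3) (by omega) (by omega)
  by_cases hd : p ∣ N + 1
  · have hs : ((N + 1 : ℕ) : ZMod p) = 0 := (ZMod.natCast_eq_zero_iff _ _).2 hd
    have u1 := hu 1 le_rfl (by omega)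
    have u2 := hu 2 (by omega) (by omega)
    have ha := mul_mem (pow_mem u1 8) (inv_mem u2)
    have hb := mul_mem u2 (inv_mem (pow_mem u1 2))
    refine ⟨_, pow_mem ha (2 * 2 * 3 : ZMod p)⁻¹.val, _, pow_mem hb (2 * 3 : ZMod p)⁻¹.val,
      fun hn => absurd hd hn, rt2_fin hexp h (pow_mem ha _) (pow_mem hb _) fun f hf i hi hi' => ?_⟩
    obtain ⟨α, μ, -, hs'⟩ := rt2_sol hp h hN hcen hf
    rw [hf.pow ha, hf.pow hb, hf.div (pow_mem u1 8) u2, hf.div u2 (pow_mem u1 2), hf.pow u1,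
      hf.pow u1, hs' i hi hi', hs' 1 le_rfl (by omega), hs' 2 (by omega) (by omega), hs,
      ZMod.natCast_zmod_val, ZMod.natCast_zmod_val]
    push_cast
    field_simp
    ring
  · have hs : ((N + 1 : ℕ) : ZMod p) ≠ 0 := fun e => hd ((ZMod.natCast_eq_zero_iff _ _).1 e)
    obtain ⟨t, ht1, ht2, ht⟩ : ∃ t : ℕ, 1 ≤ t ∧ t ≤ 2 ∧
        2 * (t : ZMod p) - ((N + 1 : ℕ) : ZMod p) ≠ 0 := by
      by_cases h4 : 2 * ((1 : ℕ) : ZMod p) - ((N + 1 : ℕ) : ZMod p) = 0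
      · refine ⟨2, by omega, le_rfl, fun h5 => h2 ?_⟩
        generalize ((N + 1 : ℕ) : ZMod p) = s at h4 h5
        push_cast at h4 h5
        linear_combination h5 - h4
      · exact ⟨1, le_rfl, by omega, h4⟩
    have u1 := hu t ht1 (by omega)
    refine ⟨_, pow_mem u1 (2 * (t : ZMod p) - ((N + 1 : ℕ) : ZMod p))⁻¹.val, 1, one_mem _,
      fun _ => rfl, rt2_fin hexp h (pow_mem u1 _) (one_mem _) fun f hf i hi hi' => ?_⟩
    obtain ⟨α, μ, h0, hs'⟩ := rt2_sol hp h hN hcen hf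
    rw [hf.pow u1, hf.one, hs' i hi hi', hs' t ht1 (by omega), h0 hs, ZMod.natCast_zmod_val]
    generalize 2 * (t : ZMod p) - ((N + 1 : ℕ) : ZMod p) = c at ht
    field_simp
    ring

end Pool.Agent.P.MP_e06b60_al.R
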