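import Mathlib
import Pool.Agent.P.MP_e06b60_al.RA3

namespace Pool.Agent.P.MP_e06b60_al.R

open PowerSeries
open scoped commutatorElement

variable {p : ℕ} [Fact p.Prime] {G : Type} [Group G] [TopologicalSpace G] [IsTopologicalGroup G]

/-- The elements whose commutator with `y` lies in the normal subgroup `T`. -/
def rt3_L {H : Type} [Group H] (T : Subgroup H) (hT : T.Normal) (y : H) : Subgroup H where
  carrier := {x | ⁅x, y⁆ ∈ T}
  one_mem' := by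
    show ⁅(1 : H), y⁆ ∈ T
    rw [commutatorElement_one_left]
    exact T.one_mem
  mul_mem' := by
    intro x x' hx hx'
    show ⁅x * x', y⁆ ∈ T
    have e : ⁅x * x', y⁆ = x * ⁅x', y⁆ * x⁻¹ * ⁅x, y⁆ := by
      simp [commutatorElement_def, mul_assoc]
    rw [e]
    exact T.mul_mem (hT.conj_mem _ hx' x) hx
  inv_mem' := by
    intro x hx
    show ⁅x⁻¹, y⁆ ∈ T
    have e : ⁅x⁻¹, y⁆ = x⁻¹ * ⁅x, y⁆⁻¹ * x⁻¹⁻¹ := by
      simp [commutatorElement_def, mul_assoc]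
    rw [e]
    exact hT.conj_mem _ (T.inv_mem hx) x⁻¹

theorem rt3_mem_L {H : Type} [Group H] (T : Subgroup H) (hT : T.Normal) (y x : H) :
    x ∈ rt3_L T hT y ↔ ⁅x, y⁆ ∈ T := Iff.rfl

/-- The products of natural powers of two commuting elements of finite exponent. -/
def rt3_D {H : Type} [Group H] (q : ℕ) (hq : 0 < q) (a b : H) (hab : Commute a b)
    (ha : a ^ q = 1) (hb : b ^ q = 1) : Subgroup H where
  carrier := {x | ∃ u v : ℕ, x = a ^ u * b ^ v}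
  one_mem' := ⟨0, 0, by simp⟩
  mul_mem' := by
    rintro x y ⟨u, v, rfl⟩ ⟨u', v', rfl⟩
    refine ⟨u + u', v + v', ?_⟩
    have e : b ^ v * a ^ u' = a ^ u' * b ^ v := ((hab.pow_pow u' v).eq).symm
    rw [pow_add, pow_add]
    calc a ^ u * b ^ v * (a ^ u' * b ^ v') = a ^ u * (b ^ v * a ^ u') * b ^ v' := by
          simp only [mul_assoc]
      _ = a ^ u * a ^ u' * (b ^ v * b ^ v') := by
          rw [e]; simp only [mul_assoc]
  inv_mem' := by
    rintro x ⟨u, v, rfl⟩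
    obtain ⟨r, rfl⟩ : ∃ r, q = r + 1 := ⟨q - 1, by omega⟩
    refine ⟨u * r, v * r, ?_⟩
    have key : ∀ c : H, c ^ (r + 1) = 1 → ∀ w : ℕ, (c ^ w)⁻¹ = c ^ (w * r) := by
      intro c hc w
      rw [_root_.inv_eq_iff_mul_eq_one, ← pow_add]
      have e : w + w * r = (r + 1) * w := by ring
      rw [e, pow_mul, hc, one_pow]
    rw [mul_inv_rev, key a ha, key b hb]
    exact ((hab.pow_pow (u * r) (v * r)).eq).symm

theorem rt3_D_finite {H : Type} [Group H] (q : ℕ) (hq : 0 < q) (a b : H) (hab : Commute a b)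
    (ha : a ^ q = 1) (hb : b ^ q = 1) : (rt3_D q hq a b hab ha hb : Set H).Finite := by
  have hf : ((fun w : ℕ × ℕ => a ^ w.1 * b ^ w.2) '' (Set.Iio q ×ˢ Set.Iio q)).Finite :=
    ((Set.finite_Iio q).prod (Set.finite_Iio q)).image _
  refine hf.subset ?_
  rintro x ⟨u, v, rfl⟩
  refine ⟨(u % q, v % q), ⟨Nat.mod_lt _ hq, Nat.mod_lt _ hq⟩, ?_⟩
  show a ^ (u % q) * b ^ (v % q) = a ^ u * b ^ v
  rw [← pow_eq_pow_mod u ha, ← pow_eq_pow_mod v hb]

theorem str_span (hp : 7 ≤ p) {S : WS G} {n0 N : ℕ} {g z : ℕ → G}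
    (hexp : ∀ n, 1 ≤ n → ∀ x ∈ S.F n, x ^ p ∈ S.F (n + 1)) (h : Str p S n0 g z N)
    (hn0 : 2 ≤ n0) (hN : 13 ≤ N)
    (hcen : ∀ m j, 1 ≤ m → 1 ≤ j → m + j = N + 1 → ∀ y ∈ S.F j, ⁅z m, y⁆ ∈ S.F (N + 2))
    {a b : G} (ha : a ∈ S.F (N + 1)) (hb : b ∈ S.F (N + 1))
    (hrel : ∀ i j, 1 ≤ i → 1 ≤ j → i + j = N + 1 →
      ⁅g i, g j⁆ * (a ^ ((i : ℤ) - j) * b ^ i ^ 3)⁻¹ ∈ S.F (N + 2)) :
    (∀ x ∈ S.F (N + 1), ∃ u v : ℕ, x * (a ^ u * b ^ v)⁻¹ ∈ S.F (N + 2)) ∧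
      IsOpen (S.F (N + 2) : Set G) := by
  have hone : ∀ y : G, y ∈ S.F 1 := fun y => by rw [S.top]; exact Subgroup.mem_top y
  have hK : (S.F (N + 2)).Normal :=
    ⟨fun x hx y => S.toNS.conj_mem (by omega) hx (hone y)⟩
  have hKc : IsClosed (S.F (N + 2) : Set G) := S.closed _ (by omega)
  set π : G →* G ⧸ S.F (N + 2) := QuotientGroup.mk' (S.F (N + 2)) with hπ
  have hker : ∀ x : G, π x = 1 ↔ x ∈ S.F (N + 2) := fun x => QuotientGroup.eq_one_iff x
  have hcont : Continuous π := QuotientGroup.continuous_mk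
  have hc : ∀ x ∈ S.F (N + 1), ∀ y : G, Commute (π x) (π y) := by
    intro x hx y
    have h1 : π ⁅x, y⁆ = 1 := (hker _).2 (S.comm (N + 1) 1 (by omega) le_rfl x hx y (hone y))
    rw [map_commutatorElement] at h1
    exact commutatorElement_eq_one_iff_commute.1 h1
  have hpw : ∀ x ∈ S.F (N + 1), π x ^ p = 1 := by
    intro x hx
    rw [← map_pow]
    exact (hker _).2 (hexp (N + 1) (by omega) x hx)
  have hp0 : 0 < p := by omega
  set D := rt3_D p hp0 (π a) (π b) (hc a ha b) (hpw a ha) (hpw b hb) with hD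
  have hDf : (D : Set (G ⧸ S.F (N + 2))).Finite := rt3_D_finite _ _ _ _ _ _ _
  set T : Subgroup G := D.comap π with hT
  have hTm : ∀ x : G, x ∈ T ↔ ∃ u v : ℕ, π x = π a ^ u * π b ^ v := fun x => Iff.rfl
  have hTn : T.Normal := by
    refine ⟨fun x hx y => ?_⟩
    obtain ⟨u, v, e⟩ := (hTm x).1 hx
    refine (hTm _).2 ⟨u, v, ?_⟩
    have h1 : Commute (π a ^ u * π b ^ v) (π y) :=
      ((hc a ha y).pow_left u).mul_left ((hc b hb y).pow_left v)
    rw [map_mul, map_mul, map_inv, e, ← h1.eq, mul_inv_cancel_right]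
  have hKT : ∀ x ∈ S.F (N + 2), x ∈ T := fun x hx =>
    (hTm x).2 ⟨0, 0, by rw [(hker x).2 hx]; simp⟩
  have haT : a ∈ T := (hTm a).2 ⟨1, 0, by simp⟩
  have hbT : b ∈ T := (hTm b).2 ⟨0, 1, by simp⟩
  have hTc : IsClosed (T : Set G) := hDf.isClosed.preimage hcont
  have hgen : ∀ i j, 1 ≤ i → 1 ≤ j → i + j = N + 1 → ∀ y ∈ S.F j, ⁅g i, y⁆ ∈ T →
      ∀ x ∈ S.F i, ⁅x, y⁆ ∈ T := by
    intro i j hi hj hij y hy hg x hx
    obtain ⟨α, β, e⟩ := h.span i hi (by omega) x hx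
    have h1 : x * (g i ^ α * z i ^ β)⁻¹ ∈ rt3_L T hTn y := by
      rw [rt3_mem_L]
      apply hKT
      have h2 := S.comm (i + 1) j (by omega) hj _ e y hy
      have e2 : i + 1 + j = N + 2 := by omega
      rwa [e2] at h2
    have h2 : g i ∈ rt3_L T hTn y := hg
    have h3 : z i ∈ rt3_L T hTn y := hKT _ (hcen i j hi hj hij y hy)
    have h4 := (rt3_L T hTn y).mul_mem h1
      ((rt3_L T hTn y).mul_mem ((rt3_L T hTn y).pow_mem h2 α) ((rt3_L T hTn y).pow_mem h3 β))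
    rw [inv_mul_cancel_right] at h4
    exact h4
  have hle : S.F (N + 1) ≤ T := by
    refine S.gen (N + 1) (by omega) T hTc ?_
    intro i j hi hj hij x hx y hy
    refine hgen i j hi hj hij y hy ?_ x hx
    have h1 : ⁅g j, g i⁆ ∈ T := by
      have h2 := T.mul_mem (hKT _ (hrel j i hj hi (by omega)))
        (T.mul_mem (T.zpow_mem haT ((j : ℤ) - i)) (T.pow_mem hbT (j ^ 3)))
      rwa [inv_mul_cancel_right] at h2
    have h2 : ⁅y, g i⁆ ∈ T :=
      hgen j i hj hi (by omega) (g i) (h.mem i hi (by omega)).1 h1 y hy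
    have h3 := T.inv_mem h2
    rwa [commutatorElement_inv] at h3
  refine ⟨fun x hx => ?_, ?_⟩
  · obtain ⟨u, v, e⟩ := (hTm x).1 (hle hx)
    refine ⟨u, v, (hker _).1 ?_⟩
    rw [map_mul, map_inv, map_mul, map_pow, map_pow, e, mul_inv_cancel]
  · have hcl : IsClosed (π ⁻¹' ((D : Set (G ⧸ S.F (N + 2))) \ {1})) :=
      (hDf.subset Set.sdiff_subset).isClosed.preimage hcont
    have e : (S.F (N + 2) : Set G) =
        (S.F (N + 1) : Set G) ∩ (π ⁻¹' ((D : Set (G ⧸ S.F (N + 2))) \ {1}))ᶜ := by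
      ext x
      constructor
      · intro hx
        refine ⟨S.anti (N + 1) (by omega) hx, fun h1 => h1.2 ?_⟩
        exact (hker x).2 hx
      · rintro ⟨hx, h1⟩
        by_contra h2
        exact h1 ⟨hle hx, fun h3 => h2 ((hker x).1 h3)⟩
    rw [e]
    exact h.opn.inter hcl.isOpen_compl

end Pool.Agent.P.MP_e06b60_al.R
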