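import Mathlib
import Pool.Agent.P.MP_e06b60_al.RT1
import Pool.Agent.P.MP_e06b60_al.RT2
import Pool.Agent.P.MP_e06b60_al.RT3

namespace Pool.Agent.P.MP_e06b60_al.R

open PowerSeries
open scoped commutatorElement

variable {p : ℕ} [Fact p.Prime] {G : Type} [Group G] [TopologicalSpace G] [IsTopologicalGroup G]

theorem rt4_congr {S : WS G} {n0 N : ℕ} {g z g' z' : ℕ → G} (hg : ∀ n, n ≤ N → g n = g' n)
    (hz : ∀ n, n ≤ N → z n = z' n) (h : Str p S n0 g z N) : Str p S n0 g' z' N := by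
  refine ⟨fun n h1 h2 => ?_, fun n h1 h2 h3 => ?_, fun n h1 h2 => ?_, fun i j h1 h2 h3 => ?_,
    fun m j h1 h2 h3 => ?_, h.opn⟩
  · rw [← hg n h2, ← hz n h2]
    exact h.mem n h1 h2
  · rw [← hz n h2]
    exact h.triv n h1 h2 h3
  · rw [← hg n h2, ← hz n h2]
    exact h.span n h1 h2
  · rw [← hg i (by omega), ← hg j (by omega), ← hg _ h3, ← hz _ h3]
    exact h.rel i j h1 h2 h3
  · rw [← hz m (by omega)]
    exact h.cen m j h1 h2 h3

theorem rt4_le (S : WS G) {m : ℕ} (hm : 1 ≤ m) (k : ℕ) : S.F (m + k) ≤ S.F m := by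
  induction k with
  | zero => exact le_rfl
  | succ k ih => exact (S.anti (m + k) (by omega)).trans ih

theorem rt4_mono {S : WS G} {n0 N N' : ℕ} {g z : ℕ → G} (hN : N' ≤ N)
    (h : Str p S n0 g z N) : Str p S n0 g z N' := by
  refine ⟨fun n h1 h2 => h.mem n h1 (h2.trans hN), fun n h1 h2 => h.triv n h1 (h2.trans hN),
    fun n h1 h2 => h.span n h1 (h2.trans hN), fun i j h1 h2 h3 => h.rel i j h1 h2 (h3.trans hN),
    fun m j h1 h2 h3 => h.cen m j h1 h2 (h3.trans hN), Subgroup.isOpen_mono ?_ h.opn⟩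
  obtain ⟨k, rfl⟩ := Nat.exists_eq_add_of_le hN
  rw [show N' + k + 1 = N' + 1 + k by omega]
  exact rt4_le S (by omega) k

theorem rt4_base {S : WS G} {n0 : ℕ} {g0 : ℕ → G} (h : Base p S n0 g0) :
    Str p S n0 g0 (fun _ => 1) n0 := by
  refine ⟨fun n h1 h2 => ⟨h.mem n h1 h2, one_mem _⟩, fun _ _ _ _ => rfl, fun n h1 h2 x hx => ?_,
    fun i j h1 h2 h3 => ?_, fun m j _ _ _ y _ => ?_, h.opn⟩
  · obtain ⟨a, ha⟩ := h.span n h1 h2 x hx
    exact ⟨a, 0, by rwa [pow_zero, mul_one]⟩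
  · rw [one_pow, mul_one]
    exact h.rel i j h1 h2 h3
  · rw [commutatorElement_one_left]
    exact one_mem _

theorem rt4_step (hp : 7 ≤ p) {S : WS G} {n0 N : ℕ} {g z : ℕ → G} (hn0 : 13 ≤ n0) (hN : n0 ≤ N)
    (hexp : ∀ n, 1 ≤ n → ∀ x ∈ S.F n, x ^ p ∈ S.F (n + 1)) (h : Str p S n0 g z N) :
    ∃ a b : G, ∀ g' z' : ℕ → G, (∀ n, n ≤ N → g n = g' n) → (∀ n, n ≤ N → z n = z' n) →
      g' (N + 1) = a → z' (N + 1) = b → Str p S n0 g' z' (N + 1) := by
  have hcen := str_cen hp hexp h (by omega) (by omega)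
  obtain ⟨a, ha, b, hb, hb1, hrel⟩ := str_rel hp hexp h (by omega) (by omega) hcen
  obtain ⟨hsp, hop⟩ := str_span hp hexp h (by omega) (by omega) hcen ha hb hrel
  refine ⟨a, b, fun g' z' hg hz e1 e2 => ?_⟩
  have h' := rt4_congr hg hz h
  refine ⟨fun n h1 h2 => ?_, fun n h1 h2 h3 => ?_, fun n h1 h2 => ?_, fun i j h1 h2 h3 => ?_,
    fun m j h1 h2 h3 => ?_, hop⟩
  · rcases h2.eq_or_lt with rfl | h2
    · rw [e1, e2]
      exact ⟨ha, hb⟩
    · exact h'.mem n h1 (by omega)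
  · rcases h2.eq_or_lt with rfl | h2
    · rw [e2]
      exact hb1 (h3.resolve_right (by omega))
    · exact h'.triv n h1 (by omega) h3
  · rcases h2.eq_or_lt with rfl | h2
    · rw [e1, e2]
      exact hsp
    · exact h'.span n h1 (by omega)
  · rcases h3.eq_or_lt with h3 | h3
    · rw [h3, e1, e2, ← hg i (by omega), ← hg j (by omega)]
      exact hrel i j h1 h2 h3
    · exact h'.rel i j h1 h2 (by omega)
  · rcases h3.eq_or_lt with h3 | h3
    · rw [h3, ← hz m (by omega)]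
      exact hcen m j h1 h2 h3
    · exact h'.cen m j h1 h2 (by omega)

theorem str_all (hp : 7 ≤ p) {S : WS G} {n0 : ℕ} {g0 : ℕ → G} (hn0 : 13 ≤ n0)
    (hexp : ∀ n, 1 ≤ n → ∀ x ∈ S.F n, x ^ p ∈ S.F (n + 1)) (h : Base p S n0 g0) :
    ∃ g z : ℕ → G, ∀ N, Str p S n0 g z N := by
  obtain ⟨f, hf⟩ := diag (fun (f : ℕ → G × G) N =>
      Str p S n0 (fun n => (f n).1) (fun n => (f n).2) N) n0
    (fun f g N e => rt4_congr (fun n hn => by rw [e n hn]) fun n hn => by rw [e n hn])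
    (fun n => (g0 n, 1)) (rt4_base h) fun f N hN hS => by
      obtain ⟨a, b, hab⟩ := rt4_step hp hn0 hN hexp hS
      refine ⟨(a, b), hab _ _ (fun n hn => ?_) (fun n hn => ?_) ?_ ?_⟩
      · rw [Function.update_of_ne (by omega)]
      · rw [Function.update_of_ne (by omega)]
      · rw [Function.update_self]
      · rw [Function.update_self]
  exact ⟨_, _, fun N => rt4_mono (le_max_right n0 N) (hf _ (le_max_left n0 N))⟩

end Pool.Agent.P.MP_e06b60_al.R
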