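import Mathlib
import Pool.Agent.P.MP_e06b60_al.RA3

namespace Pool.Agent.P.MP_e06b60_al.R

open PowerSeries
open scoped commutatorElement

variable {p : ℕ} [Fact p.Prime] {G : Type} [Group G] [TopologicalSpace G] [IsTopologicalGroup G]

/-- Elements of depth `n` which are central in the graded ring. -/
def rt5_Zc (S : WS G) (n : ℕ) : Subgroup G where
  carrier := {x | x ∈ S.F n ∧ ∀ m, 1 ≤ m → ∀ y ∈ S.F m, ⁅x, y⁆ ∈ S.F (n + m + 1)}
  one_mem' := ⟨one_mem _, fun m _ y _ => by simp⟩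
  mul_mem' := by
    rintro x x' ⟨hx, h1⟩ ⟨hx', h2⟩
    refine ⟨mul_mem hx hx', fun m hm y hy => ?_⟩
    have e : ⁅x * x', y⁆ = x * ⁅x', y⁆ * x⁻¹ * ⁅x, y⁆ := by
      simp [commutatorElement_def, mul_assoc]
    rw [e]
    exact mul_mem (S.toNS.conj_mem (by omega) (h2 m hm y hy) (by rw [S.top]; trivial))
      (h1 m hm y hy)
  inv_mem' := by
    rintro x ⟨hx, h1⟩
    refine ⟨inv_mem hx, fun m hm y hy => ?_⟩
    have e : ⁅x⁻¹, y⁆ = x⁻¹ * ⁅x, y⁆⁻¹ * x⁻¹⁻¹ := by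
      simp [commutatorElement_def, mul_assoc]
    rw [e]
    exact S.toNS.conj_mem (by omega) (inv_mem (h1 m hm y hy)) (by rw [S.top]; trivial)

omit [IsTopologicalGroup G] in
theorem rt5_le (S : WS G) {n : ℕ} (hn : 1 ≤ n) : S.F (n + 1) ≤ rt5_Zc S n := by
  intro x hx
  refine ⟨S.anti n hn hx, fun m hm y hy => ?_⟩
  have := S.comm (n + 1) m (by omega) hm x hx y hy
  rwa [show n + 1 + m = n + m + 1 by omega] at this

omit [IsTopologicalGroup G] [Fact p.Prime] in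
theorem rt5_z {S : WS G} {n0 : ℕ} {g z : ℕ → G} (h : ∀ N, Str p S n0 g z N) {n : ℕ}
    (hn : 1 ≤ n) : z n ∈ rt5_Zc S n :=
  ⟨((h n).mem n hn le_rfl).2, fun m hm y hy => (h (n + m)).cen n m hn hm le_rfl y hy⟩

omit [IsTopologicalGroup G] in
theorem rt5_step {S : WS G} {n0 : ℕ} {g z : ℕ → G}
    (hexp : ∀ n, 1 ≤ n → ∀ x ∈ S.F n, x ^ p ∈ S.F (n + 1)) (h : ∀ N, Str p S n0 g z N)
    {n j : ℕ} (hn : 1 ≤ n) (hj : 1 ≤ j) (hd : ¬ (p : ℤ) ∣ (n : ℤ) - j)
    (hg : g n ∈ rt5_Zc S n) : g (n + j) ∈ rt5_Zc S (n + j) := by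
  have hle := rt5_le S (n := n + j) (by omega)
  have h1 := hle ((h (n + j)).rel n j hn hj le_rfl)
  have h2 := hle (hg.2 j hj (g j) ((h j).mem j hj le_rfl).1)
  have h3 : g (n + j) ^ ((n : ℤ) - j) * z (n + j) ^ n ^ 3 ∈ rt5_Zc S (n + j) :=
    inv_mem_iff.1 ((mul_mem_cancel_left h2).1 h1)
  have h4 : g (n + j) ^ ((n : ℤ) - j) ∈ rt5_Zc S (n + j) :=
    (mul_mem_cancel_right (pow_mem (rt5_z h (by omega)) _)).1 h3
  have h5 : g (n + j) ^ (p : ℤ) ∈ rt5_Zc S (n + j) := by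
    rw [zpow_natCast]
    exact hle (hexp _ (by omega) _ ((h (n + j)).mem _ (by omega) le_rfl).1)
  have hpr : Prime (p : ℤ) := Nat.prime_iff_prime_int.1 Fact.out
  obtain ⟨u, v, huv⟩ := (hpr.irreducible.coprime_iff_not_dvd).2 hd
  have e : g (n + j) = (g (n + j) ^ (p : ℤ)) ^ u * (g (n + j) ^ ((n : ℤ) - j)) ^ v := by
    rw [← zpow_mul, ← zpow_mul, ← zpow_add, mul_comm _ u, mul_comm _ v, huv, zpow_one]
  rw [e]
  exact mul_mem (zpow_mem h5 _) (zpow_mem h4 _)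

theorem no_collapse [CompactSpace G] [Infinite G] (hp : 7 ≤ p) {S : WS G} {n0 : ℕ} {g z : ℕ → G}
    (hexp : ∀ n, 1 ≤ n → ∀ x ∈ S.F n, x ^ p ∈ S.F (n + 1)) (h : ∀ N, Str p S n0 g z N)
    (hinf : ∀ x : G, (∀ n, 1 ≤ n → x ∈ S.F n) → x = 1) (n : ℕ) (hn : 1 ≤ n) :
    ¬ ∀ m, 1 ≤ m → ∀ y ∈ S.F m, ⁅g n, y⁆ ∈ S.F (n + m + 1) := by
  intro H
  have hg : g n ∈ rt5_Zc S n := ⟨((h n).mem n hn le_rfl).1, H⟩
  have small : ∀ a : ℤ, 0 < a → a < 7 → ¬ (p : ℤ) ∣ a := fun a h0 h7 hd => by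
    have := Int.le_of_dvd h0 hd
    omega
  have hM : ∀ j, 3 ≤ j → g (n + j) ∈ rt5_Zc S (n + j) := by
    intro j hj
    by_cases hd : (p : ℤ) ∣ (n : ℤ) - j
    · have key : ∀ t : ℕ, 1 ≤ t → t ≤ 2 → ¬ (p : ℤ) ∣ (n : ℤ) - t →
          g (n + j) ∈ rt5_Zc S (n + j) := by
        intro t h1 h2 ht
        have h3 := rt5_step hexp h hn h1 ht hg
        have h4 := rt5_step hexp h (n := n + t) (j := j - t) (by omega) (by omega) (fun h5 => by
          have h6 := dvd_sub h5 hd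
          have e : ((n + t : ℕ) : ℤ) - ((j - t : ℕ) : ℤ) - ((n : ℤ) - j) = 2 * t := by
            rw [Nat.cast_sub (by omega)]; push_cast; ring
          rw [e] at h6
          exact small _ (by omega) (by omega) h6) h3
        rwa [show n + t + (j - t) = n + j by omega] at h4
      by_cases h1 : (p : ℤ) ∣ (n : ℤ) - (1 : ℕ)
      · refine key 2 (by omega) le_rfl fun h2 => ?_
        have h3 := dvd_sub h1 h2
        have e : (n : ℤ) - (1 : ℕ) - ((n : ℤ) - (2 : ℕ)) = 1 := by push_cast; ring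
        rw [e] at h3
        exact small 1 (by omega) (by omega) h3
      · exact key 1 le_rfl (by omega) h1
    · exact rt5_step hexp h hn (by omega) hd hg
  have hF : ∀ M, n + 3 ≤ M → S.F M ≤ rt5_Zc S M := by
    intro M hM' x hx
    obtain ⟨a, b, hab⟩ := (h M).span M (by omega) le_rfl x hx
    have h1 : g M ∈ rt5_Zc S M := by
      have := hM (M - n) (by omega)
      rwa [show n + (M - n) = M by omega] at this
    exact (mul_mem_cancel_right (inv_mem (mul_mem (pow_mem h1 a)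
      (pow_mem (rt5_z h (by omega)) b)))).1 (rt5_le S (by omega) hab)
  have hS : ∀ M, 2 * n + 6 ≤ M → S.F M ≤ S.F (M + 1) := by
    intro M hM'
    refine S.gen M (by omega) _ (S.closed _ (by omega)) fun i j hi hj hij x hx y hy => ?_
    by_cases h1 : n + 3 ≤ i
    · rw [← hij]
      exact (hF i h1 hx).2 j hj y hy
    · have := inv_mem ((hF j (by omega) hy).2 i hi x hx)
      rwa [commutatorElement_inv, add_comm j i, hij] at this
  have hall : ∀ k, S.F (2 * n + 6) ≤ S.F (2 * n + 6 + k) := by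
    intro k
    induction k with
    | zero => exact le_rfl
    | succ k ih => exact ih.trans (hS _ (by omega))
  have hbot : (S.F (2 * n + 5 + 1) : Set G) = {1} := by
    ext x
    refine ⟨fun hx => hinf x fun k hk => S.toNS.mono hk (by omega) (hall k hx), fun hx => ?_⟩
    rw [Set.mem_singleton_iff.1 hx]
    exact one_mem _
  have hop := (h (2 * n + 5)).opn
  rw [hbot] at hop
  have : DiscreteTopology G := discreteTopology_of_isOpen_singleton_one hop
  have : Finite G := finite_of_compact_of_discrete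
  exact not_finite G

end Pool.Agent.P.MP_e06b60_al.R
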