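import Mathlib
import Pool.Agent.P.MP_e06b60_al.RA3

namespace Pool.Agent.P.MP_e06b60_al.R

open PowerSeries
open scoped commutatorElement

variable {p : ℕ} [Fact p.Prime] {G : Type} [Group G] [TopologicalSpace G] [IsTopologicalGroup G]

/-- Elements of depth `n` which are central in the graded ring. -/
def rt6_Zc {G : Type} [Group G] (S : NS G) (n : ℕ) (hn : 1 ≤ n) : Subgroup G where
  carrier := {x | x ∈ S.F n ∧ ∀ m, 1 ≤ m → ∀ y ∈ S.F m, ⁅x, y⁆ ∈ S.F (n + m + 1)}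
  one_mem' := ⟨one_mem _, fun m _ y _ => by simp⟩
  mul_mem' := fun {x x'} hx hx' => ⟨mul_mem hx.1 hx'.1, fun m hm y hy => by
    have e : ⁅x * x', y⁆ = x * ⁅x', y⁆ * x⁻¹ * ⁅x, y⁆ := by
      simp [commutatorElement_def, mul_assoc]
    rw [e]
    exact mul_mem (S.conj_mem (by omega) (hx'.2 m hm y hy) (S.mono le_rfl hn hx.1))
      (hx.2 m hm y hy)⟩
  inv_mem' := fun {x} hx => ⟨inv_mem hx.1, fun m hm y hy => by
    have e : ⁅x⁻¹, y⁆ = x⁻¹ * ⁅x, y⁆⁻¹ * x⁻¹⁻¹ := by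
      simp [commutatorElement_def, mul_assoc]
    rw [e]
    exact S.conj_mem (by omega) (inv_mem (hx.2 m hm y hy)) (inv_mem (S.mono le_rfl hn hx.1))⟩

theorem rt6_le {G : Type} [Group G] (S : NS G) {n : ℕ} (hn : 1 ≤ n) :
    S.F (n + 1) ≤ rt6_Zc S n hn := fun x hx =>
  ⟨S.anti n hn hx, fun m hm y hy => by
    rw [show n + m + 1 = n + 1 + m by omega]
    exact S.comm _ _ (by omega) hm x hx y hy⟩

theorem pf_of_str {S : WS G} {n0 : ℕ} {g z : ℕ → G}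
    (hexp : ∀ n, 1 ≤ n → ∀ x ∈ S.F n, x ^ p ∈ S.F (n + 1)) (h : ∀ N, Str p S n0 g z N)
    (hnc : ∀ n, 1 ≤ n → ¬ ∀ m, 1 ≤ m → ∀ y ∈ S.F m, ⁅g n, y⁆ ∈ S.F (n + m + 1)) :
    ∃ A : PF p G, (∀ n, A.F n = S.F n) ∧ A.Cen ∧ ∀ n, 1 ≤ n →
      A.lead n (g n) = 1 ∧ A.lead n (z n) = 0 ∧
      ∀ x ∈ S.F n, A.lead n x = 0 → ∃ b : ℕ, x * (z n ^ b)⁻¹ ∈ S.F (n + 1) := by
  have hg : ∀ n, 1 ≤ n → g n ∈ S.F n := fun n hn => ((h n).mem n hn le_rfl).1
  have hz : ∀ n, 1 ≤ n → z n ∈ S.F n := fun n hn => ((h n).mem n hn le_rfl).2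
  have hzc : ∀ n (hn : 1 ≤ n), z n ∈ rt6_Zc S.toNS n hn := fun n hn =>
    ⟨hz n hn, fun m hm y hy => (h (n + m)).cen n m hn hm le_rfl y hy⟩
  have ex : ∀ n : ℕ, ∃ f : G → ZMod p, 1 ≤ n → IsFun p S.toNS n f ∧ f (z n) = 0 ∧ f (g n) = 1 := by
    intro n
    by_cases hn : 1 ≤ n
    · obtain ⟨f, h1, h2, h3⟩ := exists_fun S.toNS hn (hexp n hn) (rt6_Zc S.toNS n hn)
        (rt6_le _ hn) (hg n hn) (fun hh => hnc n hn hh.2)
      exact ⟨f, fun _ => ⟨h1, h2 _ (hz n hn) (hzc n hn), h3⟩⟩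
    · exact ⟨0, fun hh => absurd hh hn⟩
  choose l hl using ex
  have ker : ∀ n, 1 ≤ n → ∀ x ∈ S.F n, l n x = 0 → ∃ b : ℕ, x * (z n ^ b)⁻¹ ∈ S.F (n + 1) := by
    intro n hn x hx h0
    obtain ⟨f1, f2, f3⟩ := hl n hn
    obtain ⟨a, b, hab⟩ := (h n).span n hn le_rfl x hx
    have e := f1.congr hn (mul_mem (pow_mem (hg n hn) a) (pow_mem (hz n hn) b)) hab
    rw [h0, f1.mul _ (pow_mem (hg n hn) a) _ (pow_mem (hz n hn) b), f1.pow (hg n hn),
      f1.pow (hz n hn), f2, f3, mul_one, mul_zero, add_zero] at e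
    obtain ⟨c, rfl⟩ := (ZMod.natCast_eq_zero_iff a p).1 e.symm
    refine ⟨b, ?_⟩
    have := mul_mem hab (pow_mem (hexp n hn _ (hg n hn)) c)
    rwa [← pow_mul, mul_inv_rev, ← mul_assoc, inv_mul_cancel_right] at this
  have cen : ∀ n (hn : 1 ≤ n), ∀ x ∈ S.F n, l n x = 0 → x ∈ rt6_Zc S.toNS n hn := by
    intro n hn x hx h0
    obtain ⟨b, hb⟩ := ker n hn x hx h0
    have := mul_mem (rt6_le _ hn hb) (pow_mem (hzc n hn) b)
    rwa [inv_mul_cancel_right] at this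
  have dec : ∀ n (hn : 1 ≤ n), ∀ x ∈ S.F n,
      ∃ u ∈ rt6_Zc S.toNS n hn, x = u * g n ^ (l n x).val := by
    intro n hn x hx
    obtain ⟨f1, -, f3⟩ := hl n hn
    refine ⟨x * (g n ^ (l n x).val)⁻¹, cen n hn _ (mul_mem hx (inv_mem (pow_mem (hg n hn) _))) ?_,
      (inv_mul_cancel_right _ _).symm⟩
    rw [f1.div hx (pow_mem (hg n hn) _), f1.pow (hg n hn), f3, mul_one, ZMod.natCast_zmod_val,
      sub_self]
  have br : ∀ i j, 1 ≤ i → 1 ≤ j → ∀ x ∈ S.F i, ∀ y ∈ S.F j,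
      l (i + j) ⁅x, y⁆ = ((i : ZMod p) - j) * l i x * l j y := by
    intro i j hi hj x hx y hy
    have hij : 1 ≤ i + j := by omega
    obtain ⟨f1, f2, f3⟩ := hl (i + j) hij
    obtain ⟨u, hu, eu⟩ := dec i hi x hx
    obtain ⟨v, hv, ev⟩ := dec j hj y hy
    have e0 : l (i + j) ⁅g i, g j⁆ = (i : ZMod p) - j := by
      rw [f1.congr hij (mul_mem (zpow_mem (hg _ hij) _) (pow_mem (hz _ hij) _))
        ((h (i + j)).rel i j hi hj le_rfl),
        f1.mul _ (zpow_mem (hg _ hij) _) _ (pow_mem (hz _ hij) _), f1.zpow (hg _ hij),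
        f1.pow (hz _ hij), f2, f3]
      push_cast
      ring
    have e1 : l (i + j) ⁅g i, y⁆ = l j y * ((i : ZMod p) - j) := by
      have e2 : l (i + j) ⁅g i, v⁆ = 0 := by
        rw [f1.comm_anti hj hi (add_comm j i) hv.1 (hg i hi), neg_eq_zero]
        exact f1.zero _ (by rw [add_comm i j]; exact hv.2 i hi _ (hg i hi))
      conv_lhs => rw [ev]
      rw [f1.comm_mul_right hi hj rfl (hg i hi) hv.1 (pow_mem (hg j hj) _), e2, zero_add,
        f1.comm_pow_right hi hj rfl (hg i hi) (hg j hj), e0, ZMod.natCast_zmod_val]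
    conv_lhs => rw [eu]
    rw [f1.comm_mul_left hi hj rfl hu.1 (pow_mem (hg i hi) _) hy, f1.zero _ (hu.2 j hj y hy),
      zero_add, f1.comm_pow_left hi hj rfl (hg i hi) hy, e1, ZMod.natCast_zmod_val]
    ring
  exact ⟨{ toNS := S.toNS
           lead := l
           top := S.top
           isFun := fun n hn => (hl n hn).1
           surj := fun n hn => ⟨g n, hg n hn, (hl n hn).2.2⟩
           br := br }, fun _ => rfl, fun n m hn hm x hx h0 y hy => (cen n hn x hx h0).2 m hm y hy,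
    fun n hn => ⟨(hl n hn).2.2, (hl n hn).2.1, ker n hn⟩⟩

end Pool.Agent.P.MP_e06b60_al.R
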