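import Mathlib
import Pool.Agent.P.MP_e06b60_al.RA2

namespace Pool.Agent.P.MP_e06b60_al.R

open PowerSeries
open scoped commutatorElement

variable {p : ℕ} [Fact p.Prime]

theorem rq3_lead {A : Type} [CommRing A] {u s : A⟦X⟧} {c : A} {m : ℕ}
    (h : u = X ^ m * (C c + X * s)) : X ^ m ∣ u ∧ coeff m u = c := by
  refine ⟨⟨_, h⟩, ?_⟩
  rw [h, coeff_X_pow_mul', if_pos le_rfl, Nat.sub_self]
  simp

theorem rq3_coeff {i : ℕ} (hi : 1 ≤ i) {g : Nott p} {G : (ZMod p)⟦X⟧}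
    (hG : g.1 = X + X ^ (i + 1) * G) : coeff (i + 1) g.1 = coeff 0 G := by
  rw [hG, map_add, coeff_X, if_neg (by omega), coeff_X_pow_mul', if_pos le_rfl]; simp

theorem rq3_subst {i : ℕ} (hi : 1 ≤ i) {g : Nott p} (hg : g ∈ Jn p i) (n : ℕ)
    (F : (ZMod p)⟦X⟧) : ∃ r : (ZMod p)⟦X⟧, ((X ^ n * F).subst g.1 : (ZMod p)⟦X⟧) =
      X ^ n * F + X ^ (n + i) * ((n : (ZMod p)⟦X⟧) * C (coeff (i + 1) g.1) * C (coeff 0 F) +
        X * r) := by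
  obtain ⟨G, hG⟩ := mem_Jn.mp hg
  have hg1 : g.1 = X + X ^ (i + 1) * G := by rw [← hG]; ring
  have hs := hasSubst_of g.2.1
  obtain ⟨A, hA⟩ : X ^ (i + 1) ∣ (subst g.1 F : (ZMod p)⟦X⟧) - F := by
    have := subst_congr (f := F) (f' := F) g.2.1 (g' := X) (by simp) (n := i + 1) (by simp)
      (mem_Jn.mp hg)
    rwa [X_subst] at this
  have hA' : (subst g.1 F : (ZMod p)⟦X⟧) = F + X ^ (i + 1) * A := by rw [← hA]; ring
  obtain ⟨B, hB⟩ := exists_shift F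
  obtain ⟨D, hD⟩ := exists_shift G
  rw [rq3_coeff hi hg1]
  obtain ⟨i, rfl⟩ : ∃ k, i = k + 1 := ⟨i - 1, by omega⟩
  obtain ⟨w, hw⟩ := one_add_pow_expand (X ^ (i + 1) * G) n
  have e2 : g.1 ^ n = X ^ n * (1 + X ^ (i + 1) * G) ^ n := by
    rw [← mul_pow, hg1]; ring
  rw [subst_mul hs, subst_pow hs, subst_X hs, e2, hw, hA']
  generalize (C (coeff 0 F) : (ZMod p)⟦X⟧) = F0 at hB ⊢
  generalize (C (coeff 0 G) : (ZMod p)⟦X⟧) = G0 at hD ⊢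
  generalize (n : (ZMod p)⟦X⟧) = c
  refine ⟨c * (G0 * B + D * F) + X ^ i * G ^ 2 * w * F +
    (1 + c * (X ^ (i + 1) * G) + (X ^ (i + 1) * G) ^ 2 * w) * A, ?_⟩
  linear_combination (c * X ^ (n + i + 1) * F) * hD + (c * X ^ (n + i + 1) * G0) * hB

theorem rq3_dx {i : ℕ} (hi : 1 ≤ i) {g : Nott p} (hg : g ∈ Jn p i) :
    ∃ r : (ZMod p)⟦X⟧, dx g.1 =
      1 + X ^ i * (((i : (ZMod p)⟦X⟧) + 1) * C (coeff (i + 1) g.1) + X * r) := by
  obtain ⟨G, hG⟩ := mem_Jn.mp hg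
  have hg1 : g.1 = X + X ^ (i + 1) * G := by rw [← hG]; ring
  obtain ⟨D, hD⟩ := exists_shift G
  rw [rq3_coeff hi hg1]
  have h1 : dx g.1 = 1 + (X ^ (i + 1) * dx G + G * (((i : (ZMod p)⟦X⟧) + 1) * X ^ i)) := by
    rw [hg1]
    unfold dx
    rw [map_add, derivative_X, Derivation.leibniz, derivative_pow, derivative_X]
    simp
  generalize (C (coeff 0 G) : (ZMod p)⟦X⟧) = G0 at hD ⊢
  refine ⟨dx G + (i + 1) * D, ?_⟩
  rw [h1]
  linear_combination ((i + 1) * X ^ i) * hD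

theorem rq3_const (g : Nott p) : constantCoeff (dx g.1) = 1 := by
  rw [← coeff_zero_eq_constantCoeff_apply]
  unfold dx
  rw [coeff_derivative, zero_add, g.2.2]
  simp

theorem dx_mul_inv (g : Nott p) : dx g.1 * (dx g.1)⁻¹ = 1 := by
  apply PowerSeries.mul_inv_cancel
  rw [rq3_const]
  exact one_ne_zero

theorem act_add (g : Nott p) (β γ : (ZMod p)⟦X⟧) : act g (β + γ) = act g β + act g γ := by
  unfold act
  rw [subst_add (hasSubst_of g.2.1), add_mul]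

theorem act_sub' (g : Nott p) (β γ : (ZMod p)⟦X⟧) : act g (β - γ) = act g β - act g γ := by
  unfold act
  rw [subst_sub (hasSubst_of g.2.1), sub_mul]

theorem act_mul (g h : Nott p) (β : (ZMod p)⟦X⟧) : act (g * h) β = act h (act g β) := by
  have hs := hasSubst_of h.2.1
  have h1 : dx (g * h).1 = (subst h.1 (dx g.1) : (ZMod p)⟦X⟧) * dx h.1 := by
    rw [mul_val]
    exact derivative_subst hs
  have h2 : (subst h.1 (dx g.1) : (ZMod p)⟦X⟧) * subst h.1 ((dx g.1)⁻¹) = 1 := by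
    rw [← subst_mul hs, dx_mul_inv, ← coe_substAlgHom hs, map_one]
  have h3 := dx_mul_inv (g * h)
  have h4 := dx_mul_inv h
  have h5 : (dx (g * h).1)⁻¹ = (subst h.1 ((dx g.1)⁻¹) : (ZMod p)⟦X⟧) * (dx h.1)⁻¹ := by
    rw [h1] at h3
    rw [h1]
    generalize (subst h.1 (dx g.1) * dx h.1 : (ZMod p)⟦X⟧)⁻¹ = u at h3 ⊢
    generalize (subst h.1 ((dx g.1)⁻¹) : (ZMod p)⟦X⟧) = a' at h2 ⊢
    generalize (dx h.1)⁻¹ = b' at h4 ⊢
    generalize (subst h.1 (dx g.1) : (ZMod p)⟦X⟧) = a at h2 h3 ⊢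
    generalize dx h.1 = b at h3 h4 ⊢
    linear_combination (a' * b') * h3 - u * h2 - u * (a * a') * h4
  unfold act
  rw [h5, subst_mul hs, subst_assoc β g.1 h.1 g.2.1 h.2.1, mul_val, mul_assoc]

theorem rq3_subst_dvd (g : Nott p) {n : ℕ} {β : (ZMod p)⟦X⟧} (h : X ^ n ∣ β) :
    X ^ n ∣ (β.subst g.1 : (ZMod p)⟦X⟧) := by
  obtain ⟨F, rfl⟩ := h
  have hs := hasSubst_of g.2.1
  rw [subst_mul hs, subst_pow hs, subst_X hs]
  refine Dvd.dvd.mul_right (pow_dvd_pow_of_dvd ?_ n) _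
  rw [X_dvd_iff, ← coeff_zero_eq_constantCoeff_apply]
  exact g.2.1

theorem act_dvd (g : Nott p) {n : ℕ} {β : (ZMod p)⟦X⟧} (h : X ^ n ∣ β) : X ^ n ∣ act g β :=
  Dvd.dvd.mul_right (rq3_subst_dvd g h) _

theorem act_lead {i j : ℕ} (hi : 1 ≤ i) {g : Nott p} (hg : g ∈ Jn p i) {β : (ZMod p)⟦X⟧}
    (h : X ^ (j + 1) ∣ β) : X ^ (i + j + 1) ∣ act g β - β ∧
      coeff (i + j + 1) (act g β - β) = ((j : ZMod p) - i) * coeff (i + 1) g.1 * coeff (j + 1) β := by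
  obtain ⟨F, rfl⟩ := h
  obtain ⟨r, hr⟩ := rq3_subst hi hg (j + 1) F
  obtain ⟨s, hs⟩ := rq3_dx hi hg
  obtain ⟨B, hB⟩ := exists_shift F
  have h4 := dx_mul_inv g
  obtain ⟨t, ht⟩ := exists_shift (dx g.1)⁻¹
  have h5 : coeff 0 (dx g.1)⁻¹ = 1 := by
    rw [coeff_zero_eq_constantCoeff_apply, constantCoeff_inv, rq3_const, inv_one]
  rw [h5, map_one] at ht
  have cF : coeff (j + 1) (X ^ (j + 1) * F) = coeff 0 F := by
    rw [coeff_X_pow_mul', if_pos le_rfl, Nat.sub_self]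
  rw [cF]
  unfold act
  rw [hr]
  apply rq3_lead (s := (((j : (ZMod p)⟦X⟧) - (i : (ZMod p)⟦X⟧)) * C (coeff (i + 1) g.1) * C (coeff 0 F)) * t +
    (r - F * s - B * (((i : (ZMod p)⟦X⟧) + 1) * C (coeff (i + 1) g.1))) * (dx g.1)⁻¹)
  rw [map_mul, map_mul, map_sub, map_natCast, map_natCast]
  generalize (C (coeff 0 F) : (ZMod p)⟦X⟧) = F0 at hB ⊢
  generalize (C (coeff (i + 1) g.1) : (ZMod p)⟦X⟧) = G0 at hs ⊢
  generalize (dx g.1)⁻¹ = u at h4 ht ⊢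
  generalize dx g.1 = d at h4 hs ⊢
  push_cast
  linear_combination (X ^ (j + 1) * F) * h4 - (X ^ (j + 1) * F * u) * hs -
    (X ^ (i + j + 1) * (i + 1) * G0 * u) * hB + (X ^ (i + j + 1) * (j - i) * G0 * F0) * ht

theorem pb_add (h : Nott p) (ω ω' : (ZMod p)⟦X⟧) : pb h (ω + ω') = pb h ω + pb h ω' := by
  unfold pb
  rw [subst_add (hasSubst_of h.2.1), add_mul]

theorem pb_dvd (h : Nott p) {n : ℕ} {ω : (ZMod p)⟦X⟧} (hω : X ^ n ∣ ω) : X ^ n ∣ pb h ω :=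
  Dvd.dvd.mul_right (rq3_subst_dvd h hω) _

theorem pb_lead {i n : ℕ} (hi : 1 ≤ i) {h : Nott p} (hh : h ∈ Jn p i) {ω : (ZMod p)⟦X⟧}
    (hω : X ^ n ∣ ω) : X ^ (n + i) ∣ pb h ω - ω ∧
      coeff (n + i) (pb h ω - ω) = ((n : ZMod p) + i + 1) * coeff (i + 1) h.1 * coeff n ω := by
  obtain ⟨F, rfl⟩ := hω
  obtain ⟨r, hr⟩ := rq3_subst hi hh n F
  obtain ⟨s, hs⟩ := rq3_dx hi hh
  obtain ⟨B, hB⟩ := exists_shift F
  have cF : coeff n (X ^ n * F) = coeff 0 F := by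
    rw [coeff_X_pow_mul', if_pos le_rfl, Nat.sub_self]
  rw [cF]
  unfold pb
  rw [hr, hs]
  obtain ⟨k, hk⟩ : ∃ k, i = k + 1 := ⟨i - 1, by omega⟩
  have hX : (X : (ZMod p)⟦X⟧) ^ i = X * X ^ k := by rw [hk]; ring
  apply rq3_lead (s := r + F * s + B * (((i : (ZMod p)⟦X⟧) + 1) * C (coeff (i + 1) h.1)) +
    X ^ k * ((n : (ZMod p)⟦X⟧) * C (coeff (i + 1) h.1) * C (coeff 0 F) + X * r) *
      (((i : (ZMod p)⟦X⟧) + 1) * C (coeff (i + 1) h.1) + X * s))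
  rw [map_mul, map_mul, map_add, map_add, map_natCast, map_natCast, map_one]
  generalize (C (coeff 0 F) : (ZMod p)⟦X⟧) = F0 at hB ⊢
  generalize (C (coeff (i + 1) h.1) : (ZMod p)⟦X⟧) = G0
  linear_combination (X ^ (n + i) * (i + 1) * G0) * hB +
    (X ^ (n + i) * (n * G0 * F0 + X * r) * ((i + 1) * G0 + X * s)) * hX

end Pool.Agent.P.MP_e06b60_al.R
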