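import Mathlib
import Pool.Agent.P.MP_e06b60_al.RQ3

namespace Pool.Agent.P.MP_e06b60_al.R

open PowerSeries
open scoped commutatorElement

variable {p : ℕ} [Fact p.Prime]

theorem rv2_root {i : ℕ} (hi : (i : ZMod p) ≠ 0) (a : (ZMod p)⟦X⟧) (ha : constantCoeff a = 1) :
    ∃ u : (ZMod p)⟦X⟧, constantCoeff u = 1 ∧ u ^ i = a := by
  have hi0 : i ≠ 0 := by rintro rfl; simp at hi
  obtain ⟨u, hu, hu1⟩ := HenselianRing.is_henselian (R := (ZMod p)⟦X⟧) (I := Ideal.span {X})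
    (Polynomial.X ^ i - Polynomial.C a) (Polynomial.monic_X_pow_sub_C a hi0) 1
    (by simp [Ideal.mem_span_singleton, X_dvd_iff, ha])
    (by
      refine IsUnit.map _ ?_
      rw [isUnit_iff_constantCoeff]
      simpa [Polynomial.derivative_X_pow] using hi)
  refine ⟨u, ?_, ?_⟩
  · rw [Ideal.mem_span_singleton, X_dvd_iff, map_sub, map_one, sub_eq_zero] at hu1
    exact hu1
  · simpa [sub_eq_zero] using hu

theorem rv2_geom {i : ℕ} {u : (ZMod p)⟦X⟧} (hu : constantCoeff u = 1) :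
    constantCoeff (∑ j ∈ Finset.range i, u ^ j) = (i : ZMod p) := by
  simp [map_sum, hu]

def rv2_P (i : ℕ) (c : ZMod p) (f : Nott p) : Prop :=
  ∃ u : (ZMod p)⟦X⟧, f.1 = X * u ∧ constantCoeff u = 1 ∧ u ^ i * (1 - C c * X ^ i) = 1

theorem rv2_one (i : ℕ) : rv2_P i 0 (1 : Nott p) := ⟨1, by simp [one_val], by simp, by simp⟩

theorem rv2_mul {i : ℕ} {c d : ZMod p} {f g : Nott p} (hf : rv2_P i c f) (hg : rv2_P i d g) :
    rv2_P i (c + d) (f * g) := by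
  obtain ⟨u, hu, hu1, hu2⟩ := hf
  obtain ⟨v, hv, hv1, hv2⟩ := hg
  have hs : HasSubst g.1 := hasSubst_of g.2.1
  refine ⟨v * (u.subst g.1 : (ZMod p)⟦X⟧), ?_, ?_, ?_⟩
  · rw [mul_val, hu, subst_mul hs, subst_X hs, ← mul_assoc, ← hv]
  · have := coeff_subst_eq_sum u g.1 g.2.1 0
    rw [map_mul, hv1, one_mul, ← coeff_zero_eq_constantCoeff_apply, this]
    simp [hu1]
  · have h := congrArg (substAlgHom (R := ZMod p) hs) hu2
    rw [map_mul, map_pow, map_sub, map_one, map_mul, map_pow, substAlgHom_X, coe_substAlgHom,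
      subst_C] at h
    have h' : (u.subst g.1 : (ZMod p)⟦X⟧) ^ i * (1 - C c * g.1 ^ i) = 1 := h
    have e : g.1 ^ i = X ^ i * v ^ i := by rw [hv, mul_pow]
    rw [e] at h'
    rw [map_add, mul_pow]
    linear_combination h' + (u.subst g.1 : (ZMod p)⟦X⟧) ^ i * hv2

theorem rv2_pow {i : ℕ} {c : ZMod p} {f : Nott p} (hf : rv2_P i c f) (n : ℕ) :
    rv2_P i ((n : ZMod p) * c) (f ^ n) := by
  induction n with
  | zero => simpa using rv2_one i
  | succ n ih =>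
    have := rv2_mul ih hf
    rw [pow_succ]
    push_cast
    rwa [add_mul, one_mul]

theorem rv2_eq_one {i : ℕ} (hi : (i : ZMod p) ≠ 0) {f : Nott p} (hf : rv2_P i 0 f) : f = 1 := by
  obtain ⟨u, hu, hu1, hu2⟩ := hf
  have h : u ^ i = 1 := by simpa using hu2
  have h2 := geom_sum_mul u i
  rw [h, sub_self, mul_eq_zero] at h2
  rcases h2 with h2 | h2
  · have := rv2_geom (i := i) hu1
    rw [h2, map_zero] at this
    exact absurd this.symm hi
  · refine Subtype.ext ?_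
    rw [hu, sub_eq_zero.1 h2, mul_one, one_val]

theorem rv2_lead {i : ℕ} (hi : (i : ZMod p) ≠ 0) {f : Nott p} (hf : rv2_P i (i : ZMod p) f) :
    f ∈ Jn p i ∧ coeff (i + 1) f.1 = 1 := by
  have hi0 : i ≠ 0 := by rintro rfl; simp at hi
  obtain ⟨u, hu, hu1, hu2⟩ := hf
  have hS := rv2_geom (i := i) hu1
  have h2 := geom_sum_mul u i
  set S := ∑ j ∈ Finset.range i, u ^ j
  have hS0 : constantCoeff S ≠ 0 := by rwa [hS]
  have hSi : S * S⁻¹ = 1 := PowerSeries.mul_inv_cancel S hS0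
  have e : f.1 - X = X ^ (i + 1) * (C (i : ZMod p) * u ^ i * S⁻¹) := by
    rw [hu]
    linear_combination (X * S⁻¹) * h2 + (X * S⁻¹) * hu2 - X * (u - 1) * hSi
  refine ⟨mem_Jn.2 ⟨_, e⟩, ?_⟩
  rw [sub_eq_iff_eq_add] at e
  rw [e, map_add, coeff_X, if_neg (by omega), add_zero]
  have := coeff_X_pow_mul (C (i : ZMod p) * u ^ i * S⁻¹) (i + 1) 0
  rw [zero_add] at this
  rw [this]
  simp [hu1, hS, hi]

theorem rv2_dmul (a b : (ZMod p)⟦X⟧) : dx (a * b) = a * dx b + b * dx a :=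
  Derivation.leibniz _ a b

theorem rv2_dadd (a b : (ZMod p)⟦X⟧) : dx (a + b) = dx a + dx b := map_add _ a b

theorem rv2_dsub (a b : (ZMod p)⟦X⟧) : dx (a - b) = dx a - dx b := map_sub _ a b

theorem rv2_done : dx (1 : (ZMod p)⟦X⟧) = 0 := Derivation.map_one_eq_zero _

theorem rv2_dX : dx (X : (ZMod p)⟦X⟧) = 1 := derivative_X

theorem rv2_dC (c : ZMod p) : dx (C c : (ZMod p)⟦X⟧) = 0 := derivative_C

theorem rv2_dpow (a : (ZMod p)⟦X⟧) (k : ℕ) :
    dx (a ^ (k + 1)) = ((k + 1 : ℕ) : (ZMod p)⟦X⟧) * (a ^ k * dx a) := by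
  have := Derivation.leibniz_pow (d⁄dX (ZMod p)) a (k + 1)
  rw [nsmul_eq_mul, smul_eq_mul, Nat.add_sub_cancel] at this
  exact this

theorem rv2_inS (hp : 3 ≤ p) {i : ℕ} (hi : (i : ZMod p) ≠ 0) {c : ZMod p} {f : Nott p}
    (hf : rv2_P i c f) : InS ((1 - (i : ZMod p) ^ 2) / 2) f := by
  obtain ⟨u, hu, hu1, hu2⟩ := hf
  obtain ⟨k, rfl⟩ : ∃ k, i = k + 1 := ⟨i - 1, by
    have : i ≠ 0 := by rintro rfl; simp at hi
    omega⟩
  have h2 : (2 : ZMod p) ≠ 0 := by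
    intro h
    have := (ZMod.natCast_eq_zero_iff 2 p).1 (by exact_mod_cast h)
    have := Nat.le_of_dvd (by norm_num) this
    omega
  obtain ⟨h, hh⟩ : ∃ h : (ZMod p)⟦X⟧, h = C (1 / 2 : ZMod p) := ⟨_, rfl⟩
  have hh2 : 2 * h = 1 := by
    rw [hh, ← map_ofNat (C (R := ZMod p)) 2, ← map_mul, mul_one_div_cancel h2, map_one]
  obtain ⟨n, hn⟩ : ∃ n : (ZMod p)⟦X⟧, n = ((k + 1 : ℕ) : (ZMod p)⟦X⟧) := ⟨_, rfl⟩
  have hn0 : n ≠ 0 := by
    intro h0
    have := congrArg constantCoeff (hn.symm.trans h0)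
    rw [map_natCast, map_zero] at this
    exact hi this
  have c1 : (C (3 / 2 : ZMod p) : (ZMod p)⟦X⟧) = 3 * h := by
    rw [hh, ← map_ofNat (C (R := ZMod p)) 3, ← map_mul, mul_one_div]
  have c2 : (C ((1 - ((k + 1 : ℕ) : ZMod p) ^ 2) / 2) : (ZMod p)⟦X⟧) = (1 - n ^ 2) * h := by
    rw [hh, hn, div_eq_mul_one_div, map_mul, map_sub, map_one, map_pow, map_natCast]
  have dn : dx n = 0 := by rw [hn]; exact Derivation.map_natCast _ _
  obtain ⟨y, hy⟩ : ∃ y, y = u ^ (k + 1) := ⟨_, rfl⟩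
  have dy : dx y = n * (u ^ k * dx u) := by
    rw [hy, hn, rv2_dpow]
  have dX : dx (X ^ (k + 1) : (ZMod p)⟦X⟧) = n * X ^ k := by
    rw [hn, rv2_dpow, rv2_dX, mul_one]
  rw [← hy] at hu2
  have d0 : y * (-(C c * (n * X ^ k))) + (1 - C c * X ^ (k + 1)) * (n * (u ^ k * dx u)) = 0 := by
    have := congrArg dx hu2
    rw [rv2_dmul, rv2_dsub, rv2_dmul, dy, dX, rv2_done, rv2_dC] at this
    linear_combination this
  have d1 : X * dx u = u * (y - 1) := by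
    refine mul_left_cancel₀ hn0 ?_
    linear_combination (X * u) * d0 - n * (X * dx u + u) * hu2
      + n * X * dx u * (1 - C c * X ^ (k + 1)) * hy
  have d2 : X * dx y = n * y * (y - 1) := by
    rw [dy]
    linear_combination n * u ^ k * d1 - n * (y - 1) * hy
  have D1 : dx f.1 = u * y := by
    rw [hu, rv2_dmul, rv2_dX]
    linear_combination d1
  have D2 : X * dx (dx f.1) = (n + 1) * (dx f.1 * (y - 1)) := by
    rw [D1, rv2_dmul]
    linear_combination u * d2 + y * d1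
  have D3 : X * dx (dx (dx f.1)) + dx (dx f.1) =
      (n + 1) * (dx f.1 * dx y + (y - 1) * dx (dx f.1)) := by
    have := congrArg dx D2
    rw [rv2_dmul, rv2_dmul, rv2_dmul, rv2_dadd, rv2_dsub, dn, rv2_done, rv2_dX] at this
    linear_combination this
  have hN := dx_mul_inv f
  unfold InS sch
  rw [c1, c2]
  generalize (dx f.1)⁻¹ = N at hN ⊢
  have E2 : X * dx (dx f.1) * N = (n + 1) * (y - 1) := by
    rw [D2]
    linear_combination (n + 1) * (y - 1) * hN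
  have E3 : X ^ 2 * (dx (dx (dx f.1)) * N) =
      (n + 1) * (n * y * (y - 1) + (n + 1) * (y - 1) ^ 2 - (y - 1)) := by
    linear_combination X * N * D3 + ((n + 1) * (y - 1) - 1) * E2
      + (n + 1) * dx f.1 * N * d2 + (n + 1) * n * y * (y - 1) * hN
  have E4 : X ^ 2 * (dx (dx (dx f.1)) * N - 3 * h * (dx (dx f.1) * N) ^ 2) =
      (1 - n ^ 2) * h * (1 - y ^ 2) := by
    linear_combination E3 - 3 * h * (X * dx (dx f.1) * N + (n + 1) * (y - 1)) * E2
      - (n + 1) * (n * y * (y - 1) + (n + 1) * (y - 1) ^ 2 - (y - 1)) * hh2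
  rw [E4, D1, hu]
  ring

theorem exists_ord (hp : 3 ≤ p) {i : ℕ} (hd : ¬ p ∣ i) : ∃ f ∈ Jn p i,
    coeff (i + 1) f.1 = 1 ∧ f ^ p = 1 ∧ InS ((1 - (i : ZMod p) ^ 2) / 2) f := by
  have hi : (i : ZMod p) ≠ 0 := fun h => hd ((ZMod.natCast_eq_zero_iff i p).1 h)
  have hi0 : i ≠ 0 := by rintro rfl; simp at hi
  have h0 : constantCoeff (1 - C (i : ZMod p) * X ^ i : (ZMod p)⟦X⟧) = 1 := by simp [hi0]
  obtain ⟨u, hu1, hu2⟩ := rv2_root hi (1 - C (i : ZMod p) * X ^ i)⁻¹ (by simp [hi0])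
  let f : Nott p := ⟨X * u, by simp, by simp [coeff_succ_X_mul, hu1]⟩
  have hf : rv2_P i (i : ZMod p) f :=
    ⟨u, rfl, hu1, by rw [hu2]; exact PowerSeries.inv_mul_cancel _ (by rw [h0]; exact one_ne_zero)⟩
  refine ⟨f, (rv2_lead hi hf).1, (rv2_lead hi hf).2, rv2_eq_one hi ?_, rv2_inS hp hi hf⟩
  simpa using rv2_pow hf p

end Pool.Agent.P.MP_e06b60_al.R
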