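import Mathlib
import Pool.Agent.P.MP_e06b60_al.RA1

namespace Pool.Agent.P.MP_e06b60_al.R

open PowerSeries
open scoped commutatorElement

variable {G : Type} [Group G]

/-- difference of a sequence -/
def ra4_D (f : ℕ → G) : ℕ → G := fun n => f (n + 1) * (f n)⁻¹

/-- polynomial sequences up to depth `d` -/
def ra4_P (S : NS G) (d k : ℕ) (f : ℕ → G) : Prop :=
  ∀ m ≤ d, ∀ n, (ra4_D^[m] f) n ∈ S.F (max (k + m) 1)

theorem ra4_anti (S : NS G) {i j : ℕ} (h : i ≤ j) : S.F (max j 1) ≤ S.F (max i 1) :=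
  S.mono (le_max_right _ _) (max_le_max h le_rfl)

theorem ra4_comm (S : NS G) {i j : ℕ} {x y : G} (hx : x ∈ S.F (max i 1))
    (hy : y ∈ S.F (max j 1)) : ⁅x, y⁆ ∈ S.F (max (i + j) 1) :=
  S.mono (le_max_right _ _) (by omega)
    (S.comm _ _ (le_max_right _ _) (le_max_right _ _) x hx y hy)

theorem ra4_mem {S : NS G} {d k : ℕ} {f : ℕ → G} (h : ra4_P S d k f) (n : ℕ) :
    f n ∈ S.F (max k 1) := h 0 (Nat.zero_le _) n

theorem ra4_zero {S : NS G} {k : ℕ} {f : ℕ → G} (h : ∀ n, f n ∈ S.F (max k 1)) :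
    ra4_P S 0 k f := by
  intro m hm n
  obtain rfl : m = 0 := by omega
  exact h n

theorem ra4_diff {S : NS G} {d k : ℕ} {f : ℕ → G} (h : ra4_P S (d + 1) k f) :
    ra4_P S d (k + 1) (ra4_D f) := by
  intro m hm n
  have := h (m + 1) (by omega) n
  rwa [Function.iterate_succ_apply, show k + (m + 1) = k + 1 + m by ring] at this

theorem ra4_succ {S : NS G} {d k : ℕ} {f : ℕ → G} (h : ∀ n, f n ∈ S.F (max k 1))
    (h' : ra4_P S d (k + 1) (ra4_D f)) : ra4_P S (d + 1) k f := by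
  intro m hm n
  cases m with
  | zero => exact h n
  | succ m =>
    rw [Function.iterate_succ_apply, show k + (m + 1) = k + 1 + m by ring]
    exact h' m (by omega) n

theorem ra4_down {S : NS G} {d k : ℕ} {f : ℕ → G} (h : ra4_P S (d + 1) k f) : ra4_P S d k f :=
  fun m hm n => h m (by omega) n

theorem ra4_mono {S : NS G} {d k l : ℕ} {f : ℕ → G} (h : ra4_P S d l f) (hk : k ≤ l) :
    ra4_P S d k f :=
  fun m hm n => ra4_anti S (by omega) (h m hm n)

theorem ra4_closed (S : NS G) (d : ℕ) :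
    (∀ k f g, ra4_P S d k f → ra4_P S d k g → ra4_P S d k (f * g)) ∧
    (∀ k f, ra4_P S d k f → ra4_P S d k f⁻¹) ∧
    ∀ i j f g, ra4_P S d i f → ra4_P S d j g → ra4_P S d (i + j) ⁅f, g⁆ := by
  induction d with
  | zero =>
    exact ⟨fun k f g hf hg => ra4_zero fun n => mul_mem (ra4_mem hf n) (ra4_mem hg n),
      fun k f hf => ra4_zero fun n => inv_mem (ra4_mem hf n),
      fun i j f g hf hg => ra4_zero fun n => ra4_comm S (ra4_mem hf n) (ra4_mem hg n)⟩
  | succ d ih =>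
    obtain ⟨hm, hi, hc⟩ := ih
    refine ⟨fun k f g hf hg => ra4_succ (fun n => mul_mem (ra4_mem hf n) (ra4_mem hg n)) ?_,
      fun k f hf => ra4_succ (fun n => inv_mem (ra4_mem hf n)) ?_,
      fun i j f g hf hg => ra4_succ (fun n => ra4_comm S (ra4_mem hf n) (ra4_mem hg n)) ?_⟩
    · have e : ra4_D (f * g) = ra4_D f * (⁅f, ra4_D g⁆ * ra4_D g) := by
        funext n
        simp [ra4_D, commutatorElement_def, mul_assoc]
      rw [e]
      exact hm _ _ _ (ra4_diff hf) (hm _ _ _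
        (ra4_mono (hc _ _ _ _ (ra4_down hf) (ra4_diff hg)) (by omega)) (ra4_diff hg))
    · have e : ra4_D f⁻¹ = ⁅f⁻¹, (ra4_D f)⁻¹⁆ * (ra4_D f)⁻¹ := by
        funext n
        simp [ra4_D, commutatorElement_def, mul_assoc]
      rw [e]
      have h1 := hi _ _ (ra4_diff hf)
      exact hm _ _ _ (ra4_mono (hc _ _ _ _ (hi _ _ (ra4_down hf)) h1) (by omega)) h1
    · have ha := ra4_diff hf
      have hb := ra4_diff hg
      have hf' := ra4_down hf
      have hg' := ra4_down hg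
      have hh := hm _ _ _ (ra4_mono hb (Nat.le_succ j)) hg'
      have h1 := hc _ _ _ _ hf' hg'
      have h2 := hc _ _ _ _ ha hh
      have e : ra4_D ⁅f, g⁆ = ⁅ra4_D f, ⁅f, ra4_D g * g⁆⁆ * (⁅f, ra4_D g⁆ * (⁅ra4_D g, ⁅f, g⁆⁆ *
          (⁅⁅f, g⁆, ⁅ra4_D f, ra4_D g * g⁆⁆ * ⁅ra4_D f, ra4_D g * g⁆))) := by
        funext n
        simp [ra4_D, commutatorElement_def, mul_assoc]
      rw [e]
      exact hm _ _ _ (ra4_mono (hc _ _ _ _ ha (hc _ _ _ _ hf' hh)) (by omega))
        (hm _ _ _ (ra4_mono (hc _ _ _ _ hf' hb) (by omega))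
          (hm _ _ _ (ra4_mono (hc _ _ _ _ hb h1) (by omega))
            (hm _ _ _ (ra4_mono (hc _ _ _ _ h1 h2) (by omega)) (ra4_mono h2 (by omega)))))

theorem ra4_choose (S : NS G) (d : ℕ) : ∀ (j k : ℕ) (g : G), g ∈ S.F (max (j + k) 1) →
    ra4_P S d j fun n => g ^ n.choose k := by
  induction d with
  | zero =>
    intro j k g hg
    exact ra4_zero fun n => pow_mem (ra4_anti S (Nat.le_add_right j k) hg) _
  | succ d ih =>
    intro j k g hg
    refine ra4_succ (fun n => pow_mem (ra4_anti S (Nat.le_add_right j k) hg) _) ?_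
    cases k with
    | zero =>
      have e : (ra4_D fun n => g ^ n.choose 0) = fun n => (1 : G) ^ n.choose 0 := by
        funext n
        simp [ra4_D]
      rw [e]
      exact ih _ _ _ (one_mem _)
    | succ k =>
      have e : (ra4_D fun n => g ^ n.choose (k + 1)) = fun n => g ^ n.choose k := by
        funext n
        simp [ra4_D, Nat.choose_succ_succ, pow_add]
      rw [e]
      exact ih _ _ _ (by rwa [show j + 1 + k = j + (k + 1) by ring])

theorem ra4_van (S : NS G) (k : ℕ) : ∀ (d j : ℕ) (f : ℕ → G), k ≤ d → ra4_P S d j f →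
    (∀ n < k, f n = 1) → f k ∈ S.F (max (j + k) 1) := by
  induction k with
  | zero => intro d j f _ hf _; exact ra4_mem hf 0
  | succ k ih =>
    intro d j f hd hf h0
    obtain ⟨d, rfl⟩ : ∃ e, d = e + 1 := ⟨d - 1, by omega⟩
    have h1 := ih d (j + 1) (ra4_D f) (by omega) (ra4_diff hf) (fun n hn => by
      simp [ra4_D, h0 n (by omega), h0 (n + 1) (by omega)])
    have h2 : ra4_D f k = f (k + 1) := by simp [ra4_D, h0 k (by omega)]
    rwa [h2, show j + 1 + k = j + (k + 1) by ring] at h1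

theorem hall_petresco {p : ℕ} (hp : p.Prime) (S : NS G) (Q : Subgroup G) (h1 : S.F p ≤ Q)
    (h2 : ∀ c ∈ S.F 2, c ^ p ∈ Q) {x y : G} (hx : x ∈ S.F 1) (hy : y ∈ S.F 1) :
    (x ^ p)⁻¹ * (x * y) ^ p * (y ^ p)⁻¹ ∈ Q := by
  obtain ⟨hm, hi, -⟩ := ra4_closed S p
  have key : ∀ t k, k + t = p → 2 ≤ k → ∀ f : ℕ → G, ra4_P S p 0 f → (∀ n < k, f n = 1) →
      f p ∈ Q := by
    intro t
    induction t with
    | zero =>
      intro k hk hk2 f hf h0
      obtain rfl : k = p := hk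
      have h3 := ra4_van S k k 0 f le_rfl hf h0
      rw [zero_add, max_eq_left (by omega)] at h3
      exact h1 h3
    | succ t ih =>
      intro k hk hk2 f hf h0
      have h3 := ra4_van S k p 0 f (by omega) hf h0
      have h4 := ih (k + 1) (by omega) (by omega) (f * (fun n => f k ^ n.choose k)⁻¹)
        (hm _ _ _ hf (hi _ _ (ra4_choose S p 0 k _ h3))) (fun n hn => by
          rcases Nat.lt_succ_iff_lt_or_eq.1 hn with h | h
          · simp [h0 n h, Nat.choose_eq_zero_of_lt h]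
          · simp [h])
      obtain ⟨c, hc⟩ := hp.dvd_choose_self (k := k) (by omega) (by omega)
      have h5 : f k ^ p.choose k ∈ Q := by
        rw [hc, pow_mul]
        exact pow_mem (h2 _ (S.mono (by omega) (by omega) h3)) _
      have h6 := mul_mem h4 h5
      simpa using h6
  have h3 : ∀ z ∈ S.F 1, ra4_P S p 0 fun n => z ^ n := by
    intro z hz
    simpa using ra4_choose S p 0 1 z hz
  have h4 := key (p - 2) 2 (by have := hp.two_le; omega) le_rfl
    ((fun n => x ^ n)⁻¹ * (fun n => (x * y) ^ n) * (fun n => y ^ n)⁻¹)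
    (hm _ _ _ (hm _ _ _ (hi _ _ (h3 x hx)) (h3 _ (mul_mem hx hy))) (hi _ _ (h3 y hy)))
    (fun n hn => by
      rcases (by omega : n = 0 ∨ n = 1) with rfl | rfl <;> simp)
  exact h4

end Pool.Agent.P.MP_e06b60_al.R
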