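import Mathlib
import Pool.Agent.P.MP_e06b60_al.RA4
import Pool.Agent.P.MP_e06b60_al.RA2
import Pool.Agent.P.MP_e06b60_al.RJ2

namespace Pool.Agent.P.MP_e06b60_al.R

open PowerSeries
open scoped commutatorElement

variable {p k : ℕ} [Fact p.Prime] {G : Type} [Group G]

theorem rq1_span (D : AD p k G) {n : ℕ} (hn : 1 ≤ n) (hw : n ≤ k * p) {c x : G}
    (hc : c ∈ D.F n) (hc1 : coeff (n + 1) (D.θ c).1 ≠ 0) (hx : x ∈ D.F n) :
    ∃ a : ℕ, D.θ (x * (c ^ a)⁻¹) ∈ Jn p (n + 1) := by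
  obtain ⟨a, ha⟩ := (JW p).span JW_ker hn (g := D.θ c) (x := D.θ x) ((D.pre n hn hw c).mp hc) hc1
    ((D.pre n hn hw x).mp hx)
  exact ⟨a, by rw [map_mul, map_inv, map_pow]; exact ha⟩

theorem AD.span (hp : 7 ≤ p) (hk : 3 ≤ k) (D : AD p k G) {n : ℕ} (hn : 1 ≤ n) (hw : n < k * p) {c x : G}
    (hc : c ∈ D.F n) (hc1 : coeff (n + 1) (D.θ c).1 ≠ 0) (hx : x ∈ D.F n) :
    ∃ a : ℕ, x * (c ^ a)⁻¹ ∈ D.F (n + 1) := by
  obtain ⟨a, ha⟩ := rq1_span D hn hw.le hc hc1 hx
  exact ⟨a, (D.pre (n + 1) (by omega) hw _).mpr ha⟩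

theorem rq1_top (D : AD p k G) (x : G) : x ∈ D.F 1 := by
  rw [D.top]
  exact Subgroup.mem_top x

/-- The series used for the collection formula. -/
def rq1_H (S : NS G) {m : ℕ} (hm : 1 ≤ m)
    (h : ∀ x ∈ S.F m, ∀ y ∈ S.F m, ⁅x, y⁆ ∈ S.F (2 * m + 1)) : NS G where
  F i := if i = 1 then S.F m else S.F (i * m + 1)
  anti n hn := by
    rw [if_neg (by omega)]
    by_cases h1 : n = 1
    · rw [if_pos h1]
      exact S.mono hm (by subst h1; omega)
    · rw [if_neg h1]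
      exact S.mono (by omega) (by rw [Nat.add_mul]; omega)
  comm i j hi hj x hx y hy := by
    rw [if_neg (by omega)]
    by_cases h1 : i = 1 <;> by_cases h2 : j = 1
    · rw [if_pos h1] at hx
      rw [if_pos h2] at hy
      subst h1 h2
      exact h x hx y hy
    · rw [if_pos h1] at hx
      rw [if_neg h2] at hy
      exact S.mono (by omega) (by subst h1; rw [Nat.add_mul]; omega)
        (S.comm _ _ hm (by omega) x hx y hy)
    · rw [if_neg h1] at hx
      rw [if_pos h2] at hy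
      exact S.mono (by omega) (by subst h2; rw [Nat.add_mul]; omega)
        (S.comm _ _ (by omega) hm x hx y hy)
    · rw [if_neg h1] at hx
      rw [if_neg h2] at hy
      exact S.mono (by omega) (by rw [Nat.add_mul]; omega)
        (S.comm _ _ (by omega) (by omega) x hx y hy)

theorem rq1_hom (hp : 7 ≤ p) (hk : 3 ≤ k) (D : AD p k G) {m : ℕ} (hm : k ≤ m) (hw : m < k * p)
    (h : ∀ x ∈ D.F (2 * m + 1), x ^ p ∈ D.F (k * p + 1)) : ∀ x ∈ D.F m, ∀ y ∈ D.F m,
    (x * y) ^ p * (x ^ p * y ^ p)⁻¹ ∈ D.F (k * p + 1) := by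
  intro x hx y hy
  have h1 : 1 ≤ m := by omega
  obtain ⟨hg, hg1⟩ := D.g_mem m h1 hw.le
  have hc := D.toNS.cyc_comm h1 hg fun u hu =>
    D.span hp hk h1 hw hg (by rw [hg1]; exact one_ne_zero) hu
  have hq := hall_petresco (Fact.out : p.Prime) (rq1_H D.toNS h1 hc) (D.F (k * p + 1))
    (by
      show (if p = 1 then D.F m else D.F (p * m + 1)) ≤ _
      rw [if_neg (by omega)]
      refine D.toNS.mono (by omega) ?_
      rw [mul_comm p m]
      exact Nat.succ_le_succ (Nat.mul_le_mul_right p hm))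
    (by
      intro c hc'
      have : c ∈ (if (2 : ℕ) = 1 then D.F m else D.F (2 * m + 1)) := hc'
      rw [if_neg (by omega)] at this
      exact h c this)
    (x := x) (y := y)
    (by
      show x ∈ (if (1 : ℕ) = 1 then D.F m else D.F (1 * m + 1))
      rw [if_pos rfl]
      exact hx)
    (by
      show y ∈ (if (1 : ℕ) = 1 then D.F m else D.F (1 * m + 1))
      rw [if_pos rfl]
      exact hy)
  have := D.toNS.conj_mem (by omega) hq (rq1_top D (x ^ p))
  have e : x ^ p * ((x ^ p)⁻¹ * (x * y) ^ p * (y ^ p)⁻¹) * (x ^ p)⁻¹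
      = (x * y) ^ p * (x ^ p * y ^ p)⁻¹ := by
    simp [mul_assoc]
  rwa [e] at this

theorem rq1_step (hp : 7 ≤ p) (hk : 3 ≤ k) (D : AD p k G) {m t : ℕ} (ht : 1 ≤ t) (ht2 : t ≤ 2)
    (hm : k ≤ m) (hw : m + t ≤ k * p) (hne : (m : ZMod p) - t ≠ 0)
    (ih : ∀ x ∈ D.F (m + t + 1), x ^ p ∈ D.F (k * p + 1)) :
    ∀ x ∈ D.F (m + t), x ^ p ∈ D.F (k * p + 1) := by
  have h1 : 1 ≤ m := by omega
  have hom := rq1_hom hp hk D hm (by omega) fun x hx =>
    ih x (D.toNS.mono (by omega) (by omega) hx)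
  have hmul : ∀ x ∈ D.F m, ∀ y ∈ D.F m, x ^ p * y ^ p ∈ D.F (k * p + 1) →
      (x * y) ^ p ∈ D.F (k * p + 1) := fun x hx y hy hxy => by
    have := mul_mem (hom x hx y hy) hxy
    rwa [inv_mul_cancel_right] at this
  obtain ⟨hg, hg1⟩ := D.g_mem m h1 (by omega)
  obtain ⟨hh, hh1⟩ := D.g_mem t ht (by omega)
  have hc : ⁅D.g m, D.g t⁆ ∈ D.F (m + t) := D.comm m t h1 ht _ hg _ hh
  have hc1 : coeff (m + t + 1) (D.θ ⁅D.g m, D.g t⁆).1 ≠ 0 := by
    rw [map_commutatorElement, (comm_lead h1 ht ((D.pre m h1 (by omega) _).mp hg)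
      ((D.pre t ht (by omega) _).mp hh)).2, hg1, hh1]
    simpa using hne
  have hgp : D.g m ^ p ∈ D.F (k * p) := by
    refine (D.pre (k * p) (by omega) le_rfl _).mpr ?_
    rw [map_pow]
    exact Jn_anti (Nat.mul_le_mul_right p hm) (pow_mem_Jn h1 ((D.pre m h1 (by omega) _).mp hg))
  have hcp : ⁅D.g m, D.g t⁆ ^ p ∈ D.F (k * p + 1) := by
    have h2 := hmul _ hg _ (D.toNS.conj_mem h1 (inv_mem hg) (rq1_top D (D.g t))) (by
      have := D.comm (k * p) 1 (by omega) le_rfl _ hgp _ (rq1_top D (D.g t))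
      rw [commutatorElement_def] at this
      rw [conj_pow, inv_pow, ← mul_assoc, ← mul_assoc]
      exact this)
    have e : D.g m * (D.g t * (D.g m)⁻¹ * (D.g t)⁻¹) = ⁅D.g m, D.g t⁆ := by
      simp [commutatorElement_def, mul_assoc]
    rwa [e] at h2
  have hdown : ∀ {n : ℕ} {x : G}, m ≤ n → x ∈ D.F n → x ∈ D.F m := fun h hx =>
    D.toNS.mono h1 h hx
  intro x hx
  obtain ⟨a, ha⟩ := rq1_span D (by omega) hw hc hc1 hx
  have hu : x * (⁅D.g m, D.g t⁆ ^ a)⁻¹ ∈ D.F (m + t) := mul_mem hx (inv_mem (pow_mem hc a))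
  have hup : (x * (⁅D.g m, D.g t⁆ ^ a)⁻¹) ^ p ∈ D.F (k * p + 1) := by
    rcases hw.lt_or_eq with hlt | heq
    · exact ih _ ((D.pre _ (by omega) hlt _).mpr ha)
    · rw [heq] at ha
      obtain ⟨b, hb⟩ := D.ker _ ha
      have h3 := hmul _ (hdown (by omega) hb) _ (hdown (by omega) (pow_mem D.z_mem b))
        (mul_mem (pow_mem hb p) (by
          rw [← pow_mul, mul_comm b p, pow_mul]
          exact pow_mem D.z_pow b))
      rwa [inv_mul_cancel_right] at h3
  have h4 := hmul _ (hdown (by omega) hu) _ (hdown (by omega) (pow_mem hc a))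
    (mul_mem hup (by
      rw [← pow_mul, mul_comm a p, pow_mul]
      exact pow_mem hcp a))
  rwa [inv_mul_cancel_right] at h4

theorem AD.pow_two (hp : 7 ≤ p) (hk : 3 ≤ k) (D : AD p k G) : ∀ x ∈ D.F (k + 2), x ^ p ∈ D.F (k * p + 1) := by
  have key : ∀ d m : ℕ, k * p + 1 ≤ m + 2 + d → k ≤ m →
      ∀ x ∈ D.F (m + 2), x ^ p ∈ D.F (k * p + 1) := by
    intro d
    induction d with
    | zero => exact fun m h _ x hx => pow_mem (D.toNS.mono (by omega) (by omega) hx) p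
    | succ d ih =>
      intro m h hm
      by_cases hw : k * p + 1 ≤ m + 2
      · exact fun x hx => pow_mem (D.toNS.mono (by omega) hw hx) p
      · have ih' := ih (m + 1) (by omega) (by omega)
        by_cases h0 : (m : ZMod p) - (2 : ℕ) = 0
        · refine rq1_step hp hk D (m := m + 1) (t := 1) le_rfl (by omega) (by omega) (by omega) ?_ ih'
          have h2 := cast_ne_zero (p := p) (a := 2) (by omega) (by omega)
          intro h3
          apply h2
          push_cast at h0 h3 ⊢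
          linear_combination h3 - h0
        · exact rq1_step hp hk D (m := m) (t := 2) (by omega) le_rfl hm (by omega) h0 ih'
  exact key (k * p) k (by omega) le_rfl

theorem AD.pow_hom (hp : 7 ≤ p) (hk : 3 ≤ k) (D : AD p k G) : ∀ x ∈ D.F k, ∀ y ∈ D.F k,
    (x * y) ^ p * (x ^ p * y ^ p)⁻¹ ∈ D.F (k * p + 1) := by
  refine rq1_hom hp hk D le_rfl (by nlinarith) fun x hx => D.pow_two hp hk x ?_
  exact D.toNS.mono (by omega) (by omega) hx

theorem AD.pow_one (hp : 7 ≤ p) (hk : 3 ≤ k) (D : AD p k G) (hd : p ∣ k) :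
    ∀ x ∈ D.F (k + 1), x ^ p ∈ D.F (k * p + 1) := by
  refine rq1_step hp hk D (m := k) (t := 1) le_rfl (by omega) le_rfl (by nlinarith) ?_
    (D.pow_two hp hk)
  rw [(ZMod.natCast_eq_zero_iff k p).mpr hd]
  simp

end Pool.Agent.P.MP_e06b60_al.R
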