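import Mathlib
import Pool.Agent.P.MP_e06b60_al.RQ1

namespace Pool.Agent.P.MP_e06b60_al.R

open PowerSeries
open scoped commutatorElement

variable {p k : ℕ} [Fact p.Prime] {G : Type} [Group G]

/-- The elements of `M` that are powers of `v` modulo the normal subgroup `N`. -/
def rv3_one (M N : Subgroup G) [hN : N.Normal] (v : G) : Subgroup G where
  carrier := {x | x ∈ M ∧ ∃ n : ℤ, x * (v ^ n)⁻¹ ∈ N}
  one_mem' := ⟨one_mem _, 0, by simp⟩
  mul_mem' := by
    rintro x y ⟨hx, n, hn⟩ ⟨hy, m, hm⟩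
    refine ⟨mul_mem hx hy, n + m, ?_⟩
    have e : x * y * (v ^ (n + m))⁻¹ = x * (v ^ n)⁻¹ * (v ^ n * (y * (v ^ m)⁻¹) * (v ^ n)⁻¹) := by
      group
    rw [e]
    exact mul_mem hn (hN.conj_mem _ hm _)
  inv_mem' := by
    rintro x ⟨hx, n, hn⟩
    refine ⟨inv_mem hx, -n, ?_⟩
    have e : x⁻¹ * (v ^ (-n))⁻¹ = (v ^ n)⁻¹ * (x * (v ^ n)⁻¹)⁻¹ * (v ^ n)⁻¹⁻¹ := by group
    rw [e]
    exact hN.conj_mem _ (inv_mem hn) _

theorem AD.core (hp : 7 ≤ p) (hk : 3 ≤ k) (D : AD p k G) (hd : p ∣ k) {a : ℕ} (ha : a = 1 ∨ a = 2)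
    (M : Subgroup G) {la : G → ZMod p}
    (hmul : ∀ x ∈ D.F (k * p / 3 + 1), ∀ y ∈ D.F (k * p / 3 + 1), ⁅x, y⁆ ∈ D.F (k * p + 1) →
      la (x * y) = la x + la y) (hzero : ∀ x ∈ D.F (k * p + 1), la x = 0)
    (hinv : ∀ i j, 1 ≤ i → k * p / 3 + 1 ≤ j → (k - 2) * p + 2 ≤ i + j → ∀ g ∈ D.F i, g ∈ M →
      ∀ x ∈ D.F j, la (g⁻¹ * x * g) = la x)
    {u v : G} (hu : u ∈ D.F a) (hv : v ∈ D.F (k - a)) (huM : u ∈ M) (hvM : v ∈ M)
    (hvp : D.θ v ^ p = 1) : la (⁅v, u⁆ ^ p) = 0 := by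
  have hkp : p ≤ k := Nat.le_of_dvd (by omega) hd
  obtain ⟨b, rfl⟩ : ∃ b, k = b + a := ⟨k - a, by omega⟩
  rw [Nat.add_sub_cancel] at hv
  obtain ⟨q, rfl⟩ : ∃ q, p = q + 1 := ⟨p - 1, by omega⟩
  have hone : ∀ x : G, x ∈ D.F 1 := fun x => by rw [D.top]; trivial
  have hN : (D.F (b + a)).Normal := ⟨fun x hx g => D.toNS.conj_mem (by omega) hx (hone g)⟩
  set w := (b + a) * (q + 1) with hw
  set L := b + a + q * b with hL
  have hb : 5 ≤ b := by omega
  have hq : 6 ≤ q := by omega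
  have hwL : w = L + q * a := by rw [hw, hL]; ring
  have hqb : 5 * q ≤ q * b := by nlinarith
  have hqa : q * a ≤ 2 * q ∧ q ≤ q * a := by rcases ha with rfl | rfl <;> omega
  have hw6 : 6 * q ≤ w := by omega
  have hL2 : (b + a - 2) * (q + 1) + 2 ≤ L := by
    have : (b + a - 2) * (q + 1) + 2 * (q + 1) = w := by
      rw [hw, ← add_mul, show b + a - 2 + 2 = b + a by omega]
    omega
  have la1 : la 1 = 0 := hzero 1 (one_mem _)
  have lainv : ∀ y ∈ D.F (w / 3 + 1), la y + la y⁻¹ = 0 := fun y hy => by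
    rw [← hmul y hy _ (inv_mem hy) (by
      rw [commutatorElement_eq_one_iff_commute.2 (Commute.refl y).inv_right]; exact one_mem _),
      mul_inv_cancel, la1]
  let Q : Subgroup G :=
    { carrier := {x | x ∈ D.F L ∧ la x = 0}
      one_mem' := ⟨one_mem _, la1⟩
      mul_mem' := by
        rintro x y ⟨hx, hx0⟩ ⟨hy, hy0⟩
        refine ⟨mul_mem hx hy, ?_⟩
        rw [hmul x (D.toNS.mono (by omega) (by omega) hx) y (D.toNS.mono (by omega) (by omega) hy)
          (D.toNS.mono (by omega) (by omega) (D.comm L L (by omega) (by omega) x hx y hy)),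
          hx0, hy0, add_zero]
      inv_mem' := by
        rintro x ⟨hx, hx0⟩
        refine ⟨inv_mem hx, ?_⟩
        have := lainv x (D.toNS.mono (by omega) (by omega) hx)
        rwa [hx0, zero_add] at this }
  have hQ : D.F (w + 1) ≤ Q := fun x hx => ⟨D.toNS.mono (by omega) (by omega) hx, hzero x hx⟩
  let δ : ℕ → ℕ := fun i => if i ≤ 1 then b else b + a + (i - 1) * b
  let H : ℕ → Subgroup G := fun i => if i ≤ 1 then rv3_one M (D.F (b + a)) v else
    M ⊓ D.F (b + a + (i - 1) * b) ⊓ (if q + 1 ≤ i then Q else ⊤)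
  have H1 : ∀ x, x ∈ H 1 ↔ x ∈ M ∧ ∃ n : ℤ, x * (v ^ n)⁻¹ ∈ D.F (b + a) := fun x => by
    simp only [H, le_refl, if_true]; rfl
  have H2 : ∀ i x, 2 ≤ i → (x ∈ H i ↔
      x ∈ M ∧ x ∈ D.F (b + a + (i - 1) * b) ∧ (q + 1 ≤ i → x ∈ Q)) := fun i x hi => by
    simp only [H, if_neg (show ¬ i ≤ 1 by omega), Subgroup.mem_inf, and_assoc]
    split_ifs with h <;> simp [h]
  have hδ : ∀ i, b ≤ δ i := fun i => by simp only [δ]; split_ifs <;> omega
  have HM : ∀ i x, 1 ≤ i → x ∈ H i → x ∈ M ∧ x ∈ D.F (δ i) := by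
    intro i x hi hx
    rcases Nat.eq_or_lt_of_le hi with rfl | hi
    · obtain ⟨h1, n, hn⟩ := (H1 x).1 hx
      refine ⟨h1, ?_⟩
      have := mul_mem (D.toNS.mono (by omega) (Nat.le_add_right b a) hn) (zpow_mem hv n)
      simpa [δ] using this
    · obtain ⟨h1, h2, -⟩ := (H2 i x hi).1 hx
      exact ⟨h1, by simpa [δ, show ¬ i ≤ 1 by omega] using h2⟩
  have hsum : ∀ i j, 1 ≤ i → 2 ≤ j → b + a + (i + j - 1) * b ≤ δ i + δ j := by
    intro i j hi hj
    obtain ⟨j, rfl⟩ : ∃ t, j = t + 1 := ⟨j - 1, by omega⟩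
    obtain ⟨i, rfl⟩ : ∃ t, i = t + 1 := ⟨i - 1, by omega⟩
    simp only [δ, if_neg (show ¬ j + 1 ≤ 1 by omega), Nat.add_sub_cancel,
      show i + 1 + (j + 1) - 1 = i + j + 1 by omega, add_mul, one_mul]
    split_ifs with h
    · obtain rfl : i = 0 := by omega
      omega
    · omega
  have hdep : ∀ i j, 1 ≤ i → 1 ≤ j → ∀ x ∈ H i, ∀ y ∈ H j,
      ⁅x, y⁆ ∈ D.F (b + a + (i + j - 1) * b) := by
    intro i j hi hj x hx y hy
    have hc := D.comm _ _ (by have := hδ i; omega) (by have := hδ j; omega) x (HM i x hi hx).2 y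
      (HM j y hj hy).2
    by_cases h2 : 2 ≤ j
    · exact D.toNS.mono (by omega) (hsum i j hi h2) hc
    by_cases h3 : 2 ≤ i
    · refine D.toNS.mono (by omega) ?_ hc
      have := hsum j i hj h3
      rwa [add_comm j i, add_comm (δ j)] at this
    obtain rfl : i = 1 := by omega
    obtain rfl : j = 1 := by omega
    obtain ⟨-, n, hn⟩ := (H1 x).1 hx
    obtain ⟨-, m, hm⟩ := (H1 y).1 hy
    have e1 := D.toNS.comm_cg_left (by omega) (by omega : 1 ≤ b) (hone (v ^ n)) hn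
      (by simpa [δ] using (HM 1 y le_rfl hy).2)
    have e2 := D.toNS.comm_cg_right (by omega : 1 ≤ b) (by omega) (zpow_mem hv n) (hone (v ^ m)) hm
    have e3 : ⁅v ^ n, v ^ m⁆ = 1 :=
      commutatorElement_eq_one_iff_commute.2 ((Commute.refl v).zpow_zpow n m)
    rw [e3, inv_one, mul_one, add_comm b (b + a)] at e2
    have e4 := mul_mem e1 e2
    rw [inv_mul_cancel_right] at e4
    exact D.toNS.mono (by omega) (by omega) e4
  have hQc : ∀ i j, 1 ≤ i → i ≤ j → q + 1 ≤ i + j → ∀ x ∈ H i, ∀ y ∈ H j, ⁅x, y⁆ ∈ Q := by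
    intro i j hi hij hq' x hx y hy
    have hle : L ≤ b + a + (i + j - 1) * b :=
      Nat.add_le_add_left (Nat.mul_le_mul_right b (by omega)) _
    have hc : ⁅x, y⁆ ∈ D.F L := D.toNS.mono (by omega) hle (hdep i j hi (by omega) x hx y hy)
    have hj0 : w / 3 + 1 ≤ δ j := by
      simp only [δ, if_neg (show ¬ j ≤ 1 by omega)]
      have h1 : (q - 1) * b ≤ 2 * ((j - 1) * b) := by
        rw [← mul_assoc]; exact Nat.mul_le_mul_right b (by omega)
      have h2 : (q - 1) * b + b = q * b := by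
        rw [← add_one_mul, show q - 1 + 1 = q by omega]
      omega
    have hy0 : y ∈ D.F (w / 3 + 1) := D.toNS.mono (by omega) hj0 (HM j y (by omega) hy).2
    refine ⟨hc, ?_⟩
    have e1 : ⁅x * y * x⁻¹, y⁻¹⁆ = ⁅⁅x, y⁆, y⁻¹⁆ := by
      simp only [commutatorElement_def]; group
    have h1 := hinv (δ i) (δ j) (by have := hδ i; omega) hj0
      (hL2.trans (hle.trans (hsum i j hi (by omega)))) x⁻¹ (inv_mem (HM i x hi hx).2)
      (inv_mem (HM i x hi hx).1) y (HM j y (by omega) hy).2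
    rw [inv_inv] at h1
    rw [commutatorElement_def, hmul _ (D.toNS.conj_mem (by omega) hy0 (hone x)) _ (inv_mem hy0)
      (e1 ▸ D.toNS.mono (by omega) (by omega)
        (D.comm _ _ (by omega) (by omega) _ hc _ (inv_mem hy0))), h1, lainv y hy0]
  let S : NS G :=
    { F := H
      anti := fun n hn x hx => by
        obtain ⟨h1, h2, h3⟩ := (H2 (n + 1) x (by omega)).1 hx
        rcases Nat.eq_or_lt_of_le hn with rfl | hn
        · exact (H1 x).2 ⟨h1, 0, by
            simpa using D.toNS.mono (by omega) (Nat.le_add_right _ _) h2⟩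
        · exact (H2 n x hn).2 ⟨h1, D.toNS.mono (by omega)
            (Nat.add_le_add_left (Nat.mul_le_mul_right b (by omega)) _) h2,
            fun h => h3 (by omega)⟩
      comm := fun i j hi hj x hx y hy => by
        refine (H2 _ _ (by omega)).2 ⟨?_, hdep i j hi hj x hx y hy, fun h => ?_⟩
        · have h1 := (HM i x hi hx).1
          have h2 := (HM j y hj hy).1
          exact mul_mem (mul_mem (mul_mem h1 h2) (inv_mem h1)) (inv_mem h2)
        · rcases le_total i j with hij | hij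
          · exact hQc i j hi hij h x hx y hy
          · rw [← commutatorElement_inv]
            exact inv_mem (hQc j i hj hij (by omega) y hy x hx) }
  have hdk : ⁅v, u⁆ ∈ D.F (b + a) := D.comm _ _ (by omega) (by omega) v hv u hu
  have key := hall_petresco (Fact.out : (q + 1).Prime) S Q
    (fun x hx => ((H2 _ x (by omega)).1 hx).2.2 le_rfl)
    (fun c hc => hQ (D.pow_one hp hk hd c
      (D.toNS.mono (by omega) (by omega) ((H2 2 c le_rfl).1 hc).2.1)))
    (x := v⁻¹) (y := ⁅v, u⁆) ((H1 _).2 ⟨inv_mem hvM, -1, by simp⟩)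
    ((H1 _).2 ⟨mul_mem (mul_mem (mul_mem hvM huM) (inv_mem hvM)) (inv_mem huM), 0, by
      simpa using hdk⟩)
  have e : v⁻¹ * ⁅v, u⁆ = u * v⁻¹ * u⁻¹ := by rw [commutatorElement_def]; group
  have e2 : (v⁻¹ ^ (q + 1))⁻¹ * (u * v⁻¹ ^ (q + 1) * u⁻¹) = ⁅v ^ (q + 1), u⁆ := by
    rw [commutatorElement_def, inv_pow]; group
  rw [e, conj_pow, e2] at key
  have hvw : v ^ (q + 1) ∈ D.F w :=
    (D.pre w (by omega) le_rfl _).2 (by rw [map_pow, hvp]; exact one_mem _)
  have h3 : ⁅v ^ (q + 1), u⁆ ∈ Q :=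
    hQ (D.toNS.mono (by omega) (by omega) (D.comm _ _ (by omega) (by omega) _ hvw _ hu))
  have h4 := inv_mem (mul_mem (inv_mem h3) key)
  rw [inv_mul_cancel_left, inv_inv] at h4
  exact h4.2

end Pool.Agent.P.MP_e06b60_al.R
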