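import Mathlib
import Pool.Agent.P.MP_e06b60_al.RA2

namespace Pool.Agent.P.MP_e06b60_al.R

open PowerSeries
open scoped commutatorElement

variable {p : ℕ} [Fact p.Prime]

theorem rq4_half (hp : 3 ≤ p) : (C (1 / 2 : ZMod p) : (ZMod p)⟦X⟧) * 2 = 1 := by
  have h2 : (2 : ZMod p) ≠ 0 := by
    intro h
    have h' : ((2 : ℕ) : ZMod p) = 0 := by exact_mod_cast h
    rw [ZMod.natCast_eq_zero_iff] at h'
    have := Nat.le_of_dvd (by norm_num) h'
    omega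
  have e : (2 : (ZMod p)⟦X⟧) = C (2 : ZMod p) := by
    rw [map_ofNat]
  rw [e, ← map_mul, one_div_mul_cancel h2, map_one]

theorem rq4_dx_shift (a : ZMod p) (B : (ZMod p)⟦X⟧) : dx (C a + X * B) = B + X * dx B := by
  unfold dx
  rw [map_add, derivative_C, Derivation.leibniz, derivative_X]
  simp only [smul_eq_mul]
  ring

theorem rq4_dx_dx_shift (B : (ZMod p)⟦X⟧) :
    dx (B + X * dx B) = dx B + dx B + X * dx (dx B) := by
  unfold dx
  rw [map_add, Derivation.leibniz, derivative_X]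
  simp only [smul_eq_mul]
  ring

theorem rq4_subst_shift (a : ZMod p) (B w : (ZMod p)⟦X⟧) (hw : coeff 0 w = 0) :
    ((C a + X * B).subst w : (ZMod p)⟦X⟧) = C a + w * B.subst w := by
  have hs := hasSubst_of hw
  rw [subst_add hs, subst_mul hs, subst_X hs, subst_C]
  rfl

theorem rq4_taylor (hp : 3 ≤ p) (u v : (ZMod p)⟦X⟧) (hu : coeff 0 u = 0) {m : ℕ} (hm : 1 ≤ m)
    (hv : X ^ m ∣ v) (N : ℕ) (hN : N ≤ 3 * m) (f : (ZMod p)⟦X⟧) :
    X ^ N ∣ (f.subst (u + v) : (ZMod p)⟦X⟧) - ((f.subst u : (ZMod p)⟦X⟧) +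
      ((dx f).subst u : (ZMod p)⟦X⟧) * v +
        C (1 / 2 : ZMod p) * ((dx (dx f)).subst u : (ZMod p)⟦X⟧) * v ^ 2) := by
  have hv0 : coeff 0 v = 0 := X_pow_dvd_iff.mp hv 0 (by omega)
  have huv : coeff 0 (u + v) = 0 := by rw [map_add, hu, hv0, add_zero]
  have hs := hasSubst_of hu
  induction N generalizing f with
  | zero => simp
  | succ N ih =>
    obtain ⟨B, hB⟩ := exists_shift f
    have ihB := ih (by omega) B
    have hX : (X : (ZMod p)⟦X⟧) ∣ u + v := X_dvd_iff.mpr (by simpa using huv)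
    have h1 : (X : (ZMod p)⟦X⟧) ^ (N + 1) ∣ (u + v) * ((B.subst (u + v) : (ZMod p)⟦X⟧) -
        ((B.subst u : (ZMod p)⟦X⟧) + ((dx B).subst u : (ZMod p)⟦X⟧) * v +
        C (1 / 2 : ZMod p) * ((dx (dx B)).subst u : (ZMod p)⟦X⟧) * v ^ 2)) := by
      rw [pow_succ']
      exact mul_dvd_mul hX ihB
    have h3 : (X : (ZMod p)⟦X⟧) ^ (N + 1) ∣ v ^ 3 := by
      refine (pow_dvd_pow X hN).trans ?_
      rw [mul_comm, pow_mul]
      exact pow_dvd_pow_of_dvd hv 3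
    have h2 := h3.mul_left (C (1 / 2 : ZMod p) * ((dx (dx B)).subst u : (ZMod p)⟦X⟧))
    have h4 := dvd_add h1 h2
    rw [hB, rq4_dx_shift, rq4_dx_dx_shift, rq4_subst_shift _ _ _ huv, rq4_subst_shift _ _ _ hu,
      subst_add hs, subst_add hs, subst_add hs, subst_mul hs, subst_mul hs, subst_X hs]
    refine h4.trans (dvd_of_eq ?_)
    linear_combination (((dx B).subst u : (ZMod p)⟦X⟧) * v ^ 2) * rq4_half hp

theorem taylor_two (hp : 3 ≤ p) (f u v : (ZMod p)⟦X⟧) (hu : coeff 0 u = 0) {m : ℕ} (hm : 1 ≤ m)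
    (hv : X ^ m ∣ v) : X ^ (3 * m) ∣ (f.subst (u + v) : (ZMod p)⟦X⟧) - ((f.subst u : (ZMod p)⟦X⟧) +
      ((dx f).subst u : (ZMod p)⟦X⟧) * v + C (1 / 2 : ZMod p) * ((dx (dx f)).subst u : (ZMod p)⟦X⟧) * v ^ 2) := by
  exact rq4_taylor hp u v hu hm hv (3 * m) le_rfl f

theorem rq4_dx_dvd {n : ℕ} {a : (ZMod p)⟦X⟧} (h : X ^ (n + 1) ∣ a) : X ^ n ∣ dx a := by
  rw [X_pow_dvd_iff] at h ⊢
  intro m hm
  unfold dx
  rw [coeff_derivative, h (m + 1) (by omega), zero_mul]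

theorem rq4_two (f : Nott p) : X ^ 2 ∣ f.1 - X := by
  have h : f ∈ Jn p 1 := by rw [Jn_one]; trivial
  exact mem_Jn.mp h

theorem rq4_key {n : ℕ} {a b : (ZMod p)⟦X⟧} (ha : X ^ 2 ∣ a) (hb : X ^ 2 ∣ b)
    (h : X ^ n ∣ a - b) : X ^ (n + 1) ∣ a * dx a - b * dx b := by
  have e : a * dx a - b * dx b = (a - b) * dx a + b * dx (a - b) := by
    unfold dx
    rw [map_sub]
    ring
  rw [e]
  refine dvd_add ?_ ?_
  · rw [pow_succ]
    refine mul_dvd_mul h ?_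
    simpa using rq4_dx_dvd (n := 1) ha
  · cases n with
    | zero => exact ((pow_dvd_pow X (by omega)).trans hb).mul_right _
    | succ n =>
      have e2 : (X : (ZMod p)⟦X⟧) ^ (n + 1 + 1) = X ^ 2 * X ^ n := by ring
      rw [e2]
      exact mul_dvd_mul hb (rq4_dx_dvd h)

theorem rq4_sq {j : ℕ} (hj : 1 ≤ j) {a : (ZMod p)⟦X⟧} (ha : X ^ (j + 1) ∣ a) :
    X ^ (j + 1 + 1) ∣ a * dx a := by
  have h2 : X ^ 2 ∣ a := (pow_dvd_pow X (by omega)).trans ha
  have := rq4_key (n := j + 1) (b := 0) h2 (dvd_zero _) (by simpa using ha)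
  simpa using this

theorem lg_lead {j : ℕ} (hj : 1 ≤ j) {f : Nott p} (hf : f ∈ Jn p j) :
    X ^ (j + 1) ∣ lg f ∧ coeff (j + 1) (lg f) = coeff (j + 1) f.1 := by
  have h1 := mem_Jn.mp hf
  have h2 := (rq4_sq hj h1).mul_left (C (1 / 2 : ZMod p))
  refine ⟨dvd_sub h1 ((pow_dvd_pow X (by omega)).trans h2), ?_⟩
  unfold lg
  rw [map_sub, X_pow_dvd_iff.mp h2 (j + 1) (by omega), map_sub, coeff_X, if_neg (by omega)]
  ring

theorem lg_congr {n : ℕ} {f g : Nott p} (h : X ^ n ∣ f.1 - g.1) : X ^ n ∣ lg f - lg g := by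
  have h1 : X ^ n ∣ (f.1 - X) - (g.1 - X) := by simpa using h
  have h2 := ((pow_dvd_pow X (Nat.le_succ n)).trans
    (rq4_key (rq4_two f) (rq4_two g) h1)).mul_left (C (1 / 2 : ZMod p))
  refine (dvd_sub h h2).trans (dvd_of_eq ?_)
  unfold lg
  ring

theorem lg_inj {n : ℕ} {f g : Nott p} (h : X ^ n ∣ lg f - lg g) : X ^ n ∣ f.1 - g.1 := by
  have key : ∀ k, k ≤ n → X ^ k ∣ f.1 - g.1 := by
    intro k
    induction k with
    | zero => intro _; simp
    | succ k ih =>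
      intro hk
      have h1 : X ^ k ∣ (f.1 - X) - (g.1 - X) := by simpa using ih (by omega)
      have h2 := (rq4_key (rq4_two f) (rq4_two g) h1).mul_left (C (1 / 2 : ZMod p))
      refine (dvd_add ((pow_dvd_pow X hk).trans h) h2).trans (dvd_of_eq ?_)
      unfold lg
      ring
  exact key n le_rfl

theorem lg_surj {j : ℕ} (hj : 1 ≤ j) {β : (ZMod p)⟦X⟧} (h : X ^ (j + 1) ∣ β) (n : ℕ) :
    ∃ f ∈ Jn p j, X ^ n ∣ lg f - β := by
  induction n with
  | zero => exact ⟨1, one_mem _, by simp⟩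
  | succ n ih =>
    obtain ⟨f, hf, hn⟩ := ih
    obtain ⟨a, ha⟩ : ∃ a : (ZMod p)⟦X⟧,
        a = β + C (1 / 2 : ZMod p) * ((f.1 - X) * dx (f.1 - X)) := ⟨_, rfl⟩
    have haj : X ^ (j + 1) ∣ a := by
      rw [ha]
      exact dvd_add h (((pow_dvd_pow X (Nat.le_succ _)).trans
        (rq4_sq hj (mem_Jn.mp hf))).mul_left _)
    have ha2 : X ^ 2 ∣ a := (pow_dvd_pow X (by omega)).trans haj
    have c0 : coeff 0 (X + a) = 0 := by
      rw [map_add, X_pow_dvd_iff.mp ha2 0 (by omega)]; simp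
    have c1 : coeff 1 (X + a) = 1 := by
      rw [map_add, X_pow_dvd_iff.mp ha2 1 (by omega)]; simp
    have e : (X + a) - X = a := by ring
    refine ⟨⟨X + a, c0, c1⟩, mem_Jn.mpr (by simpa using haj), ?_⟩
    have h1 : X ^ n ∣ (f.1 - X) - a := by
      refine hn.trans (dvd_of_eq ?_)
      rw [ha]
      unfold lg
      ring
    have h2 := (rq4_key (rq4_two f) ha2 h1).mul_left (C (1 / 2 : ZMod p))
    refine h2.trans (dvd_of_eq ?_)
    unfold lg
    simp only [e]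
    linear_combination (-1 : (ZMod p)⟦X⟧) * ha

end Pool.Agent.P.MP_e06b60_al.R
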