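import Mathlib
import Pool.Agent.P.MP_e06b60_al.RQ3
import Pool.Agent.P.MP_e06b60_al.RQ4

namespace Pool.Agent.P.MP_e06b60_al.R

open PowerSeries
open scoped commutatorElement

variable {p : ℕ} [Fact p.Prime]

theorem rq5_dx_dvd {n : ℕ} {a : (ZMod p)⟦X⟧} (h : X ^ (n + 1) ∣ a) : X ^ n ∣ dx a := by
  rw [X_pow_dvd_iff] at h ⊢
  intro m hm
  rw [dx, coeff_derivative, h (m + 1) (by omega), zero_mul]

theorem rq5_mul_dvd {m n k : ℕ} {a b : (ZMod p)⟦X⟧} (ha : X ^ m ∣ a) (hb : X ^ n ∣ b)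
    (hk : k ≤ m + n) : X ^ k ∣ a * b :=
  (pow_dvd_pow X hk).trans (by rw [pow_add]; exact mul_dvd_mul ha hb)

theorem rq5_dx_add (a b : (ZMod p)⟦X⟧) : dx (a + b) = dx a + dx b := map_add _ _ _

theorem rq5_dx_mul (a b : (ZMod p)⟦X⟧) : dx (a * b) = a * dx b + b * dx a := by
  rw [dx, Derivation.leibniz, smul_eq_mul, smul_eq_mul]

theorem rq5_two (hp : 3 ≤ p) : (2 : ZMod p) ≠ 0 := by
  intro h
  have h2 : ((2 : ℕ) : ZMod p) = 0 := by exact_mod_cast h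
  rw [ZMod.natCast_eq_zero_iff] at h2
  have := Nat.le_of_dvd (by norm_num) h2
  omega

theorem rq5_half (hp : 3 ≤ p) : (C (1 / 2 : ZMod p) : (ZMod p)⟦X⟧) * 2 = 1 := by
  have h2 : (2 : (ZMod p)⟦X⟧) = C (2 : ZMod p) := (map_ofNat C 2).symm
  rw [h2, ← map_mul, one_div_mul_cancel (rq5_two hp), map_one]

theorem rq5_cast (hp : 3 ≤ p) :
    (((p + 1) / 2 : ℕ) : (ZMod p)⟦X⟧) = C (1 / 2 : ZMod p) := by
  have hodd : Odd p := (Fact.out : p.Prime).odd_of_ne_two (by omega)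
  obtain ⟨k, hk⟩ := hodd
  have h1 : ((p + 1) / 2 : ℕ) * 2 = p + 1 := by omega
  have h2 : (((p + 1) / 2 : ℕ) : ZMod p) * 2 = 1 := by
    have := congrArg (fun n : ℕ => (n : ZMod p)) h1
    simpa using this
  rw [← map_natCast (C : ZMod p →+* (ZMod p)⟦X⟧), eq_div_of_mul_eq (rq5_two hp) h2]

/-- the truncated logarithm as a function of the series `f - X` -/
noncomputable def rq5_L (a : (ZMod p)⟦X⟧) : (ZMod p)⟦X⟧ := a - C (1 / 2 : ZMod p) * (a * dx a)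

theorem rq5_lg (f : Nott p) : lg f = rq5_L (f.1 - X) := rfl

theorem rq5_L_add {j : ℕ} {a e : (ZMod p)⟦X⟧} (ha : X ^ (j + 1) ∣ a) (he : X ^ (2 * j + 1) ∣ e) :
    X ^ (3 * j + 1) ∣ rq5_L (a + e) - (rq5_L a + e) := by
  have h1 : X ^ (3 * j + 1) ∣ a * dx e := rq5_mul_dvd ha (rq5_dx_dvd he) (by omega)
  have h2 : X ^ (3 * j + 1) ∣ e * dx a := rq5_mul_dvd he (rq5_dx_dvd ha) (by omega)
  have h3 : X ^ (3 * j + 1) ∣ e * dx e := rq5_mul_dvd he (rq5_dx_dvd he) (by omega)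
  have e1 : rq5_L (a + e) - (rq5_L a + e) =
      -C (1 / 2 : ZMod p) * (a * dx e + e * dx a + e * dx e) := by
    rw [rq5_L, rq5_L, rq5_dx_add]; ring
  rw [e1]
  exact Dvd.dvd.mul_left (dvd_add (dvd_add h1 h2) h3) _

theorem rq5_mul_val (f g : Nott p) : (f * g).1 = g.1 + ((f.1 - X).subst g.1 : (ZMod p)⟦X⟧) := by
  have hs := hasSubst_of g.2.1
  rw [mul_val, subst_sub hs, subst_X hs]; ring

theorem rq5_mul (hp : 3 ≤ p) {j : ℕ} (hj : 1 ≤ j) {f g : Nott p} (hf : f ∈ Jn p j)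
    (hg : g ∈ Jn p j) :
    X ^ (3 * j + 1) ∣ (f * g).1 - (g.1 + (f.1 - X) + dx (f.1 - X) * (g.1 - X)) := by
  have ht := taylor_two hp (f.1 - X) X (g.1 - X) (by simp) (m := j + 1) (by omega) (mem_Jn.mp hg)
  rw [X_subst, X_subst, X_subst, add_sub_cancel] at ht
  obtain ⟨i, rfl⟩ : ∃ i, j = i + 1 := ⟨j - 1, by omega⟩
  have h1 : X ^ i ∣ dx (dx (f.1 - X)) := rq5_dx_dvd (rq5_dx_dvd (mem_Jn.mp hf))
  have h2 : X ^ (2 * (i + 1) + 2) ∣ (g.1 - X) ^ 2 := by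
    rw [sq]; exact rq5_mul_dvd (mem_Jn.mp hg) (mem_Jn.mp hg) (by omega)
  have h3 : X ^ (3 * (i + 1) + 1) ∣ dx (dx (f.1 - X)) * (g.1 - X) ^ 2 :=
    rq5_mul_dvd h1 h2 (by omega)
  have h4 := dvd_add ((pow_dvd_pow X (by omega : 3 * (i + 1) + 1 ≤ 3 * (i + 1 + 1))).trans ht)
    (Dvd.dvd.mul_left h3 (C (1 / 2 : ZMod p)))
  rw [rq5_mul_val]
  refine (dvd_iff_dvd_of_dvd_sub ?_).mp h4
  ring_nf
  exact dvd_zero _

theorem rq5_mul_right (hp : 3 ≤ p) {j : ℕ} (hj : 1 ≤ j) {f c : Nott p} (hf : f ∈ Jn p j)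
    (hc : c ∈ Jn p (2 * j)) : X ^ (3 * j + 1) ∣ (f * c).1 - (f.1 + (c.1 - X)) := by
  have h1 := rq5_mul hp hj hf (Jn_anti (by omega) hc)
  have h2 : X ^ (3 * j + 1) ∣ dx (f.1 - X) * (c.1 - X) :=
    rq5_mul_dvd (rq5_dx_dvd (mem_Jn.mp hf)) (mem_Jn.mp hc) (by omega)
  have h3 := dvd_add h1 h2
  have e : (f * c).1 - (c.1 + (f.1 - X) + dx (f.1 - X) * (c.1 - X)) + dx (f.1 - X) * (c.1 - X) =
      (f * c).1 - (f.1 + (c.1 - X)) := by ring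
  rwa [e] at h3

theorem rq5_mul_left (hp : 3 ≤ p) {j : ℕ} (hj : 1 ≤ j) {f c : Nott p} (hf : f ∈ Jn p j)
    (hc : c ∈ Jn p (2 * j)) : X ^ (3 * j + 1) ∣ (c * f).1 - (f.1 + (c.1 - X)) := by
  have h1 := rq5_mul hp hj (Jn_anti (by omega) hc) hf
  have h2 : X ^ (3 * j + 1) ∣ dx (c.1 - X) * (f.1 - X) :=
    rq5_mul_dvd (rq5_dx_dvd (mem_Jn.mp hc)) (mem_Jn.mp hf) (by omega)
  have h3 := dvd_add h1 h2
  have e : (c * f).1 - (f.1 + (c.1 - X) + dx (c.1 - X) * (f.1 - X)) + dx (c.1 - X) * (f.1 - X) =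
      (c * f).1 - (f.1 + (c.1 - X)) := by ring
  rwa [e] at h3

theorem rq5_mul_pow (hp : 3 ≤ p) {j : ℕ} (hj : 1 ≤ j) {f c : Nott p} (hf : f ∈ Jn p j)
    (hc : c ∈ Jn p (2 * j)) (n : ℕ) :
    X ^ (3 * j + 1) ∣ (f * c ^ n).1 - (f.1 + (n : (ZMod p)⟦X⟧) * (c.1 - X)) := by
  induction n with
  | zero => simp
  | succ n ih =>
    have hm : f * c ^ n ∈ Jn p j :=
      (Jn p j).mul_mem hf ((Jn p j).pow_mem (Jn_anti (by omega) hc) n)
    have h1 := dvd_add (rq5_mul_right hp hj hm hc) ih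
    have e : (f * c ^ n * c).1 - ((f * c ^ n).1 + (c.1 - X)) +
        ((f * c ^ n).1 - (f.1 + (n : (ZMod p)⟦X⟧) * (c.1 - X))) =
        (f * c ^ (n + 1)).1 - (f.1 + ((n + 1 : ℕ) : (ZMod p)⟦X⟧) * (c.1 - X)) := by
      rw [pow_succ, ← mul_assoc]; push_cast; ring
    rwa [e] at h1

theorem lg_baer (hp : 3 ≤ p) {j : ℕ} (hj : 1 ≤ j) {f g : Nott p} (hf : f ∈ Jn p j) (hg : g ∈ Jn p j) :
    X ^ (3 * j + 1) ∣ lg (f * g * ⁅g, f⁆ ^ ((p + 1) / 2)) - (lg f + lg g) := by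
  have hc : ⁅g, f⁆ ∈ Jn p (2 * j) := by
    have := (comm_lead hj hj hg hf).1
    rwa [← two_mul] at this
  have hfg : f * g ∈ Jn p j := (Jn p j).mul_mem hf hg
  have h1 := rq5_mul_pow hp hj hfg hc ((p + 1) / 2)
  have h2 := rq5_mul_left hp hj hfg hc
  have e2 : ⁅g, f⁆ * (f * g) = g * f := by simp [commutatorElement_def, mul_assoc]
  rw [e2] at h2
  have h3 := rq5_mul hp hj hf hg
  have h4 := rq5_mul hp hj hg hf
  rw [rq5_cast hp] at h1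
  have hh := rq5_half hp
  rw [rq5_lg, rq5_lg, rq5_lg]
  have ha := mem_Jn.mp hf
  have hb := mem_Jn.mp hg
  generalize (f * g * ⁅g, f⁆ ^ ((p + 1) / 2)).1 = W at h1 ⊢
  generalize (⁅g, f⁆).1 = c at h1 h2
  generalize (f * g).1 = u at h1 h2 h3
  generalize (g * f).1 = u' at h2 h4
  obtain ⟨a, haf⟩ : ∃ a, f.1 = X + a := ⟨f.1 - X, by ring⟩
  obtain ⟨b, hbg⟩ : ∃ b, g.1 = X + b := ⟨g.1 - X, by ring⟩
  rw [haf] at h3 h4 ha ⊢
  rw [hbg] at h3 h4 hb ⊢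
  simp only [add_sub_cancel_left] at h3 h4 ha hb ⊢
  generalize hH : (C (1 / 2 : ZMod p) : (ZMod p)⟦X⟧) = H at h1 hh
  have h5 : X ^ (3 * j + 1) ∣ (W - X - (a + b)) - H * (dx a * b + dx b * a) := by
    have h6 := dvd_add (dvd_add (dvd_sub h1 (Dvd.dvd.mul_left h2 H)) (Dvd.dvd.mul_left h3 H))
      (Dvd.dvd.mul_left h4 H)
    have e : W - (u + H * (c - X)) - H * (u' - (u + (c - X))) + H * (u - (X + b + a + dx a * b)) +
        H * (u' - (X + a + b + dx b * a)) =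
        (W - X - (a + b)) - H * (dx a * b + dx b * a) := by
      linear_combination (u - X - a - b) * hh
    rwa [e] at h6
  have h7 : X ^ (2 * j + 1) ∣ H * (dx a * b + dx b * a) :=
    Dvd.dvd.mul_left (dvd_add (rq5_mul_dvd (rq5_dx_dvd ha) hb (by omega))
      (rq5_mul_dvd (rq5_dx_dvd hb) ha (by omega))) _
  have h8 : X ^ (2 * j + 1) ∣ W - X - (a + b) := by
    have := dvd_add ((pow_dvd_pow X (by omega : 2 * j + 1 ≤ 3 * j + 1)).trans h5) h7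
    rwa [sub_add_cancel] at this
  have h9 := dvd_add (rq5_L_add (dvd_add ha hb) h8) h5
  have e : rq5_L (a + b + (W - X - (a + b))) - (rq5_L (a + b) + (W - X - (a + b))) +
      ((W - X - (a + b)) - H * (dx a * b + dx b * a)) = rq5_L (W - X) - (rq5_L a + rq5_L b) := by
    rw [add_sub_cancel, rq5_L, rq5_L, rq5_L, rq5_L, rq5_dx_add, hH]; ring
  rwa [e] at h9

theorem lg_conj (hp : 3 ≤ p) {j : ℕ} (hj : 1 ≤ j) {f : Nott p} (hf : f ∈ Jn p j) (g : Nott p) :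
    X ^ (3 * j + 1) ∣ lg (g⁻¹ * f * g) - act g (lg f) := by
  have hs := hasSubst_of g.2.1
  have ha := mem_Jn.mp hf
  have hv : X ^ (j + 1) ∣ ((f.1 - X).subst g.1 : (ZMod p)⟦X⟧) := by
    obtain ⟨F, hF⟩ := ha
    rw [hF, subst_mul hs, subst_pow hs, subst_X hs]
    refine Dvd.dvd.mul_right (pow_dvd_pow_of_dvd ?_ _) _
    rw [X_dvd_iff]
    simpa using g.2.1
  have e1 : (g⁻¹ * f * g).1 =
      ((g⁻¹).1.subst (g.1 + ((f.1 - X).subst g.1 : (ZMod p)⟦X⟧)) : (ZMod p)⟦X⟧) := by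
    rw [mul_assoc, mul_val, rq5_mul_val]
  have e2 : ((g⁻¹).1.subst g.1 : (ZMod p)⟦X⟧) = X := by
    rw [← mul_val, inv_mul_cancel, one_val]
  have ht := taylor_two hp (g⁻¹).1 g.1 _ g.2.1 (m := j + 1) (by omega) hv
  rw [← e1, e2] at ht
  have e3 : ((dx (g⁻¹).1).subst g.1 : (ZMod p)⟦X⟧) * dx g.1 = 1 := by
    rw [dx, dx, ← derivative_subst hs, e2, derivative_X]
  have e4 : dx ((dx (g⁻¹).1).subst g.1 : (ZMod p)⟦X⟧) =
      ((dx (dx (g⁻¹).1)).subst g.1 : (ZMod p)⟦X⟧) * dx g.1 := derivative_subst hs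
  have e5 : dx ((f.1 - X).subst g.1 : (ZMod p)⟦X⟧) =
      ((dx (f.1 - X)).subst g.1 : (ZMod p)⟦X⟧) * dx g.1 := derivative_subst hs
  have e6 : (dx g.1)⁻¹ = ((dx (g⁻¹).1).subst g.1 : (ZMod p)⟦X⟧) := by
    have := dx_mul_inv g
    linear_combination ((dx (g⁻¹).1).subst g.1 : (ZMod p)⟦X⟧) * this - (dx g.1)⁻¹ * e3
  have e7 : act g (lg f) = (((f.1 - X).subst g.1 : (ZMod p)⟦X⟧) - C (1 / 2 : ZMod p) *
      (((f.1 - X).subst g.1 : (ZMod p)⟦X⟧) * ((dx (f.1 - X)).subst g.1 : (ZMod p)⟦X⟧))) *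
      ((dx (g⁻¹).1).subst g.1 : (ZMod p)⟦X⟧) := by
    rw [act, lg, e6, subst_sub hs (f.1 - X), subst_mul hs, subst_mul hs, subst_C]
    rfl
  rw [e7, rq5_lg]
  generalize (g⁻¹ * f * g).1 = W at ht ⊢
  generalize ((f.1 - X).subst g.1 : (ZMod p)⟦X⟧) = v at hv ht e5 ⊢
  generalize ((dx (g⁻¹).1).subst g.1 : (ZMod p)⟦X⟧) = A at ht e3 e4 ⊢
  generalize ((dx (dx (g⁻¹).1)).subst g.1 : (ZMod p)⟦X⟧) = B at ht e4
  generalize ((dx (f.1 - X)).subst g.1 : (ZMod p)⟦X⟧) = a' at e5 ⊢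
  generalize dx g.1 = d at e3 e4 e5
  generalize hH : (C (1 / 2 : ZMod p) : (ZMod p)⟦X⟧) = H at ht ⊢
  have h1 : X ^ (3 * j + 1) ∣ (W - X - A * v) - H * B * v ^ 2 := by
    have := (pow_dvd_pow X (by omega : 3 * j + 1 ≤ 3 * (j + 1))).trans ht
    have e : W - (X + A * v + H * B * v ^ 2) = (W - X - A * v) - H * B * v ^ 2 := by ring
    rwa [e] at this
  have h2 : X ^ (2 * j + 1) ∣ H * B * v ^ 2 := by
    rw [sq]; exact Dvd.dvd.mul_left (rq5_mul_dvd hv hv (by omega)) _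
  have h3 : X ^ (2 * j + 1) ∣ W - X - A * v := by
    have := dvd_add ((pow_dvd_pow X (by omega : 2 * j + 1 ≤ 3 * j + 1)).trans h1) h2
    rwa [sub_add_cancel] at this
  have h4 := dvd_add (rq5_L_add (Dvd.dvd.mul_left hv A) h3) h1
  have e : rq5_L (A * v + (W - X - A * v)) - (rq5_L (A * v) + (W - X - A * v)) +
      ((W - X - A * v) - H * B * v ^ 2) = rq5_L (W - X) - (v - H * (v * a')) * A := by
    rw [add_sub_cancel, rq5_L, rq5_L, rq5_dx_mul, e4, e5, hH]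
    linear_combination (H * A * v * a' + H * B * v ^ 2) * e3
  rwa [e] at h4

end Pool.Agent.P.MP_e06b60_al.R
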