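import Mathlib
import Pool.Agent.P.MP_e06b60_al.RA2

namespace Pool.Agent.P.MP_e06b60_al.R

open PowerSeries
open scoped commutatorElement

section
variable {Q : Type} [Group Q]

/-- the commutator as an element of the centre -/
def rq2_k (hc : ∀ a b c : Q, Commute ⁅a, b⁆ c) (a b : Q) : Subgroup.center Q :=
  ⟨⁅a, b⁆, Subgroup.mem_center_iff.2 fun c => (hc a b c).eq.symm⟩

theorem rq2_cen (u : Subgroup.center Q) (x : Q) : (u : Q) * x = x * u :=
  (Subgroup.mem_center_iff.1 u.2 x).symm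

theorem rq2_cc (u v : Subgroup.center Q) : Commute u v :=
  Subtype.ext (rq2_cen u v)

theorem rq2_left (hc : ∀ a b c : Q, Commute ⁅a, b⁆ c) (a b c : Q) :
    rq2_k hc (a * b) c = rq2_k hc a c * rq2_k hc b c := by
  apply Subtype.ext
  change ⁅a * b, c⁆ = ⁅a, c⁆ * ⁅b, c⁆
  have h1 : ⁅a * b, c⁆ = a * ⁅b, c⁆ * a⁻¹ * ⁅a, c⁆ := by
    simp [commutatorElement_def, mul_assoc]
  rw [h1, ← (hc b c a).eq, mul_inv_cancel_right, (hc b c _).eq]

theorem rq2_swap (hc : ∀ a b c : Q, Commute ⁅a, b⁆ c) (a b : Q) :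
    rq2_k hc b a = (rq2_k hc a b)⁻¹ := by
  apply Subtype.ext
  change ⁅b, a⁆ = ⁅a, b⁆⁻¹
  rw [commutatorElement_inv]

theorem rq2_right (hc : ∀ a b c : Q, Commute ⁅a, b⁆ c) (a b c : Q) :
    rq2_k hc a (b * c) = rq2_k hc a b * rq2_k hc a c := by
  rw [rq2_swap hc (b * c) a, rq2_left, mul_inv_rev, ← rq2_swap, ← rq2_swap, (rq2_cc _ _).eq]

theorem rq2_cen_left (hc : ∀ a b c : Q, Commute ⁅a, b⁆ c) (u : Subgroup.center Q) (c : Q) :
    rq2_k hc u c = 1 := by
  apply Subtype.ext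
  change ⁅(u : Q), c⁆ = 1
  exact commutatorElement_eq_one_iff_mul_comm.2 (rq2_cen u c)

theorem rq2_cen_right (hc : ∀ a b c : Q, Commute ⁅a, b⁆ c) (u : Subgroup.center Q) (c : Q) :
    rq2_k hc c u = 1 := by
  rw [rq2_swap, rq2_cen_left, inv_one]

theorem rq2_of_comm (hc : ∀ a b c : Q, Commute ⁅a, b⁆ c) {a b : Q} (h : Commute a b) :
    rq2_k hc a b = 1 := by
  apply Subtype.ext
  change ⁅a, b⁆ = 1
  exact commutatorElement_eq_one_iff_commute.2 h

theorem rq2_form0 {K V : Type} [Field K] [AddCommGroup V] [Module K V]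
    {z : V} (hz : z ≠ 0) : ∃ l : V → K, (∀ x y, l (x + y) = l x + l y) ∧ l z = 1 := by
  obtain ⟨f, hf⟩ := Module.Projective.exists_dual_eq_one K hz
  exact ⟨fun x => f x, fun x y => f.map_add x y, hf⟩

theorem rq2_form {p : ℕ} [Fact p.Prime] {V : Type} [AddCommGroup V] (h : ∀ x : V, p • x = 0)
    {z : V} (hz : z ≠ 0) : ∃ l : V → ZMod p, (∀ x y, l (x + y) = l x + l y) ∧ l z = 1 := by
  exact @rq2_form0 (ZMod p) V _ _ (AddCommGroup.zmodModule h) z hz

theorem rq2_baer {p : ℕ} [Fact p.Prime] (hp : 3 ≤ p) (hc : ∀ a b c : Q, Commute ⁅a, b⁆ c)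
    (he : ∀ a : Q, a ^ p = 1) {z : Q} (hz : z ≠ 1) : ∃ l : Q → ZMod p,
      (∀ x y, l (x * y * ⁅y, x⁆ ^ ((p + 1) / 2)) = l x + l y) ∧ l z = 1 := by
  set h := (p + 1) / 2 with hh
  have hodd : p % 2 = 1 := by
    rcases (Fact.out : p.Prime).eq_two_or_odd with h2 | h2
    · omega
    · exact h2
  have h2 : h + h = p + 1 := by omega
  let iA : Add Q := ⟨fun a b => a * b * ((rq2_k hc b a ^ h : Subgroup.center Q) : Q)⟩
  let iZ : Zero Q := ⟨1⟩
  let iN : Neg Q := ⟨fun a => a⁻¹⟩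
  have hadd : ∀ a b : Q, a + b = a * b * ((rq2_k hc b a ^ h : Subgroup.center Q) : Q) :=
    fun _ _ => rfl
  have hcm : ∀ a b : Q, Commute a b → a + b = a * b := by
    intro a b hab
    rw [hadd, rq2_of_comm hc hab.symm, one_pow, Subgroup.coe_one, mul_one]
  have hass : ∀ a b c : Q, a + b + c = a + (b + c) := by
    intro a b c
    simp only [hadd, rq2_left, rq2_right, rq2_cen_left, rq2_cen_right, mul_one]
    rw [mul_assoc (a * b), rq2_cen _ c]
    simp only [mul_assoc]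
    congr 3
    rw [← Subgroup.coe_mul, ← Subgroup.coe_mul]
    congr 1
    rw [(rq2_cc _ _).mul_pow, (rq2_cc _ _).mul_pow, ← mul_assoc, (rq2_cc _ (rq2_k hc c b ^ h)).eq]
  have hcomm : ∀ a b : Q, a + b = b + a := by
    intro a b
    rw [hadd, hadd]
    have h1 : a * b = b * a * (rq2_k hc a b : Subgroup.center Q) := by
      rw [← rq2_cen]
      change a * b = ⁅a, b⁆ * (b * a)
      simp [commutatorElement_def, mul_assoc]
    rw [h1, mul_assoc (b * a), ← Subgroup.coe_mul]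
    congr 2
    have h3 : rq2_k hc a b ^ p = 1 := Subtype.ext (he _)
    rw [rq2_swap hc a b, inv_pow, mul_inv_eq_iff_eq_mul, ← pow_add, h2, pow_succ, h3, one_mul]
  let iG : AddGroup Q := AddGroup.ofLeftAxioms hass
    (fun a => (hcm _ _ (Commute.one_left a)).trans (one_mul a))
    (fun a => (hcm _ _ (Commute.refl a).inv_left).trans (inv_mul_cancel a))
  let iC : AddCommGroup Q := { iG with add_comm := hcomm }
  have hn : ∀ (n : ℕ) (a : Q), n • a = a ^ n := by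
    intro n a
    induction n with
    | zero => rw [zero_nsmul, pow_zero]; rfl
    | succ n ih =>
      rw [succ_nsmul, ih, pow_succ]
      exact hcm _ _ ((Commute.refl a).pow_left n)
  exact @rq2_form p _ Q iC (fun x => by rw [hn, he]; rfl) z hz

end

variable {p : ℕ} [Fact p.Prime] {G : Type} [Group G]

theorem exists_baer (hp : 3 ≤ p) (B N : Subgroup G) [N.Normal] (hNB : N ≤ B)
    (h2 : ∀ x ∈ B, ∀ y ∈ B, ∀ z ∈ B, ⁅⁅x, y⁆, z⁆ ∈ N) (hexp : ∀ x ∈ B, x ^ p ∈ N) {z : G}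
    (hz : z ∈ B) (hzN : z ∉ N) : ∃ lam : G → ZMod p,
      (∀ x ∈ B, ∀ y ∈ B, lam (x * y * ⁅y, x⁆ ^ ((p + 1) / 2)) = lam x + lam y) ∧
      (∀ x ∈ B, ∀ n ∈ N, lam (x * n) = lam x) ∧ lam z = 1 := by
  classical
  let π : G →* G ⧸ N := QuotientGroup.mk' N
  have hπ : ∀ x : G, π x = 1 ↔ x ∈ N := fun x => QuotientGroup.eq_one_iff x
  have hc : ∀ a b c : B.map π, Commute ⁅a, b⁆ c := by
    rintro ⟨_, a, ha, rfl⟩ ⟨_, b, hb, rfl⟩ ⟨_, c, hc, rfl⟩
    apply commutatorElement_eq_one_iff_commute.1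
    apply Subtype.ext
    have := (hπ _).2 (h2 a ha b hb c hc)
    simpa [commutatorElement_def] using this
  have he : ∀ a : B.map π, a ^ p = 1 := by
    rintro ⟨_, a, ha, rfl⟩
    apply Subtype.ext
    have := (hπ _).2 (hexp a ha)
    simpa using this
  have hz1 : (⟨π z, Subgroup.mem_map_of_mem π hz⟩ : B.map π) ≠ 1 := fun h =>
    hzN ((hπ z).1 (congrArg Subtype.val h))
  obtain ⟨l, hl, hl1⟩ := rq2_baer hp hc he hz1
  refine ⟨fun x => if hx : x ∈ B then l ⟨π x, Subgroup.mem_map_of_mem π hx⟩ else 0, ?_, ?_, ?_⟩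
  · intro x hx y hy
    have hxy : x * y * ⁅y, x⁆ ^ ((p + 1) / 2) ∈ B := by
      refine B.mul_mem (B.mul_mem hx hy) (B.pow_mem ?_ _)
      rw [commutatorElement_def]
      exact B.mul_mem (B.mul_mem (B.mul_mem hy hx) (B.inv_mem hy)) (B.inv_mem hx)
    simp only [dif_pos hx, dif_pos hy, dif_pos hxy]
    rw [← hl]
    congr 1
  · intro x hx n hn
    have hxn : x * n ∈ B := B.mul_mem hx (hNB hn)
    simp only [dif_pos hx, dif_pos hxn]
    congr 2
    rw [map_mul, (hπ n).2 hn, mul_one]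
  · simp only [dif_pos hz]
    exact hl1

end Pool.Agent.P.MP_e06b60_al.R
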