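import Mathlib
import Pool.Agent.P.MP_e06b60_al.RQ1
import Pool.Agent.P.MP_e06b60_al.RQ2
import Pool.Agent.P.MP_e06b60_al.RQ4

namespace Pool.Agent.P.MP_e06b60_al.R

open PowerSeries
open scoped commutatorElement

variable {p k : ℕ} [Fact p.Prime] {G : Type} [Group G]

theorem rq6_num (hp : 7 ≤ p) (hk : 3 ≤ k) : k + 2 ≤ k * p / 3 + 1 ∧ k * p / 3 + 1 ≤ k * p ∧
    k * p + 1 ≤ (k * p / 3 + 1) + (k * p / 3 + 1) + (k * p / 3 + 1) := by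
  have : k * 7 ≤ k * p := Nat.mul_le_mul_left k hp
  omega

theorem rq6_one (D : AD p k G) (x : G) : x ∈ D.F 1 := by
  rw [D.top]; trivial

theorem rq6_normal (D : AD p k G) {n : ℕ} (hn : 1 ≤ n) : (D.F n).Normal :=
  ⟨fun _ hx g => D.toNS.conj_mem hn hx (rq6_one D g)⟩

theorem rq6_span (D : AD p k G) {n : ℕ} (hn : 1 ≤ n) (hw : n < k * p) {y : G} (hy : y ∈ D.F n) :
    y * (D.g n ^ (coeff (n + 1) (D.θ y).1).val)⁻¹ ∈ D.F (n + 1) := by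
  obtain ⟨hg, hg1⟩ := D.g_mem n hn hw.le
  have hyJ : D.θ y ∈ (JW p).F n := (D.pre n hn hw.le y).mp hy
  have hgJ : D.θ (D.g n) ∈ (JW p).F n := (D.pre n hn hw.le _).mp hg
  rw [D.pre (n + 1) (by omega) hw, map_mul, map_inv, map_pow]
  refine (JW p).cg_of_lead JW_ker hn hyJ (Subgroup.pow_mem _ hgJ _) ?_
  rw [((JW p).isFun n hn).pow hgJ, JW_lead, JW_lead, hg1, ZMod.natCast_zmod_val, mul_one]

theorem AD.exists_lam (hp : 7 ≤ p) (hk : 3 ≤ k) (D : AD p k G) : ∃ lam : G → ZMod p,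
    (∀ x ∈ D.F (k * p / 3 + 1), ∀ y ∈ D.F (k * p / 3 + 1),
      lam (x * y * ⁅y, x⁆ ^ ((p + 1) / 2)) = lam x + lam y) ∧
    (∀ x ∈ D.F (k * p / 3 + 1), ∀ n ∈ D.F (k * p + 1), lam (x * n) = lam x) ∧ lam D.z = 1 := by
  obtain ⟨h1, h2, h3⟩ := rq6_num hp hk
  haveI := rq6_normal D (n := k * p + 1) (by omega)
  refine exists_baer (by omega) (D.F (k * p / 3 + 1)) (D.F (k * p + 1))
    (D.toNS.mono (by omega) (by omega)) ?_ ?_ (D.toNS.mono (by omega) h2 D.z_mem) D.z_not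
  · intro x hx y hy z hz
    exact D.toNS.mono (by omega) h3
      (D.comm _ _ (by omega) (by omega) _ (D.comm _ _ (by omega) (by omega) _ hx _ hy) _ hz)
  · intro x hx
    exact D.pow_two hp hk x (D.toNS.mono (by omega) h1 hx)

theorem AD.lam_mul (hp : 7 ≤ p) (hk : 3 ≤ k) (D : AD p k G) {lam : G → ZMod p}
    (hadd : ∀ x ∈ D.F (k * p / 3 + 1), ∀ y ∈ D.F (k * p / 3 + 1),
      lam (x * y * ⁅y, x⁆ ^ ((p + 1) / 2)) = lam x + lam y)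
    (hinv : ∀ x ∈ D.F (k * p / 3 + 1), ∀ n ∈ D.F (k * p + 1), lam (x * n) = lam x) :
    ∀ x ∈ D.F (k * p / 3 + 1), ∀ y ∈ D.F (k * p / 3 + 1), ⁅x, y⁆ ∈ D.F (k * p + 1) →
      lam (x * y) = lam x + lam y := by
  intro x hx y hy hxy
  have h1 : ⁅y, x⁆ ∈ D.F (k * p + 1) := by
    rw [← commutatorElement_inv]; exact Subgroup.inv_mem _ hxy
  rw [← hadd x hx y hy, hinv (x * y) (Subgroup.mul_mem _ hx hy) _ (Subgroup.pow_mem _ h1 _)]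

theorem AD.lam_isFun (hp : 7 ≤ p) (hk : 3 ≤ k) (D : AD p k G) {lam : G → ZMod p}
    (hadd : ∀ x ∈ D.F (k * p / 3 + 1), ∀ y ∈ D.F (k * p / 3 + 1),
      lam (x * y * ⁅y, x⁆ ^ ((p + 1) / 2)) = lam x + lam y)
    (hinv : ∀ x ∈ D.F (k * p / 3 + 1), ∀ n ∈ D.F (k * p + 1), lam (x * n) = lam x) :
    IsFun p D.toNS (k * p) lam := by
  obtain ⟨h1, h2, h3⟩ := rq6_num hp hk
  have hm := D.lam_mul hp hk hadd hinv
  constructor
  · intro x hx y hy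
    exact hm x (D.toNS.mono (by omega) h2 hx) y (D.toNS.mono (by omega) h2 hy)
      (D.toNS.mono (by omega) (by omega) (D.comm _ _ (by omega) (by omega) _ hx _ hy))
  · intro x hx
    have e1 := hm 1 (Subgroup.one_mem _) 1 (Subgroup.one_mem _) (by simp)
    have e2 := hinv 1 (Subgroup.one_mem _) x hx
    rw [one_mul] at e1 e2
    rw [e2]
    linear_combination -e1

theorem rq6_cen (hp : 7 ≤ p) (hk : 3 ≤ k) (D : AD p k G) {lam : G → ZMod p}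
    (hadd : ∀ x ∈ D.F (k * p / 3 + 1), ∀ y ∈ D.F (k * p / 3 + 1),
      lam (x * y * ⁅y, x⁆ ^ ((p + 1) / 2)) = lam x + lam y)
    (hinv : ∀ x ∈ D.F (k * p / 3 + 1), ∀ n ∈ D.F (k * p + 1), lam (x * n) = lam x)
    {x c : G} (hx : x ∈ D.F (k * p / 3 + 1)) (hc : c ∈ D.F (k * p)) :
    lam (x * c) = lam x + lam c := by
  obtain ⟨h1, h2, h3⟩ := rq6_num hp hk
  exact D.lam_mul hp hk hadd hinv x hx c (D.toNS.mono (by omega) h2 hc)
    (D.toNS.mono (by omega) (by omega) (D.comm _ _ (by omega) (by omega) _ hx _ hc))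

theorem AD.eta_wd (hp : 7 ≤ p) (hk : 3 ≤ k) (D : AD p k G) {lam : G → ZMod p}
    (hadd : ∀ x ∈ D.F (k * p / 3 + 1), ∀ y ∈ D.F (k * p / 3 + 1),
      lam (x * y * ⁅y, x⁆ ^ ((p + 1) / 2)) = lam x + lam y)
    (hinv : ∀ x ∈ D.F (k * p / 3 + 1), ∀ n ∈ D.F (k * p + 1), lam (x * n) = lam x)
    {x x' g g' : G} (hx : x ∈ D.F (k * p / 3 + 1)) (hx' : x' ∈ D.F (k * p / 3 + 1))
    (h : X ^ (k * p + 2) ∣ lg (D.θ x) - lg (D.θ x')) (hg : D.θ g = D.θ g') :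
    lam (g⁻¹ * x * g) - lam x = lam (g'⁻¹ * x' * g') - lam x' := by
  obtain ⟨h1, h2, h3⟩ := rq6_num hp hk
  have hF := D.lam_isFun hp hk hadd hinv
  have hw : 1 ≤ k * p := by omega
  have hc0 : x'⁻¹ * x ∈ D.F (k * p) := by
    rw [D.pre _ hw le_rfl, map_mul, map_inv]
    exact Jn_anti (Nat.le_succ _) (inv_mul_mem_Jn (lg_inj h))
  have hu0 : g'⁻¹ * g ∈ D.F (k * p) := by
    rw [D.pre _ hw le_rfl, map_mul, map_inv, hg, inv_mul_cancel]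
    exact Subgroup.one_mem _
  obtain ⟨c, hc, rfl⟩ : ∃ c ∈ D.F (k * p), x = x' * c := ⟨_, hc0, by group⟩
  obtain ⟨u, hu, rfl⟩ : ∃ u ∈ D.F (k * p), g = g' * u := ⟨_, hu0, by group⟩
  clear hc0 hu0
  have ha : g'⁻¹ * x' * g' ∈ D.F (k * p / 3 + 1) := by
    simpa using D.toNS.conj_mem (by omega) hx' (rq6_one D g'⁻¹)
  have hc' : g'⁻¹ * c * g' ∈ D.F (k * p) := by
    simpa using D.toNS.conj_mem (by omega) hc (rq6_one D g'⁻¹)
  have hy : g'⁻¹ * x' * g' * (g'⁻¹ * c * g') ∈ D.F (k * p / 3 + 1) :=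
    Subgroup.mul_mem _ ha (D.toNS.mono (by omega) h2 hc')
  have e : (g' * u)⁻¹ * (x' * c) * (g' * u) = g'⁻¹ * x' * g' * (g'⁻¹ * c * g') *
      ⁅(g'⁻¹ * x' * g' * (g'⁻¹ * c * g'))⁻¹, u⁻¹⁆ := by
    simp only [commutatorElement_def]; group
  have hcc : lam (g'⁻¹ * c * g') = lam c := by
    simpa using hF.conj hw hc (rq6_one D g'⁻¹)
  rw [e, hinv _ hy _ (D.toNS.mono (by omega) (by omega)
    (D.comm _ _ (by omega) hw _ (Subgroup.inv_mem _ hy) _ (Subgroup.inv_mem _ hu))),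
    rq6_cen hp hk D hadd hinv ha hc', rq6_cen hp hk D hadd hinv hx' hc, hcc]
  ring

theorem AD.exists_lift (hp : 7 ≤ p) (hk : 3 ≤ k) (D : AD p k G) {j : ℕ} (hj : 1 ≤ j) (hw : j ≤ k * p)
    {β : (ZMod p)⟦X⟧} (h : X ^ (j + 1) ∣ β) : ∃ x ∈ D.F j, X ^ (k * p + 2) ∣ lg (D.θ x) - β := by
  obtain ⟨f, hf, hfβ⟩ := lg_surj hj h (k * p + 2)
  obtain ⟨x, rfl⟩ := D.surj f
  exact ⟨x, (D.pre j hj hw x).mpr hf, hfβ⟩

theorem AD.eta_top (hp : 7 ≤ p) (hk : 3 ≤ k) (D : AD p k G) {lam : G → ZMod p}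
    (hadd : ∀ x ∈ D.F (k * p / 3 + 1), ∀ y ∈ D.F (k * p / 3 + 1),
      lam (x * y * ⁅y, x⁆ ^ ((p + 1) / 2)) = lam x + lam y)
    (hinv : ∀ x ∈ D.F (k * p / 3 + 1), ∀ n ∈ D.F (k * p + 1), lam (x * n) = lam x)
    (hz : lam D.z = 1) {i j : ℕ} (hi : 1 ≤ i) (hj : k * p / 3 + 1 ≤ j) (hij : i + j = k * p)
    {g x : G} (hg : g ∈ D.F i) (hx : x ∈ D.F j) : lam (g⁻¹ * x * g) - lam x =
      coeff (i + 1) (D.θ g).1 * coeff (j + 1) (D.θ x).1 *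
        (- lam (D.g (k * p)) * (2 * i - (k * p : ℕ)) + (-1) * i ^ 3) := by
  obtain ⟨h1, h2, h3⟩ := rq6_num hp hk
  have hF := D.lam_isFun hp hk hadd hinv
  have hw : 1 ≤ k * p := by omega
  have hj1 : 1 ≤ j := by omega
  have hji : j + i = k * p := by omega
  have e : g⁻¹ * x * g = x * ⁅x⁻¹, g⁻¹⁆ := by
    simp only [commutatorElement_def]; group
  have hc : ⁅x⁻¹, g⁻¹⁆ ∈ D.F (k * p) := by
    rw [← hji]
    exact D.comm _ _ hj1 hi _ (Subgroup.inv_mem _ hx) _ (Subgroup.inv_mem _ hg)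
  obtain ⟨hgi, -⟩ := D.g_mem i hi (by omega)
  obtain ⟨hgj, -⟩ := D.g_mem j hj1 (by omega)
  obtain ⟨hgw, -⟩ := D.g_mem (k * p) hw le_rfl
  have e1 : lam ⁅x⁻¹, g⁻¹⁆ = - lam ⁅g, x⁆ := by
    rw [hF.comm_inv_left hj1 hi hji hx (Subgroup.inv_mem _ hg), hF.comm_inv_right hj1 hi hji hx hg,
      neg_neg, hF.comm_anti hi hj1 hij hg hx]
  have e2 : lam ⁅g, x⁆ = coeff (i + 1) (D.θ g).1 * (coeff (j + 1) (D.θ x).1 * lam ⁅D.g i, D.g j⁆) := by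
    rw [hF.comm_congr_left hi hj1 hij (Subgroup.pow_mem _ hgi _) (rq6_span D hi (by omega) hg) hx,
      hF.comm_pow_left hi hj1 hij hgi hx,
      hF.comm_congr_right hi hj1 hij hgi (Subgroup.pow_mem _ hgj _) (rq6_span D hj1 (by omega) hx),
      hF.comm_pow_right hi hj1 hij hgi hgj, ZMod.natCast_zmod_val, ZMod.natCast_zmod_val]
  have e3 : lam ⁅D.g i, D.g j⁆ = ((i : ZMod p) - j) * lam (D.g (k * p)) + (i : ZMod p) ^ 3 := by
    rw [hF.congr hw (Subgroup.mul_mem _ (Subgroup.zpow_mem _ hgw _) (Subgroup.pow_mem _ D.z_mem _))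
      (D.rel i j hi hj1 hij), hF.mul _ (Subgroup.zpow_mem _ hgw _) _ (Subgroup.pow_mem _ D.z_mem _),
      hF.zpow hgw, hF.pow D.z_mem, hz]
    push_cast
    ring
  have e4 : ((k * p : ℕ) : ZMod p) = i + j := by rw [← hij]; push_cast; ring
  rw [e, rq6_cen hp hk D hadd hinv (D.toNS.mono (by omega) hj hx) hc, e1, e2, e3, e4]
  ring

end Pool.Agent.P.MP_e06b60_al.R
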