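import Mathlib
import Pool.Agent.P.MP_e06b60_al.RQ5
import Pool.Agent.P.MP_e06b60_al.RQ6

namespace Pool.Agent.P.MP_e06b60_al.R

open PowerSeries
open scoped commutatorElement

variable {p k : ℕ} [Fact p.Prime] {G : Type} [Group G]

theorem rq7_conj (D : AD p k G) {n : ℕ} (hn : 1 ≤ n) {x : G} (hx : x ∈ D.F n) (s : G) :
    s⁻¹ * x * s ∈ D.F n := by
  have h := D.toNS.conj_mem hn hx (g := s⁻¹) (by rw [D.top]; trivial)
  rwa [inv_inv] at h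

theorem rq7_baer (x y s : G) (n : ℕ) : s⁻¹ * (x * y * ⁅y, x⁆ ^ n) * s =
    s⁻¹ * x * s * (s⁻¹ * y * s) * ⁅s⁻¹ * y * s, s⁻¹ * x * s⁆ ^ n := by
  have h1 : ⁅s⁻¹ * y * s, s⁻¹ * x * s⁆ = s⁻¹ * ⁅y, x⁆ * s⁻¹⁻¹ := by
    simp only [commutatorElement_def]
    group
  rw [h1, conj_pow]
  group

theorem rq7_lg_one : lg (1 : Nott p) = 0 := by
  simp [lg, one_val]

theorem rq7_eta (hp : 7 ≤ p) (hk : 3 ≤ k) (D : AD p k G) {lam : G → ZMod p}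
    (hadd : ∀ x ∈ D.F (k * p / 3 + 1), ∀ y ∈ D.F (k * p / 3 + 1),
      lam (x * y * ⁅y, x⁆ ^ ((p + 1) / 2)) = lam x + lam y)
    (hinv : ∀ x ∈ D.F (k * p / 3 + 1), ∀ n ∈ D.F (k * p + 1), lam (x * n) = lam x) :
    ∃ η : Nott p → (ZMod p)⟦X⟧ → ZMod p, ∀ x ∈ D.F (k * p / 3 + 1), ∀ β,
      X ^ (k * p + 2) ∣ lg (D.θ x) - β → ∀ s, η (D.θ s) β = lam (s⁻¹ * x * s) - lam x := by
  classical
  choose sec hsec using D.surj
  have h : ∀ β : (ZMod p)⟦X⟧, ∃ x' : G,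
      (∃ x ∈ D.F (k * p / 3 + 1), X ^ (k * p + 2) ∣ lg (D.θ x) - β) →
        x' ∈ D.F (k * p / 3 + 1) ∧ X ^ (k * p + 2) ∣ lg (D.θ x') - β := by
    intro β
    by_cases hb : ∃ x ∈ D.F (k * p / 3 + 1), X ^ (k * p + 2) ∣ lg (D.θ x) - β
    · obtain ⟨x, hx⟩ := hb
      exact ⟨x, fun _ => hx⟩
    · exact ⟨1, fun h => absurd h hb⟩
  choose lift hlift using h
  refine ⟨fun g β => lam ((sec g)⁻¹ * lift β * sec g) - lam (lift β), fun x hx β hβ s => ?_⟩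
  obtain ⟨h1, h2⟩ := hlift β ⟨x, hx, hβ⟩
  refine D.eta_wd hp hk hadd hinv h1 hx ?_ (hsec _)
  have h3 := dvd_sub h2 hβ
  rwa [sub_sub_sub_cancel_right] at h3

theorem AD.exists_eta (hp : 7 ≤ p) (hk : 3 ≤ k) (D : AD p k G) :
    ∃ (lam : G → ZMod p) (η : Nott p → (ZMod p)⟦X⟧ → ZMod p), Eta (k * p) (k * p / 3 + 1) η ∧
      (∀ x ∈ D.F (k * p / 3 + 1), ∀ y ∈ D.F (k * p / 3 + 1), ⁅x, y⁆ ∈ D.F (k * p + 1) →
        lam (x * y) = lam x + lam y) ∧ (∀ x ∈ D.F (k * p + 1), lam x = 0) ∧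
      ∀ x ∈ D.F (k * p / 3 + 1), ∀ g, lam (g⁻¹ * x * g) - lam x = η (D.θ g) (lg (D.θ x)) := by
  obtain ⟨lam, hadd, hinv, hz⟩ := D.exists_lam hp hk
  obtain ⟨η, hη⟩ := rq7_eta hp hk D hadd hinv
  have hw : 21 ≤ k * p := le_trans (by norm_num) (Nat.mul_le_mul hk hp)
  have hj1 : 1 ≤ k * p / 3 + 1 := by omega
  have hjw : k * p / 3 + 1 ≤ k * p := by omega
  have h3 : (X : (ZMod p)⟦X⟧) ^ (k * p + 2) ∣ X ^ (3 * (k * p / 3 + 1) + 1) :=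
    pow_dvd_pow _ (by omega)
  have hp3 : 3 ≤ p := by omega
  refine ⟨lam, η, ⟨?_, ?_, ?_, ?_⟩, D.lam_mul hp hk hadd hinv, (D.lam_isFun hp hk hadd hinv).zero,
    fun x hx g => (hη x hx _ (by rw [sub_self]; exact dvd_zero _) g).symm⟩
  · intro g β γ hβ hγ
    obtain ⟨s, rfl⟩ := D.surj g
    obtain ⟨x, hx, hxβ⟩ := D.exists_lift hp hk hj1 hjw hβ
    obtain ⟨y, hy, hyγ⟩ := D.exists_lift hp hk hj1 hjw hγ
    have hc : ⁅y, x⁆ ∈ D.F (k * p / 3 + 1) :=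
      D.toNS.mono hj1 (Nat.le_add_right _ _) (D.comm _ _ hj1 hj1 y hy x hx)
    have hm : x * y * ⁅y, x⁆ ^ ((p + 1) / 2) ∈ D.F (k * p / 3 + 1) :=
      mul_mem (mul_mem hx hy) (pow_mem hc _)
    have hb := h3.trans (lg_baer hp3 hj1 ((D.pre _ hj1 hjw x).1 hx) ((D.pre _ hj1 hjw y).1 hy))
    have hl : X ^ (k * p + 2) ∣ lg (D.θ (x * y * ⁅y, x⁆ ^ ((p + 1) / 2))) - (β + γ) := by
      rw [map_mul, map_mul, map_pow, map_commutatorElement]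
      have h4 := dvd_add hb (dvd_add hxβ hyγ)
      have e : ∀ a b c : (ZMod p)⟦X⟧, a - (b + c) + (b - β + (c - γ)) = a - (β + γ) := by
        intro a b c; ring
      rwa [e] at h4
    rw [hη _ hm _ hl s, hη _ hx _ hxβ s, hη _ hy _ hyγ s, rq7_baer,
      hadd _ (rq7_conj D hj1 hx s) _ (rq7_conj D hj1 hy s), hadd _ hx _ hy]
    ring
  · intro g h β hβ
    obtain ⟨s, rfl⟩ := D.surj g
    obtain ⟨t, rfl⟩ := D.surj h
    obtain ⟨x, hx, hxβ⟩ := D.exists_lift hp hk hj1 hjw hβ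
    have hb := h3.trans (lg_conj hp3 hj1 ((D.pre _ hj1 hjw x).1 hx) (D.θ s))
    have hl : X ^ (k * p + 2) ∣ lg (D.θ (s⁻¹ * x * s)) - act (D.θ s) β := by
      rw [map_mul, map_mul, map_inv]
      have h4 := act_dvd (D.θ s) hxβ
      rw [act_sub'] at h4
      have h5 := dvd_add hb h4
      rwa [sub_add_sub_cancel] at h5
    rw [← map_mul, hη _ hx _ hxβ (s * t), hη _ (rq7_conj D hj1 hx s) _ hl t, hη _ hx _ hxβ s]
    have e : (s * t)⁻¹ * x * (s * t) = t⁻¹ * (s⁻¹ * x * s) * t := by group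
    rw [e]
    ring
  · intro i j g β hi hj hij hg hβ
    obtain ⟨s, rfl⟩ := D.surj g
    by_cases hjk : j ≤ k * p
    · obtain ⟨x, hx, hxβ⟩ := D.exists_lift hp hk (hj1.trans hj) hjk hβ
      have hx0 : x ∈ D.F (k * p / 3 + 1) := D.toNS.mono hj1 hj hx
      have hm1 : 1 ≤ min i (k * p) := by omega
      have hs : s ∈ D.F (min i (k * p)) :=
        (D.pre _ hm1 (min_le_right _ _) s).2 (Jn_anti (min_le_left _ _) hg)
      have hc : ⁅x⁻¹, s⁻¹⁆ ∈ D.F (k * p + 1) :=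
        D.toNS.mono (by omega) (by omega)
          (D.comm _ _ (hj1.trans hj) hm1 _ (inv_mem hx) _ (inv_mem hs))
      have e : s⁻¹ * x * s = x * ⁅x⁻¹, s⁻¹⁆ := by
        simp only [commutatorElement_def]
        group
      rw [hη _ hx0 _ hxβ s, e, hinv _ hx0 _ hc, sub_self]
    · have hl : X ^ (k * p + 2) ∣ lg (D.θ 1) - β := by
        rw [map_one, rq7_lg_one, zero_sub, dvd_neg]
        exact (pow_dvd_pow _ (by omega)).trans hβ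
      rw [hη _ (one_mem _) _ hl s, mul_one, inv_mul_cancel, sub_self]
  · refine ⟨-lam (D.g (k * p)), -1, neg_ne_zero.2 one_ne_zero, fun i j g β hi hj hij hg hβ => ?_⟩
    obtain ⟨s, rfl⟩ := D.surj g
    have hjk : j ≤ k * p := by omega
    obtain ⟨x, hx, hxβ⟩ := D.exists_lift hp hk (hj1.trans hj) hjk hβ
    have hx0 : x ∈ D.F (k * p / 3 + 1) := D.toNS.mono hj1 hj hx
    have hs : s ∈ D.F i := (D.pre _ hi (by omega) s).2 hg
    have h4 := (lg_lead (hj1.trans hj) ((D.pre _ (hj1.trans hj) hjk x).1 hx)).2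
    have h5 : coeff (j + 1) (lg (D.θ x)) = coeff (j + 1) β := coeff_eq_of_dvd hxβ (by omega)
    rw [hη _ hx0 _ hxβ s, D.eta_top hp hk hadd hinv hz hi hj hij hs hx, ← h4, h5]

end Pool.Agent.P.MP_e06b60_al.R
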