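import Mathlib
import Pool.Agent.P.MP_e06b60_al.RQ3

namespace Pool.Agent.P.MP_e06b60_al.R

open PowerSeries
open scoped commutatorElement

variable {p : ℕ} [Fact p.Prime]

theorem ru2_ne : p ≠ 0 := (Fact.out : p.Prime).ne_zero

theorem ru2_frob (f : (ZMod p)⟦X⟧) : expand p ru2_ne f = f ^ p := by
  have h := MvPowerSeries.map_frobenius_expand (R := ZMod p) p ru2_ne (f := f)
  rw [ZMod.frobenius_zmod, MvPowerSeries.map_id] at h
  exact h

theorem ru2_car_add (u v : (ZMod p)⟦X⟧) : car (u + v) = car u + car v := by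
  ext n
  simp [car]

theorem ru2_car_dx (u : (ZMod p)⟦X⟧) : car (dx u) = 0 := by
  ext n
  have hp := (Fact.out : p.Prime).pos
  have h1 : ((n * p + (p - 1) : ℕ) : ZMod p) + 1 = 0 := by
    rw [← Nat.cast_succ, ZMod.natCast_eq_zero_iff]
    exact ⟨n + 1, by rw [Nat.mul_add, Nat.mul_comm p n]; omega⟩
  rw [car, coeff_mk, coeff_derivative, h1, mul_zero, map_zero]

theorem ru2_car_shift (u : (ZMod p)⟦X⟧) : car (X ^ (p - 1) * u ^ p) = u := by
  ext n
  rw [car, coeff_mk, coeff_X_pow_mul, ← ru2_frob, mul_comm n p, coeff_expand_mul]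

theorem ru2_decomp (ω : (ZMod p)⟦X⟧) : ∃ g, ω = X ^ (p - 1) * car ω ^ p + dx g := by
  refine ⟨PowerSeries.mk fun n => coeff (n - 1) ω * (n : ZMod p)⁻¹, ?_⟩
  ext m
  have hp := (Fact.out : p.Prime).pos
  rw [map_add, coeff_derivative, coeff_mk, Nat.add_sub_cancel, ← ru2_frob, Nat.cast_succ]
  by_cases h : p ∣ m + 1
  · have h0 : (m : ZMod p) + 1 = 0 := by
      rw [← Nat.cast_succ, ZMod.natCast_eq_zero_iff]
      exact h
    obtain ⟨l, hl⟩ := h
    obtain ⟨l, rfl⟩ : ∃ l', l = l' + 1 := ⟨l - 1, by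
      rcases l with _ | l
      · simp at hl
      · simp⟩
    have hm : m = p * l + (p - 1) := by
      rw [Nat.mul_add] at hl
      omega
    rw [h0, mul_zero, add_zero, hm, coeff_X_pow_mul, coeff_expand_mul, car, coeff_mk, mul_comm l p]
  · have h0 : (m : ZMod p) + 1 ≠ 0 := by
      rw [← Nat.cast_succ, Ne, ZMod.natCast_eq_zero_iff]
      exact h
    rw [mul_assoc, inv_mul_cancel₀ h0, mul_one, coeff_X_pow_mul']
    split_ifs with h1
    · rw [coeff_expand_of_not_dvd, zero_add]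
      rintro ⟨l, hl⟩
      exact h ⟨l + 1, by rw [Nat.mul_add]; omega⟩
    · rw [zero_add]

theorem ru2_map_deriv {R S : Type} [CommRing R] [CommRing S] (φ : R →+* S) (f : R⟦X⟧) :
    PowerSeries.map φ (d⁄dX R f) = d⁄dX S (PowerSeries.map φ f) := by
  ext n
  simp [coeff_derivative]

theorem ru2_log (h : (ZMod p)⟦X⟧) :
    ∃ g, h ^ (p - 1) * dx h = X ^ (p - 1) * dx h ^ p + dx g := by
  set φ := Int.castRingHom (ZMod p) with hφ
  let H : ℤ⟦X⟧ := PowerSeries.mk fun n => ((coeff n h).val : ℤ)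
  have hH : PowerSeries.map φ H = h := by
    ext n
    simp [H, hφ]
  have hD : PowerSeries.map φ (H ^ p - expand p ru2_ne H) = 0 := by
    rw [map_sub, map_pow, map_expand, hH, ru2_frob, sub_self]
  have hdvd : ∀ n, (p : ℤ) ∣ coeff n (H ^ p - expand p ru2_ne H) := by
    intro n
    have := congrArg (coeff n) hD
    rw [coeff_map, map_zero, hφ, eq_intCast] at this
    exact (ZMod.intCast_zmod_eq_zero_iff_dvd _ p).1 this
  choose c hc using hdvd
  have hG : H ^ p - expand p ru2_ne H = (p : ℤ⟦X⟧) * PowerSeries.mk c := by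
    ext n
    rw [hc, ← map_natCast (C : ℤ →+* ℤ⟦X⟧), coeff_C_mul, coeff_mk]
  have hd := congrArg (d⁄dX ℤ) hG
  have h1 : d⁄dX ℤ ((p : ℤ⟦X⟧) * PowerSeries.mk c) = (p : ℤ⟦X⟧) * d⁄dX ℤ (PowerSeries.mk c) := by
    rw [← nsmul_eq_mul, ← nsmul_eq_mul, map_nsmul]
  rw [map_sub, derivative_pow, expand_apply, derivative_subst (HasSubst.X_pow ru2_ne),
    derivative_pow, derivative_X, h1, ← expand_apply p ru2_ne] at hd
  have hp0 : (p : ℤ⟦X⟧) ≠ 0 := by
    intro h0
    have := congrArg (constantCoeff (R := ℤ)) h0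
    rw [map_natCast, map_zero] at this
    exact ru2_ne (Nat.cast_eq_zero.1 this)
  have h2 : H ^ (p - 1) * d⁄dX ℤ H =
      X ^ (p - 1) * expand p ru2_ne (d⁄dX ℤ H) + d⁄dX ℤ (PowerSeries.mk c) := by
    apply mul_left_cancel₀ hp0
    linear_combination hd
  have h3 := congrArg (PowerSeries.map φ) h2
  rw [map_mul, map_pow, map_add, map_mul, map_pow, map_X, map_expand, ru2_map_deriv,
    ru2_map_deriv, hH, ru2_frob] at h3
  exact ⟨_, h3⟩

theorem car_pb (h : Nott p) (ω : (ZMod p)⟦X⟧) : car (pb h ω) = pb h (car ω) := by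
  have hs : HasSubst h.1 := hasSubst_of h.2.1
  obtain ⟨g, hg⟩ := ru2_decomp ω
  obtain ⟨G, hG⟩ := ru2_log h.1
  set u : (ZMod p)⟦X⟧ := (car ω).subst h.1 with hu
  have h1 : (ω.subst h.1 : (ZMod p)⟦X⟧) = h.1 ^ (p - 1) * u ^ p + (dx g).subst h.1 := by
    conv_lhs => rw [hg]
    rw [subst_add hs, subst_mul hs, subst_pow hs, subst_pow hs, subst_X hs]
  have h2 : dx (u ^ p * G) = u ^ p * dx G := by
    have hp0 : ((p : ℕ) : (ZMod p)⟦X⟧) = 0 := by
      rw [← map_natCast (C : ZMod p →+* (ZMod p)⟦X⟧), ZMod.natCast_self, map_zero]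
    rw [dx, Derivation.leibniz, derivative_pow, hp0]
    simp
  have h3 : pb h ω = X ^ (p - 1) * (u * dx h.1) ^ p + dx (u ^ p * G + g.subst h.1) := by
    have h4 : dx (u ^ p * G + g.subst h.1) = dx (u ^ p * G) + dx (g.subst h.1) := map_add _ _ _
    have h5 : dx (g.subst h.1) = ((dx g).subst h.1 : (ZMod p)⟦X⟧) * dx h.1 := derivative_subst hs
    rw [pb, h1, h4, h5, h2, mul_pow]
    linear_combination u ^ p * hG
  rw [h3, ru2_car_add, ru2_car_shift, ru2_car_dx, add_zero, pb]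

end Pool.Agent.P.MP_e06b60_al.R
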