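import Mathlib
import Pool.Agent.P.MP_e06b60_al.RU2

namespace Pool.Agent.P.MP_e06b60_al.R

open PowerSeries
open scoped commutatorElement

variable {p : ℕ} [Fact p.Prime]

theorem coeff_car (ω : (ZMod p)⟦X⟧) {l : ℕ} (hl : 1 ≤ l) : coeff (l - 1) (car ω) = coeff (l * p - 1) ω := by
  have hp := (Fact.out : p.Prime).one_le
  obtain ⟨l, rfl⟩ := Nat.exists_eq_add_of_le' hl
  have e : (l + 1) * p - 1 = l * p + (p - 1) := by
    rw [Nat.add_mul, one_mul]; omega
  simp [car, coeff_mk, e]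

theorem car_dvd {ω : (ZMod p)⟦X⟧} {m n : ℕ} (hω : X ^ (m - 1) ∣ ω) (h : n * p < m) : X ^ n ∣ car ω := by
  have hp := (Fact.out : p.Prime).one_le
  rw [X_pow_dvd_iff] at hω ⊢
  intro j hj
  simp only [car, coeff_mk]
  apply hω
  have h1 : (j + 1) * p ≤ n * p := Nat.mul_le_mul_right p hj
  rw [Nat.add_mul, one_mul] at h1
  omega

theorem ru3_red (h : Nott p) (ω : (ZMod p)⟦X⟧) {l : ℕ} (hl : 1 ≤ l) :
    coeff (l * p - 1) (pb h ω) - coeff (l * p - 1) ω = coeff (l - 1) (pb h (car ω) - car ω) := by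
  rw [map_sub, ← car_pb, coeff_car _ hl, coeff_car _ hl]

theorem ru3_zero {i m n l : ℕ} (hi : 1 ≤ i) (hl : 1 ≤ l) {h : Nott p} (hh : h ∈ Jn p i)
    {ω : (ZMod p)⟦X⟧} (hω : X ^ (m - 1) ∣ ω) (hn : n * p < m) (hlt : l - 1 < n + i) :
    coeff (l * p - 1) (pb h ω) - coeff (l * p - 1) ω = 0 := by
  rw [ru3_red h ω hl]
  exact X_pow_dvd_iff.mp (pb_lead hi hh (car_dvd hω hn)).1 _ hlt

theorem ru3_lead {i m n l : ℕ} (hi : 1 ≤ i) {h : Nott p} (hh : h ∈ Jn p i)
    {ω : (ZMod p)⟦X⟧} (hω : X ^ (m - 1) ∣ ω) (hn : n * p < m) (hl : l = n + i + 1) :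
    coeff (l * p - 1) (pb h ω) - coeff (l * p - 1) ω =
      (l : ZMod p) * coeff (i + 1) h.1 * coeff ((n + 1) * p - 1) ω := by
  subst hl
  rw [ru3_red h ω (by omega), ← coeff_car ω (l := n + 1) (by omega)]
  have := (pb_lead hi hh (car_dvd hω hn)).2
  simp only [Nat.add_sub_cancel]
  rw [this]
  push_cast
  ring

theorem defect_q {k i m : ℕ} (hk : 2 ≤ k) (hi : 1 ≤ i) (hm : 1 ≤ m) (hs : (k - 1) * p + 1 ≤ m + i)
    {h : Nott p} (hh : h ∈ Jn p i) {ω : (ZMod p)⟦X⟧} (hω : X ^ (m - 1) ∣ ω) :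
    coeff (k * p - 1) (pb h ω) - coeff (k * p - 1) ω =
      if i = 1 ∧ m = (k - 1) * p then k * coeff 2 h.1 * coeff (m - 1) ω else 0 := by
  have hp := (Fact.out : p.Prime).two_le
  split_ifs with hc
  · obtain ⟨rfl, rfl⟩ := hc
    obtain ⟨n, rfl⟩ := Nat.exists_eq_add_of_le' hk
    have hn : n * p < (n + 2 - 1) * p := Nat.mul_lt_mul_of_pos_right (by omega) (by omega)
    have := ru3_lead (l := n + 2) (n := n) le_rfl hh hω hn (by omega)
    rw [this]
    rfl
  · rcases Nat.lt_or_ge i 2 with h1 | h2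
    · have hi1 : i = 1 := by omega
      subst hi1
      have hne : m ≠ (k - 1) * p := fun e => hc ⟨rfl, e⟩
      exact ru3_zero (n := k - 1) hi (by omega) hh hω (by omega) (by omega)
    · refine ru3_zero (n := k - i) hi (by omega) hh hω ?_ (by omega)
      rcases Nat.lt_or_ge i k with hik | hik
      · obtain ⟨d, rfl⟩ := Nat.exists_eq_add_of_lt hik
        obtain ⟨j, rfl⟩ := Nat.exists_eq_add_of_le' h2
        have e1 : j + 2 + d + 1 - (j + 2) = d + 1 := by omega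
        have e2 : j + 2 + d + 1 - 1 = (d + 1) + (j + 1) := by omega
        rw [e1]
        rw [e2, Nat.add_mul (d + 1)] at hs
        have : (j + 1) * 2 ≤ (j + 1) * p := Nat.mul_le_mul_left _ hp
        omega
      · rw [Nat.sub_eq_zero_of_le hik]; omega

theorem defect_p (hp : 3 ≤ p) {k i m : ℕ} (hk : 1 ≤ k) (hd : p ∣ k) (hi : 1 ≤ i) (hm : 1 ≤ m)
    (hs : (k - 2) * p + 2 ≤ m + i) {h : Nott p} (hh : h ∈ Jn p i) {ω : (ZMod p)⟦X⟧}
    (hω : X ^ (m - 1) ∣ ω) : coeff (k * p - 1) (pb h ω) = coeff (k * p - 1) ω ∧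
      coeff ((k - 1) * p - 1) (pb h ω) = coeff ((k - 1) * p - 1) ω := by
  have hkp : p ≤ k := Nat.le_of_dvd (by omega) hd
  have hk0 : (k : ZMod p) = 0 := (ZMod.natCast_eq_zero_iff k p).mpr hd
  obtain ⟨n, rfl⟩ := Nat.exists_eq_add_of_le' (show 3 ≤ k by omega)
  have e0 : n + 3 - 2 = n + 1 := by omega
  rw [e0] at hs
  constructor
  · rw [← sub_eq_zero]
    rcases Nat.lt_or_ge i 3 with h1 | h3
    · rcases (show i = 1 ∨ i = 2 by omega) with rfl | rfl
      · rw [ru3_lead (l := n + 3) (n := n + 1) hi hh hω (by omega) (by omega), hk0]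
        simp
      · have hn : n * p < m := by
          rw [Nat.add_mul, one_mul] at hs
          omega
        rw [ru3_lead (l := n + 3) (n := n) hi hh hω hn (by omega), hk0]
        simp
    · refine ru3_zero (n := n + 3 - i) hi (by omega) hh hω ?_ (by omega)
      rcases Nat.lt_or_ge i (n + 3) with hik | hik
      · obtain ⟨j, rfl⟩ := Nat.exists_eq_add_of_le' h3
        obtain ⟨d, rfl⟩ := Nat.exists_eq_add_of_lt (show j < n by omega)
        have e1 : j + d + 1 + 3 - (j + 3) = d + 1 := by omega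
        have e2 : j + d + 1 + 1 = (d + 1) + (j + 1) := by omega
        rw [e1]
        rw [e2, Nat.add_mul (d + 1)] at hs
        have : (j + 1) * 3 ≤ (j + 1) * p := Nat.mul_le_mul_left _ hp
        omega
      · rw [Nat.sub_eq_zero_of_le hik]; omega
  · rw [← sub_eq_zero]
    refine ru3_zero (l := n + 3 - 1) (n := n + 2 - i) hi (by omega) hh hω ?_ (by omega)
    rcases Nat.lt_or_ge i (n + 2) with hik | hik
    · obtain ⟨j, rfl⟩ := Nat.exists_eq_add_of_le' hi
      obtain ⟨d, rfl⟩ := Nat.exists_eq_add_of_le (show j ≤ n by omega)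
      have e1 : j + d + 2 - (j + 1) = d + 1 := by omega
      have e2 : j + d + 1 = (d + 1) + j := by omega
      rw [e1]
      rw [e2, Nat.add_mul (d + 1)] at hs
      have : j * 3 ≤ j * p := Nat.mul_le_mul_left _ hp
      omega
    · rw [Nat.sub_eq_zero_of_le hik]; omega

end Pool.Agent.P.MP_e06b60_al.R
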