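import Mathlib
import Pool.Agent.P.MP_e06b60_al.RQ3

namespace Pool.Agent.P.MP_e06b60_al.R

open PowerSeries
open scoped commutatorElement

variable {p : ℕ} [Fact p.Prime]

theorem ru1_subst_C (h : Nott p) (c : ZMod p) :
    ((C c : (ZMod p)⟦X⟧).subst h.1 : (ZMod p)⟦X⟧) = C c := by
  rw [subst_C]; rfl

theorem ru1_subst_inv (g h : Nott p) :
    ((dx g.1).subst h.1 : (ZMod p)⟦X⟧) * ((dx g.1)⁻¹.subst h.1 : (ZMod p)⟦X⟧) = 1 := by
  have hs := hasSubst_of h.2.1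
  rw [← subst_mul hs, dx_mul_inv]
  have := ru1_subst_C h 1
  rwa [map_one] at this

theorem ru1_dx_mul (a b : (ZMod p)⟦X⟧) : dx (a * b) = dx a * b + a * dx b := by
  simp only [dx, Derivation.leibniz, smul_eq_mul]; ring

theorem ru1_dx_add (a b : (ZMod p)⟦X⟧) : dx (a + b) = dx a + dx b := map_add _ _ _

theorem ru1_dx_subst (h : Nott p) (a : (ZMod p)⟦X⟧) :
    dx (a.subst h.1 : (ZMod p)⟦X⟧) = ((dx a).subst h.1 : (ZMod p)⟦X⟧) * dx h.1 :=
  derivative_subst (hasSubst_of h.2.1)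

theorem ru1_inv_mul (g h : Nott p) :
    (dx (g * h).1)⁻¹ = ((dx g.1)⁻¹.subst h.1 : (ZMod p)⟦X⟧) * (dx h.1)⁻¹ := by
  have h1 := dx_mul_inv (g * h)
  have h2 := ru1_subst_inv g h
  have h3 := dx_mul_inv h
  have e : dx (g * h).1 = ((dx g.1).subst h.1 : (ZMod p)⟦X⟧) * dx h.1 := by
    rw [mul_val, ru1_dx_subst]
  generalize (dx (g * h).1)⁻¹ = Z at h1 ⊢
  rw [e] at h1
  generalize ((dx g.1).subst h.1 : (ZMod p)⟦X⟧) = a at h1 h2
  generalize ((dx g.1)⁻¹.subst h.1 : (ZMod p)⟦X⟧) = A at h2 ⊢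
  generalize (dx h.1)⁻¹ = B at h3 ⊢
  generalize dx h.1 = v at h1 h3
  linear_combination (A * B) * h1 - (Z * v * B) * h2 - Z * h3

theorem ru1_c (hp : 3 ≤ p) : (C (3 / 2 : ZMod p) : (ZMod p)⟦X⟧) * 2 = 3 := by
  have h2 : (2 : ZMod p) ≠ 0 := by
    intro h
    have h' : ((2 : ℕ) : ZMod p) = 0 := by exact_mod_cast h
    have := Nat.le_of_dvd (by norm_num) ((ZMod.natCast_eq_zero_iff 2 p).mp h')
    omega
  have e : (3 / 2 : ZMod p) * 2 = 3 := div_mul_cancel₀ _ h2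
  have := congrArg (C : ZMod p →+* (ZMod p)⟦X⟧) e
  rwa [map_mul, map_ofNat, map_ofNat] at this

theorem sch_mul (hp : 3 ≤ p) (g h : Nott p) :
    sch (g * h) = ((sch g).subst h.1 : (ZMod p)⟦X⟧) * dx h.1 ^ 2 + sch h := by
  have hs := hasSubst_of h.2.1
  have h3 := dx_mul_inv h
  have h2 := ru1_subst_inv g h
  have hc := ru1_c hp
  unfold sch
  rw [ru1_inv_mul, subst_sub hs, subst_mul hs, subst_mul hs, subst_pow hs, subst_mul hs,
    ru1_subst_C, mul_val]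
  simp only [ru1_dx_subst, ru1_dx_mul, ru1_dx_add]
  generalize ((dx g.1)⁻¹.subst h.1 : (ZMod p)⟦X⟧) = A at h2 ⊢
  generalize ((dx (dx (dx g.1))).subst h.1 : (ZMod p)⟦X⟧) = g3
  generalize ((dx (dx g.1)).subst h.1 : (ZMod p)⟦X⟧) = g2
  generalize ((dx g.1).subst h.1 : (ZMod p)⟦X⟧) = a at h2 ⊢
  generalize (dx h.1)⁻¹ = B at h3 ⊢
  generalize dx (dx (dx h.1)) = w3
  generalize dx (dx h.1) = w2
  generalize dx h.1 = v at h3 ⊢
  generalize (C (3 / 2 : ZMod p) : (ZMod p)⟦X⟧) = c at hc ⊢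
  have e2 : (g2 * v * v + a * w2) * (A * B) = g2 * A * v + w2 * B := by
    linear_combination (g2 * A * v) * h3 + (w2 * B) * h2
  rw [e2]
  linear_combination (g3 * A * v ^ 2 + 3 * g2 * A * w2 - 2 * c * g2 * A * w2) * h3 +
    (w3 * B) * h2 - (g2 * A * w2) * hc

theorem ru1_coeff {i n : ℕ} {g : Nott p} (hg : g ∈ Jn p i) (h2 : 2 ≤ n) (hn : n ≤ i) :
    coeff n g.1 = 0 := by
  have := coeff_eq_of_dvd (mem_Jn.mp hg) (m := n) (by omega)
  rwa [coeff_X, if_neg (by omega)] at this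

theorem ru1_inv_zero (g : Nott p) : coeff 0 (dx g.1)⁻¹ = 1 := by
  have := congrArg (coeff 0) (dx_mul_inv g)
  rw [coeff_zero_eq_constantCoeff_apply, map_mul, ← coeff_zero_eq_constantCoeff_apply,
    ← coeff_zero_eq_constantCoeff_apply, coeff_derivative] at this
  simpa [g.2.2] using this

theorem ru1_coeff_pow_mul (n : ℕ) (a b : (ZMod p)⟦X⟧) :
    coeff n (X ^ n * (a * b)) = coeff 0 a * coeff 0 b := by
  rw [coeff_X_pow_mul', if_pos le_rfl, Nat.sub_self]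
  simp [coeff_zero_eq_constantCoeff_apply]

theorem sch_lead {i : ℕ} (hi : 1 ≤ i) {g : Nott p} (hg : g ∈ Jn p i) : X ^ i ∣ X ^ 2 * sch g ∧
    coeff i (X ^ 2 * sch g) = coeff (i + 1) g.1 * ((i : ZMod p) ^ 3 - i) := by
  have h2 : (X : (ZMod p)⟦X⟧) ^ i ∣ X ^ 1 * dx (dx g.1) := by
    rw [X_pow_dvd_iff]
    intro m hm
    rw [coeff_X_pow_mul']
    split_ifs with h
    · rw [coeff_derivative, coeff_derivative, ru1_coeff hg (by omega) (by omega)]; simp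
    · rfl
  have h3 : (X : (ZMod p)⟦X⟧) ^ i ∣ X ^ 2 * dx (dx (dx g.1)) := by
    rw [X_pow_dvd_iff]
    intro m hm
    rw [coeff_X_pow_mul']
    split_ifs with h
    · rw [coeff_derivative, coeff_derivative, coeff_derivative,
        ru1_coeff hg (by omega) (by omega)]; simp
    · rfl
  have h4 : coeff i (X ^ 2 * dx (dx (dx g.1))) = coeff (i + 1) g.1 * ((i : ZMod p) ^ 3 - i) := by
    rw [coeff_X_pow_mul']
    split_ifs with h
    · obtain ⟨m, rfl⟩ : ∃ m, i = m + 2 := ⟨i - 2, by omega⟩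
      rw [Nat.add_sub_cancel, coeff_derivative, coeff_derivative, coeff_derivative]
      push_cast; ring
    · obtain rfl : i = 1 := by omega
      simp
  obtain ⟨V, hV⟩ := h2
  obtain ⟨W, hW⟩ := h3
  obtain ⟨m, rfl⟩ : ∃ m, i = m + 1 := ⟨i - 1, by omega⟩
  have e : X ^ 2 * sch g = X ^ (m + 1) * (W * (dx g.1)⁻¹) +
      X ^ (m + 1 + 1) * (-(C (3 / 2 : ZMod p) * X ^ m * (V * (dx g.1)⁻¹) ^ 2)) := by
    unfold sch
    linear_combination ((dx g.1)⁻¹) * hW - C (3 / 2 : ZMod p) * (dx g.1)⁻¹ ^ 2 *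
      (X ^ 1 * dx (dx g.1) + X ^ (m + 1) * V) * hV
  refine ⟨?_, ?_⟩
  · rw [e]
    exact dvd_add (dvd_mul_right _ _) (Dvd.dvd.mul_right (pow_dvd_pow _ (Nat.le_succ _)) _)
  · rw [e, map_add, ru1_coeff_pow_mul, ru1_inv_zero, coeff_X_pow_mul' _ (m + 1 + 1),
      if_neg (by omega), ← h4, hW, coeff_X_pow_mul', if_pos le_rfl, Nat.sub_self]
    ring

theorem om_add (g : Nott p) (β γ : (ZMod p)⟦X⟧) : om g (β + γ) = om g β + om g γ := by
  unfold om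
  rw [act_add, mul_add]

theorem om_mul (hp : 3 ≤ p) (g h : Nott p) (β : (ZMod p)⟦X⟧) :
    om (g * h) β = pb h (om g β) + om h (act g β) := by
  have hs := hasSubst_of h.2.1
  have h3 := dx_mul_inv h
  unfold om pb
  rw [sch_mul hp, act_mul, subst_mul hs]
  generalize act g β = δ
  unfold act
  linear_combination (((sch g).subst h.1 : (ZMod p)⟦X⟧) * (δ.subst h.1 : (ZMod p)⟦X⟧) *
    dx h.1) * h3

theorem om_lead {i j : ℕ} (hi : 1 ≤ i) (hj : 1 ≤ j) {g : Nott p} (hg : g ∈ Jn p i) {β : (ZMod p)⟦X⟧}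
    (h : X ^ (j + 1) ∣ β) : X ^ (i + j - 1) ∣ om g β ∧ coeff (i + j - 1) (om g β) =
      coeff (i + 1) g.1 * coeff (j + 1) β * ((i : ZMod p) ^ 3 - i) := by
  obtain ⟨⟨W, hW⟩, h2⟩ := sch_lead hi hg
  obtain ⟨V, hV⟩ := act_dvd g h
  have h3 : coeff (j + 1) (act g β) = coeff (j + 1) β :=
    coeff_eq_of_dvd (act_lead hi hg h).1 (by omega)
  obtain ⟨m, rfl⟩ : ∃ m, j = m + 1 := ⟨j - 1, by omega⟩
  have e : om g β = X ^ (i + (m + 1) - 1) * (W * V) := by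
    have : i + (m + 1) - 1 = i + m := by omega
    rw [this]
    unfold om
    rw [hV]
    linear_combination (X ^ m * V) * hW
  refine ⟨e ▸ dvd_mul_right _ _, ?_⟩
  rw [hW, coeff_X_pow_mul', if_pos le_rfl, Nat.sub_self] at h2
  rw [hV, coeff_X_pow_mul', if_pos le_rfl, Nat.sub_self] at h3
  rw [e, ru1_coeff_pow_mul, h2, h3]
  ring

end Pool.Agent.P.MP_e06b60_al.R
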