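import Mathlib
import Pool.Agent.P.MP_e06b60_al.RQ3

namespace Pool.Agent.P.MP_e06b60_al.R

open PowerSeries
open scoped commutatorElement

variable {p : ℕ} [Fact p.Prime]

theorem ru4_smul {j0 : ℕ} (η : Nott p → (ZMod p)⟦X⟧ → ZMod p)
    (hadd : ∀ g β γ, X ^ (j0 + 1) ∣ β → X ^ (j0 + 1) ∣ γ → η g (β + γ) = η g β + η g γ)
    (g : Nott p) (β : (ZMod p)⟦X⟧) (hβ : X ^ (j0 + 1) ∣ β) (c : ZMod p) :
    η g (C c * β) = c * η g β := by
  have h0 : η g 0 = 0 := by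
    have := hadd g 0 0 (dvd_zero _) (dvd_zero _)
    rw [add_zero] at this
    linear_combination -this
  have hn : ∀ n : ℕ, η g (C (n : ZMod p) * β) = n * η g β := by
    intro n
    induction n with
    | zero => simp [h0]
    | succ n ih =>
      have e : C ((n + 1 : ℕ) : ZMod p) * β = C (n : ZMod p) * β + β := by
        push_cast
        rw [map_add, map_one]
        ring
      rw [e, hadd g _ _ (Dvd.dvd.mul_left hβ _) hβ, ih]
      push_cast
      ring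
  have := hn c.val
  rwa [ZMod.natCast_zmod_val] at this

theorem ru4_split {j : ℕ} {β : (ZMod p)⟦X⟧} (hβ : X ^ (j + 1) ∣ β) :
    X ^ (j + 1 + 1) ∣ β - C (coeff (j + 1) β) * X ^ (j + 1) := by
  rw [X_pow_dvd_iff] at hβ ⊢
  intro m hm
  rw [map_sub, coeff_C_mul, coeff_X_pow]
  by_cases h : m = j + 1
  · simp [h]
  · rw [if_neg h, hβ m (by omega)]
    simp

theorem ru4_dvd {a b : ℕ} (h : a ≤ b) {β : (ZMod p)⟦X⟧} (hβ : X ^ (b + 1) ∣ β) :
    X ^ (a + 1) ∣ β :=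
  (pow_dvd_pow X (by omega)).trans hβ

theorem ru4_el {i : ℕ} (hi : 1 ≤ i) :
    el p (i - 1) ∈ Jn p i ∧ coeff (i + 1) (el p (i - 1)).1 = 1 := by
  obtain ⟨m, rfl⟩ : ∃ m, i = m + 1 := ⟨i - 1, by omega⟩
  exact ⟨el_mem m, el_coeff m⟩

theorem eta_step {j0 s : ℕ} (hj0 : 1 ≤ j0) (η : Nott p → (ZMod p)⟦X⟧ → ZMod p)
    (Df : Nott p → Nott p → (ZMod p)⟦X⟧ → ZMod p) (ε : ZMod p)
    (hadd : ∀ g β γ, X ^ (j0 + 1) ∣ β → X ^ (j0 + 1) ∣ γ → η g (β + γ) = η g β + η g γ)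
    (hcoc : ∀ g h β, X ^ (j0 + 1) ∣ β → η (g * h) β = η h (act g β) + η g β - Df g h β)
    (hvan : ∀ i j g β, 1 ≤ i → j0 ≤ j → s < i + j → g ∈ Jn p i → X ^ (j + 1) ∣ β → η g β = 0)
    (hD : ∀ (i i' j : ℕ) g h β, 1 ≤ i → 1 ≤ i' → j0 ≤ j → s ≤ i + i' + j → g ∈ Jn p i →
      h ∈ Jn p i' → X ^ (j + 1) ∣ β → Df g h β = if i' = 1 ∧ i + i' + j = s then
        ε * coeff 2 h.1 * coeff (i + 1) g.1 * coeff (j + 1) β * ((i : ZMod p) ^ 3 - i) else 0) :
    ∃ b : ℕ → ZMod p, (∀ i j g β, 1 ≤ i → j0 ≤ j → i + j = s → g ∈ Jn p i → X ^ (j + 1) ∣ β →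
      η g β = coeff (i + 1) g.1 * coeff (j + 1) β * b i) ∧
      ∀ i j : ℕ, 1 ≤ i → 1 ≤ j → i + j ≤ s - j0 → ((i : ZMod p) - j) * b (i + j) =
        ((i : ZMod p) + 2 * j - s) * b i - ((j : ZMod p) + 2 * i - s) * b j -
          (if i = 1 then -ε * j ^ 3 + ε * j else 0) + (if j = 1 then -ε * i ^ 3 + ε * i else 0) := by
  have hsh : ∀ g h β, X ^ (j0 + 1) ∣ β → η h (act g β) = η h β + η h (act g β - β) := by
    intro g h β hβ
    rw [← hadd h β _ hβ (dvd_sub (act_dvd g hβ) hβ)]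
    congr 1
    ring
  have h1 : ∀ i j g β, 1 ≤ i → j0 ≤ j → i + j = s → g ∈ Jn p i → X ^ (j + 1) ∣ β →
      η g β = coeff (i + 1) g.1 * coeff (j + 1) β * η (el p (i - 1)) (X ^ (s - i + 1)) := by
    intro i j g β hi hj hs hg hβ
    have hX : (X : (ZMod p)⟦X⟧) ^ (j0 + 1) ∣ X ^ (j + 1) := ru4_dvd hj dvd_rfl
    have ea : η g β = coeff (j + 1) β * η g (X ^ (j + 1)) := by
      have hr := ru4_split hβ
      have e : β = C (coeff (j + 1) β) * X ^ (j + 1) +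
          (β - C (coeff (j + 1) β) * X ^ (j + 1)) := by ring
      have e2 := hadd g (C (coeff (j + 1) β) * X ^ (j + 1))
        (β - C (coeff (j + 1) β) * X ^ (j + 1)) (Dvd.dvd.mul_left hX _)
        (ru4_dvd (by omega) hr)
      rw [← e, hvan i (j + 1) g _ hi (by omega) (by omega) hg hr, add_zero,
        ru4_smul η hadd g _ hX] at e2
      exact e2
    have hF : IsFun p (JW p).toNS i (fun x => η x (X ^ (j + 1))) := by
      refine ⟨fun x hx y hy => ?_, fun x hx => ?_⟩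
      · have hx' : x ∈ Jn p i := hx
        have hy' : y ∈ Jn p i := hy
        have ha := (act_lead hi hx' (dvd_refl ((X : (ZMod p)⟦X⟧) ^ (j + 1)))).1
        show η (x * y) _ = η x _ + η y _
        rw [hcoc x y _ hX, hsh x y _ hX,
          hvan i (i + j) y _ hi (by omega) (by omega) hy' ha,
          hD i i j x y _ hi hi hj (by omega) hx' hy' dvd_rfl, if_neg (by omega)]
        ring
      · exact hvan (i + 1) j x _ (by omega) hj (by omega) hx dvd_rfl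
    have eb := hF.eq_mul ((JW p).isFun i hi) (g := el p (i - 1)) (ru4_el hi).1 (ru4_el hi).2
      (fun x hx h0 => hF.zero x (JW_ker i hi x hx h0)) g hg
    have ej : s - i = j := by omega
    rw [ea, ej]
    have eb' : η g (X ^ (j + 1)) = coeff (i + 1) g.1 * η (el p (i - 1)) (X ^ (j + 1)) := eb
    rw [eb']
    ring
  refine ⟨fun i => η (el p (i - 1)) (X ^ (s - i + 1)), h1, fun i j hi hj hij => ?_⟩
  obtain ⟨l, hl⟩ : ∃ l, i + j + l = s := ⟨s - i - j, by omega⟩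
  have hl0 : j0 ≤ l := by omega
  obtain ⟨hg, hg1⟩ := ru4_el (p := p) hi
  obtain ⟨hh, hh1⟩ := ru4_el (p := p) hj
  have hX : (X : (ZMod p)⟦X⟧) ^ (j0 + 1) ∣ X ^ (l + 1) := ru4_dvd hl0 dvd_rfl
  have hXc : coeff (l + 1) ((X : (ZMod p)⟦X⟧) ^ (l + 1)) = 1 := by simp [coeff_X_pow]
  obtain ⟨hc, hc1⟩ := comm_lead hi hj hg hh
  have hone : ∀ x : Nott p, x ∈ Jn p 1 := fun x => by rw [Jn_one]; trivial
  have eg : el p (i - 1) * el p (j - 1) =
      ⁅el p (i - 1), el p (j - 1)⁆ * (el p (j - 1) * el p (i - 1)) := by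
    simp [commutatorElement_def, mul_assoc]
  have A1 := hcoc (el p (i - 1)) (el p (j - 1)) _ hX
  have A2 := hcoc ⁅el p (i - 1), el p (j - 1)⁆ (el p (j - 1) * el p (i - 1)) _ hX
  have A3 := hcoc (el p (j - 1)) (el p (i - 1)) _ hX
  obtain ⟨ag, ag1⟩ := act_lead hi hg (dvd_refl ((X : (ZMod p)⟦X⟧) ^ (l + 1)))
  obtain ⟨ah, ah1⟩ := act_lead hj hh (dvd_refl ((X : (ZMod p)⟦X⟧) ^ (l + 1)))
  have ac := (act_lead (i := i + j) (by omega) hc (dvd_refl ((X : (ZMod p)⟦X⟧) ^ (l + 1)))).1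
  rw [hsh _ _ _ hX, h1 j (i + l) _ _ hj (by omega) (by omega) hh ag, ag1, hg1, hh1, hXc,
    hD i j l _ _ _ hi hj hl0 (by omega) hg hh dvd_rfl, hg1, hXc] at A1
  rw [hsh _ _ _ hX, h1 i (j + l) _ _ hi (by omega) (by omega) hg ah, ah1, hg1, hh1, hXc,
    hD j i l _ _ _ hj hi hl0 (by omega) hh hg dvd_rfl, hh1, hXc] at A3
  rw [← eg, hsh _ _ _ hX, hvan 1 (i + j + l) _ _ le_rfl (by omega) (by omega) (hone _) ac,
    h1 (i + j) l _ _ (by omega) hl0 hl hc dvd_rfl, hc1, hg1, hh1, hXc,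
    hD (i + j) 1 l _ _ _ (by omega) le_rfl hl0 (by omega) hc (hone _) dvd_rfl,
    if_neg (by omega)] at A2
  have es : (s : ZMod p) = i + j + l := by rw [← hl]; push_cast; ring
  have d1 : (if j = 1 ∧ i + j + l = s then
      ε * coeff 2 (el p (j - 1)).1 * 1 * 1 * ((i : ZMod p) ^ 3 - i) else 0) =
      -(if j = 1 then -ε * i ^ 3 + ε * i else 0) := by
    by_cases h : j = 1
    · subst h
      rw [if_pos ⟨rfl, hl⟩, if_pos rfl]
      have : coeff 2 (el p (1 - 1)).1 = 1 := hh1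
      rw [this]
      ring
    · rw [if_neg (fun h' => h h'.1), if_neg h, neg_zero]
  have d2 : (if i = 1 ∧ j + i + l = s then
      ε * coeff 2 (el p (i - 1)).1 * 1 * 1 * ((j : ZMod p) ^ 3 - j) else 0) =
      -(if i = 1 then -ε * j ^ 3 + ε * j else 0) := by
    by_cases h : i = 1
    · subst h
      rw [if_pos ⟨rfl, by omega⟩, if_pos rfl]
      have : coeff 2 (el p (1 - 1)).1 = 1 := hg1
      rw [this]
      ring
    · rw [if_neg (fun h' => h h'.1), if_neg h, neg_zero]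
  rw [d1] at A1
  rw [d2] at A3
  rw [es]
  linear_combination A1 - A2 - A3

end Pool.Agent.P.MP_e06b60_al.R
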