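import Mathlib
import Pool.Agent.P.MP_e06b60_al.RU1
import Pool.Agent.P.MP_e06b60_al.RU4
import Pool.Agent.P.MP_e06b60_al.RL1

namespace Pool.Agent.P.MP_e06b60_al.R

open PowerSeries
open scoped commutatorElement

variable {p : ℕ} [Fact p.Prime]

theorem ru5_coeff_zero {n m : ℕ} {β : (ZMod p)⟦X⟧} (h : X ^ n ∣ β) (hm : m < n) :
    coeff m β = 0 := (X_pow_dvd_iff.mp h) m hm

theorem ru5_two (hp : 7 ≤ p) : (2 : ZMod p) ≠ 0 := by
  intro h
  have h2 : ((2 : ℕ) : ZMod p) = 0 := by exact_mod_cast h
  rw [ZMod.natCast_eq_zero_iff] at h2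
  have := Nat.le_of_dvd (by norm_num) h2
  omega

/-- A multiple of a coefficient as an additive map. -/
noncomputable def ru5_co (c : ZMod p) (n : ℕ) : (ZMod p)⟦X⟧ →+ ZMod p where
  toFun β := c * coeff n β
  map_zero' := by simp
  map_add' β γ := by rw [map_add, mul_add]

theorem ru5_co_apply (c : ZMod p) (n : ℕ) (β : (ZMod p)⟦X⟧) :
    ru5_co c n β = c * coeff n β := rfl

theorem nf_top (hp : 7 ≤ p) {k j0 : ℕ} (hk : 1 ≤ k) (hj0 : 1 ≤ j0) {η : Nott p → (ZMod p)⟦X⟧ → ZMod p}
    (h : Eta (k * p) j0 η) : ∃ T μ, μ ≠ 0 ∧ NF k j0 (k * p) η T μ 0 := by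
  obtain ⟨α, μ, hμ, ht⟩ := h.top
  have h2 := ru5_two hp
  have hw : 1 ≤ k * p := Nat.mul_pos hk (by omega)
  have hw0 : ((k * p : ℕ) : ZMod p) = 0 := by simp
  refine ⟨ru5_co (-α - μ / 2) (k * p + 1), μ, hμ, ?_, ?_⟩
  · intro β hβ
    rw [ru5_co_apply, ru5_coeff_zero hβ (by omega), mul_zero]
  · intro i j g β hi hj hs hg hβ
    have ha := act_lead hi hg hβ
    have ho := om_lead hi (le_trans hj0 hj) hg hβ
    rw [← map_sub, ru5_co_apply, zero_mul, add_zero]
    rcases Nat.lt_or_eq_of_le hs with hlt | heq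
    · rw [h.van i j g β hi hj hlt hg hβ, ru5_coeff_zero ha.1 (by omega),
        ru5_coeff_zero ho.1 (by omega)]
      simp
    · rw [ht i j g β hi hj heq.symm hg hβ, hw0]
      have hij : (j : ZMod p) = -i := by
        have : ((i + j : ℕ) : ZMod p) = 0 := by rw [← heq, hw0]
        push_cast at this
        linear_combination this
      rw [heq, ha.2, ho.2, hij]
      field_simp
      ring

theorem nf_step (hp : 7 ≤ p) {k j0 s : ℕ} (hk : 2 ≤ k) (hj0 : 1 ≤ j0) (h1 : (k - 2) * p < s)
    (h2 : s < k * p) (h3 : j0 + 7 ≤ s) {η : Nott p → (ZMod p)⟦X⟧ → ZMod p} (h : Eta (k * p) j0 η)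
    {T : (ZMod p)⟦X⟧ →+ ZMod p} {μ μ' : ZMod p} (hN : NF k j0 (s + 1) η T μ μ') (ε : ZMod p)
    (hD : ∀ (i i' j : ℕ) (g g' : Nott p) (β : (ZMod p)⟦X⟧), 1 ≤ i → 1 ≤ i' → j0 ≤ j → s ≤ i + i' + j →
      g ∈ Jn p i → g' ∈ Jn p i' → X ^ (j + 1) ∣ β →
      μ * (coeff (k * p - 1) (pb g' (om g β)) - coeff (k * p - 1) (om g β)) +
        μ' * (coeff ((k - 1) * p - 1) (pb g' (om g β)) - coeff ((k - 1) * p - 1) (om g β)) =
      if i' = 1 ∧ i + i' + j = s then
        ε * coeff 2 g'.1 * coeff (i + 1) g.1 * coeff (j + 1) β * ((i : ZMod p) ^ 3 - i) else 0) :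
    ((s : ZMod p) = 1 → ε = 0) ∧
      (ε = 0 → ∃ T' μ'', NF k j0 s η T' μ μ'' ∧ (s ≠ (k - 1) * p → μ'' = μ')) := by
  have h2' := ru5_two hp
  obtain ⟨b, hb, he⟩ := eta_step (s := s) hj0
    (fun g β => η g β - (T (act g β) - T β + μ * coeff (k * p - 1) (om g β) +
      μ' * coeff ((k - 1) * p - 1) (om g β)))
    (fun g g' β => μ * (coeff (k * p - 1) (pb g' (om g β)) - coeff (k * p - 1) (om g β)) +
        μ' * (coeff ((k - 1) * p - 1) (pb g' (om g β)) - coeff ((k - 1) * p - 1) (om g β))) ε
    (by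
      intro g β γ hβ hγ
      simp only [h.add g β γ hβ hγ, act_add, om_add, map_add]
      ring)
    (by
      intro g g' β hβ
      simp only [h.coc g g' β hβ, act_mul, om_mul (by omega : 3 ≤ p), map_add]
      ring)
    (by
      intro i j g β hi hj hs hg hβ
      simp only [hN.eq i j g β hi hj hs hg hβ, sub_self])
    hD
  constructor
  · intro hs1
    have := l2 hp 1 (Or.inl rfl) (s - j0) (Or.inr ⟨by omega, rfl⟩) b (-ε) ε (by
      intro i j hi hj hij
      have := he i j hi hj hij
      rw [hs1] at this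
      rw [Nat.cast_one]
      exact this)
    exact neg_eq_zero.mp this
  · intro hε
    obtain ⟨α, ν, hν, hb'⟩ := l1 hp (s : ZMod p) (s - j0) (by omega) b (by
      intro i j hi hj hij
      have := he i j hi hj hij
      rw [hε] at this
      simpa using this)
    have hsν : s ≠ (k - 1) * p → ν = 0 := by
      intro hne
      apply hν
      intro h0
      rw [ZMod.natCast_eq_zero_iff] at h0
      obtain ⟨c, hc⟩ := h0
      rw [hc, mul_comm p c] at h1 h2 hne
      have a1 := Nat.lt_of_mul_lt_mul_right h1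
      have a2 := Nat.lt_of_mul_lt_mul_right h2
      exact hne (by rw [show c = k - 1 by omega])
    refine ⟨T - ru5_co (α + ν / 2) (s + 1), μ' + ν, ⟨?_, ?_⟩, ?_⟩
    · intro β hβ
      rw [AddMonoidHom.sub_apply, hN.van β hβ, ru5_co_apply, ru5_coeff_zero hβ (by omega)]
      simp
    · intro i j g β hi hj hs hg hβ
      have ha := act_lead hi hg hβ
      have ho := om_lead hi (le_trans hj0 hj) hg hβ
      have key : η g β - (T (act g β) - T β + μ * coeff (k * p - 1) (om g β) +
          μ' * coeff ((k - 1) * p - 1) (om g β)) =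
          -((α + ν / 2) * coeff (s + 1) (act g β - β)) +
            ν * coeff ((k - 1) * p - 1) (om g β) := by
        rcases Nat.lt_or_eq_of_le hs with hlt | heq
        · rw [hN.eq i j g β hi hj hlt hg hβ, sub_self, ru5_coeff_zero ha.1 (by omega)]
          by_cases hc : s = (k - 1) * p
          · rw [← hc, ru5_coeff_zero ho.1 (by omega)]
            simp
          · rw [hsν hc]
            simp
        · have hb1 := hb i j g β hi hj heq.symm hg hβ
          rw [hb1, hb' i hi (by omega)]
          have hij : (j : ZMod p) = s - i := by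
            rw [heq]
            push_cast
            ring
          have e1 : coeff (s + 1) (act g β - β) =
              ((j : ZMod p) - i) * coeff (i + 1) g.1 * coeff (j + 1) β := by
            rw [heq]
            exact ha.2
          rw [e1, hij]
          by_cases hc : s = (k - 1) * p
          · have hs0 : (s : ZMod p) = 0 := by rw [hc]; simp
            have e2 : coeff ((k - 1) * p - 1) (om g β) =
                coeff (i + 1) g.1 * coeff (j + 1) β * ((i : ZMod p) ^ 3 - i) := by
              rw [← hc, heq]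
              exact ho.2
            rw [e2, hs0]
            field_simp
            ring
          · rw [hsν hc]
            ring
      rw [AddMonoidHom.sub_apply, AddMonoidHom.sub_apply, ru5_co_apply, ru5_co_apply]
      rw [map_sub] at key
      linear_combination key
    · intro hne
      rw [hsν hne, add_zero]

end Pool.Agent.P.MP_e06b60_al.R
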