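import Mathlib
import Pool.Agent.P.MP_e06b60_al.RU3
import Pool.Agent.P.MP_e06b60_al.RU5

namespace Pool.Agent.P.MP_e06b60_al.R

open PowerSeries
open scoped commutatorElement

variable {p : ℕ} [Fact p.Prime]

theorem eta_false (hp : 7 ≤ p) {k j0 : ℕ} (hk : 2 ≤ k) (hd : ¬ p ∣ k) (hj0 : 1 ≤ j0)
    (h3 : j0 + 7 ≤ (k - 1) * p + 1) {η : Nott p → (ZMod p)⟦X⟧ → ZMod p} (h : Eta (k * p) j0 η) : False := by
  obtain ⟨l, rfl⟩ : ∃ l, k = l + 2 := ⟨k - 2, by omega⟩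
  have e1 : (l + 2 - 1) * p = l * p + p := by rw [show l + 2 - 1 = l + 1 by omega]; ring
  have e2 : (l + 2 - 2) * p = l * p := by rw [show l + 2 - 2 = l by omega]
  have e0 : (l + 2) * p = l * p + 2 * p := by ring
  obtain ⟨T0, μ, hμ, h0⟩ := nf_top hp (by omega) hj0 h
  have key : ∀ s, s ≤ (l + 2) * p → (l + 2 - 1) * p + 2 ≤ s → ∃ T, NF (l + 2) j0 s η T μ 0 := by
    intro s hs
    induction hs using Nat.decreasingInduction with
    | self => exact fun _ => ⟨T0, h0⟩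
    | of_succ s hs ih =>
      intro hl
      obtain ⟨T, hT⟩ := ih (by omega)
      obtain ⟨T', μ'', h1, h2⟩ := (nf_step hp hk hj0 (by omega) hs (by omega) h hT 0 (by
        intro i i' j g g' β hi hi' hj hs' hg hg' hβ
        rw [defect_q (m := i + j) hk hi' (by omega) (by omega) hg'
          (om_lead hi (by omega) hg hβ).1, if_neg (by omega)]
        simp)).2 rfl
      exact ⟨T', h2 (by omega) ▸ h1⟩
  obtain ⟨T, hT⟩ := key ((l + 2 - 1) * p + 1 + 1) (by omega) (by omega)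
  have h1 := (nf_step hp hk hj0 (by omega) (by omega) h3 h hT (μ * ((l + 2 : ℕ) : ZMod p)) (by
    intro i i' j g g' β hi hi' hj hs' hg hg' hβ
    obtain ⟨o1, o2⟩ := om_lead hi (by omega) hg hβ
    rw [defect_q (m := i + j) hk hi' (by omega) (by omega) hg' o1, zero_mul, add_zero]
    by_cases hc : i' = 1 ∧ i + j = (l + 2 - 1) * p
    · rw [if_pos hc, if_pos ⟨hc.1, by omega⟩, o2]
      ring
    · rw [if_neg hc, if_neg (fun hc' => hc ⟨hc'.1, by omega⟩), mul_zero])).1 (by simp)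
  exact hd ((ZMod.natCast_eq_zero_iff _ _).1 ((mul_eq_zero.1 h1).resolve_left hμ))

theorem eta_form (hp : 7 ≤ p) {k j0 : ℕ} (hk : 1 ≤ k) (hd : p ∣ k) (hj0 : 1 ≤ j0)
    (h3 : j0 + 7 ≤ (k - 2) * p + 2) {η : Nott p → (ZMod p)⟦X⟧ → ZMod p} (h : Eta (k * p) j0 η) :
    ∃ T μ μ', μ ≠ 0 ∧ NF k j0 ((k - 2) * p + 2) η T μ μ' := by
  have hk2 : 2 ≤ k := le_trans (by omega) (Nat.le_of_dvd hk hd)
  obtain ⟨l, rfl⟩ : ∃ l, k = l + 2 := ⟨k - 2, by omega⟩
  have e2 : (l + 2 - 2) * p = l * p := by rw [show l + 2 - 2 = l by omega]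
  have e0 : (l + 2) * p = l * p + 2 * p := by ring
  obtain ⟨T0, μ, hμ, h0⟩ := nf_top hp hk hj0 h
  have key : ∀ s, s ≤ (l + 2) * p → (l + 2 - 2) * p + 2 ≤ s →
      ∃ T μ', NF (l + 2) j0 s η T μ μ' := by
    intro s hs
    induction hs using Nat.decreasingInduction with
    | self => exact fun _ => ⟨T0, 0, h0⟩
    | of_succ s hs ih =>
      intro hl
      obtain ⟨T, μ', hT⟩ := ih (by omega)
      obtain ⟨T', μ'', h1, -⟩ := (nf_step hp hk2 hj0 (by omega) hs (by omega) h hT 0 (by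
        intro i i' j g g' β hi hi' hj hs' hg hg' hβ
        obtain ⟨d1, d2⟩ := defect_p (m := i + j) (by omega) hk hd hi' (by omega) (by omega) hg'
          (om_lead hi (by omega) hg hβ).1
        rw [d1, d2]
        simp)).2 rfl
      exact ⟨T', μ'', h1⟩
  obtain ⟨T, μ', hT⟩ := key ((l + 2 - 2) * p + 2) (by omega) le_rfl
  exact ⟨T, μ, μ', hμ, hT⟩

end Pool.Agent.P.MP_e06b60_al.R
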