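import Mathlib
import Pool.Agent.P.MP_e06b60_al.RU1
import Pool.Agent.P.MP_e06b60_al.RU3

namespace Pool.Agent.P.MP_e06b60_al.R

open PowerSeries
open scoped commutatorElement

variable {p : ℕ} [Fact p.Prime]

/-- Substitution of a group element, as a ring homomorphism. -/
noncomputable def rv1_sub (h : Nott p) : (ZMod p)⟦X⟧ →+* (ZMod p)⟦X⟧ :=
  (substAlgHom (R := ZMod p) (hasSubst_of h.2.1)).toRingHom

theorem rv1_sub_apply (h : Nott p) (f : (ZMod p)⟦X⟧) :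
    rv1_sub h f = (f.subst h.1 : (ZMod p)⟦X⟧) := by
  simp [rv1_sub, coe_substAlgHom]

theorem rv1_sub_X (h : Nott p) : rv1_sub h X = h.1 := by
  rw [rv1_sub_apply, subst_X (hasSubst_of h.2.1)]

theorem rv1_sub_C (h : Nott p) (c : ZMod p) : rv1_sub h (C c) = C c := by
  have := (substAlgHom (R := ZMod p) (hasSubst_of h.2.1)).commutes c
  simpa [rv1_sub] using this

theorem rv1_dx_mul (g h : Nott p) : dx (g * h).1 = rv1_sub h (dx g.1) * dx h.1 := by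
  rw [mul_val, rv1_sub_apply]
  exact derivative_subst (hasSubst_of h.2.1)

theorem rv1_sub_inS {c : ZMod p} {g : Nott p} (hg : InS c g) (h : Nott p) :
    h.1 ^ 2 * rv1_sub h (sch g) * (g * h).1 ^ 2 =
      C c * ((g * h).1 ^ 2 - h.1 ^ 2 * rv1_sub h (dx g.1) ^ 2) := by
  have h1 := congrArg (rv1_sub h) hg
  simp only [map_mul, map_pow, map_sub, rv1_sub_X, rv1_sub_C] at h1
  rw [mul_val, ← rv1_sub_apply]
  exact h1

theorem rv1_sch_one : sch (1 : Nott p) = 0 := by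
  simp [sch, one_val, dx]

theorem inS_one (c : ZMod p) : InS c (1 : Nott p) := by
  unfold InS
  rw [rv1_sch_one, one_val]
  simp [dx]

theorem inS_mul (hp : 3 ≤ p) {c : ZMod p} {g h : Nott p} (hg : InS c g) (hh : InS c h) : InS c (g * h) := by
  have h1 := rv1_sub_inS hg h
  have h0 : h.1 ≠ 0 := by
    intro h2
    have := h.2.2
    rw [h2] at this
    simp at this
  unfold InS at hh ⊢
  rw [sch_mul hp, rv1_dx_mul, ← rv1_sub_apply]
  apply mul_left_cancel₀ (pow_ne_zero 2 h0)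
  linear_combination X ^ 2 * dx h.1 ^ 2 * h1 + (g * h).1 ^ 2 * hh

theorem inS_inv (hp : 3 ≤ p) {c : ZMod p} {g : Nott p} (hg : InS c g) : InS c g⁻¹ := by
  have h1 := rv1_sub_inS hg g⁻¹
  have h2 := sch_mul hp g g⁻¹
  have h3 := rv1_dx_mul g g⁻¹
  rw [mul_inv_cancel] at h1 h2 h3
  rw [rv1_sch_one, ← rv1_sub_apply] at h2
  rw [one_val] at h1 h3
  have h4 : dx (X : (ZMod p)⟦X⟧) = 1 := by simp [dx]
  rw [h4] at h3
  unfold InS
  linear_combination (-(X ^ 2 * (g⁻¹).1 ^ 2)) * h2 - dx (g⁻¹).1 ^ 2 * h1 -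
    C c * (g⁻¹).1 ^ 2 * (1 + rv1_sub g⁻¹ (dx g.1) * dx (g⁻¹).1) * h3

theorem om_inS {c : ZMod p} {g : Nott p} (hg : InS c g) (γ : (ZMod p)⟦X⟧) :
    X ^ 2 * om g (X ^ 2 * γ) = C c * (act g (X ^ 2 * γ) - X ^ 2 * pb g γ) := by
  have h1 := dx_mul_inv g
  unfold InS at hg
  unfold om act pb
  rw [← rv1_sub_apply, ← rv1_sub_apply, map_mul, map_pow, rv1_sub_X]
  linear_combination rv1_sub g γ * (dx g.1)⁻¹ * hg - C c * X ^ 2 * rv1_sub g γ * dx g.1 * h1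

theorem rv1_coeff {c : ZMod p} {g : Nott p} (hg : InS c g) (γ : (ZMod p)⟦X⟧) {n : ℕ} (hn : 1 ≤ n)
    (h : coeff (n - 1) (pb g γ) = coeff (n - 1) γ) :
    coeff (n - 1) (om g (X ^ 2 * γ)) =
      c * (coeff (n + 1) (act g (X ^ 2 * γ)) - coeff (n + 1) (X ^ 2 * γ)) := by
  obtain ⟨m, rfl⟩ : ∃ m, n = m + 1 := ⟨n - 1, by omega⟩
  have h1 := congrArg (coeff (m + 2)) (om_inS hg γ)
  rw [coeff_X_pow_mul, coeff_C_mul, map_sub, coeff_X_pow_mul] at h1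
  rw [Nat.add_sub_cancel] at h ⊢
  rw [show m + 1 + 1 = m + 2 from rfl, coeff_X_pow_mul, h1, h]

theorem eta_inS (hp : 3 ≤ p) {k j0 : ℕ} (hk : 1 ≤ k) (hd : p ∣ k) (hj0 : 1 ≤ j0)
    {η : Nott p → (ZMod p)⟦X⟧ → ZMod p} {T : (ZMod p)⟦X⟧ →+ ZMod p} {μ μ' : ZMod p}
    (h : NF k j0 ((k - 2) * p + 2) η T μ μ') (c : ZMod p) : ∃ U : (ZMod p)⟦X⟧ →+ ZMod p,
      (∀ β, X ^ (k * p + 2) ∣ β → U β = 0) ∧
      (∀ β, X ^ (k * p + 1) ∣ β → U β = T β + c * μ * coeff (k * p + 1) β) ∧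
      ∀ i j g β, 1 ≤ i → j0 ≤ j → (k - 2) * p + 2 ≤ i + j → g ∈ Jn p i → InS c g →
        X ^ (j + 1) ∣ β → η g β = U (act g β) - U β := by
  have hkp : p ≤ k := Nat.le_of_dvd (by omega) hd
  have hlt : (k - 1) * p < k * p := Nat.mul_lt_mul_of_pos_right (by omega) (by omega)
  have hpos : 1 ≤ (k - 1) * p := Nat.mul_pos (by omega) (by omega)
  let U : (ZMod p)⟦X⟧ →+ ZMod p := AddMonoidHom.mk'
    (fun β => T β + c * μ * coeff (k * p + 1) β + c * μ' * coeff ((k - 1) * p + 1) β)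
    (fun a b => by simp only [map_add]; ring)
  have hU : ∀ β, U β = T β + c * μ * coeff (k * p + 1) β + c * μ' * coeff ((k - 1) * p + 1) β :=
    fun _ => rfl
  refine ⟨U, fun β hβ => ?_, fun β hβ => ?_, fun i j g β hi hj hs hg hc hβ => ?_⟩
  · rw [hU, h.van β hβ, X_pow_dvd_iff.mp hβ _ (by omega), X_pow_dvd_iff.mp hβ _ (by omega)]
    simp
  · rw [hU, X_pow_dvd_iff.mp hβ ((k - 1) * p + 1) (by omega)]
    simp
  · have he := h.eq i j g β hi hj hs hg hβ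
    obtain ⟨δ, rfl⟩ := hβ
    have h2 : (X : (ZMod p)⟦X⟧) ^ (j + 1) * δ = X ^ 2 * (X ^ (j - 1) * δ) := by
      rw [← mul_assoc, ← pow_add]
      congr 2
      omega
    rw [h2] at he ⊢
    obtain ⟨d1, d2⟩ := defect_p hp hk hd hi (by omega : 1 ≤ j) (by omega) hg
      (dvd_mul_right (X ^ (j - 1)) δ)
    rw [he, rv1_coeff hc _ (by omega) d1, rv1_coeff hc _ hpos d2, hU, hU]
    ring

end Pool.Agent.P.MP_e06b60_al.R
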