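import Mathlib
import Pool.Agent.P.MP_e06b60_al.RQ7
import Pool.Agent.P.MP_e06b60_al.RU6
import Pool.Agent.P.MP_e06b60_al.RV1

namespace Pool.Agent.P.MP_e06b60_al.R

open PowerSeries
open scoped commutatorElement

variable {p k : ℕ} [Fact p.Prime] {G : Type} [Group G]

theorem AD.func (hp : 7 ≤ p) (hk : 3 ≤ k) (D : AD p k G) (hd : p ∣ k) : ∃ μ : ZMod p, μ ≠ 0 ∧
    ∃ la : ZMod p → G → ZMod p, (∀ c, (∀ x ∈ D.F (k * p / 3 + 1), ∀ y ∈ D.F (k * p / 3 + 1),
      ⁅x, y⁆ ∈ D.F (k * p + 1) → la c (x * y) = la c x + la c y) ∧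
      (∀ x ∈ D.F (k * p + 1), la c x = 0) ∧
      ∀ i j, 1 ≤ i → k * p / 3 + 1 ≤ j → (k - 2) * p + 2 ≤ i + j → ∀ g ∈ D.F i, InS c (D.θ g) →
        ∀ x ∈ D.F j, la c (g⁻¹ * x * g) = la c x) ∧
      ∀ c c', ∀ x ∈ D.F (k * p), la c x - la c' x = (c' - c) * μ * coeff (k * p + 1) (D.θ x).1 := by
  obtain ⟨lam, η, hη, hmul, hzero, hcl⟩ := D.exists_eta hp hk
  have hpk : p ≤ k := Nat.le_of_dvd (by omega) hd
  have hkp : 7 * k ≤ k * p := by nlinarith
  have hpp : p * 7 ≤ k * p := by nlinarith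
  have hsub : (k - 2) * p + 2 * p = k * p := by
    rw [← add_mul]; congr 1; omega
  obtain ⟨T, μ, μ', hμ, hN⟩ := eta_form hp (by omega) hd (by omega : 1 ≤ k * p / 3 + 1)
    (by omega) hη
  have hU := fun c => eta_inS (by omega : 3 ≤ p) (by omega) hd (by omega : 1 ≤ k * p / 3 + 1) hN c
  choose U hU1 hU2 hU3 using hU
  have hJ : ∀ {n : ℕ}, 1 ≤ n → ∀ x ∈ D.F n, D.θ x ∈ Jn p (min n (k * p)) := by
    intro n hn x hx
    exact (D.pre _ (by omega) (min_le_right _ _) x).mp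
      (D.toNS.mono (by omega) (min_le_left _ _) hx)
  have hJ0 : ∀ x ∈ D.F (k * p / 3 + 1), D.θ x ∈ Jn p (k * p / 3 + 1) := fun x hx =>
    (D.pre _ (by omega) (by omega) x).mp hx
  have hUc : ∀ c {a b : (ZMod p)⟦X⟧}, X ^ (k * p + 2) ∣ a - b → U c a = U c b := by
    intro c a b h
    have := hU1 c _ h
    rwa [map_sub, sub_eq_zero] at this
  refine ⟨μ, hμ, fun c x => lam x - U c (lg (D.θ x)), fun c => ⟨?_, ?_, ?_⟩, ?_⟩
  · intro x hx y hy hxy
    have h1 := lg_baer (by omega : 3 ≤ p) (by omega) (hJ0 x hx) (hJ0 y hy)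
    have h2 : ⁅D.θ y, D.θ x⁆ ^ ((p + 1) / 2) ∈ Jn p (k * p + 1) := by
      refine pow_mem ?_ _
      rw [← map_commutatorElement, ← commutatorElement_inv]
      exact D.deep _ (inv_mem hxy)
    have h3 : X ^ (k * p + 2) ∣
        (D.θ x * D.θ y * ⁅D.θ y, D.θ x⁆ ^ ((p + 1) / 2)).1 - (D.θ x * D.θ y).1 :=
      congr_of_inv_mul_mem (by rwa [inv_mul_cancel_left])
    have h4 := hUc c (lg_congr h3)
    have h5 := hUc c ((pow_dvd_pow X (by omega)).trans h1)
    simp only [map_mul]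
    rw [hmul x hx y hy hxy, ← h4, h5, map_add]
    ring
  · intro x hx
    have h1 := (lg_lead (by omega) (D.deep x hx)).1
    simp only [hzero x hx, hU1 c _ h1, sub_zero]
  · intro i j hi hj hij g hg hS x hx
    have hx0 := D.toNS.mono (by omega) hj hx
    have h1 := hcl x hx0 g
    have h2 := lg_conj (by omega : 3 ≤ p) (by omega) (hJ0 x hx0) (D.θ g)
    have h3 := hUc c ((pow_dvd_pow X (by omega)).trans h2)
    have h4 := hU3 c (min i (k * p)) (min j (k * p)) (D.θ g) (lg (D.θ x)) (by omega) (by omega)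
      (by omega) (hJ hi g hg) hS (lg_lead (by omega) (hJ (by omega) x hx)).1
    simp only [map_mul, map_inv]
    rw [h3]
    linear_combination h1 + h4
  · intro c c' x hx
    have hx' := (D.pre _ (by omega) le_rfl x).mp hx
    obtain ⟨h1, h2⟩ := lg_lead (by omega) hx'
    simp only [hU2 c _ h1, hU2 c' _ h1, h2]
    ring

end Pool.Agent.P.MP_e06b60_al.R
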