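import Mathlib
import Pool.Agent.P.MP_e06b60_al.RV2
import Pool.Agent.P.MP_e06b60_al.RV3
import Pool.Agent.P.MP_e06b60_al.RV4

namespace Pool.Agent.P.MP_e06b60_al.R

open PowerSeries
open scoped commutatorElement

variable {p k : ℕ} [Fact p.Prime] {G : Type} [Group G]

theorem rv5_elt (hp : 7 ≤ p) (hk : 3 ≤ k) (D : AD p k G) (hd : p ∣ k) {a : ℕ} (ha : a = 1 ∨ a = 2)
    {la : G → ZMod p}
    (hmul : ∀ x ∈ D.F (k * p / 3 + 1), ∀ y ∈ D.F (k * p / 3 + 1), ⁅x, y⁆ ∈ D.F (k * p + 1) →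
      la (x * y) = la x + la y) (hzero : ∀ x ∈ D.F (k * p + 1), la x = 0)
    (hinv : ∀ i j, 1 ≤ i → k * p / 3 + 1 ≤ j → (k - 2) * p + 2 ≤ i + j → ∀ g ∈ D.F i,
      InS ((1 - (a : ZMod p) ^ 2) / 2) (D.θ g) → ∀ x ∈ D.F j, la (g⁻¹ * x * g) = la x) :
    ∃ d ∈ D.F k, coeff (k + 1) (D.θ d).1 = -2 * a ∧ la (d ^ p) = 0 := by
  have hp3 : 3 ≤ p := by omega
  have ha1 : 1 ≤ a := by omega
  have ha2 : a ≤ 2 := by omega
  have hpa : ¬ p ∣ a := fun h => by have := Nat.le_of_dvd (by omega) h; omega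
  have hpka : ¬ p ∣ k - a := fun h => by
    have h1 : p ∣ k - (k - a) := Nat.dvd_sub hd h
    rw [show k - (k - a) = a by omega] at h1
    exact hpa h1
  have hk0 : (k : ZMod p) = 0 := (ZMod.natCast_eq_zero_iff k p).2 hd
  have hka : ((k - a : ℕ) : ZMod p) = -(a : ZMod p) := by
    rw [Nat.cast_sub (by omega), hk0, zero_sub]
  have hw : k ≤ k * p := Nat.le_mul_of_pos_right k (by omega)
  obtain ⟨f, hf, hf1, -, hfS⟩ := exists_ord hp3 hpa
  obtain ⟨g, hg, hg1, hgp, hgS⟩ := exists_ord hp3 hpka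
  rw [hka, neg_sq] at hgS
  obtain ⟨u, rfl⟩ := D.surj f
  obtain ⟨v, rfl⟩ := D.surj g
  have hu : u ∈ D.F a := (D.pre a ha1 (by omega) u).2 hf
  have hv : v ∈ D.F (k - a) := (D.pre (k - a) (by omega) (by omega) v).2 hg
  let M : Subgroup G :=
    { carrier := {x | InS ((1 - (a : ZMod p) ^ 2) / 2) (D.θ x)}
      one_mem' := by
        show InS _ (D.θ 1)
        rw [map_one]
        exact inS_one _
      mul_mem' := by
        intro x y hx hy
        show InS _ (D.θ (x * y))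
        rw [map_mul]
        exact inS_mul hp3 hx hy
      inv_mem' := by
        intro x hx
        show InS _ (D.θ x⁻¹)
        rw [map_inv]
        exact inS_inv hp3 hx }
  have hcore := AD.core hp hk D hd ha M hmul hzero
    (fun i j hi hj hij g hg hgM => hinv i j hi hj hij g hg hgM) hu hv hfS hgS hgp
  have e : k - a + a = k := by omega
  have hm := D.comm (k - a) a (by omega) ha1 v hv u hu
  have hl := (comm_lead (i := k - a) (j := a) (by omega) ha1 hg hf).2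
  rw [e] at hm hl
  refine ⟨⁅v, u⁆, hm, ?_, hcore⟩
  rw [map_commutatorElement, hl, hf1, hg1, hka]
  ring

theorem AD.false (hp : 7 ≤ p) (hk : 3 ≤ k) (D : AD p k G) : False := by
  have h3p : 3 * p ≤ k * p := Nat.mul_le_mul_right p hk
  have h7k : k * 7 ≤ k * p := Nat.mul_le_mul_left k hp
  by_cases hd : p ∣ k
  swap
  · obtain ⟨lam, η, hη, -⟩ := AD.exists_eta hp hk D
    have e : (k - 1) * p + p = k * p := by
      obtain ⟨k', rfl⟩ : ∃ k', k = k' + 1 := ⟨k - 1, by omega⟩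
      rw [Nat.add_sub_cancel]
      ring
    exact eta_false hp (by omega) hd (by omega) (by omega) hη
  obtain ⟨μ, hμ, la, hla, hdiff⟩ := AD.func hp hk D hd
  obtain ⟨d1, hd1, l1, z1⟩ := rv5_elt hp hk D hd (a := 1) (Or.inl rfl) (hla _).1 (hla _).2.1
    (hla _).2.2
  obtain ⟨d2, hd2, l2, z2⟩ := rv5_elt hp hk D hd (a := 2) (Or.inr rfl) (hla _).1 (hla _).2.1
    (hla _).2.2
  have hk1 : 1 ≤ k := by omega
  have j1 : D.θ d1 ∈ Jn p k := (D.pre k hk1 (by omega) d1).1 hd1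
  have j2 : D.θ d2 ∈ Jn p k := (D.pre k hk1 (by omega) d2).1 hd2
  have hy : d2 * (d1 * d1)⁻¹ ∈ D.F (k + 1) := by
    rw [D.pre (k + 1) (by omega) (by omega), map_mul, map_inv, map_mul]
    refine (JW p).cg_of_lead JW_ker hk1 j2 (mul_mem j1 j1) ?_
    rw [JW_lead, JW_lead, Pool.Agent.P.MP_e06b60_al.lam_mul hk1 j1 j1, l1, l2]
    push_cast
    ring
  have he : d1 ^ p ∈ D.F (k * p) := by
    rw [D.pre (k * p) (by omega) le_rfl, map_pow]
    exact pow_mem_Jn hk1 j1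
  have hel : coeff (k * p + 1) (D.θ (d1 ^ p)).1 = -2 := by
    rw [map_pow, pow_lead_Jn hk1 hd j1, l1]
    push_cast
    ring
  have h1 := AD.pow_hom hp hk D _ (D.anti k hk1 hy) _ (mul_mem hd1 hd1)
  have h2 := AD.pow_one hp hk D hd _ hy
  rw [inv_mul_cancel_right, (Commute.refl d1).mul_pow] at h1
  set e := d1 ^ p with hedef
  set y := (d2 * (d1 * d1)⁻¹) ^ p with hydef
  have ht : d2 ^ p * (y * (e * e))⁻¹ * y ∈ D.F (k * p + 1) := mul_mem h1 h2
  set t := d2 ^ p * (y * (e * e))⁻¹ * y with htdef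
  have hdec : d2 ^ p = t * (e * e) := by
    rw [htdef]
    group
  have hj : ∀ x ∈ D.F (k * p), x ∈ D.F (k * p / 3 + 1) := fun x hx =>
    D.toNS.mono (by omega) (by omega) hx
  have htop : ∀ x, x ∈ D.F 1 := fun x => by rw [D.top]; trivial
  obtain ⟨hmul, hzero, -⟩ := hla ((1 - ((2 : ℕ) : ZMod p) ^ 2) / 2)
  rw [hdec, hmul t (hj t (D.anti _ (by omega) ht)) _ (hj _ (mul_mem he he))
    (D.anti _ (by omega) (D.comm _ 1 (by omega) le_rfl t ht _ (htop _))), hzero t ht,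
    hmul e (hj e he) e (hj e he) (by rw [commutatorElement_self]; exact one_mem _)] at z2
  have two : (2 : ZMod p) ≠ 0 := by
    simpa using (cast_ne_zero (p := p) (a := 2) (by omega) (by omega))
  have three : (3 : ZMod p) ≠ 0 := by
    simpa using (cast_ne_zero (p := p) (a := 3) (by omega) (by omega))
  have z3 : la ((1 - ((2 : ℕ) : ZMod p) ^ 2) / 2) e = 0 := by
    have : 2 * la ((1 - ((2 : ℕ) : ZMod p) ^ 2) / 2) e = 0 := by linear_combination z2
    exact (mul_eq_zero.1 this).resolve_left two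
  have h4 := hdiff ((1 - ((1 : ℕ) : ZMod p) ^ 2) / 2) ((1 - ((2 : ℕ) : ZMod p) ^ 2) / 2) e he
  rw [z1, z3, hel] at h4
  have h5 : 3 * μ = 0 := by
    push_cast at h4
    field_simp at h4
    linear_combination -h4
  exact hμ ((mul_eq_zero.1 h5).resolve_left three)

end Pool.Agent.P.MP_e06b60_al.R
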