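import Mathlib
import Pool.Agent.P.MP_e06b60_al.RA2

namespace Pool.Agent.P.MP_e06b60_al.R

open PowerSeries
open scoped commutatorElement

variable {p : ℕ} [Fact p.Prime] {G : Type} [Group G]

/-- The kernel of the leading coefficient. -/
def rz1_ker (A : PF p G) (n : ℕ) (hn : 1 ≤ n) : Subgroup G where
  carrier := {x | x ∈ A.F n ∧ A.lead n x = 0}
  one_mem' := ⟨one_mem _, (A.isFun n hn).one⟩
  mul_mem' := by
    rintro x y ⟨hx, hx0⟩ ⟨hy, hy0⟩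
    exact ⟨mul_mem hx hy, by rw [(A.isFun n hn).mul x hx y hy, hx0, hy0, add_zero]⟩
  inv_mem' := by
    rintro x ⟨hx, hx0⟩
    exact ⟨inv_mem hx, by rw [(A.isFun n hn).inv hx, hx0, neg_zero]⟩

theorem ks_one (A : PF p G) (hA : A.Cen) : Nonempty (KS A 1) := by
  let K : ℕ → Subgroup G := fun n => if h : 1 ≤ n then rz1_ker A n h else ⊤
  have hK : ∀ n x, 1 ≤ n → (x ∈ K n ↔ x ∈ A.F n ∧ A.lead n x = 0) := fun n x hn => by
    simp only [K, dif_pos hn]; rfl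
  have hd : ∀ n, 1 ≤ n → A.F (n + 1) ≤ K n := fun n hn x hx =>
    (hK n x hn).2 ⟨A.anti n hn hx, (A.isFun n hn).zero x hx⟩
  exact ⟨{
    K := K
    le := fun n hn x hx => ((hK n x hn).1 hx).1
    anti := fun n hn x hx => hd n hn ((hK _ x (by omega)).1 hx).1
    deep := hd
    comm := fun n m hn hm x hx y hy => hd _ (by omega)
      (hA n m hn hm x ((hK n x hn).1 hx).1 ((hK n x hn).1 hx).2 y hy)
    comm' := fun n m hn hm x hx y hy =>
      ⟨_, hA n m hn hm x ((hK n x hn).1 hx).1 ((hK n x hn).1 hx).2 y hy, by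
        rw [mul_inv_cancel]; exact one_mem _⟩
    zin := fun n x hx h0 => (hK _ x (by omega)).2 ⟨hx, h0⟩
    zout := fun n x hx _ => ((hK _ x (by omega)).1 hx).2 }⟩

theorem KS.normal {A : PF p G} {q : ℕ} (K : KS A q) {n : ℕ} (hn : 1 ≤ n) : (K.K n).Normal := by
  refine ⟨fun x hx g => ?_⟩
  have e : g * x * g⁻¹ = ⁅x, g⁆⁻¹ * x := by rw [commutatorElement_def]; group
  rw [e]
  exact mul_mem (inv_mem (K.anti n hn (K.comm n 1 hn le_rfl x hx g (A.mem_one g)))) hx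

theorem rz1_pick (A : PF p G) (P : Subgroup G) {n : ℕ} (hn : 1 ≤ n)
    (hout : ∀ x ∈ A.F n, x ∈ P → A.lead n x = 0) : ∃ τ : G → ZMod p,
    ∀ x u, u ∈ A.F n → x * u⁻¹ ∈ P → τ x = A.lead n u := by
  classical
  refine ⟨fun x => if h : ∃ u, u ∈ A.F n ∧ x * u⁻¹ ∈ P then A.lead n h.choose else 0, ?_⟩
  intro x u hu hxu
  have h : ∃ u, u ∈ A.F n ∧ x * u⁻¹ ∈ P := ⟨u, hu, hxu⟩
  simp only [dif_pos h]
  obtain ⟨h1, h2⟩ := h.choose_spec
  have e : h.choose * u⁻¹ = (x * h.choose⁻¹)⁻¹ * (x * u⁻¹) := by group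
  have h3 := hout _ (mul_mem h1 (inv_mem hu)) (e ▸ mul_mem (inv_mem h2) hxu)
  rwa [(A.isFun n hn).div h1 hu, sub_eq_zero] at h3

theorem KS.tau {A : PF p G} {q : ℕ} (K : KS A q) (hq : 1 ≤ q) (N : ℕ) : ∃ τ : G → ZMod p,
    ∀ x u, u ∈ A.F (N + q) → x * u⁻¹ ∈ K.K (N + 1) → τ x = A.lead (N + q) u :=
  rz1_pick A _ (by omega) fun x hx h => K.zout N x h hx

theorem rz1_conj (P : Subgroup G) [P.Normal] {u b z : G} (h1 : ⁅u, ⁅b, z⁆⁆ ∈ P)
    (h2 : ⁅⁅b, z⁆, ⁅u, z⁆⁆ ∈ P) :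
    QuotientGroup.mk' P ⁅u, b * z * b⁻¹⁆ = QuotientGroup.mk' P ⁅u, z⁆ := by
  have e : ⁅u, b * z * b⁻¹⁆ = ⁅u, ⁅b, z⁆⁆ * ⁅⁅b, z⁆, ⁅u, z⁆⁆ * ⁅u, z⁆ := by
    simp only [commutatorElement_def]; group
  have h3 : QuotientGroup.mk' P (⁅u, ⁅b, z⁆⁆ * ⁅⁅b, z⁆, ⁅u, z⁆⁆) = 1 :=
    (QuotientGroup.eq_one_iff _).2 (mul_mem h1 h2)
  rw [e, map_mul, h3, one_mul]

theorem KS.jacobi {A : PF p G} {q : ℕ} (K : KS A q) {n i j : ℕ} (hn : 1 ≤ n) (hi : 1 ≤ i)
    (hj : 1 ≤ j) {x y z : G} (hx : x ∈ K.K n) (hy : y ∈ A.F i) (hz : z ∈ A.F j) :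
    ⁅⁅x, y⁆, z⁆ * ⁅⁅y, z⁆, x⁆ * ⁅⁅z, x⁆, y⁆ ∈ K.K (n + i + j + 1) := by
  have hN := K.normal (show 1 ≤ n + i + j + 1 by omega)
  have flip : ∀ {m : ℕ} {a b : G}, ⁅a, b⁆ ∈ K.K m → ⁅b, a⁆ ∈ K.K m := fun h => by
    rw [← commutatorElement_inv]; exact inv_mem h
  have cen : ∀ {a : G} (b : G), a ∈ K.K (n + i + j) → ⁅b, a⁆ ∈ K.K (n + i + j + 1) :=
    fun b ha => flip (K.comm _ 1 (by omega) le_rfl _ ha b (A.mem_one b))
  have one : ∀ {m : ℕ} {a : G} (b : G), 1 ≤ m → a ∈ A.F m → ⁅b, a⁆ ∈ A.F (m + 1) :=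
    fun b hm ha => by
      rw [← commutatorElement_inv]
      exact inv_mem (A.comm _ 1 hm le_rfl _ ha b (A.mem_one b))
  have hxy := K.comm n i hn hi x hx y hy
  have hzx := flip (K.comm n j hn hj x hx z hz)
  have hyz := A.comm i j hi hj y hy z hz
  have e1 := rz1_conj (K.K (n + i + j + 1)) (u := ⁅x, y⁆) (b := y) (z := z)
    (K.comm (n + i) (j + 1) (by omega) (by omega) _ hxy _ (one y hj hz))
    (cen _ (K.comm _ _ (by omega) hj _ hxy _ hz))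
  have e2 := rz1_conj (K.K (n + i + j + 1)) (u := ⁅y, z⁆) (b := z) (z := x)
    (flip (by
      have := K.comm (n + 1) (i + j) (by omega) (by omega) _
        (flip (K.comm n 1 hn le_rfl x hx z (A.mem_one z))) _ hyz
      rwa [show n + 1 + (i + j) = n + i + j + 1 by omega] at this))
    (cen _ (flip (by
      have := K.comm n (i + j) hn (by omega) _ hx _ hyz
      rwa [← add_assoc] at this)))
  have e3 := rz1_conj (K.K (n + i + j + 1)) (u := ⁅z, x⁆) (b := x) (z := y)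
    (by
      have := K.comm (n + j) (i + 1) (by omega) (by omega) _ hzx _ (one x hi hy)
      rwa [show n + j + (i + 1) = n + i + j + 1 by omega] at this)
    (cen _ (by
      have := K.comm (n + j) i (by omega) hi _ hzx _ hy
      rwa [show n + j + i = n + i + j by omega] at this))
  rw [← QuotientGroup.eq_one_iff]
  change QuotientGroup.mk' _ _ = 1
  rw [map_mul, map_mul, ← e1, ← e2, ← e3, ← map_mul, ← map_mul,
    commutatorElement_commutatorElement_conj_mul, map_one]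

theorem chain_wf (A : PF p G) (E : ℕ → Subgroup G) (hn : ∀ n, 1 ≤ n → (E n).Normal) (h1 : E 1 = ⊤)
    (ha : ∀ n, 1 ≤ n → E (n + 1) ≤ E n) (hle : ∀ n, 1 ≤ n → A.F n ≤ E n)
    (hs : ∀ n, 1 ≤ n → ∀ x ∈ E n, ∃ u ∈ A.F n, x * u⁻¹ ∈ E (n + 1))
    (hin : ∀ n, 1 ≤ n → ∀ x ∈ A.F n, A.lead n x = 0 → x ∈ E (n + 1))
    (hout : ∀ n, 1 ≤ n → ∀ x ∈ A.F n, x ∈ E (n + 1) → A.lead n x = 0) :
    ∃ B : PF p G, B.Ker ∧ ∀ n, 1 ≤ n → B.F n = E n ∧ ∀ x ∈ A.F n, B.lead n x = A.lead n x := by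
  have hτ : ∀ n, ∃ τ : G → ZMod p, 1 ≤ n →
      ∀ x u, u ∈ A.F n → x * u⁻¹ ∈ E (n + 1) → τ x = A.lead n u := fun n => by
    by_cases h : 1 ≤ n
    · obtain ⟨τ, hτ⟩ := rz1_pick A (E (n + 1)) h (hout n h)
      exact ⟨τ, fun _ => hτ⟩
    · exact ⟨0, fun h' => absurd h' h⟩
  choose τ hτ using hτ
  have mono : ∀ i d, 1 ≤ i → E (i + d) ≤ E i := fun i d hi => by
    induction d with
    | zero => exact le_rfl
    | succ d ih => exact (ha (i + d) (by omega)).trans ih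
  have appr : ∀ i d, 1 ≤ i → ∀ x ∈ E i, ∃ u ∈ A.F i, x * u⁻¹ ∈ E (i + d) := fun i d hi x hx => by
    induction d with
    | zero => exact ⟨1, one_mem _, by simpa using hx⟩
    | succ d ih =>
      obtain ⟨u, hu, h⟩ := ih
      obtain ⟨v, hv, h'⟩ := hs (i + d) (by omega) _ h
      refine ⟨v * u, mul_mem (A.toNS.mono hi (by omega) hv) hu, ?_⟩
      rwa [mul_inv_rev, ← mul_assoc]
  have cg : ∀ n (_ : (E n).Normal) (x u : G),
      x * u⁻¹ ∈ E n ↔ QuotientGroup.mk' (E n) x = QuotientGroup.mk' (E n) u := fun n _ x u => by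
    rw [← QuotientGroup.eq_one_iff, ← mul_inv_eq_one (a := QuotientGroup.mk' (E n) x)]; rfl
  have key : ∀ i j, 1 ≤ i → 1 ≤ j → ∀ x ∈ E i, ∀ y ∈ E j, ∃ u ∈ A.F i, ∃ v ∈ A.F j,
      x * u⁻¹ ∈ E (i + 1) ∧ y * v⁻¹ ∈ E (j + 1) ∧ ⁅x, y⁆ * ⁅u, v⁆⁻¹ ∈ E (i + j + 1) := by
    intro i j hi hj x hx y hy
    obtain ⟨u, hu, h⟩ := appr i (j + 1) hi x hx
    obtain ⟨v, hv, h'⟩ := appr j (i + 1) hj y hy
    have hN := hn (i + j + 1) (by omega)
    refine ⟨u, hu, v, hv, mono (i + 1) j (by omega) (by rwa [add_right_comm]),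
      mono (j + 1) i (by omega) (by rwa [add_right_comm]), ?_⟩
    rw [← add_assoc] at h
    rw [show j + (i + 1) = i + j + 1 by omega] at h'
    rw [cg _ hN] at h h' ⊢
    rw [map_commutatorElement, map_commutatorElement, h, h']
  have same : ∀ n, 1 ≤ n → ∀ x ∈ A.F n, τ n x = A.lead n x := fun n h x hx =>
    hτ n h x x hx (by rw [mul_inv_cancel]; exact one_mem _)
  refine ⟨{
    F := E
    anti := ha
    comm := fun i j hi hj x hx y hy => ?_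
    lead := τ
    top := h1
    isFun := fun n h => ⟨fun x hx y hy => ?_, fun x hx => ?_⟩
    surj := fun n h => ?_
    br := fun i j hi hj x hx y hy => ?_ }, fun n h x hx h0 => ?_, fun n h => ⟨rfl, same n h⟩⟩
  · obtain ⟨u, hu, v, hv, -, -, h⟩ := key i j hi hj x hx y hy
    have := mul_mem (ha _ (by omega) h) (hle _ (by omega) (A.comm i j hi hj u hu v hv))
    rwa [inv_mul_cancel_right] at this
  · obtain ⟨u, hu, h2⟩ := hs n h x hx
    obtain ⟨v, hv, h3⟩ := hs n h y hy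
    have hN := hn (n + 1) (by omega)
    rw [hτ n h x u hu h2, hτ n h y v hv h3, ← (A.isFun n h).mul u hu v hv]
    refine hτ n h _ _ (mul_mem hu hv) ?_
    rw [cg _ hN] at h2 h3 ⊢
    rw [map_mul, map_mul, h2, h3]
  · rw [hτ n h x 1 (one_mem _) (by simpa using hx), (A.isFun n h).one]
  · obtain ⟨g, hg, h2⟩ := A.surj n h
    exact ⟨g, hle n h hg, (same n h g hg).trans h2⟩
  · obtain ⟨u, hu, v, hv, h2, h3, h4⟩ := key i j hi hj x hx y hy
    rw [hτ i hi x u hu h2, hτ j hj y v hv h3,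
      hτ _ (by omega) _ _ (A.comm i j hi hj u hu v hv) h4, A.br i j hi hj u hu v hv]
  · obtain ⟨u, hu, h2⟩ := hs n h x hx
    have := mul_mem h2 (hin n h u hu ((hτ n h x u hu h2).symm.trans h0))
    rwa [inv_mul_cancel_right] at this

end Pool.Agent.P.MP_e06b60_al.R
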