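import Mathlib
import Pool.Agent.P.MP_e06b60_al.RZ1
import Pool.Agent.P.MP_e06b60_al.RL1

namespace Pool.Agent.P.MP_e06b60_al.R

open PowerSeries
open scoped commutatorElement

variable {p : ℕ} [Fact p.Prime] {G : Type} [Group G]

/-- `x` has an approximation of level `N + q` with leading coefficient `c`. -/
def rz2_M {A : PF p G} {q : ℕ} (K : KS A q) (N : ℕ) (x : G) (c : ZMod p) : Prop :=
  ∃ u ∈ A.F (N + q), x * u⁻¹ ∈ K.K (N + 1) ∧ A.lead (N + q) u = c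

section
variable {A : PF p G} {q : ℕ} (K : KS A q)

theorem rz2_uniq (hq : 1 ≤ q) {N : ℕ} {x : G} {c d : ZMod p} (h : rz2_M K N x c)
    (h' : rz2_M K N x d) : c = d := by
  obtain ⟨τ, hτ⟩ := K.tau hq N
  obtain ⟨u, hu, h1, rfl⟩ := h
  obtain ⟨v, hv, h2, rfl⟩ := h'
  rw [← hτ x u hu h1, ← hτ x v hv h2]

theorem rz2_of_K (hq : 1 ≤ q) {N : ℕ} {x : G} (h : x ∈ K.K (N + 1)) : rz2_M K N x 0 :=
  ⟨1, one_mem _, by simpa using h, (A.isFun _ (by omega)).one⟩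

theorem rz2_of_F {N : ℕ} {u : G} (h : u ∈ A.F (N + q)) : rz2_M K N u (A.lead (N + q) u) :=
  ⟨u, h, by simp, rfl⟩

theorem rz2_mem_K {N : ℕ} {x : G} (h : rz2_M K N x 0) : x ∈ K.K (N + 1) := by
  obtain ⟨u, hu, h1, h2⟩ := h
  have := mul_mem h1 (K.zin N u hu h2)
  simpa using this

theorem rz2_mul (hq : 1 ≤ q) {N : ℕ} {x y : G} {c d : ZMod p} (h : rz2_M K N x c)
    (h' : rz2_M K N y d) : rz2_M K N (x * y) (c + d) := by
  obtain ⟨u, hu, h1, rfl⟩ := h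
  obtain ⟨v, hv, h2, rfl⟩ := h'
  refine ⟨u * v, mul_mem hu hv, ?_, (A.isFun _ (by omega)).mul u hu v hv⟩
  have hN := K.normal (n := N + 1) (by omega)
  have h3 := mul_mem h1 (hN.conj_mem _ h2 u)
  have e : x * y * (u * v)⁻¹ = x * u⁻¹ * (u * (y * v⁻¹) * u⁻¹) := by group
  rw [e]; exact h3

theorem rz2_inv (hq : 1 ≤ q) {N : ℕ} {x : G} {c : ZMod p} (h : rz2_M K N x c) :
    rz2_M K N x⁻¹ (-c) := by
  obtain ⟨u, hu, h1, rfl⟩ := h
  refine ⟨u⁻¹, inv_mem hu, ?_, (A.isFun _ (by omega)).inv hu⟩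
  have hN := K.normal (n := N + 1) (by omega)
  have h3 := hN.conj_mem _ (inv_mem h1) u⁻¹
  have e : x⁻¹ * u⁻¹⁻¹ = u⁻¹ * (x * u⁻¹)⁻¹ * u⁻¹⁻¹ := by group
  rw [e]; exact h3

theorem rz2_conj (hq : 1 ≤ q) {N : ℕ} {x : G} {c : ZMod p} (h : rz2_M K N x c) (g : G) :
    rz2_M K N (g * x * g⁻¹) c := by
  obtain ⟨u, hu, h1, rfl⟩ := h
  have hF := A.normal (n := N + q) (by omega)
  refine ⟨g * u * g⁻¹, hF.conj_mem _ hu g, ?_,
    (A.isFun _ (by omega)).conj (by omega) hu (A.mem_one g)⟩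
  have hN := K.normal (n := N + 1) (by omega)
  have h3 := hN.conj_mem _ h1 g
  have e : g * x * g⁻¹ * (g * u * g⁻¹)⁻¹ = g * (x * u⁻¹) * g⁻¹ := by group
  rw [e]; exact h3

theorem rz2_comm (hq : 1 ≤ q) {a j : ℕ} (hj : 1 ≤ j) {w z : G} {c : ZMod p}
    (h : rz2_M K a w c) (hz : z ∈ A.F j) :
    rz2_M K (a + j) ⁅w, z⁆ (((a : ZMod p) + q - j) * c * A.lead j z) := by
  obtain ⟨u, hu, h1, rfl⟩ := h
  have e : ⁅w, z⁆ = (w * u⁻¹) * ⁅u, z⁆ * (w * u⁻¹)⁻¹ * ⁅w * u⁻¹, z⁆ := by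
    simp only [commutatorElement_def]; group
  have h2 : ⁅w * u⁻¹, z⁆ ∈ K.K (a + j + 1) := by
    have := K.comm (a + 1) j (by omega) hj _ h1 _ hz
    rwa [show a + 1 + j = a + j + 1 by omega] at this
  have h3 : ⁅u, z⁆ ∈ A.F (a + j + q) := by
    have := A.comm (a + q) j (by omega) hj _ hu _ hz
    rwa [show a + q + j = a + j + q by omega] at this
  have h4 : A.lead (a + j + q) ⁅u, z⁆ =
      ((a : ZMod p) + q - j) * A.lead (a + q) u * A.lead j z := by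
    have := A.br (a + q) j (by omega) hj _ hu _ hz
    rw [show a + q + j = a + j + q by omega] at this
    rw [this]; push_cast; ring
  have h5 := rz2_mul K hq (rz2_conj K hq (rz2_of_F K h3) (w * u⁻¹)) (rz2_of_K K hq h2)
  rw [← e, h4, add_zero] at h5
  exact h5

end

theorem ks_key (hp : 7 ≤ p) {A : PF p G} (hA : A.Cen) {q : ℕ} (K : KS A q) (hq : 1 ≤ q) {n : ℕ}
    (hn : 1 ≤ n) {x : G} (hx : x ∈ K.K n) : ∃ u ∈ A.F (n + q),
      ∀ m, 1 ≤ m → ∀ y ∈ A.F m, ⁅x * u⁻¹, y⁆ ∈ K.K (n + m + 1) := by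
  classical
  have hex : ∀ m y, ∃ c : ZMod p, 1 ≤ m → y ∈ A.F m → rz2_M K (n + m) ⁅x, y⁆ c := by
    intro m y
    by_cases h : 1 ≤ m ∧ y ∈ A.F m
    · obtain ⟨u, hu, h1⟩ := K.comm' n m hn h.1 x hx y h.2
      exact ⟨A.lead (n + m + q) u, fun _ _ => ⟨u, hu, h1, rfl⟩⟩
    · exact ⟨0, fun h1 h2 => absurd ⟨h1, h2⟩ h⟩
  choose D hD using hex
  have hfun : ∀ m, 1 ≤ m → IsFun p A.toNS m (D m) := by
    intro m hm
    refine ⟨fun y hy y' hy' => ?_, fun y hy => ?_⟩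
    · have e : ⁅x, y * y'⁆ = ⁅x, y⁆ * (y * ⁅x, y'⁆ * y⁻¹) := by
        simp only [commutatorElement_def]; group
      have h1 := rz2_mul K hq (hD m y hm hy) (rz2_conj K hq (hD m y' hm hy') y)
      rw [← e] at h1
      exact rz2_uniq K hq (hD m _ hm (mul_mem hy hy')) h1
    · have h1 : ⁅x, y⁆ ∈ K.K (n + m + 1) := K.comm n (m + 1) hn (by omega) x hx y hy
      exact rz2_uniq K hq (hD m y hm (A.anti m hm hy)) (rz2_of_K K hq h1)
  have hjac : ∀ i j, 1 ≤ i → 1 ≤ j → ∀ y ∈ A.F i, ∀ z ∈ A.F j,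
      ((n : ZMod p) + i + q - j) * D i y * A.lead j z - D (i + j) ⁅y, z⁆ -
        ((n : ZMod p) + j + q - i) * D j z * A.lead i y = 0 := by
    intro i j hi hj y hy z hz
    have h1 := rz2_comm K hq hj (hD i y hi hy) hz
    have h2 := rz2_inv K hq (hD (i + j) _ (by omega) (A.comm i j hi hj y hy z hz))
    have h3 := rz2_comm K hq hi (rz2_inv K hq (hD j z hj hz)) hy
    rw [commutatorElement_inv] at h2 h3
    rw [show n + (i + j) = n + i + j by omega] at h2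
    rw [show n + j + i = n + i + j by omega] at h3
    have h4 := rz2_mul K hq (rz2_mul K hq h1 h2) h3
    have h5 := rz2_uniq K hq h4 (rz2_of_K K hq (K.jacobi hn hi hj hx hy hz))
    push_cast at h5
    linear_combination h5
  have hg : ∀ i, ∃ g : G, 1 ≤ i → g ∈ A.F i ∧ A.lead i g = 1 := by
    intro i
    by_cases h : 1 ≤ i
    · obtain ⟨g, h1, h2⟩ := A.surj i h
      exact ⟨g, fun _ => ⟨h1, h2⟩⟩
    · exact ⟨1, fun h1 => absurd h1 h⟩
  choose g hg using hg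
  have hker : ∀ i, 1 ≤ i → ∀ y ∈ A.F i, A.lead i y = 0 → D i y = 0 := by
    intro i hi y hy h0
    have key : ∀ j : ℕ, 1 ≤ j → ((n : ZMod p) + i + q - j) * D i y = 0 := by
      intro j hj
      have h1 := hjac i j hi hj y hy (g j) (hg j hj).1
      have h2 : D (i + j) ⁅y, g j⁆ = 0 :=
        (hfun (i + j) (by omega)).zero _ (hA i j hi hj y hy h0 _ (hg j hj).1)
      rw [h0, h2, (hg j hj).2] at h1
      linear_combination h1
    rcases one_or_two ((n : ZMod p) + (i : ZMod p) + (q : ZMod p)) with h | h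
    · have := key 1 le_rfl
      rw [Nat.cast_one] at this
      exact (mul_eq_zero.mp this).resolve_left h
    · have := key 2 (by omega)
      rw [Nat.cast_ofNat] at this
      exact (mul_eq_zero.mp this).resolve_left h
  have hlin : ∀ i, 1 ≤ i → ∀ y ∈ A.F i, D i y = A.lead i y * D i (g i) := fun i hi =>
    (hfun i hi).eq_mul (A.isFun i hi) (hg i hi).1 (hg i hi).2 (hker i hi)
  obtain ⟨c, hc⟩ := l3 hp ((n : ZMod p) + q) (fun i => D i (g i)) (by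
    intro i j hi hj
    have h1 := hjac i j hi hj _ (hg i hi).1 _ (hg j hj).1
    rw [hlin (i + j) (by omega) _ (A.comm i j hi hj _ (hg i hi).1 _ (hg j hj).1),
      A.br i j hi hj _ (hg i hi).1 _ (hg j hj).1, (hg i hi).2, (hg j hj).2] at h1
    linear_combination (-1 : ZMod p) * h1)
  obtain ⟨u, hu, hu1⟩ := A.exists_lead (n := n + q) (by omega) c
  refine ⟨u, hu, fun m hm y hy => ?_⟩
  have e : ⁅x * u⁻¹, y⁆ = x * ⁅u⁻¹, y⁆ * x⁻¹ * ⁅x, y⁆ := by
    simp only [commutatorElement_def]; group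
  have h1 := rz2_comm K hq hm (rz2_inv K hq (rz2_of_F K hu)) hy
  have h2 := rz2_mul K hq (rz2_conj K hq h1 x) (hD m y hm hy)
  rw [← e, hu1, hlin m hm y hy] at h2
  have h3 : D m (g m) = c * ((n : ZMod p) + q - m) := hc m hm
  rw [h3] at h2
  have h4 : ((n : ZMod p) + q - m) * -c * A.lead m y +
      A.lead m y * (c * ((n : ZMod p) + q - m)) = 0 := by ring
  rw [h4] at h2
  exact rz2_mem_K K h2

end Pool.Agent.P.MP_e06b60_al.R
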