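import Mathlib
import Pool.Agent.P.MP_e06b60_al.RZ2

namespace Pool.Agent.P.MP_e06b60_al.R

open PowerSeries
open scoped commutatorElement

variable {p : ℕ} [Fact p.Prime] {G : Type} [Group G]

/-- The next approximation. -/
def rz3K {A : PF p G} {q : ℕ} (K : KS A q) (n : ℕ) : Subgroup G where
  carrier := {x | x ∈ K.K n ∧ ∀ m, 1 ≤ m → ∀ y ∈ A.F m, ⁅x, y⁆ ∈ K.K (n + m + 1)}
  one_mem' := ⟨(K.K n).one_mem, fun m _ y _ => by simp⟩
  mul_mem' := by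
    rintro a b ⟨ha, ha'⟩ ⟨hb, hb'⟩
    refine ⟨(K.K n).mul_mem ha hb, fun m hm y hy => ?_⟩
    have e : ⁅a * b, y⁆ = a * ⁅b, y⁆ * a⁻¹ * ⁅a, y⁆ := by
      simp [commutatorElement_def, mul_assoc]
    rw [e]
    exact (K.K _).mul_mem ((K.normal (by omega)).conj_mem _ (hb' m hm y hy) a) (ha' m hm y hy)
  inv_mem' := by
    rintro a ⟨ha, ha'⟩
    refine ⟨(K.K n).inv_mem ha, fun m hm y hy => ?_⟩
    have e : ⁅a⁻¹, y⁆ = a⁻¹ * ⁅a, y⁆⁻¹ * a⁻¹⁻¹ := by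
      simp [commutatorElement_def, mul_assoc]
    rw [e]
    exact (K.normal (by omega)).conj_mem _ ((K.K _).inv_mem (ha' m hm y hy)) a⁻¹

theorem rz3_mem {A : PF p G} {q : ℕ} (K : KS A q) {n : ℕ} {x : G} :
    x ∈ rz3K K n ↔ x ∈ K.K n ∧ ∀ m, 1 ≤ m → ∀ y ∈ A.F m, ⁅x, y⁆ ∈ K.K (n + m + 1) := Iff.rfl

theorem rz3_le {A : PF p G} {q : ℕ} (K : KS A q) {n : ℕ} (hn : 1 ≤ n) :
    K.K (n + 1) ≤ rz3K K n := by
  intro x hx
  refine (rz3_mem K).2 ⟨K.anti n hn hx, fun m hm y hy => ?_⟩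
  have := K.comm (n + 1) m (by omega) hm x hx y hy
  rwa [show n + 1 + m = n + m + 1 by omega] at this

theorem rz3_key (hp : 7 ≤ p) {A : PF p G} (hA : A.Cen) {q : ℕ} (K : KS A q) (hq : 1 ≤ q) {n : ℕ}
    (hn : 1 ≤ n) {x : G} (hx : x ∈ K.K n) : ∃ u ∈ A.F (n + q), x * u⁻¹ ∈ rz3K K n := by
  obtain ⟨u, hu, h⟩ := ks_key hp hA K hq hn hx
  exact ⟨u, hu, (rz3_mem K).2 ⟨(K.K n).mul_mem hx ((K.K n).inv_mem (K.deep n hn hu)), h⟩⟩

theorem ks_next (hp : 7 ≤ p) {A : PF p G} (hA : A.Cen) {q : ℕ} (K : KS A q) (hq : 1 ≤ q) :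
    ∃ K' : KS A (q + 1), ∀ n, 1 ≤ n → K'.K n ≤ K.K n ∧
      ∀ x ∈ K.K n, ∃ u ∈ A.F (n + q), x * u⁻¹ ∈ K'.K n := by
  refine ⟨⟨rz3K K, ?_, ?_, ?_, ?_, ?_, ?_, ?_⟩, fun n hn =>
    ⟨fun x hx => ((rz3_mem K).1 hx).1, fun x hx => rz3_key hp hA K hq hn hx⟩⟩
  · exact fun n hn x hx => K.le n hn ((rz3_mem K).1 hx).1
  · exact fun n hn x hx => rz3_le K hn ((rz3_mem K).1 hx).1
  · intro n hn x hx
    refine rz3_le K hn (K.deep (n + 1) (by omega) ?_)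
    rwa [show n + 1 + q = n + (q + 1) by omega]
  · exact fun n m hn hm x hx y hy => rz3_le K (by omega) (((rz3_mem K).1 hx).2 m hm y hy)
  · intro n m hn hm x hx y hy
    obtain ⟨u, hu, h⟩ := rz3_key hp hA K hq (n := n + m + 1) (by omega)
      (((rz3_mem K).1 hx).2 m hm y hy)
    exact ⟨u, by rwa [show n + m + (q + 1) = n + m + 1 + q by omega], h⟩
  · intro n x hx hl
    have e : n + (q + 1) = n + 1 + q := by omega
    rw [e] at hx hl
    exact rz3_le K (by omega) (K.zin (n + 1) x hx hl)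
  · intro n x hx hxF
    have key : ∀ m : ℕ, 1 ≤ m →
        (((n + (q + 1) : ℕ) : ZMod p) - m) * A.lead (n + (q + 1)) x = 0 := by
      intro m hm
      obtain ⟨g, hg, hg1⟩ := A.surj m hm
      have h1 := ((rz3_mem K).1 hx).2 m hm g hg
      have h2 := A.comm (n + (q + 1)) m (by omega) hm x hxF g hg
      have h3 := A.br (n + (q + 1)) m (by omega) hm x hxF g hg
      have e : n + (q + 1) + m = n + 1 + m + q := by omega
      rw [e] at h2 h3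
      rw [K.zout (n + 1 + m) _ h1 h2, hg1, mul_one] at h3
      exact h3.symm
    rcases one_or_two ((n + (q + 1) : ℕ) : ZMod p) with h | h
    · have := key 1 le_rfl
      rw [Nat.cast_one] at this
      exact (mul_eq_zero.1 this).resolve_left h
    · have := key 2 (by omega)
      rw [Nat.cast_ofNat] at this
      exact (mul_eq_zero.1 this).resolve_left h

theorem exists_wf (hp : 7 ≤ p) (A : PF p G) (hA : A.Cen) : ∃ B : PF p G, B.Ker ∧
    ∀ n, 1 ≤ n → A.F n ≤ B.F n ∧ ∀ x ∈ A.F n, B.lead n x = A.lead n x := by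
  have hnext : ∀ q (K : KS A (q + 1)), ∃ K' : KS A (q + 1 + 1), ∀ n, 1 ≤ n → K'.K n ≤ K.K n ∧
      ∀ x ∈ K.K n, ∃ u ∈ A.F (n + (q + 1)), x * u⁻¹ ∈ K'.K n :=
    fun q K => ks_next hp hA K (by omega)
  choose nx hnx using hnext
  obtain ⟨K0⟩ := ks_one A hA
  let s : ∀ q, KS A (q + 1) := fun q => Nat.rec (motive := fun q => KS A (q + 1)) K0 nx q
  have hs : ∀ q, s (q + 1) = nx q (s q) := fun q => rfl
  let E : ℕ → Subgroup G := fun n => if n ≤ 1 then ⊤ else (s (n - 2)).K 1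
  have hE1 : E 1 = ⊤ := if_pos le_rfl
  have hE : ∀ q, E (q + 2) = (s q).K 1 := fun q => if_neg (by omega)
  have hcase : ∀ n, 1 ≤ n → n = 1 ∨ ∃ q, n = q + 2 := fun n hn => by
    rcases hn.eq_or_lt with h | h
    · exact Or.inl h.symm
    · exact Or.inr ⟨n - 2, by omega⟩
  have hle : ∀ n, 1 ≤ n → A.F n ≤ E n := by
    intro n hn
    rcases hcase n hn with rfl | ⟨q, rfl⟩
    · rw [hE1]; exact le_top
    · rw [hE]
      have := (s q).deep 1 le_rfl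
      rwa [show 1 + (q + 1) = q + 2 by omega] at this
  suffices hh : ∃ B : PF p G, B.Ker ∧
      ∀ n, 1 ≤ n → B.F n = E n ∧ ∀ x ∈ A.F n, B.lead n x = A.lead n x by
    obtain ⟨B, hB, h⟩ := hh
    exact ⟨B, hB, fun n hn => ⟨(h n hn).1 ▸ hle n hn, (h n hn).2⟩⟩
  refine chain_wf A E ?_ hE1 ?_ hle ?_ ?_ ?_
  · intro n hn
    rcases hcase n hn with rfl | ⟨q, rfl⟩
    · rw [hE1]; infer_instance
    · rw [hE]; exact (s q).normal le_rfl
  · intro n hn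
    rcases hcase n hn with rfl | ⟨q, rfl⟩
    · rw [hE1]; exact le_top
    · rw [show q + 2 + 1 = q + 1 + 2 by omega, hE, hE, hs]
      exact (hnx q (s q) 1 le_rfl).1
  · intro n hn x hx
    rcases hcase n hn with rfl | ⟨q, rfl⟩
    · exact ⟨x, A.mem_one x, by rw [mul_inv_cancel]; exact (E _).one_mem⟩
    · rw [hE] at hx
      obtain ⟨u, hu, hxu⟩ := (hnx q (s q) 1 le_rfl).2 x hx
      refine ⟨u, by rwa [show 1 + (q + 1) = q + 2 by omega] at hu, ?_⟩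
      rw [show q + 2 + 1 = q + 1 + 2 by omega, hE, hs]
      exact hxu
  · intro n hn x hx hl
    obtain ⟨q, rfl⟩ : ∃ q, n = q + 1 := ⟨n - 1, by omega⟩
    rw [hE]
    exact (s q).zin 0 x (by rwa [Nat.zero_add]) (by rwa [Nat.zero_add])
  · intro n hn x hx hx'
    obtain ⟨q, rfl⟩ : ∃ q, n = q + 1 := ⟨n - 1, by omega⟩
    rw [hE] at hx'
    have := (s q).zout 0 x hx' (by rwa [Nat.zero_add])
    rwa [Nat.zero_add] at this

end Pool.Agent.P.MP_e06b60_al.R
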