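import Mathlib
import Pool.Agent.P.MP_e06b60_al.RS3
import Pool.Agent.P.MP_e06b60_al.RT4
import Pool.Agent.P.MP_e06b60_al.RT5
import Pool.Agent.P.MP_e06b60_al.RT6
import Pool.Agent.P.MP_e06b60_al.RZ3
import Pool.Agent.P.MP_e06b60_al.RB4
import Pool.Agent.P.MP_e06b60_al.RP8
import Pool.Agent.P.MP_e06b60_al.RV5

namespace Pool.Agent.P.MP_e06b60_al.R

open PowerSeries
open scoped commutatorElement

theorem main (p : ℕ) (hpp : p.Prime) (hp : 7 ≤ p) (G : Type) [Group G] [TopologicalSpace G]
    [IsTopologicalGroup G] [CompactSpace G] [T2Space G] [TotallyDisconnectedSpace G]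
    (hpro : ∀ N : OpenNormalSubgroup G, IsPGroup p (G ⧸ N.toSubgroup)) [Infinite G]
    (Φ : (G ⧸ gamma G (2 * p)) ≃ₜ* (Nott p ⧸ gamma (Nott p) (2 * p))) :
    Nonempty (G ≃ₜ* Nott p) := by
  have : Fact p.Prime := ⟨hpp⟩
  have : T2Space (Nott p) := nott_t2
  let ψ : G →* Nott p ⧸ gamma (Nott p) (2 * p) :=
    Φ.toMulEquiv.toMonoidHom.comp (QuotientGroup.mk' _)
  have hc : Continuous ψ := Φ.continuous_toFun.comp QuotientGroup.continuous_mk
  have hs : Function.Surjective ψ := Φ.surjective.comp (QuotientGroup.mk'_surjective _)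
  have hker : ψ.ker = gamma G (2 * p) := by
    ext x
    rw [MonoidHom.mem_ker, ← QuotientGroup.eq_one_iff]
    exact Φ.toMulEquiv.map_eq_one_iff
  obtain ⟨S, g0, hb⟩ := base_exists hp _ (gamma_nott hp) ψ hc hs hker
  have hexp := ws_exp (p := p) S (hb.pow 1 le_rfl (by omega)) (hb.pow 2 (by omega) (by omega))
  have hinf := ws_inf hpro S
  obtain ⟨g, z, hstr⟩ := str_all hp (by omega) hexp hb
  obtain ⟨A, hAF, hcen, hA⟩ := pf_of_str hexp hstr (no_collapse hp hexp hstr hinf)
  obtain ⟨B, hB, hAB⟩ := exists_wf hp A hcen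
  have hopen : ∀ n, 1 ≤ n → IsOpen (B.F n : Set G) := by
    intro n hn
    refine Subgroup.isOpen_mono (H₁ := S.F (n + 1)) ?_ (hstr n).opn
    exact (S.anti n hn).trans (hAF n ▸ (hAB n hn).1)
  obtain ⟨θ, hθc, hθs, hθ⟩ := exists_hom hp B hB (B.pw hp hB) hopen
  have hlead : ∀ n, 1 ≤ n → ∀ x ∈ S.F n, θ x ∈ Jn p n ∧ coeff (n + 1) (θ x).1 = A.lead n x := by
    intro n hn x hx
    have hx' : x ∈ A.F n := hAF n ▸ hx
    have hxB := (hAB n hn).1 hx'
    exact ⟨(hθ n hn x).1.mp hxB, ((hθ n hn x).2 hxB).trans ((hAB n hn).2 x hx')⟩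
  have hpre : ∀ w, (∀ n, 1 ≤ n → n < w → z n ∈ S.F (n + 1)) →
      ∀ n, 1 ≤ n → n ≤ w → ∀ x, θ x ∈ Jn p n → x ∈ S.F n := by
    intro w hw n hn
    induction n, hn using Nat.le_induction with
    | base => intro _ x _; rw [S.top]; trivial
    | succ n hn ih =>
      intro hnw x hx
      have hxn := ih (by omega) x (Jn_anti (Nat.le_succ n) hx)
      have h0 : A.lead n x = 0 := by
        rw [← (hlead n hn x hxn).2]
        exact (mem_succ_iff hn (Jn_anti (Nat.le_succ n) hx)).mp hx
      obtain ⟨b, hb'⟩ := (hA n hn).2.2 x hxn h0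
      have := mul_mem hb' (pow_mem (hw n hn (by omega)) b)
      simpa using this
  have hz : ∀ w, 1 ≤ w → z w ∈ S.F (w + 1) := by
    intro w
    induction w using Nat.strong_induction_on with
    | _ w ih =>
      intro hw
      by_contra hzw
      have hlt : ∀ n, 1 ≤ n → n < w → z n ∈ S.F (n + 1) := fun n hn h => ih n h hn
      have hnt : ¬ (¬ p ∣ w ∨ w ≤ 2 * p + 3) := fun h =>
        hzw (by rw [(hstr w).triv w hw le_rfl h]; exact one_mem _)
      have hdv : p ∣ w := by by_contra h; exact hnt (Or.inl h)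
      obtain ⟨k, hk⟩ := hdv
      rw [mul_comm] at hk
      subst hk
      have hk3 : 3 ≤ k := by
        by_contra h
        have : k * p ≤ 2 * p := Nat.mul_le_mul_right p (by omega)
        exact hnt (Or.inr (by omega))
      have hzm := ((hstr (k * p)).mem (k * p) hw le_rfl).2
      refine AD.false hp hk3
        { toNS := S.toNS, top := S.top, θ := θ, surj := hθs
          pre := fun n hn h x => ⟨fun hx => (hlead n hn x hx).1, hpre _ hlt n hn h x⟩
          z := z (k * p), z_mem := hzm, z_not := hzw, z_pow := hexp _ hw _ hzm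
          z_im := (mem_succ_iff hw (hlead _ hw _ hzm).1).mpr
            ((hlead _ hw _ hzm).2.trans (hA _ hw).2.1)
          deep := fun x hx => (hlead _ (by omega) x hx).1
          ker := fun x hx => ?_
          g := g
          g_mem := fun n hn h => ⟨((hstr n).mem n hn le_rfl).1,
            (hlead n hn _ ((hstr n).mem n hn le_rfl).1).2.trans (hA n hn).1⟩
          rel := fun i j hi hj hij => ?_ }
      · have hxn := hpre _ hlt _ hw le_rfl x (Jn_anti (Nat.le_succ _) hx)
        refine (hA _ hw).2.2 x hxn ?_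
        rw [← (hlead _ hw x hxn).2]
        exact (mem_succ_iff hw (Jn_anti (Nat.le_succ _) hx)).mp hx
      · have := (hstr (k * p)).rel i j hi hj hij.le
        rwa [hij] at this
  have hinj : Function.Injective θ := by
    rw [injective_iff_map_eq_one]
    intro x hx
    refine hinf x fun n hn => hpre n (fun m hm _ => hz m hm) n hn le_rfl x ?_
    rw [hx]
    exact one_mem _
  let e : G ≃* Nott p := MulEquiv.ofBijective θ ⟨hinj, hθs⟩
  have he : Continuous e := hθc
  exact ⟨{ e with
    continuous_toFun := he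
    continuous_invFun := (Continuous.homeoOfEquivCompactToT2 (f := e.toEquiv) he).symm.continuous }⟩

end Pool.Agent.P.MP_e06b60_al.R
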