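import Mathlib
import Pool.Agent.P.MP_e06b60_al.Main
import Pool.Agent.P.MP_e06b60_al.Main5
import Pool.Agent.P.MP_e06b60_al.Main2
import Pool.Agent.P.MP_e06b60_al.RM

/-! The recognition statement holds exactly for the primes at least seven. -/

namespace Pool.Agent.P.MP_e06b60_al

theorem counter_small {p : ℕ} (hp : p.Prime) (h7 : p < 7) :
    ∃ (G : Type) (_ : Group G) (_ : TopologicalSpace G) (_ : IsTopologicalGroup G),
      CompactSpace G ∧ T2Space G ∧ TotallyDisconnectedSpace G ∧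
      (∀ N : OpenNormalSubgroup G, IsPGroup p (G ⧸ N.toSubgroup)) ∧ Infinite G ∧
      Nonempty ((G ⧸ gamma G (2 * p)) ≃ₜ* (Nott p ⧸ gamma (Nott p) (2 * p))) ∧
      IsEmpty (G ≃* Nott p) := by
  have h : p = 2 ∨ p = 3 ∨ p = 5 := by
    interval_cases p <;> first | omega | (exfalso; revert hp; norm_num)
  rcases h with rfl | rfl | rfl
  · obtain ⟨q, G, i1, i2, i3, rfl, -, h⟩ := Two.main2
    exact ⟨G, i1, i2, i3, h⟩
  · obtain ⟨q, G, i1, i2, i3, rfl, -, h⟩ := main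
    exact ⟨G, i1, i2, i3, h⟩
  · obtain ⟨q, G, i1, i2, i3, rfl, -, h⟩ := Five.main5
    exact ⟨G, i1, i2, i3, h⟩

theorem classification (p : ℕ) (hp : p.Prime) :
    (∀ (G : Type) [Group G] [TopologicalSpace G] [IsTopologicalGroup G],
      CompactSpace G → T2Space G → TotallyDisconnectedSpace G →
      (∀ N : OpenNormalSubgroup G, IsPGroup p (G ⧸ N.toSubgroup)) → Infinite G →
      Nonempty ((G ⧸ gamma G (2 * p)) ≃ₜ* (Nott p ⧸ gamma (Nott p) (2 * p))) →
      Nonempty (G ≃ₜ* Nott p)) ↔ 7 ≤ p := by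
  constructor
  · intro h
    by_contra h7
    obtain ⟨G, i1, i2, i3, a1, a2, a3, a4, a5, a6, a7⟩ := counter_small hp (by omega)
    obtain ⟨e⟩ := h G a1 a2 a3 a4 a5 a6
    exact a7.false e.toMulEquiv
  · rintro h7 G _ _ _ _ _ _ hpro _ ⟨Φ⟩
    exact R.main p hp h7 G hpro Φ

end Pool.Agent.P.MP_e06b60_al
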