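import Mathlib
import Pool.Agent.P.MP_e06b60_al.Poly7

/-! The certificate: four polynomial functions on `J / J_14` (`p = 7`) describing commuting
left and right actions of `t + t^2`, `t + t^3` on `J / J_14 × Z/7`. -/

namespace Pool.Agent.P.MP_e06b60_al.Seven

def rhoX : H :=
  (.a (.m 13 (.c 1)) (.a (.m 12 (.a (.m 1 (.c 2)) (.c 2))) (.a (.m 11 (.a (.m 2 (.c 4)) (.a (.m 1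
  (.a (.m 1 (.c 4)) (.c 2))) (.c 1)))) (.a (.m 10 (.a (.m 3 (.c 5)) (.a (.m 2 (.a (.m 1 (.c 1))
  (.c 1))) (.a (.m 1 (.m 1 (.m 1 (.c 6)))) (.c 5))))) (.a (.m 9 (.a (.m 4 (.c 3)) (.a (.m 3 (.a
  (.m 1 (.c 2)) (.c 4))) (.a (.m 2 (.a (.m 2 (.c 4)) (.a (.m 1 (.c 5)) (.c 2)))) (.a (.m 1 (.a (.m
  1 (.a (.m 1 (.a (.m 1 (.c 5)) (.c 4))) (.c 3))) (.c 1))) (.c 3)))))) (.a (.m 8 (.a (.m 5 (.c 4))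
  (.a (.m 4 (.a (.m 1 (.c 1)) (.c 2))) (.a (.m 3 (.a (.m 2 (.c 2)) (.a (.m 1 (.a (.m 1 (.c 5)) (.c
  6))) (.c 2)))) (.a (.m 2 (.a (.m 2 (.m 1 (.c 3))) (.a (.m 1 (.c 5)) (.c 3)))) (.a (.m 1 (.a (.m
  1 (.a (.m 1 (.a (.m 1 (.a (.m 1 (.c 3)) (.c 3))) (.c 6))) (.c 1))) (.c 2))) (.c 1))))))) (.a (.m
  7 (.a (.m 6 (.c 4)) (.a (.m 5 (.a (.m 1 (.c 4)) (.c 4))) (.a (.m 4 (.a (.m 2 (.c 1)) (.a (.m 1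
  (.a (.m 1 (.c 5)) (.c 5))) (.c 1)))) (.a (.m 3 (.a (.m 3 (.c 5)) (.a (.m 2 (.a (.m 1 (.c 6)) (.c
  6))) (.a (.m 1 (.a (.m 1 (.a (.m 1 (.c 5)) (.c 3))) (.c 5))) (.c 4))))) (.a (.m 2 (.a (.m 2 (.a
  (.m 2 (.c 3)) (.a (.m 1 (.c 5)) (.c 5)))) (.m 1 (.a (.m 1 (.a (.m 1 (.a (.m 1 (.c 1)) (.c 3)))
  (.c 3))) (.c 1))))) (.m 1 (.a (.m 1 (.a (.m 1 (.m 1 (.a (.m 1 (.a (.m 1 (.c 2)) (.c 1))) (.c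
  1)))) (.c 3))) (.c 1))))))))) (.a (.m 6 (.a (.m 6 (.a (.m 1 (.c 4)) (.c 2))) (.a (.m 5 (.a (.m 2
  (.c 5)) (.a (.m 1 (.a (.m 1 (.c 1)) (.c 1))) (.c 2)))) (.a (.m 4 (.a (.m 3 (.c 5)) (.a (.m 2 (.a
  (.m 1 (.c 3)) (.c 5))) (.a (.m 1 (.a (.m 1 (.a (.m 1 (.c 5)) (.c 5))) (.c 4))) (.c 4))))) (.a
  (.m 3 (.a (.m 3 (.a (.m 1 (.c 6)) (.c 5))) (.a (.m 2 (.a (.m 2 (.c 3)) (.a (.m 1 (.a (.m 1 (.c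
  4)) (.c 3))) (.c 3)))) (.a (.m 1 (.a (.m 1 (.a (.m 1 (.a (.m 1 (.c 5)) (.c 4))) (.c 1))) (.c
  2))) (.c 2))))) (.a (.m 2 (.a (.m 2 (.a (.m 2 (.a (.m 1 (.c 5)) (.c 1))) (.a (.m 1 (.a (.m 1 (.a
  (.m 1 (.c 3)) (.c 5))) (.c 5))) (.c 6)))) (.a (.m 1 (.m 1 (.a (.m 1 (.m 1 (.a (.m 1 (.c 3)) (.c
  2)))) (.c 1)))) (.c 2)))) (.a (.m 1 (.a (.m 1 (.a (.m 1 (.m 1 (.a (.m 1 (.a (.m 1 (.c 2)) (.c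
  2))) (.c 1)))) (.c 2))) (.c 6))) (.c 6)))))))) (.a (.m 5 (.a (.m 5 (.a (.m 3 (.c 1)) (.a (.m 2
  (.a (.m 1 (.c 1)) (.c 3))) (.m 1 (.a (.m 1 (.a (.m 1 (.c 3)) (.c 6))) (.c 5)))))) (.a (.m 4 (.a
  (.m 4 (.c 2)) (.a (.m 3 (.a (.m 1 (.c 1)) (.c 3))) (.a (.m 2 (.a (.m 2 (.c 5)) (.m 1 (.a (.m 1
  (.c 6)) (.c 4))))) (.a (.m 1 (.a (.m 1 (.a (.m 1 (.a (.m 1 (.c 1)) (.c 3))) (.c 3))) (.c 6)))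
  (.c 2)))))) (.a (.m 3 (.a (.m 3 (.a (.m 2 (.c 4)) (.a (.m 1 (.m 1 (.c 5))) (.c 4)))) (.a (.m 2
  (.a (.m 2 (.a (.m 1 (.c 4)) (.c 4))) (.a (.m 1 (.a (.m 1 (.c 1)) (.c 1))) (.c 2)))) (.a (.m 1
  (.a (.m 1 (.a (.m 1 (.m 1 (.a (.m 1 (.c 6)) (.c 2)))) (.c 2))) (.c 5))) (.c 2))))) (.a (.m 2 (.a
  (.m 2 (.a (.m 2 (.a (.m 2 (.c 3)) (.a (.m 1 (.a (.m 1 (.c 4)) (.c 5))) (.c 4)))) (.a (.m 1 (.a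
  (.m 1 (.a (.m 1 (.a (.m 1 (.c 1)) (.c 4))) (.c 4))) (.c 3))) (.c 4)))) (.m 1 (.a (.m 1 (.m 1 (.a
  (.m 1 (.m 1 (.a (.m 1 (.c 4)) (.c 3)))) (.c 5)))) (.c 1))))) (.a (.m 1 (.a (.m 1 (.a (.m 1 (.m 1
  (.a (.m 1 (.a (.m 1 (.c 5)) (.c 1))) (.c 2)))) (.c 2))) (.c 4))) (.c 6))))))) (.a (.m 4 (.a (.m
  4 (.a (.m 4 (.c 6)) (.a (.m 3 (.a (.m 2 (.c 6)) (.a (.m 1 (.c 2)) (.c 1)))) (.a (.m 2 (.a (.m 2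
  (.a (.m 1 (.c 4)) (.c 4))) (.a (.m 1 (.a (.m 1 (.a (.m 1 (.c 4)) (.c 2))) (.c 6))) (.c 3)))) (.a
  (.m 1 (.a (.m 1 (.a (.m 1 (.a (.m 1 (.a (.m 1 (.c 2)) (.c 5))) (.c 1))) (.c 1))) (.c 6))) (.c
  3)))))) (.a (.m 3 (.a (.m 3 (.a (.m 3 (.c 6)) (.a (.m 2 (.a (.m 1 (.c 1)) (.c 3))) (.a (.m 1 (.a
  (.m 1 (.a (.m 1 (.c 1)) (.c 6))) (.c 2))) (.c 5))))) (.a (.m 2 (.a (.m 2 (.a (.m 2 (.c 1)) (.a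
  (.m 1 (.a (.m 1 (.c 1)) (.c 1))) (.c 4)))) (.a (.m 1 (.a (.m 1 (.a (.m 1 (.a (.m 1 (.c 1)) (.c
  5))) (.c 1))) (.c 1))) (.c 1)))) (.a (.m 1 (.a (.m 1 (.a (.m 1 (.a (.m 1 (.a (.m 1 (.c 1)) (.c
  4))) (.c 4))) (.c 4))) (.c 2))) (.c 5))))) (.a (.m 2 (.a (.m 2 (.a (.m 2 (.a (.m 2 (.a (.m 1 (.c
  5)) (.c 4))) (.a (.m 1 (.a (.m 1 (.a (.m 1 (.c 5)) (.c 2))) (.c 2))) (.c 1)))) (.a (.m 1 (.a (.m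
  1 (.a (.m 1 (.a (.m 1 (.a (.m 1 (.c 2)) (.c 4))) (.c 3))) (.c 1))) (.c 3))) (.c 5)))) (.a (.m 1
  (.m 1 (.a (.m 1 (.a (.m 1 (.a (.m 1 (.a (.m 1 (.c 6)) (.c 2))) (.c 5))) (.c 6))) (.c 6)))) (.c
  1)))) (.a (.m 1 (.a (.m 1 (.m 1 (.a (.m 1 (.m 1 (.a (.m 1 (.c 6)) (.c 4)))) (.c 6)))) (.c 3)))
  (.c 5)))))) (.a (.m 3 (.a (.m 3 (.a (.m 3 (.a (.m 3 (.a (.m 1 (.c 2)) (.c 1))) (.a (.m 2 (.a (.m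
  2 (.c 3)) (.a (.m 1 (.c 3)) (.c 2)))) (.m 1 (.a (.m 1 (.a (.m 1 (.m 1 (.c 6))) (.c 6))) (.c
  3)))))) (.a (.m 2 (.a (.m 2 (.a (.m 2 (.a (.m 1 (.c 5)) (.c 6))) (.a (.m 1 (.a (.m 1 (.a (.m 1
  (.c 2)) (.c 6))) (.c 5))) (.c 6)))) (.a (.m 1 (.a (.m 1 (.a (.m 1 (.a (.m 1 (.a (.m 1 (.c 5))
  (.c 6))) (.c 2))) (.c 5))) (.c 4))) (.c 2)))) (.m 1 (.a (.m 1 (.a (.m 1 (.a (.m 1 (.a (.m 1 (.a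
  (.m 1 (.c 5)) (.c 5))) (.c 1))) (.c 4))) (.c 4))) (.c 2)))))) (.a (.m 2 (.a (.m 2 (.a (.m 2 (.a
  (.m 2 (.a (.m 2 (.c 2)) (.a (.m 1 (.a (.m 1 (.c 4)) (.c 5))) (.c 2)))) (.a (.m 1 (.a (.m 1 (.a
  (.m 1 (.a (.m 1 (.c 2)) (.c 5))) (.c 3))) (.c 6))) (.c 1)))) (.a (.m 1 (.m 1 (.a (.m 1 (.a (.m 1
  (.c 4)) (.c 1))) (.c 1)))) (.c 6)))) (.a (.m 1 (.a (.m 1 (.a (.m 1 (.a (.m 1 (.m 1 (.c 2))) (.c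
  2))) (.c 5))) (.c 4))) (.c 1)))) (.a (.m 1 (.a (.m 1 (.a (.m 1 (.a (.m 1 (.a (.m 1 (.a (.m 1 (.c
  1)) (.c 6))) (.c 1))) (.c 6))) (.c 1))) (.c 2))) (.c 5))))) (.a (.m 2 (.a (.m 2 (.a (.m 2 (.a
  (.m 2 (.a (.m 2 (.a (.m 2 (.a (.m 1 (.c 3)) (.c 1))) (.a (.m 1 (.m 1 (.a (.m 1 (.c 1)) (.c 6))))
  (.c 6)))) (.a (.m 1 (.a (.m 1 (.a (.m 1 (.a (.m 1 (.a (.m 1 (.c 4)) (.c 6))) (.c 3))) (.c 1)))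
  (.c 6))) (.c 2)))) (.a (.m 1 (.a (.m 1 (.a (.m 1 (.a (.m 1 (.a (.m 1 (.a (.m 1 (.c 1)) (.c 6)))
  (.c 1))) (.c 6))) (.c 1))) (.c 6))) (.c 1)))) (.a (.m 1 (.a (.m 1 (.a (.m 1 (.a (.m 1 (.a (.m 1
  (.m 1 (.c 2))) (.c 4))) (.c 1))) (.c 4))) (.c 1))) (.c 5)))) (.a (.m 1 (.m 1 (.a (.m 1 (.a (.m 1
  (.a (.m 1 (.a (.m 1 (.c 5)) (.c 1))) (.c 3))) (.c 1))) (.c 2)))) (.c 6)))) (.m 1 (.a (.m 1 (.a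
  (.m 1 (.a (.m 1 (.a (.m 1 (.a (.m 1 (.c 5)) (.c 6))) (.c 2))) (.c 1))) (.c 6))) (.c
  1)))))))))))))))

def rhoY : H :=
  (.a (.m 12 (.c 1)) (.a (.m 11 (.a (.m 1 (.c 5)) (.c 6))) (.a (.m 10 (.a (.m 2 (.c 4)) (.m 1 (.a
  (.m 1 (.c 1)) (.c 5))))) (.a (.m 9 (.a (.m 3 (.c 1)) (.a (.m 2 (.a (.m 1 (.c 4)) (.c 3))) (.a
  (.m 1 (.a (.m 1 (.a (.m 1 (.c 3)) (.c 6))) (.c 4))) (.c 2))))) (.a (.m 8 (.a (.m 3 (.a (.m 1 (.c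
  4)) (.c 2))) (.a (.m 2 (.a (.m 2 (.c 5)) (.a (.m 1 (.a (.m 1 (.c 1)) (.c 6))) (.c 4)))) (.a (.m
  1 (.a (.m 1 (.a (.m 1 (.c 1)) (.c 5))) (.c 2))) (.c 5))))) (.a (.m 7 (.a (.m 5 (.c 3)) (.a (.m 4
  (.a (.m 1 (.c 2)) (.c 1))) (.a (.m 3 (.a (.m 2 (.c 3)) (.a (.m 1 (.a (.m 1 (.c 2)) (.c 2))) (.c
  3)))) (.a (.m 2 (.a (.m 2 (.c 4)) (.a (.m 1 (.a (.m 1 (.a (.m 1 (.c 4)) (.c 2))) (.c 2))) (.c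
  2)))) (.a (.m 1 (.a (.m 1 (.m 1 (.a (.m 1 (.m 1 (.c 1))) (.c 4)))) (.c 5))) (.c 6))))))) (.a (.m
  6 (.a (.m 5 (.c 3)) (.a (.m 4 (.a (.m 2 (.c 1)) (.a (.m 1 (.a (.m 1 (.c 5)) (.c 5))) (.c 1))))
  (.a (.m 3 (.a (.m 3 (.c 6)) (.a (.m 2 (.a (.m 1 (.c 1)) (.c 5))) (.a (.m 1 (.a (.m 1 (.a (.m 1
  (.c 2)) (.c 4))) (.c 4))) (.c 2))))) (.a (.m 2 (.a (.m 2 (.a (.m 2 (.c 6)) (.a (.m 1 (.a (.m 1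
  (.c 1)) (.c 2))) (.c 4)))) (.a (.m 1 (.a (.m 1 (.c 2)) (.c 3))) (.c 4)))) (.a (.m 1 (.a (.m 1
  (.a (.m 1 (.a (.m 1 (.a (.m 1 (.m 1 (.c 4))) (.c 2))) (.c 6))) (.c 6))) (.c 4))) (.c 6)))))))
  (.a (.m 5 (.a (.m 5 (.a (.m 2 (.c 2)) (.a (.m 1 (.a (.m 1 (.c 4)) (.c 1))) (.c 5)))) (.a (.m 4
  (.a (.m 3 (.c 5)) (.a (.m 2 (.a (.m 1 (.c 2)) (.c 1))) (.m 1 (.a (.m 1 (.a (.m 1 (.c 3)) (.c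
  1))) (.c 6)))))) (.a (.m 3 (.a (.m 3 (.a (.m 1 (.c 1)) (.c 1))) (.a (.m 2 (.a (.m 2 (.c 4)) (.a
  (.m 1 (.a (.m 1 (.c 3)) (.c 5))) (.c 4)))) (.m 1 (.a (.m 1 (.a (.m 1 (.a (.m 1 (.c 3)) (.c 6)))
  (.c 6))) (.c 6)))))) (.a (.m 2 (.a (.m 2 (.a (.m 2 (.a (.m 1 (.c 1)) (.c 1))) (.a (.m 1 (.a (.m
  1 (.a (.m 1 (.c 5)) (.c 1))) (.c 6))) (.c 1)))) (.a (.m 1 (.a (.m 1 (.a (.m 1 (.a (.m 1 (.a (.m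
  1 (.c 4)) (.c 2))) (.c 2))) (.c 4))) (.c 6))) (.c 4)))) (.a (.m 1 (.a (.m 1 (.a (.m 1 (.a (.m 1
  (.a (.m 1 (.a (.m 1 (.c 3)) (.c 4))) (.c 2))) (.c 2))) (.c 3))) (.c 6))) (.c 2))))))) (.a (.m 4
  (.a (.m 4 (.a (.m 4 (.c 2)) (.a (.m 3 (.a (.m 1 (.c 1)) (.c 3))) (.a (.m 2 (.a (.m 2 (.c 3)) (.m
  1 (.m 1 (.c 4))))) (.a (.m 1 (.a (.m 1 (.m 1 (.c 6))) (.c 4))) (.c 1)))))) (.a (.m 3 (.a (.m 3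
  (.a (.m 1 (.a (.m 1 (.c 5)) (.c 5))) (.c 2))) (.a (.m 2 (.a (.m 2 (.c 2)) (.a (.m 1 (.a (.m 1
  (.c 2)) (.c 3))) (.c 1)))) (.a (.m 1 (.a (.m 1 (.a (.m 1 (.a (.m 1 (.a (.m 1 (.c 6)) (.c 2)))
  (.c 2))) (.c 6))) (.c 3))) (.c 4))))) (.a (.m 2 (.a (.m 2 (.a (.m 2 (.a (.m 2 (.c 6)) (.a (.m 1
  (.a (.m 1 (.c 6)) (.c 6))) (.c 4)))) (.m 1 (.a (.m 1 (.a (.m 1 (.a (.m 1 (.c 4)) (.c 2))) (.c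
  5))) (.c 1))))) (.m 1 (.a (.m 1 (.a (.m 1 (.a (.m 1 (.a (.m 1 (.a (.m 1 (.c 3)) (.c 3))) (.c
  6))) (.c 5))) (.c 3))) (.c 6))))) (.a (.m 1 (.m 1 (.a (.m 1 (.a (.m 1 (.a (.m 1 (.a (.m 1 (.c
  3)) (.c 4))) (.c 6))) (.c 2))) (.c 5)))) (.c 1)))))) (.a (.m 3 (.a (.m 3 (.a (.m 3 (.a (.m 3 (.c
  3)) (.a (.m 2 (.a (.m 1 (.c 3)) (.c 6))) (.a (.m 1 (.a (.m 1 (.a (.m 1 (.c 3)) (.c 6))) (.c 2)))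
  (.c 3))))) (.a (.m 2 (.a (.m 2 (.a (.m 2 (.c 2)) (.a (.m 1 (.a (.m 1 (.c 5)) (.c 5))) (.c 2))))
  (.m 1 (.a (.m 1 (.a (.m 1 (.a (.m 1 (.c 5)) (.c 1))) (.c 6))) (.c 2))))) (.a (.m 1 (.a (.m 1 (.a
  (.m 1 (.a (.m 1 (.m 1 (.a (.m 1 (.c 3)) (.c 5)))) (.c 2))) (.c 2))) (.c 2))) (.c 3))))) (.a (.m
  2 (.a (.m 2 (.a (.m 2 (.a (.m 2 (.c 1)) (.m 1 (.a (.m 1 (.a (.m 1 (.c 2)) (.c 4))) (.c 1)))))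
  (.m 1 (.a (.m 1 (.a (.m 1 (.a (.m 1 (.c 1)) (.c 3))) (.c 5))) (.c 4))))) (.a (.m 1 (.a (.m 1 (.a
  (.m 1 (.a (.m 1 (.a (.m 1 (.a (.m 1 (.c 5)) (.c 5))) (.c 3))) (.c 1))) (.c 5))) (.c 2))) (.c
  3)))) (.a (.m 1 (.a (.m 1 (.a (.m 1 (.m 1 (.a (.m 1 (.m 1 (.c 6))) (.c 4)))) (.c 1))) (.c 2)))
  (.c 1))))) (.a (.m 2 (.a (.m 2 (.a (.m 2 (.a (.m 2 (.a (.m 2 (.a (.m 2 (.c 6)) (.a (.m 1 (.a (.m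
  1 (.c 4)) (.c 1))) (.c 5)))) (.a (.m 1 (.m 1 (.a (.m 1 (.m 1 (.c 4))) (.c 2)))) (.c 4)))) (.a
  (.m 1 (.a (.m 1 (.a (.m 1 (.a (.m 1 (.a (.m 1 (.a (.m 1 (.c 4)) (.c 6))) (.c 5))) (.c 1))) (.c
  2))) (.c 1))) (.c 1)))) (.a (.m 1 (.a (.m 1 (.a (.m 1 (.m 1 (.a (.m 1 (.a (.m 1 (.c 3)) (.c 4)))
  (.c 5)))) (.c 5))) (.c 4))) (.c 3)))) (.a (.m 1 (.a (.m 1 (.a (.m 1 (.m 1 (.a (.m 1 (.a (.m 1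
  (.c 1)) (.c 3))) (.c 6)))) (.c 1))) (.c 6))) (.c 2)))) (.m 1 (.a (.m 1 (.a (.m 1 (.m 1 (.a (.m 1
  (.a (.m 1 (.c 4)) (.c 4))) (.c 5)))) (.c 5))) (.c 2))))))))))))))

def lamX : H :=
  (.a (.m 13 (.c 1)) (.a (.m 12 (.a (.m 1 (.c 5)) (.c 1))) (.a (.m 11 (.a (.m 2 (.c 2)) (.a (.m 1
  (.c 2)) (.c 4)))) (.a (.m 10 (.a (.m 3 (.c 4)) (.a (.m 2 (.a (.m 1 (.c 1)) (.c 3))) (.a (.m 1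
  (.c 5)) (.c 1))))) (.a (.m 9 (.a (.m 3 (.a (.m 1 (.c 1)) (.c 2))) (.a (.m 2 (.a (.m 2 (.c 5))
  (.c 6))) (.c 3)))) (.a (.m 8 (.a (.m 5 (.c 4)) (.a (.m 4 (.a (.m 1 (.c 4)) (.c 1))) (.a (.m 3
  (.a (.m 2 (.c 5)) (.a (.m 1 (.c 2)) (.c 6)))) (.a (.m 2 (.a (.m 2 (.a (.m 1 (.c 2)) (.c 4))) (.a
  (.m 1 (.c 1)) (.c 4)))) (.c 5)))))) (.a (.m 7 (.a (.m 6 (.c 5)) (.a (.m 5 (.a (.m 1 (.c 2)) (.c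
  4))) (.a (.m 4 (.m 2 (.c 6))) (.a (.m 3 (.a (.m 3 (.c 6)) (.a (.m 2 (.c 5)) (.c 6)))) (.a (.m 2
  (.a (.m 2 (.a (.m 2 (.c 6)) (.a (.m 1 (.c 2)) (.c 3)))) (.a (.m 1 (.c 4)) (.c 6)))) (.c 3)))))))
  (.a (.m 6 (.a (.m 6 (.a (.m 1 (.c 6)) (.c 6))) (.a (.m 5 (.a (.m 2 (.c 6)) (.a (.m 1 (.c 1)) (.c
  6)))) (.a (.m 4 (.a (.m 3 (.c 2)) (.a (.m 2 (.a (.m 1 (.c 4)) (.c 3))) (.a (.m 1 (.c 3)) (.c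
  5))))) (.a (.m 3 (.a (.m 3 (.a (.m 1 (.c 4)) (.c 6))) (.a (.m 2 (.a (.m 2 (.c 3)) (.a (.m 1 (.c
  5)) (.c 3)))) (.a (.m 1 (.c 1)) (.c 6))))) (.a (.m 2 (.a (.m 2 (.c 6)) (.c 6))) (.c 5))))))) (.a
  (.m 5 (.a (.m 5 (.a (.m 3 (.c 6)) (.a (.m 2 (.a (.m 1 (.c 6)) (.c 5))) (.a (.m 1 (.c 2)) (.c
  1))))) (.a (.m 4 (.a (.m 4 (.c 6)) (.a (.m 3 (.a (.m 1 (.c 4)) (.c 6))) (.a (.m 2 (.a (.m 2 (.c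
  2)) (.c 4))) (.a (.m 1 (.c 3)) (.c 5)))))) (.a (.m 3 (.a (.m 3 (.a (.m 1 (.c 5)) (.c 5))) (.a
  (.m 2 (.a (.m 2 (.a (.m 1 (.c 6)) (.c 6))) (.c 2))) (.a (.m 1 (.c 3)) (.c 5))))) (.m 2 (.m 2 (.c
  1))))))) (.a (.m 4 (.a (.m 4 (.a (.m 4 (.a (.m 1 (.c 5)) (.c 6))) (.a (.m 3 (.a (.m 2 (.c 4))
  (.a (.m 1 (.c 4)) (.c 6)))) (.a (.m 2 (.a (.m 2 (.a (.m 1 (.c 5)) (.c 2))) (.a (.m 1 (.c 5)) (.c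
  2)))) (.m 1 (.c 2)))))) (.a (.m 3 (.a (.m 3 (.a (.m 3 (.c 5)) (.a (.m 2 (.a (.m 1 (.c 3)) (.c
  6))) (.c 2)))) (.a (.m 2 (.m 2 (.a (.m 2 (.c 1)) (.c 2)))) (.c 4)))) (.m 2 (.m 2 (.a (.m 2 (.a
  (.m 2 (.c 2)) (.c 1))) (.c 4))))))) (.a (.m 3 (.a (.m 3 (.a (.m 3 (.a (.m 3 (.a (.m 1 (.c 6))
  (.c 2))) (.a (.m 2 (.a (.m 2 (.c 3)) (.a (.m 1 (.c 6)) (.c 2)))) (.a (.m 1 (.c 4)) (.c 3)))))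
  (.a (.m 2 (.a (.m 2 (.m 2 (.c 1))) (.c 4))) (.c 2)))) (.m 2 (.m 2 (.a (.m 2 (.a (.m 2 (.a (.m 2
  (.c 1)) (.c 5))) (.c 3))) (.c 5)))))) (.m 2 (.m 2 (.m 2 (.m 2 (.m 2 (.c 6)))))))))))))))))

def lamY : H :=
  (.c 1)

def sF : List SP :=
  [[], [(1, 1)], [(2, 1)], [(3, 1)], [(5, 1)], [(7, 1)], [(11, 1)], [(13, 1)], [(17, 1)], [(19,
  1)], [(23, 1)], [(29, 1)], [(31, 1)], [(37, 1)], [(41, 1)]]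

def sFX : List SP :=
  [[], [(1, 1)], [(1, 1), (2, 1)], [(2, 2), (3, 1)], [(2, 1), (3, 3), (5, 1)], [(3, 3), (5, 4),
  (7, 1)], [(3, 1), (5, 6), (7, 5), (11, 1)], [(5, 4), (7, 3), (11, 6), (13, 1)], [(5, 1), (7, 3),
  (11, 1), (17, 1)], [(7, 5), (11, 6), (17, 1), (19, 1)], [(7, 1), (11, 1), (19, 2), (23, 1)],
  [(11, 6), (19, 1), (23, 3), (29, 1)], [(11, 1), (23, 3), (29, 4), (31, 1)], [(23, 1), (29, 6),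
  (31, 5), (37, 1)], [(13, 1), (29, 4), (31, 3), (37, 6), (41, 1)]]

def sFY : List SP :=
  [[], [(1, 1)], [(2, 1)], [(1, 1), (3, 1)], [(2, 2), (5, 1)], [(3, 3), (7, 1)], [(2, 1), (5, 4),
  (11, 1)], [(3, 3), (7, 5), (13, 1)], [(5, 6), (11, 6), (17, 1)], [(3, 1), (7, 3), (19, 1)], [(5,
  4), (11, 1), (17, 1), (23, 1)], [(7, 3), (19, 2), (29, 1)], [(5, 1), (11, 6), (23, 3), (31, 1)],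
  [(7, 5), (19, 1), (29, 4), (37, 1)], [(11, 1), (23, 3), (31, 5), (41, 1)]]

def sXF : List SP :=
  [[], [(1, 1)], [(1, 1), (2, 1)], [(2, 2), (3, 1)], [(3, 2), (4, 1), (5, 1)], [(5, 2), (6, 2),
  (7, 1)], [(7, 2), (9, 1), (10, 2), (11, 1)], [(11, 2), (13, 1), (14, 2), (15, 2)], [(13, 2),
  (17, 1), (21, 2), (22, 2), (25, 1)], [(17, 2), (19, 1), (26, 2), (33, 2), (35, 2)], [(19, 2),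
  (23, 1), (34, 2), (39, 2), (49, 1), (55, 2)], [(23, 2), (29, 1), (38, 2), (51, 2), (65, 2), (77,
  2)], [(29, 2), (31, 1), (46, 2), (57, 2), (85, 2), (91, 2), (121, 1)], [(31, 2), (37, 1), (58,
  2), (69, 2), (95, 2), (119, 2), (143, 2)], [(37, 2), (41, 1), (62, 2), (87, 2), (115, 2), (133,
  2), (169, 1), (187, 2)]]

def sYF : List SP :=
  [[], [(1, 1)], [(2, 1)], [(1, 1), (3, 1)], [(2, 3), (5, 1)], [(3, 3), (4, 3), (7, 1)], [(5, 3),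
  (6, 6), (8, 1), (11, 1)], [(7, 3), (9, 3), (10, 6), (12, 3), (13, 1)], [(11, 3), (14, 6), (15,
  6), (17, 1), (18, 3), (20, 3)], [(13, 3), (19, 1), (21, 6), (22, 6), (25, 3), (27, 1), (28, 3),
  (30, 6)], [(17, 3), (23, 1), (26, 6), (33, 6), (35, 6), (42, 6), (44, 3), (45, 3), (50, 3)],
  [(19, 3), (29, 1), (34, 6), (39, 6), (49, 3), (52, 3), (55, 6), (63, 3), (66, 6), (70, 6), (75,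
  3)], [(23, 3), (31, 1), (38, 6), (51, 6), (65, 6), (68, 3), (77, 6), (78, 6), (98, 3), (99, 3),
  (105, 6), (110, 6), (125, 1)], [(29, 3), (37, 1), (46, 6), (57, 6), (76, 3), (85, 6), (91, 6),
  (102, 6), (117, 3), (121, 3), (130, 6), (147, 3), (154, 6), (165, 6), (175, 3)], [(31, 3), (41,
  1), (58, 6), (69, 6), (92, 3), (95, 6), (114, 6), (119, 6), (143, 6), (153, 3), (170, 6), (182,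
  6), (195, 6), (231, 6), (242, 3), (245, 3), (275, 3)]]

def sX : List SP := [[], [(1, 1)], [(1, 1)]]
def sY : List SP := [[], [(1, 1)], [], [(1, 1)]]

theorem cert_FX : lcomp 15 sF sX = sFX := by decide +kernel
theorem cert_FY : lcomp 15 sF sY = sFY := by decide +kernel
theorem cert_XF : lcomp 15 sX sF = sXF := by decide +kernel
theorem cert_YF : lcomp 15 sY sF = sYF := by decide +kernel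

def dif (ρ lam : H) (uR uL : List SP) : SP :=
  pnorm (padd (padd (subH sF.tail ρ) (subH uR.tail lam))
    (pmulT (1, 6) (padd (subH sF.tail lam) (subH uL.tail ρ))))

theorem cert_xx : dif rhoX lamX sFX sXF = [] := by decide +kernel
theorem cert_xy : dif rhoY lamX sFY sXF = [] := by decide +kernel
theorem cert_yx : dif rhoX lamY sFX sYF = [] := by decide +kernel
theorem cert_yy : dif rhoY lamY sFY sYF = [] := by decide +kernel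

end Pool.Agent.P.MP_e06b60_al.Seven
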