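import Mathlib
import Pool.Agent.P.MP_e06b60_al.RJ1
import Pool.Agent.P.MP_e06b60_al.Cert7
import Pool.Agent.P.MP_e06b60_al.Cocycle

/-! The cocycle on `J / J_14` for `p = 7`. -/

namespace Pool.Agent.P.MP_e06b60_al.Seven

open PowerSeries Pool.Agent.P.MP_e06b60_al
open scoped commutatorElement

/-- The generators `t + t^2` and `t + t^3`. -/
noncomputable def gx : Nott 7 := el 7 0
noncomputable def gy : Nott 7 := el 7 1

theorem depth_gen (n : ℕ) (hn : 1 ≤ n) : ∃ g ∈ Subgroup.closure ({gx, gy} : Set (Nott 7)),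
    g ∈ Jn 7 n ∧ coeff (n + 1) g.1 ≠ 0 := by
  have : Fact (Nat.Prime 7) := ⟨by norm_num⟩
  have hx : gx ∈ Subgroup.closure ({gx, gy} : Set (Nott 7)) := Subgroup.subset_closure (by simp)
  have hy : gy ∈ Subgroup.closure ({gx, gy} : Set (Nott 7)) := Subgroup.subset_closure (by simp)
  have hc : ∀ a ∈ Subgroup.closure ({gx, gy} : Set (Nott 7)),
      ∀ b ∈ Subgroup.closure ({gx, gy} : Set (Nott 7)),
      ⁅a, b⁆ ∈ Subgroup.closure ({gx, gy} : Set (Nott 7)) := fun a ha b hb => by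
    rw [commutatorElement_def]
    exact mul_mem (mul_mem (mul_mem ha hb) (inv_mem ha)) (inv_mem hb)
  have key : ∀ k t : ℕ, 1 ≤ k → k % 7 ≠ (t + 1) % 7 → ∀ g ∈ Jn 7 k, coeff (k + 1) g.1 ≠ 0 →
      ⁅g, el 7 t⁆ ∈ Jn 7 (k + (t + 1)) ∧ coeff (k + (t + 1) + 1) (⁅g, el 7 t⁆ : Nott 7).1 ≠ 0 := by
    intro k t hk h g hg h0
    obtain ⟨h1, h2⟩ := comm_lead hk (by omega) hg (el_mem (p := 7) t)
    refine ⟨h1, ?_⟩
    rw [h2, el_coeff, mul_one]
    refine mul_ne_zero ?_ h0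
    rw [sub_ne_zero, Ne, ZMod.natCast_eq_natCast_iff']
    exact h
  induction n using Nat.strong_induction_on with
  | _ n ih =>
    by_cases h1 : n = 1
    · subst h1; exact ⟨gx, hx, el_mem 0, by rw [gx, el_coeff]; exact one_ne_zero⟩
    by_cases h2 : n = 2
    · subst h2; exact ⟨gy, hy, el_mem 1, by rw [gy, el_coeff]; exact one_ne_zero⟩
    by_cases h5 : n % 7 = 2
    · obtain ⟨k, rfl⟩ : ∃ k, n = k + (1 + 1) := ⟨n - 2, by omega⟩
      obtain ⟨g, hg, hk, h0⟩ := ih k (by omega) (by omega)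
      exact ⟨_, hc _ hg _ hy, key k 1 (by omega) (by omega) g hk h0⟩
    · obtain ⟨k, rfl⟩ : ∃ k, n = k + (0 + 1) := ⟨n - 1, by omega⟩
      obtain ⟨g, hg, hk, h0⟩ := ih k (by omega) (by omega)
      exact ⟨_, hc _ hg _ hx, key k 0 (by omega) (by omega) g hk h0⟩

theorem closure_quot (n : ℕ) (hn : 1 ≤ n) :
    Subgroup.closure ({(gx : Nott 7 ⧸ Jn 7 n), (gy : Nott 7 ⧸ Jn 7 n)} : Set _) = ⊤ := by
  have : Fact (Nat.Prime 7) := ⟨by norm_num⟩
  rw [eq_top_iff]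
  intro q _
  obtain ⟨f, rfl⟩ := QuotientGroup.mk_surjective q
  obtain ⟨y, hy, h⟩ := R.rj1_approx R.rj1_div le_rfl depth_gen (f := f⁻¹)
    (by rw [Jn_one]; trivial) n hn
  rw [QuotientGroup.eq.mpr h]
  have := Subgroup.mem_map_of_mem (QuotientGroup.mk' (Jn 7 n)) hy
  rwa [MonoidHom.map_closure, Set.image_pair] at this

def idx (q : ℕ) : ℕ := [2, 3, 5, 7, 11, 13, 17, 19, 23, 29, 31, 37, 41].idxOf q + 2

noncomputable def vf (f : Nott 7) (q : ℕ) : ZMod 7 := coeff (idx q) f.1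

noncomputable def cv (f : Nott 7) (i : ℕ) : ZMod 7 := if i < 14 then coeff (i + 1) f.1 else 0

theorem ev_var (f : Nott 7) {q k : ℕ} (hq : q.Prime) (hk : idx q = k) :
    ev (vf f) [(q, 1)] = coeff k f.1 := by
  simp [ev, mon_prime _ hq, vf, hk]

theorem rep_F (f : Nott 7) : X ^ 15 ∣ f.1 - toPS (vf f) sF := by
  rw [X_pow_dvd_iff]
  intro m hm
  rw [map_sub, coeff_toPS, sub_eq_zero]
  interval_cases m
  · rw [f.2.1]; rfl
  · rw [f.2.2]; simp [sF, ev, mon_one]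
  all_goals exact (ev_var f (by norm_num) (by decide)).symm

theorem toPS_X (v : ℕ → ZMod 7) : toPS v sX = gx.1 := by
  simp [sX, toPS, ev, mon_one, gx, el]; ring

theorem toPS_Y (v : ℕ → ZMod 7) : toPS v sY = gy.1 := by
  simp [sY, toPS, ev, mon_one, gy, el]; ring

theorem cv_eq {g : Nott 7} {v : ℕ → ZMod 7} {U : List SP} (hU : U.length = 15)
    (h : X ^ 15 ∣ g.1 - toPS v U) : (fun i => ev v (U.tail.getD i [])) = cv g := by
  funext i
  unfold cv
  split_ifs with hi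
  · rw [coeff_eq_of_dvd h (by omega), coeff_toPS]
    cases U with
    | nil => simp at hU
    | cons a U => simp
  · rw [List.getD_eq_default _ _ (by simp [hU]; omega)]; rfl

theorem rep_mul {f g : Nott 7} {v : ℕ → ZMod 7} {U W : List SP} (h1 : X ^ 15 ∣ f.1 - toPS v U)
    (h2 : X ^ 15 ∣ g.1 - toPS v W) : X ^ 15 ∣ (f * g).1 - toPS v (lcomp 15 U W) := by
  have h0 : coeff 0 (toPS v W) = 0 := by rw [← coeff_eq_of_dvd h2 (by omega)]; exact g.2.1
  rw [mul_val]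
  simpa using dvd_add (subst_congr g.2.1 h0 h1 h2) (toPS_lcomp v 15 W h0 U)

noncomputable def fn (h : H) (f : Nott 7) : ZMod 7 := evH (cv f) h

theorem fn_ident {ρ lam : H} {uR uL : List SP} (hd : dif ρ lam uR uL = []) {f fr sf : Nott 7}
    (lR : uR.length = 15) (lL : uL.length = 15) (hR : X ^ 15 ∣ fr.1 - toPS (vf f) uR)
    (hL : X ^ 15 ∣ sf.1 - toPS (vf f) uL) : fn ρ f + fn lam fr = fn lam f + fn ρ sf := by
  have := congrArg (ev (vf f)) hd
  simp only [dif, ev_pnorm, ev_padd, ev_pmulT, ev_subH, cv_eq lR hR, cv_eq lL hL,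
    cv_eq (U := sF) rfl (rep_F f), mon_one, ev] at this
  have h5 : (7 : ZMod 7) = 0 := rfl
  simp only [fn]
  push_cast at this
  linear_combination this - (evH (cv f) lam + evH (cv sf) ρ) * h5

theorem rep_FX (f : Nott 7) : X ^ 15 ∣ (f * gx).1 - toPS (vf f) sFX := by
  rw [← cert_FX]; exact rep_mul (rep_F f) (by rw [toPS_X]; simp)

theorem rep_FY (f : Nott 7) : X ^ 15 ∣ (f * gy).1 - toPS (vf f) sFY := by
  rw [← cert_FY]; exact rep_mul (rep_F f) (by rw [toPS_Y]; simp)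

theorem rep_XF (f : Nott 7) : X ^ 15 ∣ (gx * f).1 - toPS (vf f) sXF := by
  rw [← cert_XF]; exact rep_mul (by rw [toPS_X]; simp) (rep_F f)

theorem rep_YF (f : Nott 7) : X ^ 15 ∣ (gy * f).1 - toPS (vf f) sYF := by
  rw [← cert_YF]; exact rep_mul (by rw [toPS_Y]; simp) (rep_F f)

abbrev QQ : Type := Nott 7 ⧸ Jn 7 14

noncomputable def fq (h : H) (q : QQ) : ZMod 7 := fn h q.out

theorem fq_mk (h : H) (f : Nott 7) : fq h (f : QQ) = fn h f := by
  have e : ((f : QQ).out : QQ) = f := QuotientGroup.out_eq' _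
  have h1 := congr_of_inv_mul_mem (QuotientGroup.eq.mp e)
  unfold fq fn
  congr 1
  funext i
  unfold cv
  split_ifs with hi
  · exact (coeff_eq_of_dvd h1 (by omega)).symm
  · rfl

theorem exists_cQ : ∃ c : QQ → QQ → ZMod 7,
    (∀ f g h, c f g + c (f * g) h = c g h + c f (g * h)) ∧
      (∀ f, c 1 f = 0) ∧ (∀ f, c f 1 = 0) ∧
      (∀ f, c f gx = fq rhoX f - fq rhoX 1) ∧ (∀ f, c f gy = fq rhoY f - fq rhoY 1) ∧
      (∀ f, c gx f = fq lamX f - fq lamX 1) ∧ (∀ f, c gy f = fq lamY f - fq lamY 1) := by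
  refine Five.exists_cocycle _ _ (closure_quot 14 (by omega)) _ _ _ _ ?_ ?_ ?_ ?_ <;> intro q <;>
    obtain ⟨f, rfl⟩ := QuotientGroup.mk_surjective q <;>
    simp only [← QuotientGroup.mk_mul, fq_mk]
  · exact fn_ident cert_xx rfl rfl (rep_FX f) (rep_XF f)
  · exact fn_ident cert_xy rfl rfl (rep_FY f) (rep_XF f)
  · exact fn_ident cert_yx rfl rfl (rep_FX f) (rep_YF f)
  · exact fn_ident cert_yy rfl rfl (rep_FY f) (rep_YF f)

/-- Evaluation of a Horner expression at a point given by a list. -/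
def evN (w : List ℕ) : H → ℕ
  | .c k => k
  | .a x y => (evN w x + evN w y) % 7
  | .m i x => (w.getD i 0 * evN w x) % 7

theorem evN_eq (w : List ℕ) : ∀ h : H, ((evN w h : ℕ) : ZMod 7) = evH (fun i => (w.getD i 0 : ℕ)) h
  | .c k => rfl
  | .a x y => by simp only [evN, evH, ZMod.natCast_mod, Nat.cast_add, evN_eq w x, evN_eq w y]
  | .m i x => by simp only [evN, evH, ZMod.natCast_mod, Nat.cast_mul, evN_eq w x]

theorem fn_eq {f : Nott 7} {w : List ℕ} (hw : w.length = 14)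
    (h : ∀ i < 14, coeff (i + 1) f.1 = (w.getD i 0 : ℕ)) (e : H) : fn e f = (evN w e : ℕ) := by
  rw [evN_eq, fn]
  congr 1
  funext i
  unfold cv
  split_ifs with hi
  · exact h i hi
  · rw [List.getD_eq_default _ _ (by omega)]; rfl

theorem fn_one (e : H) : fn e 1 = (evN [1, 0, 0, 0, 0, 0, 0, 0, 0, 0, 0, 0, 0, 0] e : ℕ) := by
  refine fn_eq rfl (fun i hi => ?_) e
  rw [one_val, coeff_X]
  interval_cases i <;> simp

theorem fn_13 (e : H) :
    fn e (el 7 11) = (evN [1, 0, 0, 0, 0, 0, 0, 0, 0, 0, 0, 0, 1, 0] e : ℕ) := by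
  refine fn_eq rfl (fun i hi => ?_) e
  simp only [el, map_add, coeff_X, coeff_X_pow]
  interval_cases i <;> simp

theorem fn_14 (e : H) :
    fn e (el 7 12) = (evN [1, 0, 0, 0, 0, 0, 0, 0, 0, 0, 0, 0, 0, 1] e : ℕ) := by
  refine fn_eq rfl (fun i hi => ?_) e
  simp only [el, map_add, coeff_X, coeff_X_pow]
  interval_cases i <;> simp

theorem val_y : fn rhoY (el 7 11) - fn rhoY 1 - (fn lamY (el 7 11) - fn lamY 1) = 1 := by
  simp only [fn_one, fn_13]; decide +kernel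

theorem val_x : fn rhoX (el 7 12) - fn rhoX 1 - (fn lamX (el 7 12) - fn lamX 1) = 0 := by
  simp only [fn_one, fn_14]; decide +kernel

/-- The cocycle on `J`, inflated from `J / J_14`. -/
theorem exists_coc : ∃ (c : Five.Coc (Nott 7) (ZMod 7)) (d : QQ → QQ → ZMod 7),
    (∀ f g, c.c f g = d f g) ∧ c.c (el 7 11) gy - c.c gy (el 7 11) = 1 ∧
      c.c (el 7 12) gx - c.c gx (el 7 12) = 0 := by
  obtain ⟨d, h1, h2, h3, h4, h5, h6, h7⟩ := exists_cQ
  refine ⟨⟨fun f g => d f g, fun f g h => h1 f g h, fun f => h2 f, fun f => h3 f⟩, d,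
    fun _ _ => rfl, ?_, ?_⟩
  · simp only [h5, h7, ← QuotientGroup.mk_one, fq_mk]; exact val_y
  · simp only [h4, h6, ← QuotientGroup.mk_one, fq_mk]; exact val_x

end Pool.Agent.P.MP_e06b60_al.Seven
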