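import Mathlib
import Pool.Agent.P.MP_e06b60_al.RS3

/-! The weighted series of a group with a quotient `J / J_M`. -/

namespace Pool.Agent.P.MP_e06b60_al.R

open PowerSeries
open scoped commutatorElement

variable {p : ℕ} [Fact p.Prime] {G : Type} [Group G] [TopologicalSpace G] [IsTopologicalGroup G]

theorem sl3_le (N : Subgroup (Nott p)) [N.Normal]
    (ψ : G →* Nott p ⧸ N) (hc : Continuous ψ) (S : WS G)
    (h2 : ∀ x, x ∈ S.F 2 ↔ ∃ f ∈ Jn p 2, ψ x = (f : Nott p ⧸ N)) :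
    ∀ n, 1 ≤ n → ∀ x ∈ S.F n, ∃ f ∈ Jn p n, ψ x = (f : Nott p ⧸ N) := by
  intro n
  induction n using Nat.strong_induction_on with
  | _ n ih =>
    intro h1 x hx
    rcases Nat.lt_or_ge n 3 with h3 | h3
    · obtain rfl | rfl : n = 1 ∨ n = 2 := by omega
      · obtain ⟨f, hf⟩ := QuotientGroup.mk_surjective (ψ x)
        exact ⟨f, by rw [Jn_one]; trivial, hf.symm⟩
      · exact (h2 x).1 hx
    · refine (rs2_mem N ψ n x).1 (S.gen n h3 _ (rs2_closed N ψ hc n) ?_ hx)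
      intro i j hi hj hij a ha b hb
      obtain ⟨f, hf, e1⟩ := ih i (by omega) hi a ha
      obtain ⟨g, hg, e2⟩ := ih j (by omega) hj b hb
      exact (rs2_mem N ψ n _).2 ⟨⁅f, g⁆, hij ▸ (comm_lead hi hj hf hg).1, rs2_comm N ψ e1 e2⟩

theorem sl3_gen (hp : 7 ≤ p) (N : Subgroup (Nott p)) [N.Normal]
    (ψ : G →* Nott p ⧸ N) (hs : Function.Surjective ψ) (S : WS G)
    (h2 : ∀ x, x ∈ S.F 2 ↔ ∃ f ∈ Jn p 2, ψ x = (f : Nott p ⧸ N)) :
    ∀ n, 1 ≤ n →
      ∃ g ∈ S.F n, ∃ f ∈ Jn p n, ψ g = (f : Nott p ⧸ N) ∧ coeff (n + 1) f.1 = 1 := by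
  intro n
  induction n using Nat.strong_induction_on with
  | _ n ih =>
    intro h1
    rcases Nat.lt_or_ge n 3 with h3 | h3
    · obtain rfl | rfl : n = 1 ∨ n = 2 := by omega
      · obtain ⟨g, hg⟩ := hs (el p 0 : Nott p ⧸ N)
        exact ⟨g, by rw [S.top]; trivial, el p 0, el_mem 0, hg, el_coeff 0⟩
      · obtain ⟨g, hg⟩ := hs (el p 1 : Nott p ⧸ N)
        exact ⟨g, (h2 g).2 ⟨_, el_mem 1, hg⟩, el p 1, el_mem 1, hg, el_coeff 1⟩
    · have key : ∀ i j, 1 ≤ i → 1 ≤ j → i + j = n → (i : ZMod p) - j ≠ 0 →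
          ∃ g ∈ S.F n, ∃ f ∈ Jn p n, ψ g = (f : Nott p ⧸ N) ∧ coeff (n + 1) f.1 = 1 := by
        intro i j hi hj hij hne
        obtain ⟨a, ha, f, hf, e1, c1⟩ := ih i (by omega) hi
        obtain ⟨b, hb, g, hg, e2, c2⟩ := ih j (by omega) hj
        obtain ⟨m1, m2⟩ := comm_lead hi hj hf hg
        rw [c1, c2, mul_one, mul_one] at m2
        have m3 := S.comm i j hi hj a ha b hb
        rw [hij] at m1 m2 m3
        refine ⟨⁅a, b⁆ ^ (((i : ZMod p) - j)⁻¹).val, pow_mem m3 _,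
          ⁅f, g⁆ ^ (((i : ZMod p) - j)⁻¹).val, pow_mem m1 _, ?_, ?_⟩
        · rw [map_pow, rs2_comm N ψ e1 e2, QuotientGroup.mk_pow]
        · have := ((JW p).isFun n h1).pow (x := ⁅f, g⁆) m1 (((i : ZMod p) - j)⁻¹).val
          rw [JW_lead, JW_lead, m2, ZMod.natCast_zmod_val, inv_mul_cancel₀ hne] at this
          exact this
      obtain ⟨m, rfl⟩ : ∃ m, n = m + 3 := ⟨n - 3, by omega⟩
      by_cases h0 : ((1 : ℕ) : ZMod p) - ((m + 2 : ℕ) : ZMod p) = 0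
      · refine key 2 (m + 1) (by omega) (by omega) (by omega) fun h => ?_
        refine cast_ne_zero (p := p) (a := 2) (by omega) (by omega) ?_
        push_cast at h h0 ⊢
        linear_combination h - h0
      · exact key 1 (m + 2) (by omega) (by omega) (by omega) h0

theorem sl3_ge (hp : 7 ≤ p) {M : ℕ} (N : Subgroup (Nott p)) [N.Normal] (hN : N = Jn p M)
    (ψ : G →* Nott p ⧸ N) (hs : Function.Surjective ψ) (S : WS G)
    (h2 : ∀ x, x ∈ S.F 2 ↔ ∃ f ∈ Jn p 2, ψ x = (f : Nott p ⧸ N)) :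
    ∀ n, 1 ≤ n → n ≤ M → ∀ f ∈ Jn p n, ∃ y ∈ S.F n, ψ y = (f : Nott p ⧸ N) := by
  intro n h1 hn
  induction hn using Nat.decreasingInduction with
  | self =>
    intro f hf
    refine ⟨1, one_mem _, ?_⟩
    rw [map_one, eq_comm, QuotientGroup.eq_one_iff, hN]
    exact hf
  | of_succ n hn ih =>
    intro f hf
    obtain ⟨g, hg, f0, hf0, e, c⟩ := sl3_gen hp N ψ hs S h2 n h1
    obtain ⟨a, ha⟩ := (JW p).span JW_ker h1 (g := f0) (x := f) hf0
      (by rw [JW_lead, c]; exact one_ne_zero) hf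
    obtain ⟨y, hy, e'⟩ := ih (by omega) _ ha
    refine ⟨y * g ^ a, mul_mem (S.anti n h1 hy) (pow_mem hg a), ?_⟩
    rw [map_mul, map_pow, e', e, ← QuotientGroup.mk_pow, ← QuotientGroup.mk_mul,
      inv_mul_cancel_right]

theorem sl3_one (hp : 7 ≤ p) (N : Subgroup (Nott p)) [N.Normal]
    (ψ : G →* Nott p ⧸ N) (hs : Function.Surjective ψ) (S : WS G)
    (h2 : ∀ x, x ∈ S.F 2 ↔ ∃ f ∈ Jn p 2, ψ x = (f : Nott p ⧸ N)) : gamma G 1 ≤ S.F 3 := by
  have htop : ∀ x : G, x ∈ S.F 1 := fun x => by rw [S.top]; trivial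
  obtain ⟨g, hg, f0, hf0, e, c⟩ := sl3_gen hp N ψ hs S h2 1 le_rfl
  refine rs2_step S (i := 0) (by omega) fun x _ y => ?_
  refine S.toNS.cyc_comm le_rfl hg (fun z _ => ?_) x (htop x) y (htop y)
  obtain ⟨f, hf⟩ := QuotientGroup.mk_surjective (ψ z)
  obtain ⟨a, ha⟩ := (JW p).span JW_ker le_rfl (g := f0) (x := f) hf0
    (by rw [JW_lead, c]; exact one_ne_zero) ((JW p).mem_one f)
  refine ⟨a, (h2 _).2 ⟨_, ha, ?_⟩⟩
  rw [map_mul, map_inv, map_pow, e, ← hf, QuotientGroup.mk_mul, QuotientGroup.mk_inv,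
    QuotientGroup.mk_pow]

/-- The section of depth `w` is cyclic, as seen by the functionals. -/
def sl3_C (p : ℕ) (S : WS G) (w : ℕ) : Prop :=
  IsOpen (S.F (w + 1) : Set G) → ∃ c : G, ∀ x ∈ S.F w, ∃ u : ZMod p,
    ∀ f, IsFun p S.toNS w f → f x = u * f c

theorem sl3_cyc (S : WS G) {i n : ℕ} (hn : 1 ≤ n) (hle : S.F (n + 1) ≤ gamma G (i + 1))
    (hge : gamma G i ≤ S.F n) {a b : G} (ha : a ∈ S.F n)
    (hsa : ∀ x ∈ S.F n, ∃ u : ℕ, x * (a ^ u)⁻¹ ∈ S.F (n + 1))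
    (hsb : ∀ x ∈ S.F 1, ∃ u : ℕ, x * (b ^ u)⁻¹ ∈ S.F (1 + 1)) : sl3_C p S (n + 1) := by
  intro hop
  have htop : ∀ x : G, x ∈ S.F 1 := fun x => by rw [S.top]; trivial
  let T : Subgroup G :=
    { carrier := {x | x ∈ S.F (n + 1) ∧ ∃ u : ZMod p,
        ∀ f, IsFun p S.toNS (n + 1) f → f x = u * f ⁅a, b⁆}
      one_mem' := ⟨one_mem _, 0, fun f hf => by rw [hf.one, zero_mul]⟩
      mul_mem' := by
        rintro x y ⟨hx, u, hu⟩ ⟨hy, v, hv⟩
        exact ⟨mul_mem hx hy, u + v, fun f hf => by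
          rw [hf.mul _ hx _ hy, hu f hf, hv f hf, add_mul]⟩
      inv_mem' := by
        rintro x ⟨hx, u, hu⟩
        exact ⟨inv_mem hx, -u, fun f hf => by rw [hf.inv hx, hu f hf, neg_mul]⟩ }
  have hT : S.F (n + 1 + 1) ≤ T := fun x hx => ⟨S.anti (n + 1) (by omega) hx, 0, fun f hf => by
    rw [hf.zero x hx, zero_mul]⟩
  have hcl : IsClosed (T : Set G) := T.isClosed_of_isOpen (Subgroup.isOpen_mono hT hop)
  have h1 : gamma G (i + 1) ≤ T := by
    rw [gamma]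
    refine Subgroup.topologicalClosure_minimal _
      (Subgroup.commutator_le.2 fun x hx y _ => ?_) hcl
    obtain ⟨u, hu⟩ := hsa x (hge hx)
    obtain ⟨v, hv⟩ := hsb y (htop y)
    refine ⟨S.comm n 1 hn le_rfl x (hge hx) y (htop y), u * v, fun e he => ?_⟩
    rw [he.comm_congr_left hn le_rfl rfl (pow_mem ha u) hu (htop y),
      he.comm_pow_left hn le_rfl rfl ha (htop y),
      he.comm_congr_right hn le_rfl rfl ha (htop _) hv,
      he.comm_pow_right hn le_rfl rfl ha (htop b), mul_assoc]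
  exact ⟨⁅a, b⁆, fun x hx => (h1 (hle hx)).2⟩

theorem sl3_base (hp : 7 ≤ p) {M i : ℕ} (hM : 1 ≤ M) (N : Subgroup (Nott p)) [N.Normal]
    (hN : N = Jn p (M + 1))
    (ψ : G →* Nott p ⧸ N) (hc : Continuous ψ) (hs : Function.Surjective ψ)
    (hk : ψ.ker = gamma G (i + 1))
    (hge : ∀ S : WS G, (∀ x, x ∈ S.F 2 ↔ ∃ f ∈ Jn p 2, ψ x = (f : Nott p ⧸ N)) →
      gamma G i ≤ S.F M) :
    ∃ (S : WS G) (g : ℕ → G), Base p S M g ∧ sl3_C p S (M + 1) := by
  have hNo : IsOpen (N : Set (Nott p)) := by rw [hN]; exact Jn_isOpen _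
  have hd : DiscreteTopology (Nott p ⧸ N) := QuotientGroup.discreteTopology hNo
  have hko : IsOpen (ψ.ker : Set G) := by
    have e : (ψ.ker : Set G) = ψ ⁻¹' {1} := by
      ext x; simp [MonoidHom.mem_ker]
    rw [e]
    exact (isOpen_discrete _).preimage hc
  have hlift : ∀ x : G, ∃ f : Nott p, ψ x = (f : Nott p ⧸ N) := fun x => by
    obtain ⟨f, hf⟩ := QuotientGroup.mk_surjective (ψ x)
    exact ⟨f, hf.symm⟩
  let P : Subgroup G := ((Jn p 2).map (QuotientGroup.mk' N)).comap ψ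
  have hP : ∀ x, x ∈ P ↔ ∃ f ∈ Jn p 2, ψ x = (f : Nott p ⧸ N) := fun x => by
    simp only [P, Subgroup.mem_comap, Subgroup.mem_map, QuotientGroup.mk'_apply]
    exact ⟨fun ⟨f, h1, h2⟩ => ⟨f, h1, h2.symm⟩, fun ⟨f, h1, h2⟩ => ⟨f, h1, h2.symm⟩⟩
  have : ((Jn p 2).map (QuotientGroup.mk' N)).Normal :=
    (Jn_normal 2).map _ (QuotientGroup.mk'_surjective N)
  have : P.Normal := Subgroup.normal_comap ψ
  have hkP : ψ.ker ≤ P := fun x hx =>
    (hP x).2 ⟨1, (Jn p 2).one_mem, by rw [MonoidHom.mem_ker.1 hx]; rfl⟩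
  have hPc : IsClosed (P : Set G) := P.isClosed_of_isOpen (Subgroup.isOpen_mono hkP hko)
  have hcomm : ∀ (x y : G) (f g : Nott p), ψ x = (f : Nott p ⧸ N) → ψ y = (g : Nott p ⧸ N) →
      ψ ⁅x, y⁆ = ((⁅f, g⁆ : Nott p) : Nott p ⧸ N) := fun x y f g hf hg => by
    rw [map_commutatorElement, hf, hg]
    exact (map_commutatorElement (QuotientGroup.mk' N) f g).symm
  obtain ⟨S, hS⟩ := exists_ws P hPc fun x y => by
    obtain ⟨f, hf⟩ := hlift x
    obtain ⟨g, hg⟩ := hlift y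
    exact (hP _).2 ⟨⁅f, g⁆, (JW p).comm 1 1 le_rfl le_rfl f ((JW p).mem_one f) g
      ((JW p).mem_one g), hcomm x y f g hf hg⟩
  have h2 : ∀ x, x ∈ S.F 2 ↔ ∃ f ∈ Jn p 2, ψ x = (f : Nott p ⧸ N) := fun x => by
    rw [hS]; exact hP x
  have hker : ψ.ker ≤ S.F (M + 1) := hk ▸ rs2_steps S hM (hge S h2) 1
  have key : ∀ n, 1 ≤ n → n ≤ M + 1 → ∀ (x : G) (f : Nott p), ψ x = (f : Nott p ⧸ N) →
      (x ∈ S.F n ↔ f ∈ Jn p n) := fun n h1 hn x f hx => by
    constructor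
    · intro h
      obtain ⟨f', a1, a2⟩ := sl3_le N ψ hc S h2 n h1 x h
      have a3 : f'⁻¹ * f ∈ N := QuotientGroup.eq.1 (a2.symm.trans hx)
      rw [hN] at a3
      have a4 := (Jn p n).mul_mem a1 (Jn_anti hn a3)
      rwa [mul_inv_cancel_left] at a4
    · intro h
      obtain ⟨y, a1, a2⟩ := sl3_ge hp N hN ψ hs S h2 n h1 hn f h
      have a3 : x * y⁻¹ ∈ ψ.ker := by
        rw [MonoidHom.mem_ker, map_mul, map_inv, hx, a2, mul_inv_cancel]
      have a4 := (S.F n).mul_mem (S.toNS.mono h1 hn (hker a3)) a1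
      rwa [inv_mul_cancel_right] at a4
  choose g hg1 φ hg2 hg3 hg4 using sl3_gen hp N ψ hs S h2
  let g' : ℕ → G := fun n => if h : 1 ≤ n then g n h else 1
  have hg' : ∀ n (h : 1 ≤ n), g' n = g n h := fun n h => dif_pos h
  suffices hb : Base p S M g' by
    refine ⟨S, g', hb, sl3_cyc S hM (fun x hx => ?_) (hge S h2) (hb.mem M hM le_rfl)
      (hb.span M hM le_rfl) (hb.span 1 le_rfl hM)⟩
    obtain ⟨f, hf⟩ := hlift x
    have a1 := (key (M + 1) (by omega) le_rfl x f hf).1 hx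
    rw [← hk, MonoidHom.mem_ker, hf, QuotientGroup.eq_one_iff, hN]
    exact a1
  refine ⟨fun n h1 hn => hg' n h1 ▸ hg1 n h1, fun n h1 hn x hx => ?_,
    fun n h1 hn x hx => ?_, fun i j hi hj hij => ?_, Subgroup.isOpen_mono hker hko⟩
  · obtain ⟨f, hf⟩ := hlift x
    have a1 := (key n h1 (by omega) x f hf).1 hx
    refine (key (n + 1) (by omega) (by omega) _ (f ^ p) ?_).2 ((JW p).exp JW_ker h1 a1)
    rw [map_pow, hf]; rfl
  · obtain ⟨f, hf⟩ := hlift x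
    have a1 := (key n h1 (by omega) x f hf).1 hx
    obtain ⟨a, ha⟩ := (JW p).span JW_ker h1 (g := φ n h1) (hg2 n h1)
      (by rw [JW_lead, hg4]; exact one_ne_zero) a1
    refine ⟨a, (key (n + 1) (by omega) (by omega) _ (f * (φ n h1 ^ a)⁻¹) ?_).2 ha⟩
    rw [map_mul, map_inv, map_pow, hf, hg' n h1, hg3]; rfl
  · have hij1 : 1 ≤ i + j := by omega
    refine (key (i + j + 1) (by omega) (by omega) _
      (⁅φ i hi, φ j hj⁆ * (φ (i + j) hij1 ^ ((i : ℤ) - j))⁻¹) ?_).2 ?_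
    · rw [map_mul, map_inv, map_zpow, hg' i hi, hg' j hj, hg' _ hij1,
        hcomm _ _ _ _ (hg3 i hi) (hg3 j hj), hg3]; rfl
    · refine (JW p).cg_of_lead JW_ker hij1 ((JW p).comm i j hi hj _ (hg2 i hi) _ (hg2 j hj))
        (((JW p).F (i + j)).zpow_mem (hg2 _ hij1) _) ?_
      rw [(JW p).br i j hi hj _ (hg2 i hi) _ (hg2 j hj), ((JW p).isFun (i + j) hij1).zpow (hg2 _ hij1),
        JW_lead, JW_lead, JW_lead, hg4, hg4, hg4]
      push_cast
      ring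

theorem sl3_base1 (hp : 7 ≤ p) {i : ℕ} (hi : 1 ≤ i) (ψ : G →* Nott p ⧸ Jn p (i + 2 + 1))
    (hc : Continuous ψ) (hs : Function.Surjective ψ) (hk : ψ.ker = gamma G (i + 1)) :
    ∃ (S : WS G) (g : ℕ → G), Base p S (i + 2) g ∧ sl3_C p S (i + 2 + 1) := by
  refine sl3_base hp (by omega) _ rfl ψ hc hs hk fun S h2 => ?_
  have := rs2_steps S (by omega) (sl3_one hp _ ψ hs S h2) (i - 1)
  rwa [show 1 + (i - 1) = i by omega, show 3 + (i - 1) = i + 2 by omega] at this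

theorem sl3_base2 (hp : 7 ≤ p) {i : ℕ} (hi : p ≤ i) (ψ : G →* Nott p ⧸ Jn p (i + 3 + 1))
    (hc : Continuous ψ) (hs : Function.Surjective ψ) (hk : ψ.ker = gamma G (i + 1)) :
    ∃ (S : WS G) (g : ℕ → G), Base p S (i + 3) g ∧ sl3_C p S (i + 3 + 1) := by
  refine sl3_base hp (by omega) _ rfl ψ hc hs hk fun S h2 => ?_
  have g1 := sl3_one hp _ ψ hs S h2
  have a1 : gamma G (i + 1) ≤ S.F (p + 1 + 2) := by
    have := rs2_steps S (by omega) g1 i
    rw [add_comm 1 i] at this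
    exact this.trans (S.toNS.mono (by omega) (by omega))
  have a2 : gamma G (p - 1) ≤ S.F (p + 1) := by
    have := rs2_steps S (by omega) g1 (p - 2)
    rwa [show 1 + (p - 2) = p - 1 by omega, show 3 + (p - 2) = p + 1 by omega] at this
  have a3 : gamma G (p - 1 + 1) ≤ S.F (p + 1 + 2) := by
    refine rs2_step S (by omega) fun x hx y => ?_
    obtain ⟨f, hf, e⟩ := sl3_le _ ψ hc S h2 (p + 1) (by omega) x (a2 hx)
    obtain ⟨g, hg⟩ := QuotientGroup.mk_surjective (ψ y)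
    obtain ⟨v, hv, e'⟩ := sl3_ge hp _ rfl ψ hs S h2 (p + 1 + 2) (by omega) (by omega) _
      (comm_jump (by omega) (by simp) hf g)
    have hxy : ⁅x, y⁆ * v⁻¹ ∈ S.F (p + 1 + 2) := by
      refine a1 ?_
      rw [← hk, MonoidHom.mem_ker, map_mul, map_inv, rs2_comm _ ψ e hg.symm, e', mul_inv_cancel]
    simpa using mul_mem hxy hv
  have := rs2_steps S (by omega) a3 (i - p)
  rwa [show p - 1 + 1 + (i - p) = i by omega, show p + 1 + 2 + (i - p) = i + 3 by omega] at this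

end Pool.Agent.P.MP_e06b60_al.R
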