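import Mathlib
import Pool.Agent.P.MP_e06b60_al.RA4
import Pool.Agent.P.MP_e06b60_al.RA2

/-! Polynomial maps from a commutative monoid to a filtered group. -/

namespace Pool.Agent.P.MP_e06b60_al.R

open scoped commutatorElement

variable {G : Type} [Group G] {V : Type} [AddCommMonoid V]

/-- The difference in direction `h`. -/
def sm1_D (h : V) (f : V → G) : V → G := fun a => f (a + h) * (f a)⁻¹

/-- Polynomial maps of level `k`, up to depth `d`. -/
inductive sm1_P (S : NS G) : ℕ → ℕ → (V → G) → Prop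
  | zero {k : ℕ} {f : V → G} (h : ∀ a, f a ∈ S.F (max k 1)) : sm1_P S 0 k f
  | succ {d k : ℕ} {f : V → G} (h : ∀ a, f a ∈ S.F (max k 1))
      (h' : ∀ v, sm1_P S d (k + 1) (sm1_D v f)) : sm1_P S (d + 1) k f

theorem sm1_mem {S : NS G} {d k : ℕ} {f : V → G} (h : sm1_P S d k f) (a : V) :
    f a ∈ S.F (max k 1) := by
  cases h with
  | zero h => exact h a
  | succ h _ => exact h a

theorem sm1_diff {S : NS G} {d k : ℕ} {f : V → G} (h : sm1_P S (d + 1) k f) (v : V) :
    sm1_P S d (k + 1) (sm1_D v f) := by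
  cases h with
  | succ _ h => exact h v

theorem sm1_down {S : NS G} {d : ℕ} : ∀ {k : ℕ} {f : V → G}, sm1_P S (d + 1) k f → sm1_P S d k f := by
  induction d with
  | zero => exact fun h => .zero (sm1_mem h)
  | succ d ih => exact fun h => .succ (sm1_mem h) fun v => ih (sm1_diff h v)

theorem sm1_mono {S : NS G} {d : ℕ} : ∀ {k l : ℕ} {f : V → G}, sm1_P S d l f → k ≤ l →
    sm1_P S d k f := by
  induction d with
  | zero => exact fun h hk => .zero fun a => ra4_anti S hk (sm1_mem h a)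
  | succ d ih =>
    exact fun h hk => .succ (fun a => ra4_anti S hk (sm1_mem h a)) fun v =>
      ih (sm1_diff h v) (by omega)

theorem sm1_closed (S : NS G) (d : ℕ) :
    (∀ k (f g : V → G), sm1_P S d k f → sm1_P S d k g → sm1_P S d k (f * g)) ∧
    (∀ k (f : V → G), sm1_P S d k f → sm1_P S d k f⁻¹) ∧
    ∀ i j (f g : V → G), sm1_P S d i f → sm1_P S d j g → sm1_P S d (i + j) ⁅f, g⁆ := by
  induction d with
  | zero =>
    exact ⟨fun k f g hf hg => .zero fun n => mul_mem (sm1_mem hf n) (sm1_mem hg n),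
      fun k f hf => .zero fun n => inv_mem (sm1_mem hf n),
      fun i j f g hf hg => .zero fun n => ra4_comm S (sm1_mem hf n) (sm1_mem hg n)⟩
  | succ d ih =>
    obtain ⟨hm, hi, hc⟩ := ih
    refine ⟨fun k f g hf hg => .succ (fun n => mul_mem (sm1_mem hf n) (sm1_mem hg n)) fun v => ?_,
      fun k f hf => .succ (fun n => inv_mem (sm1_mem hf n)) fun v => ?_,
      fun i j f g hf hg => .succ (fun n => ra4_comm S (sm1_mem hf n) (sm1_mem hg n)) fun v => ?_⟩
    · have e : sm1_D v (f * g) = sm1_D v f * (⁅f, sm1_D v g⁆ * sm1_D v g) := by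
        funext n
        simp [sm1_D, commutatorElement_def, mul_assoc]
      rw [e]
      exact hm _ _ _ (sm1_diff hf v) (hm _ _ _
        (sm1_mono (hc _ _ _ _ (sm1_down hf) (sm1_diff hg v)) (by omega)) (sm1_diff hg v))
    · have e : sm1_D v f⁻¹ = ⁅f⁻¹, (sm1_D v f)⁻¹⁆ * (sm1_D v f)⁻¹ := by
        funext n
        simp [sm1_D, commutatorElement_def, mul_assoc]
      rw [e]
      have h1 := hi _ _ (sm1_diff hf v)
      exact hm _ _ _ (sm1_mono (hc _ _ _ _ (hi _ _ (sm1_down hf)) h1) (by omega)) h1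
    · have ha := sm1_diff hf v
      have hb := sm1_diff hg v
      have hf' := sm1_down hf
      have hg' := sm1_down hg
      have hh := hm _ _ _ (sm1_mono hb (Nat.le_succ j)) hg'
      have h1 := hc _ _ _ _ hf' hg'
      have h2 := hc _ _ _ _ ha hh
      have e : sm1_D v ⁅f, g⁆ = ⁅sm1_D v f, ⁅f, sm1_D v g * g⁆⁆ * (⁅f, sm1_D v g⁆ *
          (⁅sm1_D v g, ⁅f, g⁆⁆ *
          (⁅⁅f, g⁆, ⁅sm1_D v f, sm1_D v g * g⁆⁆ * ⁅sm1_D v f, sm1_D v g * g⁆))) := by
        funext n
        simp [sm1_D, commutatorElement_def, mul_assoc]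
      rw [e]
      exact hm _ _ _ (sm1_mono (hc _ _ _ _ ha (hc _ _ _ _ hf' hh)) (by omega))
        (hm _ _ _ (sm1_mono (hc _ _ _ _ hf' hb) (by omega))
          (hm _ _ _ (sm1_mono (hc _ _ _ _ hb h1) (by omega))
            (hm _ _ _ (sm1_mono (hc _ _ _ _ h1 h2) (by omega)) (sm1_mono h2 (by omega)))))

theorem sm1_mul {S : NS G} {d k : ℕ} {f g : V → G} (hf : sm1_P S d k f) (hg : sm1_P S d k g) :
    sm1_P S d k fun a => f a * g a := (sm1_closed S d).1 k f g hf hg

theorem sm1_inv {S : NS G} {d k : ℕ} {f : V → G} (hf : sm1_P S d k f) :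
    sm1_P S d k fun a => (f a)⁻¹ := (sm1_closed S d).2.1 k f hf

theorem sm1_map {G' : Type} [Group G'] {S : NS G} {S' : NS G'} (φ : G →* G')
    (hφ : ∀ n, 1 ≤ n → ∀ x ∈ S.F n, φ x ∈ S'.F n) {d k : ℕ} {f : V → G} (h : sm1_P S d k f) :
    sm1_P S' d k fun a => φ (f a) := by
  induction h with
  | zero h => exact .zero fun a => hφ _ (le_max_right _ _) _ (h a)
  | @succ d k f h _ ih =>
    refine .succ (fun a => hφ _ (le_max_right _ _) _ (h a)) fun v => ?_
    have e : (sm1_D v fun a => φ (f a)) = fun a => φ (sm1_D v f a) := by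
      funext a
      simp [sm1_D]
    rw [e]
    exact ih v

theorem sm1_deep {S : NS G} {N : Subgroup G} (hN : ∀ n, 1 ≤ n → N ≤ S.F n) {d : ℕ} :
    ∀ {k : ℕ} {f : V → G}, (∀ a, f a ∈ N) → sm1_P S d k f := by
  induction d with
  | zero => exact fun h => .zero fun a => hN _ (le_max_right _ _) (h a)
  | succ d ih =>
    exact fun h => .succ (fun a => hN _ (le_max_right _ _) (h a)) fun v =>
      ih fun a => mul_mem (h _) (inv_mem (h _))

variable {p : ℕ}

/-- Functions whose `m`-fold differences vanish. -/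
inductive sm1_Z : ℕ → (V → ZMod p) → Prop
  | zero {φ : V → ZMod p} (h : ∀ a, φ a = 0) : sm1_Z 0 φ
  | succ {m : ℕ} {φ : V → ZMod p} (h : ∀ v, sm1_Z m fun a => φ (a + v) - φ a) : sm1_Z (m + 1) φ

theorem sm1_Zzero {φ : V → ZMod p} (h : sm1_Z 0 φ) (a : V) : φ a = 0 := by
  cases h with
  | zero h => exact h a

theorem sm1_Zsucc {m : ℕ} {φ : V → ZMod p} (h : sm1_Z (m + 1) φ) (v : V) :
    sm1_Z m fun a => φ (a + v) - φ a := by
  cases h with
  | succ h => exact h v

theorem sm1_Zsub {m : ℕ} : ∀ {φ ψ : V → ZMod p}, sm1_Z m φ → sm1_Z m ψ →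
    sm1_Z m fun a => φ a - ψ a := by
  induction m with
  | zero => exact fun h h' => .zero fun a => by rw [sm1_Zzero h, sm1_Zzero h', sub_zero]
  | succ m ih =>
    intro φ ψ h h'
    refine .succ fun v => ?_
    have e : (fun a => φ (a + v) - ψ (a + v) - (φ a - ψ a)) =
        fun a => φ (a + v) - φ a - (ψ (a + v) - ψ a) := by
      funext a
      ring
    rw [e]
    exact ih (sm1_Zsucc h v) (sm1_Zsucc h' v)

theorem sm1_fun {S : NS G} {T : Subgroup G} {l : G → ZMod p}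
    (hl : ∀ x ∈ T, ∀ y ∈ T, l (x * y⁻¹) = l x - l y) {m : ℕ} : ∀ {d k : ℕ} {f : V → G}, m ≤ d →
    (∀ x ∈ T, x ∈ S.F (max (k + m) 1) → l x = 0) → (∀ a, f a ∈ T) → sm1_P S d k f →
    sm1_Z m fun a => l (f a) := by
  induction m with
  | zero => exact fun _ h0 hT h => .zero fun a => h0 _ (hT a) (sm1_mem h a)
  | succ m ih =>
    intro d k f hd h0 hT h
    obtain ⟨d, rfl⟩ : ∃ e, d = e + 1 := ⟨d - 1, by omega⟩
    refine .succ fun v => ?_
    have e : (fun a => l (f (a + v)) - l (f a)) = fun a => l (sm1_D v f a) := by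
      funext a
      exact (hl _ (hT _) _ (hT _)).symm
    rw [e]
    exact ih (by omega) (by rwa [show k + 1 + m = k + (m + 1) by ring])
      (fun a => mul_mem (hT _) (inv_mem (hT _))) (sm1_diff h v)

theorem sm1_pow [Fact p.Prime] {S : NS G} {N : Subgroup G} (hN : ∀ n, 1 ≤ n → N ≤ S.F n) {g : G}
    (hg : g ^ p ∈ N) {d : ℕ} : ∀ {k m : ℕ} {φ : V → ZMod p}, sm1_Z m φ →
    (∀ j < m, g ∈ S.F (max (k + j) 1)) → sm1_P S d k fun a => g ^ (φ a).val := by
  have h0 : ∀ {d k : ℕ} {φ : V → ZMod p}, sm1_Z 0 φ → sm1_P S d k fun a => g ^ (φ a).val :=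
    fun h => sm1_deep hN fun a => by rw [sm1_Zzero h, ZMod.val_zero, pow_zero]; exact one_mem _
  induction d with
  | zero =>
    intro k m φ h hj
    cases m with
    | zero => exact h0 h
    | succ m => exact .zero fun a => pow_mem (hj 0 (by omega)) _
  | succ d ih =>
    intro k m φ h hj
    cases m with
    | zero => exact h0 h
    | succ m =>
      refine .succ (fun a => pow_mem (hj 0 (by omega)) _) fun v => ?_
      have e : (sm1_D v fun a => g ^ (φ a).val) = fun a => g ^ (φ (a + v) - φ a).val *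
          g ^ (((φ (a + v)).val : ℤ) - (φ a).val - (φ (a + v) - φ a).val) := by
        funext a
        simp only [sm1_D]
        rw [← zpow_natCast, ← zpow_natCast, ← zpow_natCast, ← zpow_neg, ← zpow_add, ← zpow_add]
        congr 1
        ring
      rw [e]
      refine sm1_mul (ih (sm1_Zsucc h v) fun j hj' => ?_) (sm1_deep hN fun a => ?_)
      · rw [show k + 1 + j = k + (j + 1) by ring]
        exact hj _ (by omega)
      · obtain ⟨c, hc⟩ : (p : ℤ) ∣
            ((φ (a + v)).val : ℤ) - (φ a).val - (φ (a + v) - φ a).val := by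
          rw [← ZMod.intCast_zmod_eq_zero_iff_dvd]
          push_cast
          simp
        rw [hc, zpow_mul, zpow_natCast]
        exact zpow_mem hg c

theorem sm1_lin {ψ : ℕ × ℕ → ZMod p} (h : sm1_Z 5 ψ) :
    48 * ψ (1, 1) - 36 * ψ (2, 2) + 16 * ψ (3, 3) - 3 * ψ (4, 4) + 25 * ψ (0, 0) =
      48 * ψ (1, 0) - 36 * ψ (2, 0) + 16 * ψ (3, 0) - 3 * ψ (4, 0) +
        (48 * ψ (0, 1) - 36 * ψ (0, 2) + 16 * ψ (0, 3) - 3 * ψ (0, 4)) := by
  have key := fun v1 v2 v3 v4 v5 a => sm1_Zzero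
    (sm1_Zsucc (sm1_Zsucc (sm1_Zsucc (sm1_Zsucc (sm1_Zsucc h v1) v2) v3) v4) v5) a
  have h10 := key (1, 0) (0, 1) (0, 1) (0, 1) (0, 1) (0, 0)
  have h11 := key (1, 0) (0, 1) (0, 1) (0, 1) (0, 1) (1, 0)
  have h12 := key (1, 0) (0, 1) (0, 1) (0, 1) (0, 1) (2, 0)
  have h13 := key (1, 0) (0, 1) (0, 1) (0, 1) (0, 1) (3, 0)
  have h20 := key (1, 0) (1, 0) (0, 1) (0, 1) (0, 1) (0, 0)
  have h21 := key (1, 0) (1, 0) (0, 1) (0, 1) (0, 1) (1, 0)
  have h22 := key (1, 0) (1, 0) (0, 1) (0, 1) (0, 1) (2, 0)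
  have h30 := key (1, 0) (1, 0) (1, 0) (0, 1) (0, 1) (0, 0)
  have h31 := key (1, 0) (1, 0) (1, 0) (0, 1) (0, 1) (1, 0)
  have h40 := key (1, 0) (1, 0) (1, 0) (1, 0) (0, 1) (0, 0)
  simp only [Prod.mk_add_mk, Nat.reduceAdd] at h10 h11 h12 h13 h20 h21 h22 h30 h31 h40
  linear_combination (-3) * h10 + (-3) * h11 + (-3) * h12 + (-3) * h13 + (-4) * h20 + (-8) * h21 +
    (-12) * h22 + (-6) * h30 + (-18) * h31 + (-12) * h40

end Pool.Agent.P.MP_e06b60_al.R
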