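import Mathlib
import Pool.Agent.P.MP_e06b60_al.SM1
import Pool.Agent.P.MP_e06b60_al.RJ2

/-! Polynomial maps to a filtered ring, and to the Nottingham group through substitution. -/

namespace Pool.Agent.P.MP_e06b60_al.R

open PowerSeries
open scoped commutatorElement

section
variable {A : Type} [Ring A] {V : Type} [AddCommMonoid V]

/-- A decreasing multiplicative filtration of a ring. -/
structure sm2_F (A : Type) [Ring A] where
  M : ℕ → AddSubgroup A
  anti : ∀ i j, i ≤ j → M j ≤ M i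
  mul : ∀ i j, ∀ x ∈ M i, ∀ y ∈ M j, x * y ∈ M (i + j)

/-- Additively polynomial maps of level `k`, up to depth `d`. -/
inductive sm2_P (Φ : sm2_F A) : ℕ → ℕ → (V → A) → Prop
  | zero {k : ℕ} {U : V → A} (h : ∀ a, U a ∈ Φ.M k) : sm2_P Φ 0 k U
  | succ {d k : ℕ} {U : V → A} (h : ∀ a, U a ∈ Φ.M k)
      (h' : ∀ v, sm2_P Φ d (k + 1) fun a => U (a + v) - U a) : sm2_P Φ (d + 1) k U

variable {Φ : sm2_F A}

theorem sm2_mem {d k : ℕ} {U : V → A} (h : sm2_P Φ d k U) (a : V) : U a ∈ Φ.M k := by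
  cases h with
  | zero h => exact h a
  | succ h _ => exact h a

theorem sm2_diff {d k : ℕ} {U : V → A} (h : sm2_P Φ (d + 1) k U) (v : V) :
    sm2_P Φ d (k + 1) fun a => U (a + v) - U a := by
  cases h with
  | succ _ h => exact h v

theorem sm2_down {d : ℕ} : ∀ {k : ℕ} {U : V → A}, sm2_P Φ (d + 1) k U → sm2_P Φ d k U := by
  induction d with
  | zero => exact fun h => .zero (sm2_mem h)
  | succ d ih => exact fun h => .succ (sm2_mem h) fun v => ih (sm2_diff h v)

theorem sm2_mono {d : ℕ} : ∀ {k l : ℕ} {U : V → A}, sm2_P Φ d l U → k ≤ l → sm2_P Φ d k U := by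
  induction d with
  | zero => exact fun h hk => .zero fun a => Φ.anti _ _ hk (sm2_mem h a)
  | succ d ih =>
    exact fun h hk => .succ (fun a => Φ.anti _ _ hk (sm2_mem h a)) fun v =>
      ih (sm2_diff h v) (by omega)

theorem sm2_sub {d : ℕ} : ∀ {k : ℕ} {U W : V → A}, sm2_P Φ d k U → sm2_P Φ d k W →
    sm2_P Φ d k fun a => U a - W a := by
  induction d with
  | zero => exact fun h h' => .zero fun a => sub_mem (sm2_mem h a) (sm2_mem h' a)
  | succ d ih =>
    intro k U W h h'
    refine .succ (fun a => sub_mem (sm2_mem h a) (sm2_mem h' a)) fun v => ?_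
    have e : (fun a => U (a + v) - W (a + v) - (U a - W a)) =
        fun a => U (a + v) - U a - (W (a + v) - W a) := by
      funext a
      abel
    rw [e]
    exact ih (sm2_diff h v) (sm2_diff h' v)

theorem sm2_deep {N : AddSubgroup A} (hN : ∀ k, N ≤ Φ.M k) {d : ℕ} :
    ∀ {k : ℕ} {U : V → A}, (∀ a, U a ∈ N) → sm2_P Φ d k U := by
  induction d with
  | zero => exact fun h => .zero fun a => hN _ (h a)
  | succ d ih => exact fun h => .succ (fun a => hN _ (h a)) fun v => ih fun a => sub_mem (h _) (h _)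

theorem sm2_const {d k : ℕ} {c : A} (h : c ∈ Φ.M k) : sm2_P Φ d k fun _ : V => c := by
  cases d with
  | zero => exact .zero fun _ => h
  | succ d =>
    exact .succ (fun _ => h) fun v => sm2_deep (N := ⊥) (fun _ => bot_le) fun a => by simp

theorem sm2_neg {d k : ℕ} {U : V → A} (h : sm2_P Φ d k U) : sm2_P Φ d k fun a => -U a := by
  simpa using sm2_sub (sm2_const (zero_mem _)) h

theorem sm2_add {d k : ℕ} {U W : V → A} (h : sm2_P Φ d k U) (h' : sm2_P Φ d k W) :
    sm2_P Φ d k fun a => U a + W a := by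
  simpa using sm2_sub h (sm2_neg h')

theorem sm2_shift {d k : ℕ} {U : V → A} (h : sm2_P Φ d k U) (c : V) :
    sm2_P Φ d k fun a => U (a + c) := by
  induction h with
  | zero h => exact .zero fun a => h _
  | @succ d k U h _ ih =>
    refine .succ (fun a => h _) fun v => ?_
    simpa only [add_right_comm _ v c] using ih v

theorem sm2_mul {d : ℕ} : ∀ {k l : ℕ} {U W : V → A}, sm2_P Φ d k U → sm2_P Φ d l W →
    sm2_P Φ d (k + l) fun a => U a * W a := by
  induction d with
  | zero => exact fun h h' => .zero fun a => Φ.mul _ _ _ (sm2_mem h a) _ (sm2_mem h' a)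
  | succ d ih =>
    intro k l U W h h'
    refine .succ (fun a => Φ.mul _ _ _ (sm2_mem h a) _ (sm2_mem h' a)) fun v => ?_
    have e : (fun a => U (a + v) * W (a + v) - U a * W a) =
        fun a => (U (a + v) - U a) * W (a + v) + U a * (W (a + v) - W a) := by
      funext a
      noncomm_ring
    rw [e]
    exact sm2_add (sm2_mono (ih (sm2_diff h v) (sm2_shift (sm2_down h') v)) (by omega))
      (sm2_mono (ih (sm2_down h) (sm2_diff h' v)) (by omega))

theorem sm2_inv {d : ℕ} {U W : V → A} (h1 : ∀ a, U a * W a = 1) (h2 : ∀ a, W a * U a = 1)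
    (hW : ∀ a, W a ∈ Φ.M 0) (h : sm2_P Φ d 0 U) : sm2_P Φ d 0 W := by
  induction d with
  | zero => exact .zero hW
  | succ d ih =>
    have h3 := ih (sm2_down h)
    refine .succ hW fun v => ?_
    have e : (fun a => W (a + v) - W a) =
        fun a => -(W (a + v) * (U (a + v) - U a) * W a) := by
      funext a
      rw [mul_sub, sub_mul, h2, mul_assoc, h1]
      noncomm_ring
    rw [e]
    exact sm2_neg (sm2_mono (sm2_mul (sm2_mul (sm2_shift h3 v) (sm2_diff h v)) h3) (by omega))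

theorem sm2_lin {d : ℕ} {U : V → A} (h1 : ∀ a v, U (a + v) = U a + U v) (h : ∀ a, U a ∈ Φ.M 1) :
    sm2_P Φ d 0 U := by
  cases d with
  | zero => exact .zero fun a => Φ.anti _ _ (by omega) (h a)
  | succ d =>
    refine .succ (fun a => Φ.anti _ _ (by omega) (h a)) fun v => ?_
    simp only [h1, add_sub_cancel_left]
    exact sm2_const (h v)

end

/-- The series with steps of length `j`, cut at `w`. -/
def sm2_H {G : Type} [Group G] (S : NS G) {j w : ℕ} (hj : 1 ≤ j) (hw : 1 ≤ w) : NS G where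
  F i := S.F (min (i * j) w)
  anti n hn := S.mono (le_min (Nat.mul_pos hn hj) hw)
    (min_le_min_right _ (Nat.mul_le_mul_right j (Nat.le_succ n)))
  comm a b ha hb x hx y hy := by
    have h1 : 1 ≤ a * j := Nat.mul_pos ha hj
    have h2 : 1 ≤ b * j := Nat.mul_pos hb hj
    refine S.mono ?_ ?_ (S.comm _ _ (le_min h1 hw) (le_min h2 hw) x hx y hy) <;>
      rw [Nat.add_mul] <;> omega

theorem sm2_H_F {G : Type} [Group G] (S : NS G) {j w : ℕ} (hj : 1 ≤ j) (hw : 1 ≤ w) (i : ℕ) :
    (sm2_H S hj hw).F i = S.F (min (i * j) w) := rfl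

variable {p : ℕ}

/-- Operators which raise the order by `n`. -/
def sm2_R (p n : ℕ) : AddSubgroup (Module.End (ZMod p) (ZMod p)⟦X⟧) where
  carrier := {φ | ∀ a u, X ^ a ∣ u → X ^ (a + n) ∣ φ u}
  zero_mem' := fun a u _ => by simp
  add_mem' := fun h h' a u hu => dvd_add (h a u hu) (h' a u hu)
  neg_mem' := fun h a u hu => (dvd_neg).2 (h a u hu)

theorem sm2_R_anti {m n : ℕ} (h : m ≤ n) : sm2_R p n ≤ sm2_R p m := fun _ hφ a u hu =>
  (pow_dvd_pow X (by omega)).trans (hφ a u hu)

theorem sm2_R_mul {m n : ℕ} {φ ψ : Module.End (ZMod p) (ZMod p)⟦X⟧} (h : φ ∈ sm2_R p m)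
    (h' : ψ ∈ sm2_R p n) : φ * ψ ∈ sm2_R p (m + n) := fun a u hu => by
  have := h _ _ (h' a u hu)
  rwa [show a + n + m = a + (m + n) by ring] at this

/-- The filtration of the operator ring. -/
def sm2_Φ (p j w : ℕ) : sm2_F (Module.End (ZMod p) (ZMod p)⟦X⟧) where
  M k := sm2_R p (min (k * j) w)
  anti _ _ h := sm2_R_anti (min_le_min_right _ (Nat.mul_le_mul_right j h))
  mul a b x hx y hy := sm2_R_anti (n := min (a * j) w + min (b * j) w)
    (by rw [Nat.add_mul]; omega) (sm2_R_mul hx hy)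

variable [Fact p.Prime]

theorem sm2_S_mul (f g : Nott p) : rj2_S (f * g) = rj2_S g * rj2_S f := by
  ext1 u
  rw [Module.End.mul_apply, rj2_S_apply, rj2_S_apply, rj2_S_apply, mul_val,
    subst_assoc _ _ _ f.2.1 g.2.1]

theorem sm2_S_one : rj2_S (1 : Nott p) = 1 := by
  ext1 u
  rw [rj2_S_apply, one_val, X_subst, Module.End.one_apply]

theorem sm2_one_mem : (1 : Module.End (ZMod p) (ZMod p)⟦X⟧) ∈ sm2_R p 0 := fun _ _ hu => hu

theorem sm2_S_mem (f : Nott p) : rj2_S f ∈ sm2_R p 0 := by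
  have h : rj2_S f - 1 ∈ sm2_R p 1 := fun a u hu =>
    (rj2_step le_rfl (f := f) (by rw [Jn_one]; trivial) hu).1
  simpa using add_mem (sm2_R_anti (Nat.zero_le 1) h) sm2_one_mem

theorem sm2_grp {V : Type} [AddCommMonoid V] {j w : ℕ} (hj : 1 ≤ j) (hw : 1 ≤ w) {d : ℕ} :
    ∀ {k : ℕ} {e : V → Nott p}, (∀ a, e a ∈ Jn p j) →
      sm2_P (sm2_Φ p j w) d k (fun a => rj2_S (e a) - 1) →
      sm1_P (sm2_H (JW p).toNS hj hw) d k e := by
  have hm : ∀ {d k : ℕ} {e : V → Nott p}, (∀ a, e a ∈ Jn p j) →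
      sm2_P (sm2_Φ p j w) d k (fun a => rj2_S (e a) - 1) →
      ∀ a, e a ∈ (sm2_H (JW p).toNS hj hw).F (max k 1) := by
    intro d k e he h a
    change e a ∈ Jn p (min (max k 1 * j) w)
    cases k with
    | zero => exact Jn_anti (by simp) (he a)
    | succ k =>
      have h1 := sm2_mem h a 1 X (by simp)
      rw [LinearMap.sub_apply, rj2_S_apply, subst_X (hasSubst_of (e a).2.1), add_comm] at h1
      rw [max_eq_left (by omega)]
      exact h1
  induction d with
  | zero => exact fun he h => .zero (hm he h)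
  | succ d ih =>
    intro k e he h
    refine .succ (hm he h) fun v => ih (fun a => mul_mem (he _) (inv_mem (he _))) ?_
    have h0 : (sm2_Φ p j w).M 0 = sm2_R p 0 := by simp [sm2_Φ]
    have h1 : sm2_P (sm2_Φ p j w) d 0 fun a => rj2_S (e a) := by
      simpa only [sub_add_cancel] using sm2_add (sm2_mono (sm2_down h) (Nat.zero_le k))
        (sm2_const (c := 1) (h0 ▸ sm2_one_mem))
    have h2 : sm2_P (sm2_Φ p j w) d 0 fun a => rj2_S (e a)⁻¹ :=
      sm2_inv (fun a => by rw [← sm2_S_mul, inv_mul_cancel, sm2_S_one])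
        (fun a => by rw [← sm2_S_mul, mul_inv_cancel, sm2_S_one])
        (fun a => h0 ▸ sm2_S_mem _) h1
    have e1 : (fun a => rj2_S (sm1_D v e a) - 1) = fun a => rj2_S (e a)⁻¹ *
        (rj2_S (e (a + v)) - 1 - (rj2_S (e a) - 1)) := by
      funext a
      rw [sm1_D, sm2_S_mul, sub_sub_sub_cancel_right, mul_sub, ← sm2_S_mul (e a), mul_inv_cancel,
        sm2_S_one]
    rw [e1]
    simpa only [zero_add] using sm2_mul h2 (sm2_diff h v)

end Pool.Agent.P.MP_e06b60_al.R
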