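import Mathlib
import Pool.Agent.P.MP_e06b60_al.SM2
import Pool.Agent.P.MP_e06b60_al.RQ5
import Pool.Agent.P.MP_e06b60_al.RU1

/-! The exponential of a vector field, up to fourth order. -/

namespace Pool.Agent.P.MP_e06b60_al.R

open PowerSeries
open scoped commutatorElement

variable {p : ℕ} [Fact p.Prime]

/-- A vector field as an operator. -/
noncomputable def sm3_D (β : (ZMod p)⟦X⟧) : Module.End (ZMod p) (ZMod p)⟦X⟧ :=
  (LinearMap.mulLeft (ZMod p) β).comp (d⁄dX (ZMod p)).toLinearMap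

theorem sm3_D_apply (β u : (ZMod p)⟦X⟧) : sm3_D β u = β * dx u := rfl

theorem sm3_D_add (β γ : (ZMod p)⟦X⟧) : sm3_D (β + γ) = sm3_D β + sm3_D γ := by
  ext1 u
  rw [LinearMap.add_apply, sm3_D_apply, sm3_D_apply, sm3_D_apply, add_mul]

theorem sm3_D_mul (β u v : (ZMod p)⟦X⟧) : sm3_D β (u * v) = sm3_D β u * v + u * sm3_D β v := by
  rw [sm3_D_apply, sm3_D_apply, sm3_D_apply, ru1_dx_mul]
  ring

theorem sm3_D_mem {j : ℕ} {β : (ZMod p)⟦X⟧} (h : X ^ (j + 1) ∣ β) : sm3_D β ∈ sm2_R p j := by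
  intro a u hu
  rw [sm3_D_apply]
  cases a with
  | zero => exact ((pow_dvd_pow X (by omega)).trans h).mul_right _
  | succ a => exact rq5_mul_dvd h (rq5_dx_dvd hu) (by omega)

/-- The truncated exponential of an operator. -/
noncomputable def sm3_ex (δ : Module.End (ZMod p) (ZMod p)⟦X⟧) : Module.End (ZMod p) (ZMod p)⟦X⟧ :=
  1 + δ + (12 * 24⁻¹ : ZMod p) • (δ * δ) + (4 * 24⁻¹ : ZMod p) • (δ * δ * δ) +
    (24⁻¹ : ZMod p) • (δ * δ * δ * δ)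

theorem sm3_ex_apply (δ : Module.End (ZMod p) (ZMod p)⟦X⟧) (u : (ZMod p)⟦X⟧) :
    sm3_ex δ u = u + δ u + 12 * C (24⁻¹ : ZMod p) * δ (δ u) + 4 * C (24⁻¹ : ZMod p) * δ (δ (δ u)) +
      C (24⁻¹ : ZMod p) * δ (δ (δ (δ u))) := by
  simp only [sm3_ex, LinearMap.add_apply, LinearMap.smul_apply, Module.End.mul_apply,
    Module.End.one_apply, smul_eq_C_mul, map_mul, map_ofNat]

theorem sm3_c (hp : 7 ≤ p) : 24 * (C (24⁻¹ : ZMod p) : (ZMod p)⟦X⟧) = 1 := by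
  have h2 : (2 : ZMod p) ≠ 0 := by
    simpa using (cast_ne_zero (p := p) (a := 2) (by omega) (by omega))
  have h3 : (3 : ZMod p) ≠ 0 := by
    simpa using (cast_ne_zero (p := p) (a := 3) (by omega) (by omega))
  have h : (24 : ZMod p) ≠ 0 := fun h =>
    mul_ne_zero (mul_ne_zero (mul_ne_zero h2 h2) h2) h3 (by linear_combination h)
  rw [← map_ofNat (C : ZMod p →+* (ZMod p)⟦X⟧) 24, ← map_mul, mul_inv_cancel₀ h, map_one]

theorem sm3_ex_mul (hp : 7 ≤ p) {j : ℕ} {β : (ZMod p)⟦X⟧} (h : X ^ (j + 1) ∣ β) {s t : ℕ}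
    {u v : (ZMod p)⟦X⟧} (hu : X ^ s ∣ u) (hv : X ^ t ∣ v) : X ^ (s + t + 5 * j) ∣
      sm3_ex (sm3_D β) u * sm3_ex (sm3_D β) v - sm3_ex (sm3_D β) (u * v) := by
  have hδ := sm3_D_mem h
  have u1 := hδ _ _ hu
  have u2 := hδ _ _ u1
  have u3 := hδ _ _ u2
  have u4 := hδ _ _ u3
  have v1 := hδ _ _ hv
  have v2 := hδ _ _ v1
  have v3 := hδ _ _ v2
  have v4 := hδ _ _ v3
  have hc := sm3_c hp
  simp only [sm3_ex_apply, sm3_D_mul, map_add]
  generalize sm3_D β (sm3_D β (sm3_D β (sm3_D β u))) = a4 at *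
  generalize sm3_D β (sm3_D β (sm3_D β u)) = a3 at *
  generalize sm3_D β (sm3_D β u) = a2 at *
  generalize sm3_D β u = a1 at *
  generalize sm3_D β (sm3_D β (sm3_D β (sm3_D β v))) = b4 at *
  generalize sm3_D β (sm3_D β (sm3_D β v)) = b3 at *
  generalize sm3_D β (sm3_D β v) = b2 at *
  generalize sm3_D β v = b1 at *
  generalize (C (24⁻¹ : ZMod p) : (ZMod p)⟦X⟧) = c at *
  obtain ⟨w14, h14⟩ := rq5_mul_dvd u1 v4 (k := s + t + 5 * j) (by omega)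
  obtain ⟨w41, h41⟩ := rq5_mul_dvd u4 v1 (k := s + t + 5 * j) (by omega)
  obtain ⟨w23, h23⟩ := rq5_mul_dvd u2 v3 (k := s + t + 5 * j) (by omega)
  obtain ⟨w32, h32⟩ := rq5_mul_dvd u3 v2 (k := s + t + 5 * j) (by omega)
  obtain ⟨w24, h24⟩ := rq5_mul_dvd u2 v4 (k := s + t + 5 * j) (by omega)
  obtain ⟨w42, h42⟩ := rq5_mul_dvd u4 v2 (k := s + t + 5 * j) (by omega)
  obtain ⟨w33, h33⟩ := rq5_mul_dvd u3 v3 (k := s + t + 5 * j) (by omega)
  obtain ⟨w34, h34⟩ := rq5_mul_dvd u3 v4 (k := s + t + 5 * j) (by omega)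
  obtain ⟨w43, h43⟩ := rq5_mul_dvd u4 v3 (k := s + t + 5 * j) (by omega)
  obtain ⟨w44, h44⟩ := rq5_mul_dvd u4 v4 (k := s + t + 5 * j) (by omega)
  refine ⟨c * (w14 + w41) + c ^ 2 * (48 * (w23 + w32) + 12 * (w24 + w42) + 16 * w33 +
    4 * (w34 + w43) + w44), ?_⟩
  linear_combination c * h14 + c * h41 + 48 * c ^ 2 * h23 + 48 * c ^ 2 * h32 + 12 * c ^ 2 * h24 +
    12 * c ^ 2 * h42 + 16 * c ^ 2 * h33 + 4 * c ^ 2 * h34 + 4 * c ^ 2 * h43 + c ^ 2 * h44 +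
    (6 * c * a2 * b2 - a1 * b1) * hc

theorem sm3_ex_X {j : ℕ} {β : (ZMod p)⟦X⟧} (h : X ^ (j + 1) ∣ β) :
    X ^ (j + 1 + j) ∣ sm3_ex (sm3_D β) X - (X + β) := by
  have hδ := sm3_D_mem h
  have e : sm3_D β X = β := by rw [sm3_D_apply, dx, derivative_X, mul_one]
  have u2 := hδ _ _ h
  have u3 := (pow_dvd_pow X (Nat.le_add_right _ j)).trans (hδ _ _ u2)
  have u4 := (pow_dvd_pow X (Nat.le_add_right _ j)).trans (hδ _ _ u3)
  rw [sm3_ex_apply, e]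
  have := dvd_add (dvd_add (u2.mul_left (12 * C (24⁻¹ : ZMod p)))
    (u3.mul_left (4 * C (24⁻¹ : ZMod p)))) (u4.mul_left (C (24⁻¹ : ZMod p)))
  convert this using 1
  ring

theorem sm3_ex_J {j : ℕ} {β : (ZMod p)⟦X⟧} (h : X ^ (j + 1) ∣ β) :
    X ^ (j + 1) ∣ sm3_ex (sm3_D β) X - X := by
  have := dvd_add ((pow_dvd_pow X (Nat.le_add_right _ j)).trans (sm3_ex_X h)) h
  convert this using 1
  ring

open Classical in
/-- The exponential as an element of the group. -/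
noncomputable def sm3_E (β : (ZMod p)⟦X⟧) : Nott p :=
  if h : X ^ (1 + 1) ∣ β then ⟨sm3_ex (sm3_D β) X,
    by rw [coeff_eq_of_dvd (sm3_ex_J h) (by omega)]; simp,
    by rw [coeff_eq_of_dvd (sm3_ex_J h) (by omega)]; simp⟩ else 1

theorem sm3_E_val {j : ℕ} (hj : 1 ≤ j) {β : (ZMod p)⟦X⟧} (h : X ^ (j + 1) ∣ β) :
    (sm3_E β).1 = sm3_ex (sm3_D β) X := by
  rw [sm3_E, dif_pos ((pow_dvd_pow X (by omega)).trans h)]

theorem sm3_E_lead {j : ℕ} (hj : 1 ≤ j) {β : (ZMod p)⟦X⟧} (h : X ^ (j + 1) ∣ β) :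
    sm3_E β ∈ Jn p j ∧ coeff (j + 1) (sm3_E β).1 = coeff (j + 1) β := by
  rw [mem_Jn, sm3_E_val hj h]
  refine ⟨sm3_ex_J h, ?_⟩
  rw [coeff_eq_of_dvd (sm3_ex_X h) (by omega), map_add, coeff_X, if_neg (by omega), zero_add]

theorem sm3_key (hp : 7 ≤ p) {j : ℕ} (hj : 1 ≤ j) {β : (ZMod p)⟦X⟧} (h : X ^ (j + 1) ∣ β) :
    rj2_S (sm3_E β) - sm3_ex (sm3_D β) ∈ sm2_R p (5 * j) := by
  have hE := sm3_E_val hj h
  have hX : X ^ 1 ∣ (sm3_E β).1 := by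
    rw [pow_one, X_dvd_iff, ← coeff_zero_eq_constantCoeff_apply]
    exact (sm3_E β).2.1
  have step : ∀ (c : ZMod p) (B : (ZMod p)⟦X⟧) (b n : ℕ), X ^ b ∣ B → n ≤ b + 5 * j →
      X ^ n ∣ (rj2_S (sm3_E β) - sm3_ex (sm3_D β)) B →
      X ^ (n + 1) ∣ (rj2_S (sm3_E β) - sm3_ex (sm3_D β)) (C c + X * B) := by
    intro c B b n hB hn ih
    have h1 := (pow_dvd_pow X (by omega : n + 1 ≤ 1 + b + 5 * j)).trans
      (sm3_ex_mul hp h (u := X) (s := 1) (by simp) hB)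
    have h2 := rq5_mul_dvd hX ih (k := n + 1) (by omega)
    have h3 : sm3_ex (sm3_D β) (C c) = C c := by
      have : sm3_D β (C c) = 0 := by rw [sm3_D_apply, dx, derivative_C, mul_zero]
      simp only [sm3_ex_apply, this, map_zero, mul_zero, add_zero]
    rw [LinearMap.sub_apply, rj2_S_apply] at h2 ⊢
    rw [rq4_subst_shift _ _ _ (sm3_E β).2.1, map_add, h3]
    rw [← hE] at h1
    convert dvd_add h1 h2 using 1
    ring
  have hA : ∀ n, n ≤ 5 * j → ∀ u, X ^ n ∣ (rj2_S (sm3_E β) - sm3_ex (sm3_D β)) u := by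
    intro n
    induction n with
    | zero => exact fun _ u => by simp
    | succ n ih =>
      intro hn u
      obtain ⟨B, hB⟩ := exists_shift u
      rw [hB]
      exact step _ B 0 n (by simp) (by omega) (ih (by omega) B)
  intro a
  induction a with
  | zero => exact fun u _ => hA _ (by omega) u
  | succ a ih =>
    rintro u ⟨B, rfl⟩
    have := step 0 (X ^ a * B) a (a + 5 * j) (dvd_mul_right _ _) le_rfl (ih _ (dvd_mul_right _ _))
    rw [map_zero, zero_add, ← mul_assoc, ← pow_succ'] at this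
    rwa [show a + 1 + 5 * j = a + 5 * j + 1 by ring]

theorem sm3_semi (g : Nott p) (β : (ZMod p)⟦X⟧) :
    rj2_S g * sm3_ex (sm3_D β) = sm3_ex (sm3_D (act g β)) * rj2_S g := by
  have h : SemiconjBy (rj2_S g) (sm3_D β) (sm3_D (act g β)) := by
    ext1 u
    rw [Module.End.mul_apply, Module.End.mul_apply, rj2_S_apply, rj2_S_apply, sm3_D_apply,
      sm3_D_apply, ru1_dx_subst, subst_mul (hasSubst_of g.2.1), act]
    linear_combination (-((β.subst g.1 : (ZMod p)⟦X⟧) * ((dx u).subst g.1 : (ZMod p)⟦X⟧))) *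
      dx_mul_inv g
  have h2 := h.mul_right h
  have h3 := h2.mul_right h
  have h4 := h3.mul_right h
  simp only [sm3_ex, mul_add, add_mul, mul_smul_comm, smul_mul_assoc, mul_one, one_mul, h.eq, h2.eq,
    h3.eq, h4.eq]

theorem sm3_conj (hp : 7 ≤ p) {j : ℕ} (hj : 1 ≤ j) {β : (ZMod p)⟦X⟧} (h : X ^ (j + 1) ∣ β)
    (g : Nott p) : (sm3_E (act g β))⁻¹ * (g⁻¹ * sm3_E β * g) ∈ Jn p (5 * j) := by
  refine inv_mul_mem_Jn ?_
  have hX : X ^ 1 ∣ (g⁻¹).1 := by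
    rw [pow_one, X_dvd_iff, ← coeff_zero_eq_constantCoeff_apply]
    exact (g⁻¹).2.1
  have h1 := rq3_subst_dvd g (sm3_key hp hj h 1 _ hX)
  have h2 := congrArg (fun φ : Module.End (ZMod p) (ZMod p)⟦X⟧ => φ (g⁻¹).1) (sm3_semi g β)
  simp only [Module.End.mul_apply, rj2_S_apply] at h2
  rw [← mul_val, inv_mul_cancel, one_val, ← sm3_E_val hj (act_dvd g h)] at h2
  rw [LinearMap.sub_apply, subst_sub (hasSubst_of g.2.1), h2, rj2_S_apply, ← mul_val, ← mul_val,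
    add_comm] at h1
  exact h1

theorem sm3_poly (hp : 7 ≤ p) {V : Type} [AddCommMonoid V] {j w : ℕ} (hj : 1 ≤ j) (hw : 1 ≤ w)
    (h5 : w ≤ 5 * j) {ι : V → (ZMod p)⟦X⟧} (h1 : ∀ a v, ι (a + v) = ι a + ι v)
    (h2 : ∀ a, X ^ (j + 1) ∣ ι a) (d : ℕ) :
    sm1_P (sm2_H (JW p).toNS hj hw) d 0 fun a => sm3_E (ι a) := by
  refine sm2_grp hj hw (fun a => (sm3_E_lead hj (h2 a)).1) ?_
  have h0 : (sm2_Φ p j w).M 0 = sm2_R p 0 := by simp [sm2_Φ]
  have hD : sm2_P (sm2_Φ p j w) d 0 fun a => sm3_D (ι a) :=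
    sm2_lin (fun a v => by rw [h1, sm3_D_add]) fun a =>
      sm2_R_anti (n := j) (by simp) (sm3_D_mem (h2 a))
  have hs : ∀ (c : ZMod p) {U : V → Module.End (ZMod p) (ZMod p)⟦X⟧},
      sm2_P (sm2_Φ p j w) d 0 U → sm2_P (sm2_Φ p j w) d 0 fun a => c • U a := by
    intro c U hU
    have hc : c • (1 : Module.End (ZMod p) (ZMod p)⟦X⟧) ∈ (sm2_Φ p j w).M 0 := by
      rw [h0]
      intro a u hu
      rw [LinearMap.smul_apply, smul_eq_C_mul]
      exact hu.mul_left _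
    simpa only [smul_mul_assoc, one_mul] using sm2_mul (sm2_const hc) hU
  have d2 := sm2_mul hD hD
  have d3 := sm2_mul d2 hD
  have d4 := sm2_mul d3 hD
  have hE : sm2_P (sm2_Φ p j w) d 0 fun a => rj2_S (sm3_E (ι a)) - sm3_ex (sm3_D (ι a)) :=
    sm2_deep (N := sm2_R p (5 * j)) (fun k => sm2_R_anti ((min_le_right _ _).trans h5))
      fun a => sm3_key hp hj (h2 a)
  have := sm2_add hE (sm2_add (sm2_add (sm2_add hD (hs (12 * 24⁻¹) d2)) (hs (4 * 24⁻¹) d3))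
    (hs 24⁻¹ d4))
  convert this using 2
  rw [sm3_ex]
  abel

end Pool.Agent.P.MP_e06b60_al.R
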