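import Mathlib
import Pool.Agent.P.MP_e06b60_al.SM3
import Pool.Agent.P.MP_e06b60_al.SL1
import Pool.Agent.P.MP_e06b60_al.RA3

/-! The last coordinate of the normal form is polynomial of low degree. -/

namespace Pool.Agent.P.MP_e06b60_al.R

open PowerSeries
open scoped commutatorElement

variable {p k : ℕ} [Fact p.Prime] {G : Type} [Group G]

/-- Removes the first `t` factors of the normal form. -/
noncomputable def sm4_r (D : AD p k G) (j : ℕ) (t : ℕ) (x : G) : G :=
  Nat.rec x (fun t y => (D.g (j + t) ^ (coeff (j + t + 1) (D.θ y).1).val)⁻¹ * y) t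

theorem sm4_zero (D : AD p k G) (j : ℕ) (x : G) : sm4_r D j 0 x = x := rfl

theorem sm4_succ (D : AD p k G) (j t : ℕ) (x : G) : sm4_r D j (t + 1) x =
    (D.g (j + t) ^ (coeff (j + t + 1) (D.θ (sm4_r D j t x)).1).val)⁻¹ * sm4_r D j t x := rfl

theorem sm4_mem (D : AD p k G) {j : ℕ} (hj : 1 ≤ j) {x : G} (hx : x ∈ D.F j) (t : ℕ) :
    j + t ≤ k * p → sm4_r D j t x ∈ D.F (j + t) := by
  induction t with
  | zero => exact fun _ => hx
  | succ t ih =>
    intro h
    rw [sm4_succ]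
    exact (D.toNS.cg_left (n := j + t + 1) (by omega) (rq6_one D _)).1
      (rq6_span D (n := j + t) (by omega) (by omega) (ih (by omega)))

theorem sm4_mul (D : AD p k G) {j : ℕ} (hj : 1 ≤ j) (x : G) {c : G} (hc : c ∈ D.F (k * p)) (t : ℕ) :
    j + t ≤ k * p → sm4_r D j t (x * c) = sm4_r D j t x * c := by
  induction t with
  | zero => exact fun _ => rfl
  | succ t ih =>
    intro h
    have h1 : (D.θ (sm4_r D j t x))⁻¹ * D.θ (sm4_r D j t x * c) ∈ Jn p (k * p) := by
      rw [map_mul, inv_mul_cancel_left]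
      exact (D.pre _ (by omega) le_rfl c).1 hc
    rw [sm4_succ, sm4_succ, ih (by omega), coeff_eq_of_dvd (congr_of_inv_mul_mem h1) (by omega),
      mul_assoc]

theorem sm4_strip (hp : 7 ≤ p) (hk : 2 ≤ k) (D : AD p k G) {j : ℕ} (hj : 1 ≤ j) (hkj : k + 2 ≤ j)
    (h5 : k * p + 1 ≤ 5 * j) {V : Type} [AddCommMonoid V] {u : V → G} (hu : ∀ a, u a ∈ D.F j)
    (hP : sm1_P (sm2_H (JW p).toNS hj (Nat.le_add_left 1 (k * p))) 5 0 fun a => D.θ (u a))
    (t : ℕ) : j + t ≤ k * p →
      (sm1_P (sm2_H (JW p).toNS hj (Nat.le_add_left 1 (k * p))) 5 0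
        fun a => D.θ (sm4_r D j t (u a))) ∧
      sm1_P (sm2_H D.toNS hj (Nat.le_add_left 1 (k * p))) 5 0
        fun a => u a * (sm4_r D j t (u a))⁻¹ := by
  have hN : ∀ n, 1 ≤ n → D.F (k * p + 1) ≤ (sm2_H D.toNS hj (Nat.le_add_left 1 (k * p))).F n :=
    fun n hn => D.toNS.mono (le_min (Nat.mul_pos hn hj) (by omega)) (min_le_right _ _)
  induction t with
  | zero => exact fun _ => ⟨hP, sm1_deep hN fun a => by rw [sm4_zero]; simp⟩
  | succ t ih =>
    intro h
    obtain ⟨h1, h2⟩ := ih (by omega)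
    have hn : 1 ≤ j + t := by omega
    have hlt : j + t < ((j + t) / j + 1) * j := by
      rw [mul_comm]
      exact Nat.lt_mul_div_succ _ hj
    have hm : (j + t) / j + 1 ≤ 5 := Nat.succ_le_of_lt ((Nat.div_lt_iff_lt_mul hj).2 (by omega))
    have hZ : sm1_Z ((j + t) / j + 1) fun a => coeff (j + t + 1) (D.θ (sm4_r D j t (u a))).1 := by
      refine sm1_fun (T := Jn p (j + t)) (l := fun f => coeff (j + t + 1) f.1)
        (fun x hx y hy => ((JW p).isFun _ hn).div hx hy) hm (fun x hx hx' => ?_)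
        (fun a => (D.pre _ hn (by omega) _).1 (sm4_mem D hj (hu a) t (by omega))) h1
      rw [zero_add, max_eq_left (Nat.le_add_left _ _), sm2_H_F] at hx'
      exact ((JW p).isFun _ hn).zero x (Jn_anti (le_min hlt (by omega)) hx')
    have hg := (D.g_mem (j + t) hn (by omega)).1
    have h3 : sm1_P (sm2_H D.toNS hj (Nat.le_add_left 1 (k * p))) 5 0
        fun a => D.g (j + t) ^ (coeff (j + t + 1) (D.θ (sm4_r D j t (u a))).1).val := by
      refine sm1_pow hN (D.pow_two2 hp hk _ (D.toNS.mono (by omega) (by omega) hg)) hZ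
        fun i hi => ?_
      have h4 : max (0 + i) 1 * j ≤ j + t := by
        rw [← Nat.le_div_iff_mul_le hj]
        exact max_le (by omega) ((Nat.le_div_iff_mul_le hj).2 (by omega))
      exact D.toNS.mono (le_min (Nat.mul_pos (le_max_right (0 + i) 1) hj) (by omega))
        ((min_le_left _ _).trans h4) hg
    have h4 := sm1_map (S' := sm2_H (JW p).toNS hj (Nat.le_add_left 1 (k * p))) D.θ
      (fun n hn x hx => by
        rw [sm2_H_F] at hx ⊢
        rcases le_total (n * j) (k * p) with h6 | h6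
        · rw [min_eq_left (by omega)] at hx ⊢
          exact (D.pre _ (Nat.mul_pos hn hj) h6 x).1 hx
        · rcases h6.eq_or_lt with h7 | h7
          · rw [min_eq_left (by omega), ← h7] at hx ⊢
            exact (D.pre _ (by omega) le_rfl x).1 hx
          · rw [min_eq_right (by omega)] at hx ⊢
            exact D.deep x hx) h3
    constructor
    · simpa only [sm4_succ, map_mul, map_inv] using sm1_mul (sm1_inv h4) h1
    · simpa only [sm4_succ, mul_inv_rev, inv_inv, mul_assoc] using sm1_mul h2 h3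

theorem AD.exists_lam3 (hp : 7 ≤ p) (hk : 2 ≤ k) (D : AD p k G) {j : ℕ} (hj : 1 ≤ j)
    (hkj : k + 2 ≤ j) (hjw : j ≤ k * p) (h5 : k * p + 1 ≤ 5 * j) : ∃ f lam : G → ZMod p,
      IsFun p D.toNS (k * p) f ∧ f D.z = 1 ∧ (∀ x, ∀ c ∈ D.F (k * p), x ∈ D.F j →
        lam (x * c) = lam x + f c) ∧
      ∀ u : ℕ × ℕ → G, (∀ a, u a ∈ D.F j) →
        (sm1_P (sm2_H (JW p).toNS hj (Nat.le_add_left 1 (k * p))) 5 0 fun a => D.θ (u a)) →
        ∀ s, sm1_Z 5 fun a => lam (s⁻¹ * u a * s) - lam (u a) := by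
  have hw : 1 ≤ k * p := by omega
  obtain ⟨f, hf, -, hz⟩ := exists_fun (p := p) D.toNS hw
    (fun x hx => D.pow_two2 hp hk x (D.toNS.mono (by omega) (by omega) hx)) _ le_rfl D.z_mem D.z_not
  obtain ⟨T, hT⟩ : ∃ T, j + T = k * p := ⟨k * p - j, by omega⟩
  have hr : ∀ x ∈ D.F j, sm4_r D j T x ∈ D.F (k * p) := fun x hx => hT ▸ sm4_mem D hj hx T hT.le
  have hmul : ∀ x, ∀ c ∈ D.F (k * p), x ∈ D.F j →
      f (sm4_r D j T (x * c)) = f (sm4_r D j T x) + f c := fun x c hc hx => by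
    rw [sm4_mul D hj x hc T hT.le, hf.mul _ (hr x hx) _ hc]
  have hconj : ∀ n, 1 ≤ n → ∀ x ∈ D.F n, ∀ s : G, s⁻¹ * x * s ∈ D.F n := fun n hn x hx s =>
    rq7_conj D hn hx s
  have hZ : ∀ u : ℕ × ℕ → G, sm1_P (sm2_H D.toNS hj (Nat.le_add_left 1 (k * p))) 5 0 u →
      sm1_Z 5 fun a => f (sm4_r D j T (u a)) := by
    intro u hu
    have hm : ∀ a, u a ∈ D.F j := fun a => by
      have := sm1_mem hu a
      rwa [sm2_H_F, max_eq_right (by omega), one_mul, min_eq_left (by omega)] at this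
    have h1 := sm1_map (S' := sm2_H (JW p).toNS hj (Nat.le_add_left 1 (k * p))) D.θ
      (fun n hn x hx => by
        rw [sm2_H_F] at hx ⊢
        rcases le_total (n * j) (k * p) with h6 | h6
        · rw [min_eq_left (by omega)] at hx ⊢
          exact (D.pre _ (Nat.mul_pos hn hj) h6 x).1 hx
        · rcases h6.eq_or_lt with h7 | h7
          · rw [min_eq_left (by omega), ← h7] at hx ⊢
            exact (D.pre _ (by omega) le_rfl x).1 hx
          · rw [min_eq_right (by omega)] at hx ⊢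
            exact D.deep x hx) hu
    have h2 := sm1_mul (sm1_inv (sm4_strip hp hk D hj hkj h5 hm h1 T hT.le).2) hu
    simp only [mul_inv_rev, inv_inv, inv_mul_cancel_right] at h2
    refine sm1_fun (T := D.F (k * p)) (fun x hx y hy => hf.div hx hy) le_rfl (fun x _ hx => ?_)
      (fun a => hr _ (hm a)) h2
    rw [sm2_H_F, max_eq_left (by omega), min_eq_right (by omega)] at hx
    exact hf.zero x hx
  refine ⟨f, fun x => f (sm4_r D j T x), hf, hz, hmul, fun u hu hP s => ?_⟩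
  have h1 := (sm4_strip hp hk D hj hkj h5 hu hP T hT.le).2
  have h2 := sm1_map (S' := sm2_H D.toNS hj (Nat.le_add_left 1 (k * p)))
    (MulAut.conj s⁻¹).toMonoidHom (fun n hn x hx => by
      have := hconj _ (le_min (Nat.mul_pos hn hj) (by omega)) x hx s
      simpa [sm2_H_F] using this) h1
  have h3 := sm1_Zsub (hZ _ h2) (hZ _ h1)
  convert h3 using 2 with a
  have hc := hr _ (hu a)
  have hx : u a * (sm4_r D j T (u a))⁻¹ ∈ D.F j :=
    mul_mem (hu a) (inv_mem (D.toNS.mono hj hjw hc))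
  have e1 := hmul _ _ hc hx
  have e2 := hmul _ _ (hconj _ hw _ hc s) (hconj _ hj _ hx s)
  have e3 : f (s⁻¹ * sm4_r D j T (u a) * s) = f (sm4_r D j T (u a)) := by
    simpa using hf.conj hw hc (rq6_one D s⁻¹)
  rw [inv_mul_cancel_right] at e1
  rw [show s⁻¹ * (u a * (sm4_r D j T (u a))⁻¹) * s * (s⁻¹ * sm4_r D j T (u a) * s) =
    s⁻¹ * u a * s by group, e3] at e2
  have e4 : (MulAut.conj s⁻¹).toMonoidHom (u a * (sm4_r D j T (u a))⁻¹) =
      s⁻¹ * (u a * (sm4_r D j T (u a))⁻¹) * s := by simp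
  rw [e4]
  linear_combination e2 - e1

end Pool.Agent.P.MP_e06b60_al.R
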