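import Mathlib
import Pool.Agent.P.MP_e06b60_al.SM4
import Pool.Agent.P.MP_e06b60_al.RV5

/-! No cubic central extension in weight `k p`, `k ≥ 2`, for primes at least eleven. -/

namespace Pool.Agent.P.MP_e06b60_al.R

open PowerSeries
open scoped commutatorElement

variable {p k : ℕ} [Fact p.Prime] {G : Type} [Group G]

theorem sm5_wd (D : AD p k G) {j : ℕ} (hj : 1 ≤ j) (hjw : j ≤ k * p) {f lam : G → ZMod p}
    (hf : IsFun p D.toNS (k * p) f)
    (hmul : ∀ x, ∀ c ∈ D.F (k * p), x ∈ D.F j → lam (x * c) = lam x + f c) {x x' s s' : G}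
    (hx' : x' ∈ D.F j) (h : (D.θ x')⁻¹ * D.θ x ∈ Jn p (k * p)) (hs : D.θ s = D.θ s') :
    lam (s⁻¹ * x * s) - lam x = lam (s'⁻¹ * x' * s') - lam x' := by
  have hw : 1 ≤ k * p := by omega
  have hc0 : x'⁻¹ * x ∈ D.F (k * p) := by
    rw [D.pre _ hw le_rfl, map_mul, map_inv]
    exact h
  have hu0 : s'⁻¹ * s ∈ D.F (k * p) := by
    rw [D.pre _ hw le_rfl, map_mul, map_inv, hs, inv_mul_cancel]
    exact Subgroup.one_mem _
  obtain ⟨c, hc, rfl⟩ : ∃ c ∈ D.F (k * p), x = x' * c := ⟨_, hc0, by group⟩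
  obtain ⟨u, hu, rfl⟩ : ∃ u ∈ D.F (k * p), s = s' * u := ⟨_, hu0, by group⟩
  clear hc0 hu0
  have ha := rq7_conj D hj hx' s'
  have hc' := rq7_conj D hw hc s'
  have hy : s'⁻¹ * x' * s' * (s'⁻¹ * c * s') ∈ D.F j :=
    Subgroup.mul_mem _ ha (D.toNS.mono hj hjw hc')
  have e : (s' * u)⁻¹ * (x' * c) * (s' * u) = s'⁻¹ * x' * s' * (s'⁻¹ * c * s') *
      ⁅(s'⁻¹ * x' * s' * (s'⁻¹ * c * s'))⁻¹, u⁻¹⁆ := by
    simp only [commutatorElement_def]; group
  have hcc : f (s'⁻¹ * c * s') = f c := by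
    simpa using hf.conj hw hc (rq6_one D s'⁻¹)
  have hκ : ⁅(s'⁻¹ * x' * s' * (s'⁻¹ * c * s'))⁻¹, u⁻¹⁆ ∈ D.F (k * p + 1) :=
    D.toNS.mono (by omega) (by omega)
      (D.comm _ _ hj hw _ (Subgroup.inv_mem _ hy) _ (Subgroup.inv_mem _ hu))
  rw [e, hmul _ _ (D.anti _ hw hκ) hy, hf.zero _ hκ, hmul _ _ hc' ha, hmul _ _ hc hx', hcc]
  ring

theorem sm5_top (D : AD p k G) {f : G → ZMod p} (hF : IsFun p D.toNS (k * p) f) (hz : f D.z = 1)
    {i j : ℕ} (hi : 1 ≤ i) (hj1 : 1 ≤ j) (hij : i + j = k * p)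
    {g x : G} (hg : g ∈ D.F i) (hx : x ∈ D.F j) : f ⁅x⁻¹, g⁻¹⁆ =
      coeff (i + 1) (D.θ g).1 * coeff (j + 1) (D.θ x).1 *
        (- f (D.g (k * p)) * (2 * i - (k * p : ℕ)) + (-1) * i ^ 3) := by
  have hw : 1 ≤ k * p := by omega
  have hji : j + i = k * p := by omega
  obtain ⟨hgi, -⟩ := D.g_mem i hi (by omega)
  obtain ⟨hgj, -⟩ := D.g_mem j hj1 (by omega)
  obtain ⟨hgw, -⟩ := D.g_mem (k * p) hw le_rfl
  have e1 : f ⁅x⁻¹, g⁻¹⁆ = - f ⁅g, x⁆ := by
    rw [hF.comm_inv_left hj1 hi hji hx (Subgroup.inv_mem _ hg), hF.comm_inv_right hj1 hi hji hx hg,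
      neg_neg, hF.comm_anti hi hj1 hij hg hx]
  have e2 : f ⁅g, x⁆ =
      coeff (i + 1) (D.θ g).1 * (coeff (j + 1) (D.θ x).1 * f ⁅D.g i, D.g j⁆) := by
    rw [hF.comm_congr_left hi hj1 hij (Subgroup.pow_mem _ hgi _) (rq6_span D hi (by omega) hg) hx,
      hF.comm_pow_left hi hj1 hij hgi hx,
      hF.comm_congr_right hi hj1 hij hgi (Subgroup.pow_mem _ hgj _) (rq6_span D hj1 (by omega) hx),
      hF.comm_pow_right hi hj1 hij hgi hgj, ZMod.natCast_zmod_val, ZMod.natCast_zmod_val]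
  have e3 : f ⁅D.g i, D.g j⁆ = ((i : ZMod p) - j) * f (D.g (k * p)) + (i : ZMod p) ^ 3 := by
    rw [hF.congr hw (Subgroup.mul_mem _ (Subgroup.zpow_mem _ hgw _) (Subgroup.pow_mem _ D.z_mem _))
      (D.rel i j hi hj1 hij), hF.mul _ (Subgroup.zpow_mem _ hgw _) _ (Subgroup.pow_mem _ D.z_mem _),
      hF.zpow hgw, hF.pow D.z_mem, hz]
    push_cast
    ring
  have e4 : ((k * p : ℕ) : ZMod p) = i + j := by rw [← hij]; push_cast; ring
  rw [e1, e2, e3, e4]
  ring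

theorem sm5_act (g : Nott p) (n : ℕ) (β : (ZMod p)⟦X⟧) : act g (n • β) = n • act g β := by
  induction n with
  | zero =>
    have := act_sub' g 0 0
    simpa using this
  | succ n ih => rw [succ_nsmul, succ_nsmul, act_add, ih]

theorem AD.exists_eta3 (hp : 7 ≤ p) (hk : 2 ≤ k) (D : AD p k G) {j0 : ℕ} (hj : 1 ≤ j0)
    (hkj : k + 2 ≤ j0) (hjw : j0 ≤ k * p) (h5 : k * p + 1 ≤ 5 * j0) :
    ∃ η : Nott p → (ZMod p)⟦X⟧ → ZMod p, Eta (k * p) j0 η := by
  obtain ⟨f, lam, hf, hz, hmul, hZ⟩ := D.exists_lam3 hp hk hj hkj hjw h5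
  have hw : 1 ≤ k * p := by omega
  choose sec hsec using D.surj
  have hn : ∀ {j : ℕ} {β : (ZMod p)⟦X⟧} (n : ℕ), X ^ (j + 1) ∣ β → X ^ (j + 1) ∣ n • β :=
    fun n h => by rw [nsmul_eq_mul]; exact h.mul_left _
  have hE : ∀ {j : ℕ} {β : (ZMod p)⟦X⟧}, 1 ≤ j → j ≤ k * p → X ^ (j + 1) ∣ β →
      sec (sm3_E β) ∈ D.F j := fun h1 h2 h => by
    rw [D.pre _ h1 h2, hsec]
    exact (sm3_E_lead h1 h).1
  obtain ⟨ξ, hξ⟩ : ∃ ξ : Nott p → (ZMod p)⟦X⟧ → ZMod p, ∀ g β,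
      ξ g β = lam ((sec g)⁻¹ * sec (sm3_E β) * sec g) - lam (sec (sm3_E β)) := ⟨_, fun _ _ => rfl⟩
  have hwd : ∀ g β, ∀ x ∈ D.F j0, ∀ s, (D.θ x)⁻¹ * sm3_E β ∈ Jn p (k * p) → D.θ s = g →
      ξ g β = lam (s⁻¹ * x * s) - lam x := fun g β x hx s h1 h2 => by
    rw [hξ]
    exact sm5_wd D hj hjw hf hmul hx (by rwa [hsec]) (by rw [hsec, h2])
  have hdeep : ∀ g β, sm3_E β ∈ Jn p (k * p) → ξ g β = 0 := fun g β h => by
    rw [hwd g β 1 (one_mem _) (sec g) (by simpa using h) (hsec g), mul_one, inv_mul_cancel,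
      sub_self]
  have h12 : (12 : ZMod p) ≠ 0 := fun h => mul_ne_zero (mul_ne_zero (ru5_two hp) (ru5_two hp))
    (show (3 : ZMod p) ≠ 0 by
      simpa using (cast_ne_zero (p := p) (a := 3) (by omega) (by omega))) (by linear_combination h)
  refine ⟨fun g β => 12⁻¹ * (48 * ξ g (1 • β) - 36 * ξ g (2 • β) + 16 * ξ g (3 • β) -
    3 * ξ g (4 • β)), ?_, ?_, ?_, ?_⟩
  · intro g β γ hβ hγ
    have h1 := hZ (fun a => sec (sm3_E (a.1 • β + a.2 • γ)))
      (fun a => hE hj hjw (dvd_add (hn _ hβ) (hn _ hγ))) (by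
        simp only [hsec]
        exact sm3_poly hp hj _ h5 (ι := fun a : ℕ × ℕ => a.1 • β + a.2 • γ) (fun a v => by
          simp only [Prod.fst_add, Prod.snd_add, add_nsmul]
          abel) (fun a => dvd_add (hn _ hβ) (hn _ hγ)) 5) (sec g)
    have h2 := sm1_lin h1
    simp only [← hξ, zero_nsmul, add_zero, zero_add, ← nsmul_add] at h2
    rw [hdeep g 0 (sm3_E_lead hw (dvd_zero _)).1] at h2
    linear_combination 12⁻¹ * h2
  · intro g h β hβ
    have key : ∀ b, X ^ (j0 + 1) ∣ b → ξ (g * h) b = ξ h (act g b) + ξ g b := by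
      intro b hb
      have hx := hE hj hjw hb
      have h1 := (Jn p (k * p)).inv_mem (Jn_anti (by omega) (sm3_conj hp hj hb g))
      rw [mul_inv_rev, inv_inv] at h1
      rw [hwd (g * h) b _ hx (sec g * sec h) (by simp [hsec]) (by simp [hsec]),
        hwd h (act g b) _ (rq7_conj D hj hx (sec g)) (sec h)
          (by simpa only [map_mul, map_inv, hsec] using h1) (hsec h), hξ g b,
        show (sec g * sec h)⁻¹ * sec (sm3_E b) * (sec g * sec h) =
          (sec h)⁻¹ * ((sec g)⁻¹ * sec (sm3_E b) * sec g) * sec h by group]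
      ring
    simp only [key _ (hn _ hβ), sm5_act]
    ring
  · intro i j g β hi hj' hij hg hβ
    have key : ∀ b, X ^ (j + 1) ∣ b → ξ g b = 0 := by
      intro b hb
      by_cases hjk : j ≤ k * p
      · have hx := hE (hj.trans hj') hjk hb
        have hm1 : 1 ≤ min i (k * p) := by omega
        have hs : sec g ∈ D.F (min i (k * p)) :=
          (D.pre _ hm1 (min_le_right _ _) _).2 (by rw [hsec]; exact Jn_anti (min_le_left _ _) hg)
        have hc : ⁅(sec (sm3_E b))⁻¹, (sec g)⁻¹⁆ ∈ D.F (k * p + 1) :=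
          D.toNS.mono (by omega) (by omega)
            (D.comm _ _ (hj.trans hj') hm1 _ (inv_mem hx) _ (inv_mem hs))
        have e : (sec g)⁻¹ * sec (sm3_E b) * sec g =
            sec (sm3_E b) * ⁅(sec (sm3_E b))⁻¹, (sec g)⁻¹⁆ := by
          simp only [commutatorElement_def]
          group
        rw [hξ, e, hmul _ _ (D.anti _ hw hc) (D.toNS.mono hj hj' hx), hf.zero _ hc]
        ring
      · exact hdeep g b (Jn_anti (by omega) (sm3_E_lead (hj.trans hj') hb).1)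
    simp only [key _ (hn _ hβ)]
    ring
  · refine ⟨-f (D.g (k * p)), -1, neg_ne_zero.2 one_ne_zero, fun i j g β hi hj' hij hg hβ => ?_⟩
    have key : ∀ b, X ^ (j + 1) ∣ b → ξ g b = coeff (i + 1) g.1 * coeff (j + 1) b *
        (- f (D.g (k * p)) * (2 * i - (k * p : ℕ)) + (-1) * i ^ 3) := by
      intro b hb
      have hj1 := hj.trans hj'
      have hx := hE hj1 (by omega) hb
      have hs : sec g ∈ D.F i := (D.pre _ hi (by omega) _).2 (by rwa [hsec])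
      have hc : ⁅(sec (sm3_E b))⁻¹, (sec g)⁻¹⁆ ∈ D.F (k * p) := by
        rw [← hij, add_comm]
        exact D.comm _ _ hj1 hi _ (inv_mem hx) _ (inv_mem hs)
      have e : (sec g)⁻¹ * sec (sm3_E b) * sec g =
          sec (sm3_E b) * ⁅(sec (sm3_E b))⁻¹, (sec g)⁻¹⁆ := by
        simp only [commutatorElement_def]
        group
      rw [hξ, e, hmul _ _ hc (D.toNS.mono hj hj' hx), sm5_top D hf hz hi hj1 hij hs hx, hsec, hsec,
        (sm3_E_lead hj1 hb).2]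
      ring
    simp only [key _ (hn _ hβ), map_nsmul]
    simp only [nsmul_eq_mul]
    push_cast
    field_simp
    ring

theorem AD.false3 (hp : 11 ≤ p) (hk : 2 ≤ k) (D : AD p k G) : False := by
  rcases Nat.lt_or_ge k 3 with h | h
  · obtain rfl : k = 2 := by omega
    obtain ⟨η, hη⟩ := D.exists_eta3 (by omega) le_rfl (j0 := p - 6) (by omega) (by omega)
      (by omega) (by omega)
    refine eta_false (by omega) le_rfl (fun hd => ?_) (by omega) (by omega) hη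
    exact absurd (Nat.le_of_dvd (by omega) hd) (by omega)
  · exact AD.false (by omega) h D

end Pool.Agent.P.MP_e06b60_al.R
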