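import Mathlib
import Pool.Agent.P.MP_e06b60_al.RT4
import Pool.Agent.P.MP_e06b60_al.SL3

/-! The graded ring, starting from level `p - 1`. -/

namespace Pool.Agent.P.MP_e06b60_al.R

open PowerSeries
open scoped commutatorElement

variable {p : ℕ} [Fact p.Prime] {G : Type} [Group G] [TopologicalSpace G] [IsTopologicalGroup G]

theorem sn1_l2 (hp : 7 ≤ p) (t : ℕ) (ht : t = 1 ∨ t = 2) (R : ℕ) (hR : 7 ≤ R)
    (b : ℕ → ZMod p) (e : ZMod p) (hb : R < 11 → t = 2 → b 1 = 0)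
    (h : ∀ i j : ℕ, 1 ≤ i → 1 ≤ j → i + j ≤ R → ((i : ZMod p) - j) * b (i + j) =
      ((i : ZMod p) + 2 * j - t) * b i - ((j : ZMod p) + 2 * i - t) * b j -
        (if i = t then e * j ^ 3 + 0 * j else 0) + (if j = t then e * i ^ 3 + 0 * i else 0)) :
    e = 0 := by
  by_cases hc : 11 ≤ R ∨ (7 ≤ R ∧ t = 1)
  · exact l2 hp t ht R hc b e 0 h
  obtain rfl : t = 2 := by omega
  have e1 := hb (by omega) rfl
  have e12 := h 1 2 (by omega) (by omega) (by omega)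
  have e13 := h 1 3 (by omega) (by omega) (by omega)
  have e14 := h 1 4 (by omega) (by omega) (by omega)
  have e23 := h 2 3 (by omega) (by omega) (by omega)
  simp only [Nat.reduceAdd, Nat.cast_ofNat, Nat.cast_one, Nat.reduceEqDiff, if_true, if_false,
    OfNat.one_ne_ofNat] at e12 e13 e14 e23
  apply rl1_cancel hp 3 2 0
  linear_combination 10 * e1 - e14 + 3 * e23 - 2 * e13 + 9 * e12

theorem sn1_sol (hp : 7 ≤ p) {S : WS G} {n0 N : ℕ} {g z : ℕ → G} (h : Str p S n0 g z N)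
    (hN : 7 ≤ N)
    (hcen : ∀ m j, 1 ≤ m → 1 ≤ j → m + j = N + 1 → ∀ y ∈ S.F j, ⁅z m, y⁆ ∈ S.F (N + 2))
    {f : G → ZMod p} (hf : IsFun p S.toNS (N + 1) f) :
    ∃ α μ : ZMod p, (((N + 1 : ℕ) : ZMod p) ≠ 0 → μ = 0) ∧ ∀ i : ℕ, 1 ≤ i → i ≤ N →
      f ⁅g i, g (N + 1 - i)⁆ = α * (2 * i - ((N + 1 : ℕ) : ZMod p)) + μ * i ^ 3 := by
  refine l1 hp _ N (by omega) (fun i => f ⁅g i, g (N + 1 - i)⁆) fun i j hi hj hij => ?_
  obtain ⟨l, e⟩ : ∃ l, i + j + l = N + 1 := ⟨N + 1 - (i + j), by omega⟩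
  have hl : 1 ≤ l := by omega
  have m1 := (h.mem i hi (by omega)).1
  have m2 := (h.mem j hj (by omega)).1
  have m3 := (h.mem l hl (by omega)).1
  have h1 := hf.jacobi hi hj hl e m1 m2 m3
  rw [rt2_tri h hcen hf hi hj hl e, rt2_tri h hcen hf hj hl hi (by omega),
    rt2_tri h hcen hf hl hi hj (by omega),
    hf.comm_anti hi (show 1 ≤ j + l by omega) (by omega) m1 (h.mem _ (by omega) (by omega)).1,
    hf.comm_anti hj (show 1 ≤ l + i by omega) (by omega) m2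
      (h.mem _ (by omega) (by omega)).1] at h1
  have h2 : ((N + 1 : ℕ) : ZMod p) = i + j + l := by rw [← e]; push_cast; ring
  rw [h2, show N + 1 - (i + j) = l by omega, show N + 1 - i = j + l by omega,
    show N + 1 - j = l + i by omega]
  linear_combination h1


theorem sn1_rel (hp : 7 ≤ p) {S : WS G} {n0 N : ℕ} {g z : ℕ → G}
    (hexp : ∀ n, 1 ≤ n → ∀ x ∈ S.F n, x ^ p ∈ S.F (n + 1)) (h : Str p S n0 g z N)
    (hN : 7 ≤ N)
    (hcen : ∀ m j, 1 ≤ m → 1 ≤ j → m + j = N + 1 → ∀ y ∈ S.F j, ⁅z m, y⁆ ∈ S.F (N + 2)) :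
    ∃ a ∈ S.F (N + 1), ∃ b ∈ S.F (N + 1), (¬ p ∣ N + 1 → b = 1) ∧
      ∀ i j, 1 ≤ i → 1 ≤ j → i + j = N + 1 →
        ⁅g i, g j⁆ * (a ^ ((i : ℤ) - j) * b ^ i ^ 3)⁻¹ ∈ S.F (N + 2) := by
  have hu : ∀ i, 1 ≤ i → i ≤ N → ⁅g i, g (N + 1 - i)⁆ ∈ S.F (N + 1) := by
    intro i hi hi'
    have := S.comm i (N + 1 - i) hi (by omega) _ (h.mem i hi hi').1 _
      (h.mem _ (by omega) (by omega)).1
    rwa [show i + (N + 1 - i) = N + 1 by omega] at this
  have h2 : (2 : ZMod p) ≠ 0 := by exact_mod_cast cast_ne_zero (p := p) (a := 2) (by omega) (by omega)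
  have h3 : (3 : ZMod p) ≠ 0 := by exact_mod_cast cast_ne_zero (p := p) (a := 3) (by omega) (by omega)
  by_cases hd : p ∣ N + 1
  · have hs : ((N + 1 : ℕ) : ZMod p) = 0 := (ZMod.natCast_eq_zero_iff _ _).2 hd
    have u1 := hu 1 le_rfl (by omega)
    have u2 := hu 2 (by omega) (by omega)
    have ha := mul_mem (pow_mem u1 8) (inv_mem u2)
    have hb := mul_mem u2 (inv_mem (pow_mem u1 2))
    refine ⟨_, pow_mem ha (2 * 2 * 3 : ZMod p)⁻¹.val, _, pow_mem hb (2 * 3 : ZMod p)⁻¹.val,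
      fun hn => absurd hd hn, rt2_fin hexp h (pow_mem ha _) (pow_mem hb _) fun f hf i hi hi' => ?_⟩
    obtain ⟨α, μ, -, hs'⟩ := sn1_sol hp h hN hcen hf
    rw [hf.pow ha, hf.pow hb, hf.div (pow_mem u1 8) u2, hf.div u2 (pow_mem u1 2), hf.pow u1,
      hf.pow u1, hs' i hi hi', hs' 1 le_rfl (by omega), hs' 2 (by omega) (by omega), hs,
      ZMod.natCast_zmod_val, ZMod.natCast_zmod_val]
    push_cast
    field_simp
    ring
  · have hs : ((N + 1 : ℕ) : ZMod p) ≠ 0 := fun e => hd ((ZMod.natCast_eq_zero_iff _ _).1 e)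
    obtain ⟨t, ht1, ht2, ht⟩ : ∃ t : ℕ, 1 ≤ t ∧ t ≤ 2 ∧
        2 * (t : ZMod p) - ((N + 1 : ℕ) : ZMod p) ≠ 0 := by
      by_cases h4 : 2 * ((1 : ℕ) : ZMod p) - ((N + 1 : ℕ) : ZMod p) = 0
      · refine ⟨2, by omega, le_rfl, fun h5 => h2 ?_⟩
        generalize ((N + 1 : ℕ) : ZMod p) = s at h4 h5
        push_cast at h4 h5
        linear_combination h5 - h4
      · exact ⟨1, le_rfl, by omega, h4⟩
    have u1 := hu t ht1 (by omega)
    refine ⟨_, pow_mem u1 (2 * (t : ZMod p) - ((N + 1 : ℕ) : ZMod p))⁻¹.val, 1, one_mem _,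
      fun _ => rfl, rt2_fin hexp h (pow_mem u1 _) (one_mem _) fun f hf i hi hi' => ?_⟩
    obtain ⟨α, μ, h0, hs'⟩ := sn1_sol hp h hN hcen hf
    rw [hf.pow u1, hf.one, hs' i hi hi', hs' t ht1 (by omega), h0 hs, ZMod.natCast_zmod_val]
    generalize 2 * (t : ZMod p) - ((N + 1 : ℕ) : ZMod p) = c at ht
    field_simp
    ring


theorem sn1_span (hp : 7 ≤ p) {S : WS G} {n0 N : ℕ} {g z : ℕ → G}
    (hexp : ∀ n, 1 ≤ n → ∀ x ∈ S.F n, x ^ p ∈ S.F (n + 1)) (h : Str p S n0 g z N)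
    (hN : 7 ≤ N)
    (hcen : ∀ m j, 1 ≤ m → 1 ≤ j → m + j = N + 1 → ∀ y ∈ S.F j, ⁅z m, y⁆ ∈ S.F (N + 2))
    {a b : G} (ha : a ∈ S.F (N + 1)) (hb : b ∈ S.F (N + 1))
    (hrel : ∀ i j, 1 ≤ i → 1 ≤ j → i + j = N + 1 →
      ⁅g i, g j⁆ * (a ^ ((i : ℤ) - j) * b ^ i ^ 3)⁻¹ ∈ S.F (N + 2)) :
    (∀ x ∈ S.F (N + 1), ∃ u v : ℕ, x * (a ^ u * b ^ v)⁻¹ ∈ S.F (N + 2)) ∧
      IsOpen (S.F (N + 2) : Set G) := by
  have hone : ∀ y : G, y ∈ S.F 1 := fun y => by rw [S.top]; exact Subgroup.mem_top y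
  have hK : (S.F (N + 2)).Normal :=
    ⟨fun x hx y => S.toNS.conj_mem (by omega) hx (hone y)⟩
  have hKc : IsClosed (S.F (N + 2) : Set G) := S.closed _ (by omega)
  set π : G →* G ⧸ S.F (N + 2) := QuotientGroup.mk' (S.F (N + 2)) with hπ
  have hker : ∀ x : G, π x = 1 ↔ x ∈ S.F (N + 2) := fun x => QuotientGroup.eq_one_iff x
  have hcont : Continuous π := QuotientGroup.continuous_mk
  have hc : ∀ x ∈ S.F (N + 1), ∀ y : G, Commute (π x) (π y) := by
    intro x hx y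
    have h1 : π ⁅x, y⁆ = 1 := (hker _).2 (S.comm (N + 1) 1 (by omega) le_rfl x hx y (hone y))
    rw [map_commutatorElement] at h1
    exact commutatorElement_eq_one_iff_commute.1 h1
  have hpw : ∀ x ∈ S.F (N + 1), π x ^ p = 1 := by
    intro x hx
    rw [← map_pow]
    exact (hker _).2 (hexp (N + 1) (by omega) x hx)
  have hp0 : 0 < p := by omega
  set D := rt3_D p hp0 (π a) (π b) (hc a ha b) (hpw a ha) (hpw b hb) with hD
  have hDf : (D : Set (G ⧸ S.F (N + 2))).Finite := rt3_D_finite _ _ _ _ _ _ _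
  set T : Subgroup G := D.comap π with hT
  have hTm : ∀ x : G, x ∈ T ↔ ∃ u v : ℕ, π x = π a ^ u * π b ^ v := fun x => Iff.rfl
  have hTn : T.Normal := by
    refine ⟨fun x hx y => ?_⟩
    obtain ⟨u, v, e⟩ := (hTm x).1 hx
    refine (hTm _).2 ⟨u, v, ?_⟩
    have h1 : Commute (π a ^ u * π b ^ v) (π y) :=
      ((hc a ha y).pow_left u).mul_left ((hc b hb y).pow_left v)
    rw [map_mul, map_mul, map_inv, e, ← h1.eq, mul_inv_cancel_right]
  have hKT : ∀ x ∈ S.F (N + 2), x ∈ T := fun x hx =>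
    (hTm x).2 ⟨0, 0, by rw [(hker x).2 hx]; simp⟩
  have haT : a ∈ T := (hTm a).2 ⟨1, 0, by simp⟩
  have hbT : b ∈ T := (hTm b).2 ⟨0, 1, by simp⟩
  have hTc : IsClosed (T : Set G) := hDf.isClosed.preimage hcont
  have hgen : ∀ i j, 1 ≤ i → 1 ≤ j → i + j = N + 1 → ∀ y ∈ S.F j, ⁅g i, y⁆ ∈ T →
      ∀ x ∈ S.F i, ⁅x, y⁆ ∈ T := by
    intro i j hi hj hij y hy hg x hx
    obtain ⟨α, β, e⟩ := h.span i hi (by omega) x hx
    have h1 : x * (g i ^ α * z i ^ β)⁻¹ ∈ rt3_L T hTn y := by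
      rw [rt3_mem_L]
      apply hKT
      have h2 := S.comm (i + 1) j (by omega) hj _ e y hy
      have e2 : i + 1 + j = N + 2 := by omega
      rwa [e2] at h2
    have h2 : g i ∈ rt3_L T hTn y := hg
    have h3 : z i ∈ rt3_L T hTn y := hKT _ (hcen i j hi hj hij y hy)
    have h4 := (rt3_L T hTn y).mul_mem h1
      ((rt3_L T hTn y).mul_mem ((rt3_L T hTn y).pow_mem h2 α) ((rt3_L T hTn y).pow_mem h3 β))
    rw [inv_mul_cancel_right] at h4
    exact h4
  have hle : S.F (N + 1) ≤ T := by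
    refine S.gen (N + 1) (by omega) T hTc ?_
    intro i j hi hj hij x hx y hy
    refine hgen i j hi hj hij y hy ?_ x hx
    have h1 : ⁅g j, g i⁆ ∈ T := by
      have h2 := T.mul_mem (hKT _ (hrel j i hj hi (by omega)))
        (T.mul_mem (T.zpow_mem haT ((j : ℤ) - i)) (T.pow_mem hbT (j ^ 3)))
      rwa [inv_mul_cancel_right] at h2
    have h2 : ⁅y, g i⁆ ∈ T :=
      hgen j i hj hi (by omega) (g i) (h.mem i hi (by omega)).1 h1 y hy
    have h3 := T.inv_mem h2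
    rwa [commutatorElement_inv] at h3
  refine ⟨fun x hx => ?_, ?_⟩
  · obtain ⟨u, v, e⟩ := (hTm x).1 (hle hx)
    refine ⟨u, v, (hker _).1 ?_⟩
    rw [map_mul, map_inv, map_mul, map_pow, map_pow, e, mul_inv_cancel]
  · have hcl : IsClosed (π ⁻¹' ((D : Set (G ⧸ S.F (N + 2))) \ {1})) :=
      (hDf.subset Set.sdiff_subset).isClosed.preimage hcont
    have e : (S.F (N + 2) : Set G) =
        (S.F (N + 1) : Set G) ∩ (π ⁻¹' ((D : Set (G ⧸ S.F (N + 2))) \ {1}))ᶜ := by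
      ext x
      constructor
      · intro hx
        refine ⟨S.anti (N + 1) (by omega) hx, fun h1 => h1.2 ?_⟩
        exact (hker x).2 hx
      · rintro ⟨hx, h1⟩
        by_contra h2
        exact h1 ⟨hle hx, fun h3 => h2 ((hker x).1 h3)⟩
    rw [e]
    exact h.opn.inter hcl.isOpen_compl


theorem sn1_cen (hp : 7 ≤ p) {S : WS G} {n0 N : ℕ} {g z : ℕ → G}
    (hexp : ∀ n, 1 ≤ n → ∀ x ∈ S.F n, x ^ p ∈ S.F (n + 1)) (h : Str p S n0 g z N)
    (hn0 : 2 ≤ n0) (hN : 9 ≤ N) (hsp : N < 13 → ∀ m, m + 1 = N → p ∣ m → z m ∈ S.F (m + 1) ∨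
      ∀ f, IsFun p S.toNS (N + 1) f → f ⁅g 1, g N⁆ = 0) :
    ∀ m j, 1 ≤ m → 1 ≤ j → m + j = N + 1 → ∀ y ∈ S.F j, ⁅z m, y⁆ ∈ S.F (N + 2) := by
  intro m t hm ht hmt y hy
  by_cases ht3 : 3 ≤ t
  · exact rt1_big h hm ht3 hmt y hy
  by_cases hpm : p ∣ m
  swap
  · rw [h.triv m hm (by omega) (Or.inl hpm)]
    simp
  have hz : z m ∈ S.F m := (h.mem m hm (by omega)).2
  have hgt : g t ∈ S.F t := (h.mem t ht (by omega)).1
  have hm0 : (m : ZMod p) = 0 := (ZMod.natCast_eq_zero_iff m p).2 hpm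
  have key : ⁅z m, g t⁆ ∈ S.F (N + 1 + 1) := by
    by_cases hzm : z m ∈ S.F (m + 1)
    · have := S.comm (m + 1) t (by omega) ht _ hzm _ hgt
      rwa [show m + 1 + t = N + 1 + 1 by omega] at this
    refine sep_fun (p := p) S.toNS (by omega) (hexp (N + 1) (by omega)) ?_ fun f hf => ?_
    · have := S.comm m t hm ht _ hz _ hgt
      rwa [hmt] at this
    have hE : ∀ i k, 1 ≤ i → 1 ≤ k → k + i = N + 1 →
        f ⁅z k, g i⁆ = if i = t then f ⁅z m, g t⁆ else 0 := by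
      intro i k hi hk hki
      split_ifs with hit
      · subst hit
        rw [show k = m by omega]
      · by_cases hi3 : 3 ≤ i
        · exact hf.zero _ (rt1_big h hk hi3 hki _ (h.mem i hi (by omega)).1)
        · have hpk : ¬ p ∣ k := by
            intro hpk
            have h1 : p ∣ 1 := by
              rcases (by omega : k = m + 1 ∨ m = k + 1) with e | e
              · rw [e] at hpk
                exact (Nat.dvd_add_right hpm).1 hpk
              · rw [e] at hpm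
                exact (Nat.dvd_add_right hpk).1 hpm
            have := Nat.le_of_dvd one_pos h1
            omega
          rw [h.triv k hk (by omega) (Or.inl hpk)]
          simpa using hf.one
    refine sn1_l2 hp t (by omega) (N - 2) (by omega)
      (fun i => f ⁅g i, g (N + 1 - i)⁆) (f ⁅z m, g t⁆)
      (fun h1 h2 => (hsp (by omega) m (by omega) hpm).resolve_left hzm f hf)
      fun i j hi hj hij => ?_
    obtain ⟨l, hl⟩ : ∃ l, i + j + l = N + 1 := ⟨N + 1 - (i + j), by omega⟩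
    have hl3 : 3 ≤ l := by omega
    have hgi := (h.mem i hi (by omega)).1
    have hgj := (h.mem j hj (by omega)).1
    have hgl := (h.mem l (by omega) (by omega)).1
    have hJ := hf.jacobi hi hj (by omega) hl hgi hgj hgl
    rw [rt1_rel h hf hi hj (by omega) hl, rt1_rel h hf hj (by omega) hi (by omega),
      rt1_rel h hf (by omega) hi hj (by omega),
      hf.zero _ (rt1_big h (by omega) hl3 hl _ hgl),
      hE i (j + l) hi (by omega) (by omega), hE j (l + i) hj (by omega) (by omega),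
      hf.comm_anti hi (j := j + l) (by omega) (by omega) hgi
        (h.mem (j + l) (by omega) (by omega)).1,
      hf.comm_anti hj (j := l + i) (by omega) (by omega) hgj
        (h.mem (l + i) (by omega) (by omega)).1] at hJ
    have hlc : (l : ZMod p) = t - i - j := by
      have e : ((i + j + l : ℕ) : ZMod p) = ((m + t : ℕ) : ZMod p) := by rw [hl, hmt]
      push_cast at e
      linear_combination e + hm0
    rw [show N + 1 - (i + j) = l by omega, show N + 1 - i = j + l by omega,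
      show N + 1 - j = l + i by omega]
    rw [hlc] at hJ
    by_cases hit : i = t <;> by_cases hjt : j = t
    · simp only [if_pos hit, if_pos hjt] at hJ ⊢
      rw [← hjt] at hJ ⊢
      linear_combination hJ
    · simp only [if_pos hit, if_neg hjt] at hJ ⊢
      linear_combination hJ
    · simp only [if_neg hit, if_pos hjt] at hJ ⊢
      rw [← hjt] at hJ ⊢
      linear_combination hJ
    · simp only [if_neg hit, if_neg hjt] at hJ ⊢
      linear_combination hJ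
  obtain ⟨T, -, hmem⟩ := rt1_sub S (n := N + 2) (by omega) (z m)
  obtain ⟨a, b, hab⟩ := h.span t ht (by omega) y hy
  rw [h.triv t ht (by omega) (Or.inr (by omega)), one_pow, mul_one] at hab
  have h1 : y * (g t ^ a)⁻¹ ∈ T := by
    rw [hmem]
    have := S.comm m (t + 1) hm (by omega) _ hz _ hab
    rwa [show m + (t + 1) = N + 2 by omega] at this
  have h2 : g t ^ a ∈ T := T.pow_mem ((hmem _).2 key) a
  have h3 := T.mul_mem h1 h2
  rw [inv_mul_cancel_right] at h3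
  exact (hmem y).1 h3


theorem sn1_step (hp : 7 ≤ p) {S : WS G} {n0 N : ℕ} {g z : ℕ → G} (hn0 : 7 ≤ n0) (hN : n0 ≤ N)
    (hexp : ∀ n, 1 ≤ n → ∀ x ∈ S.F n, x ^ p ∈ S.F (n + 1)) (h : Str p S n0 g z N)
    (hcen : ∀ m j, 1 ≤ m → 1 ≤ j → m + j = N + 1 → ∀ y ∈ S.F j, ⁅z m, y⁆ ∈ S.F (N + 2)) :
    ∃ a b : G, ∀ g' z' : ℕ → G, (∀ n, n ≤ N → g n = g' n) → (∀ n, n ≤ N → z n = z' n) →
      g' (N + 1) = a → z' (N + 1) = b → Str p S n0 g' z' (N + 1) := by
  obtain ⟨a, ha, b, hb, hb1, hrel⟩ := sn1_rel hp hexp h (by omega) hcen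
  obtain ⟨hsp, hop⟩ := sn1_span hp hexp h (by omega) hcen ha hb hrel
  refine ⟨a, b, fun g' z' hg hz e1 e2 => ?_⟩
  have h' := rt4_congr hg hz h
  refine ⟨fun n h1 h2 => ?_, fun n h1 h2 h3 => ?_, fun n h1 h2 => ?_, fun i j h1 h2 h3 => ?_,
    fun m j h1 h2 h3 => ?_, hop⟩
  · rcases h2.eq_or_lt with rfl | h2
    · rw [e1, e2]
      exact ⟨ha, hb⟩
    · exact h'.mem n h1 (by omega)
  · rcases h2.eq_or_lt with rfl | h2
    · rw [e2]
      exact hb1 (h3.resolve_right (by omega))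
    · exact h'.triv n h1 (by omega) h3
  · rcases h2.eq_or_lt with rfl | h2
    · rw [e1, e2]
      exact hsp
    · exact h'.span n h1 (by omega)
  · rcases h3.eq_or_lt with h3 | h3
    · rw [h3, e1, e2, ← hg i (by omega), ← hg j (by omega)]
      exact hrel i j h1 h2 h3
    · exact h'.rel i j h1 h2 (by omega)
  · rcases h3.eq_or_lt with h3 | h3
    · rw [h3, ← hz m (by omega)]
      exact hcen m j h1 h2 h3
    · exact h'.cen m j h1 h2 (by omega)


theorem sn1_sp {S : WS G} {n0 N m : ℕ} {g z : ℕ → G}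
    (hexp : ∀ n, 1 ≤ n → ∀ x ∈ S.F n, x ^ p ∈ S.F (n + 1)) (h : Str p S n0 g z N)
    (hC : sl3_C p S p) (hm : m = p) (hN : m + 1 = N) : z m ∈ S.F (m + 1) ∨
      ∀ f, IsFun p S.toNS (N + 1) f → f ⁅g 1, g N⁆ = 0 := by
  subst hm hN
  have hp := (Fact.out : m.Prime).pos
  refine or_iff_not_imp_left.2 fun hz f hf => ?_
  have htop : ∀ x : G, x ∈ S.F 1 := fun x => by rw [S.top]; trivial
  obtain ⟨c, hc⟩ := hC (Subgroup.isOpen_mono (S.anti _ (by omega)) h.opn)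
  obtain ⟨hg, hzm⟩ := h.mem m hp (by omega)
  obtain ⟨l, hl, -, hl1⟩ := exists_fun (p := m) S.toNS hp (hexp m hp) _ le_rfl hzm hz
  have h1 : IsFun m S.toNS (m + 1) fun y => f ⁅y, g 1⁆ :=
    ⟨fun x hx y hy => hf.comm_mul_left (by omega) le_rfl rfl hx hy (htop _),
      fun x hx => hf.comm_zero_left (by omega) le_rfl rfl hx (htop _)⟩
  have h2 : IsFun m S.toNS m fun x => f ⁅⁅x, g 1⁆, g 1⁆ :=
    ⟨fun x hx y hy => h1.comm_mul_left hp le_rfl rfl hx hy (htop _),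
      fun x hx => h1.comm_zero_left hp le_rfl rfl hx (htop _)⟩
  obtain ⟨u, hu⟩ := hc _ hzm
  obtain ⟨v, hv⟩ := hc _ hg
  have h3 := hu _ h2
  have h4 := hv _ h2
  have h5 := hu _ hl
  rw [h1.zero _ (h.cen m 1 hp le_rfl le_rfl _ (htop _))] at h3
  rw [rt1_rel h hf hp le_rfl le_rfl rfl, ZMod.natCast_self] at h4
  rw [hf.comm_anti (by omega) le_rfl rfl (h.mem (m + 1) (by omega) le_rfl).1 (htop _)]
  rw [hl1] at h5
  push_cast at h4
  linear_combination h4 + v * f ⁅⁅c, g 1⁆, g 1⁆ * h5 - v * l c * h3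

theorem sn1_all (hp : 11 ≤ p) {S : WS G} {n0 : ℕ} {g0 : ℕ → G} (hn0 : n0 + 1 = p)
    (hexp : ∀ n, 1 ≤ n → ∀ x ∈ S.F n, x ^ p ∈ S.F (n + 1)) (h : Base p S n0 g0)
    (hC : sl3_C p S p) :
    ∃ g z : ℕ → G, ∀ N, Str p S n0 g z N := by
  obtain ⟨f, hf⟩ := diag (fun (f : ℕ → G × G) N =>
      Str p S n0 (fun n => (f n).1) (fun n => (f n).2) N) n0
    (fun f g N e => rt4_congr (fun n hn => by rw [e n hn]) fun n hn => by rw [e n hn])
    (fun n => (g0 n, 1)) (rt4_base h) fun f N hN hS => by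
      obtain ⟨a, b, hab⟩ := sn1_step (by omega) (by omega) hN hexp hS
        (sn1_cen (by omega) hexp hS (by omega) (by omega) fun h1 m h2 h3 =>
          sn1_sp hexp hS hC (by have := Nat.le_of_dvd (by omega) h3; omega) h2)
      refine ⟨(a, b), hab _ _ (fun n hn => ?_) (fun n hn => ?_) ?_ ?_⟩
      · rw [Function.update_of_ne (by omega)]
      · rw [Function.update_of_ne (by omega)]
      · rw [Function.update_self]
      · rw [Function.update_self]
  exact ⟨_, _, fun N => rt4_mono (le_max_right n0 N) (hf _ (le_max_left n0 N))⟩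


end Pool.Agent.P.MP_e06b60_al.R
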