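import Mathlib
import Pool.Agent.P.MP_e06b60_al.RM
import Pool.Agent.P.MP_e06b60_al.SM5
import Pool.Agent.P.MP_e06b60_al.SN1
import Pool.Agent.P.MP_e06b60_al.Main5

/-! Recognition from an early quotient of the lower central series. -/

namespace Pool.Agent.P.MP_e06b60_al.R

open PowerSeries
open scoped commutatorElement

theorem sl4_core (p n0 : ℕ) [Fact p.Prime] (hp7 : 7 ≤ p) (G : Type) [Group G]
    [TopologicalSpace G]
    [IsTopologicalGroup G] [CompactSpace G] [T2Space G] [TotallyDisconnectedSpace G]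
    (hpro : ∀ N : OpenNormalSubgroup G, IsPGroup p (G ⧸ N.toSubgroup)) [Infinite G]
    (S : WS G) (hexp : ∀ n, 1 ≤ n → ∀ x ∈ S.F n, x ^ p ∈ S.F (n + 1)) {g z : ℕ → G}
    (hstr : ∀ N, Str p S n0 g z N) (hC : sl3_C p S (n0 + 1))
    (hAD : ∀ k, n0 + 1 < k * p → AD p k G → False) : Nonempty (G ≃ₜ* Nott p) := by
  have : T2Space (Nott p) := nott_t2
  have hinf := ws_inf hpro S
  obtain ⟨A, hAF, hcen, hA⟩ := pf_of_str hexp hstr (no_collapse hp7 hexp hstr hinf)
  obtain ⟨B, hB, hAB⟩ := exists_wf hp7 A hcen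
  have hopen : ∀ n, 1 ≤ n → IsOpen (B.F n : Set G) := by
    intro n hn
    refine Subgroup.isOpen_mono (H₁ := S.F (n + 1)) ?_ (hstr n).opn
    exact (S.anti n hn).trans (hAF n ▸ (hAB n hn).1)
  obtain ⟨θ, hθc, hθs, hθ⟩ := exists_hom hp7 B hB (B.pw hp7 hB) hopen
  have hlead : ∀ n, 1 ≤ n → ∀ x ∈ S.F n, θ x ∈ Jn p n ∧ coeff (n + 1) (θ x).1 = A.lead n x := by
    intro n hn x hx
    have hx' : x ∈ A.F n := hAF n ▸ hx
    have hxB := (hAB n hn).1 hx'
    exact ⟨(hθ n hn x).1.mp hxB, ((hθ n hn x).2 hxB).trans ((hAB n hn).2 x hx')⟩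
  have hpre : ∀ w, (∀ n, 1 ≤ n → n < w → z n ∈ S.F (n + 1)) →
      ∀ n, 1 ≤ n → n ≤ w → ∀ x, θ x ∈ Jn p n → x ∈ S.F n := by
    intro w hw n hn
    induction n, hn using Nat.le_induction with
    | base => intro _ x _; rw [S.top]; trivial
    | succ n hn ih =>
      intro hnw x hx
      have hxn := ih (by omega) x (Jn_anti (Nat.le_succ n) hx)
      have h0 : A.lead n x = 0 := by
        rw [← (hlead n hn x hxn).2]
        exact (mem_succ_iff hn (Jn_anti (Nat.le_succ n) hx)).mp hx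
      obtain ⟨b, hb'⟩ := (hA n hn).2.2 x hxn h0
      have := mul_mem hb' (pow_mem (hw n hn (by omega)) b)
      simpa using this
  have hzp : z (n0 + 1) ∈ S.F (n0 + 1 + 1) := by
    obtain ⟨hgm, hzm⟩ := (hstr (n0 + 1)).mem (n0 + 1) (by omega) le_rfl
    have hl : IsFun p S.toNS (n0 + 1) (A.lead (n0 + 1)) := by
      have h0 := A.isFun (n0 + 1) (by omega)
      exact ⟨fun x hx y hy => h0.mul x (hAF _ ▸ hx) y (hAF _ ▸ hy),
        fun x hx => h0.zero x (hAF _ ▸ hx)⟩
    refine sep_fun S.toNS (by omega) (hexp _ (by omega)) hzm fun f hf => ?_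
    obtain ⟨c, hc⟩ := hC (hstr (n0 + 1)).opn
    obtain ⟨u, hu⟩ := hc _ hzm
    obtain ⟨v, hv⟩ := hc _ hgm
    have h1 := hu _ hl
    have h2 := hv _ hl
    rw [(hA _ (by omega)).2.1] at h1
    rw [(hA _ (by omega)).1] at h2
    linear_combination hu f hf + u * f c * h2 - v * f c * h1
  have hz : ∀ w, 1 ≤ w → z w ∈ S.F (w + 1) := by
    intro w
    induction w using Nat.strong_induction_on with
    | _ w ih =>
      intro hw
      by_contra hzw
      have hlt : ∀ n, 1 ≤ n → n < w → z n ∈ S.F (n + 1) := fun n hn h => ih n h hn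
      have hnt : ¬ (¬ p ∣ w ∨ w ≤ n0) := fun h =>
        hzw (by rw [(hstr w).triv w hw le_rfl h]; exact one_mem _)
      have hdv : p ∣ w := by by_contra h; exact hnt (Or.inl h)
      obtain ⟨k, hk⟩ := hdv
      rw [mul_comm] at hk
      subst hk
      have hk3 : n0 + 1 < k * p := by
        by_contra h
        rcases (by omega : k * p ≤ n0 ∨ k * p = n0 + 1) with h | h
        · exact hnt (Or.inr h)
        · rw [h] at hzw
          exact hzw hzp
      have hzm := ((hstr (k * p)).mem (k * p) hw le_rfl).2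
      refine hAD k hk3
        { toNS := S.toNS, top := S.top, θ := θ, surj := hθs
          pre := fun n hn h x => ⟨fun hx => (hlead n hn x hx).1, hpre _ hlt n hn h x⟩
          z := z (k * p), z_mem := hzm, z_not := hzw, z_pow := hexp _ hw _ hzm
          z_im := (mem_succ_iff hw (hlead _ hw _ hzm).1).mpr
            ((hlead _ hw _ hzm).2.trans (hA _ hw).2.1)
          deep := fun x hx => (hlead _ (by omega) x hx).1
          ker := fun x hx => ?_
          g := g
          g_mem := fun n hn h => ⟨((hstr n).mem n hn le_rfl).1,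
            (hlead n hn _ ((hstr n).mem n hn le_rfl).1).2.trans (hA n hn).1⟩
          rel := fun i j hi hj hij => ?_ }
      · have hxn := hpre _ hlt _ hw le_rfl x (Jn_anti (Nat.le_succ _) hx)
        refine (hA _ hw).2.2 x hxn ?_
        rw [← (hlead _ hw x hxn).2]
        exact (mem_succ_iff hw (Jn_anti (Nat.le_succ _) hx)).mp hx
      · have := (hstr (k * p)).rel i j hi hj hij.le
        rwa [hij] at this
  have hinj : Function.Injective θ := by
    rw [injective_iff_map_eq_one]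
    intro x hx
    refine hinf x fun n hn => hpre n (fun m hm _ => hz m hm) n hn le_rfl x ?_
    rw [hx]
    exact one_mem _
  let e : G ≃* Nott p := MulEquiv.ofBijective θ ⟨hinj, hθs⟩
  have he : Continuous e := hθc
  exact ⟨{ e with
    continuous_toFun := he
    continuous_invFun := (Continuous.homeoOfEquivCompactToT2 (f := e.toEquiv) he).symm.continuous }⟩

theorem sl4_low {p : ℕ} [Fact p.Prime] (hp : 7 ≤ p) :
    ∀ i, 1 ≤ i → i ≤ p - 1 → gamma (Nott p) i = Jn p (i + 2) := by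
  have h20 : (2 : ZMod p) ≠ 0 := ru5_two hp
  have h0 : gamma (Nott p) 0 = Jn p 1 := Jn_one.symm
  intro i hi
  induction i, hi using Nat.le_induction with
  | base => exact fun _ => rj1_step rj1_div h20 le_rfl (Or.inl ⟨rfl, by simp⟩) h0
  | succ i hi ih =>
    intro h
    refine rj1_step rj1_div h20 (by omega) (Or.inr ⟨rfl, rj1_ne_one hp ?_⟩) (ih (by omega))
    rcases Nat.lt_or_ge (i + 2) p with h' | h'
    · rw [Nat.mod_eq_of_lt h']; omega
    · rw [show i + 2 = p by omega, Nat.mod_self]; omega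

theorem sl4_mid {p : ℕ} [Fact p.Prime] (hp : 7 ≤ p) :
    ∀ i, p ≤ i → i ≤ 2 * p - 2 → gamma (Nott p) i = Jn p (i + 3) := by
  have h20 : (2 : ZMod p) ≠ 0 := ru5_two hp
  intro i hi
  induction i, hi using Nat.le_induction with
  | base =>
    intro _
    have h1 := sl4_low hp (p - 1) (by omega) le_rfl
    have h2 := rj1_step rj1_div h20 (m' := p + 3) (by omega) (Or.inl ⟨by omega, by
      rw [show p - 1 + 2 = p + 1 by omega]; simp⟩) h1
    rwa [show p - 1 + 1 = p by omega] at h2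
  | succ i hi ih =>
    intro h
    refine rj1_step rj1_div h20 (by omega) (Or.inr ⟨rfl, rj1_ne_one hp ?_⟩) (ih (by omega))
    obtain ⟨t, rfl⟩ : ∃ t, i = p + t := ⟨i - p, by omega⟩
    rw [show p + t + 3 = p + (t + 3) by omega, Nat.add_mod_left]
    rcases Nat.lt_or_ge (t + 3) p with h' | h'
    · rw [Nat.mod_eq_of_lt h']; omega
    · rw [show t + 3 = p by omega, Nat.mod_self]; omega

theorem sl4_anti (G : Type) [Group G] [TopologicalSpace G] [IsTopologicalGroup G] {i j : ℕ}
    (h : i ≤ j) : gamma G j ≤ gamma G i := by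
  induction j, h using Nat.le_induction with
  | base => exact le_rfl
  | succ k _ ih => exact (Five.gamma_succ_le' G k).trans ih

theorem sl4_closed (G : Type) [Group G] [TopologicalSpace G] [IsTopologicalGroup G] (i : ℕ) :
    IsClosed (gamma G i : Set G) := by
  cases i with
  | zero => exact isClosed_univ
  | succ i => exact Subgroup.isClosed_topologicalClosure _

/-- An isomorphism of lower central quotients descends to the earlier terms. -/
theorem sl4_down {p : ℕ} [Fact p.Prime] (G : Type) [Group G] [TopologicalSpace G]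
    [IsTopologicalGroup G] [CompactSpace G] {i m : ℕ} (him : i ≤ m) (N : Subgroup (Nott p))
    [N.Normal] (hN : gamma (Nott p) i = N)
    (Φ : (G ⧸ gamma G m) ≃ₜ* (Nott p ⧸ gamma (Nott p) m)) :
    ∃ ψ : G →* Nott p ⧸ N, Continuous ψ ∧ Function.Surjective ψ ∧ ψ.ker = gamma G i := by
  have : CompactSpace (Nott p) := nott_compact
  have hcl : IsClosed (gamma (Nott p) m : Set (Nott p)) := sl4_closed _ m
  let θ : G →* Nott p ⧸ gamma (Nott p) m :=
    Φ.toMulEquiv.toMonoidHom.comp (QuotientGroup.mk' _)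
  have hc : Continuous θ := Φ.continuous_toFun.comp QuotientGroup.continuous_mk
  have hs : Function.Surjective θ := Φ.surjective.comp (QuotientGroup.mk'_surjective _)
  have hker : θ.ker = gamma G m := by
    ext x
    rw [MonoidHom.mem_ker, ← QuotientGroup.eq_one_iff]
    exact Φ.toMulEquiv.map_eq_one_iff
  have hle : gamma (Nott p) m ≤ N := hN ▸ sl4_anti _ him
  let ρ : Nott p ⧸ gamma (Nott p) m →* Nott p ⧸ N :=
    QuotientGroup.map _ _ (MonoidHom.id _) hle
  have hρ : ∀ f : Nott p, ρ (f : Nott p ⧸ gamma (Nott p) m) = (f : Nott p ⧸ N) := fun f => rfl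
  have hρc : Continuous ρ :=
    (QuotientGroup.isQuotientMap_mk (gamma (Nott p) m)).continuous_iff.2
      QuotientGroup.continuous_mk
  have h1 := Five.map_gamma θ hc hs i
  have h2 := Five.map_gamma (QuotientGroup.mk' (gamma (Nott p) m)) QuotientGroup.continuous_mk
    (QuotientGroup.mk'_surjective _) i
  rw [hN, ← h1] at h2
  refine ⟨ρ.comp θ, hρc.comp hc, fun y => ?_, ?_⟩
  · obtain ⟨f, rfl⟩ := QuotientGroup.mk_surjective y
    obtain ⟨x, hx⟩ := hs f
    exact ⟨x, by rw [MonoidHom.comp_apply, hx, hρ]⟩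
  · ext x
    obtain ⟨f, hf⟩ := QuotientGroup.mk_surjective (θ x)
    rw [MonoidHom.mem_ker, MonoidHom.comp_apply, ← hf, hρ, QuotientGroup.eq_one_iff]
    constructor
    · intro h
      have h3 : θ x ∈ (gamma G i).map θ := by
        rw [← h2, ← hf]
        exact Subgroup.mem_map_of_mem _ h
      obtain ⟨y, hy, e⟩ := h3
      have h4 : x * y⁻¹ ∈ θ.ker := by
        rw [MonoidHom.mem_ker, map_mul, map_inv, e, mul_inv_cancel]
      rw [hker] at h4
      simpa using mul_mem (sl4_anti G him h4) hy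
    · intro h
      have h3 : θ x ∈ N.map (QuotientGroup.mk' (gamma (Nott p) m)) := by
        rw [h2]
        exact Subgroup.mem_map_of_mem _ h
      obtain ⟨g, hg, e⟩ := h3
      have h4 : g⁻¹ * f ∈ gamma (Nott p) m := QuotientGroup.eq.1 (e.trans hf.symm)
      simpa using mul_mem hg (hle h4)

theorem sl4_main (p : ℕ) [Fact p.Prime] (hp : 11 ≤ p) {m : ℕ} (hm : p - 2 ≤ m) (G : Type)
    [Group G] [TopologicalSpace G]
    [IsTopologicalGroup G] [CompactSpace G] [T2Space G] [TotallyDisconnectedSpace G]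
    (hpro : ∀ N : OpenNormalSubgroup G, IsPGroup p (G ⧸ N.toSubgroup)) [Infinite G]
    (Φ : (G ⧸ gamma G m) ≃ₜ* (Nott p ⧸ gamma (Nott p) m)) : Nonempty (G ≃ₜ* Nott p) := by
  obtain ⟨q, hq⟩ : ∃ q, q + 2 + 1 = p := ⟨p - 3, by omega⟩
  obtain ⟨ψ, h1, h2, h3⟩ := sl4_down G (i := q + 1) (by omega) (Jn p (q + 2 + 1))
    (sl4_low (by omega) (q + 1) (by omega) (by omega)) Φ
  obtain ⟨S, g0, hb, hC⟩ := sl3_base1 (by omega) (by omega) ψ h1 h2 h3
  have hexp := ws_exp (p := p) S (hb.pow 1 le_rfl (by omega)) (hb.pow 2 (by omega) (by omega))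
  obtain ⟨g, z, hstr⟩ := sn1_all hp hq hexp hb (by rwa [hq] at hC)
  refine sl4_core p (q + 2) (by omega) G hpro S hexp hstr hC fun k hk D => D.false3 hp ?_
  by_contra h
  have : k * p ≤ 1 * p := Nat.mul_le_mul_right p (by omega)
  omega

theorem sl4_main2 (p : ℕ) [Fact p.Prime] (hp : 7 ≤ p) {m : ℕ} (hm : 2 * p - 3 ≤ m) (G : Type)
    [Group G] [TopologicalSpace G]
    [IsTopologicalGroup G] [CompactSpace G] [T2Space G] [TotallyDisconnectedSpace G]
    (hpro : ∀ N : OpenNormalSubgroup G, IsPGroup p (G ⧸ N.toSubgroup)) [Infinite G]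
    (Φ : (G ⧸ gamma G m) ≃ₜ* (Nott p ⧸ gamma (Nott p) m)) : Nonempty (G ≃ₜ* Nott p) := by
  obtain ⟨q, hq⟩ : ∃ q, q + 3 + 1 = 2 * p := ⟨2 * p - 4, by omega⟩
  obtain ⟨ψ, h1, h2, h3⟩ := sl4_down G (i := q + 1) (by omega) (Jn p (q + 3 + 1))
    (sl4_mid hp (q + 1) (by omega) (by omega)) Φ
  obtain ⟨S, g0, hb, hC⟩ := sl3_base2 hp (by omega) ψ h1 h2 h3
  have hexp := ws_exp (p := p) S (hb.pow 1 le_rfl (by omega)) (hb.pow 2 (by omega) (by omega))
  obtain ⟨g, z, hstr⟩ := str_all hp (by omega) hexp hb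
  refine sl4_core p (q + 3) hp G hpro S hexp hstr hC fun k hk D => D.false hp ?_
  by_contra h
  have : k * p ≤ 2 * p := Nat.mul_le_mul_right p (by omega)
  omega

end Pool.Agent.P.MP_e06b60_al.R
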