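import Mathlib
import Pool.Agent.P.MP_e06b60_al.RU3
import Pool.Agent.P.MP_e06b60_al.RU1
import Pool.Agent.P.MP_e06b60_al.RQ5
import Pool.Agent.P.MP_e06b60_al.Cocycle

/-! The Bott cocycle of the Nottingham group, in weight `p`. -/

namespace Pool.Agent.P.MP_e06b60_al.R

open PowerSeries
open scoped commutatorElement

variable {p : ℕ} [Fact p.Prime]

/-- The logarithmic derivative of the derivative. -/
noncomputable def sl5_dl (f : Nott p) : (ZMod p)⟦X⟧ := dx (dx f.1) * (dx f.1)⁻¹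

/-- A primitive, correct below degree `p`. -/
noncomputable def sl5_prim (ω : (ZMod p)⟦X⟧) : (ZMod p)⟦X⟧ :=
  PowerSeries.mk fun n => coeff (n - 1) ω * (n : ZMod p)⁻¹

theorem sl5_dl_mul (f g : Nott p) : sl5_dl (f * g) = pb g (sl5_dl f) + sl5_dl g := by
  have hs := hasSubst_of g.2.1
  have h1 := ru1_subst_inv f g
  have h2 := dx_mul_inv g
  have e : dx (f * g).1 = ((dx f.1).subst g.1 : (ZMod p)⟦X⟧) * dx g.1 := ru1_dx_subst g f.1
  unfold sl5_dl pb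
  rw [ru1_inv_mul, e, ru1_dx_mul, ru1_dx_subst, subst_mul hs]
  linear_combination (((dx (dx f.1)).subst g.1 : (ZMod p)⟦X⟧) *
    ((dx f.1)⁻¹.subst g.1 : (ZMod p)⟦X⟧) * dx g.1) * h2 + (dx (dx g.1) * (dx g.1)⁻¹) * h1

theorem sl5_prim_zero (ω : (ZMod p)⟦X⟧) : coeff 0 (sl5_prim ω) = 0 := by
  simp [sl5_prim]

theorem sl5_dx_prim (ω : (ZMod p)⟦X⟧) : X ^ (p - 1) ∣ dx (sl5_prim ω) - ω := by
  rw [X_pow_dvd_iff]
  intro m hm
  have h := cast_ne_zero (p := p) (a := m + 1) (by omega) (by omega)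
  rw [map_sub, dx, coeff_derivative, sl5_prim, coeff_mk, Nat.add_sub_cancel, mul_assoc,
    ← Nat.cast_succ, inv_mul_cancel₀ h, mul_one, sub_self]

theorem sl5_uniq {F : (ZMod p)⟦X⟧} (h0 : coeff 0 F = 0) (h : X ^ (p - 1) ∣ dx F) : X ^ p ∣ F := by
  rw [X_pow_dvd_iff] at h ⊢
  intro m hm
  cases m with
  | zero => exact h0
  | succ m =>
    have h1 := h m (by omega)
    rw [dx, coeff_derivative, ← Nat.cast_succ] at h1
    exact (mul_eq_zero.1 h1).resolve_right (cast_ne_zero (by omega) hm)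

theorem sl5_res_pb (h : Nott p) (ω : (ZMod p)⟦X⟧) :
    coeff (p - 1) (pb h ω) = coeff (p - 1) ω := by
  have h1 := ru3_zero (i := 1) (m := 1) (n := 0) (l := 1) le_rfl le_rfl (h := h)
    (by rw [Jn_one]; trivial) (ω := ω) (by simp) (by omega) (by omega)
  rw [one_mul] at h1
  exact sub_eq_zero.1 h1

theorem sl5_prim_mul (f g : Nott p) : X ^ p ∣ sl5_prim (sl5_dl (f * g)) -
    (((sl5_prim (sl5_dl f)).subst g.1 : (ZMod p)⟦X⟧) + sl5_prim (sl5_dl g)) := by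
  refine sl5_uniq ?_ ?_
  · rw [map_sub, map_add, sl5_prim_zero, sl5_prim_zero,
      subst_coeff_zero _ _ (sl5_prim_zero _) g.2.1]
    simp
  · have h1 := sl5_dx_prim (sl5_dl (f * g))
    have h2 := pb_dvd g (sl5_dx_prim (sl5_dl f))
    have h3 := sl5_dx_prim (sl5_dl g)
    have e : pb g (dx (sl5_prim (sl5_dl f)) - sl5_dl f) =
        dx ((sl5_prim (sl5_dl f)).subst g.1 : (ZMod p)⟦X⟧) - pb g (sl5_dl f) := by
      rw [ru1_dx_subst]
      unfold pb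
      rw [subst_sub (hasSubst_of g.2.1), sub_mul]
    rw [e] at h2
    have h4 := dvd_sub (dvd_sub h1 h2) h3
    rw [sl5_dl_mul] at h4 ⊢
    convert h4 using 1
    simp only [dx, map_sub, map_add]
    ring

/-- The Bott cocycle. -/
noncomputable def sl5_bott (f g : Nott p) : ZMod p :=
  coeff (p - 1) (((sl5_prim (sl5_dl f)).subst g.1 : (ZMod p)⟦X⟧) * sl5_dl g)

theorem sl5_assoc (f g h : Nott p) :
    sl5_bott f g + sl5_bott (f * g) h = sl5_bott g h + sl5_bott f (g * h) := by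
  have hp := (Fact.out : p.Prime).pos
  have hs := hasSubst_of h.2.1
  have h1 := (rq3_subst_dvd h (sl5_prim_mul f g)).mul_right (sl5_dl h)
  rw [subst_sub hs, sub_mul] at h1
  have h2 := coeff_eq_of_dvd h1 (m := p - 1) (by omega)
  have h3 := sl5_res_pb h (((sl5_prim (sl5_dl f)).subst g.1 : (ZMod p)⟦X⟧) * sl5_dl g)
  unfold sl5_bott
  rw [h2, ← h3, sl5_dl_mul g h, mul_val g h, ← subst_assoc _ _ _ g.2.1 h.2.1, subst_add hs]
  unfold pb
  rw [subst_mul hs, ← map_add, ← map_add]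
  congr 1
  ring

theorem sl5_dl_lead {i : ℕ} (hi : 1 ≤ i) {f : Nott p} (hf : f ∈ Jn p i) :
    X ^ (i - 1) ∣ sl5_dl f ∧
      coeff (i - 1) (sl5_dl f) = (i : ZMod p) * (i + 1) * coeff (i + 1) f.1 := by
  obtain ⟨k, rfl⟩ : ∃ k, i = k + 1 := ⟨i - 1, by omega⟩
  rw [Nat.add_sub_cancel]
  have h1 : (X : (ZMod p)⟦X⟧) ^ k ∣ dx (dx f.1) := by
    rw [X_pow_dvd_iff]
    intro m hm
    rw [dx, dx, coeff_derivative, coeff_derivative, ru1_coeff hf (by omega) (by omega)]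
    simp
  have h2 : coeff k (dx (dx f.1)) = ((k + 1 : ℕ) : ZMod p) * ((k + 1 : ℕ) + 1) *
      coeff (k + 1 + 1) f.1 := by
    rw [dx, dx, coeff_derivative, coeff_derivative]
    push_cast
    ring
  obtain ⟨W, hW⟩ := h1
  refine ⟨Dvd.dvd.mul_right ⟨W, hW⟩ _, ?_⟩
  rw [← h2, sl5_dl, hW, mul_assoc, ru1_coeff_pow_mul, ru1_inv_zero, coeff_X_pow_mul',
    if_pos le_rfl, Nat.sub_self, mul_one]

theorem sl5_prim_lead {i : ℕ} {ω : (ZMod p)⟦X⟧} (h : X ^ (i - 1) ∣ ω) : X ^ i ∣ sl5_prim ω := by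
  rw [X_pow_dvd_iff] at h ⊢
  intro m hm
  cases m with
  | zero => exact sl5_prim_zero ω
  | succ m => rw [sl5_prim, coeff_mk, h _ (by omega), zero_mul]

theorem sl5_dvd {i j : ℕ} (hi : 1 ≤ i) (hj : 1 ≤ j) {f g : Nott p} (hf : f ∈ Jn p i)
    (hg : g ∈ Jn p j) (h : p < i + j) : sl5_bott f g = 0 := by
  have h1 := rq3_subst_dvd g (sl5_prim_lead (sl5_dl_lead hi hf).1)
  have h2 := rq5_mul_dvd h1 (sl5_dl_lead hj hg).1 (k := i + (j - 1)) le_rfl
  exact X_pow_dvd_iff.1 h2 _ (by omega)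

theorem sl5_top {i j : ℕ} (hi : 1 ≤ i) (hj : 1 ≤ j) {f g : Nott p} (hf : f ∈ Jn p i)
    (hg : g ∈ Jn p j) (h : i + j = p) : sl5_bott f g =
      ((i : ZMod p) + 1) * (j * (j + 1)) * coeff (i + 1) f.1 * coeff (j + 1) g.1 := by
  obtain ⟨a1, a2⟩ := sl5_dl_lead hi hf
  obtain ⟨⟨W, hW⟩, b2⟩ := sl5_dl_lead hj hg
  obtain ⟨V, hV⟩ := sl5_prim_lead a1
  have hne := cast_ne_zero (p := p) (a := i) (by omega) (by omega)
  have c1 : coeff 0 V = ((i : ZMod p) + 1) * coeff (i + 1) f.1 := by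
    have : coeff i (sl5_prim (sl5_dl f)) = coeff 0 V := by
      rw [hV, coeff_X_pow_mul', if_pos le_rfl, Nat.sub_self]
    rw [← this, sl5_prim, coeff_mk, a2]
    field_simp
  have c2 : coeff 0 W = (j : ZMod p) * (j + 1) * coeff (j + 1) g.1 := by
    rw [← b2, hW, coeff_X_pow_mul', if_pos le_rfl, Nat.sub_self]
  obtain ⟨r, hr⟩ := rq3_subst le_rfl (g := g) (by rw [Jn_one]; trivial) i V
  have e : p - 1 = i + (j - 1) := by omega
  unfold sl5_bott
  rw [hV, hr, hW, e]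
  set U : (ZMod p)⟦X⟧ := (i : (ZMod p)⟦X⟧) * C (coeff (1 + 1) g.1) * C (coeff 0 V) + X * r
  have e2 : (X ^ i * V + X ^ (i + 1) * U) * (X ^ (j - 1) * W) =
      X ^ (i + (j - 1)) * ((V + X * U) * W) := by ring
  rw [e2, ru1_coeff_pow_mul, map_add, c1, c2]
  simp only [coeff_zero_eq_constantCoeff_apply, map_mul, constantCoeff_X, zero_mul, add_zero]
  ring

theorem sl5_coc : ∃ c : Five.Coc (Nott p) (ZMod p),
    (∀ f ∈ Jn p p, ∀ g, c.c f g = 0 ∧ c.c g f = 0) ∧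
    ∀ i j, 1 ≤ i → 1 ≤ j → i + j = p → ∀ f ∈ Jn p i, ∀ g ∈ Jn p j, c.c f g - c.c g f =
      2 * ((i : ZMod p) ^ 3 - i) * coeff (i + 1) f.1 * coeff (j + 1) g.1 := by
  have hp := (Fact.out : p.Prime).pos
  have h1 : ∀ g : Nott p, g ∈ Jn p 1 := fun g => by rw [Jn_one]; trivial
  have hv : ∀ f ∈ Jn p p, ∀ g, sl5_bott f g = 0 ∧ sl5_bott g f = 0 := fun f hf g =>
    ⟨sl5_dvd hp le_rfl hf (h1 g) (by omega), sl5_dvd le_rfl hp (h1 g) hf (by omega)⟩
  refine ⟨⟨sl5_bott, sl5_assoc, fun f => (hv 1 (one_mem _) f).1, fun f => (hv 1 (one_mem _) f).2⟩,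
    hv, fun i j hi hj hij f hf g hg => ?_⟩
  have e : (j : ZMod p) = -i := by
    have : ((i + j : ℕ) : ZMod p) = 0 := by rw [hij, ZMod.natCast_self]
    push_cast at this
    linear_combination this
  change sl5_bott f g - sl5_bott g f = _
  rw [sl5_top hi hj hf hg hij, sl5_top hj hi hg hf (by omega), e]
  ring

end Pool.Agent.P.MP_e06b60_al.R
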