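import Mathlib
import Pool.Agent.P.MP_e06b60_al.SL4
import Pool.Agent.P.MP_e06b60_al.SL5

/-! Central extensions of the Nottingham group by a cocycle which vanishes on a deep term. -/

namespace Pool.Agent.P.MP_e06b60_al.R

open PowerSeries Five
open scoped commutatorElement

variable {p : ℕ} [Fact p.Prime]

theorem sl6_center {f : Nott p} (h : ∀ g, f * g = g * f) : f = 1 := by
  have hc : ∀ g : Nott p, ⁅f, g⁆ = 1 := fun g => commutatorElement_eq_one_iff_mul_comm.mpr (h g)
  refine eq_one_of_Jn fun n hn => ?_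
  induction n, hn using Nat.le_induction with
  | base => rw [Jn_one]; trivial
  | succ n hn ih =>
    rw [mem_succ_iff hn ih]
    have key : ∀ t : ℕ, ((n : ZMod p) - ((t + 1 : ℕ) : ZMod p)) * coeff (n + 1) f.1 = 0 := by
      intro t
      have := (comm_lead hn (by omega) ih (el_mem (p := p) t)).2
      rw [hc, one_val, coeff_X, if_neg (by omega), el_coeff, mul_one] at this
      exact this.symm
    have h1 := key 0
    have h2 := key 1
    push_cast at h1 h2
    linear_combination h1 - h2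

theorem sl6_pow_mem (f : Nott p) (k : ℕ) : f ^ p ^ k ∈ Jn p (k + 1) := by
  induction k with
  | zero => rw [zero_add, Jn_one]; trivial
  | succ k ih => rw [pow_succ, pow_mul]; exact (JW p).exp JW_ker (by omega) ih

theorem sl6_td : TotallyDisconnectedSpace (Nott p) :=
  (rj1_closedEmbedding (p := p)).isEmbedding.isTotallyDisconnected_range.mp
    (isTotallyDisconnected_of_totallyDisconnectedSpace _)

theorem sl6_inf : Infinite (Nott p) := by
  refine Infinite.of_injective (el p) fun m n h => ?_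
  by_contra hmn
  have := el_coeff (p := p) m
  rw [h] at this
  simp only [el, map_add, coeff_X, coeff_X_pow] at this
  rw [if_neg (by omega), if_neg (by omega), add_zero] at this
  exact zero_ne_one this

/-- The extension, as a type carrying the product topology. -/
def sl6_E (c : Five.Coc (Nott p) (ZMod p)) : Type := Ext c

section
variable (c : Five.Coc (Nott p) (ZMod p))

noncomputable instance sl6_group : Group (sl6_E c) := inferInstanceAs (Group (Ext c))

noncomputable instance sl6_topo : TopologicalSpace (sl6_E c) :=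
  inferInstanceAs (TopologicalSpace (Nott p × ZMod p))

/-- The element with given components. -/
def sl6_mk (f : Nott p) (a : ZMod p) : sl6_E c := (f, a)

/-- The first component. -/
noncomputable def sl6_fst : sl6_E c →* Nott p := Ext.proj c

/-- The second component. -/
def sl6_snd (u : sl6_E c) : ZMod p := Prod.snd u

theorem sl6_ext {u v : sl6_E c} (h1 : sl6_fst c u = sl6_fst c v) (h2 : sl6_snd c u = sl6_snd c v) :
    u = v := Prod.ext h1 h2

theorem sl6_fst_mk (f : Nott p) (a : ZMod p) : sl6_fst c (sl6_mk c f a) = f := rfl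
theorem sl6_snd_mk (f : Nott p) (a : ZMod p) : sl6_snd c (sl6_mk c f a) = a := rfl
theorem sl6_snd_one : sl6_snd c 1 = 0 := rfl
theorem sl6_snd_mul (u v : sl6_E c) : sl6_snd c (u * v) =
    sl6_snd c u + sl6_snd c v + c.c (sl6_fst c u) (sl6_fst c v) := rfl
theorem sl6_snd_inv (u : sl6_E c) : sl6_snd c u⁻¹ =
    -sl6_snd c u - c.c (sl6_fst c u)⁻¹ (sl6_fst c u) := rfl

theorem sl6_cfst : Continuous (sl6_fst c) := continuous_fst
theorem sl6_csnd : Continuous (sl6_snd c) := continuous_snd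

theorem sl6_compact : CompactSpace (sl6_E c) :=
  haveI : CompactSpace (Nott p) := nott_compact
  inferInstanceAs (CompactSpace (Nott p × ZMod p))

theorem sl6_t2 : T2Space (sl6_E c) :=
  haveI : T2Space (Nott p) := nott_t2
  inferInstanceAs (T2Space (Nott p × ZMod p))

theorem sl6_tdE : TotallyDisconnectedSpace (sl6_E c) :=
  haveI : TotallyDisconnectedSpace (Nott p) := sl6_td
  inferInstanceAs (TotallyDisconnectedSpace (Nott p × ZMod p))

theorem sl6_infE : Infinite (sl6_E c) :=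
  haveI : Infinite (Nott p) := sl6_inf
  inferInstanceAs (Infinite (Nott p × ZMod p))

theorem sl6_not_iso : IsEmpty (sl6_E c ≃* Nott p) := by
  refine ⟨fun e => ?_⟩
  have h : e (sl6_mk c 1 1) = 1 := sl6_center fun g => by
    obtain ⟨u, rfl⟩ := e.surjective g
    rw [← map_mul, ← map_mul]
    exact congrArg e (Ext.cen_comm c 1 u)
  rw [EmbeddingLike.map_eq_one_iff] at h
  exact one_ne_zero (congrArg (sl6_snd c) h)

variable {w : ℕ} (hv : ∀ f ∈ Jn p w, ∀ g, c.c f g = 0 ∧ c.c g f = 0)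
include hv

theorem sl6_right (f g : Nott p) {u : Nott p} (hu : u ∈ Jn p w) : c.c f (g * u) = c.c f g := by
  have := c.assoc f g u
  rw [(hv u hu _).2, (hv u hu _).2, add_zero, zero_add] at this
  exact this.symm

theorem sl6_left (f g : Nott p) {u : Nott p} (hu : u ∈ Jn p w) : c.c (f * u) g = c.c f g := by
  have := c.assoc f u g
  rw [(hv u hu _).2, (hv u hu _).1, zero_add, zero_add] at this
  have h2 : g⁻¹ * u * g⁻¹⁻¹ ∈ Jn p w := (Jn_normal w).conj_mem u hu g⁻¹
  rw [this, show u * g = g * (g⁻¹ * u * g⁻¹⁻¹) by group, sl6_right c hv f g h2]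

theorem sl6_cont : Continuous fun u : Nott p × Nott p => c.c u.1 u.2 := by
  have : DiscreteTopology (Nott p ⧸ Jn p w) := QuotientGroup.discreteTopology (Jn_isOpen w)
  have e : (fun u : Nott p × Nott p => c.c u.1 u.2) =
      (fun q : (Nott p ⧸ Jn p w) × (Nott p ⧸ Jn p w) => c.c q.1.out q.2.out) ∘
        fun u => ((u.1 : Nott p ⧸ Jn p w), (u.2 : Nott p ⧸ Jn p w)) := by
    funext u
    obtain ⟨a, ha⟩ := QuotientGroup.mk_out_eq_mul (Jn p w) u.1
    obtain ⟨b, hb⟩ := QuotientGroup.mk_out_eq_mul (Jn p w) u.2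
    simp only [Function.comp]
    rw [ha, hb, sl6_left c hv _ _ a.2, sl6_right c hv _ _ b.2]
  rw [e]
  exact continuous_of_discreteTopology.comp
    ((QuotientGroup.continuous_mk.comp continuous_fst).prodMk
      (QuotientGroup.continuous_mk.comp continuous_snd))

theorem sl6_tg : IsTopologicalGroup (sl6_E c) where
  continuous_mul := by
    have h1 : Continuous fun u : sl6_E c × sl6_E c => sl6_fst c u.1 :=
      (sl6_cfst c).comp continuous_fst
    have h2 : Continuous fun u : sl6_E c × sl6_E c => sl6_fst c u.2 :=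
      (sl6_cfst c).comp continuous_snd
    have h3 : Continuous fun u : sl6_E c × sl6_E c => sl6_snd c u.1 :=
      (sl6_csnd c).comp continuous_fst
    have h4 : Continuous fun u : sl6_E c × sl6_E c => sl6_snd c u.2 :=
      (sl6_csnd c).comp continuous_snd
    exact (h1.mul h2).prodMk ((h3.add h4).add ((sl6_cont c hv).comp (h1.prodMk h2)))
  continuous_inv :=
    (sl6_cfst c).inv.prodMk
      ((sl6_csnd c).neg.sub ((sl6_cont c hv).comp ((sl6_cfst c).inv.prodMk (sl6_cfst c))))

theorem sl6_comm (u v : sl6_E c) (h : ⁅sl6_fst c u, sl6_fst c v⁆ ∈ Jn p w) :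
    sl6_snd c ⁅u, v⁆ = c.c (sl6_fst c u) (sl6_fst c v) - c.c (sl6_fst c v) (sl6_fst c u) := by
  have e : ⁅u, v⁆ * (v * u) = u * v := by rw [commutatorElement_def]; group
  have e2 := congrArg (sl6_snd c) e
  rw [sl6_snd_mul, sl6_snd_mul, sl6_snd_mul, map_commutatorElement, (hv _ h _).1] at e2
  linear_combination e2

theorem sl6_pow {u : sl6_E c} (hu : sl6_fst c u ∈ Jn p w) (n : ℕ) :
    sl6_snd c (u ^ n) = n * sl6_snd c u := by
  induction n with
  | zero => rw [pow_zero, sl6_snd_one]; simp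
  | succ n ih =>
    rw [pow_succ, sl6_snd_mul, ih, (hv _ hu _).2]
    push_cast
    ring

theorem sl6_pro (N : OpenNormalSubgroup (sl6_E c)) : IsPGroup p (sl6_E c ⧸ N.toSubgroup) := by
  intro q
  obtain ⟨g, rfl⟩ := QuotientGroup.mk_surjective q
  have a1 : Filter.Tendsto (fun n : ℕ => sl6_fst c (g ^ p ^ (n + w + 1))) Filter.atTop (nhds 1) :=
    rj1_tendsto fun n => by
      rw [mul_one, map_pow]
      exact inv_mem (Jn_anti (by omega) (sl6_pow_mem _ (n + w + 1)))
  have a2 : Filter.Tendsto (fun n : ℕ => sl6_snd c (g ^ p ^ (n + w + 1))) Filter.atTop (nhds 0) :=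
    tendsto_const_nhds.congr fun n => by
      have hu : sl6_fst c (g ^ p ^ (n + w)) ∈ Jn p w := by
        rw [map_pow]
        exact Jn_anti (by omega) (sl6_pow_mem _ (n + w))
      rw [pow_succ, pow_mul, sl6_pow c hv hu, ZMod.natCast_self, zero_mul]
  have ht : Filter.Tendsto (fun n : ℕ => g ^ p ^ (n + w + 1)) Filter.atTop (nhds 1) :=
    a1.prodMk_nhds a2
  obtain ⟨n, hn⟩ := (ht.eventually (N.isOpen.mem_nhds N.one_mem)).exists
  exact ⟨n + w + 1, by rw [← QuotientGroup.mk_pow, QuotientGroup.eq_one_iff]; exact hn⟩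

theorem sl6_cen [IsTopologicalGroup (sl6_E c)] (hp : 7 ≤ p) (hw : 1 ≤ w) (hw1 : (w : ZMod p) ≠ 1)
    {m : ℕ} (hwm : Jn p w ≤ gamma (Nott p) m)
    {f1 g1 f2 g2 : Nott p} (h1 : f1 ∈ gamma (Nott p) m) (h2 : f2 ∈ gamma (Nott p) m)
    (a1 : ⁅f1, g1⁆ ∈ Jn p w) (a2 : ⁅f2, g2⁆ ∈ Jn p w) (b1 : c.c f1 g1 - c.c g1 f1 ≠ 0)
    (b2 : c.c f2 g2 - c.c g2 f2 = 0) (d2 : coeff (w + 1) (⁅f2, g2⁆ : Nott p).1 ≠ 0)
    (a : ZMod p) : sl6_mk c 1 a ∈ gamma (sl6_E c) (m + 1) := by
  have := sl6_compact c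
  have : T2Space (Nott p) := nott_t2
  have hmap := map_gamma (sl6_fst c) (sl6_cfst c) (fun f => ⟨sl6_mk c f 0, rfl⟩) m
  have hcomm : ∀ f ∈ gamma (Nott p) m, ∀ g : Nott p, ⁅f, g⁆ ∈ Jn p w →
      sl6_mk c ⁅f, g⁆ (c.c f g - c.c g f) ∈ gamma (sl6_E c) (m + 1) := by
    intro f hf g hfg
    obtain ⟨u, hu, rfl⟩ := Subgroup.mem_map.mp (hmap ▸ hf)
    have h1 : ⁅u, sl6_mk c g 0⁆ ∈ gamma (sl6_E c) (m + 1) :=
      Subgroup.le_topologicalClosure _
        (Subgroup.commutator_mem_commutator hu (Subgroup.mem_top _))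
    have e : ⁅u, sl6_mk c g 0⁆ = sl6_mk c ⁅sl6_fst c u, g⁆
        (c.c (sl6_fst c u) g - c.c g (sl6_fst c u)) :=
      sl6_ext c (map_commutatorElement (sl6_fst c) u (sl6_mk c g 0))
        (sl6_comm c hv u (sl6_mk c g 0) hfg)
    exact e ▸ h1
  let K : Subgroup (Nott p) :=
    { carrier := {f | f ∈ Jn p w ∧ sl6_mk c f 0 ∈ gamma (sl6_E c) (m + 1)}
      one_mem' := ⟨one_mem _, one_mem _⟩
      mul_mem' := fun {f g} hf hg => ⟨mul_mem hf.1 hg.1, by
        have e : sl6_mk c f 0 * sl6_mk c g 0 = sl6_mk c (f * g) 0 :=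
          sl6_ext c rfl (by
            simp only [sl6_snd_mul, sl6_fst_mk, sl6_snd_mk, (hv _ hf.1 _).1, add_zero])
        exact e ▸ mul_mem hf.2 hg.2⟩
      inv_mem' := fun {f} hf => ⟨inv_mem hf.1, by
        have e : (sl6_mk c f 0)⁻¹ = sl6_mk c f⁻¹ 0 :=
          sl6_ext c rfl (by
            simp only [sl6_snd_inv, sl6_fst_mk, sl6_snd_mk, (hv _ hf.1 _).2, neg_zero,
              sub_zero])
        exact e ▸ inv_mem hf.2⟩ }
  have hK : Jn p w ≤ K := by
    have hco : Continuous fun f : Nott p => sl6_mk c f 0 := continuous_id.prodMk continuous_const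
    refine Jn_le_of_isClosed ((Jn_isClosed w).inter ((sl4_closed _ (m + 1)).preimage hco)) hw
      fun n hn => ?_
    rcases hn.eq_or_lt with rfl | hlt
    · exact ⟨_, ⟨a2, b2 ▸ hcomm f2 h2 g2 a2⟩, a2, d2⟩
    · obtain ⟨f, hf, g, h1, h2⟩ := rj1_depth (ru5_two hp) (m := w) (n := n) hw (by
        rcases Nat.eq_or_lt_of_le (Nat.succ_le_of_lt hlt) with h | h
        · exact Or.inr ⟨h, hw1⟩
        · exact Or.inl h)
      have h3 : ⁅f, g⁆ ∈ Jn p w := Jn_anti hn h1
      have h4 := hcomm f (hwm hf) g h3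
      rw [(hv f hf g).1, (hv f hf g).2, sub_zero] at h4
      exact ⟨_, ⟨h3, h4⟩, h1, h2⟩
  set b := c.c f1 g1 - c.c g1 f1 with hb
  have h3 : sl6_mk c 1 b ∈ gamma (sl6_E c) (m + 1) := by
    have e : sl6_mk c 1 b * sl6_mk c ⁅f1, g1⁆ 0 = sl6_mk c ⁅f1, g1⁆ b :=
      sl6_ext c (one_mul _) (by
        simp only [sl6_snd_mul, sl6_fst_mk, sl6_snd_mk, c.left, add_zero])
    have := mul_mem (hcomm f1 h1 g1 a1) (inv_mem (hK a1).2)
    rwa [← hb, ← e, mul_inv_cancel_right] at this
  have h4 := pow_mem h3 (a * b⁻¹).val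
  have e : sl6_mk c 1 b ^ (a * b⁻¹).val = sl6_mk c 1 a :=
    sl6_ext c (by rw [map_pow, sl6_fst_mk, sl6_fst_mk, one_pow]) (by
      rw [sl6_pow c hv (one_mem _), sl6_snd_mk, sl6_snd_mk, ZMod.natCast_zmod_val, mul_assoc,
        inv_mul_cancel₀ b1, mul_one])
  exact e ▸ h4

omit hv in
theorem sl6_quot [IsTopologicalGroup (sl6_E c)] {m : ℕ}
    (hopen : IsOpen (gamma (Nott p) m : Set (Nott p)))
    (hz : ∀ a, sl6_mk c 1 a ∈ gamma (sl6_E c) m) :
    Nonempty ((sl6_E c ⧸ gamma (sl6_E c) m) ≃ₜ* (Nott p ⧸ gamma (Nott p) m)) := by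
  have := sl6_compact c
  have : T2Space (Nott p) := nott_t2
  have hs : Function.Surjective (sl6_fst c) := fun f => ⟨sl6_mk c f 0, rfl⟩
  have hmap := map_gamma (sl6_fst c) (sl6_cfst c) hs m
  have hker : (sl6_fst c).ker ≤ gamma (sl6_E c) m := by
    intro u hu
    have : u = sl6_mk c 1 (sl6_snd c u) := sl6_ext c hu rfl
    rw [this]; exact hz _
  have hcomap : (gamma (Nott p) m).comap (sl6_fst c) = gamma (sl6_E c) m := by
    rw [← hmap, Subgroup.comap_map_eq, sup_eq_left.mpr hker]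
  have hopen' : IsOpen (gamma (sl6_E c) m : Set (sl6_E c)) := by
    rw [← hcomap]; exact hopen.preimage (sl6_cfst c)
  have : DiscreteTopology (sl6_E c ⧸ gamma (sl6_E c) m) := QuotientGroup.discreteTopology hopen'
  have : DiscreteTopology (Nott p ⧸ gamma (Nott p) m) := QuotientGroup.discreteTopology hopen
  let φ : sl6_E c →* Nott p ⧸ gamma (Nott p) m := (QuotientGroup.mk' _).comp (sl6_fst c)
  have hφ : φ.ker = gamma (sl6_E c) m := by
    rw [← hcomap, ← MonoidHom.comap_ker, QuotientGroup.ker_mk']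
  exact ⟨{ (QuotientGroup.quotientMulEquivOfEq hφ.symm).trans
      (QuotientGroup.quotientKerEquivOfSurjective φ
        ((QuotientGroup.mk'_surjective _).comp hs)) with
    continuous_toFun := continuous_of_discreteTopology
    continuous_invFun := continuous_of_discreteTopology }⟩

end

theorem sl6_counter (hp : 7 ≤ p) {m : ℕ} (hm : m + 3 ≤ p) :
    ∃ (G : Type) (_ : Group G) (_ : TopologicalSpace G) (_ : IsTopologicalGroup G),
      CompactSpace G ∧ T2Space G ∧ TotallyDisconnectedSpace G ∧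
      (∀ N : OpenNormalSubgroup G, IsPGroup p (G ⧸ N.toSubgroup)) ∧ Infinite G ∧
      Nonempty ((G ⧸ gamma G m) ≃ₜ* (Nott p ⧸ gamma (Nott p) m)) ∧ IsEmpty (G ≃* Nott p) := by
  obtain ⟨c, hv, ht⟩ := sl5_coc (p := p)
  have := sl6_tg c hv
  refine ⟨sl6_E c, inferInstance, inferInstance, this, sl6_compact c, sl6_t2 c, sl6_tdE c,
    sl6_pro c hv, sl6_infE c, ?_, sl6_not_iso c⟩
  obtain ⟨q, hq⟩ : ∃ q, q + 4 = p := ⟨p - 4, by omega⟩
  have hg : gamma (Nott p) q = Jn p (q + 2) := sl4_low hp q (by omega) (by omega)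
  have hg' : gamma (Nott p) (q + 1) = Jn p (q + 1 + 2) := sl4_low hp _ (by omega) (by omega)
  have hq0 : (q : ZMod p) = -4 := by
    have : ((q + 4 : ℕ) : ZMod p) = 0 := by rw [hq, ZMod.natCast_self]
    push_cast at this
    linear_combination this
  have two := ru5_two hp
  have three : (3 : ZMod p) ≠ 0 := by
    simpa using (cast_ne_zero (p := p) (a := 3) (by omega) (by omega))
  obtain ⟨a1, -⟩ := comm_lead (p := p) (by omega) (by omega) (el_mem (q + 1)) (el_mem 1)
  obtain ⟨a2, d2⟩ := comm_lead (p := p) (by omega) (by omega) (el_mem (q + 2)) (el_mem 0)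
  have b1 := ht _ _ (by omega) (by omega) (by omega) _ (el_mem (q + 1)) _ (el_mem 1)
  have b2 := ht _ _ (by omega) (by omega) (by omega) _ (el_mem (q + 2)) _ (el_mem 0)
  rw [el_coeff, el_coeff] at b1 b2 d2
  rw [show q + 1 + 1 + (1 + 1) = p by omega] at a1
  rw [show q + 2 + 1 + (0 + 1) = p by omega] at a2 d2
  have hz := sl6_cen c hv hp (by omega) (by rw [ZMod.natCast_self]; exact zero_ne_one) (m := q)
    (hg ▸ Jn_anti (by omega)) (hg ▸ el_mem (q + 1)) (hg ▸ Jn_anti (by omega) (el_mem (q + 2)))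
    a1 a2 (by
      rw [b1]
      push_cast
      rw [hq0]
      intro h
      exact mul_ne_zero (mul_ne_zero two two) three (by linear_combination -h)) (by
      rw [b2]
      push_cast
      rw [hq0]
      ring) (by
      rw [d2]
      push_cast
      rw [hq0]
      intro h
      exact two (by linear_combination -h))
  refine sl6_quot c ?_ fun a => sl4_anti _ (by omega) (hz a)
  exact Subgroup.isOpen_mono (hg' ▸ sl4_anti _ (by omega : m ≤ q + 1)) (Jn_isOpen (q + 1 + 2))

end Pool.Agent.P.MP_e06b60_al.R
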