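import Mathlib
import Pool.Agent.P.MP_e06b60_al.SL6
import Pool.Agent.P.MP_e06b60_al.Ext7

/-! The exact level of recognition for the primes at least seven. -/

namespace Pool.Agent.P.MP_e06b60_al.R

open PowerSeries Five
open scoped commutatorElement

variable {p : ℕ} [Fact p.Prime]

theorem sl6_seven (hp : p = 7) {m : ℕ} (hm : m ≤ 10) :
    ∃ (G : Type) (_ : Group G) (_ : TopologicalSpace G) (_ : IsTopologicalGroup G),
      CompactSpace G ∧ T2Space G ∧ TotallyDisconnectedSpace G ∧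
      (∀ N : OpenNormalSubgroup G, IsPGroup p (G ⧸ N.toSubgroup)) ∧ Infinite G ∧
      Nonempty ((G ⧸ gamma G m) ≃ₜ* (Nott p ⧸ gamma (Nott p) m)) ∧ IsEmpty (G ≃* Nott p) := by
  subst hp
  obtain ⟨c, d, hd, hy, hx⟩ := Seven.exists_coc
  have hv : ∀ f ∈ Jn 7 14, ∀ g, c.c f g = 0 ∧ c.c g f = 0 := fun f hf g =>
    ⟨by rw [hd, (QuotientGroup.eq_one_iff f).mpr hf, ← QuotientGroup.mk_one, ← hd, c.left],
      by rw [hd, (QuotientGroup.eq_one_iff f).mpr hf, ← QuotientGroup.mk_one, ← hd, c.right]⟩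
  have := sl6_tg c hv
  refine ⟨sl6_E c, inferInstance, inferInstance, this, sl6_compact c, sl6_t2 c, sl6_tdE c,
    sl6_pro c hv, sl6_infE c, ?_, sl6_not_iso c⟩
  have hg : gamma (Nott 7) 9 = Jn 7 12 := sl4_mid le_rfl 9 (by omega) (by omega)
  have hg' : gamma (Nott 7) 10 = Jn 7 13 := sl4_mid le_rfl 10 (by omega) (by omega)
  obtain ⟨a1, -⟩ := comm_lead (p := 7) (by omega) (by omega) (el_mem 11) (el_mem 1)
  obtain ⟨a2, d2⟩ := comm_lead (p := 7) (by omega) (by omega) (el_mem 12) (el_mem 0)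
  rw [el_coeff, el_coeff] at d2
  have m0 : Jn 7 14 ≤ gamma (Nott 7) 9 := by rw [hg]; exact Jn_anti (by omega)
  have m1 : el 7 11 ∈ gamma (Nott 7) 9 := by rw [hg]; exact el_mem 11
  have m2 : el 7 12 ∈ gamma (Nott 7) 9 := by rw [hg]; exact Jn_anti (by omega) (el_mem 12)
  have a1' : ⁅el 7 11, el 7 1⁆ ∈ Jn 7 14 := a1
  have a2' : ⁅el 7 12, el 7 0⁆ ∈ Jn 7 14 := a2
  have b1 : c.c (el 7 11) (el 7 1) - c.c (el 7 1) (el 7 11) ≠ 0 := by
    rw [Seven.gy] at hy
    rw [hy]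
    exact one_ne_zero
  have b2 : c.c (el 7 12) (el 7 0) - c.c (el 7 0) (el 7 12) = 0 := by
    rw [Seven.gx] at hx
    exact hx
  have d3 : coeff (14 + 1) (⁅el 7 12, el 7 0⁆ : Nott 7).1 ≠ 0 := by
    rw [show 12 + 1 + (0 + 1) = 14 by rfl] at d2
    rw [d2]
    intro h
    refine cast_ne_zero (p := 7) (a := 5) (by omega) (by omega) ?_
    have h7 := ZMod.natCast_self 7
    push_cast at h h7 ⊢
    linear_combination h - h7
  have hw : ((14 : ℕ) : ZMod 7) ≠ 1 := rj1_ne_one le_rfl (by omega)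
  have hz := sl6_cen c hv le_rfl (by omega) hw m0 m1 m2 a1' a2' b1 b2 d3
  refine sl6_quot c ?_ fun a => sl4_anti _ hm (hz a)
  refine Subgroup.isOpen_mono ?_ (Jn_isOpen 13)
  rw [← hg']
  exact sl4_anti _ hm

theorem sharp_level (p : ℕ) (hpp : p.Prime) (hp : 7 ≤ p) (n : ℕ) (hn : 1 ≤ n) :
    (∀ (G : Type) [Group G] [TopologicalSpace G] [IsTopologicalGroup G],
      CompactSpace G → T2Space G → TotallyDisconnectedSpace G →
      (∀ N : OpenNormalSubgroup G, IsPGroup p (G ⧸ N.toSubgroup)) → Infinite G →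
      Nonempty ((G ⧸ gamma G (n - 1)) ≃ₜ* (Nott p ⧸ gamma (Nott p) (n - 1))) →
      Nonempty (G ≃ₜ* Nott p)) ↔ (if p = 7 then 12 else p - 1) ≤ n := by
  have : Fact p.Prime := ⟨hpp⟩
  constructor
  · intro h
    by_contra hm
    split_ifs at hm with h7
    · obtain ⟨G, i1, i2, i3, a1, a2, a3, a4, a5, a6, a7⟩ :=
        sl6_seven h7 (m := n - 1) (by omega)
      obtain ⟨e⟩ := h G a1 a2 a3 a4 a5 a6
      exact a7.false e.toMulEquiv
    · obtain ⟨G, i1, i2, i3, a1, a2, a3, a4, a5, a6, a7⟩ :=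
        sl6_counter hp (m := n - 1) (by omega)
      obtain ⟨e⟩ := h G a1 a2 a3 a4 a5 a6
      exact a7.false e.toMulEquiv
  · rintro hm G _ _ _ _ _ _ hpro _ ⟨Φ⟩
    split_ifs at hm with h7
    · exact sl4_main2 p hp (by omega) G hpro Φ
    · have h11 : 11 ≤ p := by
        by_contra h
        interval_cases p <;> first | omega | (exfalso; revert hpp; norm_num)
      exact sl4_main p h11 (by omega) G hpro Φ

end Pool.Agent.P.MP_e06b60_al.R
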